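import Pool.Agent.QJ.Ops
import Pool.Agent.Lib_helper67.QE.Tame

/-!
Dominated sequences: closure properties.
-/

open Complex MeasureTheory Filter Topology Set
open scoped ContDiff

namespace QJ

open QE

noncomputable section

variable {V : Set ℂ} {σ : ℂ → ℝ} {h : ℕ → ℝ} {φ : ℕ → ℂ → ℂ}

lemma one_le_RR (h : ℕ → ℝ) (φ : ℕ → ℂ → ℂ) (N n : ℕ) (z : ℂ) : 1 ≤ RR h φ N n z := by
  unfold RR
  have : 0 ≤ ∑ a ∈ Finset.range (N + 1), ∑ b ∈ Finset.range (N + 1), ‖W h φ a b n z‖ ^ 2 :=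
    Finset.sum_nonneg fun a _ => Finset.sum_nonneg fun b _ => by positivity
  linarith

lemma RR_pos (h : ℕ → ℝ) (φ : ℕ → ℂ → ℂ) (N n : ℕ) (z : ℂ) : 0 < RR h φ N n z :=
  lt_of_lt_of_le one_pos (one_le_RR h φ N n z)

lemma RR_mono {N N' : ℕ} (hN : N ≤ N') (n : ℕ) (z : ℂ) : RR h φ N n z ≤ RR h φ N' n z := by
  unfold RR
  have hs : Finset.range (N + 1) ⊆ Finset.range (N' + 1) := Finset.range_mono (by omega)
  gcongr 1 + ?_
  calc ∑ a ∈ Finset.range (N + 1), ∑ b ∈ Finset.range (N + 1), ‖W h φ a b n z‖ ^ 2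
      ≤ ∑ a ∈ Finset.range (N + 1), ∑ b ∈ Finset.range (N' + 1), ‖W h φ a b n z‖ ^ 2 :=
        Finset.sum_le_sum fun a _ => Finset.sum_le_sum_of_subset_of_nonneg hs
          fun b _ _ => by positivity
    _ ≤ ∑ a ∈ Finset.range (N' + 1), ∑ b ∈ Finset.range (N' + 1), ‖W h φ a b n z‖ ^ 2 :=
        Finset.sum_le_sum_of_subset_of_nonneg hs fun a _ _ =>
          Finset.sum_nonneg fun b _ => by positivity

lemma W_sq_le {a b N : ℕ} (ha : a ≤ N) (hb : b ≤ N) (n : ℕ) (z : ℂ) :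
    ‖W h φ a b n z‖ ^ 2 ≤ RR h φ N n z := by
  unfold RR
  have h1 : ‖W h φ a b n z‖ ^ 2 ≤ ∑ b' ∈ Finset.range (N + 1), ‖W h φ a b' n z‖ ^ 2 :=
    Finset.single_le_sum (f := fun b' => ‖W h φ a b' n z‖ ^ 2) (fun b' _ => by positivity)
      (Finset.mem_range.2 (by omega))
  have h2 : ∑ b' ∈ Finset.range (N + 1), ‖W h φ a b' n z‖ ^ 2
      ≤ ∑ a' ∈ Finset.range (N + 1), ∑ b' ∈ Finset.range (N + 1), ‖W h φ a' b' n z‖ ^ 2 :=
    Finset.single_le_sum (f := fun a' => ∑ b' ∈ Finset.range (N + 1), ‖W h φ a' b' n z‖ ^ 2)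
      (fun a' _ => Finset.sum_nonneg fun b' _ => by positivity) (Finset.mem_range.2 (by omega))
  linarith

lemma contDiff_iter_dz {f : ℂ → ℂ} (hf : ContDiff ℝ ∞ f) (a : ℕ) : ContDiff ℝ ∞ (dz^[a] f) := by
  induction a with
  | zero => exact hf
  | succ a ih => rw [Function.iterate_succ_apply']; exact contDiff_dz ih

lemma contDiff_iter_dzb {f : ℂ → ℂ} (hf : ContDiff ℝ ∞ f) (a : ℕ) : ContDiff ℝ ∞ (dzb^[a] f) := by
  induction a with
  | zero => exact hf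
  | succ a ih => rw [Function.iterate_succ_apply']; exact contDiff_dzb ih

lemma dzb_iter_dz {f : ℂ → ℂ} (hf : ContDiff ℝ ∞ f) (a : ℕ) (z : ℂ) :
    dzb (dz^[a] f) z = dz^[a] (dzb f) z := by
  induction a generalizing f with
  | zero => rfl
  | succ a ih =>
    rw [Function.iterate_succ_apply, ih (contDiff_dz hf), Function.iterate_succ_apply]
    have : dzb (dz f) = dz (dzb f) := by funext w; exact (dz_dzb_comm (cd_at2 hf w)).symm
    rw [this]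

lemma contDiff_W (hφ : ∀ n, ContDiff ℝ ∞ (φ n)) (a b n : ℕ) : ContDiff ℝ ∞ (W h φ a b n) := by
  unfold W
  exact contDiff_const.mul (contDiff_iter_dz (contDiff_iter_dzb (hφ n) b) a)

lemma continuous_RR (hφ : ∀ n, ContDiff ℝ ∞ (φ n)) (N n : ℕ) : Continuous (RR h φ N n) := by
  unfold RR
  refine continuous_const.add (continuous_finsetSum _ fun a _ => continuous_finsetSum _ fun b _ =>
    ((contDiff_W hφ a b n).continuous.norm.pow 2))

lemma W_zero : W h φ 0 0 = φ := by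
  funext n z; simp [W]

lemma hdz_W (hφ : ∀ n, ContDiff ℝ ∞ (φ n)) (a b n : ℕ) (z : ℂ) :
    (h n : ℂ) * dz (W h φ a b n) z = W h φ (a + 1) b n z := by
  unfold W
  rw [dz_const_mul _ (cd_at (contDiff_iter_dz (contDiff_iter_dzb (hφ n) b) a) z),
    Function.iterate_succ_apply']
  ring

lemma hdzb_W (hφ : ∀ n, ContDiff ℝ ∞ (φ n)) (a b n : ℕ) (z : ℂ) :
    (h n : ℂ) * dzb (W h φ a b n) z = W h φ a (b + 1) n z := by
  unfold W
  rw [dzb_const_mul _ (cd_at (contDiff_iter_dz (contDiff_iter_dzb (hφ n) b) a) z),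
    dzb_iter_dz (contDiff_iter_dzb (hφ n) b), Function.iterate_succ_apply']
  ring

/-! ### `Bq` -/

lemma Bq.congr {q : ℕ} {u v : ℕ → ℂ → ℂ} (hu : Bq V h φ q u) (he : ∀ n, ∀ z ∈ V, u n z = v n z) :
    Bq V h φ q v := by
  intro K hK hKV
  obtain ⟨N, C, hC⟩ := hu K hK hKV
  refine ⟨N, C, ?_⟩
  filter_upwards [hC] with n hn z hz
  rw [← he n z (hKV hz)]; exact hn z hz

/-- the constant may be taken positive, and the order as large as one likes -/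
lemma Bq.pos {q : ℕ} {u : ℕ → ℂ → ℂ} (hu : Bq V h φ q u) {K : Set ℂ} (hK : IsCompact K)
    (hKV : K ⊆ V) : ∃ (N : ℕ) (C : ℝ), 0 < C ∧ ∀ N' ≥ N, ∀ᶠ n in atTop, ∀ z ∈ K,
      ‖u n z‖ ^ 2 ≤ C * RR h φ N' n z ^ q := by
  obtain ⟨N, C, hC⟩ := hu K hK hKV
  refine ⟨N, max C 1, by positivity, fun N' hN' => ?_⟩
  filter_upwards [hC] with n hn z hz
  have h1 := RR_pos h φ N n z
  calc ‖u n z‖ ^ 2 ≤ C * RR h φ N n z ^ q := hn z hz
    _ ≤ max C 1 * RR h φ N n z ^ q := by gcongr; exact le_max_left _ _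
    _ ≤ max C 1 * RR h φ N' n z ^ q := by gcongr; exact RR_mono hN' n z

lemma Bq.mono {q q' : ℕ} (hq : q ≤ q') {u : ℕ → ℂ → ℂ} (hu : Bq V h φ q u) : Bq V h φ q' u := by
  intro K hK hKV
  obtain ⟨N, C, hC0, hC⟩ := hu.pos hK hKV
  refine ⟨N, C, ?_⟩
  filter_upwards [hC N le_rfl] with n hn z hz
  refine (hn z hz).trans ?_
  gcongr
  exact one_le_RR h φ N n z

lemma Bq.add {q : ℕ} {u v : ℕ → ℂ → ℂ} (hu : Bq V h φ q u) (hv : Bq V h φ q v) :
    Bq V h φ q (fun n z => u n z + v n z) := by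
  intro K hK hKV
  obtain ⟨N, C, hC0, hC⟩ := hu.pos hK hKV
  obtain ⟨N', C', hC0', hC'⟩ := hv.pos hK hKV
  refine ⟨max N N', 2 * (C + C'), ?_⟩
  filter_upwards [hC _ (le_max_left N N'), hC' _ (le_max_right N N')] with n h1 h2 z hz
  have a1 := h1 z hz
  have a2 := h2 z hz
  have a3 : ‖u n z + v n z‖ ^ 2 ≤ (‖u n z‖ + ‖v n z‖) ^ 2 := by gcongr; exact norm_add_le _ _
  nlinarith [sq_nonneg (‖u n z‖ - ‖v n z‖)]

lemma Bq.mul {q q' : ℕ} {u v : ℕ → ℂ → ℂ} (hu : Bq V h φ q u) (hv : Bq V h φ q' v) :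
    Bq V h φ (q + q') (fun n z => u n z * v n z) := by
  intro K hK hKV
  obtain ⟨N, C, hC0, hC⟩ := hu.pos hK hKV
  obtain ⟨N', C', hC0', hC'⟩ := hv.pos hK hKV
  refine ⟨max N N', C * C', ?_⟩
  filter_upwards [hC _ (le_max_left N N'), hC' _ (le_max_right N N')] with n h1 h2 z hz
  have a1 := h1 z hz
  have a2 := h2 z hz
  have h3 := RR_pos h φ (max N N') n z
  rw [norm_mul, mul_pow, pow_add]
  calc ‖u n z‖ ^ 2 * ‖v n z‖ ^ 2 ≤ (C * RR h φ (max N N') n z ^ q) * (C' * RR h φ (max N N') n z ^ q') := by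
        gcongr
    _ = C * C' * (RR h φ (max N N') n z ^ q * RR h φ (max N N') n z ^ q') := by ring

lemma Bq.const_mul {q : ℕ} {c : ℕ → ℂ} {B : ℝ} (hc : ∀ᶠ n in atTop, ‖c n‖ ≤ B) {u : ℕ → ℂ → ℂ}
    (hu : Bq V h φ q u) : Bq V h φ q (fun n z => c n * u n z) := by
  intro K hK hKV
  obtain ⟨N, C, hC0, hC⟩ := hu.pos hK hKV
  refine ⟨N, B ^ 2 * C, ?_⟩
  filter_upwards [hC N le_rfl, hc] with n h1 h2 z hz
  have h3 := RR_pos h φ N n z
  rw [norm_mul, mul_pow, mul_assoc]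
  have h4 := h1 z hz
  gcongr

lemma Bq.conj {q : ℕ} {u : ℕ → ℂ → ℂ} (hu : Bq V h φ q u) :
    Bq V h φ q (fun n z => (starRingEnd ℂ) (u n z)) := by
  intro K hK hKV
  obtain ⟨N, C, hC⟩ := hu K hK hKV
  refine ⟨N, C, ?_⟩
  filter_upwards [hC] with n hn z hz
  rw [RCLike.norm_conj]; exact hn z hz

lemma Bq.of_fn (q : ℕ) {b : ℂ → ℂ} (hb : ContinuousOn b V) : Bq V h φ q (fun _ z => b z) := by
  intro K hK hKV
  obtain ⟨c, hc⟩ := hK.exists_bound_of_continuousOn (hb.mono hKV)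
  refine ⟨0, c ^ 2, Filter.Eventually.of_forall fun n z hz => ?_⟩
  have h1 := hc z hz
  have h2 : (1 : ℝ) ≤ RR h φ 0 n z ^ q := one_le_pow₀ (one_le_RR h φ 0 n z)
  calc ‖b z‖ ^ 2 ≤ c ^ 2 := by gcongr
    _ = c ^ 2 * 1 := (mul_one _).symm
    _ ≤ c ^ 2 * RR h φ 0 n z ^ q := by gcongr

lemma Bq.fn_mul {q : ℕ} {b : ℂ → ℂ} (hb : ContinuousOn b V) {u : ℕ → ℂ → ℂ} (hu : Bq V h φ q u) :
    Bq V h φ q (fun n z => b z * u n z) := by
  have := (Bq.of_fn (V := V) (h := h) (φ := φ) 0 hb).mul hu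
  rwa [zero_add] at this

/-! ### `BqK` -/

lemma BqK.base {q k : ℕ} {u : ℕ → ℂ → ℂ} (hu : BqK V h φ q k u) : Bq V h φ q u := by
  cases k with
  | zero => exact hu
  | succ k => exact hu.1

lemma BqK.pred {q k : ℕ} : ∀ {u : ℕ → ℂ → ℂ}, BqK V h φ q (k + 1) u → BqK V h φ q k u := by
  induction k with
  | zero => intro u hu; exact hu.1
  | succ k ih => intro u hu; exact ⟨hu.1, ih hu.2.1, ih hu.2.2⟩

lemma BqK.congr (hV : IsOpen V) {q k : ℕ} : ∀ {u v : ℕ → ℂ → ℂ}, BqK V h φ q k u →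
    (∀ n, ∀ z ∈ V, u n z = v n z) → BqK V h φ q k v := by
  induction k with
  | zero => intro u v hu he; exact Bq.congr hu he
  | succ k ih =>
    intro u v hu he
    refine ⟨hu.1.congr he, ih hu.2.1 fun n z hz => ?_, ih hu.2.2 fun n z hz => ?_⟩
    · rw [dz_congr_on hV (he n) hz]
    · rw [dzb_congr_on hV (he n) hz]

lemma BqK.mono {q q' : ℕ} (hq : q ≤ q') {k : ℕ} : ∀ {u : ℕ → ℂ → ℂ}, BqK V h φ q k u →
    BqK V h φ q' k u := by
  induction k with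
  | zero => intro u hu; exact Bq.mono hq hu
  | succ k ih => intro u hu; exact ⟨hu.1.mono hq, ih hu.2.1, ih hu.2.2⟩

lemma BqK.add (hV : IsOpen V) {q k : ℕ} : ∀ {u v : ℕ → ℂ → ℂ}, BqK V h φ q k u →
    (∀ n, ContDiff ℝ ∞ (u n)) → BqK V h φ q k v → (∀ n, ContDiff ℝ ∞ (v n)) →
    BqK V h φ q k (fun n z => u n z + v n z) := by
  induction k with
  | zero => intro u v hu _ hv _; exact Bq.add hu hv
  | succ k ih =>
    intro u v hu su hv sv
    refine ⟨hu.1.add hv.1, ?_, ?_⟩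
    · refine (ih hu.2.1 (fun n => contDiff_const.mul (contDiff_dz (su n))) hv.2.1
        (fun n => contDiff_const.mul (contDiff_dz (sv n)))).congr hV fun n z _ => ?_
      rw [dz_add (cd_at (su n) z) (cd_at (sv n) z)]; ring
    · refine (ih hu.2.2 (fun n => contDiff_const.mul (contDiff_dzb (su n))) hv.2.2
        (fun n => contDiff_const.mul (contDiff_dzb (sv n)))).congr hV fun n z _ => ?_
      rw [dzb_add (cd_at (su n) z) (cd_at (sv n) z)]; ring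

lemma BqK.const_mul (hV : IsOpen V) {q : ℕ} {c : ℕ → ℂ} {B : ℝ} (hc : ∀ᶠ n in atTop, ‖c n‖ ≤ B)
    {k : ℕ} : ∀ {u : ℕ → ℂ → ℂ}, BqK V h φ q k u → (∀ n, ContDiff ℝ ∞ (u n)) →
    BqK V h φ q k (fun n z => c n * u n z) := by
  induction k with
  | zero => intro u hu _; exact Bq.const_mul hc hu
  | succ k ih =>
    intro u hu su
    refine ⟨hu.1.const_mul hc, ?_, ?_⟩
    · refine (ih hu.2.1 (fun n => contDiff_const.mul (contDiff_dz (su n)))).congr hV fun n z _ => ?_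
      rw [dz_const_mul _ (cd_at (su n) z)]; ring
    · refine (ih hu.2.2 (fun n => contDiff_const.mul (contDiff_dzb (su n)))).congr hV fun n z _ => ?_
      rw [dzb_const_mul _ (cd_at (su n) z)]; ring

lemma BqK.conj (hV : IsOpen V) {q k : ℕ} : ∀ {u : ℕ → ℂ → ℂ}, BqK V h φ q k u →
    (∀ n, ContDiff ℝ ∞ (u n)) → BqK V h φ q k (fun n z => (starRingEnd ℂ) (u n z)) := by
  induction k with
  | zero => intro u hu _; exact Bq.conj hu
  | succ k ih =>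
    intro u hu su
    refine ⟨hu.1.conj, ?_, ?_⟩
    · refine (ih hu.2.2 (fun n => contDiff_const.mul (contDiff_dzb (su n)))).congr hV fun n z _ => ?_
      rw [dz_conj (cd_at (su n) z)]; simp
    · refine (ih hu.2.1 (fun n => contDiff_const.mul (contDiff_dz (su n)))).congr hV fun n z _ => ?_
      rw [dzb_conj (cd_at (su n) z)]; simp

lemma BqK.mul (hV : IsOpen V) {k : ℕ} : ∀ {q q' : ℕ} {u v : ℕ → ℂ → ℂ}, BqK V h φ q k u →
    (∀ n, ContDiff ℝ ∞ (u n)) → BqK V h φ q' k v → (∀ n, ContDiff ℝ ∞ (v n)) →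
    BqK V h φ (q + q') k (fun n z => u n z * v n z) := by
  induction k with
  | zero => intro q q' u v hu _ hv _; exact Bq.mul hu hv
  | succ k ih =>
    intro q q' u v hu su hv sv
    have su1 : ∀ n, ContDiff ℝ ∞ (fun z => (h n : ℂ) * dz (u n) z) := fun n =>
      contDiff_const.mul (contDiff_dz (su n))
    have su2 : ∀ n, ContDiff ℝ ∞ (fun z => (h n : ℂ) * dzb (u n) z) := fun n =>
      contDiff_const.mul (contDiff_dzb (su n))
    have sv1 : ∀ n, ContDiff ℝ ∞ (fun z => (h n : ℂ) * dz (v n) z) := fun n =>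
      contDiff_const.mul (contDiff_dz (sv n))
    have sv2 : ∀ n, ContDiff ℝ ∞ (fun z => (h n : ℂ) * dzb (v n) z) := fun n =>
      contDiff_const.mul (contDiff_dzb (sv n))
    refine ⟨hu.1.mul hv.1, ?_, ?_⟩
    · refine ((ih hu.2.1 su1 hv.pred sv).add hV (fun n => (su1 n).mul (sv n)) (ih hu.pred su hv.2.1 sv1)
        (fun n => (su n).mul (sv1 n))).congr hV fun n z _ => ?_
      rw [dz_mul (cd_at (su n) z) (cd_at (sv n) z)]; ring
    · refine ((ih hu.2.2 su2 hv.pred sv).add hV (fun n => (su2 n).mul (sv n)) (ih hu.pred su hv.2.2 sv2)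
        (fun n => (su n).mul (sv2 n))).congr hV fun n z _ => ?_
      rw [dzb_mul (cd_at (su n) z) (cd_at (sv n) z)]; ring

lemma BqK.of_fn (hV : IsOpen V) (hh0 : Tendsto h atTop (𝓝 0)) (q : ℕ) {k : ℕ} : ∀ {b : ℂ → ℂ},
    ContDiff ℝ ∞ b → BqK V h φ q k (fun _ z => b z) := by
  induction k with
  | zero => intro b hb; exact Bq.of_fn q hb.continuous.continuousOn
  | succ k ih =>
    intro b hb
    exact ⟨Bq.of_fn q hb.continuous.continuousOn,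
      (ih (contDiff_dz hb)).const_mul hV (hbd hh0) fun _ => contDiff_dz hb,
      (ih (contDiff_dzb hb)).const_mul hV (hbd hh0) fun _ => contDiff_dzb hb⟩

lemma BqK.W (hφ : ∀ n, ContDiff ℝ ∞ (φ n)) (hV : IsOpen V) {k : ℕ} : ∀ a b : ℕ,
    BqK V h φ 1 k (QJ.W h φ a b) := by
  have h0 : ∀ a b : ℕ, Bq V h φ 1 (QJ.W h φ a b) := fun a b K _ _ =>
    ⟨max a b, 1, Filter.Eventually.of_forall fun n z _ => by
      rw [one_mul, pow_one]; exact W_sq_le (le_max_left _ _) (le_max_right _ _) n z⟩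
  induction k with
  | zero => exact h0
  | succ k ih =>
    intro a b
    exact ⟨h0 a b, (ih (a + 1) b).congr hV fun n z _ => (hdz_W hφ a b n z).symm,
      (ih a (b + 1)).congr hV fun n z _ => (hdzb_W hφ a b n z).symm⟩

/-! ### `Dom` -/

lemma Dom.bq {q : ℕ} {u : ℕ → ℂ → ℂ} (hu : Dom V h φ q u) : Bq V h φ q u := hu.bd 0

lemma Dom.congr (hV : IsOpen V) {q : ℕ} {u v : ℕ → ℂ → ℂ} (hu : Dom V h φ q u)
    (hv : ∀ n, ContDiff ℝ ∞ (v n)) (he : ∀ n, ∀ z ∈ V, u n z = v n z) : Dom V h φ q v :=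
  ⟨hv, fun k => (hu.bd k).congr hV he⟩

lemma Dom.mono {q q' : ℕ} (hq : q ≤ q') {u : ℕ → ℂ → ℂ} (hu : Dom V h φ q u) : Dom V h φ q' u :=
  ⟨hu.smooth, fun k => (hu.bd k).mono hq⟩

lemma Dom.add (hV : IsOpen V) {q : ℕ} {u v : ℕ → ℂ → ℂ} (hu : Dom V h φ q u) (hv : Dom V h φ q v) :
    Dom V h φ q (fun n z => u n z + v n z) :=
  ⟨fun n => (hu.smooth n).add (hv.smooth n), fun k => (hu.bd k).add hV hu.smooth (hv.bd k) hv.smooth⟩

lemma Dom.const_mul (hV : IsOpen V) {q : ℕ} {c : ℕ → ℂ} {B : ℝ} (hc : ∀ᶠ n in atTop, ‖c n‖ ≤ B)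
    {u : ℕ → ℂ → ℂ} (hu : Dom V h φ q u) : Dom V h φ q (fun n z => c n * u n z) :=
  ⟨fun n => contDiff_const.mul (hu.smooth n), fun k => (hu.bd k).const_mul hV hc hu.smooth⟩

lemma Dom.smul (hV : IsOpen V) {q : ℕ} (c : ℂ) {u : ℕ → ℂ → ℂ} (hu : Dom V h φ q u) :
    Dom V h φ q (fun n z => c * u n z) :=
  hu.const_mul hV (c := fun _ => c) (B := ‖c‖) (Filter.Eventually.of_forall fun _ => le_rfl)

lemma Dom.neg (hV : IsOpen V) {q : ℕ} {u : ℕ → ℂ → ℂ} (hu : Dom V h φ q u) :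
    Dom V h φ q (fun n z => - u n z) := by
  have := hu.smul hV (-1)
  simpa using this

lemma Dom.sub (hV : IsOpen V) {q : ℕ} {u v : ℕ → ℂ → ℂ} (hu : Dom V h φ q u) (hv : Dom V h φ q v) :
    Dom V h φ q (fun n z => u n z - v n z) := by
  have := hu.add hV (hv.neg hV)
  simpa [sub_eq_add_neg] using this

lemma Dom.hmul (hV : IsOpen V) (hh0 : Tendsto h atTop (𝓝 0)) {q : ℕ} {u : ℕ → ℂ → ℂ}
    (hu : Dom V h φ q u) : Dom V h φ q (fun n z => (h n : ℂ) * u n z) :=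
  hu.const_mul hV (hbd hh0)

lemma Dom.conj (hV : IsOpen V) {q : ℕ} {u : ℕ → ℂ → ℂ} (hu : Dom V h φ q u) :
    Dom V h φ q (fun n z => (starRingEnd ℂ) (u n z)) :=
  ⟨fun n => conjCLE.contDiff.comp (hu.smooth n), fun k => (hu.bd k).conj hV hu.smooth⟩

lemma Dom.mul (hV : IsOpen V) {q q' : ℕ} {u v : ℕ → ℂ → ℂ} (hu : Dom V h φ q u)
    (hv : Dom V h φ q' v) : Dom V h φ (q + q') (fun n z => u n z * v n z) :=
  ⟨fun n => (hu.smooth n).mul (hv.smooth n), fun k => (hu.bd k).mul hV hu.smooth (hv.bd k) hv.smooth⟩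

lemma Dom.of_fn (hV : IsOpen V) (hh0 : Tendsto h atTop (𝓝 0)) (q : ℕ) {b : ℂ → ℂ}
    (hb : ContDiff ℝ ∞ b) : Dom V h φ q (fun _ z => b z) :=
  ⟨fun _ => hb, fun _ => BqK.of_fn hV hh0 q hb⟩

lemma Dom.fn_mul (hV : IsOpen V) (hh0 : Tendsto h atTop (𝓝 0)) {q : ℕ} {b : ℂ → ℂ}
    (hb : ContDiff ℝ ∞ b) {u : ℕ → ℂ → ℂ} (hu : Dom V h φ q u) :
    Dom V h φ q (fun n z => b z * u n z) := by
  have := (Dom.of_fn (V := V) (h := h) (φ := φ) hV hh0 0 hb).mul hV hu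
  rwa [zero_add] at this

lemma Dom.hdz {q : ℕ} {u : ℕ → ℂ → ℂ} (hu : Dom V h φ q u) :
    Dom V h φ q (fun n z => (h n : ℂ) * QE.dz (u n) z) :=
  ⟨fun n => contDiff_const.mul (contDiff_dz (hu.smooth n)), fun k => (hu.bd (k + 1)).2.1⟩

lemma Dom.hdzb {q : ℕ} {u : ℕ → ℂ → ℂ} (hu : Dom V h φ q u) :
    Dom V h φ q (fun n z => (h n : ℂ) * QE.dzb (u n) z) :=
  ⟨fun n => contDiff_const.mul (contDiff_dzb (hu.smooth n)), fun k => (hu.bd (k + 1)).2.2⟩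

lemma Dom.W (hφ : ∀ n, ContDiff ℝ ∞ (φ n)) (hV : IsOpen V) (a b : ℕ) : Dom V h φ 1 (QJ.W h φ a b) :=
  ⟨fun n => contDiff_W hφ a b n, fun _ => BqK.W hφ hV a b⟩

lemma Dom.phi (hφ : ∀ n, ContDiff ℝ ∞ (φ n)) (hV : IsOpen V) : Dom V h φ 1 φ := by
  have := Dom.W (h := h) hφ hV 0 0
  rwa [W_zero] at this

/-- `h D` of a dominated sequence -/
lemma Dom.hD (hV : IsOpen V) (hh0 : Tendsto h atTop (𝓝 0)) (hσ : ContDiff ℝ ∞ σ) {q : ℕ} (k : ℤ)
    {u : ℕ → ℂ → ℂ} (hu : Dom V h φ q u) : Dom V h φ q (fun n z => (h n : ℂ) * D σ k (u n) z) := by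
  have hs := contDiff_sig hσ
  have t1 := (hu.hdz.fn_mul hV hh0 (contDiff_const (c := (2 : ℂ)).mul (contDiff_ex hσ (-1))))
  have t2 := (hu.hmul hV hh0).fn_mul hV hh0 (b := fun z => -(2 * ex σ (-1) z * (k * QE.dz (fun w => (σ w : ℂ)) z)))
    ((contDiff_const.mul (contDiff_ex hσ (-1))).mul (contDiff_const.mul (contDiff_dz hs))).neg
  refine (t1.add hV t2).congr hV (fun n => contDiff_const.mul (contDiff_D hσ k (hu.smooth n))) fun n z _ => ?_
  rw [D_eq hσ k (cd_at (hu.smooth n) z)]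
  ring

lemma Dom.hDb (hV : IsOpen V) (hh0 : Tendsto h atTop (𝓝 0)) (hσ : ContDiff ℝ ∞ σ) {q : ℕ} (k : ℤ)
    {u : ℕ → ℂ → ℂ} (hu : Dom V h φ q u) : Dom V h φ q (fun n z => (h n : ℂ) * Db σ k (u n) z) := by
  have hs := contDiff_sig hσ
  have t1 := (hu.hdzb.fn_mul hV hh0 (contDiff_const (c := (2 : ℂ)).mul (contDiff_ex hσ (-1))))
  have t2 := (hu.hmul hV hh0).fn_mul hV hh0 (b := fun z => 2 * ex σ (-1) z * (k * QE.dzb (fun w => (σ w : ℂ)) z))
    ((contDiff_const.mul (contDiff_ex hσ (-1))).mul (contDiff_const.mul (contDiff_dzb hs)))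
  refine (t1.add hV t2).congr hV (fun n => contDiff_const.mul (contDiff_Db hσ k (hu.smooth n))) fun n z _ => ?_
  rw [Db_eq hσ k (cd_at (hu.smooth n) z)]
  ring

end

end QJ
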