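import Pool.Agent.QJ.Stmts3
import Pool.Agent.QJ.Dom

/-!
DSP: the jets at displaced points are dominated.
-/

open MeasureTheory Filter Topology Set Metric
open scoped ContDiff

namespace QJ

open QE

noncomputable section

namespace DSP

/-- integrals over moving balls -/
lemma ball_shift (f : ℂ → ℝ) (z : ℂ) (ρ : ℝ) :
    ∫ w in closedBall z ρ, f w = ∫ v in closedBall (0 : ℂ) ρ, f (z + v) := by
  rw [← integral_indicator measurableSet_closedBall, ← integral_indicator measurableSet_closedBall,
    ← integral_add_left_eq_self (fun w => (closedBall z ρ).indicator f w) z]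
  refine integral_congr_ae (Eventually.of_forall fun v => ?_)
  have he : z + v ∈ closedBall z ρ ↔ v ∈ closedBall (0 : ℂ) ρ := by
    simp [mem_closedBall, dist_eq_norm]
  by_cases hv : v ∈ closedBall (0 : ℂ) ρ
  · simp only [indicator_of_mem hv, indicator_of_mem (he.2 hv)]
  · simp only [indicator_of_notMem hv, indicator_of_notMem (fun h => hv (he.1 h))]

lemma continuous_ball {f : ℂ → ℝ} (hf : Continuous f) (ρ : ℝ) :
    Continuous (fun z => ∫ w in closedBall z ρ, f w) := by
  have he : (fun z => ∫ w in closedBall z ρ, f w)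
      = fun z => ∫ v in closedBall (0 : ℂ) ρ, f (z + v) := funext fun z => ball_shift f z ρ
  rw [he]
  exact continuous_parametric_integral_of_continuous (f := fun z v => f (z + v))
    (hf.comp (continuous_fst.add continuous_snd)) (isCompact_closedBall _ _)

lemma vol_ball (z : ℂ) {ρ : ℝ} (hρ : 0 ≤ ρ) :
    (volume (closedBall z ρ)).toReal = Real.pi * ρ ^ 2 := by
  rw [Complex.volume_closedBall, ENNReal.toReal_mul, ENNReal.toReal_pow, ENNReal.toReal_ofReal hρ]
  simp [mul_comm]

lemma ball_le {f : ℂ → ℝ} (hf : Continuous f) {z : ℂ} {ρ M : ℝ} (hρ : 0 ≤ ρ)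
    (hM : ∀ w ∈ closedBall z ρ, f w ≤ M) :
    ∫ w in closedBall z ρ, f w ≤ Real.pi * ρ ^ 2 * M := by
  have h1 : ∫ w in closedBall z ρ, f w ≤ ∫ _ in closedBall z ρ, M :=
    setIntegral_mono_on (hf.continuousOn.integrableOn_compact (isCompact_closedBall _ _))
      (integrableOn_const (isCompact_closedBall z ρ).measure_lt_top.ne) measurableSet_closedBall hM
  refine h1.trans (le_of_eq ?_)
  rw [setIntegral_const, smul_eq_mul, Measure.real, vol_ball z hρ]

lemma shift_le {f : ℂ → ℝ} (hf : Continuous f) (hf0 : ∀ z, 0 ≤ f z) {K K' : Set ℂ}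
    (hK : IsCompact K) (hK' : IsCompact K') {v : ℂ} (hv : ∀ z ∈ K, z + v ∈ K') :
    ∫ z in K, f (z + v) ≤ ∫ w in K', f w := by
  rw [← integral_indicator hK.measurableSet, ← integral_indicator hK'.measurableSet,
    ← integral_sub_right_eq_self (K.indicator fun z => f (z + v)) v]
  refine integral_mono_of_nonneg (Eventually.of_forall fun w => ?_) ?_
    (Eventually.of_forall fun w => ?_)
  · exact indicator_nonneg (fun z _ => hf0 _) _
  · exact (hf.continuousOn.integrableOn_compact hK').integrable_indicator hK'.measurableSet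
  · show K.indicator (fun z => f (z + v)) (w - v) ≤ K'.indicator f w
    by_cases hw : w - v ∈ K
    · have h1 := hv _ hw
      rw [sub_add_cancel] at h1
      rw [indicator_of_mem hw, indicator_of_mem h1, sub_add_cancel]
    · rw [indicator_of_notMem hw]
      exact indicator_nonneg (fun z _ => hf0 _) _

lemma fub {f : ℂ → ℝ} (hf : Continuous f) (hf0 : ∀ z, 0 ≤ f z) {K K' : Set ℂ} (hK : IsCompact K)
    (hK' : IsCompact K') {ρ : ℝ} (hρ : 0 ≤ ρ) (hsub : ∀ z ∈ K, ∀ v : ℂ, ‖v‖ ≤ ρ → z + v ∈ K') :
    ∫ z in K, ∫ w in closedBall z ρ, f w ≤ Real.pi * ρ ^ 2 * ∫ w in K', f w := by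
  have he : (fun z => ∫ w in closedBall z ρ, f w)
      = fun z => ∫ v in closedBall (0 : ℂ) ρ, f (z + v) := funext fun z => ball_shift f z ρ
  rw [he]
  have hB : IsCompact (closedBall (0 : ℂ) ρ) := isCompact_closedBall _ _
  have hint : Integrable (Function.uncurry fun z v : ℂ => f (z + v))
      ((volume.restrict K).prod (volume.restrict (closedBall (0 : ℂ) ρ))) := by
    rw [Measure.prod_restrict]
    exact (hf.comp (continuous_fst.add continuous_snd)).continuousOn.integrableOn_compact
      (hK.prod hB)
  rw [integral_integral_swap hint]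
  have hc : Continuous fun v : ℂ => ∫ z in K, f (z + v) :=
    continuous_parametric_integral_of_continuous (f := fun v z => f (z + v))
      (hf.comp (continuous_snd.add continuous_fst)) hK
  have h1 : ∫ v in closedBall (0 : ℂ) ρ, ∫ z in K, f (z + v)
      ≤ ∫ _ in closedBall (0 : ℂ) ρ, ∫ w in K', f w := by
    refine setIntegral_mono_on (hc.continuousOn.integrableOn_compact hB)
      (integrableOn_const hB.measure_lt_top.ne) measurableSet_closedBall fun v hv => ?_
    exact shift_le hf hf0 hK hK' fun z hz => hsub z hz v (by simpa using hv)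
  refine h1.trans (le_of_eq ?_)
  rw [setIntegral_const, smul_eq_mul, Measure.real, vol_ball 0 hρ]

end DSP

open DSP

/-- DSP: the jets at displaced points are dominated -/
theorem stmtDsp (hGro : StmtGro) (hPtw : StmtPtw) : StmtDsp := by
  intro V σ h φ hL K hK hKV N R
  have hG := hGro V σ h φ hL
  obtain ⟨δ, hδ, hδV⟩ := hK.exists_cthickening_subset_open hL.op hKV
  have hK' : IsCompact (cthickening δ K) := hK.cthickening
  obtain ⟨c, C, hc, hC⟩ := hPtw V σ h φ hL (cthickening δ K) hK' hδV N
  have hR0 : 0 ≤ max R 0 := le_max_right _ _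
  have hr : 0 < c + max R 0 := by linarith
  have hC1 : (1 : ℝ) ≤ max C 1 := le_max_right _ _
  have hC0 : (0 : ℝ) < max C 1 := by linarith
  have hfc : ∀ n, Continuous fun w => ‖φ n w‖ ^ 2 := fun n => (hL.smφ n).continuous.norm.pow 2
  have hf0 : ∀ n w, 0 ≤ ‖φ n w‖ ^ 2 := fun n w => by positivity
  have hh0 : ∀ r : ℝ, ∀ ε > 0, ∀ᶠ n in atTop, r * h n ≤ ε := by
    intro r ε hε
    have h1 : Tendsto (fun n => r * h n) atTop (𝓝 (r * 0)) := hL.hlim.const_mul r
    rw [mul_zero] at h1
    filter_upwards [h1.eventually (gt_mem_nhds hε)] with n hn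
    exact hn.le
  have hI0 : ∀ n z, 0 ≤ 1 / h n ^ 2 * ∫ w in closedBall z ((c + max R 0) * h n), ‖φ n w‖ ^ 2 :=
    fun n z => mul_nonneg (by positivity) (integral_nonneg fun w => hf0 n w)
  refine ⟨fun n z => max C 1 * (1 + 1 / h n ^ 2 *
    ∫ w in closedBall z ((c + max R 0) * h n), ‖φ n w‖ ^ 2), ?_, ?_, ?_, ?_⟩
  · intro n z
    have := hI0 n z
    nlinarith
  · intro n
    exact continuous_const.mul (continuous_const.add
      (continuous_const.mul (continuous_ball (hfc n) _)))
  · filter_upwards [hC, hh0 (max R 0) δ hδ] with n hn hn2 z hz y hy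
    have hhn := hL.hpos n
    have hd : dist (z + h n * y) z ≤ max R 0 * h n := by
      rw [dist_eq_norm, add_sub_cancel_left, norm_mul, Complex.norm_real, Real.norm_of_nonneg hhn.le,
        mul_comm]
      exact mul_le_mul_of_nonneg_right (hy.trans (le_max_left _ _)) hhn.le
    have hm : z + h n * y ∈ cthickening δ K :=
      mem_cthickening_of_dist_le _ z δ K hz (hd.trans hn2)
    refine ⟨hδV hm, (hn _ hm).trans ?_⟩
    have hs : closedBall (z + h n * y) (c * h n) ⊆ closedBall z ((c + max R 0) * h n) := by
      refine closedBall_subset_closedBall' ?_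
      rw [add_mul]
      linarith
    have h1 : ∫ w in closedBall (z + h n * y) (c * h n), ‖φ n w‖ ^ 2
        ≤ ∫ w in closedBall z ((c + max R 0) * h n), ‖φ n w‖ ^ 2 :=
      setIntegral_mono_set ((hfc n).continuousOn.integrableOn_compact (isCompact_closedBall _ _))
        (Eventually.of_forall fun w => hf0 n w) (Eventually.of_forall fun w hw => hs hw)
    have h2 : 0 ≤ 1 / h n ^ 2 * ∫ w in closedBall (z + h n * y) (c * h n), ‖φ n w‖ ^ 2 :=
      mul_nonneg (by positivity) (integral_nonneg fun w => hf0 n w)
    have h3 : 1 / h n ^ 2 * (∫ w in closedBall (z + h n * y) (c * h n), ‖φ n w‖ ^ 2)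
        ≤ 1 / h n ^ 2 * ∫ w in closedBall z ((c + max R 0) * h n), ‖φ n w‖ ^ 2 :=
      mul_le_mul_of_nonneg_left h1 (by positivity)
    calc C * (1 + 1 / h n ^ 2 * ∫ w in closedBall (z + h n * y) (c * h n), ‖φ n w‖ ^ 2)
        ≤ max C 1 * (1 + 1 / h n ^ 2 *
            ∫ w in closedBall (z + h n * y) (c * h n), ‖φ n w‖ ^ 2) :=
          mul_le_mul_of_nonneg_right (le_max_left _ _) (by linarith)
      _ ≤ _ := mul_le_mul_of_nonneg_left (by linarith) hC0.le
  · rcases K.eq_empty_or_nonempty with hKe | ⟨z0, hz0⟩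
    · subst hKe
      simp
    have hz0' : z0 ∈ cthickening δ K := self_subset_cthickening K hz0
    obtain ⟨M0, hM0⟩ := hG.grow _ hK' hδV 0
    obtain ⟨s, hs0, hs⟩ : ∃ s > 0, cthickening δ K ⊆ closedBall z0 s := by
      obtain ⟨s, hs⟩ := hK'.isBounded.subset_closedBall z0
      exact ⟨max s 1, by positivity, hs.trans (closedBall_subset_closedBall (le_max_left _ _))⟩
    have hφR : ∀ n w, ‖φ n w‖ ^ 2 ≤ RR h φ 0 n w := by
      intro n w
      have := W_sq_le (h := h) (φ := φ) (le_refl 0) (le_refl 0) n w
      rwa [W_zero] at this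
    -- the mass on the thickened set
    have hmass : ∀ᶠ n in atTop, ∫ w in cthickening δ K, ‖φ n w‖ ^ 2 ≤ max (M0 * s) 0 := by
      filter_upwards [hM0] with n hn
      have h1 := hn z0 hz0' s hs0
      rw [inter_eq_self_of_subset_left hs] at h1
      refine le_trans ?_ (h1.trans (le_max_left _ _))
      exact setIntegral_mono_on ((hfc n).continuousOn.integrableOn_compact hK')
        ((continuous_RR hL.smφ 0 n).continuousOn.integrableOn_compact hK') hK'.measurableSet
        fun w _ => hφR n w
    set r := c + max R 0 with hrdef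
    set M := max (M0 * s) 0 with hMdef
    have hMn : 0 ≤ M := le_max_right _ _
    set vK := (volume K).toReal with hvK
    have hvK0 : 0 ≤ vK := ENNReal.toReal_nonneg
    set S : ℕ → ℂ → ℝ := fun n z => max C 1 * (1 + 1 / h n ^ 2 *
      ∫ w in closedBall z (r * h n), ‖φ n w‖ ^ 2) with hS
    have hSc : ∀ n, Continuous (S n) := fun n => continuous_const.mul (continuous_const.add
      (continuous_const.mul (continuous_ball (hfc n) _)))
    have hS0 : ∀ n z, 0 ≤ S n z := fun n z => mul_nonneg hC0.le (by linarith [hI0 n z])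
    set A := max C 1 * (1 + Real.pi * r ^ 2) with hA
    set Bd := max C 1 * (vK + Real.pi * r ^ 2 * M) with hBd
    have hA0 : 0 ≤ A := by positivity
    have hB0 : 0 ≤ Bd := by positivity
    have key : ∀ ε > 0, ∀ᶠ n in atTop, h n * ∫ z in K, S n z ^ 2 ≤ ε * (A * Bd) := by
      intro ε hε
      filter_upwards [hmass, hh0 r δ hδ, hh0 1 ε hε, hG.small _ hK' hδV 0 ε hε]
        with n h1 h2 h3 h4
      have hhn := hL.hpos n
      have hrn : 0 ≤ r * h n := by positivity
      rw [one_mul] at h3
      have hsub : ∀ z ∈ K, ∀ v : ℂ, ‖v‖ ≤ r * h n → z + v ∈ cthickening δ K := by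
        intro z hz v hv
        refine mem_cthickening_of_dist_le _ z δ K hz ?_
        rw [dist_eq_norm, add_sub_cancel_left]
        exact hv.trans h2
      -- pointwise bound
      have hpt : ∀ z ∈ K, h n * S n z ≤ ε * A := by
        intro z hz
        have h5 : ∫ w in closedBall z (r * h n), ‖φ n w‖ ^ 2
            ≤ Real.pi * (r * h n) ^ 2 * (ε / h n) := by
          refine ball_le (hfc n) hrn fun w hw => ?_
          have h6 : w ∈ cthickening δ K := by
            have := hsub z hz (w - z) (by rwa [← dist_eq_norm])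
            simpa using this
          have h7 := h4 w h6
          rw [le_div_iff₀ hhn, mul_comm]
          exact (mul_le_mul_of_nonneg_left (hφR n w) hhn.le).trans h7
        have h8 : h n * S n z = max C 1 * (h n + 1 / h n *
            ∫ w in closedBall z (r * h n), ‖φ n w‖ ^ 2) := by
          rw [hS]
          field_simp
        have h9 : 1 / h n * ∫ w in closedBall z (r * h n), ‖φ n w‖ ^ 2
            ≤ Real.pi * r ^ 2 * ε := by
          have h10 : 1 / h n * (∫ w in closedBall z (r * h n), ‖φ n w‖ ^ 2)
              ≤ 1 / h n * (Real.pi * (r * h n) ^ 2 * (ε / h n)) :=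
            mul_le_mul_of_nonneg_left h5 (by positivity)
          refine h10.trans (le_of_eq ?_)
          field_simp
        rw [h8, hA]
        calc max C 1 * (h n + 1 / h n * ∫ w in closedBall z (r * h n), ‖φ n w‖ ^ 2)
            ≤ max C 1 * (ε + Real.pi * r ^ 2 * ε) :=
              mul_le_mul_of_nonneg_left (add_le_add h3 h9) hC0.le
          _ = ε * (max C 1 * (1 + Real.pi * r ^ 2)) := by ring
      -- the integral of S
      have hintS : ∫ z in K, S n z ≤ Bd := by
        have h5 := fub (hfc n) (hf0 n) hK hK' hrn hsub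
        have h6 : IntegrableOn (fun z => ∫ w in closedBall z (r * h n), ‖φ n w‖ ^ 2) K :=
          (continuous_ball (hfc n) _).continuousOn.integrableOn_compact hK
        have h7 : ∫ z in K, S n z = max C 1 * (vK + 1 / h n ^ 2 *
            ∫ z in K, ∫ w in closedBall z (r * h n), ‖φ n w‖ ^ 2) := by
          rw [hS]
          show ∫ z in K, max C 1 * (1 + 1 / h n ^ 2 *
            ∫ w in closedBall z (r * h n), ‖φ n w‖ ^ 2) = _
          have i1 : IntegrableOn (fun _ : ℂ => (1 : ℝ)) K := integrableOn_const hK.measure_lt_top.ne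
          rw [integral_const_mul, integral_add i1 (h6.const_mul _), integral_const_mul,
            setIntegral_const]
          simp [Measure.real, hvK]
        rw [h7, hBd]
        refine mul_le_mul_of_nonneg_left ?_ hC0.le
        have h8 : 1 / h n ^ 2 * (∫ z in K, ∫ w in closedBall z (r * h n), ‖φ n w‖ ^ 2)
            ≤ 1 / h n ^ 2 * (Real.pi * (r * h n) ^ 2 * M) := by
          refine mul_le_mul_of_nonneg_left (h5.trans ?_) (by positivity)
          exact mul_le_mul_of_nonneg_left h1 (by positivity)
        have h9 : 1 / h n ^ 2 * (Real.pi * (r * h n) ^ 2 * M) = Real.pi * r ^ 2 * M := by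
          field_simp
        linarith
      calc h n * ∫ z in K, S n z ^ 2 = ∫ z in K, h n * S n z ^ 2 := (integral_const_mul _ _).symm
        _ ≤ ∫ z in K, (ε * A) * S n z := by
            refine setIntegral_mono_on
              ((continuous_const.mul ((hSc n).pow 2)).continuousOn.integrableOn_compact hK)
              ((continuous_const.mul (hSc n)).continuousOn.integrableOn_compact hK)
              hK.measurableSet fun z hz => ?_
            calc h n * S n z ^ 2 = (h n * S n z) * S n z := by ring
              _ ≤ (ε * A) * S n z := mul_le_mul_of_nonneg_right (hpt z hz) (hS0 n z)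
        _ = (ε * A) * ∫ z in K, S n z := integral_const_mul _ _
        _ ≤ (ε * A) * Bd := mul_le_mul_of_nonneg_left hintS (by positivity)
        _ = ε * (A * Bd) := by ring
    rw [Metric.tendsto_atTop]
    intro ε hε
    have h1 := key (ε / (2 * (A * Bd + 1))) (by positivity)
    obtain ⟨n0, hn0⟩ := eventually_atTop.1 h1
    refine ⟨n0, fun n hn => ?_⟩
    have h2 := hn0 n hn
    have h3 : 0 ≤ h n * ∫ z in K, S n z ^ 2 :=
      mul_nonneg (hL.hpos n).le (integral_nonneg fun z => by positivity)
    rw [Real.dist_eq, sub_zero, abs_of_nonneg h3]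
    have h4 : ε / (2 * (A * Bd + 1)) * (A * Bd) < ε := by
      have h5 : 0 ≤ A * Bd := by positivity
      rw [div_mul_eq_mul_div, div_lt_iff₀ (by positivity)]
      nlinarith
    exact lt_of_le_of_lt h2 h4

end

end QJ
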