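import Pool.Agent.QJ.Stmts
import Pool.Agent.QJ.Dom

/-!
LW: the local theorem for mixed derivatives.
-/

open Complex MeasureTheory Filter Topology Set
open scoped ContDiff

namespace QJ

open QE

noncomputable section

namespace LW

/-! ### Localisation -/

lemma iter_dz_congr {V : Set ℂ} (hV : IsOpen V) (a : ℕ) : ∀ {f g : ℂ → ℂ},
    (∀ z ∈ V, f z = g z) → ∀ z ∈ V, dz^[a] f z = dz^[a] g z := by
  induction a with
  | zero => intro f g h z hz; exact h z hz
  | succ a ih =>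
    intro f g h z hz
    rw [Function.iterate_succ_apply, Function.iterate_succ_apply]
    exact ih (fun w hw => dz_congr_on hV h hw) z hz

lemma iter_dzb_congr {V : Set ℂ} (hV : IsOpen V) (a : ℕ) : ∀ {f g : ℂ → ℂ},
    (∀ z ∈ V, f z = g z) → ∀ z ∈ V, dzb^[a] f z = dzb^[a] g z := by
  induction a with
  | zero => intro f g h z hz; exact h z hz
  | succ a ih =>
    intro f g h z hz
    rw [Function.iterate_succ_apply, Function.iterate_succ_apply]
    exact ih (fun w hw => dzb_congr_on hV h hw) z hz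

/-- mixed derivatives of functions which agree on an open set -/
lemma W_congr {V : Set ℂ} (hV : IsOpen V) {h : ℕ → ℝ} {φ ψ : ℕ → ℂ → ℂ}
    (he : ∀ n, ∀ z ∈ V, φ n z = ψ n z) (a b n : ℕ) {z : ℂ} (hz : z ∈ V) :
    W h φ a b n z = W h ψ a b n z := by
  unfold W
  rw [iter_dz_congr hV a (iter_dzb_congr hV b (he n)) z hz]

/-- integrals against test functions only see the open set -/
lemma int_congr {V : Set ℂ} {ζ f g : ℂ → ℂ} (hζ : Test V ζ) (h : ∀ z ∈ V, f z = g z) :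
    ∫ z, ζ z * f z = ∫ z, ζ z * g z := by
  congr 1
  funext z
  by_cases hz : z ∈ V
  · rw [h z hz]
  · have : ζ z = 0 := image_eq_zero_of_notMem_tsupport fun hh => hz (hζ.sub hh)
    rw [this, zero_mul, zero_mul]

/-- **localisation**: near a compact set a `LocalQE` sequence is a `Loc` sequence -/
theorem exists_loc {U : Set ℂ} {g : ℂ → ℝ} {h : ℕ → ℝ} {φ : ℕ → ℂ → ℂ} (hU : IsOpen U)
    (hg : ContDiffOn ℝ ∞ g U) (hgp : ∀ z ∈ U, 0 < g z) (H : LocalQE U g h φ) {K : Set ℂ}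
    (hK : IsCompact K) (hKU : K ⊆ U) :
    ∃ (V : Set ℂ) (σ : ℂ → ℝ) (ψ : ℕ → ℂ → ℂ), K ⊆ V ∧ V ⊆ U ∧ Loc V σ h ψ ∧
      (∀ n, ∀ z ∈ V, ψ n z = φ n z) ∧ ∀ z ∈ V, g z = Real.exp (σ z) ^ 2 := by
  obtain ⟨χ₀, hχ₀, hχ1, -⟩ := exists_cutoff hU hK hKU
  -- the real part of the cutoff
  obtain ⟨χ, hχ⟩ : ∃ χ : ℂ → ℝ, ∀ z, χ z = (χ₀ z).re := ⟨_, fun _ => rfl⟩
  have hχT : Test U (fun z => (χ z : ℂ)) := by
    have hs : ContDiff ℝ ∞ χ := by
      have : χ = fun z => reCLM (χ₀ z) := by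
        funext z
        rw [hχ]
        rfl
      rw [this]
      exact reCLM.contDiff.comp hχ₀.smooth
    have hsub : Function.support (fun z => (χ z : ℂ)) ⊆ Function.support χ₀ := by
      intro z hz h0
      apply hz
      simp [hχ, h0]
    refine ⟨ofRealCLM.contDiff.comp hs, ?_, (closure_mono hsub).trans hχ₀.sub⟩
    exact hχ₀.supp.of_isClosed_subset (isClosed_tsupport _) (closure_mono hsub)
  obtain ⟨V, hVdef⟩ : ∃ V, V = interior {z | χ₀ z = 1} := ⟨_, rfl⟩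
  have hVo : IsOpen V := by
    rw [hVdef]
    exact isOpen_interior
  have hV1 : ∀ z ∈ V, χ z = 1 := by
    intro z hz
    rw [hVdef] at hz
    have h1 : z ∈ {z | χ₀ z = 1} := interior_subset hz
    have h2 : χ₀ z = 1 := h1
    rw [hχ, h2, one_re]
  have hKV : K ⊆ V := by
    intro z hz
    rw [hVdef, mem_interior_iff_mem_nhds]
    exact hχ1 z hz
  have hVU : V ⊆ U := by
    intro z hz
    apply hχT.sub
    apply subset_tsupport
    simp [hV1 z hz]
  have hχ0 : ∀ z, z ∉ U → χ z = 0 := by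
    intro z hz
    have h1 : (χ z : ℂ) = 0 :=
      image_eq_zero_of_notMem_tsupport (f := fun z => (χ z : ℂ)) fun hh => hz (hχT.sub hh)
    exact_mod_cast h1
  -- the functions
  obtain ⟨ψ, hψ⟩ : ∃ ψ : ℕ → ℂ → ℂ, ∀ n, ψ n = fun z => (χ z : ℂ) * φ n z := ⟨_, fun _ => rfl⟩
  have hψV : ∀ n, ∀ z ∈ V, ψ n z = φ n z := by
    intro n z hz
    rw [hψ]
    simp [hV1 z hz]
  obtain ⟨S, hS⟩ : ∃ S : ℂ → ℂ, S = fun z => (χ z : ℂ) * ((1 / 2 * Real.log (g z) : ℝ) : ℂ) :=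
    ⟨_, rfl⟩
  have hST : Test U S := by
    rw [hS]
    apply hχT.mul hU
    apply ofRealCLM.contDiff.comp_contDiffOn
    exact contDiffOn_const.mul (hg.log fun z hz => (hgp z hz).ne')
  obtain ⟨σ, hσ⟩ : ∃ σ : ℂ → ℝ, ∀ z, σ z = (S z).re := ⟨_, fun _ => rfl⟩
  have hσs : ContDiff ℝ ∞ σ := by
    have : σ = fun z => reCLM (S z) := by
      funext z
      rw [hσ]
      rfl
    rw [this]
    exact reCLM.contDiff.comp hST.smooth
  have hgV : ∀ z ∈ V, g z = Real.exp (σ z) ^ 2 := by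
    intro z hz
    have e1 : σ z = 1 / 2 * Real.log (g z) := by
      rw [hσ, hS]
      simp only [hV1 z hz, ofReal_one, one_mul, ofReal_re]
    rw [e1, ← Real.exp_nat_mul]
    have e2 : ((2 : ℕ) : ℝ) * (1 / 2 * Real.log (g z)) = Real.log (g z) := by
      push_cast
      ring
    rw [e2, Real.exp_log (hgp z (hVU hz))]
  refine ⟨V, σ, ψ, hKV, hVU, ?_, hψV, hgV⟩
  refine ⟨hVo, H.hpos, H.hlim, hσs, ?_, ?_, ?_, ?_, ?_⟩
  · intro n
    rw [hψ]
    exact (hχT.mul hU (H.smooth n)).smooth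
  · intro n z
    rw [hψ]
    simp only [map_mul, conj_ofReal]
    by_cases hz : z ∈ U
    · rw [H.real n z hz]
    · rw [hχ0 z hz]
      simp
  · intro n z hz
    have e1 : dz (dzb (ψ n)) z = dz (dzb (φ n)) z :=
      dz_congr_on hVo (fun w hw => dzb_congr_on hVo (hψV n) hw) hz
    rw [e1, H.eig n z (hVU hz), hψV n z hz, hgV z hz]
    congr 2
    unfold ex
    rw [← Real.exp_nat_mul]
    norm_num
  · intro ζ hζ
    have := H.mass ζ (hζ.mono hVU)
    refine this.congr fun n => ?_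
    exact (int_congr hζ fun z hz => by rw [hψV n z hz]).symm
  · intro k hk ζ hζ
    have := H.mom k hk ζ (hζ.mono hVU)
    refine this.congr fun n => ?_
    exact (int_congr hζ fun z hz => by
      rw [hψV n z hz, iter_dz_congr hVo k (hψV n) z hz]).symm

/-- the rescaled mixed derivatives in terms of the exponential weights -/
lemma Wg_eq {V : Set ℂ} (hV : IsOpen V) {g : ℂ → ℝ} {σ : ℂ → ℝ} {h : ℕ → ℝ} {φ ψ : ℕ → ℂ → ℂ}
    (he : ∀ n, ∀ z ∈ V, ψ n z = φ n z) (hg : ∀ z ∈ V, g z = Real.exp (σ z) ^ 2)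
    (a b n : ℕ) {z : ℂ} (hz : z ∈ V) :
    Wg g h φ a b n z = ex σ (-(a + b)) z * W h ψ a b n z := by
  unfold Wg
  rw [W_congr hV he a b n hz, hg z hz, Real.sqrt_sq (Real.exp_pos _).le]
  congr 1
  unfold ex
  rw [← Real.exp_neg, ← Real.exp_nat_mul]
  congr 2
  push_cast
  ring

/-! ### Products -/

lemma Dom.one {V : Set ℂ} {h : ℕ → ℝ} {φ : ℕ → ℂ → ℂ} (hV : IsOpen V)
    (hh0 : Tendsto h atTop (𝓝 0)) (q : ℕ) (c : ℂ) : Dom V h φ q (fun _ _ => c) :=
  Dom.of_fn hV hh0 q contDiff_const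

/-- products of sequences which are known up to `O(h)` -/
lemma prod_expand {V : Set ℂ} {h : ℕ → ℝ} {φ : ℕ → ℂ → ℂ} (hV : IsOpen V)
    (hh0 : Tendsto h atTop (𝓝 0)) (r : ℕ) : ∀ (u v A : Fin r → ℕ → ℂ → ℂ),
    (∀ i, Dom V h φ 1 (v i)) → (∀ i, Dom V h φ 1 (A i)) →
    (∀ i n, ∀ z ∈ V, u i n z = v i n z + (h n : ℂ) * A i n z) →
    Dom V h φ r (fun n z => ∏ i, v i n z) ∧ ∃ R, Dom V h φ r R ∧
      ∀ n, ∀ z ∈ V, ∏ i, u i n z = ∏ i, v i n z + (h n : ℂ) * R n z := by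
  induction r with
  | zero =>
    intro u v A _ _ _
    constructor
    · simpa using Dom.one hV hh0 0 1
    · refine ⟨fun _ _ => 0, Dom.one hV hh0 0 0, fun n z _ => ?_⟩
      simp
  | succ r ih =>
    intro u v A hv hA hu
    obtain ⟨h1, R, hR, hR2⟩ := ih (fun i => u i.succ) (fun i => v i.succ) (fun i => A i.succ)
      (fun i => hv _) (fun i => hA _) (fun i => hu _)
    constructor
    · have := (hv 0).mul hV h1
      rw [add_comm] at this
      simpa only [Fin.prod_univ_succ] using this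
    · refine ⟨fun n z => A 0 n z * ∏ i : Fin r, v i.succ n z + v 0 n z * R n z +
        (h n : ℂ) * (A 0 n z * R n z), ?_, ?_⟩
      · have t1 := (hA 0).mul hV h1
        have t2 := (hv 0).mul hV hR
        have t3 := ((hA 0).mul hV hR).hmul hV hh0
        rw [add_comm] at t1 t2 t3
        exact (t1.add hV t2).add hV t3
      · intro n z hz
        rw [Fin.prod_univ_succ, Fin.prod_univ_succ, hR2 n z hz, hu 0 n z hz]
        ring

/-- the error terms vanish -/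
lemma err {V : Set ℂ} {σ : ℂ → ℝ} {h : ℕ → ℝ} {φ : ℕ → ℂ → ℂ} (hL : Loc V σ h φ)
    (hG : Grow V h φ) (hInt : StmtInt) {r : ℕ} (hr : r ≤ 4) {R : ℕ → ℂ → ℂ} (hR : Dom V h φ r R)
    {ζ : ℂ → ℂ} (hζ : Test V ζ) :
    Tendsto (fun n => ∫ z, ζ z * ((h n : ℂ) * R n z)) atTop (𝓝 0) := by
  have h3 := (hInt V h φ R hL.hpos hL.hlim hL.smφ hG hR.smooth).2.2 (hR.bq.mono hr)
    (tsupport ζ) hζ.supp hζ.sub
  obtain ⟨M, hM⟩ := hζ.smooth.continuous.bounded_above_of_compact_support hζ.supp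
  rw [tendsto_zero_iff_norm_tendsto_zero]
  refine squeeze_zero (fun n => norm_nonneg _) (fun n => ?_) (by simpa using h3.const_mul M)
  have hn := (hL.hpos n).le
  have e1 : ∫ z, ζ z * ((h n : ℂ) * R n z) = ∫ z in tsupport ζ, ζ z * ((h n : ℂ) * R n z) := by
    rw [setIntegral_eq_integral_of_forall_compl_eq_zero]
    intro z hz
    rw [image_eq_zero_of_notMem_tsupport hz, zero_mul]
  rw [e1]
  have e2 : IntegrableOn (fun z => M * (h n * ‖R n z‖)) (tsupport ζ) := by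
    apply ContinuousOn.integrableOn_compact hζ.supp
    exact (continuous_const.mul (continuous_const.mul (hR.smooth n).continuous.norm)).continuousOn
  calc ‖∫ z in tsupport ζ, ζ z * ((h n : ℂ) * R n z)‖
      ≤ ∫ z in tsupport ζ, M * (h n * ‖R n z‖) := by
        refine norm_integral_le_of_norm_le e2 (Filter.Eventually.of_forall fun z => ?_)
        rw [norm_mul, norm_mul, Complex.norm_real, Real.norm_of_nonneg hn]
        exact mul_le_mul_of_nonneg_right (hM z) (mul_nonneg hn (norm_nonneg _))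
    _ = M * (h n * ∫ z in tsupport ζ, ‖R n z‖) := by
        rw [integral_const_mul, integral_const_mul]

/-- the products of the mixed derivatives and of the covariant jets -/
theorem main {V : Set ℂ} {g : ℂ → ℝ} {σ : ℂ → ℝ} {h : ℕ → ℝ} {φ ψ : ℕ → ℂ → ℂ}
    (hInt : StmtInt) (hJetA : StmtJetA) (hJetB : StmtJetB)
    (hL : Loc V σ h ψ) (hG : Grow V h ψ) (he : ∀ n, ∀ z ∈ V, ψ n z = φ n z)
    (hg : ∀ z ∈ V, g z = Real.exp (σ z) ^ 2) {ζ : ℂ → ℂ} (hζ : Test V ζ) {r : ℕ} (hr : r ≤ 4)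
    (a b : Fin r → ℕ) :
    Tendsto (fun n => (∫ z, ζ z * ∏ i, Wg g h φ (a i) (b i) n z) -
      (∏ i, cW (a i) (b i)) * ∫ z, ζ z * ∏ i, E σ h ψ ((a i : ℤ) - b i) n z) atTop (𝓝 0) := by
  choose A hA hA2 using fun i => hJetB V σ h ψ hL (a i) (b i)
  obtain ⟨h1, R, hR, hR2⟩ := prod_expand (φ := ψ) hL.op hL.hlim r
    (fun i n z => Wg g h φ (a i) (b i) n z)
    (fun i n z => cW (a i) (b i) * E σ h ψ ((a i : ℤ) - b i) n z) A
    (fun i => ((hJetA V σ h ψ hL _).1).smul hL.op _) hA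
    (fun i n z hz => by
      rw [Wg_eq hL.op he hg _ _ n hz, hA2 i n z hz]
      rfl)
  refine (err hL hG hInt hr hR hζ).congr fun n => ?_
  have e1 : ∫ z, ζ z * ∏ i, Wg g h φ (a i) (b i) n z =
      ∫ z, ζ z * (∏ i, (cW (a i) (b i) * E σ h ψ ((a i : ℤ) - b i) n z) + (h n : ℂ) * R n z) :=
    int_congr hζ fun z hz => hR2 n z hz
  have e2 : (∏ i, cW (a i) (b i)) * ∫ z, ζ z * ∏ i, E σ h ψ ((a i : ℤ) - b i) n z =
      ∫ z, ζ z * ∏ i, (cW (a i) (b i) * E σ h ψ ((a i : ℤ) - b i) n z) := by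
    rw [← integral_const_mul]
    congr 1
    funext z
    rw [Finset.prod_mul_distrib]
    ring
  rw [e1, e2, ← integral_sub]
  · congr 1
    funext z
    ring
  · exact test_int hζ ((h1.smooth n).continuous.add
      (continuous_const.mul (hR.smooth n).continuous))
  · exact test_int hζ (h1.smooth n).continuous

end LW

open LW in
theorem stmtLW (hGro : StmtGro) (hInt : StmtInt) (hJetA : StmtJetA) (hJetB : StmtJetB)
    (hTwo : StmtTwo) (hOne : StmtOne) (hCub : StmtCub) (hFou : StmtFou) : StmtLW := by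
  intro U g h φ hU hg hgp H ζ hζ
  obtain ⟨V, σ, ψ, hKV, hVU, hL, he, hgV⟩ := exists_loc hU hg hgp H hζ.supp hζ.sub
  have hζV : Test V ζ := ⟨hζ.smooth, hζ.supp, hKV⟩
  have hG := hGro V σ h ψ hL
  have key : ∀ {r : ℕ} (_ : r ≤ 4) (a b : Fin r → ℕ), Tendsto (fun n =>
      (∫ z, ζ z * ∏ i, Wg g h φ (a i) (b i) n z) -
      (∏ i, cW (a i) (b i)) * ∫ z, ζ z * ∏ i, E σ h ψ ((a i : ℤ) - b i) n z) atTop (𝓝 0) :=
    fun hr a b => main hInt hJetA hJetB hL hG he hgV hζV hr a b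
  refine ⟨?_, ?_, ?_, ?_⟩
  · intro a b _
    have k1 := key (r := 1) (by norm_num) (fun _ => a) (fun _ => b)
    have k2 := hOne V σ h ψ hL ((a : ℤ) - b) ζ hζV
    have k3 := k1.add (k2.const_mul (cW a b))
    simp only [Fin.prod_univ_one, mul_zero, add_zero] at k3
    refine k3.congr fun n => ?_
    ring
  · intro a b _
    have k1 := key (r := 2) (by norm_num) a b
    have k2 := hTwo V σ h ψ hL ((a 0 : ℤ) - b 0) ((a 1 : ℤ) - b 1) ζ hζV
    have k3 := k1.add (k2.const_mul (∏ i, cW (a i) (b i)))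
    rw [zero_add, ← mul_assoc] at k3
    refine k3.congr fun n => ?_
    simp only [Fin.prod_univ_two]
    ring
  · intro a b hab
    have k1 := key (r := 3) (by norm_num) a b
    have hab' : ((a 0 : ℤ) - b 0) + ((a 1 : ℤ) - b 1) + ((a 2 : ℤ) - b 2) = 0 := by
      rw [← hab, Fin.sum_univ_three]
    have k2 := hCub V σ h ψ hL ζ hζV _ _ _ hab'
    have k3 := k1.add (k2.const_mul (∏ i, cW (a i) (b i)))
    rw [mul_zero, add_zero] at k3
    refine k3.congr fun n => ?_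
    have e1 : E3 σ h ψ ζ ((a 0 : ℤ) - b 0) ((a 1 : ℤ) - b 1) ((a 2 : ℤ) - b 2) n =
        ∫ z, ζ z * ∏ i, E σ h ψ ((a i : ℤ) - b i) n z := by
      unfold E3
      simp only [Fin.prod_univ_three]
    rw [e1]
    ring
  · intro a b hab
    have k1 := key (r := 4) (le_refl 4) a b
    have hab' : ((a 0 : ℤ) - b 0) + ((a 1 : ℤ) - b 1) + ((a 2 : ℤ) - b 2) + ((a 3 : ℤ) - b 3)
        = 0 := by
      rw [← hab, Fin.sum_univ_four]
    have k2 := hFou V σ h ψ hL ζ hζV _ _ _ _ hab'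
    have k3 := k1.add (k2.const_mul (∏ i, cW (a i) (b i)))
    rw [mul_zero, add_zero] at k3
    refine k3.congr fun n => ?_
    have e1 : E4 σ h ψ ζ ((a 0 : ℤ) - b 0) ((a 1 : ℤ) - b 1) ((a 2 : ℤ) - b 2)
        ((a 3 : ℤ) - b 3) n = ∫ z, ζ z * ∏ i, E σ h ψ ((a i : ℤ) - b i) n z := by
      unfold E4
      simp only [Fin.prod_univ_four]
    have e2 : E4 σ h ψ ζ 0 0 0 0 n = ∫ z, ζ z * φ n z ^ 4 := by
      unfold E4
      refine int_congr hζV fun z hz => ?_
      have e3 : E σ h ψ 0 n z = ψ n z := rfl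
      rw [e3, he n z hz]
      ring
    rw [e1, e2]
    ring

end

end QJ
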