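import Pool.Agent.QJ.Stmts3
import Pool.Agent.QJ.Dom
import Pool.Agent.QJ.LW

/-!
DSU: the functions and their first derivatives at displaced points are dominated.
-/

open MeasureTheory Filter Topology Set
open scoped ContDiff

namespace QJ

open QE

noncomputable section

theorem stmtDsu (hDsp : StmtDsp) : StmtDsu := by
  intro U g h φ hU hg hgp H K hK hKU R
  obtain ⟨V, σ, ψ, hKV, hVU, hL, he, -⟩ := LW.exists_loc hU hg hgp H hK hKU
  obtain ⟨S, h1, hc, hev, hlim⟩ := hDsp V σ h ψ hL K hK hKV 1 R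
  refine ⟨S, h1, hc, ?_, hlim⟩
  filter_upwards [hev] with n hn z hz y hy
  obtain ⟨hV, hRR⟩ := hn z hz y hy
  have key : ∀ a b : ℕ, a ≤ 1 → b ≤ 1 → ‖W h φ a b n (z + h n * y)‖ ^ 2 ≤ S n z := by
    intro a b ha hb
    rw [← LW.W_congr hL.op he a b n hV]
    exact (W_sq_le ha hb n _).trans hRR
  refine ⟨hVU hV, ?_, ?_, ?_⟩
  · have := key 0 0 (by norm_num) (by norm_num)
    simpa [W] using this
  · have := key 1 0 (by norm_num) (by norm_num)
    simpa [W] using this
  · have := key 0 1 (by norm_num) (by norm_num)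
    simpa [W] using this

end

end QJ
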