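import Pool.Agent.QJ.Stmts3
import Pool.Agent.LibH11.Berry.RFinal

/-!
All the moments of order at most three of the local waves.
-/

open MeasureTheory Filter Topology Set UpperHalfPlane MatrixGroups
open scoped ContDiff

namespace QJ

open QE

noncomputable section

namespace FINP

variable {Γ : Subgroup SL(2, ℝ)} {ρ : ℍ → ℝ} {D : Set ℍ} {φ : ℕ → ℍ → ℝ} {m : ℕ → ℝ}

theorem continuous_of_smooth {f : ℍ → ℝ}
    (hf : ContDiffOn ℝ ∞ (fun w : ℂ => f (ofComplex w)) {w | 0 < w.im}) : Continuous f := by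
  rw [continuous_iff_continuousAt]
  intro z
  have ho : IsOpen {w : ℂ | 0 < w.im} := isOpen_lt continuous_const Complex.continuous_im
  have h1 : ContinuousAt (fun w : ℂ => f (ofComplex w)) (z : ℂ) :=
    hf.continuousOn.continuousAt (ho.mem_nhds z.im_pos)
  have h2 : ContinuousAt (fun z : ℍ => f (ofComplex (z : ℂ))) z :=
    ContinuousAt.comp (g := fun w : ℂ => f (ofComplex w)) (f := fun z : ℍ => (z : ℂ)) h1
      UpperHalfPlane.continuous_coe.continuousAt
  simpa only [ofComplex_apply] using h2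

lemma pt (hg : Berry.Geo Γ ρ D) (hm : Tendsto m atTop atTop) {k : ℕ} (x : Fin k → ℂ) :
    ∀ᶠ n in atTop, 0 < m n ∧ ∀ i, ∀ z : ℍ,
      ‖x i / ((m n * Real.exp (ρ z) : ℝ) : ℂ)‖ < 1 := by
  obtain ⟨R, hR⟩ := hg.bdd
  have h0 := hm.eventually_gt_atTop 0
  have h1 : ∀ᶠ n in atTop, ∀ i, ‖x i‖ * Real.exp R < m n := by
    rw [eventually_all]
    exact fun i => hm.eventually_gt_atTop _
  filter_upwards [h0, h1] with n hn0 hn1
  refine ⟨hn0, fun i z => ?_⟩
  have hn := hn1 i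
  rw [norm_div, Complex.norm_real, Real.norm_of_nonneg (by positivity),
    div_lt_one (mul_pos hn0 (Real.exp_pos _))]
  have h1 : Real.exp (-R) ≤ Real.exp (ρ z) := Real.exp_le_exp.2 (abs_le.1 (hR z)).1
  calc ‖x i‖ = ‖x i‖ * Real.exp R * Real.exp (-R) := by
        rw [mul_assoc, ← Real.exp_add, add_neg_cancel, Real.exp_zero, mul_one]
    _ < m n * Real.exp (-R) := by gcongr
    _ ≤ m n * Real.exp (ρ z) := by gcongr

lemma key [Countable Γ] (hg : Berry.Geo Γ ρ D)
    (hK : ∃ K : Set ℍ, IsCompact K ∧ ∀ z, ∃ γ ∈ Γ, γ • z ∈ K) (hρc : Continuous ρ)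
    (hpc : ∀ n, Continuous (φ n)) (hφ : Berry.REigenSeq Γ ρ φ m) {ζ : ℂ → ℝ}
    (hζ : ∀ f : ℍ → ℝ, Continuous f → (∀ γ ∈ Γ, ∀ z, f (γ • z) = f z) →
        Berry.rAvg ρ D f = ∫ w, ζ w * f (ofComplex w)) {k : ℕ} (x : Fin k → ℂ) :
    ∀ᶠ n in atTop, ∫ z, ζ z * angProd ρ (φ n) (m n) x (ofComplex z)
      = ∫ p, ∏ i, Berry.rWave ρ (φ n) (m n) (x i) p ∂(Berry.rFrameProb ρ D) := by
  filter_upwards [pt hg hφ.tendsto x] with n hn
  obtain ⟨hm0, hn⟩ := hn
  have hcond : IsProbabilityMeasure (ProbabilityTheory.cond (Berry.area ρ) D) :=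
    ProbabilityTheory.cond_isProbabilityMeasure_of_finite (Berry.area_ne_zero hg)
      (Berry.area_ne_top hg)
  obtain ⟨C₂, hC₂⟩ := Berry.bdd_of_cocompact (hpc n) (hφ.invariant n) hK
  have hcw : ∀ i, Continuous (Berry.rWave ρ (φ n) (m n) (x i)) := fun i =>
    rWave_continuous (hpc n) hρc (hn i) hm0.ne'
  have i3 : Integrable (fun p => ∏ i, Berry.rWave ρ (φ n) (m n) (x i) p)
      ((ProbabilityTheory.cond (Berry.area ρ) D).prod ang) := by
    refine Integrable.of_bound (continuous_finsetProd _ fun i _ => hcw i).aestronglyMeasurable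
      (∏ _i : Fin k, |C₂|) (Eventually.of_forall fun p => ?_)
    rw [norm_prod]
    refine Finset.prod_le_prod (fun _ _ => norm_nonneg _) fun i _ => ?_
    rw [Real.norm_eq_abs]
    exact (hC₂ _).trans (le_abs_self _)
  have e1 : ∫ p, ∏ i, Berry.rWave ρ (φ n) (m n) (x i) p ∂(Berry.rFrameProb ρ D)
      = Berry.rAvg ρ D (angProd ρ (φ n) (m n) x) := by
    unfold Berry.rFrameProb
    rw [integral_prod _ i3]
    rfl
  rw [e1]
  exact (hζ _ (angProd_continuous (hpc n) hρc hn hm0.ne')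
    (angProd_inv (hφ.invariant n) hg.inv (m n) x)).symm

end FINP

open FINP in
theorem stmtFinP (hTest : StmtTest) (hPts : StmtPts) : StmtFinP := by
  intro Γ _ D hDm hD hK ρ hρ hρΓ φ m hφ hs hQ
  have hρc : Continuous ρ := FINP.continuous_of_smooth hρ
  have hpc : ∀ n, Continuous (φ n) := fun n => FINP.continuous_of_smooth (hs n)
  have hgeo : Berry.Geo Γ ρ D := (Berry.surf_of_cocompact hD hDm hK hρc hρΓ hφ).geo
  obtain ⟨ζ, hζ1, hζ2, hζ3, -, hζ⟩ := hTest Γ ρ D hgeo hρ hK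
  have hcond : IsProbabilityMeasure (ProbabilityTheory.cond (Berry.area ρ) D) :=
    ProbabilityTheory.cond_isProbabilityMeasure_of_finite (Berry.area_ne_zero hgeo)
      (Berry.area_ne_top hgeo)
  have hI : ∫ z, ζ z = 1 := by
    have h1 := hζ (fun _ => 1) continuous_const (fun _ _ _ => rfl)
    unfold Berry.rAvg at h1
    rw [integral_const, probReal_univ, one_smul] at h1
    simp only [mul_one] at h1
    exact h1.symm
  obtain ⟨p1, p2, p3⟩ := hPts Γ ρ φ m hρ hφ hs hQ ζ hζ1 hζ2 hζ3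
  refine ⟨fun x => ?_, fun x y => ?_, fun x y z => ?_⟩
  · refine (p1 ![x]).congr' ?_
    filter_upwards [key hgeo hK hρc hpc hφ hζ ![x]] with n hn
    rw [hn]
    simp only [Fin.prod_univ_succ, Finset.univ_eq_empty, Finset.prod_empty, mul_one,
      Matrix.cons_val_zero]
  · have h2 := p2 ![x, y]
    rw [hI, mul_one] at h2
    refine h2.congr' ?_
    filter_upwards [key hgeo hK hρc hpc hφ hζ ![x, y]] with n hn
    rw [hn]
    simp only [Fin.prod_univ_two, Matrix.cons_val_zero, Matrix.cons_val_one]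
  · refine (p3 ![x, y, z]).congr' ?_
    filter_upwards [key hgeo hK hρc hpc hφ hζ ![x, y, z]] with n hn
    rw [hn]
    simp only [Fin.prod_univ_three, Matrix.cons_val_zero, Matrix.cons_val_one,
      Matrix.cons_val_two, Matrix.tail_cons, Matrix.head_cons]

end

end QJ
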