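import Pool.Agent.QJ.Stmts3

/-!
RAD: rotation averages of approximate solutions of the Helmholtz equation.
-/

open Complex MeasureTheory Filter Topology Set
open scoped ContDiff

namespace QJ

open QE

noncomputable section

namespace RAD

/-- derivative of an integral over the angle with a parameter -/
lemma hasDerivAt_param {F F' : ℝ → ℝ → ℂ} (hF : Continuous (Function.uncurry F))
    (hF' : Continuous (Function.uncurry F'))
    (hd : ∀ s θ, HasDerivAt (fun s => F s θ) (F' s θ) s) (s : ℝ) :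
    HasDerivAt (fun s => ∫ θ, F s θ ∂ang) (∫ θ, F' s θ ∂ang) s := by
  have hFs : ∀ s, Continuous (F s) := fun s => hF.comp (by fun_prop : Continuous fun θ => (s, θ))
  have hFs' : ∀ s, Continuous (F' s) := fun s => hF'.comp (by fun_prop : Continuous fun θ => (s, θ))
  have hK : IsCompact (Icc (s - 1) (s + 1) ×ˢ Icc 0 (2 * Real.pi)) :=
    isCompact_Icc.prod isCompact_Icc
  obtain ⟨B, hB⟩ := hK.exists_bound_of_continuousOn hF'.continuousOn
  have h := (intervalIntegral.hasDerivAt_integral_of_dominated_loc_of_deriv_le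
    (μ := volume) (a := 0) (b := 2 * Real.pi) (F := F) (F' := F') (x₀ := s)
    (s := Icc (s - 1) (s + 1)) (bound := fun _ => B)
    (Icc_mem_nhds (by linarith) (by linarith))
    (Eventually.of_forall fun x => (hFs x).aestronglyMeasurable)
    ((hFs s).intervalIntegrable _ _) ((hFs' s).aestronglyMeasurable)
    (Eventually.of_forall fun t ht x hx => by
      rw [uIoc_of_le (by positivity)] at ht
      exact hB (x, t) ⟨hx, ht.1.le, ht.2⟩)
    intervalIntegrable_const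
    (Eventually.of_forall fun t _ x _ => hd x t)).2
  have h2 : (fun s => ∫ θ, F s θ ∂ang)
      = fun s => (2 * Real.pi)⁻¹ • ∫ θ in (0 : ℝ)..(2 * Real.pi), F s θ := by
    funext x; rw [ang_int]
  rw [h2, ang_int]
  exact h.const_smul (2 * Real.pi)⁻¹

/-- the integral of a derivative over a period -/
lemma int_deriv {f f' : ℝ → ℂ} (hf' : Continuous f') (hd : ∀ θ, HasDerivAt f (f' θ) θ)
    (hp : f (2 * Real.pi) = f 0) : ∫ θ, f' θ ∂ang = 0 := by
  rw [ang_int, intervalIntegral.integral_eq_sub_of_hasDerivAt (fun x _ => hd x)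
    (hf'.intervalIntegrable _ _), hp, sub_self, smul_zero]

lemma fderiv_eq (q : ℂ → ℂ) (z w : ℂ) :
    fderiv ℝ q z w = dz q z * w + dzb q z * (starRingEnd ℂ) w := by
  have hw : w = (w.re : ℝ) • (1 : ℂ) + (w.im : ℝ) • I := by
    simp [Complex.re_add_im]
  have h1 : fderiv ℝ q z w = (w.re : ℂ) * fderiv ℝ q z 1 + (w.im : ℂ) * fderiv ℝ q z I := by
    conv_lhs => rw [hw]
    rw [map_add, map_smul, map_smul]
    simp
  rw [h1]
  unfold dz dzb
  have h2 : w = w.re + w.im * I := (Complex.re_add_im w).symm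
  have h3 : (starRingEnd ℂ) w = w.re - w.im * I := by
    apply Complex.ext <;> simp
  rw [h3]
  conv_rhs => rw [show w = w.re + w.im * I from h2]
  have hI : I * I = -1 := I_mul_I
  simp only [add_re, ofReal_re, mul_re, I_re, mul_zero, ofReal_im, I_im, mul_one, sub_self,
    add_zero, add_im, mul_im, zero_add]
  linear_combination ((w.im : ℂ) * fderiv ℝ q z I) * hI

/-- the unimodular function `e^{-2iθ}` -/
def EE (θ : ℝ) : ℂ := uu θ ^ 2

lemma norm_EE (θ : ℝ) : ‖EE θ‖ = 1 := by simp [EE, norm_uu]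

lemma continuous_EE : Continuous EE := by unfold EE; exact continuous_uu.pow 2

lemma conj_EE (θ : ℝ) : EE θ * (starRingEnd ℂ) (EE θ) = 1 := by
  rw [Complex.mul_conj, Complex.normSq_eq_norm_sq, norm_EE]; simp

lemma EE_eq (θ : ℝ) : EE θ = Complex.exp (-(2 * (θ : ℂ) * I)) := by
  unfold EE uu
  rw [← Complex.exp_nat_mul]
  congr 1; push_cast; ring

lemma hasDerivAt_EE (θ : ℝ) : HasDerivAt EE (-(2 * I) * EE θ) θ := by
  have h1 : HasDerivAt (fun θ : ℝ => -(2 * (θ : ℂ) * I)) (-(2 * I)) θ := by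
    have := (((Complex.ofRealCLM.hasDerivAt (x := θ)).const_mul (2 : ℂ)).mul_const I).fun_neg
    simpa using this
  have h2 := h1.cexp
  have h3 : EE = fun θ : ℝ => Complex.exp (-(2 * (θ : ℂ) * I)) := funext EE_eq
  rw [h3]
  simpa [mul_comm] using h2

lemma EE_period : EE (2 * Real.pi) = EE 0 := by
  rw [EE_eq, EE_eq]
  have h1 : -(2 * ((2 * Real.pi : ℝ) : ℂ) * I) = ((-2 : ℤ) : ℂ) * (2 * Real.pi * I) := by
    push_cast; ring
  rw [h1, Complex.exp_int_mul_two_pi_mul_I]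
  simp

lemma int_EE : ∫ θ, EE θ ∂ang = 0 := by
  have h := ang_zpow 2
  rw [if_neg (by norm_num)] at h
  rw [← h]
  congr 1

lemma continuous_dz {q : ℂ → ℂ} (hq : ContDiff ℝ 1 q) : Continuous (dz q) := by
  have h := hq.continuous_fderiv one_ne_zero
  unfold dz
  exact continuous_const.mul ((h.clm_apply continuous_const).sub
    (continuous_const.mul (h.clm_apply continuous_const)))

lemma continuous_dzb {q : ℂ → ℂ} (hq : ContDiff ℝ 1 q) : Continuous (dzb q) := by
  have h := hq.continuous_fderiv one_ne_zero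
  unfold dzb
  exact continuous_const.mul ((h.clm_apply continuous_const).add
    (continuous_const.mul (h.clm_apply continuous_const)))

/-- derivative along a curve -/
lemma hasDerivAt_curve {q : ℂ → ℂ} (hq : ContDiff ℝ 1 q) {c : ℝ → ℂ} {c' : ℂ} {t : ℝ}
    (hc : HasDerivAt c c' t) :
    HasDerivAt (fun t => q (c t)) (dz q (c t) * c' + dzb q (c t) * (starRingEnd ℂ) c') t := by
  rw [← fderiv_eq]
  exact ((hq.differentiable one_ne_zero (c t)).hasFDerivAt).comp_hasDerivAt t hc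

lemma int_of_cont {f : ℝ → ℂ} (hf : Continuous f) : Integrable f ang := by
  refine Integrable.smul_measure ?_ ?_
  · exact (hf.integrableOn_Icc (a := 0) (b := 2 * Real.pi)).mono_set Ioc_subset_Icc_self
  · rw [Real.volume_Ioc]
    simp [Real.pi_pos]

lemma norm_int_le {f : ℝ → ℂ} {B : ℝ} (h : ∀ θ, ‖f θ‖ ≤ B) : ‖∫ θ, f θ ∂ang‖ ≤ B := by
  have := norm_integral_le_of_norm_le_const (μ := ang) (Eventually.of_forall h)
  simpa using this

/-- the derivative of the first mean -/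
lemma deriv_zero {q₀ q₁ : ℂ → ℂ} {X : ℂ} {ε : ℝ} (h0 : ContDiff ℝ 1 q₀) (h1 : ContDiff ℝ 1 q₁)
    (hb : ∀ l : ℂ, ‖l‖ ≤ 1 → ‖2 * dz q₀ l - X * q₁ l‖ ≤ ε) (s : ℝ) :
    ∃ d : ℂ, HasDerivAt (fun s : ℝ => ∫ θ, q₀ (s * EE θ) ∂ang) d s ∧
      (0 < s → s ≤ 1 → ‖d - X * ∫ θ, EE θ * q₁ (s * EE θ) ∂ang‖ ≤ ε) := by
  have hz := continuous_dz h0
  have hzb := continuous_dzb h0
  have hE := continuous_EE
  have hc0 := h0.continuous
  have hc1 := h1.continuous
  have hcj : Continuous fun θ => (starRingEnd ℂ) (EE θ) := Complex.continuous_conj.comp hE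
  refine ⟨_, hasDerivAt_param (F := fun s θ => q₀ (s * EE θ))
    (F' := fun s θ => dz q₀ (s * EE θ) * EE θ + dzb q₀ (s * EE θ) * (starRingEnd ℂ) (EE θ))
    ?_ ?_ ?_ s, ?_⟩
  · simp only [Function.uncurry_def]
    fun_prop
  · simp only [Function.uncurry_def]
    exact ((hz.comp (by fun_prop)).mul (hE.comp continuous_snd)).add
      ((hzb.comp (by fun_prop)).mul (hcj.comp continuous_snd))
  · intro s θ
    have hc : HasDerivAt (fun s : ℝ => (s : ℂ) * EE θ) (EE θ) s := by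
      simpa using (Complex.ofRealCLM.hasDerivAt (x := s)).mul_const (EE θ)
    exact hasDerivAt_curve h0 hc
  · intro hs hs1
    have hsE : Continuous fun θ => (s : ℂ) * EE θ := by fun_prop
    have iA : Integrable (fun θ => dz q₀ (s * EE θ) * EE θ) ang :=
      int_of_cont ((hz.comp hsE).mul hE)
    have iB : Integrable (fun θ => dzb q₀ (s * EE θ) * (starRingEnd ℂ) (EE θ)) ang :=
      int_of_cont ((hzb.comp hsE).mul hcj)
    have hper := int_deriv (f := fun θ => q₀ (s * EE θ))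
      (f' := fun θ => dz q₀ (s * EE θ) * (s * (-(2 * I) * EE θ))
        + dzb q₀ (s * EE θ) * (starRingEnd ℂ) (s * (-(2 * I) * EE θ)))
      (((hz.comp hsE).mul (by fun_prop)).add ((hzb.comp hsE).mul
        (Complex.continuous_conj.comp (by fun_prop))))
      (fun θ => hasDerivAt_curve h0 ((hasDerivAt_EE θ).const_mul (s : ℂ)))
      (by simp only [EE_period])
    have heq : ∀ θ, dz q₀ (s * EE θ) * (s * (-(2 * I) * EE θ))
        + dzb q₀ (s * EE θ) * (starRingEnd ℂ) (s * (-(2 * I) * EE θ))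
        = (-(2 * I) * s) * (dz q₀ (s * EE θ) * EE θ
          - dzb q₀ (s * EE θ) * (starRingEnd ℂ) (EE θ)) := by
      intro θ
      simp only [map_mul, map_neg, map_ofNat, Complex.conj_I, Complex.conj_ofReal]
      ring
    simp only [heq] at hper
    rw [integral_const_mul, integral_sub iA iB] at hper
    have hs0 : (s : ℂ) ≠ 0 := by exact_mod_cast hs.ne'
    have hAB : (∫ θ, dz q₀ (s * EE θ) * EE θ ∂ang)
        = ∫ θ, dzb q₀ (s * EE θ) * (starRingEnd ℂ) (EE θ) ∂ang := by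
      have : -(2 * I) * (s : ℂ) ≠ 0 := mul_ne_zero (by simp) hs0
      have := (mul_eq_zero.1 hper).resolve_left this
      exact sub_eq_zero.1 this
    have hfin : (∫ θ, (dz q₀ (s * EE θ) * EE θ + dzb q₀ (s * EE θ) * (starRingEnd ℂ) (EE θ)) ∂ang)
        - X * ∫ θ, EE θ * q₁ (s * EE θ) ∂ang
        = ∫ θ, EE θ * (2 * dz q₀ (s * EE θ) - X * q₁ (s * EE θ)) ∂ang := by
      have iC : Integrable (fun θ => X * (EE θ * q₁ (s * EE θ))) ang := int_of_cont (by fun_prop)
      have iAA : Integrable (fun θ => dz q₀ (s * EE θ) * EE θ + dz q₀ (s * EE θ) * EE θ) ang :=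
        iA.add iA
      rw [integral_add iA iB, ← hAB, ← integral_const_mul, ← integral_add iA iA,
        ← integral_sub iAA iC]
      congr 1
      funext θ
      ring
    rw [hfin]
    apply norm_int_le
    intro θ
    rw [norm_mul, norm_EE, one_mul]
    apply hb
    rw [norm_mul, norm_EE, mul_one, Complex.norm_real, Real.norm_eq_abs, abs_of_pos hs]
    exact hs1

/-- the derivative of the second mean -/
lemma deriv_one {q₀ q₁ : ℂ → ℂ} {X : ℂ} {ε : ℝ} (h0 : ContDiff ℝ 1 q₀) (h1 : ContDiff ℝ 1 q₁)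
    (hb : ∀ l : ℂ, ‖l‖ ≤ 1 → ‖2 * dzb q₁ l + (starRingEnd ℂ) X * q₀ l‖ ≤ ε) (s : ℝ) :
    ∃ d : ℂ, HasDerivAt (fun s : ℝ => ∫ θ, EE θ * q₁ (s * EE θ) ∂ang) d s ∧
      (0 < s → s ≤ 1 → ‖d + (s : ℂ)⁻¹ * (∫ θ, EE θ * q₁ (s * EE θ) ∂ang)
        + (starRingEnd ℂ) X * ∫ θ, q₀ (s * EE θ) ∂ang‖ ≤ ε) := by
  have hz := continuous_dz h1
  have hzb := continuous_dzb h1
  have hE := continuous_EE
  have hc0 := h0.continuous
  have hc1 := h1.continuous
  have hcj : Continuous fun θ => (starRingEnd ℂ) (EE θ) := Complex.continuous_conj.comp hE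
  refine ⟨_, hasDerivAt_param (F := fun s θ => EE θ * q₁ (s * EE θ))
    (F' := fun s θ => EE θ * (dz q₁ (s * EE θ) * EE θ
      + dzb q₁ (s * EE θ) * (starRingEnd ℂ) (EE θ))) ?_ ?_ ?_ s, ?_⟩
  · simp only [Function.uncurry_def]
    fun_prop
  · simp only [Function.uncurry_def]
    exact (hE.comp continuous_snd).mul (((hz.comp (by fun_prop)).mul (hE.comp continuous_snd)).add
      ((hzb.comp (by fun_prop)).mul (hcj.comp continuous_snd)))
  · intro s θ
    have hc : HasDerivAt (fun s : ℝ => (s : ℂ) * EE θ) (EE θ) s := by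
      simpa using (Complex.ofRealCLM.hasDerivAt (x := s)).mul_const (EE θ)
    exact (hasDerivAt_curve h1 hc).const_mul (EE θ)
  · intro hs hs1
    have hsE : Continuous fun θ => (s : ℂ) * EE θ := by fun_prop
    have iQ : Integrable (fun θ => EE θ * q₁ (s * EE θ)) ang := int_of_cont (by fun_prop)
    have iA : Integrable (fun θ => EE θ * (dz q₁ (s * EE θ) * EE θ)) ang :=
      int_of_cont (hE.mul ((hz.comp hsE).mul hE))
    have iB : Integrable (fun θ => dzb q₁ (s * EE θ)) ang :=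
      int_of_cont (hzb.comp hsE)
    have hper := int_deriv (f := fun θ => EE θ * q₁ (s * EE θ))
      (f' := fun θ => (-(2 * I) * EE θ) * q₁ (s * EE θ)
        + EE θ * (dz q₁ (s * EE θ) * (s * (-(2 * I) * EE θ))
        + dzb q₁ (s * EE θ) * (starRingEnd ℂ) (s * (-(2 * I) * EE θ))))
      ((by fun_prop : Continuous fun θ => (-(2 * I) * EE θ) * q₁ (s * EE θ)).add
        (hE.mul (((hz.comp hsE).mul (by fun_prop)).add ((hzb.comp hsE).mul
        (Complex.continuous_conj.comp (by fun_prop))))))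
      (fun θ => (hasDerivAt_EE θ).fun_mul
        (hasDerivAt_curve h1 ((hasDerivAt_EE θ).const_mul (s : ℂ))))
      (by simp only [EE_period])
    have heq : ∀ θ, (-(2 * I) * EE θ) * q₁ (s * EE θ)
        + EE θ * (dz q₁ (s * EE θ) * (s * (-(2 * I) * EE θ))
        + dzb q₁ (s * EE θ) * (starRingEnd ℂ) (s * (-(2 * I) * EE θ)))
        = (-(2 * I)) * (EE θ * q₁ (s * EE θ) + s * (EE θ * (dz q₁ (s * EE θ) * EE θ)
          - dzb q₁ (s * EE θ))) := by
      intro θ
      simp only [map_mul, map_neg, map_ofNat, Complex.conj_I, Complex.conj_ofReal]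
      linear_combination (2 * I * s * dzb q₁ (s * EE θ)) * conj_EE θ
    simp only [heq] at hper
    have hAmB : Integrable (fun θ => EE θ * (dz q₁ (s * EE θ) * EE θ) - dzb q₁ (s * EE θ)) ang :=
      iA.sub iB
    rw [integral_const_mul, integral_add iQ (hAmB.const_mul (s : ℂ)), integral_const_mul,
      integral_sub iA iB] at hper
    have hs0 : (s : ℂ) ≠ 0 := by exact_mod_cast hs.ne'
    have hrel := (mul_eq_zero.1 hper).resolve_left (by simp : -(2 * I) ≠ 0)
    have hF' : (∫ θ, EE θ * (dz q₁ (s * EE θ) * EE θ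
        + dzb q₁ (s * EE θ) * (starRingEnd ℂ) (EE θ)) ∂ang)
        = (∫ θ, EE θ * (dz q₁ (s * EE θ) * EE θ) ∂ang) + ∫ θ, dzb q₁ (s * EE θ) ∂ang := by
      rw [← integral_add iA iB]
      congr 1
      funext θ
      linear_combination (dzb q₁ (s * EE θ)) * conj_EE θ
    have hfin : (∫ θ, EE θ * (dz q₁ (s * EE θ) * EE θ
        + dzb q₁ (s * EE θ) * (starRingEnd ℂ) (EE θ)) ∂ang)
        + (s : ℂ)⁻¹ * (∫ θ, EE θ * q₁ (s * EE θ) ∂ang)
        + (starRingEnd ℂ) X * ∫ θ, q₀ (s * EE θ) ∂ang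
        = ∫ θ, (2 * dzb q₁ (s * EE θ) + (starRingEnd ℂ) X * q₀ (s * EE θ)) ∂ang := by
      rw [hF', integral_add (iB.const_mul 2) (int_of_cont (by fun_prop)), integral_const_mul,
        integral_const_mul]
      have h2 : (s : ℂ)⁻¹ * (∫ θ, EE θ * q₁ (s * EE θ) ∂ang)
          = -((∫ θ, EE θ * (dz q₁ (s * EE θ) * EE θ) ∂ang) - ∫ θ, dzb q₁ (s * EE θ) ∂ang) := by
        rw [inv_mul_eq_div, div_eq_iff hs0]
        linear_combination hrel
      rw [h2]
      ring
    rw [hfin]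
    apply norm_int_le
    intro θ
    apply hb
    rw [norm_mul, norm_EE, mul_one, Complex.norm_real, Real.norm_eq_abs, abs_of_pos hs]
    exact hs1

end RAD

open RAD in
/-- RAD: rotation averages of approximate solutions of the Helmholtz equation -/
theorem stmtRad : StmtRad := by
  intro q₀ q₁ X ε h0 h1 hε hb
  have hd0 := fun s => deriv_zero h0 h1 (fun l hl => (hb l hl).1) s
  have hd1 := fun s => deriv_one h0 h1 (fun l hl => (hb l hl).2) s
  choose d0 hd0 he0 using hd0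
  choose d1 hd1 he1 using hd1
  set Q0 : ℝ → ℂ := fun s : ℝ => ∫ θ, q₀ (s * EE θ) ∂ang with hQ0
  set Q1 : ℝ → ℂ := fun s : ℝ => ∫ θ, EE θ * q₁ (s * EE θ) ∂ang with hQ1
  have hgoal : ∫ θ, q₀ (uu θ ^ 2) ∂angle = Q0 1 := by
    simp only [hQ0, Complex.ofReal_one, one_mul]
    rfl
  rw [hgoal]
  have hQ00 : Q0 0 = q₀ 0 := by
    simp [hQ0]
  have hQ10 : Q1 0 = 0 := by
    simp only [hQ1, Complex.ofReal_zero, zero_mul]
    rw [integral_mul_const, int_EE, zero_mul]
  -- the energy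
  have hy : ∀ s, HasDerivAt (fun s => ‖Q0 s‖ ^ 2 + ‖Q1 s‖ ^ 2)
      (2 * inner ℝ (Q0 s) (d0 s) + 2 * inner ℝ (Q1 s) (d1 s)) s := fun s =>
    (hd0 s).norm_sq.add (hd1 s).norm_sq
  have hbd : ∀ s, 0 < s → s ≤ 1 → 2 * inner ℝ (Q0 s) (d0 s) + 2 * inner ℝ (Q1 s) (d1 s)
      ≤ 2 * ε * (‖Q0 s‖ + ‖Q1 s‖) := by
    intro s hs hs1
    obtain ⟨e0, he0d⟩ : ∃ e, e = d0 s - X * Q1 s := ⟨_, rfl⟩
    obtain ⟨e1, he1d⟩ : ∃ e, e = d1 s + (s : ℂ)⁻¹ * Q1 s + (starRingEnd ℂ) X * Q0 s := ⟨_, rfl⟩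
    have hn0 : ‖e0‖ ≤ ε := by rw [he0d]; exact he0 s hs hs1
    have hn1 : ‖e1‖ ≤ ε := by rw [he1d]; exact he1 s hs hs1
    have hA : d0 s = X * Q1 s + e0 := by rw [he0d]; ring
    have hB : d1 s = e1 - (s⁻¹ : ℝ) • Q1 s - (starRingEnd ℂ) X * Q0 s := by
      rw [he1d, Complex.real_smul]; push_cast; ring
    have hcross : inner ℝ (Q0 s) (X * Q1 s) = inner ℝ (Q1 s) ((starRingEnd ℂ) X * Q0 s) := by
      simp only [Complex.inner, mul_re, mul_im, conj_re, conj_im]
      ring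
    rw [hA, hB, inner_add_right, inner_sub_right, inner_sub_right, inner_smul_right,
      real_inner_self_eq_norm_sq, hcross]
    have hi0 : inner ℝ (Q0 s) e0 ≤ ‖Q0 s‖ * ε :=
      (real_inner_le_norm _ _).trans (mul_le_mul_of_nonneg_left hn0 (norm_nonneg _))
    have hi1 : inner ℝ (Q1 s) e1 ≤ ‖Q1 s‖ * ε :=
      (real_inner_le_norm _ _).trans (mul_le_mul_of_nonneg_left hn1 (norm_nonneg _))
    have hpos : 0 ≤ s⁻¹ * ‖Q1 s‖ ^ 2 := by positivity
    linarith
  have hmain : ∀ δ : ℝ, 0 < δ → ‖Q0 1‖ ≤ ‖q₀ 0‖ + δ + 2 * ε := by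
    intro δ hδ
    set f : ℝ → ℝ := fun s => Real.sqrt (‖Q0 s‖ ^ 2 + ‖Q1 s‖ ^ 2 + δ ^ 2) with hf
    have hpos : ∀ s, 0 < ‖Q0 s‖ ^ 2 + ‖Q1 s‖ ^ 2 + δ ^ 2 := fun s => by positivity
    have hfd : ∀ s, HasDerivAt f ((2 * inner ℝ (Q0 s) (d0 s) + 2 * inner ℝ (Q1 s) (d1 s))
        / (2 * Real.sqrt (‖Q0 s‖ ^ 2 + ‖Q1 s‖ ^ 2 + δ ^ 2))) s := fun s =>
      ((hy s).add_const (δ ^ 2)).sqrt (hpos s).ne'
    have h := Convex.image_sub_le_mul_sub_of_deriv_le (convex_Icc (0 : ℝ) 1) (f := f)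
      (fun s _ => (hfd s).continuousAt.continuousWithinAt)
      (fun s _ => (hfd s).differentiableAt.differentiableWithinAt) (C := 2 * ε) ?_
      0 ⟨le_rfl, zero_le_one⟩ 1 ⟨zero_le_one, le_rfl⟩ zero_le_one
    · have h1 : ‖Q0 1‖ ≤ f 1 := by
        apply Real.le_sqrt_of_sq_le
        have := sq_nonneg ‖Q1 1‖
        have := sq_nonneg δ
        linarith
      have h2 : f 0 ≤ ‖q₀ 0‖ + δ := by
        simp only [hf, hQ00, hQ10]
        apply Real.sqrt_le_iff.2
        refine ⟨by positivity, ?_⟩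
        have := norm_nonneg (q₀ 0)
        rw [norm_zero]
        nlinarith
      linarith
    · intro s hs
      rw [interior_Icc] at hs
      rw [(hfd s).deriv]
      have hsq : 0 < Real.sqrt (‖Q0 s‖ ^ 2 + ‖Q1 s‖ ^ 2 + δ ^ 2) := Real.sqrt_pos.2 (hpos s)
      rw [div_le_iff₀ (by positivity)]
      refine (hbd s hs.1 hs.2.le).trans ?_
      have h1 : ‖Q0 s‖ ≤ Real.sqrt (‖Q0 s‖ ^ 2 + ‖Q1 s‖ ^ 2 + δ ^ 2) := by
        apply Real.le_sqrt_of_sq_le
        have := sq_nonneg ‖Q1 s‖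
        have := sq_nonneg δ
        linarith
      have h2 : ‖Q1 s‖ ≤ Real.sqrt (‖Q0 s‖ ^ 2 + ‖Q1 s‖ ^ 2 + δ ^ 2) := by
        apply Real.le_sqrt_of_sq_le
        have := sq_nonneg ‖Q0 s‖
        have := sq_nonneg δ
        linarith
      nlinarith
  apply le_of_forall_pos_le_add
  intro δ hδ
  have := hmain δ hδ
  linarith

end

end QJ
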