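import Pool.Agent.QJ.Stmts
import Pool.Agent.QJ.Dom

/-!
The covariant jets and their derivatives.
-/

open Complex MeasureTheory Filter Topology Set
open scoped ContDiff

namespace QJ

open QE

noncomputable section

namespace JETA

variable {V : Set ℂ} {σ : ℂ → ℝ} {h : ℕ → ℝ} {φ : ℕ → ℂ → ℂ}

lemma dom_jet (L : Loc V σ h φ) (m : ℕ) : Dom V h φ 1 (jet σ h φ m) := by
  induction m with
  | zero => exact Dom.phi L.smφ L.op
  | succ m ih => exact Dom.hD L.op L.hlim L.sm m ih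

lemma contDiff_curv (hσ : ContDiff ℝ ∞ σ) : ContDiff ℝ ∞ (curv σ) := by
  unfold curv
  exact ((contDiff_const.mul (contDiff_ex hσ _)).mul
    (contDiff_dz (contDiff_dzb (contDiff_sig hσ)))).neg

lemma zero_dom (L : Loc V σ h φ) : Dom V h φ 1 (fun _ _ => 0) :=
  Dom.of_fn L.op L.hlim 1 contDiff_const

lemma base (L : Loc V σ h φ) (n : ℕ) (z : ℂ) (hz : z ∈ V) :
    (h n : ℂ) * Db σ 1 (jet σ h φ 1 n) z = - φ n z := by
  have hσ := L.sm
  have hφ := L.smφ n
  have e0 : jet σ h φ 1 n = fun w => (h n : ℂ) * D σ 0 (φ n) w := rfl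
  have e : Db σ 1 (D σ 0 (φ n)) z = 4 * ex σ (-2) z * dz (dzb (φ n)) z := by
    have e1 : (fun w => ex σ 1 w * D σ 0 (φ n) w) = fun w => 2 * dz (φ n) w := by
      funext w
      rw [D_eq hσ 0 (cd_at hφ w)]
      have e2 : ex σ 1 w * ex σ (-1) w = 1 := by
        rw [ex_mul, show (1 : ℤ) + (-1) = 0 by norm_num, ex_zero]
      push_cast
      linear_combination (2 * dz (φ n) w) * e2
    unfold Db
    rw [e1, dzb_const_mul _ (cd_at (contDiff_dz hφ) z), ← dz_dzb_comm (cd_at2 hφ z),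
      show (-1 - 1 : ℤ) = -2 by norm_num]
    ring
  rw [e0, Db_const_mul hσ 1 _ (cd_at (contDiff_D hσ 0 hφ) z), e]
  have h1 := L.eig n z hz
  have h2 : ex σ (-2) z * ex σ 2 z = 1 := by
    rw [ex_mul, show (-2 : ℤ) + 2 = 0 by norm_num, ex_zero]
  linear_combination ex σ (-2) z * h1 - φ n z * h2

lemma low (L : Loc V σ h φ) (m : ℕ) : ∃ A, Dom V h φ 1 A ∧ ∀ n, ∀ z ∈ V,
    (h n : ℂ) * Db σ (m + 1) (jet σ h φ (m + 1) n) z
      = - jet σ h φ m n z + (h n : ℂ) ^ 2 * A n z := by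
  have hσ := L.sm
  induction m with
  | zero =>
    refine ⟨fun _ _ => 0, zero_dom L, fun n z hz => ?_⟩
    have h1 := base L n z hz
    rw [mul_zero, add_zero]
    exact h1
  | succ m ih =>
    obtain ⟨A, hA, hE⟩ := ih
    refine ⟨fun n z => (h n : ℂ) * D σ m (A n) z + (2 * ((m : ℂ) + 1) * curv σ z)
      * jet σ h φ (m + 1) n z, (Dom.hD L.op L.hlim hσ m hA).add L.op
        (Dom.fn_mul L.op L.hlim (contDiff_const.mul (contDiff_curv hσ)) (dom_jet L (m + 1))),
      fun n z hz => ?_⟩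
    have s0 := (dom_jet L m).smooth n
    have s1 := (dom_jet L (m + 1)).smooth n
    have sA := hA.smooth n
    have e0 : jet σ h φ (m + 1 + 1) n
        = fun w => (h n : ℂ) * D σ ((m : ℤ) + 1) (jet σ h φ (m + 1) n) w := rfl
    have c := comm hσ ((m : ℤ) + 1) s1 z
    have e1 : (((m + 1 : ℕ) : ℤ) + 1) = (m : ℤ) + 1 + 1 := by push_cast; ring
    rw [e0, e1, Db_const_mul hσ _ _ (cd_at (contDiff_D hσ _ s1) z), c,
      show (m : ℤ) + 1 - 1 = m by ring]
    have e2 : (h n : ℂ) * D σ m (Db σ ((m : ℤ) + 1) (jet σ h φ (m + 1) n)) z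
        = - D σ m (jet σ h φ m n) z + (h n : ℂ) ^ 2 * D σ m (A n) z := by
      rw [← D_const_mul hσ m _ (cd_at (contDiff_Db hσ _ s1) z),
        D_congr_on L.op m (hE n) hz]
      have e3 : (fun w => - jet σ h φ m n w + (h n : ℂ) ^ 2 * A n w)
          = fun w => (-1 : ℂ) * jet σ h φ m n w + (h n : ℂ) ^ 2 * A n w := by
        funext w; ring
      rw [e3, D_add hσ m ((cd_at s0 z).const_mul _) ((cd_at sA z).const_mul _),
        D_const_mul hσ m _ (cd_at s0 z), D_const_mul hσ m _ (cd_at sA z)]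
      ring
    have e4 : jet σ h φ (m + 1) n z = (h n : ℂ) * D σ m (jet σ h φ m n) z := rfl
    push_cast
    linear_combination (h n : ℂ) * e2 + e4

lemma E_nat (m : ℕ) : E σ h φ (m : ℤ) = jet σ h φ m := rfl

lemma E_neg (L : Loc V σ h φ) (m : ℕ) :
    E σ h φ (-(m : ℤ)) = fun n z => (-1) ^ m * (starRingEnd ℂ) (jet σ h φ m n z) := by
  cases m with
  | zero =>
    funext n z
    show φ n z = (-1) ^ 0 * (starRingEnd ℂ) (φ n z)
    rw [L.real n z]; ring
  | succ m =>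
    rw [show (-((m + 1 : ℕ) : ℤ)) = Int.negSucc m from rfl]
    rfl

lemma dom_neg (L : Loc V σ h φ) (m : ℕ) : Dom V h φ 1 (E σ h φ (-(m : ℤ))) := by
  rw [E_neg L m]
  exact ((dom_jet L m).conj L.op).smul L.op _

end JETA

open JETA in
theorem stmtJetA : StmtJetA := by
  intro V σ h φ L j
  have hσ := L.sm
  refine ⟨?_, ?_, ?_⟩
  · obtain ⟨m, rfl | rfl⟩ := j.eq_nat_or_neg
    · rw [E_nat]; exact dom_jet L m
    · exact dom_neg L m
  · rcases j with m | m
    · refine ⟨fun _ _ => 0, zero_dom L, fun n z _ => ?_⟩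
      rw [mul_zero, add_zero]
      rfl
    · obtain ⟨A, hA, hE⟩ := low L m
      refine ⟨fun n z => (-1) ^ (m + 1) * (starRingEnd ℂ) (A n z), (hA.conj L.op).smul L.op _,
        fun n z hz => ?_⟩
      have e1 : (Int.negSucc m : ℤ) = -((m : ℤ) + 1) := Int.negSucc_eq m
      have e2 : (Int.negSucc m : ℤ) + 1 = -(m : ℤ) := by rw [e1]; ring
      have s1 := (dom_jet L (m + 1)).smooth n
      have e3 : E σ h φ (Int.negSucc m) n
          = fun w => (-1) ^ (m + 1) * (starRingEnd ℂ) (jet σ h φ (m + 1) n w) := rfl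
      have sc : DifferentiableAt ℝ (fun w => (starRingEnd ℂ) (jet σ h φ (m + 1) n w)) z :=
        cd_at (conjCLE.contDiff.comp s1) z
      rw [e2, E_neg L m, e3, D_const_mul hσ _ _ sc, D_conj _ hσ (cd_at s1 z), e1, neg_neg]
      have h1 := congrArg (starRingEnd ℂ) (hE n z hz)
      simp only [map_mul, map_add, map_neg, map_pow, Complex.conj_ofReal] at h1
      show (h n : ℂ) * ((-1) ^ (m + 1) * _) = (-1) ^ m * _ + (h n : ℂ) ^ 2 * ((-1) ^ (m + 1) * _)
      rw [pow_succ]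
      linear_combination (-(-1) ^ m) * h1
  · rcases Int.lt_or_le 0 j with hj | hj
    · obtain ⟨m, rfl⟩ : ∃ m : ℕ, j = (m : ℤ) + 1 := ⟨(j - 1).toNat, by omega⟩
      obtain ⟨A, hA, hE⟩ := low L m
      refine ⟨A, hA, fun n z hz => ?_⟩
      rw [show (m : ℤ) + 1 - 1 = m by ring]
      exact hE n z hz
    · obtain ⟨m, rfl⟩ : ∃ m : ℕ, j = -(m : ℤ) := ⟨(-j).toNat, by omega⟩
      refine ⟨fun _ _ => 0, zero_dom L, fun n z _ => ?_⟩
      have s1 := (dom_jet L m).smooth n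
      have sc : DifferentiableAt ℝ (fun w => (starRingEnd ℂ) (jet σ h φ m n w)) z :=
        cd_at (conjCLE.contDiff.comp s1) z
      have e1 : -(m : ℤ) - 1 = -((m + 1 : ℕ) : ℤ) := by push_cast; ring
      rw [e1, E_neg L m, E_neg L (m + 1), mul_zero, add_zero]
      show (h n : ℂ) * Db σ (-(m : ℤ)) (fun w => (-1) ^ m * (starRingEnd ℂ) (jet σ h φ m n w)) z
        = -((-1) ^ (m + 1) * (starRingEnd ℂ) (jet σ h φ (m + 1) n z))
      rw [Db_const_mul hσ _ _ sc, Db_conj _ hσ (cd_at s1 z), neg_neg]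
      have e4 : jet σ h φ (m + 1) n z = (h n : ℂ) * D σ m (jet σ h φ m n) z := rfl
      rw [e4, map_mul, Complex.conj_ofReal, pow_succ]
      ring

end

end QJ
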