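import Pool.Agent.QJ.Stmts2

/-!
Cubic and quartic statistics of quantum ergodic eigenfunctions: a smooth test function computes the
averages of the invariant functions (TEST).
-/

open MeasureTheory Filter Topology Set UpperHalfPlane MatrixGroups
open scoped ContDiff

namespace QJ

open QE

noncomputable section

namespace TEST

variable {Γ : Subgroup SL(2, ℝ)} {ρ : ℍ → ℝ} {D : Set ℍ}

lemma isOpen_HH : IsOpen {w : ℂ | 0 < w.im} := isOpen_lt continuous_const Complex.continuous_im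

/-- a smooth cut-off function -/
lemma exists_cut_smooth {K : Set ℍ} (hK : IsCompact K) : ∃ c : ℂ → ℝ, ContDiff ℝ ∞ c ∧
    HasCompactSupport c ∧ tsupport c ⊆ {w | 0 < w.im} ∧ (∀ w, 0 ≤ c w) ∧
    ∀ z ∈ K, c (z : ℂ) = 1 := by
  have hKc : IsCompact (UpperHalfPlane.coe '' K) := hK.image continuous_coe
  obtain ⟨χ, h1, h2, h3⟩ := exists_cutoff_nonneg (U := {w : ℂ | 0 < w.im}) isOpen_HH hKc
    (by rintro _ ⟨z, -, rfl⟩; exact z.im_pos)
  have e : χ = fun z => Complex.re ((χ z : ℂ)) := by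
    funext z
    simp
  have hsup : Function.support χ = Function.support fun z => (χ z : ℂ) := by
    ext z
    simp
  have hts : tsupport χ = tsupport fun z => (χ z : ℂ) := by
    unfold tsupport
    rw [hsup]
  refine ⟨χ, ?_, ?_, ?_, h2, fun z hz => h3 _ ⟨z, hz, rfl⟩⟩
  · rw [e]
    exact Complex.reCLM.contDiff.comp h1.smooth
  · unfold HasCompactSupport
    rw [hts]
    exact h1.supp
  · rw [hts]
    exact h1.sub

/-- the Moebius action is smooth -/
lemma smooth_act (g : SL(2, ℝ)) {w : ℂ} (hw : 0 < w.im) :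
    ContDiffAt ℝ ∞ (fun v : ℂ => ((g • ofComplex v : ℍ) : ℂ)) w := by
  have e : (fun v : ℂ => ((g • ofComplex v : ℍ) : ℂ)) =ᶠ[𝓝 w] fun v =>
      (((g 0 0 : ℝ) : ℂ) * v + ((g 0 1 : ℝ) : ℂ)) / (((g 1 0 : ℝ) : ℂ) * v + ((g 1 1 : ℝ) : ℂ)) := by
    filter_upwards [isOpen_HH.mem_nhds hw] with v hv
    rw [coe_specialLinearGroup_apply, ofComplex_apply_of_im_pos hv]
    rfl
  have hne : ((g 1 0 : ℝ) : ℂ) * w + ((g 1 1 : ℝ) : ℂ) ≠ 0 := by
    have h := denom_ne_zero (g : GL (Fin 2) ℝ) (⟨w, hw⟩ : ℍ)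
    simpa [denom] using h
  refine ContDiffAt.congr_of_eventuallyEq ?_ e
  have h1 : ContDiffAt ℝ ∞ (fun v : ℂ => ((g 0 0 : ℝ) : ℂ) * v + ((g 0 1 : ℝ) : ℂ)) w :=
    (contDiffAt_const.mul contDiffAt_id).add contDiffAt_const
  have h2 : ContDiffAt ℝ ∞ (fun v : ℂ => ((g 1 0 : ℝ) : ℂ) * v + ((g 1 1 : ℝ) : ℂ)) w :=
    (contDiffAt_const.mul contDiffAt_id).add contDiffAt_const
  simp only [div_eq_mul_inv]
  exact h1.mul (h2.inv hne)

open Surf in
/-- the sum of the translates is smooth -/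
lemma smooth_NN [Countable Γ] (hD : IsFundamentalDomain Γ D (volume : Measure ℍ)) {c : ℂ → ℝ}
    (hc : ContDiff ℝ ∞ c) {R : ℝ} (hχ : ∀ z : ℍ, c z ≠ 0 → dist z I ≤ R) {w : ℂ} (hw : 0 < w.im) :
    ContDiffAt ℝ ∞ (fun v : ℂ => NN Γ (fun z : ℍ => c z) (ofComplex v)) w := by
  obtain ⟨t, ht, hfin⟩ := locallyFinite (χ := fun z : ℍ => c z) hD hχ (ofComplex w)
  have hcont : ContinuousAt (ofComplex : ℂ → ℍ) w :=
    (contMDiffAt_ofComplex (n := 0) hw).continuousAt
  have e : (fun v : ℂ => NN Γ (fun z : ℍ => c z) (ofComplex v)) =ᶠ[𝓝 w] fun v =>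
      ∑ γ ∈ hfin.toFinset, c ((γ • ofComplex v : ℍ) : ℂ) := by
    filter_upwards [hcont.eventually_mem ht] with v hv
    unfold NN
    refine tsum_eq_sum fun γ hγ => ?_
    by_contra hne
    apply hγ
    rw [Set.Finite.mem_toFinset]
    exact ⟨ofComplex v, hne, hv⟩
  refine ContDiffAt.congr_of_eventuallyEq ?_ e
  refine ContDiffAt.sum fun γ _ => ?_
  exact hc.contDiffAt.comp w (smooth_act (γ : SL(2, ℝ)) hw)

open Surf in
/-- a smooth test function computes the integrals over `D` of all invariant functions -/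
lemma exists_test_smooth [Countable Γ] (hD : IsFundamentalDomain Γ D (volume : Measure ℍ))
    (hDm : MeasurableSet D) (hK : ∃ K : Set ℍ, IsCompact K ∧ ∀ z, ∃ γ ∈ Γ, γ • z ∈ K)
    (hρ : Continuous ρ) (hρs : ContDiffOn ℝ ∞ (fun w : ℂ => ρ (ofComplex w)) {w | 0 < w.im})
    (hρΓ : ∀ γ ∈ Γ, ∀ z, ρ (γ • z) = ρ z) :
    ∃ ζ : ℂ → ℝ, ContDiff ℝ ∞ ζ ∧ HasCompactSupport ζ ∧ tsupport ζ ⊆ {w | 0 < w.im} ∧
      (∀ w, 0 ≤ ζ w) ∧ ∀ f : ℍ → ℝ, Continuous f → (∀ z, 0 ≤ f z) →
        (∀ γ ∈ Γ, ∀ z, f (γ • z) = f z) →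
        ∫ w, ζ w * f (ofComplex w) = ∫ z in D, f z ∂(Berry.area ρ) := by
  obtain ⟨K, hKc, hcov⟩ := hK
  obtain ⟨c, hcsm, hcs, hcU, hc0, hc1⟩ := exists_cut_smooth hKc
  have hc := hcsm.continuous
  set χ : ℍ → ℝ := fun z => c z with hχdef
  have hχc : Continuous χ := hc.comp continuous_coe
  have hχ0 : ∀ z, 0 ≤ χ z := fun z => hc0 _
  -- the support of `χ` is bounded
  have hcomp : IsCompact (UpperHalfPlane.coe ⁻¹' tsupport c) := by
    rw [isOpenEmbedding_coe.isInducing.isCompact_preimage_iff]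
    · exact hcs
    · rw [range_coe]; exact hcU
  obtain ⟨R, hR⟩ := hcomp.isBounded.subset_closedBall I
  have hχ : ∀ z, χ z ≠ 0 → dist z I ≤ R := fun z hz =>
    hR (show (z : ℂ) ∈ tsupport c from subset_tsupport c hz)
  have hpos : ∀ z, 0 < NN Γ χ z := by
    intro z
    obtain ⟨γ, hγ, hz⟩ := hcov z
    have h1 : χ ((⟨γ, hγ⟩ : Γ) • z) ≤ NN Γ χ z :=
      (NN_summable hD hχ z).le_tsum _ fun δ _ => hχ0 _
    have h2 : χ ((⟨γ, hγ⟩ : Γ) • z) = 1 := hc1 _ hz
    linarith
  have hN := NN_continuous hD hχ hχc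
  set G : ℍ → ℝ := fun z => 1 / z.im ^ 2 * (Real.exp (2 * ρ z) / NN Γ χ z) with hG
  have hGc : Continuous G := by
    refine (continuous_const.div (continuous_im.pow 2) fun z => (pow_pos z.im_pos 2).ne').mul ?_
    exact (Real.continuous_exp.comp (continuous_const.mul hρ)).div hN fun z => (hpos z).ne'
  have hG0 : ∀ z, 0 ≤ G z := by
    intro z
    have h1 := z.im_pos
    have h2 := hpos z
    simp only [hG]
    positivity
  have hsm : ContDiff ℝ ∞ fun w => c w * G (ofComplex w) := by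
    rw [contDiff_iff_contDiffAt]
    intro w
    by_cases hw : w ∈ tsupport c
    · have hw' : 0 < w.im := hcU hw
      refine hcsm.contDiffAt.mul ?_
      have e : (fun v : ℂ => G (ofComplex v)) =ᶠ[𝓝 w] fun v : ℂ =>
          1 / v.im ^ 2 * (Real.exp (2 * ρ (ofComplex v)) / NN Γ χ (ofComplex v)) := by
        filter_upwards [isOpen_HH.mem_nhds hw'] with v hv
        have e3 : (ofComplex v : ℍ).im = v.im := by rw [ofComplex_apply_of_im_pos hv]; rfl
        simp only [hG, e3]
      refine ContDiffAt.congr_of_eventuallyEq ?_ e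
      have him : ContDiffAt ℝ ∞ (fun v : ℂ => v.im) w := Complex.imCLM.contDiff.contDiffAt
      have hρw : ContDiffAt ℝ ∞ (fun v : ℂ => ρ (ofComplex v)) w :=
        (hρs w hw').contDiffAt (isOpen_HH.mem_nhds hw')
      refine (contDiffAt_const.div (him.pow 2) (pow_pos hw' 2).ne').mul ?_
      exact ((contDiffAt_const.mul hρw).exp).div (smooth_NN hD hcsm hχ hw') (hpos _).ne'
    · have h1 : c =ᶠ[𝓝 w] 0 := notMem_tsupport_iff_eventuallyEq.1 hw
      refine (contDiffAt_const (c := (0 : ℝ))).congr_of_eventuallyEq ?_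
      filter_upwards [h1] with v hv
      rw [hv, Pi.zero_apply, zero_mul]
  refine ⟨fun w => c w * G (ofComplex w), hsm, hcs.mul_right,
    (closure_mono (Function.support_mul_subset_left _ _)).trans hcU,
    fun w => mul_nonneg (hc0 w) (hG0 _), ?_⟩
  intro f hf hf0 hinv
  have hU : IsOpen {w : ℂ | 0 < w.im} := isOpen_lt continuous_const Complex.continuous_im
  -- left side
  have hcont : Continuous fun w => c w * G (ofComplex w) * f (ofComplex w) := by
    have := continuous_cut_mul hc hcU (hGc.mul hf)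
    refine this.congr fun w => ?_
    simp only [Pi.mul_apply]; ring
  rw [integral_eq_lintegral_of_nonneg_ae
    (Eventually.of_forall fun w => mul_nonneg (mul_nonneg (hc0 w) (hG0 _)) (hf0 _))
    hcont.aestronglyMeasurable,
    integral_eq_lintegral_of_nonneg_ae (Eventually.of_forall fun z => hf0 z)
      hf.aestronglyMeasurable]
  congr 1
  have hexp : Measurable fun z => ENNReal.ofReal (Real.exp (2 * ρ z)) :=
    ENNReal.measurable_ofReal.comp
      (Real.continuous_exp.comp (continuous_const.mul hρ)).measurable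
  have hfm : Measurable fun z => ENNReal.ofReal (f z) := ENNReal.measurable_ofReal.comp hf.measurable
  unfold Berry.area
  rw [setLIntegral_withDensity_eq_setLIntegral_mul _ hexp hfm hDm]
  have e1 : ∫⁻ z in D, ((fun z => ENNReal.ofReal (Real.exp (2 * ρ z))) *
      fun z => ENNReal.ofReal (f z)) z = ∫⁻ z in D, ENNReal.ofReal (Real.exp (2 * ρ z) * f z) := by
    refine lintegral_congr fun z => ?_
    rw [Pi.mul_apply, ENNReal.ofReal_mul (Real.exp_pos _).le]
  have hfe : Continuous fun z => Real.exp (2 * ρ z) * f z :=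
    (Real.continuous_exp.comp (continuous_const.mul hρ)).mul hf
  rw [e1, Surf.unfold hD hχ hχc hχ0 hpos hfe
    (fun γ hγ z => by simp only [hρΓ γ hγ, hinv γ hγ]), lintegral_uhp]
  · rw [← lintegral_indicator hU.measurableSet]
    refine lintegral_congr fun w => ?_
    by_cases hw : 0 < w.im
    · rw [indicator_of_mem (show w ∈ {w : ℂ | 0 < w.im} from hw),
        ← ENNReal.ofReal_mul (by positivity)]
      congr 1
      have e2 : ((ofComplex w : ℍ) : ℂ) = w := by rw [ofComplex_apply_of_im_pos hw]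
      have e3 : (ofComplex w : ℍ).im = w.im := by rw [ofComplex_apply_of_im_pos hw]; rfl
      simp only [hG, hχdef, e2, e3]
      ring
    · rw [indicator_of_notMem (show w ∉ {w : ℂ | 0 < w.im} from hw)]
      have : c w = 0 := by
        by_contra h
        exact hw (hcU (subset_tsupport c h))
      rw [this, zero_mul, zero_mul, ENNReal.ofReal_zero]
  · refine ENNReal.measurable_ofReal.comp (Continuous.measurable ?_)
    exact (hχc.div hN fun z => (hpos z).ne').mul hfe

end TEST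

/-- TEST: a smooth test function computes the averages of the invariant functions -/
theorem stmtTest : StmtTest := by
  intro Γ _ ρ D hg hρs hK
  obtain ⟨ζ, h1, h2, h3, h4, h5⟩ := TEST.exists_test_smooth hg.dom hg.meas hK hg.unif.continuous
    hρs hg.inv
  set A := (Berry.area ρ D).toReal with hA
  have hA0 : 0 < A := ENNReal.toReal_pos (Berry.area_ne_zero hg) (Berry.area_ne_top hg)
  refine ⟨fun w => A⁻¹ * ζ w, contDiff_const.mul h1, h2.mul_left, ?_, ?_, ?_⟩
  · exact (closure_mono (Function.support_mul_subset_right _ _)).trans h3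
  · exact fun w => mul_nonneg (inv_nonneg.mpr hA0.le) (h4 w)
  · intro f hf hinv
    rw [rAvg_eq hg hK h1.continuous h2 h3 h5 hf hinv, ← integral_const_mul]
    refine integral_congr_ae (Eventually.of_forall fun w => ?_)
    simp only
    ring

end

end QJ
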