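import Pool.Agent.QJ.Stmts3
import Pool.Agent.QJ.LW

/-!
TL: the local theorem at distinct points, transferred to the hypotheses `QE.LocalQE`.
-/

open Complex MeasureTheory Filter Topology Set
open scoped ContDiff

namespace QJ

open QE

noncomputable section

namespace TL

/-- for large `n` the displaced points lie in `V` -/
lemma eventually_mem {V : Set ℂ} (hV : IsOpen V) {σ : ℂ → ℝ} (hσ : Continuous σ) {h : ℕ → ℝ}
    (hpos : ∀ n, 0 < h n) (hlim : Tendsto h atTop (𝓝 0)) {K : Set ℂ} (hK : IsCompact K)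
    (hKV : K ⊆ V) {r : ℕ} (x : Fin r → ℂ) :
    ∀ᶠ n in atTop, ∀ z ∈ K, ∀ l : ℂ, ‖l‖ ≤ 1 → ∀ i,
      z + ((h n * Real.exp (-σ z) : ℝ) : ℂ) * (l * x i) ∈ V := by
  obtain ⟨δ, hδ, hδV⟩ := hK.exists_cthickening_subset_open hV hKV
  obtain ⟨M, hM⟩ : ∃ M : ℝ, ∀ z ∈ K, Real.exp (-σ z) ≤ M := by
    obtain ⟨M, hM⟩ := (hK.image (Real.continuous_exp.comp hσ.neg)).bddAbove
    exact ⟨M, fun z hz => hM ⟨z, hz, rfl⟩⟩
  obtain ⟨B, hB0, hB⟩ : ∃ B : ℝ, 0 ≤ B ∧ ∀ i, ‖x i‖ ≤ B :=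
    ⟨∑ i, ‖x i‖, Finset.sum_nonneg fun i _ => norm_nonneg _,
      fun i => Finset.single_le_sum (f := fun i => ‖x i‖) (fun i _ => norm_nonneg _)
        (Finset.mem_univ i)⟩
  have h1 : Tendsto (fun n => h n * (|M| * B)) atTop (𝓝 0) := by
    have := hlim.mul_const (|M| * B)
    rwa [zero_mul] at this
  filter_upwards [h1.eventually (gt_mem_nhds hδ)] with n hn z hz l hl i
  apply hδV
  apply Metric.closedBall_subset_cthickening hz δ
  rw [Metric.mem_closedBall, dist_eq_norm, add_sub_cancel_left, norm_mul, norm_mul,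
    Complex.norm_real, Real.norm_of_nonneg (mul_nonneg (hpos n).le (Real.exp_pos _).le)]
  calc h n * Real.exp (-σ z) * (‖l‖ * ‖x i‖) ≤ h n * |M| * (1 * B) := by
        apply mul_le_mul
        · exact mul_le_mul_of_nonneg_left ((hM z hz).trans (le_abs_self M)) (hpos n).le
        · exact mul_le_mul hl (hB i) (norm_nonneg _) zero_le_one
        · positivity
        · exact mul_nonneg (hpos n).le (abs_nonneg _)
    _ = h n * (|M| * B) := by ring
    _ ≤ δ := hn.le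

/-- for large `n` the two integrals agree -/
lemma eventually_eq {V : Set ℂ} {g : ℂ → ℝ} {σ : ℂ → ℝ} {h : ℕ → ℝ} {φ ψ : ℕ → ℂ → ℂ}
    (hL : Loc V σ h ψ) (he : ∀ n, ∀ z ∈ V, ψ n z = φ n z)
    (hg : ∀ z ∈ V, g z = Real.exp (σ z) ^ 2) {ζ : ℂ → ℂ} (hζ : Test V ζ) {r : ℕ}
    (x : Fin r → ℂ) :
    (fun n => ∫ θ, Aj σ h ψ ζ x 0 n (uu θ ^ 2) ∂angle) =ᶠ[atTop]
      fun n => ∫ θ, (∫ z, ζ z * PD g h φ x n θ z) ∂angle := by
  filter_upwards [eventually_mem hL.op hL.sm.continuous hL.hpos hL.hlim hζ.supp hζ.sub x]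
    with n hn
  congr 1
  funext θ
  unfold Aj
  congr 1
  funext z
  by_cases hz : z ∈ tsupport ζ
  · congr 1
    unfold PD
    refine Finset.prod_congr rfl fun i _ => ?_
    have h1 := hn z hz (uu θ ^ 2) (by rw [norm_pow, norm_uu, one_pow]) i
    have e1 : (Real.sqrt (g z))⁻¹ = Real.exp (-σ z) := by
      rw [hg z (hζ.sub hz), Real.sqrt_sq (Real.exp_pos _).le, Real.exp_neg]
    rw [e1, ← he n _ h1]
    rfl
  · rw [image_eq_zero_of_notMem_tsupport hz, zero_mul, zero_mul]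

end TL

open TL in
theorem stmtTL (hTpa : StmtTpa) (hTpb : StmtTpb) : StmtTL := by
  intro U g h φ hU hg hgp H ζ hζ
  obtain ⟨V, σ, ψ, hKV, hVU, hL, he, hgV⟩ := LW.exists_loc hU hg hgp H hζ.supp hζ.sub
  have hζV : Test V ζ := ⟨hζ.smooth, hζ.supp, hKV⟩
  obtain ⟨t1, t2⟩ := hTpa V σ h ψ hL ζ hζV
  have t3 := hTpb V σ h ψ hL ζ hζV
  exact ⟨fun x => (t1 x).congr' (eventually_eq hL he hgV hζV x),
    fun x => (t2 x).congr' (eventually_eq hL he hgV hζV x),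
    fun x => (t3 x).congr' (eventually_eq hL he hgV hζV x)⟩

end

end QJ
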