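import Pool.Agent.QJ.Stmts3

/-!
TPA: one and two displaced points.
-/

open Complex MeasureTheory Filter Topology Set
open scoped ContDiff

namespace QJ

open QE

noncomputable section

namespace TPA

/-! ### Averages over the angle -/

lemma integrable_circle {F : ℂ → ℂ} (hF : Continuous F) :
    Integrable (fun θ => F (uu θ ^ 2)) ang := by
  obtain ⟨M, hM⟩ := (isCompact_closedBall (0 : ℂ) 1).exists_bound_of_continuousOn hF.continuousOn
  refine Integrable.of_bound (hF.comp (continuous_uu.pow 2)).aestronglyMeasurable M ?_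
  refine Filter.Eventually.of_forall fun θ => hM _ ?_
  rw [mem_closedBall_zero_iff, norm_pow, norm_uu, one_pow]

lemma uu_sq (θ : ℝ) : uu θ ^ 2 = uu (2 * θ) := by
  unfold uu
  rw [← Complex.exp_nat_mul]
  congr 1
  push_cast
  ring

lemma uu_periodic : Function.Periodic uu (2 * Real.pi) := by
  intro θ
  unfold uu
  have h1 : -((θ + 2 * Real.pi : ℝ) : ℂ) * I = -(θ : ℂ) * I - 2 * Real.pi * I := by
    push_cast
    ring
  rw [h1, Complex.exp_sub, Complex.exp_two_pi_mul_I, div_one]

/-- doubling the angle -/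
lemma int_sq {F : ℂ → ℂ} (hF : Continuous F) :
    ∫ θ, F (uu θ ^ 2) ∂ang = ∫ θ, F (uu θ) ∂ang := by
  rw [ang_int, ang_int]
  congr 1
  have hc : Continuous fun t : ℝ => F (uu t) := hF.comp continuous_uu
  have h1 : ∫ t in (0 : ℝ)..(2 * Real.pi), F (uu t ^ 2)
      = ∫ t in (0 : ℝ)..(2 * Real.pi), (fun s => F (uu s)) (2 * t) := by
    simp only [uu_sq]
  rw [h1, intervalIntegral.integral_comp_mul_left (fun s => F (uu s))
    (two_ne_zero : (2 : ℝ) ≠ 0), mul_zero]
  have hper : Function.Periodic (fun s => F (uu s)) (2 * Real.pi) := by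
    intro s
    simp only [uu_periodic s]
  have h2 : ∫ s in (0 : ℝ)..(2 * (2 * Real.pi)), F (uu s)
      = (∫ s in (0 : ℝ)..(2 * Real.pi), F (uu s))
        + ∫ s in (2 * Real.pi)..(2 * (2 * Real.pi)), F (uu s) :=
    (intervalIntegral.integral_add_adjacent_intervals (hc.intervalIntegrable _ _)
      (hc.intervalIntegrable _ _)).symm
  have h3 : ∫ s in (2 * Real.pi)..(2 * (2 * Real.pi)), F (uu s)
      = ∫ s in (0 : ℝ)..(2 * Real.pi), F (uu s) := by
    have h4 := hper.intervalIntegral_add_eq (2 * Real.pi) 0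
    rw [zero_add] at h4
    have h5 : 2 * (2 * Real.pi) = 2 * Real.pi + 2 * Real.pi := by ring
    rw [h5]
    exact h4
  rw [h2, h3, ← two_smul ℝ (∫ s in (0 : ℝ)..(2 * Real.pi), F (uu s)), smul_smul,
    inv_mul_cancel₀ (two_ne_zero), one_smul]

/-! ### The plane wave -/

lemma hasFDerivAt_pw (X l : ℂ) : HasFDerivAt (fun l : ℂ => ee X l)
    (ee X l • (I • (Complex.ofRealCLM.comp
      (Complex.reCLM.comp (ContinuousLinearMap.mul ℝ ℂ X))))) l := by
  have h1 : HasFDerivAt (fun l : ℂ => (((X * l).re : ℝ) : ℂ))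
      (Complex.ofRealCLM.comp (Complex.reCLM.comp (ContinuousLinearMap.mul ℝ ℂ X))) l :=
    (Complex.ofRealCLM.comp (Complex.reCLM.comp
      (ContinuousLinearMap.mul ℝ ℂ X))).hasFDerivAt
  exact (h1.const_mul I).cexp

lemma contDiff_pw (X : ℂ) : ContDiff ℝ 1 (fun l : ℂ => ee X l) := by
  unfold ee
  have h1 : ContDiff ℝ 1 fun l : ℂ => (((X * l).re : ℝ) : ℂ) :=
    (Complex.ofRealCLM.comp (Complex.reCLM.comp (ContinuousLinearMap.mul ℝ ℂ X))).contDiff
  exact (contDiff_const.mul h1).cexp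

lemma dz_pw (X l : ℂ) : 2 * dz (fun l : ℂ => ee X l) l = I * X * ee X l := by
  unfold dz
  rw [(hasFDerivAt_pw X l).fderiv]
  have h1 : (X : ℂ) = (X.re : ℂ) + (X.im : ℂ) * I := (Complex.re_add_im X).symm
  have h2 : (ee X l • (I • (Complex.ofRealCLM.comp
      (Complex.reCLM.comp (ContinuousLinearMap.mul ℝ ℂ X))))) 1 = ee X l * (I * (X.re : ℂ)) := by
    simp
  have h3 : (ee X l • (I • (Complex.ofRealCLM.comp
      (Complex.reCLM.comp (ContinuousLinearMap.mul ℝ ℂ X))))) I
      = ee X l * (I * (-(X.im : ℂ))) := by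
    simp
  rw [h2, h3]
  linear_combination (-(I * ee X l)) * h1

lemma dzb_pw (X l : ℂ) : 2 * dzb (fun l : ℂ => ee X l) l
    = I * (starRingEnd ℂ) X * ee X l := by
  unfold dzb
  rw [(hasFDerivAt_pw X l).fderiv]
  have h1 : (starRingEnd ℂ) X = (X.re : ℂ) - (X.im : ℂ) * I := by
    apply Complex.ext <;> simp
  have h2 : (ee X l • (I • (Complex.ofRealCLM.comp
      (Complex.reCLM.comp (ContinuousLinearMap.mul ℝ ℂ X))))) 1 = ee X l * (I * (X.re : ℂ)) := by
    simp
  have h3 : (ee X l • (I • (Complex.ofRealCLM.comp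
      (Complex.reCLM.comp (ContinuousLinearMap.mul ℝ ℂ X))))) I
      = ee X l * (I * (-(X.im : ℂ))) := by
    simp
  rw [h2, h3, h1]
  ring

end TPA

open TPA in
/-- **(TPA)** One and two points. -/
theorem stmtTpa (hDer : StmtDer) (hRel : StmtRel) (hRad : StmtRad) (hTwo : StmtTwo) :
    StmtTpa := by
  intro V σ h φ hL ζ hζ
  have hone : IsProbabilityMeasure angle := (inferInstance : IsProbabilityMeasure ang)
  refine ⟨?_, ?_⟩
  · -- one point
    intro x
    rw [Metric.tendsto_atTop']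
    intro ε hε
    have h1 := hRel V σ h φ hL ζ hζ 1 x (-Pi.single 0 1) (by norm_num) (ε / 2) (half_pos hε)
    obtain ⟨N, hN⟩ := Filter.eventually_atTop.mp h1
    refine ⟨N, fun n hn => ?_⟩
    rw [dist_zero_right]
    have h2 : ‖∫ θ, Aj σ h φ ζ x 0 n (uu θ ^ 2) ∂angle‖ ≤ ε / 2 * (angle.real Set.univ) := by
      refine norm_integral_le_of_norm_le_const (Filter.Eventually.of_forall fun θ => ?_)
      have h3 := (hN n hn.le (uu θ ^ 2) (by rw [norm_pow, norm_uu, one_pow])).1
      rw [Fin.sum_univ_one, neg_add_cancel] at h3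
      exact h3
    rw [probReal_univ, mul_one] at h2
    linarith
  · -- two points
    intro x
    set X : ℂ := x 0 - x 1 with hX
    set c : ℂ := ∫ z, ζ z with hc
    -- the value at the centre
    have h0 : Tendsto (fun n => Aj σ h φ ζ x 0 n 0) atTop (𝓝 c) := by
      have h1 := hTwo V σ h φ hL 0 0 ζ hζ
      have h2 : P 0 0 = 1 := by simp [P]
      rw [h2, one_mul] at h1
      refine h1.congr fun n => ?_
      unfold Aj
      refine integral_congr_ae (Filter.Eventually.of_forall fun z => ?_)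
      simp only [Fin.prod_univ_two, zero_mul, mul_zero, add_zero, Pi.zero_apply]
    have hK : ∫ θ, ee X (uu θ ^ 2) ∂angle = (Berry.waveK X : ℂ) :=
      (int_sq (contDiff_pw X).continuous).trans (int_ee X)
    rw [Metric.tendsto_atTop']
    intro ε hε
    set δ : ℝ := ε / (4 * (2 + ‖x 1‖)) with hδ
    have hb : 0 < 2 + ‖x 1‖ := by positivity
    have hδ0 : 0 < δ := by positivity
    set e0 : Fin 2 → ℤ := Pi.single 0 1 with he0
    have hD0 := (hDer V σ h φ hL ζ hζ 2 x 0 (by norm_num))
    have hD1 := (hDer V σ h φ hL ζ hζ 2 x e0 (by norm_num))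
    obtain ⟨N, hN⟩ := Filter.eventually_atTop.mp (((((hD0.2 δ hδ0).and (hD1.2 δ hδ0)).and
      (hRel V σ h φ hL ζ hζ 2 x 0 (by norm_num) δ hδ0)).and
      (hRel V σ h φ hL ζ hζ 2 x e0 (by norm_num) δ hδ0)).and
      ((Metric.tendsto_nhds.mp h0) (ε / 4) (by positivity)))
    refine ⟨N, fun n hn => ?_⟩
    obtain ⟨⟨⟨⟨ha, hb'⟩, hr0⟩, hr1⟩, hz⟩ := hN n hn.le
    have hdA0 : ∀ l, DifferentiableAt ℝ (Aj σ h φ ζ x 0 n) l := fun l =>
      (hD0.1 n).contDiffAt.differentiableAt (by simp)
    have hdA1 : ∀ l, DifferentiableAt ℝ (Aj σ h φ ζ x e0 n) l := fun l =>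
      (hD1.1 n).contDiffAt.differentiableAt (by simp)
    have hdp : ∀ l, DifferentiableAt ℝ (fun l : ℂ => ee X l) l := fun l =>
      (hasFDerivAt_pw X l).differentiableAt
    have hq0 : ContDiff ℝ 1 (fun l => Aj σ h φ ζ x 0 n l - c * ee X l) :=
      (hD0.1 n).sub (contDiff_const.mul (contDiff_pw X))
    have hq1 : ContDiff ℝ 1 (fun l => Aj σ h φ ζ x e0 n l - (c * I) * ee X l) :=
      (hD1.1 n).sub (contDiff_const.mul (contDiff_pw X))
    have hmain := hRad (fun l => Aj σ h φ ζ x 0 n l - c * ee X l)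
      (fun l => Aj σ h φ ζ x e0 n l - (c * I) * ee X l) X ((1 + ‖x 1‖) * δ) hq0 hq1
      (by positivity) (by
        intro l hl
        have ha1 := (ha l hl).1
        have hb1 := (hb' l hl).2
        have hr01 := (hr0 l hl).1
        have hr11 := (hr1 l hl).2
        rw [Fin.sum_univ_two] at ha1 hb1 hr01 hr11
        rw [zero_add, zero_add] at ha1 hr01
        rw [← he0] at ha1 hr01
        rw [← he0, sub_self] at hb1 hr11
        constructor
        · rw [dz_sub (hdA0 l) ((hdp l).const_mul c), dz_const_mul c (hdp l), mul_sub]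
          have h1 : 2 * dz (Aj σ h φ ζ x 0 n) l - 2 * (c * dz (fun l : ℂ => ee X l) l)
              - X * (Aj σ h φ ζ x e0 n l - c * I * ee X l)
              = (2 * dz (Aj σ h φ ζ x 0 n) l - (x 0 * Aj σ h φ ζ x e0 n l
                  + x 1 * Aj σ h φ ζ x (Pi.single 1 1) n l))
                + x 1 * (Aj σ h φ ζ x e0 n l + Aj σ h φ ζ x (Pi.single 1 1) n l) := by
            have h2 := dz_pw X l
            rw [hX] at h2 ⊢
            linear_combination (-c) * h2
          rw [h1]
          refine (norm_add_le _ _).trans ?_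
          rw [norm_mul]
          have h3 := mul_le_mul_of_nonneg_left hr01 (norm_nonneg (x 1))
          linarith
        · rw [dzb_sub (hdA1 l) ((hdp l).const_mul (c * I)), dzb_const_mul (c * I) (hdp l), mul_sub]
          have h1 : 2 * dzb (Aj σ h φ ζ x e0 n) l - 2 * (c * I * dzb (fun l : ℂ => ee X l) l)
              + (starRingEnd ℂ) X * (Aj σ h φ ζ x 0 n l - c * ee X l)
              = (2 * dzb (Aj σ h φ ζ x e0 n) l + ((starRingEnd ℂ) (x 0) * Aj σ h φ ζ x 0 n l
                  + (starRingEnd ℂ) (x 1) * Aj σ h φ ζ x (e0 - Pi.single 1 1) n l))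
                - (starRingEnd ℂ) (x 1) * (Aj σ h φ ζ x 0 n l
                  + Aj σ h φ ζ x (e0 - Pi.single 1 1) n l) := by
            have h2 := dzb_pw X l
            rw [hX, map_sub] at h2 ⊢
            linear_combination (-(c * I)) * h2 - c * ((starRingEnd ℂ) (x 0) - (starRingEnd ℂ) (x 1))
              * ee (x 0 - x 1) l * Complex.I_sq
          rw [h1]
          refine (norm_sub_le _ _).trans ?_
          rw [norm_mul, RCLike.norm_conj]
          have h3 := mul_le_mul_of_nonneg_left hr11 (norm_nonneg (x 1))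
          linarith)
    have hi0 : Integrable (fun θ => Aj σ h φ ζ x 0 n (uu θ ^ 2)) angle :=
      integrable_circle (hD0.1 n).continuous
    have hi1 : Integrable (fun θ => c * ee X (uu θ ^ 2)) angle :=
      (integrable_circle (contDiff_pw X).continuous).const_mul c
    rw [integral_sub hi0 hi1, integral_const_mul, hK] at hmain
    rw [dist_eq_norm, mul_comm ((Berry.waveK X : ℂ)) c]
    refine lt_of_le_of_lt hmain ?_
    have h5 : ee X 0 = 1 := by simp [ee]
    rw [dist_eq_norm] at hz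
    have h6 : (1 + ‖x 1‖) * δ ≤ ε / 4 := by
      rw [hδ, mul_div_assoc', div_le_div_iff₀ (by positivity) (by norm_num)]
      nlinarith [norm_nonneg (x 1)]
    simp only [h5, mul_one]
    linarith

end

end QJ
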