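import Pool.Agent.QJ.Stmts3

/-!
TPB: three points.
-/

open MeasureTheory Filter Topology Set
open scoped ContDiff

namespace QJ

open QE

noncomputable section

namespace TPB

/-- uniformly small on the unit disc for large `n` -/
def Sm (F : ℕ → ℂ → ℂ) : Prop := ∀ ε > 0, ∀ᶠ n in atTop, ∀ l : ℂ, ‖l‖ ≤ 1 → ‖F n l‖ ≤ ε

lemma Sm.congr {F G : ℕ → ℂ → ℂ} (hF : Sm F) (h : ∀ n l, F n l = G n l) : Sm G := by
  intro ε hε
  filter_upwards [hF ε hε] with n hn l hl
  rw [← h]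
  exact hn l hl

lemma Sm.comb {F G : ℕ → ℂ → ℂ} (hF : Sm F) (hG : Sm G) (a b : ℂ) :
    Sm (fun n l => a * F n l + b * G n l) := by
  intro ε hε
  have h1 : 0 < ε / (2 * (‖a‖ + 1)) := by positivity
  have h2 : 0 < ε / (2 * (‖b‖ + 1)) := by positivity
  filter_upwards [hF _ h1, hG _ h2] with n k1 k2 l hl
  have j1 := k1 l hl
  have j2 := k2 l hl
  have i1 : ‖a * F n l‖ ≤ ε / 2 := by
    rw [norm_mul]
    calc ‖a‖ * ‖F n l‖ ≤ (‖a‖ + 1) * (ε / (2 * (‖a‖ + 1))) := by gcongr; linarith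
      _ = ε / 2 := by field_simp
  have i2 : ‖b * G n l‖ ≤ ε / 2 := by
    rw [norm_mul]
    calc ‖b‖ * ‖G n l‖ ≤ (‖b‖ + 1) * (ε / (2 * (‖b‖ + 1))) := by gcongr; linarith
      _ = ε / 2 := by field_simp
  calc ‖a * F n l + b * G n l‖ ≤ ‖a * F n l‖ + ‖b * G n l‖ := norm_add_le _ _
    _ ≤ ε := by linarith

/-- the algebra of the three points -/
lemma key (A : (Fin 3 → ℤ) → ℕ → ℂ → ℂ) (x : Fin 3 → ℂ) (hA : ∀ j n, ContDiff ℝ 1 (A j n))
    (hz : ∀ j : Fin 3 → ℤ, Sm fun n l => 2 * dz (A j n) l - ∑ i, x i * A (j + Pi.single i 1) n l)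
    (hzb : ∀ j : Fin 3 → ℤ, Sm fun n l => 2 * dzb (A j n) l
      + ∑ i, (starRingEnd ℂ) (x i) * A (j - Pi.single i 1) n l)
    (hp : ∀ j : Fin 3 → ℤ, Sm fun n l => ∑ i : Fin 3, A (j + Pi.single i 1) n l)
    (hm : ∀ j : Fin 3 → ℤ, Sm fun n l => ∑ i : Fin 3, A (j - Pi.single i 1) n l)
    (hRad : StmtRad) (ν ν' : ℂ) (h1 : 1 + ν + ν' = 0) (h2 : ν * ν' = 1)
    (h3 : (starRingEnd ℂ) ν = ν') (h4 : (starRingEnd ℂ) ν' = ν)
    (h0 : Tendsto (fun n => A (0 + Pi.single 1 1 - Pi.single 0 1) n 0 - ν' * A 0 n 0) atTop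
      (𝓝 0)) :
    Tendsto (fun n => ∫ θ, (A (0 + Pi.single 1 1 - Pi.single 0 1) n (uu θ ^ 2)
      - ν' * A 0 n (uu θ ^ 2)) ∂angle) atTop (𝓝 0) := by
  set s0 : Fin 3 → ℤ := Pi.single 0 1 with hs0
  set s1 : Fin 3 → ℤ := Pi.single 1 1 with hs1
  set s2 : Fin 3 → ℤ := Pi.single 2 1 with hs2
  have hp' : ∀ j : Fin 3 → ℤ, Sm fun n l => A (j + s0) n l + A (j + s1) n l + A (j + s2) n l := fun j =>
    (hp j).congr fun n l => Fin.sum_univ_three _
  have hm' : ∀ j : Fin 3 → ℤ, Sm fun n l => A (j - s0) n l + A (j - s1) n l + A (j - s2) n l := fun j =>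
    (hm j).congr fun n l => Fin.sum_univ_three _
  -- the three term relation
  have hT : ∀ j : Fin 3 → ℤ, Sm fun n l => A (j + s0 + s0) n l + A (j + s0 + s1) n l + A (j + s1 + s1) n l := by
    intro j
    refine (((hp' (j + s1)).comb (hp' (j + s0)) 1 1).comb (hm' (j + s0 + s1 + s2)) 1 (-1)).congr
      fun n l => ?_
    rw [show j + s1 + s0 = j + s0 + s1 by abel, show j + s0 + s1 + s2 - s0 = j + s1 + s2 by abel,
      show j + s0 + s1 + s2 - s1 = j + s0 + s2 by abel,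
      show j + s0 + s1 + s2 - s2 = j + s0 + s1 by abel]
    ring
  set P : (Fin 3 → ℤ) → ℕ → ℂ → ℂ := fun j n l => A (j + s1 - s0) n l - ν' * A j n l with hP
  have c1 : ∀ j : Fin 3 → ℤ, Sm fun n l => P (j + s1) n l - ν * P (j + s0) n l := by
    intro j
    refine (hT (j - s0)).congr fun n l => ?_
    change _ = A (j + s1 + s1 - s0) n l - ν' * A (j + s1) n l
      - ν * (A (j + s0 + s1 - s0) n l - ν' * A (j + s0) n l)
    rw [show j - s0 + s0 + s0 = j + s0 by abel, show j - s0 + s0 + s1 = j + s1 by abel,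
      show j - s0 + s1 + s1 = j + s1 + s1 - s0 by abel, show j + s0 + s1 - s0 = j + s1 by abel]
    linear_combination (A (j + s1) n l) * h1 - (A (j + s0) n l) * h2
  have pP : ∀ j : Fin 3 → ℤ, Sm fun n l => P (j + s0) n l + P (j + s1) n l + P (j + s2) n l := by
    intro j
    refine ((hp' (j + s1 - s0)).comb (hp' j) 1 (-ν')).congr fun n l => ?_
    change _ = (A (j + s0 + s1 - s0) n l - ν' * A (j + s0) n l)
      + (A (j + s1 + s1 - s0) n l - ν' * A (j + s1) n l)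
      + (A (j + s2 + s1 - s0) n l - ν' * A (j + s2) n l)
    rw [show j + s0 + s1 - s0 = j + s1 - s0 + s0 by abel,
      show j + s1 + s1 - s0 = j + s1 - s0 + s1 by abel,
      show j + s2 + s1 - s0 = j + s1 - s0 + s2 by abel]
    ring
  have mP : ∀ j : Fin 3 → ℤ, Sm fun n l => P (j - s0) n l + P (j - s1) n l + P (j - s2) n l := by
    intro j
    refine ((hm' (j + s1 - s0)).comb (hm' j) 1 (-ν')).congr fun n l => ?_
    change _ = (A (j - s0 + s1 - s0) n l - ν' * A (j - s0) n l)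
      + (A (j - s1 + s1 - s0) n l - ν' * A (j - s1) n l)
      + (A (j - s2 + s1 - s0) n l - ν' * A (j - s2) n l)
    rw [show j - s0 + s1 - s0 = j + s1 - s0 - s0 by abel,
      show j - s1 + s1 - s0 = j + s1 - s0 - s1 by abel,
      show j - s2 + s1 - s0 = j + s1 - s0 - s2 by abel]
    ring
  have c2 : ∀ j : Fin 3 → ℤ, Sm fun n l => P (j + s2) n l - ν' * P (j + s0) n l := by
    intro j
    refine ((pP j).comb (c1 j) 1 (-1)).congr fun n l => ?_
    linear_combination (P (j + s0) n l) * h1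
  have c3 : ∀ j : Fin 3 → ℤ, Sm fun n l => P (j - s1) n l - ν' * P (j - s0) n l := by
    intro j
    refine ((c1 (j - s0 - s1)).comb (c1 (j - s0 - s1)) (-ν') 0).congr fun n l => ?_
    rw [show j - s0 - s1 + s1 = j - s0 by abel, show j - s0 - s1 + s0 = j - s1 by abel]
    linear_combination (P (j - s1) n l) * h2
  have c4 : ∀ j : Fin 3 → ℤ, Sm fun n l => P (j - s2) n l - ν * P (j - s0) n l := by
    intro j
    refine ((mP j).comb (c3 j) 1 (-1)).congr fun n l => ?_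
    linear_combination (P (j - s0) n l) * h1
  have dA : ∀ j n l, DifferentiableAt ℝ (A j n) l := fun j n l =>
    ((hA j n).differentiable (by norm_num)) l
  have dP : ∀ j n l, dz (P j n) l = dz (A (j + s1 - s0) n) l - ν' * dz (A j n) l := by
    intro j n l
    change dz (fun l => A (j + s1 - s0) n l - ν' * A j n l) l = _
    rw [dz_sub (dA _ n l) ((dA _ n l).const_mul _), dz_const_mul _ (dA _ n l)]
  have dbP : ∀ j n l, dzb (P j n) l = dzb (A (j + s1 - s0) n) l - ν' * dzb (A j n) l := by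
    intro j n l
    change dzb (fun l => A (j + s1 - s0) n l - ν' * A j n l) l = _
    rw [dzb_sub (dA _ n l) ((dA _ n l).const_mul _), dzb_const_mul _ (dA _ n l)]
  -- the system
  set X : ℂ := x 0 + ν * x 1 + ν' * x 2 with hX
  have E0 : Sm fun n l => 2 * dz (P 0 n) l - X * P (0 + s0) n l := by
    have t1 := (hz (0 + s1 - s0)).comb (hz 0) 1 (-ν')
    have t2 := (c1 0).comb (c2 0) (x 1) (x 2)
    refine (t1.comb t2 1 1).congr fun n l => ?_
    rw [dP, Fin.sum_univ_three, Fin.sum_univ_three, ← hs0, ← hs1, ← hs2]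
    simp only [hP]
    rw [show (0 : Fin 3 → ℤ) + s1 - s0 + s0 = 0 + s1 by abel,
      show (0 : Fin 3 → ℤ) + s0 + s1 - s0 = 0 + s1 by abel,
      show (0 : Fin 3 → ℤ) + s1 - s0 + s1 = 0 + s1 + s1 - s0 by abel,
      show (0 : Fin 3 → ℤ) + s1 - s0 + s2 = 0 + s2 + s1 - s0 by abel]
    ring
  have E1 : Sm fun n l => 2 * dzb (P (0 + s0) n) l + (starRingEnd ℂ) X * P 0 n l := by
    have t1 := (hzb (0 + s0 + s1 - s0)).comb (hzb (0 + s0)) 1 (-ν')
    have t2 := (c3 (0 + s0)).comb (c4 (0 + s0)) ((starRingEnd ℂ) (x 1)) ((starRingEnd ℂ) (x 2))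
    refine (t1.comb t2 1 (-1)).congr fun n l => ?_
    rw [dbP, Fin.sum_univ_three, Fin.sum_univ_three, ← hs0, ← hs1, ← hs2, hX, map_add, map_add,
      map_mul, map_mul, h3, h4]
    simp only [hP]
    rw [show (0 : Fin 3 → ℤ) + s0 - s0 = 0 by abel,
      show (0 : Fin 3 → ℤ) + s0 + s1 - s0 - s0 = 0 + s1 - s0 by abel,
      show (0 : Fin 3 → ℤ) + s0 + s1 - s0 - s1 = 0 + s0 - s1 + s1 - s0 by abel,
      show (0 : Fin 3 → ℤ) + s0 + s1 - s0 - s2 = 0 + s0 - s2 + s1 - s0 by abel]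
    ring
  rw [Metric.tendsto_nhds]
  intro ε hε
  have e3 : 0 < ε / 8 := by positivity
  filter_upwards [E0 (ε / 8) e3, E1 (ε / 8) e3, Metric.tendsto_nhds.mp h0 (ε / 2) (by positivity)]
    with n k1 k2 k3
  have k4 := hRad (P 0 n) (P (0 + s0) n) X (ε / 8)
    ((hA _ n).sub (contDiff_const.mul (hA _ n))) ((hA _ n).sub (contDiff_const.mul (hA _ n)))
    e3.le (fun l hl => ⟨k1 l hl, k2 l hl⟩)
  rw [dist_zero_right] at k3 ⊢
  have k5 : ‖P 0 n 0‖ < ε / 2 := k3
  exact k4.trans_lt (by linarith)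

end TPB

open TPB in
theorem stmtTpb (hDer : StmtDer) (hRel : StmtRel) (hRad : StmtRad) (hCub : StmtCub) : StmtTpb := by
  intro V σ h φ hL ζ hζ x
  set A : (Fin 3 → ℤ) → ℕ → ℂ → ℂ := fun j => Aj σ h φ ζ x j with hAdef
  have hd := fun j => hDer V σ h φ hL ζ hζ 3 x j (by norm_num)
  have hr := fun j => hRel V σ h φ hL ζ hζ 3 x j (by norm_num)
  have hz : ∀ j : Fin 3 → ℤ, Sm fun n l => 2 * dz (A j n) l - ∑ i, x i * A (j + Pi.single i 1) n l := by
    intro j ε hε
    filter_upwards [(hd j).2 ε hε] with n hn l hl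
    exact (hn l hl).1
  have hzb : ∀ j : Fin 3 → ℤ, Sm fun n l => 2 * dzb (A j n) l
      + ∑ i, (starRingEnd ℂ) (x i) * A (j - Pi.single i 1) n l := by
    intro j ε hε
    filter_upwards [(hd j).2 ε hε] with n hn l hl
    exact (hn l hl).2
  have hp : ∀ j : Fin 3 → ℤ, Sm fun n l => ∑ i : Fin 3, A (j + Pi.single i 1) n l := by
    intro j ε hε
    filter_upwards [hr j ε hε] with n hn l hl
    exact (hn l hl).1
  have hm : ∀ j : Fin 3 → ℤ, Sm fun n l => ∑ i : Fin 3, A (j - Pi.single i 1) n l := by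
    intro j ε hε
    filter_upwards [hr j ε hε] with n hn l hl
    exact (hn l hl).2
  have hA : ∀ j n, ContDiff ℝ 1 (A j n) := fun j => (hd j).1
  have hv : ∀ j n, A j n 0 = E3 σ h φ ζ (j 0) (j 1) (j 2) n := by
    intro j n
    refine integral_congr_ae (Filter.Eventually.of_forall fun z => ?_)
    change ζ z * ∏ i, E σ h φ (j i) n (z + ((h n * Real.exp (-σ z) : ℝ) : ℂ) * (0 * x i)) = _
    rw [Fin.prod_univ_three]
    simp only [zero_mul, mul_zero, add_zero]
  have hlim : ∀ j : Fin 3 → ℤ, j 0 + j 1 + j 2 = 0 → Tendsto (fun n => A j n 0) atTop (𝓝 0) := by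
    intro j hj
    refine (hCub V σ h φ hL ζ hζ (j 0) (j 1) (j 2) hj).congr fun n => (hv j n).symm
  have l1 : Tendsto (fun n => A (0 + Pi.single 1 1 - Pi.single 0 1) n 0) atTop (𝓝 0) := by
    refine hlim _ ?_
    simp
  have l2 : Tendsto (fun n => A 0 n 0) atTop (𝓝 0) := hlim 0 (by simp)
  -- the cube roots of unity
  obtain ⟨w, w', w1, w2, w3, w4, w5⟩ : ∃ w w' : ℂ, 1 + w + w' = 0 ∧ w * w' = 1 ∧
      (starRingEnd ℂ) w = w' ∧ (starRingEnd ℂ) w' = w ∧ w - w' ≠ 0 := by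
    have hs : Real.sqrt 3 * Real.sqrt 3 = 3 := Real.mul_self_sqrt (by norm_num)
    have hs0 : Real.sqrt 3 ≠ 0 := by positivity
    refine ⟨⟨-1 / 2, Real.sqrt 3 / 2⟩, ⟨-1 / 2, -(Real.sqrt 3 / 2)⟩, ?_, ?_, ?_, ?_, ?_⟩
    · apply Complex.ext
      · simp
        norm_num
      · simp
    · apply Complex.ext
      · simp only [Complex.mul_re, Complex.one_re]
        linarith
      · simp only [Complex.mul_im, Complex.one_im]
        ring
    · apply Complex.ext <;> simp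
    · apply Complex.ext <;> simp
    · intro h0
      have := congrArg Complex.im h0
      simp only [Complex.sub_im, Complex.zero_im] at this
      apply hs0
      linarith
  have r1 := key A x hA hz hzb hp hm hRad w w' w1 w2 w3 w4 (by
    have := l1.sub (l2.const_mul w')
    rwa [mul_zero, sub_zero] at this)
  have r2 := key A x hA hz hzb hp hm hRad w' w (by rw [← w1]; ring) (by rw [← w2]; ring) w4 w3 (by
    have := l1.sub (l2.const_mul w)
    rwa [mul_zero, sub_zero] at this)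
  have r3 := (r1.sub r2).const_mul (w - w')⁻¹
  rw [sub_zero, mul_zero] at r3
  refine r3.congr fun n => ?_
  have hu : Continuous fun θ : ℝ => uu θ ^ 2 := continuous_uu.pow 2
  have hprob : IsProbabilityMeasure angle := Berry.angle_prob
  have hi : ∀ j, Integrable (fun θ => A j n (uu θ ^ 2)) angle := by
    intro j
    have hc : Continuous (A j n) := (hA j n).continuous
    obtain ⟨C, hC⟩ := (isCompact_closedBall (0 : ℂ) 1).exists_bound_of_continuousOn hc.continuousOn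
    refine Integrable.of_bound (hc.comp hu).aestronglyMeasurable C
      (Filter.Eventually.of_forall fun θ => hC _ ?_)
    rw [mem_closedBall_zero_iff, norm_pow, norm_uu, one_pow]
  have i1 : Integrable (fun θ => A (0 + Pi.single 1 1 - Pi.single 0 1) n (uu θ ^ 2)
      - w' * A 0 n (uu θ ^ 2)) angle := (hi _).sub ((hi 0).const_mul w')
  have i2 : Integrable (fun θ => A (0 + Pi.single 1 1 - Pi.single 0 1) n (uu θ ^ 2)
      - w * A 0 n (uu θ ^ 2)) angle := (hi _).sub ((hi 0).const_mul w)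
  rw [← integral_sub i1 i2, ← integral_const_mul]
  refine integral_congr_ae (Filter.Eventually.of_forall fun θ => ?_)
  change (w - w')⁻¹ * ((A (0 + Pi.single 1 1 - Pi.single 0 1) n (uu θ ^ 2)
    - w' * A 0 n (uu θ ^ 2)) - (A (0 + Pi.single 1 1 - Pi.single 0 1) n (uu θ ^ 2)
    - w * A 0 n (uu θ ^ 2))) = A 0 n (uu θ ^ 2)
  field_simp
  ring

end

end QJ
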