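import Pool.Agent.QJ.AllA
import Pool.Agent.QJ.TEST
import Pool.Agent.QJ.DSP
import Pool.Agent.QJ.DER
import Pool.Agent.QJ.REL
import Pool.Agent.QJ.RAD
import Pool.Agent.QJ.TPA
import Pool.Agent.QJ.TPB
import Pool.Agent.QJ.TL
import Pool.Agent.QJ.DSU
import Pool.Agent.QJ.PTS
import Pool.Agent.QJ.FINP

/-!
The theorem on the moments of order at most three, assembled.
-/

namespace QJ

theorem dsp : StmtDsp := stmtDsp gro ptw
theorem der : StmtDer := stmtDer dsp stmtJetA
theorem rel : StmtRel := stmtRel dsp stmtJetA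
theorem tpa : StmtTpa := stmtTpa der rel stmtRad two
theorem tpb : StmtTpb := stmtTpb der rel stmtRad cub
theorem tl : StmtTL := stmtTL tpa tpb
theorem dsu : StmtDsu := stmtDsu dsp
theorem pts : StmtPts := stmtPts tl dsu
theorem finP : StmtFinP := stmtFinP stmtTest pts

end QJ

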