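import Pool.Agent.QJ.Stmts

/-!
Module ALF: symmetric functions on `{a + b + c + d = 0}` with the two recursions.
-/

namespace QJ

open QE

namespace ALF

variable {X : Type} [AddCommGroup X] [Module ℂ X]

theorem two_cancel {x y : X} (h : (2 : ℂ) • x = (2 : ℂ) • y) : x = y := by
  have h2 : ((2 : ℂ)⁻¹) • ((2 : ℂ) • x) = ((2 : ℂ)⁻¹) • ((2 : ℂ) • y) := by rw [h]
  rwa [smul_smul, smul_smul, inv_mul_cancel₀ (two_ne_zero), one_smul, one_smul] at h2

theorem const1 (φ : ℤ → X) (c : X) (h : ∀ t, φ (t + 1) + φ (t - 1) = (2 : ℂ) • φ t)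
    (h0 : φ 0 = c) (h1 : φ 1 = c) : ∀ t, φ t = c := by
  have key : ∀ n : ℕ, φ n = c ∧ φ ((n : ℤ) + 1) = c ∧ φ (-(n : ℤ)) = c ∧ φ (-(n : ℤ) + 1) = c := by
    intro n
    induction n with
    | zero => simp [h0, h1]
    | succ n ih =>
      obtain ⟨a1, a2, a3, a4⟩ := ih
      have b1 := h ((n : ℤ) + 1)
      have e1 : (n : ℤ) + 1 - 1 = n := by ring
      rw [e1, a1, a2] at b1
      have b2 := h (-(n : ℤ))
      rw [a3, a4] at b2
      have e2 : (2 : ℂ) • c = c + c := two_smul ℂ c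
      rw [e2] at b1 b2
      refine ⟨?_, ?_, ?_, ?_⟩
      · push_cast
        exact a2
      · push_cast
        exact add_right_cancel b1
      · have e3 : -((n + 1 : ℕ) : ℤ) = -(n : ℤ) - 1 := by push_cast; ring
        rw [e3]
        exact add_left_cancel b2
      · have e3 : -((n + 1 : ℕ) : ℤ) + 1 = -(n : ℤ) := by push_cast; ring
        rw [e3]
        exact a3
  intro t
  rcases le_total 0 t with ht | ht
  · obtain ⟨n, rfl⟩ := Int.eq_ofNat_of_zero_le ht
    exact (key n).1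
  · obtain ⟨n, hn⟩ := Int.eq_ofNat_of_zero_le (by omega : (0 : ℤ) ≤ -t)
    have : t = -(n : ℤ) := by omega
    rw [this]
    exact (key n).2.2.1

theorem const3 (F : ℤ → ℤ → ℤ → X) (c : X)
    (h1 : ∀ x y z, F (x + 1) y z + F (x - 1) y z = (2 : ℂ) • F x y z)
    (h2 : ∀ x y z, F x (y + 1) z + F x (y - 1) z = (2 : ℂ) • F x y z)
    (h3 : ∀ x y z, F x y (z + 1) + F x y (z - 1) = (2 : ℂ) • F x y z)
    (e0 : F 0 0 0 = c) (e1 : F 1 0 0 = c) (e2 : F 0 1 0 = c) (e3 : F 0 0 1 = c)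
    (e4 : F 1 1 0 = c) (e5 : F 1 0 1 = c) (e6 : F 0 1 1 = c) (e7 : F 1 1 1 = c) :
    ∀ x y z, F x y z = c := by
  have a1 : ∀ x, F x 0 0 = c := const1 (fun x => F x 0 0) c (fun x => h1 x 0 0) e0 e1
  have a2 : ∀ x, F x 1 0 = c := const1 (fun x => F x 1 0) c (fun x => h1 x 1 0) e2 e4
  have a3 : ∀ x, F x 0 1 = c := const1 (fun x => F x 0 1) c (fun x => h1 x 0 1) e3 e5
  have a4 : ∀ x, F x 1 1 = c := const1 (fun x => F x 1 1) c (fun x => h1 x 1 1) e6 e7
  have b1 : ∀ x y, F x y 0 = c := fun x =>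
    const1 (fun y => F x y 0) c (fun y => h2 x y 0) (a1 x) (a2 x)
  have b2 : ∀ x y, F x y 1 = c := fun x =>
    const1 (fun y => F x y 1) c (fun y => h2 x y 1) (a3 x) (a4 x)
  intro x y
  exact const1 (fun z => F x y z) c (fun z => h3 x y z) (b1 x y) (b2 x y)

end ALF

open ALF in
theorem stmtAlf : StmtAlf := by
  intro X _ _ e h12 h23 h34 hS hI
  -- the relation in the three directions
  have hS2 : ∀ a b c d, a + b + c + d = 0 → e (a + 1) (b - 1) (c + 1) (d - 1)
      + e (a - 1) (b + 1) (c - 1) (d + 1) = (2 : ℂ) • e a b c d := by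
    intro a b c d h
    have := hS a c b d (by omega)
    rw [h23 (a + 1) (b - 1) (c + 1) (d - 1), h23 (a - 1) (b + 1) (c - 1) (d + 1), h23 a b c d]
      at this
    exact this
  have hS3 : ∀ a b c d, a + b + c + d = 0 → e (a + 1) (b - 1) (c - 1) (d + 1)
      + e (a - 1) (b + 1) (c + 1) (d - 1) = (2 : ℂ) • e a b c d := by
    intro a b c d h
    have := hS a d b c (by omega)
    rw [h23 (a + 1) (b - 1) (d + 1) (c - 1), h34 (a + 1) (b - 1) (c - 1) (d + 1),
      h23 (a - 1) (b + 1) (d - 1) (c + 1), h34 (a - 1) (b + 1) (c + 1) (d - 1),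
      h23 a b d c, h34 a b c d] at this
    exact this
  set α := e 0 0 0 0 with hα
  set g := e 0 0 1 (-1) with hg
  -- values
  have hS0 := hS 0 0 0 0 (by norm_num)
  norm_num at hS0
  have p1 : e (-1) (-1) 1 1 = e 1 1 (-1) (-1) := by
    rw [← h23 (-1) (-1) 1 1, ← h12 (-1) 1 (-1) 1, ← h34 1 (-1) (-1) 1, ← h23 1 (-1) 1 (-1)]
  have v1 : e 1 1 (-1) (-1) = α := by
    rw [p1, ← two_smul ℂ] at hS0
    exact two_cancel hS0
  have v1' : e 1 (-1) 1 (-1) = α := by rw [← h23 1 (-1) 1 (-1), v1]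
  have v1'' : e 1 (-1) (-1) 1 = α := by rw [← h34 1 (-1) (-1) 1, v1']
  have hS1 := hS2 1 1 (-1) (-1) (by norm_num)
  norm_num at hS1
  -- e 2 0 0 (-2) + e 0 2 (-2) 0 = 2 • e 1 1 (-1) (-1)
  have p2 : e 0 2 (-2) 0 = e 2 0 0 (-2) := by
    rw [← h12 0 2 (-2) 0, ← h34 2 0 (-2) 0]
  have v2 : e 2 0 0 (-2) = α := by
    rw [p2, ← two_smul ℂ, v1] at hS1
    exact two_cancel hS1
  have v2' : e 2 0 (-2) 0 = α := by rw [← h34 2 0 (-2) 0, v2]
  have v2'' : e 2 (-2) 0 0 = α := by rw [← h23 2 (-2) 0 0, v2']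
  -- the second coset
  have g1 : e 1 (-1) 0 0 = g := by
    rw [← h23 1 (-1) 0 0, ← h34 1 0 (-1) 0, ← h12 1 0 0 (-1), ← h23 0 1 0 (-1)]
  have g2 : e (-1) 1 0 0 = g := by rw [← h12 (-1) 1 0 0, g1]
  have hS4 := hS2 0 0 1 (-1) (by norm_num)
  norm_num at hS4
  have g3 : e 1 (-1) 2 (-2) = g := by
    have : e (-1) 1 0 0 = g := g2
    rw [this, ← hg, two_smul ℂ] at hS4
    exact add_right_cancel hS4
  have g4 : e 2 (-2) 1 (-1) = g := by
    rw [← g3, ← h23 1 (-1) 2 (-2), ← h12 1 2 (-1) (-2), ← h34 2 1 (-1) (-2),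
      ← h23 2 1 (-2) (-1)]
  have i1 := hI 0 0 0 (-1) (by norm_num)
  norm_num at i1
  have g5 : e 1 0 0 (-1) = g := by rw [← h12 1 0 0 (-1), ← h23 0 1 0 (-1)]
  have g6 : e 0 1 0 (-1) = g := by rw [← h23 0 1 0 (-1)]
  rw [g5, g6, ← hg, ← hα] at i1
  have i2 := hI 1 0 0 (-2) (by norm_num)
  norm_num at i2
  have g7 : e 1 0 1 (-2) = e 1 1 0 (-2) := h23 1 1 0 (-2)
  rw [g7, v2, g5] at i2
  have x1 : e 1 1 0 (-2) = g := by
    apply two_cancel
    have e1 : α = -(g + g + g) := by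
      rw [eq_neg_iff_add_eq_zero, add_comm]
      exact i1
    rw [e1] at i2
    rw [two_smul ℂ, two_smul ℂ]
    have : e 1 1 0 (-2) + e 1 1 0 (-2) - (g + g) =
      -(g + g + g) + e 1 1 0 (-2) + e 1 1 0 (-2) + g := by abel
    rw [← sub_eq_zero, this]
    exact i2
  have hS5 := hS 0 0 1 (-1) (by norm_num)
  norm_num at hS5
  have p3 : e (-1) (-1) 2 0 = e 2 0 (-1) (-1) := by
    rw [← h23 (-1) (-1) 2 0, ← h12 (-1) 2 (-1) 0, ← h34 2 (-1) (-1) 0, ← h23 2 (-1) 0 (-1)]
  have y1 : e 2 0 (-1) (-1) = g := by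
    rw [p3, x1, ← hg, two_smul ℂ] at hS5
    exact add_left_cancel hS5
  have i3 := hI 2 (-1) (-1) (-1) (by norm_num)
  norm_num at i3
  have g8 : e 2 (-1) 0 (-1) = g := by rw [h23 2 0 (-1) (-1), y1]
  have g9 : e 2 (-1) (-1) 0 = g := by rw [h34 2 (-1) 0 (-1), g8]
  rw [y1, g8, g9] at i3
  have v3 : e 3 (-1) (-1) (-1) = α := by
    have e1 : α = -(g + g + g) := by
      rw [eq_neg_iff_add_eq_zero, add_comm]
      exact i1
    rw [e1, eq_neg_iff_add_eq_zero, ← i3]
    abel
  -- more values in the second coset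
  have z1 : e 0 2 (-1) (-1) = g := by rw [← h12 0 2 (-1) (-1), y1]
  have z2 : e 1 1 (-2) 0 = g := by rw [h34 1 1 0 (-2), x1]
  have hS6 := hS2 1 1 0 (-2) (by norm_num)
  norm_num at hS6
  -- e 2 0 1 (-3) + e 0 2 (-1) (-1) = 2 • e 1 1 0 (-2)
  have z3 : e 2 0 1 (-3) = g := by
    rw [z1, x1, two_smul ℂ] at hS6
    exact add_right_cancel hS6
  have hS7 := hS2 2 0 (-1) (-1) (by norm_num)
  norm_num at hS7
  have z4 : e 3 (-1) 0 (-2) = g := by
    rw [z2, y1, two_smul ℂ] at hS7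
    exact add_right_cancel hS7
  -- the first coset
  have A : ∀ x y z, e (x + y + z) (x - y - z) (-x + y - z) (-x - y + z) = α := by
    apply const3 (fun x y z => e (x + y + z) (x - y - z) (-x + y - z) (-x - y + z))
    · intro x y z
      have := hS (x + y + z) (x - y - z) (-x + y - z) (-x - y + z) (by ring)
      rw [← this]
      congr 2 <;> ring
    · intro x y z
      have := hS2 (x + y + z) (x - y - z) (-x + y - z) (-x - y + z) (by ring)
      rw [← this]
      congr 2 <;> ring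
    · intro x y z
      have := hS3 (x + y + z) (x - y - z) (-x + y - z) (-x - y + z) (by ring)
      rw [← this]
      congr 2 <;> ring
    · norm_num
      exact hα.symm
    · norm_num
      exact v1
    · norm_num
      exact v1'
    · norm_num
      exact v1''
    · norm_num
      exact v2
    · norm_num
      exact v2'
    · norm_num
      exact v2''
    · norm_num
      exact v3
  have B : ∀ x y z, e (x + y + z) (x - y - z) (1 - x + y - z) (-1 - x - y + z) = g := by
    apply const3 (fun x y z => e (x + y + z) (x - y - z) (1 - x + y - z) (-1 - x - y + z))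
    · intro x y z
      have := hS (x + y + z) (x - y - z) (1 - x + y - z) (-1 - x - y + z) (by ring)
      rw [← this]
      congr 2 <;> ring
    · intro x y z
      have := hS2 (x + y + z) (x - y - z) (1 - x + y - z) (-1 - x - y + z) (by ring)
      rw [← this]
      congr 2 <;> ring
    · intro x y z
      have := hS3 (x + y + z) (x - y - z) (1 - x + y - z) (-1 - x - y + z) (by ring)
      rw [← this]
      congr 2 <;> ring
    · norm_num
      exact hg.symm
    · norm_num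
      exact x1
    · norm_num
      exact g3
    · norm_num
      exact g1
    · norm_num
      exact z3
    · norm_num
      exact y1
    · norm_num
      exact g4
    · norm_num
      exact z4
  have hgα : g = (-1 / 3 : ℂ) • α := by
    have e1 : α = -(g + g + g) := by
      rw [eq_neg_iff_add_eq_zero, add_comm]
      exact i1
    rw [e1]
    module
  have B' : ∀ a b c d : ℤ, a + b + c + d = 0 → (a - b) % 2 = 0 → (a - c) % 2 ≠ 0 →
      e a b c d = g := by
    intro a b c d h hab hac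
    have h1 : ∃ x : ℤ, a + b = 2 * x := ⟨(a + b) / 2, by omega⟩
    have h2 : ∃ y : ℤ, a + c - 1 = 2 * y := ⟨(a + c - 1) / 2, by omega⟩
    have h3 : ∃ z : ℤ, 1 - b - c = 2 * z := ⟨(1 - b - c) / 2, by omega⟩
    obtain ⟨x, hx⟩ := h1
    obtain ⟨y, hy⟩ := h2
    obtain ⟨z, hz⟩ := h3
    have := B x y z
    have e1 : x + y + z = a := by omega
    have e2 : x - y - z = b := by omega
    have e3 : 1 - x + y - z = c := by omega
    have e4 : -1 - x - y + z = d := by omega
    rw [e1, e2, e3, e4] at this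
    exact this
  intro a b c d h
  unfold cl4
  split_ifs with hc
  · obtain ⟨c1, c2, c3⟩ := hc
    have h1 : ∃ x : ℤ, a + b = 2 * x := ⟨(a + b) / 2, by omega⟩
    have h2 : ∃ y : ℤ, a + c = 2 * y := ⟨(a + c) / 2, by omega⟩
    have h3 : ∃ z : ℤ, a + d = 2 * z := ⟨(a + d) / 2, by omega⟩
    obtain ⟨x, hx⟩ := h1
    obtain ⟨y, hy⟩ := h2
    obtain ⟨z, hz⟩ := h3
    have := A x y z
    have e1 : x + y + z = a := by omega
    have e2 : x - y - z = b := by omega
    have e3 : -x + y - z = c := by omega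
    have e4 : -x - y + z = d := by omega
    rw [e1, e2, e3, e4] at this
    rw [this, one_smul]
  · rw [← hgα]
    by_cases k1 : (a - b) % 2 = 0
    · have k2 : (a - c) % 2 ≠ 0 := by
        intro k2
        apply hc
        refine ⟨k1, k2, ?_⟩
        omega
      exact B' a b c d h k1 k2
    · by_cases k2 : (a - c) % 2 = 0
      · rw [← h23 a b c d]
        exact B' a c b d (by omega) k2 k1
      · have k3 : (a - d) % 2 = 0 := by omega
        rw [← h34 a b c d, ← h23 a b d c]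
        exact B' a d b c (by omega) k3 k1

end QJ
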