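import Pool.Agent.QJ.Stmts

/-!
ALT: symmetric functions on the triples with sum zero (module QJ_ALT).
-/

namespace QJ

namespace ALT

section

variable {X : Type} [AddCommGroup X] {e : ℤ → ℤ → ℤ → X}

theorem t3 (hu : ∀ a b c, a + b + c = -1 → e (a + 1) b c + e a (b + 1) c + e a b (c + 1) = 0)
    (hd : ∀ a b c, a + b + c = 1 → e (a - 1) b c + e a (b - 1) c + e a b (c - 1) = 0)
    (a b c : ℤ) (h : a + b + c = 0) : e (a + 1) (b + 1) (c - 2) = e a b c := by
  have h1 := hu a b (c - 1) (by omega)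
  have h2 := hd (a + 1) (b + 1) (c - 1) (by omega)
  have e1 : c - 1 + 1 = c := by omega
  have e2 : a + 1 - 1 = a := by omega
  have e3 : b + 1 - 1 = b := by omega
  have e4 : c - 1 - 1 = c - 2 := by omega
  rw [e1] at h1
  rw [e2, e3, e4, add_comm (e a (b + 1) (c - 1))] at h2
  exact add_left_cancel (h2.trans h1.symm)

omit [AddCommGroup X] in
theorem rot (h12 : ∀ a b c, e b a c = e a b c) (h23 : ∀ a b c, e a c b = e a b c)
    (a b c : ℤ) : e b c a = e a b c := by
  rw [h23 b a c, h12 a b c]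

theorem t1 (h12 : ∀ a b c, e b a c = e a b c) (h23 : ∀ a b c, e a c b = e a b c)
    (hu : ∀ a b c, a + b + c = -1 → e (a + 1) b c + e a (b + 1) c + e a b (c + 1) = 0)
    (hd : ∀ a b c, a + b + c = 1 → e (a - 1) b c + e a (b - 1) c + e a b (c - 1) = 0)
    (a b c : ℤ) (h : a + b + c = 0) : e (a - 2) (b + 1) (c + 1) = e a b c := by
  rw [← rot h12 h23 (a - 2) (b + 1) (c + 1), t3 hu hd b c a (by omega), rot h12 h23 a b c]

theorem red (h12 : ∀ a b c, e b a c = e a b c) (h23 : ∀ a b c, e a c b = e a b c)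
    (hu : ∀ a b c, a + b + c = -1 → e (a + 1) b c + e a (b + 1) c + e a b (c + 1) = 0)
    (hd : ∀ a b c, a + b + c = 1 → e (a - 1) b c + e a (b - 1) c + e a b (c - 1) = 0)
    (t c : ℤ) : e (-t - 2 * c) (t + c) c = e (-t) t 0 := by
  induction c using Int.induction_on with
  | zero =>
    have e1 : -t - 2 * (0 : ℤ) = -t := by omega
    have e2 : t + (0 : ℤ) = t := by omega
    rw [e1, e2]
  | succ c ih =>
    have h := t1 h12 h23 hu hd (-t - 2 * (c : ℤ)) (t + c) c (by omega)
    have e1 : -t - 2 * ((c : ℤ) + 1) = -t - 2 * (c : ℤ) - 2 := by omega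
    have e2 : t + ((c : ℤ) + 1) = t + c + 1 := by omega
    rw [e1, e2, h, ih]
  | pred c ih =>
    have h := t1 h12 h23 hu hd (-t - 2 * (-(c : ℤ) - 1)) (t + (-(c : ℤ) - 1)) (-(c : ℤ) - 1)
      (by omega)
    have e1 : -t - 2 * (-(c : ℤ) - 1) - 2 = -t - 2 * (-(c : ℤ)) := by omega
    have e2 : t + (-(c : ℤ) - 1) + 1 = t + (-(c : ℤ)) := by omega
    have e3 : -(c : ℤ) - 1 + 1 = -(c : ℤ) := by omega
    rw [e1, e2, e3] at h
    rw [← h, ih]

end

end ALT

open ALT in
/-- ALT: symmetric functions on the triples with sum zero and the two recursions. -/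
theorem stmtAlt : StmtAlt := by
  intro X _ _ e h12 h23 hu hd a b c habc
  have hr := red h12 h23 hu hd
  -- the reduced function
  set F : ℤ → X := fun t => e (-t) t 0 with hF
  have h0 : ∀ a b c : ℤ, a + b + c = 0 → e a b c = F (b - c) := by
    intro a b c h
    have h1 := hr (b - c) c
    have e1 : -(b - c) - 2 * c = a := by omega
    have e2 : b - c + c = b := by omega
    rw [e1, e2] at h1
    exact h1
  have h3 : ∀ t, F (t + 3) = F t := by
    intro t
    have h1 := t3 hu hd (-t) t 0 (by omega)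
    rw [h0 (-t + 1) (t + 1) (0 - 2) (by omega)] at h1
    have e1 : t + 1 - (0 - 2) = t + 3 := by omega
    rw [e1] at h1
    exact h1
  have h4 : ∀ (t k : ℤ), F (t + 3 * k) = F t := by
    intro t k
    induction k using Int.induction_on with
    | zero => simp
    | succ k ih =>
      have e1 : t + 3 * ((k : ℤ) + 1) = t + 3 * k + 3 := by omega
      rw [e1, h3, ih]
    | pred k ih =>
      have e1 : t + 3 * (-(k : ℤ)) = t + 3 * (-(k : ℤ) - 1) + 3 := by omega
      rw [e1, h3] at ih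
      exact ih
  have h5 : F (-1) = F 1 := by
    have h6 := h12 (-1) 1 0
    have h7 : F 1 = e (-1) 1 0 := rfl
    have h8 : F (-1) = e 1 (-1) 0 := by
      show e (- -1) (-1) 0 = e 1 (-1) 0
      norm_num
    rw [h7, h8, h6]
  have h2 : F 2 = F 1 := by
    rw [← h5]
    have h6 := h3 (-1)
    have e1 : (-1 : ℤ) + 3 = 2 := by omega
    rw [e1] at h6
    exact h6
  have h00 : F 0 = e 0 0 0 := by
    show e (-0) 0 0 = e 0 0 0
    rw [neg_zero]
  have h6 : F 1 + F 1 + F 0 = 0 := by
    have h7 := hu 0 0 (-1) (by omega)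
    rw [h0 (0 + 1) 0 (-1) (by omega), h0 0 (0 + 1) (-1) (by omega),
      h0 0 0 (-1 + 1) (by omega)] at h7
    have e1 : (0 : ℤ) - -1 = 1 := by omega
    have e2 : (0 : ℤ) + 1 - -1 = 2 := by omega
    have e3 : (0 : ℤ) - (-1 + 1) = 0 := by omega
    rw [e1, e2, e3, h2] at h7
    exact h7
  have h7 : F 1 = (-1 / 2 : ℂ) • F 0 := by
    have h8 : F 0 = -(F 1 + F 1) := by
      rw [eq_neg_iff_add_eq_zero, add_comm]
      exact h6
    rw [h8, ← two_smul ℂ (F 1), smul_neg, smul_smul, ← neg_smul]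
    norm_num
  rw [h0 a b c habc, ← h00]
  unfold cl3
  have h8 := h4 ((b - c) % 3) ((b - c) / 3)
  have e1 : (b - c) % 3 + 3 * ((b - c) / 3) = b - c := by omega
  rw [e1] at h8
  split_ifs with h9
  · rw [h9] at h8
    rw [h8, one_smul]
  · have h10 : (b - c) % 3 = 1 ∨ (b - c) % 3 = 2 := by omega
    rcases h10 with h10 | h10
    · rw [h10] at h8
      rw [h8, h7]
    · rw [h10] at h8
      rw [h8, h2, h7]

end QJ
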