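import Pool.Agent.QJ.Stmts

/-!
CAC: Caccioppoli inequality.
-/

open Complex MeasureTheory Filter Topology Set
open scoped ContDiff

namespace QJ

open QE

noncomputable section

namespace CAC

theorem cd_d1 {u : ℂ → ℝ} (hu : ContDiff ℝ ∞ u) : ContDiff ℝ ∞ (d1 u) :=
  (hu.fderiv_right (m := ∞) (by simp)).clm_apply contDiff_const

theorem cd_d2 {u : ℂ → ℝ} (hu : ContDiff ℝ ∞ u) : ContDiff ℝ ∞ (d2 u) :=
  (hu.fderiv_right (m := ∞) (by simp)).clm_apply contDiff_const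

theorem int_zero {F : ℂ → ℝ} (hF : ContDiff ℝ ∞ F) (hc : HasCompactSupport F) (v : ℂ) :
    ∫ z, fderiv ℝ F z v = 0 := by
  have h1 : Continuous fun z => fderiv ℝ F z v :=
    (hF.continuous_fderiv (by simp)).clm_apply continuous_const
  have h2 : HasCompactSupport fun z => fderiv ℝ F z v := by
    have := hc.fderiv (𝕜 := ℝ)
    exact this.comp_left (g := fun L : ℂ →L[ℝ] ℝ => L v) (by simp)
  have h := integral_mul_fderiv_eq_neg_fderiv_mul_of_integrable (𝕜 := ℝ) (μ := volume)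
    (f := fun _ : ℂ => (1 : ℝ)) (g := F) (v := v) (by simp)
    (by simpa using h1.integrable_of_hasCompactSupport h2)
    (by simpa using hF.continuous.integrable_of_hasCompactSupport hc)
    (fun x _ => differentiableAt_const _) (fun x _ => (hF.differentiable (by simp)) x)
  simpa using h

theorem prod_rule {c u w : ℂ → ℝ} (hc : ContDiff ℝ ∞ c) (hu : ContDiff ℝ ∞ u)
    (hw : ContDiff ℝ ∞ w) (z v : ℂ) :
    fderiv ℝ (fun z => c z ^ 2 * u z * w z) z v =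
      2 * c z * fderiv ℝ c z v * u z * w z + c z ^ 2 * fderiv ℝ u z v * w z +
        c z ^ 2 * u z * fderiv ℝ w z v := by
  have h1 := (hc.differentiable (by simp) z).hasFDerivAt
  have h2 := (hu.differentiable (by simp) z).hasFDerivAt
  have h3 := (hw.differentiable (by simp) z).hasFDerivAt
  have h4 : HasFDerivAt (fun z => c z ^ 2 * u z * w z) _ z := ((h1.pow 2).mul h2).mul h3
  rw [h4.fderiv]
  simp
  ring

/-- The integral of the divergence of the vector field `χ² u ∇u`. -/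
theorem div_zero {c u : ℂ → ℝ} (hc : ContDiff ℝ ∞ c) (hu : ContDiff ℝ ∞ u)
    (hcc : HasCompactSupport c) :
    ∫ z, (2 * c z * u z * (d1 c z * d1 u z + d2 c z * d2 u z) +
      c z ^ 2 * (d1 u z ^ 2 + d2 u z ^ 2) + c z ^ 2 * u z * lap u z) = 0 := by
  have hF : ∀ w : ℂ → ℝ, ContDiff ℝ ∞ w → ContDiff ℝ ∞ fun z => c z ^ 2 * u z * w z :=
    fun w hw => ((hc.pow 2).mul hu).mul hw
  have hS : ∀ w : ℂ → ℝ, HasCompactSupport fun z => c z ^ 2 * u z * w z := by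
    intro w
    refine HasCompactSupport.intro hcc fun z hz => ?_
    rw [image_eq_zero_of_notMem_tsupport hz]
    simp
  have h1 := int_zero (hF _ (cd_d1 hu)) (hS (d1 u)) 1
  have h2 := int_zero (hF _ (cd_d2 hu)) (hS (d2 u)) Complex.I
  have hint : ∀ (w : ℂ → ℝ) (v : ℂ), ContDiff ℝ ∞ w →
      Integrable fun z => fderiv ℝ (fun z => c z ^ 2 * u z * w z) z v := by
    intro w v hw
    refine Continuous.integrable_of_hasCompactSupport
      (((hF w hw).continuous_fderiv (by simp)).clm_apply continuous_const) ?_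
    exact ((hS w).fderiv (𝕜 := ℝ)).comp_left (g := fun L : ℂ →L[ℝ] ℝ => L v) (by simp)
  have h3 := integral_add (hint _ 1 (cd_d1 hu)) (hint _ Complex.I (cd_d2 hu))
  rw [h1, h2, add_zero] at h3
  rw [← h3]
  refine integral_congr_ae (Filter.Eventually.of_forall fun z => ?_)
  simp only
  rw [prod_rule hc hu (cd_d1 hu), prod_rule hc hu (cd_d2 hu)]
  simp only [lap, d1, d2]
  ring

/-- The cutoff at scale one. -/
def bb : ContDiffBump (0 : ℂ) := ⟨2, 5 / 2, by norm_num, by norm_num⟩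

/-- The cutoff. -/
def chi (z₀ : ℂ) (r : ℝ) (z : ℂ) : ℝ := bb (r⁻¹ • (z - z₀))

theorem bb_smooth : ContDiff ℝ ∞ (bb : ℂ → ℝ) := bb.contDiff

theorem chi_smooth (z₀ : ℂ) (r : ℝ) : ContDiff ℝ ∞ (chi z₀ r) :=
  bb_smooth.comp ((contDiff_id.sub contDiff_const).const_smul r⁻¹)

theorem exists_bound : ∃ C0 : ℝ, 0 < C0 ∧ ∀ z, ‖fderiv ℝ (bb : ℂ → ℝ) z‖ ≤ C0 := by
  have h1 : Continuous (fderiv ℝ (bb : ℂ → ℝ)) :=
    bb_smooth.continuous_fderiv (by simp)
  have h2 : HasCompactSupport (fderiv ℝ (bb : ℂ → ℝ)) := bb.hasCompactSupport.fderiv (𝕜 := ℝ)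
  obtain ⟨C, hC⟩ := h2.exists_bound_of_continuous h1
  exact ⟨max C 1, lt_of_lt_of_le one_pos (le_max_right _ _), fun z => (hC z).trans (le_max_left _ _)⟩

theorem chi_deriv (z₀ : ℂ) (r : ℝ) (z v : ℂ) :
    fderiv ℝ (chi z₀ r) z v = r⁻¹ * fderiv ℝ (bb : ℂ → ℝ) (r⁻¹ • (z - z₀)) v := by
  have h1 : HasFDerivAt (fun z : ℂ => r⁻¹ • (z - z₀)) (r⁻¹ • ContinuousLinearMap.id ℝ ℂ) z :=
    ((hasFDerivAt_id z).sub_const z₀).const_smul r⁻¹
  have h2 := ((bb_smooth.differentiable (by simp)) (r⁻¹ • (z - z₀))).hasFDerivAt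
  have h3 := (h2.comp z h1).fderiv
  have h4 : (chi z₀ r) = (bb : ℂ → ℝ) ∘ fun z : ℂ => r⁻¹ • (z - z₀) := rfl
  rw [h4, h3]
  simp

theorem chi_one {z₀ : ℂ} {r : ℝ} (hr : 0 < r) {z : ℂ}
    (hz : z ∈ Metric.closedBall z₀ (2 * r)) : chi z₀ r z = 1 := by
  unfold chi
  apply bb.one_of_mem_closedBall
  rw [mem_closedBall_zero_iff, norm_smul, Real.norm_eq_abs, abs_of_pos (inv_pos.2 hr)]
  rw [Metric.mem_closedBall, dist_eq_norm] at hz
  change r⁻¹ * ‖z - z₀‖ ≤ 2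
  rw [inv_mul_le_iff₀ hr]
  linarith

theorem chi_zero {z₀ : ℂ} {r : ℝ} (hr : 0 < r) {z : ℂ}
    (hz : z ∉ Metric.closedBall z₀ (3 * r)) : chi z₀ r z = 0 := by
  unfold chi
  apply bb.zero_of_le_dist
  rw [dist_zero_right, norm_smul, Real.norm_eq_abs, abs_of_pos (inv_pos.2 hr)]
  rw [Metric.mem_closedBall, dist_eq_norm, not_le] at hz
  change 5 / 2 ≤ r⁻¹ * ‖z - z₀‖
  rw [le_inv_mul_iff₀ hr]
  linarith

end CAC

open CAC in
theorem stmtCac : StmtCac := by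
  intro G
  obtain ⟨C0, hC0, hb⟩ := exists_bound
  refine ⟨2 * (4 * C0 ^ 2 + |G|), by positivity, ?_⟩
  intro u g z₀ h r hu hh hhr hg heq
  have hr : 0 < r := lt_of_lt_of_le hh hhr
  set c := chi z₀ r with hcdef
  have hc : ContDiff ℝ ∞ c := chi_smooth z₀ r
  have hcc : HasCompactSupport c :=
    HasCompactSupport.intro (isCompact_closedBall z₀ (3 * r)) fun z hz => chi_zero hr hz
  set B := Metric.closedBall z₀ (3 * r) with hBdef
  set Dv : ℂ → ℝ := fun z => 2 * c z * u z * (d1 c z * d1 u z + d2 c z * d2 u z) +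
      c z ^ 2 * (d1 u z ^ 2 + d2 u z ^ 2) + c z ^ 2 * u z * lap u z with hDv
  have hDint : ∫ z, Dv z = 0 := div_zero hc hu hcc
  have hDcont : Continuous Dv := by
    have c1 := hc.continuous
    have c2 := hu.continuous
    have c3 := (cd_d1 hc).continuous
    have c4 := (cd_d2 hc).continuous
    have c5 := (cd_d1 hu).continuous
    have c6 := (cd_d2 hu).continuous
    have c7 : Continuous (lap u) :=
      ((cd_d1 (cd_d1 hu)).continuous).add ((cd_d2 (cd_d2 hu)).continuous)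
    rw [hDv]
    fun_prop
  have hDsupp : HasCompactSupport Dv := by
    refine HasCompactSupport.intro hcc fun z hz => ?_
    rw [hDv]
    simp only
    rw [image_eq_zero_of_notMem_tsupport hz]
    simp
  have hDi : Integrable Dv := hDcont.integrable_of_hasCompactSupport hDsupp
  -- the derivative of the cutoff
  have hgrad : ∀ z, h ^ 2 * (d1 c z ^ 2 + d2 c z ^ 2) ≤ 2 * C0 ^ 2 := by
    intro z
    have hq : h * r⁻¹ ≤ 1 := by
      rw [← div_eq_mul_inv, div_le_one hr]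
      exact hhr
    have hq0 : 0 ≤ h * r⁻¹ := by positivity
    have e1 : d1 c z = r⁻¹ * fderiv ℝ (bb : ℂ → ℝ) (r⁻¹ • (z - z₀)) 1 := chi_deriv z₀ r z 1
    have e2 : d2 c z = r⁻¹ * fderiv ℝ (bb : ℂ → ℝ) (r⁻¹ • (z - z₀)) Complex.I :=
      chi_deriv z₀ r z Complex.I
    have f1 : |fderiv ℝ (bb : ℂ → ℝ) (r⁻¹ • (z - z₀)) 1| ≤ C0 := by
      have := (fderiv ℝ (bb : ℂ → ℝ) (r⁻¹ • (z - z₀))).le_opNorm 1
      rw [norm_one, mul_one, Real.norm_eq_abs] at this
      exact this.trans (hb _)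
    have f2 : |fderiv ℝ (bb : ℂ → ℝ) (r⁻¹ • (z - z₀)) Complex.I| ≤ C0 := by
      have := (fderiv ℝ (bb : ℂ → ℝ) (r⁻¹ • (z - z₀))).le_opNorm Complex.I
      rw [Complex.norm_I, mul_one, Real.norm_eq_abs] at this
      exact this.trans (hb _)
    rw [e1, e2]
    set p := fderiv ℝ (bb : ℂ → ℝ) (r⁻¹ • (z - z₀)) 1
    set q := fderiv ℝ (bb : ℂ → ℝ) (r⁻¹ • (z - z₀)) Complex.I
    have g1 : p ^ 2 ≤ C0 ^ 2 := sq_le_sq' (abs_le.1 f1).1 (abs_le.1 f1).2
    have g2 : q ^ 2 ≤ C0 ^ 2 := sq_le_sq' (abs_le.1 f2).1 (abs_le.1 f2).2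
    have g3 : (h * r⁻¹) ^ 2 ≤ 1 := pow_le_one₀ hq0 hq
    calc h ^ 2 * ((r⁻¹ * p) ^ 2 + (r⁻¹ * q) ^ 2) = (h * r⁻¹) ^ 2 * (p ^ 2 + q ^ 2) := by ring
      _ ≤ 1 * (C0 ^ 2 + C0 ^ 2) := by
        apply mul_le_mul g3 (add_le_add g1 g2) (by positivity) (by norm_num)
      _ = 2 * C0 ^ 2 := by ring
  have hc1 : ∀ z, c z ^ 2 ≤ 1 := by
    intro z
    have h1 : 0 ≤ c z := bb.nonneg
    have h2 : c z ≤ 1 := bb.le_one
    exact pow_le_one₀ h1 h2
  -- the pointwise inequality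
  have hpt : ∀ z, 1 / 2 * (h ^ 2 * (c z ^ 2 * (d1 u z ^ 2 + d2 u z ^ 2))) ≤
      h ^ 2 * Dv z + (4 * C0 ^ 2 + |G|) * B.indicator (fun z => u z ^ 2) z := by
    intro z
    by_cases hz : z ∈ B
    · rw [indicator_of_mem hz]
      have e1 : h ^ 2 * Dv z = h ^ 2 * (2 * c z * u z * (d1 c z * d1 u z + d2 c z * d2 u z)) +
          h ^ 2 * (c z ^ 2 * (d1 u z ^ 2 + d2 u z ^ 2)) - g z * (c z ^ 2 * u z ^ 2) := by
        have := heq z hz
        rw [hDv]
        calc _ = h ^ 2 * (2 * c z * u z * (d1 c z * d1 u z + d2 c z * d2 u z)) +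
            h ^ 2 * (c z ^ 2 * (d1 u z ^ 2 + d2 u z ^ 2)) +
              c z ^ 2 * u z * (h ^ 2 * lap u z) := by ring
          _ = _ := by rw [this]; ring
      have e2 : g z * (c z ^ 2 * u z ^ 2) ≤ |G| * u z ^ 2 := by
        have h1 : g z ≤ |G| := (le_abs_self _).trans ((hg z hz).trans (le_abs_self _))
        calc g z * (c z ^ 2 * u z ^ 2) ≤ |G| * (c z ^ 2 * u z ^ 2) :=
              mul_le_mul_of_nonneg_right h1 (by positivity)
          _ ≤ |G| * (1 * u z ^ 2) := by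
              apply mul_le_mul_of_nonneg_left _ (abs_nonneg G)
              exact mul_le_mul_of_nonneg_right (hc1 z) (sq_nonneg _)
          _ = |G| * u z ^ 2 := by ring
      have e3 : -(h ^ 2 * (2 * c z * u z * (d1 c z * d1 u z + d2 c z * d2 u z))) ≤
          1 / 2 * (h ^ 2 * (c z ^ 2 * (d1 u z ^ 2 + d2 u z ^ 2))) +
            2 * u z ^ 2 * (h ^ 2 * (d1 c z ^ 2 + d2 c z ^ 2)) := by
        have k1 : 0 ≤ h ^ 2 * ((c z * d1 u z + 2 * (u z * d1 c z)) ^ 2 +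
            (c z * d2 u z + 2 * (u z * d2 c z)) ^ 2) := by positivity
        nlinarith [k1]
      have e4 : 2 * u z ^ 2 * (h ^ 2 * (d1 c z ^ 2 + d2 c z ^ 2)) ≤
          2 * u z ^ 2 * (2 * C0 ^ 2) :=
        mul_le_mul_of_nonneg_left (hgrad z) (by positivity)
      rw [e1]
      nlinarith [e2, e3, e4]
    · rw [indicator_of_notMem hz, hDv]
      have hz0 : c z = 0 := chi_zero hr hz
      simp [hz0]
  -- integration
  have hPcont : Continuous fun z => h ^ 2 * (c z ^ 2 * (d1 u z ^ 2 + d2 u z ^ 2)) := by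
    have c1 := hc.continuous
    have c5 := (cd_d1 hu).continuous
    have c6 := (cd_d2 hu).continuous
    fun_prop
  have hPsupp : HasCompactSupport fun z => h ^ 2 * (c z ^ 2 * (d1 u z ^ 2 + d2 u z ^ 2)) := by
    refine HasCompactSupport.intro hcc fun z hz => ?_
    rw [image_eq_zero_of_notMem_tsupport hz]
    simp
  have hPi := hPcont.integrable_of_hasCompactSupport (μ := volume) hPsupp
  have hBi : IntegrableOn (fun z => u z ^ 2) B volume :=
    (hu.continuous.pow 2).continuousOn.integrableOn_compact (isCompact_closedBall _ _)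
  have hIi : Integrable (B.indicator fun z => u z ^ 2) volume :=
    hBi.integrable_indicator Metric.isClosed_closedBall.measurableSet
  have hmono := integral_mono (hPi.const_mul (1 / 2))
    ((hDi.const_mul (h ^ 2)).add (hIi.const_mul (4 * C0 ^ 2 + |G|))) hpt
  have hI1 : ∫ z, 1 / 2 * (h ^ 2 * (c z ^ 2 * (d1 u z ^ 2 + d2 u z ^ 2))) =
      1 / 2 * ∫ z, h ^ 2 * (c z ^ 2 * (d1 u z ^ 2 + d2 u z ^ 2)) :=
    integral_const_mul (1 / 2) fun z => h ^ 2 * (c z ^ 2 * (d1 u z ^ 2 + d2 u z ^ 2))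
  have hI2 : ∫ z, h ^ 2 * Dv z = 0 := by
    rw [integral_const_mul, hDint, mul_zero]
  have hI3 : ∫ z, (4 * C0 ^ 2 + |G|) * B.indicator (fun z => u z ^ 2) z =
      (4 * C0 ^ 2 + |G|) * ∫ z in B, u z ^ 2 := by
    rw [integral_const_mul, integral_indicator Metric.isClosed_closedBall.measurableSet]
  have hI4 := integral_add (hDi.const_mul (h ^ 2)) (hIi.const_mul (4 * C0 ^ 2 + |G|))
  rw [hI2, hI3, zero_add] at hI4
  rw [hI1] at hmono
  have hmono2 : 1 / 2 * ∫ z, h ^ 2 * (c z ^ 2 * (d1 u z ^ 2 + d2 u z ^ 2)) ≤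
      (4 * C0 ^ 2 + |G|) * ∫ z in B, u z ^ 2 := hI4 ▸ hmono
  have hfin : ∫ z in Metric.closedBall z₀ (2 * r), h ^ 2 * (d1 u z ^ 2 + d2 u z ^ 2) ≤
      ∫ z, h ^ 2 * (c z ^ 2 * (d1 u z ^ 2 + d2 u z ^ 2)) := by
    have h1 : ∫ z in Metric.closedBall z₀ (2 * r), h ^ 2 * (d1 u z ^ 2 + d2 u z ^ 2) =
        ∫ z in Metric.closedBall z₀ (2 * r), h ^ 2 * (c z ^ 2 * (d1 u z ^ 2 + d2 u z ^ 2)) := by
      refine setIntegral_congr_fun Metric.isClosed_closedBall.measurableSet fun z hz => ?_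
      have : c z = 1 := chi_one hr hz
      rw [this]
      ring
    rw [h1]
    exact setIntegral_le_integral hPi (Filter.Eventually.of_forall fun z => by
      change 0 ≤ h ^ 2 * (c z ^ 2 * (d1 u z ^ 2 + d2 u z ^ 2))
      positivity)
  linarith [hmono2, hfin]

end

end QJ
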