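import Pool.Agent.QJ.Stmts

/-!
QJ, step CAU: Cauchy transforms of sequences which tend weakly to zero and are dominated by densities
with linear growth.
-/

open Complex MeasureTheory Filter Topology Set
open scoped ContDiff ENNReal

namespace QJ

open QE

noncomputable section

namespace CAU

/-- the norm of the near part of the kernel -/
def qr (δ : ℝ) (w : ℂ) : ℝ := δ ^ 2 / (Real.pi * ‖w‖ * (‖w‖ ^ 2 + δ ^ 2))

/-- the weighted square of the kernel -/
def kr (δ : ℝ) (w : ℂ) : ℝ := √‖w‖ * qr δ w ^ 2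

theorem qr_nonneg (δ : ℝ) (w : ℂ) : 0 ≤ qr δ w := by
  unfold qr; positivity

theorem kr_nonneg (δ : ℝ) (w : ℂ) : 0 ≤ kr δ w := by
  unfold kr; positivity

theorem measurable_qr (δ : ℝ) : Measurable (qr δ) := by
  unfold qr; fun_prop

theorem measurable_kr (δ : ℝ) : Measurable (kr δ) := by
  unfold kr
  exact (measurable_norm.sqrt).mul ((measurable_qr δ).pow_const 2)

theorem integrable_kr_one : Integrable (kr 1) := by
  have e : kr 1 = fun w : ℂ => (fun y : ℝ => √y * (1 ^ 2 / (Real.pi * y * (y ^ 2 + 1 ^ 2))) ^ 2) ‖w‖ := by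
    funext w; rfl
  rw [e, integrable_fun_norm_addHaar (volume : Measure ℂ)
    (f := fun y : ℝ => √y * (1 ^ 2 / (Real.pi * y * (y ^ 2 + 1 ^ 2))) ^ 2)]
  have h1 : IntegrableOn (fun y : ℝ => y ^ (-(1 / 2) : ℝ)) (Ioc 0 1) :=
    (intervalIntegrable_iff_integrableOn_Ioc_of_le zero_le_one).mp
      (intervalIntegral.intervalIntegrable_rpow' (by norm_num))
  have h2 : Integrable (fun y : ℝ => (Ioc (0 : ℝ) 1).indicator (fun y => y ^ (-(1 / 2) : ℝ)) y +
      (1 + y ^ 2)⁻¹) :=
    ((integrable_indicator_iff measurableSet_Ioc).mpr h1).add integrable_inv_one_add_sq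
  refine (h2.integrableOn (s := Ioi 0)).mono' ?_ ?_
  · exact (Measurable.aestronglyMeasurable (by fun_prop))
  · refine (ae_restrict_iff' measurableSet_Ioi).mpr (Eventually.of_forall fun y hy => ?_)
    have hy : 0 < y := hy
    have hs : 0 < √y := Real.sqrt_pos.mpr hy
    have hss : √y * √y = y := Real.mul_self_sqrt hy.le
    have hpi : 1 ≤ Real.pi := by linarith [Real.pi_gt_three]
    have hval : y ^ (Module.finrank ℝ ℂ - 1) • (√y * (1 ^ 2 / (Real.pi * y * (y ^ 2 + 1 ^ 2))) ^ 2) =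
        (√y)⁻¹ * ((Real.pi ^ 2)⁻¹ * ((y ^ 2 + 1) ^ 2)⁻¹) := by
      simp only [Complex.finrank_real_complex, smul_eq_mul]
      norm_num
      field_simp
      nlinarith [hss]
    rw [hval, Real.norm_of_nonneg (by positivity)]
    have hp2 : (Real.pi ^ 2)⁻¹ ≤ 1 := inv_le_one_of_one_le₀ (by nlinarith)
    have hb1 : ((y ^ 2 + 1) ^ 2)⁻¹ ≤ 1 := inv_le_one_of_one_le₀ (by nlinarith [sq_nonneg y])
    have hb2 : ((y ^ 2 + 1) ^ 2)⁻¹ ≤ (1 + y ^ 2)⁻¹ :=
      inv_anti₀ (by positivity) (by nlinarith [sq_nonneg y])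
    have hnn : 0 ≤ (1 + y ^ 2)⁻¹ := by positivity
    have hnn2 : 0 ≤ ((y ^ 2 + 1) ^ 2)⁻¹ := by positivity
    by_cases h : y ≤ 1
    · have hi : (Ioc (0 : ℝ) 1).indicator (fun y => y ^ (-(1 / 2) : ℝ)) y = (√y)⁻¹ := by
        rw [indicator_of_mem (show y ∈ Ioc (0 : ℝ) 1 from ⟨hy, h⟩), Real.rpow_neg hy.le,
          Real.sqrt_eq_rpow]
      rw [hi]
      have : (√y)⁻¹ * ((Real.pi ^ 2)⁻¹ * ((y ^ 2 + 1) ^ 2)⁻¹) ≤ (√y)⁻¹ * (1 * 1) := by gcongr
      linarith
    · have hi : (Ioc (0 : ℝ) 1).indicator (fun y => y ^ (-(1 / 2) : ℝ)) y = 0 :=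
        indicator_of_notMem (fun h' => h h'.2) _
      rw [hi, zero_add]
      have hs1 : (√y)⁻¹ ≤ 1 := inv_le_one_of_one_le₀ (Real.one_le_sqrt.mpr (not_le.mp h).le)
      calc (√y)⁻¹ * ((Real.pi ^ 2)⁻¹ * ((y ^ 2 + 1) ^ 2)⁻¹) ≤ 1 * (1 * (1 + y ^ 2)⁻¹) := by gcongr
        _ = (1 + y ^ 2)⁻¹ := by ring

theorem kr_smul {δ : ℝ} (hδ : 0 < δ) (u : ℂ) : kr δ (δ • u) = √δ * (δ ^ 2)⁻¹ * kr 1 u := by
  by_cases hu : u = 0
  · subst hu; simp [kr]
  have hu' : 0 < ‖u‖ := norm_pos_iff.mpr hu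
  unfold kr qr
  rw [norm_smul, Real.norm_of_nonneg hδ.le, Real.sqrt_mul hδ.le]
  have hpi := Real.pi_pos
  field_simp

theorem integrable_kr {δ : ℝ} (hδ : 0 < δ) : Integrable (kr δ) := by
  rw [← integrable_comp_smul_iff (volume : Measure ℂ) (kr δ) hδ.ne']
  have e : (fun u : ℂ => kr δ (δ • u)) = fun u => √δ * (δ ^ 2)⁻¹ * kr 1 u := by
    funext u; exact kr_smul hδ u
  rw [e]
  exact integrable_kr_one.const_mul _

theorem integral_kr {δ : ℝ} (hδ : 0 < δ) : ∫ w, kr δ w = √δ * ∫ w, kr 1 w := by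
  have h := Measure.integral_comp_smul (volume : Measure ℂ) (kr δ) δ
  simp only [kr_smul hδ, Complex.finrank_real_complex, smul_eq_mul] at h
  rw [integral_const_mul, abs_of_nonneg (by positivity)] at h
  have hd : (δ ^ 2) ≠ 0 := by positivity
  field_simp at h
  linarith

/-- linear growth bounds the potential with kernel `|w|^{-1/2}` -/
theorem lintegral_theta (μ : Measure ℂ) (z : ℂ) (C : ℝ)
    (h : ∀ s > 0, μ (Metric.closedBall z s) ≤ ENNReal.ofReal (C * s)) :
    ∫⁻ w, ENNReal.ofReal ((√‖z - w‖)⁻¹) ∂μ ≤ μ univ + ENNReal.ofReal C := by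
  have hm : Measurable fun w : ℂ => (√‖z - w‖)⁻¹ := by fun_prop
  rw [lintegral_eq_lintegral_meas_le μ (Eventually.of_forall fun w => by positivity) hm.aemeasurable]
  have hpt : ∀ t ∈ Ioi (0 : ℝ), μ {w | t ≤ (√‖z - w‖)⁻¹} ≤
      (Ioc (0 : ℝ) 1).indicator (fun _ => μ univ) t +
      (Ioi (1 : ℝ)).indicator (fun t => ENNReal.ofReal (C * t ^ (-2 : ℝ))) t := by
    intro t ht
    have ht : 0 < t := ht
    by_cases h1 : t ≤ 1
    · rw [indicator_of_mem (show t ∈ Ioc (0 : ℝ) 1 from ⟨ht, h1⟩)]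
      exact le_add_right (measure_mono (subset_univ _))
    · rw [indicator_of_mem (show t ∈ Ioi (1 : ℝ) from not_le.mp h1)]
      refine le_add_left (le_trans (measure_mono ?_) (h _ (by positivity)))
      intro w hw
      have hw : t ≤ (√‖z - w‖)⁻¹ := hw
      rw [Metric.mem_closedBall, dist_comm, dist_eq_norm]
      have hpos : 0 < √‖z - w‖ := by
        by_contra hneg
        have : √‖z - w‖ = 0 := le_antisymm (not_lt.mp hneg) (Real.sqrt_nonneg _)
        rw [this, inv_zero] at hw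
        linarith
      have h2 : √‖z - w‖ ≤ t⁻¹ := by
        rw [le_inv_comm₀ hpos ht]; exact hw
      have h3 : ‖z - w‖ = √‖z - w‖ ^ 2 := (Real.sq_sqrt (norm_nonneg _)).symm
      rw [h3, Real.rpow_neg ht.le]
      have : t ^ (2 : ℝ) = t ^ 2 := Real.rpow_two t
      rw [this, ← inv_pow]
      gcongr
  calc ∫⁻ t in Ioi (0 : ℝ), μ {w | t ≤ (√‖z - w‖)⁻¹}
      ≤ ∫⁻ t in Ioi (0 : ℝ), ((Ioc (0 : ℝ) 1).indicator (fun _ => μ univ) t +
      (Ioi (1 : ℝ)).indicator (fun t => ENNReal.ofReal (C * t ^ (-2 : ℝ))) t) :=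
        setLIntegral_mono' measurableSet_Ioi hpt
    _ ≤ ∫⁻ t, ((Ioc (0 : ℝ) 1).indicator (fun _ => μ univ) t +
      (Ioi (1 : ℝ)).indicator (fun t => ENNReal.ofReal (C * t ^ (-2 : ℝ))) t) :=
        setLIntegral_le_lintegral _ _
    _ = μ univ + ENNReal.ofReal C := by
        rw [lintegral_add_left (measurable_const.indicator measurableSet_Ioc),
          lintegral_indicator measurableSet_Ioc, lintegral_indicator measurableSet_Ioi]
        congr 1
        · simp
        · have hi : IntegrableOn (fun t : ℝ => t ^ (-2 : ℝ)) (Ioi 1) :=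
            integrableOn_Ioi_rpow_of_lt (by norm_num) zero_lt_one
          have hnn : 0 ≤ᵐ[volume.restrict (Ioi (1 : ℝ))] fun t : ℝ => t ^ (-2 : ℝ) :=
            (ae_restrict_iff' measurableSet_Ioi).mpr (Eventually.of_forall fun t ht =>
              Real.rpow_nonneg (zero_lt_one.trans ht).le _)
          have hval : ∫ t in Ioi (1 : ℝ), t ^ (-2 : ℝ) = 1 := by
            rw [integral_Ioi_rpow_of_lt (by norm_num) zero_lt_one]
            norm_num
          have h2 : ∫⁻ t in Ioi (1 : ℝ), ENNReal.ofReal (t ^ (-2 : ℝ)) = 1 := by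
            rw [← ofReal_integral_eq_lintegral_ofReal hi hnn, hval, ENNReal.ofReal_one]
          have h3 : ∀ t ∈ Ioi (1 : ℝ), ENNReal.ofReal (C * t ^ (-2 : ℝ)) =
              ENNReal.ofReal C * ENNReal.ofReal (t ^ (-2 : ℝ)) := by
            intro t ht
            rw [ENNReal.ofReal_mul' (Real.rpow_nonneg (zero_lt_one.trans ht).le _)]
          rw [setLIntegral_congr_fun measurableSet_Ioi h3, lintegral_const_mul _ (by fun_prop), h2,
            mul_one]

/-- Cauchy-Schwarz -/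
theorem holder (μ : Measure ℂ) (z : ℂ) (δ : ℝ) :
    (∫⁻ w, ENNReal.ofReal (qr δ (z - w)) ∂μ) ^ 2 ≤
      (∫⁻ w, ENNReal.ofReal ((√‖z - w‖)⁻¹) ∂μ) * ∫⁻ w, ENNReal.ofReal (kr δ (z - w)) ∂μ := by
  let F : ℂ → ℝ≥0∞ := fun w => ENNReal.ofReal ((√√‖z - w‖)⁻¹)
  let G : ℂ → ℝ≥0∞ := fun w => ENNReal.ofReal (√√‖z - w‖ * qr δ (z - w))
  have hF : Measurable F := by
    refine Measurable.ennreal_ofReal ?_
    fun_prop
  have hG : Measurable G := by
    refine Measurable.ennreal_ofReal ?_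
    have h1 : Measurable fun w : ℂ => qr δ (z - w) := (measurable_qr δ).comp (by fun_prop)
    have h2 : Measurable fun w : ℂ => √√‖z - w‖ := by fun_prop
    exact h2.mul h1
  have h := ENNReal.lintegral_mul_le_Lp_mul_Lq μ Real.HolderConjugate.two_two hF.aemeasurable
    hG.aemeasurable
  have e1 : ∀ w, (F * G) w = ENNReal.ofReal (qr δ (z - w)) := by
    intro w
    show ENNReal.ofReal ((√√‖z - w‖)⁻¹) * ENNReal.ofReal (√√‖z - w‖ * qr δ (z - w)) = _
    rw [← ENNReal.ofReal_mul (by positivity)]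
    congr 1
    by_cases hw : ‖z - w‖ = 0
    · simp [qr, hw]
    · have hw' : 0 < ‖z - w‖ := lt_of_le_of_ne (norm_nonneg _) (Ne.symm hw)
      have : 0 < √√‖z - w‖ := Real.sqrt_pos.mpr (Real.sqrt_pos.mpr hw')
      field_simp
  have e2 : ∀ w, F w ^ (2 : ℝ) = ENNReal.ofReal ((√‖z - w‖)⁻¹) := by
    intro w
    show ENNReal.ofReal ((√√‖z - w‖)⁻¹) ^ (2 : ℝ) = _
    rw [ENNReal.ofReal_rpow_of_nonneg (by positivity) (by norm_num), Real.rpow_two, inv_pow,
      Real.sq_sqrt (Real.sqrt_nonneg _)]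
  have e3 : ∀ w, G w ^ (2 : ℝ) = ENNReal.ofReal (kr δ (z - w)) := by
    intro w
    have hq := qr_nonneg δ (z - w)
    show ENNReal.ofReal (√√‖z - w‖ * qr δ (z - w)) ^ (2 : ℝ) = _
    rw [ENNReal.ofReal_rpow_of_nonneg (by positivity) (by norm_num), Real.rpow_two, mul_pow,
      Real.sq_sqrt (Real.sqrt_nonneg _)]
    rfl
  simp only [e1, e2, e3] at h
  calc (∫⁻ w, ENNReal.ofReal (qr δ (z - w)) ∂μ) ^ 2
      ≤ ((∫⁻ w, ENNReal.ofReal ((√‖z - w‖)⁻¹) ∂μ) ^ (1 / 2 : ℝ) *
        (∫⁻ w, ENNReal.ofReal (kr δ (z - w)) ∂μ) ^ (1 / 2 : ℝ)) ^ 2 := by gcongr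
    _ = _ := by
        rw [mul_pow, ← ENNReal.rpow_natCast, ← ENNReal.rpow_natCast, ← ENNReal.rpow_mul,
          ← ENNReal.rpow_mul]
        norm_num

/-- Tonelli -/
theorem tonelli (μ : Measure ℂ) [SFinite μ] {δ : ℝ} :
    ∫⁻ z, ∫⁻ w, ENNReal.ofReal (kr δ (z - w)) ∂μ = (∫⁻ u, ENNReal.ofReal (kr δ u)) * μ univ := by
  have hm : Measurable (Function.uncurry fun z w : ℂ => ENNReal.ofReal (kr δ (z - w))) := by
    refine Measurable.ennreal_ofReal ?_
    exact (measurable_kr δ).comp (by fun_prop : Measurable fun p : ℂ × ℂ => p.1 - p.2)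
  rw [lintegral_lintegral_swap hm.aemeasurable]
  have e : ∀ w : ℂ, ∫⁻ z, ENNReal.ofReal (kr δ (z - w)) = ∫⁻ u, ENNReal.ofReal (kr δ u) := fun w =>
    lintegral_sub_right_eq_self (fun u => ENNReal.ofReal (kr δ u)) w
  simp only [e, lintegral_const]

/-- the near part -/
theorem near_bound (K K' : Set ℂ) (R : ℂ → ℝ) (f : ℂ → ℂ) (C s₀ δ : ℝ) (z₀ : ℂ) (hK : IsCompact K)
    (hz₀ : z₀ ∈ K') (hs₀ : 0 < s₀) (hsub : K ⊆ Metric.closedBall z₀ s₀)
    (hK' : IsCompact K') (hR0 : ∀ z, 0 ≤ R z) (hRc : Continuous R)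
    (hgr : ∀ z ∈ K', ∀ s > 0, ∫ w in K ∩ Metric.closedBall z s, R w ≤ C * s)
    (hs : tsupport f ⊆ K) (hfR : ∀ z ∈ K, ‖f z‖ ≤ R z) (hδ : 0 < δ) :
    ∫⁻ z in K', ‖∫ w, (ck w - kd δ w) * f (z - w)‖ₑ ^ 2 ≤
      ENNReal.ofReal ((C * s₀ + C) * (√δ * ∫ w, kr 1 w) * (C * s₀)) := by
  set μ : Measure ℂ := (volume.restrict K).withDensity (fun w => ENNReal.ofReal (R w)) with hμ
  have hRm : Measurable fun w => ENNReal.ofReal (R w) := hRc.measurable.ennreal_ofReal
  have hball : ∀ z ∈ K', ∀ s > 0, μ (Metric.closedBall z s) ≤ ENNReal.ofReal (C * s) := by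
    intro z hz s hs
    have hmb : MeasurableSet (Metric.closedBall z s) := measurableSet_closedBall
    rw [hμ, withDensity_apply _ hmb, Measure.restrict_restrict hmb, inter_comm]
    have hi : IntegrableOn R (K ∩ Metric.closedBall z s) :=
      (hRc.continuousOn.integrableOn_compact hK).mono_set inter_subset_left
    rw [← ofReal_integral_eq_lintegral_ofReal hi (Eventually.of_forall fun w => hR0 w)]
    exact ENNReal.ofReal_le_ofReal (hgr z hz s hs)
  have huniv : μ univ ≤ ENNReal.ofReal (C * s₀) := by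
    have h1 := hball z₀ hz₀ s₀ hs₀
    refine le_trans (le_of_eq ?_) h1
    have hmb : MeasurableSet (Metric.closedBall z₀ s₀) := measurableSet_closedBall
    rw [hμ, withDensity_apply _ hmb, withDensity_apply _ MeasurableSet.univ,
      Measure.restrict_restrict hmb, Measure.restrict_univ, inter_eq_self_of_subset_right hsub]
  have hC : 0 ≤ C := by
    have h1 := hgr z₀ hz₀ 1 one_pos
    have h2 : 0 ≤ ∫ w in K ∩ Metric.closedBall z₀ 1, R w := integral_nonneg fun w => hR0 w
    linarith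
  have hkr : 0 ≤ ∫ w, kr 1 w := integral_nonneg fun w => kr_nonneg 1 w
  have hpt : ∀ z, ‖∫ w, (ck w - kd δ w) * f (z - w)‖ₑ ≤
      ∫⁻ w, ENNReal.ofReal (qr δ (z - w)) ∂μ := by
    intro z
    have hqm : Measurable fun w : ℂ => ENNReal.ofReal (qr δ (z - w)) :=
      ((measurable_qr δ).comp (by fun_prop : Measurable fun w : ℂ => z - w)).ennreal_ofReal
    have e1 : ∫⁻ w, ENNReal.ofReal (qr δ (z - w)) ∂μ =
        ∫⁻ w in K, ENNReal.ofReal (R w) * ENNReal.ofReal (qr δ (z - w)) := by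
      rw [hμ, lintegral_withDensity_eq_lintegral_mul _ hRm hqm]
      rfl
    have e2 : ∫⁻ w, ‖(ck w - kd δ w) * f (z - w)‖ₑ =
        ∫⁻ w, ‖f w‖ₑ * ENNReal.ofReal (qr δ (z - w)) := by
      rw [← lintegral_sub_left_eq_self (fun w => ‖f w‖ₑ * ENNReal.ofReal (qr δ (z - w))) z]
      refine lintegral_congr fun w => ?_
      rw [sub_sub_cancel, enorm_mul, mul_comm]
      congr 1
      rw [← ofReal_norm, ck_sub_kd hδ]
      rfl
    calc ‖∫ w, (ck w - kd δ w) * f (z - w)‖ₑ ≤ ∫⁻ w, ‖(ck w - kd δ w) * f (z - w)‖ₑ :=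
          enorm_integral_le_lintegral_enorm _
      _ = ∫⁻ w, ‖f w‖ₑ * ENNReal.ofReal (qr δ (z - w)) := e2
      _ = ∫⁻ w in K, ‖f w‖ₑ * ENNReal.ofReal (qr δ (z - w)) := by
          rw [← lintegral_indicator hK.measurableSet]
          refine lintegral_congr fun w => ?_
          by_cases hw : w ∈ K
          · rw [indicator_of_mem hw]
          · have : f w = 0 := image_eq_zero_of_notMem_tsupport fun h => hw (hs h)
            rw [indicator_of_notMem hw, this]; simp
      _ ≤ ∫⁻ w in K, ENNReal.ofReal (R w) * ENNReal.ofReal (qr δ (z - w)) := by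
          refine setLIntegral_mono' hK.measurableSet fun w hw => ?_
          gcongr
          rw [← ofReal_norm]
          exact ENNReal.ofReal_le_ofReal (hfR w hw)
      _ = _ := e1.symm
  have hA : ∀ z ∈ K', ∫⁻ w, ENNReal.ofReal ((√‖z - w‖)⁻¹) ∂μ ≤ ENNReal.ofReal (C * s₀ + C) := by
    intro z hz
    refine (lintegral_theta μ z C (hball z hz)).trans ?_
    rw [ENNReal.ofReal_add (by positivity) hC]
    gcongr
  have hsf : SFinite μ := by rw [hμ]; infer_instance
  calc ∫⁻ z in K', ‖∫ w, (ck w - kd δ w) * f (z - w)‖ₑ ^ 2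
      ≤ ∫⁻ z in K', ENNReal.ofReal (C * s₀ + C) * ∫⁻ w, ENNReal.ofReal (kr δ (z - w)) ∂μ := by
        refine setLIntegral_mono' hK'.measurableSet fun z hz => ?_
        calc ‖∫ w, (ck w - kd δ w) * f (z - w)‖ₑ ^ 2
            ≤ (∫⁻ w, ENNReal.ofReal (qr δ (z - w)) ∂μ) ^ 2 := by gcongr; exact hpt z
          _ ≤ _ := holder μ z δ
          _ ≤ _ := by gcongr; exact hA z hz
    _ ≤ ∫⁻ z, ENNReal.ofReal (C * s₀ + C) * ∫⁻ w, ENNReal.ofReal (kr δ (z - w)) ∂μ :=
        setLIntegral_le_lintegral _ _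
    _ = ENNReal.ofReal (C * s₀ + C) * ((∫⁻ u, ENNReal.ofReal (kr δ u)) * μ univ) := by
        rw [← tonelli μ, lintegral_const_mul' _ _ ENNReal.ofReal_ne_top]
    _ = ENNReal.ofReal (C * s₀ + C) * (ENNReal.ofReal (√δ * ∫ w, kr 1 w) * μ univ) := by
        rw [← ofReal_integral_eq_lintegral_ofReal (integrable_kr hδ)
          (Eventually.of_forall fun w => kr_nonneg δ w), integral_kr hδ]
    _ ≤ ENNReal.ofReal (C * s₀ + C) * (ENNReal.ofReal (√δ * ∫ w, kr 1 w) *
          ENNReal.ofReal (C * s₀)) := by gcongr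
    _ = _ := by
        rw [← ENNReal.ofReal_mul (by positivity), ← ENNReal.ofReal_mul (by positivity)]
        congr 1
        ring

end CAU

open CAU in
/-- CAU -/
theorem stmtCau : StmtCau := by
  intro K K' R f C hK hK' hR0 hRc hgr hf hs hfR hw
  rcases K'.eq_empty_or_nonempty with rfl | ⟨z₀, hz₀⟩
  · simp
  have hc : ∀ n, HasCompactSupport (f n) := fun n => hK.of_isClosed_subset (isClosed_tsupport _) (hs n)
  obtain ⟨s₀, hs₀, hsub⟩ : ∃ s₀ : ℝ, 0 < s₀ ∧ K ⊆ Metric.closedBall z₀ s₀ := by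
    obtain ⟨r, hr⟩ := hK.isBounded.subset_closedBall z₀
    exact ⟨max r 1, by positivity, hr.trans (Metric.closedBall_subset_closedBall (le_max_left _ _))⟩
  have hC : 0 ≤ C := by
    obtain ⟨n, hn⟩ := hgr.exists
    have h1 := hn z₀ hz₀ 1 one_pos
    have h2 : 0 ≤ ∫ w in K ∩ Metric.closedBall z₀ 1, R n w := integral_nonneg fun w => hR0 n w
    linarith
  -- `L¹` norms
  have hL1 : ∀ᶠ n in atTop, ∫ z, ‖f n z‖ ≤ C * s₀ := by
    filter_upwards [hgr, hfR] with n hn hn2
    have h1 := hn z₀ hz₀ s₀ hs₀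
    rw [inter_eq_self_of_subset_left hsub] at h1
    have h2 : ∫ z, ‖f n z‖ = ∫ z in K, ‖f n z‖ := by
      rw [← integral_indicator hK.measurableSet]
      refine integral_congr_ae (Eventually.of_forall fun w => ?_)
      by_cases hw : w ∈ K
      · simp only [indicator_of_mem hw]
      · have : f n w = 0 := image_eq_zero_of_notMem_tsupport fun h => hw (hs n h)
        simp only [indicator_of_notMem hw, this, norm_zero]
    rw [h2]
    refine le_trans (setIntegral_mono_on ?_ ?_ hK.measurableSet fun w hw => hn2 w hw) h1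
    · exact (hf n).continuous.norm.continuousOn.integrableOn_compact hK
    · exact (hRc n).continuousOn.integrableOn_compact hK
  -- the smoothed part tends to zero
  have hcont : ∀ δ : ℝ, 0 < δ → ∀ n, Continuous (fun z => ∫ w, kd δ w * f n (z - w)) := by
    intro δ hδ n
    have h1 := (hc n).continuous_convolution_right (ContinuousLinearMap.mul ℝ ℂ)
      ((continuous_kd hδ).locallyIntegrable (μ := volume)) (hf n).continuous
    have h2 : (fun z => ∫ w, kd δ w * f n (z - w))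
      = convolution (kd δ) (f n) (ContinuousLinearMap.mul ℝ ℂ) volume := by
      funext z; rw [convolution_def]; rfl
    rw [h2]; exact h1
  have hsm : ∀ δ : ℝ, 0 < δ → Tendsto (fun n => ∫ z in K', ‖∫ w, kd δ w * f n (z - w)‖ ^ 2) atTop
      (𝓝 0) := by
    intro δ hδ
    have hz : Tendsto (fun n => ∫ z in K', ‖∫ w, kd δ w * f n (z - w)‖ ^ 2) atTop
        (𝓝 (∫ _ in K', (0 : ℝ))) := by
      refine tendsto_integral_filter_of_dominated_convergence
        (fun _ => (1 / (2 * Real.pi * δ) * (C * s₀)) ^ 2) ?_ ?_ ?_ ?_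
      · exact Filter.Eventually.of_forall fun n =>
          (by have := hcont δ hδ n; fun_prop : Continuous _).aestronglyMeasurable
      · filter_upwards [hL1] with n hn
        refine Filter.Eventually.of_forall fun z => ?_
        rw [Real.norm_of_nonneg (by positivity)]
        gcongr
        have hi : Integrable (fun w => ‖f n (z - w)‖) :=
          (((hf n).continuous.integrable_of_hasCompactSupport (hc n)).norm).comp_sub_left z
        calc ‖∫ w, kd δ w * f n (z - w)‖ ≤ ∫ w, ‖kd δ w * f n (z - w)‖ :=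
              norm_integral_le_integral_norm _
          _ ≤ ∫ w, 1 / (2 * Real.pi * δ) * ‖f n (z - w)‖ := by
              refine integral_mono_of_nonneg (Filter.Eventually.of_forall fun w => norm_nonneg _)
                (hi.const_mul _) (Filter.Eventually.of_forall fun w => ?_)
              simp only [norm_mul]
              gcongr
              exact norm_kd_le hδ w
          _ = 1 / (2 * Real.pi * δ) * ∫ w, ‖f n w‖ := by
              rw [integral_const_mul, integral_sub_left_eq_self (fun w => ‖f n w‖) volume z]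
          _ ≤ _ := by gcongr
      · exact integrableOn_const hK'.measure_lt_top.ne
      · refine Filter.Eventually.of_forall fun z => ?_
        have h1 : ∀ n, ∫ w, kd δ w * f n (z - w) = ∫ w, kd δ (z - w) * f n w := by
          intro n
          rw [← integral_sub_left_eq_self (fun w => kd δ (z - w) * f n w) volume z]
          refine integral_congr_ae (Filter.Eventually.of_forall fun w => ?_)
          simp only [sub_sub_cancel]
        have h2 := hw (fun w => kd δ (z - w)) ((contDiff_kd hδ).comp (contDiff_const.sub contDiff_id))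
        have h3 : Tendsto (fun n => ∫ w, kd δ w * f n (z - w)) atTop (𝓝 0) :=
          h2.congr fun n => (h1 n).symm
        have h4 := (h3.norm).pow 2
        simpa using h4
    simpa using hz
  -- conclusion
  set M : ℝ := (C * s₀ + C) * (∫ w, kr 1 w) * (C * s₀) with hM
  rw [Metric.tendsto_atTop]
  intro ε hε
  obtain ⟨δ, hδ, hδ2⟩ : ∃ δ : ℝ, 0 < δ ∧ 2 * (√δ * M) < ε / 2 := by
    have h1 : Tendsto (fun δ : ℝ => 2 * (√δ * M)) (𝓝[>] 0) (𝓝 0) := by
      have : Tendsto (fun δ : ℝ => 2 * (√δ * M)) (𝓝 0) (𝓝 (2 * (√0 * M))) :=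
        (by fun_prop : Continuous fun δ : ℝ => 2 * (√δ * M)).tendsto 0
      simpa using this.mono_left nhdsWithin_le_nhds
    have h2 := (h1.eventually_lt_const (half_pos hε)).and self_mem_nhdsWithin
    obtain ⟨δ, h3, h4⟩ := h2.exists
    exact ⟨δ, h4, h3⟩
  have h5 := (hsm δ hδ).const_mul 2
  rw [mul_zero] at h5
  have h6 := h5.eventually_lt_const (half_pos hε)
  obtain ⟨N, hN⟩ := (h6.and (hgr.and hfR)).exists_forall_of_atTop
  refine ⟨N, fun n hn => ?_⟩
  obtain ⟨h7, h8, h9⟩ := hN n hn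
  have hsplit : ∀ z, cauchy (f n) z = (∫ w, (ck w - kd δ w) * f n (z - w))
      + ∫ w, kd δ w * f n (z - w) := by
    intro z
    have hi1 : Integrable (fun w => ck w * f n (z - w)) := convExists (hf n).continuous (hc n) z
    have hi3 : Integrable (fun w => f n (z - w)) :=
      ((hf n).continuous.integrable_of_hasCompactSupport (hc n)).comp_sub_left z
    have hi2 : Integrable (fun w => kd δ w * f n (z - w)) :=
      hi3.bdd_mul (continuous_kd hδ).aestronglyMeasurable
        (Filter.Eventually.of_forall fun w => norm_kd_le hδ w)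
    have hi4 : Integrable (fun w => (ck w - kd δ w) * f n (z - w)) := by
      refine (hi1.sub hi2).congr (Filter.Eventually.of_forall fun w => ?_)
      simp only [Pi.sub_apply]; ring
    rw [← integral_add hi4 hi2]
    unfold cauchy
    refine integral_congr_ae (Filter.Eventually.of_forall fun w => ?_)
    simp only []; ring
  have hck := (contDiff_cauchy (hf n) (hc n)).continuous
  have hcontk := hcont δ hδ n
  have hcontn : Continuous (fun z => ∫ w, (ck w - kd δ w) * f n (z - w)) := by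
    have : (fun z => ∫ w, (ck w - kd δ w) * f n (z - w)) =
        fun z => cauchy (f n) z - ∫ w, kd δ w * f n (z - w) := by
      funext z; rw [hsplit z]; ring
    rw [this]
    exact hck.sub hcontk
  have hik : IntegrableOn (fun z => ‖∫ w, kd δ w * f n (z - w)‖ ^ 2) K' :=
    (by fun_prop : Continuous (fun z => ‖∫ w, kd δ w * f n (z - w)‖ ^ 2)).continuousOn.integrableOn_compact hK'
  have hin : IntegrableOn (fun z => ‖∫ w, (ck w - kd δ w) * f n (z - w)‖ ^ 2) K' :=
    (hcontn.norm.pow 2).continuousOn.integrableOn_compact hK'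
  have hic : IntegrableOn (fun z => ‖cauchy (f n) z‖ ^ 2) K' :=
    (hck.norm.pow 2).continuousOn.integrableOn_compact hK'
  have hnear : ∫ z in K', ‖∫ w, (ck w - kd δ w) * f n (z - w)‖ ^ 2 ≤ √δ * M := by
    have hnn : 0 ≤ √δ * M := by
      have hkr : 0 ≤ ∫ w, kr 1 w := integral_nonneg fun w => kr_nonneg 1 w
      positivity
    have h10 := near_bound K K' (R n) (f n) C s₀ δ z₀ hK hz₀ hs₀ hsub hK' (hR0 n) (hRc n) h8 (hs n)
      h9 hδ
    rw [← ENNReal.ofReal_le_ofReal_iff hnn, ofReal_integral_eq_lintegral_ofReal hin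
      (Eventually.of_forall fun z => by positivity)]
    refine le_trans (le_of_eq ?_) (h10.trans (le_of_eq ?_))
    · refine lintegral_congr fun z => ?_
      rw [ENNReal.ofReal_pow (norm_nonneg _), ofReal_norm]
    · congr 1
      rw [hM]; ring
  rw [Real.dist_eq, sub_zero, abs_of_nonneg (integral_nonneg fun z => by positivity)]
  calc ∫ z in K', ‖cauchy (f n) z‖ ^ 2
      ≤ ∫ z in K', (2 * ‖∫ w, (ck w - kd δ w) * f n (z - w)‖ ^ 2
        + 2 * ‖∫ w, kd δ w * f n (z - w)‖ ^ 2) := by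
        refine integral_mono hic ((hin.const_mul 2).add (hik.const_mul 2)) fun z => ?_
        simp only []
        rw [hsplit z]
        have h1 := norm_add_le (∫ w, (ck w - kd δ w) * f n (z - w)) (∫ w, kd δ w * f n (z - w))
        nlinarith [norm_nonneg (∫ w, (ck w - kd δ w) * f n (z - w)),
          norm_nonneg (∫ w, kd δ w * f n (z - w)),
          norm_nonneg ((∫ w, (ck w - kd δ w) * f n (z - w)) + ∫ w, kd δ w * f n (z - w)),
          sq_nonneg (‖∫ w, (ck w - kd δ w) * f n (z - w)‖ - ‖∫ w, kd δ w * f n (z - w)‖)]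
    _ = 2 * (∫ z in K', ‖∫ w, (ck w - kd δ w) * f n (z - w)‖ ^ 2)
        + 2 * ∫ z in K', ‖∫ w, kd δ w * f n (z - w)‖ ^ 2 := by
        rw [integral_add (hin.const_mul 2) (hik.const_mul 2), integral_const_mul,
          integral_const_mul]
    _ ≤ 2 * (√δ * M) + 2 * ∫ z in K', ‖∫ w, kd δ w * f n (z - w)‖ ^ 2 := by gcongr
    _ < ε / 2 + ε / 2 := by linarith
    _ = ε := by ring

end

end QJ
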