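import Pool.Agent.QJ.Stmts2
import Pool.Agent.Lib_helper67.QE.DirG

/-!
COMP: mixed Wirtinger derivatives of the composition with a Moebius map.
-/

open Filter Topology Set
open scoped ContDiff

namespace QJ

open QE

namespace COMP

/-- the properties of a derivation on the smooth functions on an open set -/
structure Der (O : Set ℂ) (L : (ℂ → ℂ) → ℂ → ℂ) : Prop where
  congr : ∀ f g : ℂ → ℂ, (∀ x ∈ O, f x = g x) → ∀ x ∈ O, L f x = L g x
  add : ∀ f g : ℂ → ℂ, ContDiffOn ℝ ∞ f O → ContDiffOn ℝ ∞ g O →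
    ∀ x ∈ O, L (fun y => f y + g y) x = L f x + L g x
  mul : ∀ f g : ℂ → ℂ, ContDiffOn ℝ ∞ f O → ContDiffOn ℝ ∞ g O →
    ∀ x ∈ O, L (fun y => f y * g y) x = L f x * g x + f x * L g x
  const : ∀ c : ℂ, ∀ x ∈ O, L (fun _ => c) x = 0

theorem diffAt {O : Set ℂ} (hO : IsOpen O) {f : ℂ → ℂ} (hf : ContDiffOn ℝ ∞ f O) {x : ℂ}
    (hx : x ∈ O) : DifferentiableAt ℝ f x :=
  (hf.contDiffAt (hO.mem_nhds hx)).differentiableAt (by simp)

theorem der_dz {O : Set ℂ} (hO : IsOpen O) : Der O dz where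
  congr f g h x hx := dz_congr_on hO h hx
  add f g hf hg x hx := dz_add (diffAt hO hf hx) (diffAt hO hg hx)
  mul f g hf hg x hx := dz_mul (diffAt hO hf hx) (diffAt hO hg hx)
  const c x _ := dz_const c x

theorem der_dzb {O : Set ℂ} (hO : IsOpen O) : Der O dzb where
  congr f g h x hx := dzb_congr_on hO h hx
  add f g hf hg x hx := dzb_add (diffAt hO hf hx) (diffAt hO hg hx)
  mul f g hf hg x hx := dzb_mul (diffAt hO hf hx) (diffAt hO hg hx)
  const c x _ := dzb_const c x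

theorem Der.sum {O : Set ℂ} {L : (ℂ → ℂ) → ℂ → ℂ} (h : Der O L) {ι : Type*} (s : Finset ι)
    (f : ι → ℂ → ℂ) (hf : ∀ i, ContDiffOn ℝ ∞ (f i) O) {x : ℂ} (hx : x ∈ O) :
    L (fun y => ∑ i ∈ s, f i y) x = ∑ i ∈ s, L (f i) x := by
  classical
  induction s using Finset.induction_on with
  | empty => simp only [Finset.sum_empty]; exact h.const 0 x hx
  | insert a s ha ih =>
    rw [Finset.sum_insert ha, ← ih]
    have e : (fun y => ∑ i ∈ insert a s, f i y) = fun y => f a y + ∑ i ∈ s, f i y := by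
      funext y; rw [Finset.sum_insert ha]
    rw [e]
    exact h.add _ _ (hf a) (ContDiffOn.sum fun i _ => hf i) x hx

theorem Der.cmul {O : Set ℂ} {L : (ℂ → ℂ) → ℂ → ℂ} (h : Der O L) (c : ℂ)
    (f : ℂ → ℂ) (hf : ContDiffOn ℝ ∞ f O) {x : ℂ} (hx : x ∈ O) :
    L (fun y => c * f y) x = c * L f x := by
  rw [h.mul (fun _ => c) f contDiffOn_const hf x hx, h.const c x hx]; ring

theorem Der.pow {O : Set ℂ} {L : (ℂ → ℂ) → ℂ → ℂ} (h : Der O L) (q : ℂ → ℂ)
    (hq : ContDiffOn ℝ ∞ q O) (e : ℂ → ℂ) (hqe : ∀ x ∈ O, L q x = e x * q x) (n : ℕ) {x : ℂ}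
    (hx : x ∈ O) : L (fun y => q y ^ n) x = n * e x * q x ^ n := by
  induction n with
  | zero => simp only [pow_zero]; rw [h.const 1 x hx]; simp
  | succ n ih =>
    have e1 : (fun y => q y ^ (n + 1)) = fun y => q y ^ n * q y := by
      funext y; rw [pow_succ]
    rw [e1, h.mul _ _ (hq.pow n) hq x hx, ih, hqe x hx]
    push_cast
    ring

theorem Der.iter_congr {O : Set ℂ} {L : (ℂ → ℂ) → ℂ → ℂ} (h : Der O L) (f g : ℂ → ℂ)
    (hfg : ∀ x ∈ O, f x = g x) (n : ℕ) : ∀ x ∈ O, L^[n] f x = L^[n] g x := by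
  induction n with
  | zero => simpa using hfg
  | succ n ih =>
    intro x hx
    rw [Function.iterate_succ_apply', Function.iterate_succ_apply']
    exact h.congr _ _ ih x hx

theorem lah_eq_zero : ∀ (a i : ℕ), a < i → lah a i = 0
  | 0, 0, h => absurd h (lt_irrefl _)
  | 0, i + 1, _ => rfl
  | a + 1, 0, h => absurd h (Nat.not_lt_zero _)
  | a + 1, i + 1, h => by
    have h1 : lah a (i + 1) = 0 := lah_eq_zero a (i + 1) (by omega)
    have h2 : lah a i = 0 := lah_eq_zero a i (by omega)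
    show -((a : ℝ) + (i + 1)) * lah a (i + 1) + lah a i = 0
    rw [h1, h2]; ring

/-- the combinatorial identity behind the induction -/
theorem lah_step (c d q : ℂ) (a : ℕ) (G : ℕ → ℂ) :
    ∑ i ∈ Finset.range (a + 1), ((lah a i : ℝ) : ℂ) * (c ^ i * d ^ (a - i)) *
        ((((a + i : ℕ) : ℂ) * (-d * q) * q ^ (a + i)) * G i + q ^ (a + i) * (c * q ^ 2 * G (i + 1)))
      = ∑ i ∈ Finset.range (a + 1 + 1), ((lah (a + 1) i : ℝ) : ℂ) * (c ^ i * d ^ (a + 1 - i)) *
        (q ^ (a + 1 + i) * G i) := by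
  rw [Finset.sum_range_succ' _ (a + 1)]
  have hA : ∑ i ∈ Finset.range (a + 1), ((lah a i : ℝ) : ℂ) * (c ^ i * d ^ (a - i)) *
        ((((a + i : ℕ) : ℂ) * (-d * q) * q ^ (a + i)) * G i + q ^ (a + i) * (c * q ^ 2 * G (i + 1)))
      = ∑ i ∈ Finset.range (a + 1), ((lah a i : ℝ) : ℂ) * (c ^ i * d ^ (a + 1 - i)) *
        (-(((a + i : ℕ) : ℂ)) * q ^ (a + 1 + i) * G i)
        + ∑ i ∈ Finset.range (a + 1), ((lah a i : ℝ) : ℂ) * (c ^ (i + 1) * d ^ (a - i)) *
          (q ^ (a + 1 + (i + 1)) * G (i + 1)) := by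
    rw [← Finset.sum_add_distrib]
    refine Finset.sum_congr rfl fun i hi => ?_
    have hi' : i ≤ a := Nat.lt_succ_iff.1 (Finset.mem_range.1 hi)
    rw [Nat.succ_sub hi', pow_succ d (a - i)]
    ring
  have hB : ∑ i ∈ Finset.range (a + 1), ((lah a i : ℝ) : ℂ) * (c ^ i * d ^ (a + 1 - i)) *
        (-(((a + i : ℕ) : ℂ)) * q ^ (a + 1 + i) * G i)
      = ∑ i ∈ Finset.range (a + 1 + 1), ((lah a i : ℝ) : ℂ) * (c ^ i * d ^ (a + 1 - i)) *
        (-(((a + i : ℕ) : ℂ)) * q ^ (a + 1 + i) * G i) := by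
    rw [Finset.sum_range_succ _ (a + 1), lah_eq_zero a (a + 1) (Nat.lt_succ_self a)]
    simp
  rw [hA, hB, Finset.sum_range_succ' _ (a + 1)]
  have hC : ∑ i ∈ Finset.range (a + 1), ((lah (a + 1) (i + 1) : ℝ) : ℂ) *
        (c ^ (i + 1) * d ^ (a + 1 - (i + 1))) * (q ^ (a + 1 + (i + 1)) * G (i + 1))
      = ∑ i ∈ Finset.range (a + 1), ((lah a (i + 1) : ℝ) : ℂ) *
        (c ^ (i + 1) * d ^ (a + 1 - (i + 1))) * (-(((a + (i + 1) : ℕ) : ℂ)) *
          q ^ (a + 1 + (i + 1)) * G (i + 1))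
        + ∑ i ∈ Finset.range (a + 1), ((lah a i : ℝ) : ℂ) * (c ^ (i + 1) * d ^ (a - i)) *
          (q ^ (a + 1 + (i + 1)) * G (i + 1)) := by
    rw [← Finset.sum_add_distrib]
    refine Finset.sum_congr rfl fun i hi => ?_
    have e : lah (a + 1) (i + 1) = -((a : ℝ) + (i + 1)) * lah a (i + 1) + lah a i := rfl
    rw [e, Nat.succ_sub_succ_eq_sub]
    push_cast
    ring
  have hD : lah (a + 1) 0 = -(a : ℝ) * lah a 0 := rfl
  rw [hC, hD]
  push_cast
  ring

/-- the iterates of a derivation on a family with `L (G i) = c q² G (i + 1)` -/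
theorem Der.main {O : Set ℂ} {L : (ℂ → ℂ) → ℂ → ℂ} (h : Der O L) (q : ℂ → ℂ)
    (hq : ContDiffOn ℝ ∞ q O) (c d : ℂ) (hLq : ∀ x ∈ O, L q x = -d * q x ^ 2)
    (G : ℕ → ℂ → ℂ) (hG : ∀ i, ContDiffOn ℝ ∞ (G i) O)
    (hLG : ∀ i, ∀ x ∈ O, L (G i) x = c * q x ^ 2 * G (i + 1) x) (a : ℕ) :
    ∀ x ∈ O, L^[a] (G 0) x = ∑ i ∈ Finset.range (a + 1),
      ((lah a i : ℝ) : ℂ) * (c ^ i * d ^ (a - i)) * (q x ^ (a + i) * G i x) := by
  induction a with
  | zero =>
    intro x _
    have e : lah 0 0 = 1 := rfl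
    simp [e]
  | succ a ih =>
    intro x hx
    rw [Function.iterate_succ_apply', h.congr _ _ ih x hx, ← lah_step]
    rw [h.sum (Finset.range (a + 1)) (fun i y => ((lah a i : ℝ) : ℂ) * (c ^ i * d ^ (a - i)) *
      (q y ^ (a + i) * G i y)) (fun i => contDiffOn_const.mul ((hq.pow _).mul (hG i))) hx]
    refine Finset.sum_congr rfl fun i _ => ?_
    rw [h.cmul _ _ ((hq.pow _).mul (hG i)) hx, h.mul _ _ (hq.pow _) (hG i) x hx,
      h.pow q hq (fun y => -d * q y) (fun y hy => by rw [hLq y hy]; ring) (a + i) hx, hLG i x hx]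

/-- the chain rules -/
theorem chain {g p : ℂ → ℂ} {x p' : ℂ} (hp : HasDerivAt p p' x)
    (hg : DifferentiableAt ℝ g (p x)) :
    dz (fun w => g (p w)) x = p' * dz g (p x) ∧
      dzb (fun w => g (p w)) x = (starRingEnd ℂ) p' * dzb g (p x) := by
  have hpR : HasFDerivAt p _ x := hp.hasFDerivAt.restrictScalars ℝ
  have hpv : ∀ v, fderiv ℝ p x v = p' * v := by
    intro v
    rw [hpR.fderiv]
    simp [mul_comm]
  have hc : ∀ v, fderiv ℝ (fun w => g (p w)) x v = fderiv ℝ g (p x) (p' * v) := by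
    intro v
    have := fderiv_comp x hg hpR.differentiableAt
    have e : (fun w => g (p w)) = g ∘ p := rfl
    rw [e, this, ContinuousLinearMap.comp_apply, hpv]
  have hI := Complex.I_mul_I
  constructor
  · unfold dz
    rw [hc, hc, fderiv_real_apply, fderiv_real_apply]
    simp only [map_mul, Complex.conj_I, mul_one]
    unfold dz dzb
    linear_combination (-(1 / 2) * p'
      * ((1 / 2) * (fderiv ℝ g (p x) 1 - Complex.I * fderiv ℝ g (p x) Complex.I))
      + (1 / 2) * (starRingEnd ℂ) p'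
      * ((1 / 2) * (fderiv ℝ g (p x) 1 + Complex.I * fderiv ℝ g (p x) Complex.I))) * hI
  · unfold dzb
    rw [hc, hc, fderiv_real_apply, fderiv_real_apply]
    simp only [map_mul, Complex.conj_I, mul_one]
    unfold dz dzb
    linear_combination ((1 / 2) * p'
      * ((1 / 2) * (fderiv ℝ g (p x) 1 - Complex.I * fderiv ℝ g (p x) Complex.I))
      - (1 / 2) * (starRingEnd ℂ) p'
      * ((1 / 2) * (fderiv ℝ g (p x) 1 + Complex.I * fderiv ℝ g (p x) Complex.I))) * hI

/-- the Wirtinger derivatives of a holomorphic function -/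
theorem holo {p : ℂ → ℂ} {x p' : ℂ} (hp : HasDerivAt p p' x) : dz p x = p' ∧ dzb p x = 0 := by
  have hpR : HasFDerivAt p _ x := hp.hasFDerivAt.restrictScalars ℝ
  have hpv : ∀ v, fderiv ℝ p x v = p' * v := by
    intro v
    rw [hpR.fderiv]
    simp [mul_comm]
  have hI := Complex.I_mul_I
  constructor
  · unfold dz
    rw [hpv, hpv]
    linear_combination (-(1 / 2) * p') * hI
  · unfold dzb
    rw [hpv, hpv]
    linear_combination ((1 / 2) * p') * hI

theorem smooth_dzb_iter {U : Set ℂ} (hU : IsOpen U) {f : ℂ → ℂ} (hf : ContDiffOn ℝ ∞ f U)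
    (n : ℕ) : ContDiffOn ℝ ∞ (dzb^[n] f) U := by
  induction n with
  | zero => simpa using hf
  | succ n ih => rw [Function.iterate_succ_apply']; exact contDiffOn_dzb hU ih

theorem smooth_dz_iter {U : Set ℂ} (hU : IsOpen U) {f : ℂ → ℂ} (hf : ContDiffOn ℝ ∞ f U)
    (n : ℕ) : ContDiffOn ℝ ∞ (dz^[n] f) U := by
  induction n with
  | zero => simpa using hf
  | succ n ih => rw [Function.iterate_succ_apply']; exact contDiffOn_dz hU ih

end COMP

open COMP in
/-- COMP -/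
theorem stmtComp : StmtComp := by
  intro U f z c d hU hz hf a b
  set p : ℂ → ℂ := fun x => z + c * x / (1 + d * x) with hp
  set q : ℂ → ℂ := fun x => (1 + d * x)⁻¹ with hq
  have hcont1 : Continuous fun x : ℂ => 1 + d * x := by fun_prop
  have hO1 : IsOpen {x : ℂ | 1 + d * x ≠ 0} := isOpen_ne_fun hcont1 continuous_const
  have hpc : ContinuousOn p {x : ℂ | 1 + d * x ≠ 0} := by
    refine continuousOn_const.add (ContinuousOn.div (by fun_prop) (by fun_prop) fun x hx => hx)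
  set O : Set ℂ := {x : ℂ | 1 + d * x ≠ 0} ∩ p ⁻¹' U with hOdef
  have hO : IsOpen O := hpc.isOpen_inter_preimage hO1 hU
  have h0 : (0 : ℂ) ∈ O := by
    refine ⟨by simp, ?_⟩
    show p 0 ∈ U
    simpa [hp] using hz
  have hne : ∀ x ∈ O, 1 + d * x ≠ 0 := fun x hx => hx.1
  have hpU : ∀ x ∈ O, p x ∈ U := fun x hx => hx.2
  have hd1 : ∀ x : ℂ, HasDerivAt (fun y : ℂ => 1 + d * y) d x := by
    intro x
    simpa using ((hasDerivAt_id x).const_mul d).const_add 1
  have hdq : ∀ x ∈ O, HasDerivAt q (-d * q x ^ 2) x := by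
    intro x hx
    refine ((hd1 x).inv (hne x hx)).congr_deriv ?_
    simp only [hq]
    rw [inv_pow, div_eq_mul_inv]
  have hdp : ∀ x ∈ O, HasDerivAt p (c * q x ^ 2) x := by
    intro x hx
    have h1 : HasDerivAt (fun y : ℂ => c * y) c x := by
      simpa using (hasDerivAt_id x).const_mul c
    have h2 := (h1.div (hd1 x) (hne x hx)).const_add z
    refine h2.congr_deriv ?_
    simp only [hq]
    have := hne x hx
    field_simp
    ring
  have hqs : ContDiffOn ℝ ∞ q O := by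
    refine ContDiffOn.inv ?_ hne
    exact (contDiff_const.add (contDiff_const.mul contDiff_id)).contDiffOn
  have hps : ContDiffOn ℝ ∞ p O := by
    have : ContDiffOn ℝ ∞ (fun x => z + c * x * q x) O :=
      contDiffOn_const.add (((contDiff_const.mul contDiff_id).contDiffOn).mul hqs)
    exact this.congr fun x _ => by simp only [hp, hq, div_eq_mul_inv]
  have hqcs : ContDiffOn ℝ ∞ (fun x => (starRingEnd ℂ) (q x)) O :=
    Complex.conjCLE.contDiff.comp_contDiffOn hqs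
  have hcomp : ∀ g : ℂ → ℂ, ContDiffOn ℝ ∞ g U → ContDiffOn ℝ ∞ (fun x => g (p x)) O :=
    fun g hg => hg.comp hps hpU
  -- the antiholomorphic direction
  have hB : ∀ x ∈ O, dzb^[b] (fun x => f (p x)) x = ∑ j ∈ Finset.range (b + 1),
      ((lah b j : ℝ) : ℂ) * ((starRingEnd ℂ) c ^ j * (starRingEnd ℂ) d ^ (b - j)) *
        ((starRingEnd ℂ) (q x) ^ (b + j) * (dzb^[j] f) (p x)) := by
    refine (der_dzb hO).main (fun x => (starRingEnd ℂ) (q x)) hqcs ((starRingEnd ℂ) c)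
      ((starRingEnd ℂ) d) ?_ (fun j x => (dzb^[j] f) (p x))
      (fun j => hcomp _ (smooth_dzb_iter hU hf j)) ?_ b
    · intro x hx
      rw [dzb_conj (diffAt hO hqs hx), (holo (hdq x hx)).1]
      simp
    · intro j x hx
      rw [(chain (hdp x hx) (diffAt hU (smooth_dzb_iter hU hf j) (hpU x hx))).2,
        Function.iterate_succ_apply']
      simp
  -- the holomorphic direction
  set G : ℕ → ℂ → ℂ := fun i x => ∑ j ∈ Finset.range (b + 1),
      ((lah b j : ℝ) : ℂ) * ((starRingEnd ℂ) c ^ j * (starRingEnd ℂ) d ^ (b - j)) *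
        ((starRingEnd ℂ) (q x) ^ (b + j) * (dz^[i] (dzb^[j] f)) (p x)) with hGdef
  have hsm : ∀ i j, ContDiffOn ℝ ∞ (dz^[i] (dzb^[j] f)) U := fun i j =>
    smooth_dz_iter hU (smooth_dzb_iter hU hf j) i
  have hterm : ∀ i j, ContDiffOn ℝ ∞ (fun x => (starRingEnd ℂ) (q x) ^ (b + j) *
      (dz^[i] (dzb^[j] f)) (p x)) O := fun i j => (hqcs.pow _).mul (hcomp _ (hsm i j))
  have hGs : ∀ i, ContDiffOn ℝ ∞ (G i) O := fun i =>
    ContDiffOn.sum fun j _ => contDiffOn_const.mul (hterm i j)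
  have hdzq : ∀ x ∈ O, dz (fun x => (starRingEnd ℂ) (q x)) x = 0 := by
    intro x hx
    rw [dz_conj (diffAt hO hqs hx), (holo (hdq x hx)).2]
    simp
  have hLG : ∀ i, ∀ x ∈ O, dz (G i) x = c * q x ^ 2 * G (i + 1) x := by
    intro i x hx
    have h := der_dz hO
    rw [hGdef]
    simp only
    rw [h.sum (Finset.range (b + 1)) (fun j x => ((lah b j : ℝ) : ℂ) *
      ((starRingEnd ℂ) c ^ j * (starRingEnd ℂ) d ^ (b - j)) *
        ((starRingEnd ℂ) (q x) ^ (b + j) * (dz^[i] (dzb^[j] f)) (p x)))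
      (fun j => contDiffOn_const.mul (hterm i j)) hx, Finset.mul_sum]
    refine Finset.sum_congr rfl fun j _ => ?_
    rw [h.cmul _ _ (hterm i j) hx, h.mul _ _ (hqcs.pow _) (hcomp _ (hsm i j)) x hx,
      h.pow _ hqcs (fun _ => 0) (fun y hy => by rw [hdzq y hy]; ring) (b + j) hx,
      (chain (hdp x hx) (diffAt hU (hsm i j) (hpU x hx))).1, Function.iterate_succ_apply']
    ring
  have hA := (der_dz hO).main q hqs c d (fun x hx => (holo (hdq x hx)).1) G hGs hLG a 0 h0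
  have hq0 : q 0 = 1 := by simp [hq]
  have hp0 : p 0 = z := by simp [hp]
  have hcg : dz^[a] (dzb^[b] (fun x => f (p x))) 0 = dz^[a] (G 0) 0 :=
    (der_dz hO).iter_congr _ _ hB a 0 h0
  rw [hcg, hA]
  refine Finset.sum_congr rfl fun i _ => ?_
  rw [hGdef]
  simp only [hq0, hp0, one_pow, one_mul, map_one]
  rw [Finset.mul_sum]
  refine Finset.sum_congr rfl fun j _ => ?_
  push_cast
  ring

end QJ
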