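import Pool.Agent.QJ.Stmts

/-!
FOU: the four-jet integrals.
-/

open Complex MeasureTheory Filter Topology Set
open scoped ContDiff

namespace QJ

open QE

namespace FOU

/-- the null sequences -/
def nul : Submodule ℂ (ℕ → ℂ) where
  carrier := {f | Tendsto f atTop (𝓝 0)}
  add_mem' := by
    intro f g hf hg
    have h1 := Tendsto.add hf hg
    rw [add_zero] at h1
    exact h1
  zero_mem' := by
    exact tendsto_const_nhds
  smul_mem' := by
    intro c f hf
    have h1 := Tendsto.const_mul c hf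
    rw [mul_zero] at h1
    exact h1

theorem mem_nul (f : ℕ → ℂ) : f ∈ nul ↔ Tendsto f atTop (𝓝 0) := Iff.rfl

theorem P_comm (j m : ℤ) : P j m = P m j := by
  unfold P
  by_cases hh : j + m = 0
  · have h2 : m + j = 0 := by omega
    have h3 : m = -j := by omega
    rw [if_pos hh, if_pos h2, h3, zpow_neg]
    rcases Int.even_or_odd j with he | ho
    · rw [he.neg_one_zpow]; simp
    · rw [ho.neg_one_zpow]; norm_num
  · have h2 : ¬ m + j = 0 := by omega
    rw [if_neg hh, if_neg h2]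

theorem P_shift (j m : ℤ) : P (j + 1) (m - 1) = - P j m := by
  unfold P
  by_cases hh : j + m = 0
  · have h2 : (j + 1) + (m - 1) = 0 := by omega
    rw [if_pos hh, if_pos h2, zpow_add₀ (by norm_num : (-1 : ℂ) ≠ 0)]
    simp
  · have h2 : ¬ (j + 1) + (m - 1) = 0 := by omega
    rw [if_neg hh, if_neg h2]; simp

theorem P_shift' (j m : ℤ) : P (j - 1) (m + 1) = - P j m := by
  have h := P_shift (j - 1) (m + 1)
  rw [sub_add_cancel, add_sub_cancel_right] at h
  rw [h, neg_neg]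

theorem P_move (j m : ℤ) : P (j + 1) m = - P j (m + 1) := by
  have h := P_shift j (m + 1)
  rw [add_sub_cancel_right] at h
  exact h

theorem wk_ab (a b c d : ℤ) : wk b a c d = wk a b c d := by
  unfold wk
  rw [P_comm b a]; ring

theorem wk_bc (a b c d : ℤ) : wk a c b d = wk a b c d := by
  unfold wk
  rw [P_comm c b]; ring

theorem wk_cd (a b c d : ℤ) : wk a b d c = wk a b c d := by
  unfold wk
  rw [P_comm d c]; ring

theorem wk_second (a b c d : ℤ) :
    wk (a + 1) (b + 1) (c - 1) (d - 1) + wk (a - 1) (b - 1) (c + 1) (d + 1) - 2 * wk a b c d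
      = P (a + 1) (b + 1) * P (c - 1) (d - 1) + P (a - 1) (b - 1) * P (c + 1) (d + 1)
        - 2 * (P a b * P c d) := by
  unfold wk
  rw [P_shift a c, P_shift b d, P_shift a d, P_shift b c, P_shift' a c, P_shift' b d,
    P_shift' a d, P_shift' b c]
  ring

theorem wk_first (a b c d : ℤ) :
    wk (a + 1) b c d + wk a (b + 1) c d + wk a b (c + 1) d + wk a b c (d + 1) = 0 := by
  unfold wk
  rw [P_move a b, P_move a c, P_move a d, P_move b d, P_move b c, P_move c d]
  ring

theorem wk_zero : wk 0 0 0 0 = 3 := by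
  unfold wk P
  norm_num

theorem E4_ab (σ : ℂ → ℝ) (h : ℕ → ℝ) (φ : ℕ → ℂ → ℂ) (ζ : ℂ → ℂ) (a b c d : ℤ) (n : ℕ) :
    E4 σ h φ ζ b a c d n = E4 σ h φ ζ a b c d n := by
  unfold E4
  congr 1
  funext z
  ring

theorem E4_bc (σ : ℂ → ℝ) (h : ℕ → ℝ) (φ : ℕ → ℂ → ℂ) (ζ : ℂ → ℂ) (a b c d : ℤ) (n : ℕ) :
    E4 σ h φ ζ a c b d n = E4 σ h φ ζ a b c d n := by
  unfold E4
  congr 1
  funext z
  ring

theorem E4_cd (σ : ℂ → ℝ) (h : ℕ → ℝ) (φ : ℕ → ℂ → ℂ) (ζ : ℂ → ℂ) (a b c d : ℤ) (n : ℕ) :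
    E4 σ h φ ζ a b d c n = E4 σ h φ ζ a b c d n := by
  unfold E4
  congr 1
  funext z
  ring

end FOU

open FOU

/-- the four-jet integrals -/
theorem stmtFou (hSec : StmtSec) (hIfo : StmtIfo) (hAlf : StmtAlf) : StmtFou := by
  intro V σ h φ hL ζ hζ a b c d habcd
  set I : ℂ := ∫ z, ζ z with hI
  let g : ℤ → ℤ → ℤ → ℤ → ℕ → ℂ := fun a b c d n => E4 σ h φ ζ a b c d n - wk a b c d * I
  let e : ℤ → ℤ → ℤ → ℤ → (ℕ → ℂ) ⧸ nul := fun a b c d => Submodule.Quotient.mk (g a b c d)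
  have key := hAlf ((ℕ → ℂ) ⧸ nul) e ?_ ?_ ?_ ?_ ?_ a b c d habcd
  · have h1 : e a b c d = Submodule.Quotient.mk (cl4 a b c d • g 0 0 0 0) := by
      rw [key]; rfl
    have h2 : g a b c d - cl4 a b c d • g 0 0 0 0 ∈ nul := (Submodule.Quotient.eq nul).1 h1
    rw [mem_nul] at h2
    refine h2.congr (fun n => ?_)
    simp only [g, Pi.sub_apply, Pi.smul_apply, smul_eq_mul, wk_zero]
    ring
  · intro a b c d
    simp only [e, g, wk_ab a b c d, E4_ab σ h φ ζ a b c d]
  · intro a b c d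
    simp only [e, g, wk_bc a b c d, E4_bc σ h φ ζ a b c d]
  · intro a b c d
    simp only [e, g, wk_cd a b c d, E4_cd σ h φ ζ a b c d]
  · intro a b c d hs
    have h1 : e (a + 1) (b + 1) (c - 1) (d - 1) + e (a - 1) (b - 1) (c + 1) (d + 1)
        = Submodule.Quotient.mk (g (a + 1) (b + 1) (c - 1) (d - 1)
          + g (a - 1) (b - 1) (c + 1) (d + 1)) := rfl
    have h2 : (2 : ℂ) • e a b c d = Submodule.Quotient.mk ((2 : ℂ) • g a b c d) := rfl
    rw [h1, h2]
    refine (Submodule.Quotient.eq nul).2 ?_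
    rw [mem_nul]
    have h3 := hSec V σ h φ hL ζ hζ a b c d hs
    rw [← hI, ← wk_second a b c d] at h3
    have h4 := h3.sub (tendsto_const_nhds (x := (wk (a + 1) (b + 1) (c - 1) (d - 1)
      + wk (a - 1) (b - 1) (c + 1) (d + 1) - 2 * wk a b c d) * I))
    rw [sub_self] at h4
    refine h4.congr (fun n => ?_)
    simp only [g, Pi.sub_apply, Pi.add_apply, Pi.smul_apply, smul_eq_mul]
    ring
  · intro a b c d hs
    have h1 : e (a + 1) b c d + e a (b + 1) c d + e a b (c + 1) d + e a b c (d + 1)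
        = Submodule.Quotient.mk (g (a + 1) b c d + g a (b + 1) c d + g a b (c + 1) d
          + g a b c (d + 1)) := rfl
    rw [h1]
    refine (Submodule.Quotient.mk_eq_zero nul).2 ?_
    rw [mem_nul]
    refine ((hIfo V σ h φ hL ζ hζ).1 a b c d).congr (fun n => ?_)
    simp only [g, Pi.add_apply]
    have h5 := wk_first a b c d
    linear_combination I * h5

end QJ
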