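import Pool.Agent.QJ.Defs

/-!
Basic calculus of the operators `D` and `Db` which raise and lower the spin.
-/

open Complex MeasureTheory Filter Topology Set
open scoped ContDiff

namespace QJ

open QE

noncomputable section

variable {σ : ℂ → ℝ}

lemma ex_ofReal (σ : ℂ → ℝ) (k : ℤ) (z : ℂ) : ex σ k z = Complex.exp ((k : ℂ) * σ z) := by
  unfold ex; push_cast; rfl

lemma ex_zero (σ : ℂ → ℝ) (z : ℂ) : ex σ 0 z = 1 := by simp [ex]

lemma ex_ne (σ : ℂ → ℝ) (k : ℤ) (z : ℂ) : ex σ k z ≠ 0 := by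
  unfold ex; exact_mod_cast (Real.exp_pos _).ne'

lemma ex_mul (σ : ℂ → ℝ) (k l : ℤ) (z : ℂ) : ex σ k z * ex σ l z = ex σ (k + l) z := by
  rw [ex_ofReal, ex_ofReal, ex_ofReal, ← Complex.exp_add]; congr 1; push_cast; ring

lemma conj_ex (σ : ℂ → ℝ) (k : ℤ) (z : ℂ) : (starRingEnd ℂ) (ex σ k z) = ex σ k z := by
  unfold ex; exact conj_ofReal _

lemma norm_ex (σ : ℂ → ℝ) (k : ℤ) (z : ℂ) : ‖ex σ k z‖ = Real.exp (k * σ z) := by
  unfold ex; rw [Complex.norm_real, Real.norm_of_nonneg (Real.exp_pos _).le]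

lemma contDiff_ex (hσ : ContDiff ℝ ∞ σ) (k : ℤ) : ContDiff ℝ ∞ (ex σ k) := by
  unfold ex
  exact ofRealCLM.contDiff.comp (Real.contDiff_exp.comp (contDiff_const.mul hσ))

lemma contDiff_sig (hσ : ContDiff ℝ ∞ σ) : ContDiff ℝ ∞ (fun w => (σ w : ℂ)) :=
  ofRealCLM.contDiff.comp hσ

lemma cd_at {f : ℂ → ℂ} (hf : ContDiff ℝ ∞ f) (z : ℂ) : DifferentiableAt ℝ f z :=
  (hf.differentiable (by simp)) z

lemma cd_at2 {f : ℂ → ℂ} (hf : ContDiff ℝ ∞ f) (z : ℂ) : ContDiffAt ℝ 2 f z :=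
  hf.contDiffAt.of_le (WithTop.coe_le_coe.2 le_top)

lemma fderiv_ex (hσ : ContDiff ℝ ∞ σ) (k : ℤ) (z v : ℂ) :
    fderiv ℝ (ex σ k) z v = (k : ℂ) * fderiv ℝ (fun w => (σ w : ℂ)) z v * ex σ k z := by
  have e : ex σ k = fun w => Complex.exp ((k : ℂ) * σ w) := by funext w; exact ex_ofReal σ k w
  have hd : DifferentiableAt ℝ (fun w => (k : ℂ) * (σ w : ℂ)) z := (cd_at (contDiff_sig hσ) z).const_mul _
  rw [e]
  have h1 : HasFDerivAt (fun w => Complex.exp ((k : ℂ) * σ w))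
      (Complex.exp ((k : ℂ) * σ z) • fderiv ℝ (fun w => (k : ℂ) * (σ w : ℂ)) z) z := hd.hasFDerivAt.cexp
  rw [h1.fderiv, fderiv_const_mul (cd_at (contDiff_sig hσ) z)]
  simp only [smul_apply, smul_eq_mul]
  ring

lemma dz_ex (hσ : ContDiff ℝ ∞ σ) (k : ℤ) (z : ℂ) :
    dz (ex σ k) z = (k : ℂ) * dz (fun w => (σ w : ℂ)) z * ex σ k z := by
  unfold dz; rw [fderiv_ex hσ, fderiv_ex hσ]; ring

lemma dzb_ex (hσ : ContDiff ℝ ∞ σ) (k : ℤ) (z : ℂ) :
    dzb (ex σ k) z = (k : ℂ) * dzb (fun w => (σ w : ℂ)) z * ex σ k z := by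
  unfold dzb; rw [fderiv_ex hσ, fderiv_ex hσ]; ring

/-- the explicit form of `D` -/
lemma D_eq (hσ : ContDiff ℝ ∞ σ) (k : ℤ) {f : ℂ → ℂ} {z : ℂ} (hf : DifferentiableAt ℝ f z) :
    D σ k f z = 2 * ex σ (-1) z * (dz f z - k * dz (fun w => (σ w : ℂ)) z * f z) := by
  unfold D
  rw [dz_mul (cd_at (contDiff_ex hσ _) z) hf, dz_ex hσ]
  have e : ex σ (k - 1) z * ex σ (-k) z = ex σ (-1) z := by rw [ex_mul]; congr 1; ring
  rw [← e]; push_cast; ring

/-- the explicit form of `Db` -/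
lemma Db_eq (hσ : ContDiff ℝ ∞ σ) (k : ℤ) {f : ℂ → ℂ} {z : ℂ} (hf : DifferentiableAt ℝ f z) :
    Db σ k f z = 2 * ex σ (-1) z * (dzb f z + k * dzb (fun w => (σ w : ℂ)) z * f z) := by
  unfold Db
  rw [dzb_mul (cd_at (contDiff_ex hσ _) z) hf, dzb_ex hσ]
  have e : ex σ (-k - 1) z * ex σ k z = ex σ (-1) z := by rw [ex_mul]; congr 1; ring
  rw [← e]; ring

lemma contDiff_D (hσ : ContDiff ℝ ∞ σ) (k : ℤ) {f : ℂ → ℂ} (hf : ContDiff ℝ ∞ f) :
    ContDiff ℝ ∞ (D σ k f) :=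
  (contDiff_const.mul (contDiff_ex hσ _)).mul (contDiff_dz ((contDiff_ex hσ _).mul hf))

lemma contDiff_Db (hσ : ContDiff ℝ ∞ σ) (k : ℤ) {f : ℂ → ℂ} (hf : ContDiff ℝ ∞ f) :
    ContDiff ℝ ∞ (Db σ k f) :=
  (contDiff_const.mul (contDiff_ex hσ _)).mul (contDiff_dzb ((contDiff_ex hσ _).mul hf))

/-- Leibniz rule -/
lemma D_mul (hσ : ContDiff ℝ ∞ σ) (k l : ℤ) {f g : ℂ → ℂ} {z : ℂ} (hf : DifferentiableAt ℝ f z)
    (hg : DifferentiableAt ℝ g z) :
    D σ (k + l) (fun w => f w * g w) z = D σ k f z * g z + f z * D σ l g z := by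
  rw [D_eq hσ _ (hf.fun_mul hg), D_eq hσ k hf, D_eq hσ l hg, dz_mul hf hg]
  push_cast; ring

/-- Leibniz rule -/
lemma Db_mul (hσ : ContDiff ℝ ∞ σ) (k l : ℤ) {f g : ℂ → ℂ} {z : ℂ} (hf : DifferentiableAt ℝ f z)
    (hg : DifferentiableAt ℝ g z) :
    Db σ (k + l) (fun w => f w * g w) z = Db σ k f z * g z + f z * Db σ l g z := by
  rw [Db_eq hσ _ (hf.fun_mul hg), Db_eq hσ k hf, Db_eq hσ l hg, dzb_mul hf hg]
  push_cast; ring

lemma D_add (hσ : ContDiff ℝ ∞ σ) (k : ℤ) {f g : ℂ → ℂ} {z : ℂ} (hf : DifferentiableAt ℝ f z)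
    (hg : DifferentiableAt ℝ g z) :
    D σ k (fun w => f w + g w) z = D σ k f z + D σ k g z := by
  rw [D_eq hσ _ (hf.fun_add hg), D_eq hσ k hf, D_eq hσ k hg, dz_add hf hg]; ring

lemma Db_add (hσ : ContDiff ℝ ∞ σ) (k : ℤ) {f g : ℂ → ℂ} {z : ℂ} (hf : DifferentiableAt ℝ f z)
    (hg : DifferentiableAt ℝ g z) :
    Db σ k (fun w => f w + g w) z = Db σ k f z + Db σ k g z := by
  rw [Db_eq hσ _ (hf.fun_add hg), Db_eq hσ k hf, Db_eq hσ k hg, dzb_add hf hg]; ring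

lemma D_sub (hσ : ContDiff ℝ ∞ σ) (k : ℤ) {f g : ℂ → ℂ} {z : ℂ} (hf : DifferentiableAt ℝ f z)
    (hg : DifferentiableAt ℝ g z) :
    D σ k (fun w => f w - g w) z = D σ k f z - D σ k g z := by
  rw [D_eq hσ _ (hf.fun_sub hg), D_eq hσ k hf, D_eq hσ k hg, dz_sub hf hg]; ring

lemma Db_sub (hσ : ContDiff ℝ ∞ σ) (k : ℤ) {f g : ℂ → ℂ} {z : ℂ} (hf : DifferentiableAt ℝ f z)
    (hg : DifferentiableAt ℝ g z) :
    Db σ k (fun w => f w - g w) z = Db σ k f z - Db σ k g z := by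
  rw [Db_eq hσ _ (hf.fun_sub hg), Db_eq hσ k hf, Db_eq hσ k hg, dzb_sub hf hg]; ring

lemma D_const_mul (hσ : ContDiff ℝ ∞ σ) (k : ℤ) (c : ℂ) {f : ℂ → ℂ} {z : ℂ}
    (hf : DifferentiableAt ℝ f z) : D σ k (fun w => c * f w) z = c * D σ k f z := by
  rw [D_eq hσ _ (hf.const_mul c), D_eq hσ k hf, dz_const_mul c hf]; ring

lemma Db_const_mul (hσ : ContDiff ℝ ∞ σ) (k : ℤ) (c : ℂ) {f : ℂ → ℂ} {z : ℂ}
    (hf : DifferentiableAt ℝ f z) : Db σ k (fun w => c * f w) z = c * Db σ k f z := by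
  rw [Db_eq hσ _ (hf.const_mul c), Db_eq hσ k hf, dzb_const_mul c hf]; ring

/-- constants of spin zero -/
lemma D_zero_const (hσ : ContDiff ℝ ∞ σ) (c z : ℂ) : D σ 0 (fun _ => c) z = 0 := by
  rw [D_eq hσ 0 (differentiableAt_const c), dz_const]; simp

lemma Db_zero_const (hσ : ContDiff ℝ ∞ σ) (c z : ℂ) : Db σ 0 (fun _ => c) z = 0 := by
  rw [Db_eq hσ 0 (differentiableAt_const c), dzb_const]; simp

lemma D_congr_on {V : Set ℂ} (hV : IsOpen V) (k : ℤ) {f g : ℂ → ℂ} (h : ∀ z ∈ V, f z = g z) {z : ℂ}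
    (hz : z ∈ V) : D σ k f z = D σ k g z := by
  unfold D
  rw [dz_congr_on hV (f := fun w => ex σ (-k) w * f w) (g := fun w => ex σ (-k) w * g w)
    (fun w hw => by rw [h w hw]) hz]

lemma Db_congr_on {V : Set ℂ} (hV : IsOpen V) (k : ℤ) {f g : ℂ → ℂ} (h : ∀ z ∈ V, f z = g z) {z : ℂ}
    (hz : z ∈ V) : Db σ k f z = Db σ k g z := by
  unfold Db
  rw [dzb_congr_on hV (f := fun w => ex σ k w * f w) (g := fun w => ex σ k w * g w)
    (fun w hw => by rw [h w hw]) hz]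

/-- conjugation exchanges `D` and `Db` -/
lemma D_conj (k : ℤ) {f : ℂ → ℂ} {z : ℂ} (hσ : ContDiff ℝ ∞ σ) (hf : DifferentiableAt ℝ f z) :
    D σ k (fun w => (starRingEnd ℂ) (f w)) z = (starRingEnd ℂ) (Db σ (-k) f z) := by
  have e : (fun w => ex σ (-k) w * (starRingEnd ℂ) (f w))
      = fun w => (starRingEnd ℂ) (ex σ (-k) w * f w) := by
    funext w; rw [map_mul, conj_ex]
  unfold D Db
  rw [e, dz_conj ((cd_at (contDiff_ex hσ _) z).fun_mul hf)]
  simp only [map_mul, map_ofNat, conj_ex, neg_neg]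

lemma Db_conj (k : ℤ) {f : ℂ → ℂ} {z : ℂ} (hσ : ContDiff ℝ ∞ σ) (hf : DifferentiableAt ℝ f z) :
    Db σ k (fun w => (starRingEnd ℂ) (f w)) z = (starRingEnd ℂ) (D σ (-k) f z) := by
  have e : (fun w => ex σ k w * (starRingEnd ℂ) (f w))
      = fun w => (starRingEnd ℂ) (ex σ k w * f w) := by
    funext w; rw [map_mul, conj_ex]
  unfold D Db
  rw [e, dzb_conj ((cd_at (contDiff_ex hσ _) z).fun_mul hf)]
  simp only [map_mul, map_ofNat, conj_ex, neg_neg]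

/-- the commutator -/
lemma comm (hσ : ContDiff ℝ ∞ σ) (k : ℤ) {f : ℂ → ℂ} (hf : ContDiff ℝ ∞ f) (z : ℂ) :
    Db σ (k + 1) (D σ k f) z = D σ (k - 1) (Db σ k f) z + 2 * k * curv σ z * f z := by
  set s : ℂ → ℂ := fun w => (σ w : ℂ) with hs
  have hsc : ContDiff ℝ ∞ s := contDiff_sig hσ
  have d1 : ∀ w, DifferentiableAt ℝ f w := cd_at hf
  have d2 : ∀ w, DifferentiableAt ℝ (dz f) w := cd_at (contDiff_dz hf)
  have d3 : ∀ w, DifferentiableAt ℝ (dzb f) w := cd_at (contDiff_dzb hf)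
  have d4 : ∀ w, DifferentiableAt ℝ (dz s) w := cd_at (contDiff_dz hsc)
  have d5 : ∀ w, DifferentiableAt ℝ (dzb s) w := cd_at (contDiff_dzb hsc)
  have de : ∀ w, DifferentiableAt ℝ (ex σ (-1)) w := cd_at (contDiff_ex hσ _)
  have e1 : D σ k f = fun w => 2 * (ex σ (-1) w * (dz f w - k * (dz s w * f w))) := by
    funext w; rw [D_eq hσ k (d1 w)]; ring
  have e2 : Db σ k f = fun w => 2 * (ex σ (-1) w * (dzb f w + k * (dzb s w * f w))) := by
    funext w; rw [Db_eq hσ k (d1 w)]; ring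
  have i1 : ∀ w, DifferentiableAt ℝ (fun w => dz f w - k * (dz s w * f w)) w := fun w =>
    (d2 w).fun_sub (((d4 w).fun_mul (d1 w)).const_mul _)
  have i2 : ∀ w, DifferentiableAt ℝ (fun w => dzb f w + k * (dzb s w * f w)) w := fun w =>
    (d3 w).fun_add (((d5 w).fun_mul (d1 w)).const_mul _)
  rw [Db_eq hσ (k + 1) (cd_at (contDiff_D hσ k hf) z), D_eq hσ (k - 1) (cd_at (contDiff_Db hσ k hf) z),
    e1, e2, dzb_const_mul _ ((de z).fun_mul (i1 z)), dz_const_mul _ ((de z).fun_mul (i2 z)),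
    dzb_mul (de z) (i1 z), dz_mul (de z) (i2 z), dz_ex hσ, dzb_ex hσ,
    dzb_sub (d2 z) (((d4 z).fun_mul (d1 z)).const_mul _), dz_add (d3 z) (((d5 z).fun_mul (d1 z)).const_mul _),
    dzb_const_mul _ ((d4 z).fun_mul (d1 z)), dz_const_mul _ ((d5 z).fun_mul (d1 z)),
    dzb_mul (d4 z) (d1 z), dz_mul (d5 z) (d1 z)]
  have c1 : dzb (dz f) z = dz (dzb f) z := (dz_dzb_comm (cd_at2 hf z)).symm
  have c2 : dzb (dz s) z = dz (dzb s) z := (dz_dzb_comm (cd_at2 hsc z)).symm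
  have e3 : ex σ (-2) z = ex σ (-1) z * ex σ (-1) z := by rw [ex_mul]; congr 1
  unfold curv
  rw [c1, c2, e3]
  push_cast
  ring

/-- integration by parts: a total derivative -/
lemma int_D (hσ : ContDiff ℝ ∞ σ) {F : ℂ → ℂ} (hF : ContDiff ℝ ∞ F) (hc : HasCompactSupport F) :
    ∫ z, ex σ 2 z * D σ (-1) F z = 0 := by
  have h := integral_dz_eq_zero (f := fun z => ex σ 1 z * F z) ((contDiff_ex hσ _).mul hF) hc.mul_left
  have e : ∀ z, ex σ 2 z * D σ (-1) F z = 2 * dz (fun z => ex σ 1 z * F z) z := by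
    intro z
    unfold D
    have e2 : ex σ 2 z * ex σ (-1 - 1) z = 1 := by
      rw [ex_mul, show (2 : ℤ) + (-1 - 1) = 0 by norm_num, ex_zero]
    rw [show (-(-1) : ℤ) = 1 by norm_num]
    linear_combination (2 * dz (fun w => ex σ 1 w * F w) z) * e2
  simp only [e]
  rw [integral_const_mul, h, mul_zero]

lemma int_Db (hσ : ContDiff ℝ ∞ σ) {F : ℂ → ℂ} (hF : ContDiff ℝ ∞ F) (hc : HasCompactSupport F) :
    ∫ z, ex σ 2 z * Db σ 1 F z = 0 := by
  have h := integral_dzb_eq_zero (f := fun z => ex σ 1 z * F z) ((contDiff_ex hσ _).mul hF) hc.mul_left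
  have e : ∀ z, ex σ 2 z * Db σ 1 F z = 2 * dzb (fun z => ex σ 1 z * F z) z := by
    intro z
    unfold Db
    have e2 : ex σ 2 z * ex σ (-1 - 1) z = 1 := by
      rw [ex_mul, show (2 : ℤ) + (-1 - 1) = 0 by norm_num, ex_zero]
    linear_combination (2 * dzb (fun w => ex σ 1 w * F w) z) * e2
  simp only [e]
  rw [integral_const_mul, h, mul_zero]

lemma test_D {V : Set ℂ} (hσ : ContDiff ℝ ∞ σ) (k : ℤ) {ζ : ℂ → ℂ} (hζ : Test V ζ) :
    Test V (D σ k ζ) := by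
  have h1 : Test V (fun z => ex σ (-k) z * ζ z) := by
    refine ⟨(contDiff_ex hσ _).mul hζ.smooth, hζ.supp.mul_left, ?_⟩
    exact (closure_mono fun z hz => right_ne_zero_of_mul hz).trans hζ.sub
  refine ⟨contDiff_D hσ k hζ.smooth, h1.dz.supp.mul_left, ?_⟩
  exact (closure_mono fun z hz => right_ne_zero_of_mul hz).trans h1.dz.sub

lemma test_Db {V : Set ℂ} (hσ : ContDiff ℝ ∞ σ) (k : ℤ) {ζ : ℂ → ℂ} (hζ : Test V ζ) :
    Test V (Db σ k ζ) := by
  have h1 : Test V (fun z => ex σ k z * ζ z) := by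
    refine ⟨(contDiff_ex hσ _).mul hζ.smooth, hζ.supp.mul_left, ?_⟩
    exact (closure_mono fun z hz => right_ne_zero_of_mul hz).trans hζ.sub
  refine ⟨contDiff_Db hσ k hζ.smooth, h1.dzb.supp.mul_left, ?_⟩
  exact (closure_mono fun z hz => right_ne_zero_of_mul hz).trans h1.dzb.sub

lemma test_mul {V : Set ℂ} {ζ f : ℂ → ℂ} (hζ : Test V ζ) (hf : ContDiff ℝ ∞ f) :
    Test V (fun z => ζ z * f z) := by
  refine ⟨hζ.smooth.mul hf, hζ.supp.mul_right, ?_⟩
  exact (closure_mono fun z hz => left_ne_zero_of_mul hz).trans hζ.sub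

lemma test_int {V : Set ℂ} {ζ f : ℂ → ℂ} (hζ : Test V ζ) (hf : Continuous f) :
    Integrable (fun z => ζ z * f z) :=
  (hζ.smooth.continuous.mul hf).integrable_of_hasCompactSupport hζ.supp.mul_right

/-- integration by parts for `D`: total spin `-1` -/
lemma ibp_D {V : Set ℂ} (hσ : ContDiff ℝ ∞ σ) (k : ℤ) {ζ f g : ℂ → ℂ} (hζ : Test V ζ)
    (hf : ContDiff ℝ ∞ f) (hg : ContDiff ℝ ∞ g) :
    ∫ z, ex σ 2 z * (ζ z * (D σ k f z * g z))
      = - (∫ z, ex σ 2 z * (D σ 0 ζ z * (f z * g z)))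
        - ∫ z, ex σ 2 z * (ζ z * (f z * D σ (-k - 1) g z)) := by
  have h1 := int_D hσ (F := fun z => ζ z * (f z * g z)) (hζ.smooth.mul (hf.mul hg)) hζ.supp.mul_right
  have e : ∀ z, ex σ 2 z * D σ (-1) (fun z => ζ z * (f z * g z)) z
      = ex σ 2 z * (D σ 0 ζ z * (f z * g z)) + (ex σ 2 z * (ζ z * (D σ k f z * g z))
        + ex σ 2 z * (ζ z * (f z * D σ (-k - 1) g z))) := by
    intro z
    have a1 := D_mul hσ 0 (-1) (cd_at hζ.smooth z) ((cd_at hf z).fun_mul (cd_at hg z))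
    have a2 := D_mul hσ k (-k - 1) (cd_at hf z) (cd_at hg z)
    rw [show k + (-k - 1) = -1 by ring] at a2
    rw [zero_add] at a1
    rw [a1, a2]; ring
  have i1 : Integrable fun z => ex σ 2 z * (D σ 0 ζ z * (f z * g z)) := by
    have := test_int (test_D hσ 0 hζ) ((contDiff_ex hσ 2).mul (hf.mul hg)).continuous
    refine this.congr (Filter.Eventually.of_forall fun z => ?_)
    simp only []; ring
  have i2 : Integrable fun z => ex σ 2 z * (ζ z * (D σ k f z * g z)) := by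
    have := test_int hζ ((contDiff_ex hσ 2).mul ((contDiff_D hσ k hf).mul hg)).continuous
    refine this.congr (Filter.Eventually.of_forall fun z => ?_)
    simp only []; ring
  have i3 : Integrable fun z => ex σ 2 z * (ζ z * (f z * D σ (-k - 1) g z)) := by
    have := test_int hζ ((contDiff_ex hσ 2).mul (hf.mul (contDiff_D hσ (-k - 1) hg))).continuous
    refine this.congr (Filter.Eventually.of_forall fun z => ?_)
    simp only []; ring
  have i4 : Integrable fun z => ex σ 2 z * (ζ z * (D σ k f z * g z))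
      + ex σ 2 z * (ζ z * (f z * D σ (-k - 1) g z)) := i2.add i3
  simp only [e] at h1
  rw [integral_add i1 i4, integral_add i2 i3] at h1
  linear_combination h1

/-- integration by parts for `Db`: total spin `1` -/
lemma ibp_Db {V : Set ℂ} (hσ : ContDiff ℝ ∞ σ) (k : ℤ) {ζ f g : ℂ → ℂ} (hζ : Test V ζ)
    (hf : ContDiff ℝ ∞ f) (hg : ContDiff ℝ ∞ g) :
    ∫ z, ex σ 2 z * (ζ z * (Db σ k f z * g z))
      = - (∫ z, ex σ 2 z * (Db σ 0 ζ z * (f z * g z)))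
        - ∫ z, ex σ 2 z * (ζ z * (f z * Db σ (-k + 1) g z)) := by
  have h1 := int_Db hσ (F := fun z => ζ z * (f z * g z)) (hζ.smooth.mul (hf.mul hg)) hζ.supp.mul_right
  have e : ∀ z, ex σ 2 z * Db σ 1 (fun z => ζ z * (f z * g z)) z
      = ex σ 2 z * (Db σ 0 ζ z * (f z * g z)) + (ex σ 2 z * (ζ z * (Db σ k f z * g z))
        + ex σ 2 z * (ζ z * (f z * Db σ (-k + 1) g z))) := by
    intro z
    have a1 := Db_mul hσ 0 1 (cd_at hζ.smooth z) ((cd_at hf z).fun_mul (cd_at hg z))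
    have a2 := Db_mul hσ k (-k + 1) (cd_at hf z) (cd_at hg z)
    rw [show k + (-k + 1) = 1 by ring] at a2
    rw [zero_add] at a1
    rw [a1, a2]; ring
  have i1 : Integrable fun z => ex σ 2 z * (Db σ 0 ζ z * (f z * g z)) := by
    have := test_int (test_Db hσ 0 hζ) ((contDiff_ex hσ 2).mul (hf.mul hg)).continuous
    refine this.congr (Filter.Eventually.of_forall fun z => ?_)
    simp only []; ring
  have i2 : Integrable fun z => ex σ 2 z * (ζ z * (Db σ k f z * g z)) := by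
    have := test_int hζ ((contDiff_ex hσ 2).mul ((contDiff_Db hσ k hf).mul hg)).continuous
    refine this.congr (Filter.Eventually.of_forall fun z => ?_)
    simp only []; ring
  have i3 : Integrable fun z => ex σ 2 z * (ζ z * (f z * Db σ (-k + 1) g z)) := by
    have := test_int hζ ((contDiff_ex hσ 2).mul (hf.mul (contDiff_Db hσ (-k + 1) hg))).continuous
    refine this.congr (Filter.Eventually.of_forall fun z => ?_)
    simp only []; ring
  have i4 : Integrable fun z => ex σ 2 z * (ζ z * (Db σ k f z * g z))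
      + ex σ 2 z * (ζ z * (f z * Db σ (-k + 1) g z)) := i2.add i3
  simp only [e] at h1
  rw [integral_add i1 i4, integral_add i2 i3] at h1
  linear_combination h1

end

end QJ
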