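import Pool.Agent.QJ.Stmts
import Pool.Agent.QJ.Ops

/-!
Derivatives of dominated functions tend weakly to zero after multiplication by `h`.
-/

open Complex MeasureTheory Filter Topology Set
open scoped ContDiff

namespace QJ

open QE

noncomputable section

namespace IBP

/-- the integral of a test function against a smooth function is bounded by the `L¹` norm on the
support -/
lemma norm_int_le {V : Set ℂ} {η : ℂ → ℂ} (hη : Test V η) :
    ∃ M : ℝ, ∀ f : ℂ → ℂ, Continuous f →
      ‖∫ z, η z * f z‖ ≤ M * ∫ z in tsupport η, ‖f z‖ := by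
  obtain ⟨M, hM⟩ := hη.smooth.continuous.bounded_above_of_compact_support hη.supp
  refine ⟨M, fun f hf => ?_⟩
  have hK : IsCompact (tsupport η) := hη.supp
  have e : ∫ z, η z * f z = ∫ z in tsupport η, η z * f z := by
    symm
    apply setIntegral_eq_integral_of_forall_compl_eq_zero
    intro z hz
    rw [image_eq_zero_of_notMem_tsupport hz, zero_mul]
  rw [e]
  have hi : IntegrableOn f (tsupport η) := hf.continuousOn.integrableOn_compact hK
  calc ‖∫ z in tsupport η, η z * f z‖ ≤ ∫ z in tsupport η, ‖η z * f z‖ :=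
        norm_integral_le_integral_norm _
    _ ≤ ∫ z in tsupport η, M * ‖f z‖ := by
        refine integral_mono ?_ (hi.norm.const_mul M) fun z => ?_
        · exact ((hη.smooth.continuous.mul hf).continuousOn.integrableOn_compact hK).norm
        · show ‖η z * f z‖ ≤ M * ‖f z‖
          rw [norm_mul]
          exact mul_le_mul_of_nonneg_right (hM z) (norm_nonneg _)
    _ = M * ∫ z in tsupport η, ‖f z‖ := integral_const_mul _ _

/-- the limit against a fixed test function -/
lemma lim_test {V : Set ℂ} {h : ℕ → ℝ} {u : ℕ → ℂ → ℂ} (hh : ∀ n, 0 < h n)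
    (hu : ∀ n, ContDiff ℝ ∞ (u n))
    (hK : ∀ K, IsCompact K → K ⊆ V → Tendsto (fun n => h n * ∫ z in K, ‖u n z‖) atTop (𝓝 0))
    {η : ℂ → ℂ} (hη : Test V η) :
    Tendsto (fun n => (h n : ℂ) * ∫ z, η z * u n z) atTop (𝓝 0) := by
  obtain ⟨M, hM⟩ := norm_int_le hη
  have h1 := (hK (tsupport η) hη.supp hη.sub).const_mul M
  rw [mul_zero] at h1
  refine squeeze_zero_norm (fun n => ?_) h1
  rw [norm_mul, Complex.norm_real, Real.norm_of_nonneg (hh n).le]
  calc h n * ‖∫ z, η z * u n z‖ ≤ h n * (M * ∫ z in tsupport η, ‖u n z‖) :=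
        mul_le_mul_of_nonneg_left (hM (u n) (hu n).continuous) (hh n).le
    _ = M * (h n * ∫ z in tsupport η, ‖u n z‖) := by ring

end IBP

open IBP in
theorem stmtIbp (hInt : StmtInt) : StmtIbp := by
  intro V σ h φ u k hV hσ hh hh0 hφ hG hu hB ζ hζ
  have hK := (hInt V h φ u hh hh0 hφ hG hu).2.2 hB
  constructor
  · have tA : Test V (fun z => ζ z * (2 * ex σ (k - 1) z)) :=
      test_mul hζ (contDiff_const.mul (contDiff_ex hσ _))
    have tη : Test V (fun z => dz (fun z => ζ z * (2 * ex σ (k - 1) z)) z * ex σ (-k) z) :=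
      test_mul tA.dz (contDiff_ex hσ _)
    have h1 := (lim_test hh hu hK tη).neg
    rw [neg_zero] at h1
    refine h1.congr fun n => ?_
    have i1 := integral_mul_dz hV tA (f := fun w => ex σ (-k) w * u n w)
      ((contDiff_ex hσ _).mul (hu n)).contDiffOn
    have e1 : ∫ z, ζ z * ((h n : ℂ) * D σ k (u n) z)
        = (h n : ℂ) * ∫ z, (ζ z * (2 * ex σ (k - 1) z)) * dz (fun w => ex σ (-k) w * u n w) z := by
      rw [← integral_const_mul]
      refine integral_congr_ae (Filter.Eventually.of_forall fun z => ?_)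
      show ζ z * ((h n : ℂ) * D σ k (u n) z) = _
      unfold D
      ring
    rw [e1, i1, mul_neg]
    congr 2
    refine integral_congr_ae (Filter.Eventually.of_forall fun z => ?_)
    show dz (fun z => ζ z * (2 * ex σ (k - 1) z)) z * ex σ (-k) z * u n z
      = dz (fun z => ζ z * (2 * ex σ (k - 1) z)) z * (ex σ (-k) z * u n z)
    ring
  · have tA : Test V (fun z => ζ z * (2 * ex σ (-k - 1) z)) :=
      test_mul hζ (contDiff_const.mul (contDiff_ex hσ _))
    have tη : Test V (fun z => dzb (fun z => ζ z * (2 * ex σ (-k - 1) z)) z * ex σ k z) :=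
      test_mul tA.dzb (contDiff_ex hσ _)
    have h1 := (lim_test hh hu hK tη).neg
    rw [neg_zero] at h1
    refine h1.congr fun n => ?_
    have i1 := integral_mul_dzb hV tA (f := fun w => ex σ k w * u n w)
      ((contDiff_ex hσ _).mul (hu n)).contDiffOn
    have e1 : ∫ z, ζ z * ((h n : ℂ) * Db σ k (u n) z)
        = (h n : ℂ) * ∫ z, (ζ z * (2 * ex σ (-k - 1) z)) * dzb (fun w => ex σ k w * u n w) z := by
      rw [← integral_const_mul]
      refine integral_congr_ae (Filter.Eventually.of_forall fun z => ?_)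
      show ζ z * ((h n : ℂ) * Db σ k (u n) z) = _
      unfold Db
      ring
    rw [e1, i1, mul_neg]
    congr 2
    refine integral_congr_ae (Filter.Eventually.of_forall fun z => ?_)
    show dzb (fun z => ζ z * (2 * ex σ (-k - 1) z)) z * ex σ k z * u n z
      = dzb (fun z => ζ z * (2 * ex σ (-k - 1) z)) z * (ex σ k z * u n z)
    ring

end

end QJ
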