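import Pool.Agent.QJ.Stmts
import Pool.Agent.QJ.Dom
import Pool.Agent.QJ.IBP
import Pool.Agent.QJ.JETA

/-!
The two-jet limits.
-/

open Complex MeasureTheory Filter Topology Set
open scoped ContDiff

namespace QJ

open QE

noncomputable section

namespace TWO

variable {V : Set ℂ} {σ : ℂ → ℝ} {h : ℕ → ℝ} {φ : ℕ → ℂ → ℂ}

/-- the integral of two jets -/
def I2 (σ : ℂ → ℝ) (h : ℕ → ℝ) (φ : ℕ → ℂ → ℂ) (ζ : ℂ → ℂ) (j m : ℤ) (n : ℕ) : ℂ :=
  ∫ z, ζ z * (E σ h φ j n z * E σ h φ m n z)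

lemma hlim4 (hInt : StmtInt) (L : Loc V σ h φ) (hG : Grow V h φ) {u : ℕ → ℂ → ℂ}
    (hu : ∀ n, ContDiff ℝ ∞ (u n)) (hB : Bq V h φ 4 u) {ζ : ℂ → ℂ} (hζ : Test V ζ) :
    Tendsto (fun n => (h n : ℂ) * ∫ z, ζ z * u n z) atTop (𝓝 0) :=
  IBP.lim_test L.hpos hu ((hInt V h φ u L.hpos L.hlim L.smφ hG hu).2.2 hB) hζ

lemma hlimC (L : Loc V σ h φ) : Tendsto (fun n => (h n : ℂ)) atTop (𝓝 0) := by
  have h1 := (Complex.continuous_ofReal.tendsto 0).comp L.hlim
  rw [Complex.ofReal_zero] at h1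
  exact h1

lemma zero_off {ζ : ℂ → ℂ} (hζ : Test V ζ) {z : ℂ} (hz : z ∉ V) : ζ z = 0 :=
  image_eq_zero_of_notMem_tsupport fun hh => hz (hζ.sub hh)

lemma rec_step (hInt : StmtInt) (hIbp : StmtIbp) (hJ : StmtJetA) (L : Loc V σ h φ)
    (hG : Grow V h φ) {ζ : ℂ → ℂ} (hζ : Test V ζ) (j m : ℤ) :
    Tendsto (fun n => I2 σ h φ ζ (j + 1) m n + I2 σ h φ ζ j (m + 1) n) atTop (𝓝 0) := by
  have hσ := L.sm
  obtain ⟨dj, ⟨A1, hA1, h1⟩, -⟩ := hJ V σ h φ L j
  obtain ⟨dm, ⟨A2, hA2, h2⟩, -⟩ := hJ V σ h φ L m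
  obtain ⟨dj1, -, -⟩ := hJ V σ h φ L (j + 1)
  obtain ⟨dm1, -, -⟩ := hJ V σ h φ L (m + 1)
  have du : Dom V h φ 2 (fun n z => E σ h φ j n z * E σ h φ m n z) := dj.mul L.op dm
  have dB : Dom V h φ 2 (fun n z => A1 n z * E σ h φ m n z + E σ h φ j n z * A2 n z) :=
    (hA1.mul L.op dm).add L.op (dj.mul L.op hA2)
  have i1 := (hIbp V σ h φ _ (j + m) L.op L.sm L.hpos L.hlim L.smφ hG du.smooth
    (du.mono (by norm_num : 2 ≤ 4)).bq ζ hζ).1
  have i2 := (hlimC L).mul (hlim4 hInt L hG dB.smooth (dB.mono (by norm_num : 2 ≤ 4)).bq hζ)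
  have i3 := i1.sub i2
  rw [mul_zero, sub_zero] at i3
  refine i3.congr fun n => ?_
  have e : ∀ z, ζ z * ((h n : ℂ) * D σ (j + m) (fun z => E σ h φ j n z * E σ h φ m n z) z)
      = (ζ z * (E σ h φ (j + 1) n z * E σ h φ m n z) + ζ z * (E σ h φ j n z * E σ h φ (m + 1) n z))
        + (h n : ℂ) ^ 2 * (ζ z * (A1 n z * E σ h φ m n z + E σ h φ j n z * A2 n z)) := by
    intro z
    by_cases hz : z ∈ V
    · rw [D_mul hσ j m (cd_at (dj.smooth n) z) (cd_at (dm.smooth n) z)]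
      linear_combination ζ z * E σ h φ m n z * h1 n z hz + ζ z * E σ h φ j n z * h2 n z hz
    · rw [zero_off hζ hz]; ring
  have k1 : Integrable (fun z => ζ z * (E σ h φ (j + 1) n z * E σ h φ m n z)) :=
    hζ.integrable_mul L.op ((dj1.smooth n).mul (dm.smooth n)).continuous.continuousOn
  have k2 : Integrable (fun z => ζ z * (E σ h φ j n z * E σ h φ (m + 1) n z)) :=
    hζ.integrable_mul L.op ((dj.smooth n).mul (dm1.smooth n)).continuous.continuousOn
  have k3 : Integrable (fun z => ζ z * (A1 n z * E σ h φ m n z + E σ h φ j n z * A2 n z)) :=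
    hζ.integrable_mul L.op (dB.smooth n).continuous.continuousOn
  have k12 : Integrable (fun z => ζ z * (E σ h φ (j + 1) n z * E σ h φ m n z)
      + ζ z * (E σ h φ j n z * E σ h φ (m + 1) n z)) := k1.add k2
  unfold I2
  simp only [e]
  rw [integral_add k12 (k3.const_mul _), integral_add k1 k2, integral_const_mul]
  ring

/-- the case of spin `k ≥ 1` -/
lemma zero_pos (hInt : StmtInt) (hJ : StmtJetA) (hJB : StmtJetB) (L : Loc V σ h φ)
    (hG : Grow V h φ) {ζ : ℂ → ℂ} (hζ : Test V ζ) (k : ℕ) (hk : 1 ≤ k) :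
    Tendsto (I2 σ h φ ζ 0 k) atTop (𝓝 0) := by
  have hσ := L.sm
  obtain ⟨A, hA, hE⟩ := hJB V σ h φ L k 0
  obtain ⟨dk, -, -⟩ := hJ V σ h φ L k
  have dφ : Dom V h φ 1 φ := Dom.phi L.smφ L.op
  have dB : Dom V h φ 2 (fun n z => φ n z * A n z) := dφ.mul L.op hA
  have i1 := L.mom k hk _ (test_mul hζ (contDiff_ex hσ (-(k : ℤ))))
  have i2 := hlim4 hInt L hG dB.smooth (dB.mono (by norm_num : 2 ≤ 4)).bq hζ
  have i3 := (i1.sub i2).const_mul ((2 : ℂ) ^ k)
  rw [sub_zero, mul_zero] at i3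
  refine i3.congr fun n => ?_
  have e0 : E σ h φ 0 = φ := rfl
  have c2 : (2 : ℂ) ^ k * (2 : ℂ)⁻¹ ^ k = 1 := by
    rw [← mul_pow]; norm_num
  have e : ∀ z, ζ z * (E σ h φ 0 n z * E σ h φ k n z)
      = (2 : ℂ) ^ k * (ζ z * ex σ (-(k : ℤ)) z * (φ n z * ((h n : ℂ) ^ k * dz^[k] (φ n) z)))
        - (2 : ℂ) ^ k * (h n : ℂ) * (ζ z * (φ n z * A n z)) := by
    intro z
    by_cases hz : z ∈ V
    · have h1 := hE n z hz
      have e1 : (-((k : ℤ) + ((0 : ℕ) : ℤ))) = -(k : ℤ) := by push_cast; ring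
      have e2 : ((k : ℤ) - ((0 : ℕ) : ℤ)) = (k : ℤ) := by push_cast; ring
      have e3 : W h φ k 0 n z = (h n : ℂ) ^ k * dz^[k] (φ n) z := rfl
      rw [e1, e2, e3, pow_zero, add_zero, mul_one] at h1
      rw [e0]
      linear_combination (-(2 : ℂ) ^ k * ζ z * φ n z) * h1
        - (ζ z * φ n z * E σ h φ k n z) * c2
    · rw [zero_off hζ hz]; ring
  have k1 : Integrable (fun z => ζ z * ex σ (-(k : ℤ)) z * (φ n z * ((h n : ℂ) ^ k * dz^[k] (φ n) z))) :=
    (test_mul hζ (contDiff_ex hσ (-(k : ℤ)))).integrable_mul L.op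
      ((L.smφ n).mul (contDiff_const.mul (contDiff_iter_dz (L.smφ n) k))).continuous.continuousOn
  have k2 : Integrable (fun z => ζ z * (φ n z * A n z)) :=
    hζ.integrable_mul L.op (dB.smooth n).continuous.continuousOn
  unfold I2
  simp only [e]
  rw [integral_sub (k1.const_mul _) (k2.const_mul _), integral_const_mul, integral_const_mul]
  ring

/-- the case of spin `0` against any spin -/
lemma zero_all (hInt : StmtInt) (hJ : StmtJetA) (hJB : StmtJetB) (L : Loc V σ h φ)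
    (hG : Grow V h φ) {ζ : ℂ → ℂ} (hζ : Test V ζ) (k : ℤ) :
    Tendsto (I2 σ h φ ζ 0 k) atTop (𝓝 (P 0 k * ∫ z, ζ z)) := by
  rcases lt_trichotomy k 0 with hk | hk | hk
  · obtain ⟨m, rfl⟩ : ∃ m : ℕ, k = -(m : ℤ) := ⟨(-k).toNat, by omega⟩
    have hm : 1 ≤ m := by omega
    have hP : P 0 (-(m : ℤ)) = 0 := by
      unfold P; rw [if_neg (by omega)]
    rw [hP, zero_mul]
    have i1 := zero_pos hInt hJ hJB L hG hζ.conj m hm
    have i2 := (((Complex.continuous_conj.tendsto (0 : ℂ)).comp i1)).const_mul ((-1 : ℂ) ^ m)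
    rw [map_zero, mul_zero] at i2
    refine i2.congr fun n => ?_
    show (-1 : ℂ) ^ m * (starRingEnd ℂ) (I2 σ h φ (fun z => (starRingEnd ℂ) (ζ z)) 0 m n) = _
    unfold I2
    rw [← integral_conj, ← integral_const_mul]
    refine integral_congr_ae (Filter.Eventually.of_forall fun z => ?_)
    have e0 : E σ h φ 0 = φ := rfl
    have e1 : E σ h φ (m : ℤ) = jet σ h φ m := rfl
    have e2 := congrFun (congrFun (JETA.E_neg L m) n) z
    show (-1 : ℂ) ^ m * (starRingEnd ℂ) ((starRingEnd ℂ) (ζ z) * (E σ h φ 0 n z * E σ h φ m n z))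
      = ζ z * (E σ h φ 0 n z * E σ h φ (-(m : ℤ)) n z)
    rw [e2, e0, e1, map_mul, map_mul, Complex.conj_conj, L.real n z]
    ring
  · subst hk
    have hP : P 0 0 = 1 := by unfold P; simp
    rw [hP, one_mul]
    exact L.mass ζ hζ
  · obtain ⟨m, rfl⟩ : ∃ m : ℕ, k = (m : ℤ) := ⟨k.toNat, by omega⟩
    have hP : P 0 (m : ℤ) = 0 := by
      unfold P; rw [if_neg (by omega)]
    rw [hP, zero_mul]
    exact zero_pos hInt hJ hJB L hG hζ m (by omega)

lemma P_succ (j m : ℤ) : P (j + 1) m = - P j (m + 1) := by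
  unfold P
  by_cases hjm : j + 1 + m = 0
  · rw [if_pos hjm, if_pos (by omega), zpow_add_one₀ (by norm_num)]; ring
  · rw [if_neg hjm, if_neg (by omega)]; ring

end TWO

open TWO in
theorem stmtTwo (hGro : StmtGro) (hInt : StmtInt) (hIbp : StmtIbp) (hJetA : StmtJetA)
    (hJetB : StmtJetB) : StmtTwo := by
  intro V σ h φ L j m ζ hζ
  have hG := hGro V σ h φ L
  have hr := rec_step hInt hIbp hJetA L hG hζ
  have h0 := zero_all hInt hJetA hJetB L hG hζ
  have key : ∀ j : ℤ, ∀ m : ℤ, Tendsto (I2 σ h φ ζ j m) atTop (𝓝 (P j m * ∫ z, ζ z)) := by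
    intro j
    induction j using Int.induction_on with
    | zero => exact h0
    | succ j ih =>
      intro m
      have i1 := (hr j m).sub (ih (m + 1))
      rw [zero_sub] at i1
      rw [P_succ, neg_mul]
      refine i1.congr fun n => ?_
      ring
    | pred j ih =>
      intro m
      have i1 := (hr (-(j : ℤ) - 1) (m - 1)).sub (ih (m - 1))
      rw [zero_sub] at i1
      have e1 : -(j : ℤ) - 1 + 1 = -(j : ℤ) := by ring
      have e2 : m - 1 + 1 = m := by ring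
      have e3 := P_succ (-(j : ℤ) - 1) (m - 1)
      rw [e1, e2] at e3
      rw [e1, e2, e3, neg_mul, neg_neg] at i1
      refine i1.congr fun n => ?_
      ring
  exact key j m

end

end QJ
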