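import Pool.Agent.QJ.Stmts
import Pool.Agent.QJ.Dom
import Pool.Agent.QJ.FOU
import Pool.Agent.QJ.TWO
import Pool.Agent.Lib_helper67.QE.JetJ

/-!
The three-jet integrals tend to zero.
-/

open Complex MeasureTheory Filter Topology Set
open scoped ContDiff

namespace QJ

open QE

noncomputable section

namespace CUB

variable {V : Set ℂ} {σ : ℂ → ℝ} {h : ℕ → ℝ} {φ : ℕ → ℂ → ℂ}

lemma smE (L : Loc V σ h φ) (j : ℤ) (n : ℕ) : ContDiff ℝ ∞ (E σ h φ j n) :=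
  (stmtJetA V σ h φ L j).1.smooth n

lemma conj_E (L : Loc V σ h φ) (j : ℤ) (n : ℕ) (z : ℂ) :
    (starRingEnd ℂ) (E σ h φ j n z) = (-1 : ℂ) ^ j * E σ h φ (-j) n z := by
  obtain ⟨m, rfl | rfl⟩ := j.eq_nat_or_neg
  · have e1 := congrFun (congrFun (JETA.E_neg L m) n) z
    have e2 : E σ h φ (m : ℤ) n z = jet σ h φ m n z := rfl
    rw [e1, e2, zpow_natCast, ← mul_assoc, ← mul_pow]
    norm_num
  · have e1 := congrFun (congrFun (JETA.E_neg L m) n) z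
    have e2 : E σ h φ (m : ℤ) n z = jet σ h φ m n z := rfl
    rw [e1, neg_neg, e2, map_mul, Complex.conj_conj, map_pow, map_neg, map_one, zpow_neg,
      zpow_natCast, ← inv_pow, inv_neg, inv_one]

/-! ### Step 1 -/

lemma class3 (hIfo : StmtIfo) (hAlt : StmtAlt) (L : Loc V σ h φ) {ζ : ℂ → ℂ} (hζ : Test V ζ)
    (a b c : ℤ) (habc : a + b + c = 0) :
    Tendsto (fun n => E3 σ h φ ζ a b c n - cl3 b c * E3 σ h φ ζ 0 0 0 n) atTop (𝓝 0) := by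
  obtain ⟨-, hup, hdn⟩ := hIfo V σ h φ L ζ hζ
  let e : ℤ → ℤ → ℤ → (ℕ → ℂ) ⧸ FOU.nul := fun a b c => FOU.nul.mkQ (E3 σ h φ ζ a b c)
  have s1 : ∀ a b c, E3 σ h φ ζ b a c = E3 σ h φ ζ a b c := by
    intro a b c
    funext n
    unfold E3
    refine integral_congr_ae (Filter.Eventually.of_forall fun z => ?_)
    show ζ z * (E σ h φ b n z * E σ h φ a n z * E σ h φ c n z) = _
    ring
  have s2 : ∀ a b c, E3 σ h φ ζ a c b = E3 σ h φ ζ a b c := by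
    intro a b c
    funext n
    unfold E3
    refine integral_congr_ae (Filter.Eventually.of_forall fun z => ?_)
    show ζ z * (E σ h φ a n z * E σ h φ c n z * E σ h φ b n z) = _
    ring
  have h1 := hAlt _ e (fun a b c => by show FOU.nul.mkQ _ = FOU.nul.mkQ _; rw [s1])
    (fun a b c => by show FOU.nul.mkQ _ = FOU.nul.mkQ _; rw [s2])
    (fun a b c _ => by
      show FOU.nul.mkQ _ + FOU.nul.mkQ _ + FOU.nul.mkQ _ = 0
      rw [← map_add, ← map_add, Submodule.mkQ_apply, Submodule.Quotient.mk_eq_zero]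
      exact hup a b c)
    (fun a b c _ => by
      show FOU.nul.mkQ _ + FOU.nul.mkQ _ + FOU.nul.mkQ _ = 0
      rw [← map_add, ← map_add, Submodule.mkQ_apply, Submodule.Quotient.mk_eq_zero]
      exact hdn a b c) a b c habc
  have h2 : FOU.nul.mkQ (E3 σ h φ ζ a b c - cl3 b c • E3 σ h φ ζ 0 0 0) = 0 := by
    rw [map_sub, map_smul, sub_eq_zero]
    exact h1
  rw [Submodule.mkQ_apply, Submodule.Quotient.mk_eq_zero] at h2
  exact h2

/-! ### Step 3 -/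

/-- the inner sum -/
def X (σ : ℂ → ℝ) (h : ℕ → ℝ) (φ : ℕ → ℂ → ℂ) (w : ℂ) (N c n : ℕ) (z : ℂ) : ℂ :=
  ∑ b ∈ Finset.range N, w ^ (b : ℤ) * (E σ h φ (-(b : ℤ) - c) n z * E σ h φ b n z)

/-- the outer sum -/
def S (σ : ℂ → ℝ) (h : ℕ → ℝ) (φ : ℕ → ℂ → ℂ) (w : ℂ) (N n : ℕ) (z : ℂ) : ℂ :=
  ∑ c ∈ Finset.range N, w ^ (-(c : ℤ)) * (E σ h φ c n z * X σ h φ w N c n z)

lemma cont_X (L : Loc V σ h φ) (w : ℂ) (N c n : ℕ) : Continuous (X σ h φ w N c n) := by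
  unfold X
  exact continuous_finsetSum _ fun b _ => continuous_const.mul
    ((smE L _ n).continuous.mul (smE L _ n).continuous)

lemma cont_S (L : Loc V σ h φ) (w : ℂ) (N n : ℕ) : Continuous (S σ h φ w N n) := by
  unfold S
  exact continuous_finsetSum _ fun c _ => continuous_const.mul
    ((smE L _ n).continuous.mul (cont_X L w N c n))

lemma normsq_E (L : Loc V σ h φ) (c n : ℕ) (z : ℂ) :
    ((‖E σ h φ c n z‖ ^ 2 : ℝ) : ℂ) = (-1 : ℂ) ^ c * (E σ h φ c n z * E σ h φ (-(c : ℤ)) n z) := by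
  have h1 := Complex.mul_conj' (E σ h φ c n z)
  rw [conj_E L, zpow_natCast] at h1
  push_cast
  rw [← h1]
  ring

lemma normsq_X (L : Loc V σ h φ) {w : ℂ} (hw : (starRingEnd ℂ) w = w⁻¹) (hw0 : w ≠ 0)
    (N c n : ℕ) (z : ℂ) :
    ((‖X σ h φ w N c n z‖ ^ 2 : ℝ) : ℂ) = ∑ b ∈ Finset.range N, ∑ b' ∈ Finset.range N,
      w ^ ((b : ℤ) - b') * (-1) ^ c * (E σ h φ (-(b : ℤ) - c) n z * E σ h φ b n z
        * E σ h φ ((b' : ℤ) + c) n z * E σ h φ (-(b' : ℤ)) n z) := by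
  have h1 := Complex.mul_conj' (X σ h φ w N c n z)
  have h2 : (starRingEnd ℂ) (X σ h φ w N c n z) = ∑ b' ∈ Finset.range N,
      w ^ (-(b' : ℤ)) * (-1) ^ c * (E σ h φ ((b' : ℤ) + c) n z * E σ h φ (-(b' : ℤ)) n z) := by
    unfold X
    rw [map_sum]
    refine Finset.sum_congr rfl fun b _ => ?_
    rw [map_mul, map_mul, conj_E L, conj_E L, map_zpow₀, hw, inv_zpow', neg_sub]
    have e1 : (-1 : ℂ) ^ (-(b : ℤ) - c) * (-1 : ℂ) ^ (b : ℤ) = (-1) ^ c := by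
      rw [← zpow_add₀ (by norm_num : (-1 : ℂ) ≠ 0), show -(b : ℤ) - c + b = -(c : ℤ) by ring,
        zpow_neg, zpow_natCast, ← inv_pow, inv_neg, inv_one]
    have e2 : (c : ℤ) - -(b : ℤ) = (b : ℤ) + c := by ring
    rw [e2, ← e1]
    ring
  push_cast
  rw [← h1, h2]
  unfold X
  rw [Finset.sum_mul_sum]
  refine Finset.sum_congr rfl fun b _ => Finset.sum_congr rfl fun b' _ => ?_
  rw [sub_eq_add_neg (b : ℤ) (b' : ℤ), zpow_add₀ hw0]
  ring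

lemma int_sum {ζ : ℂ → ℂ} (hV : IsOpen V) (hζ : Test V ζ) {ι : Type} (s : Finset ι) (k : ι → ℂ)
    (f : ι → ℂ → ℂ) (hf : ∀ i, Continuous (f i)) :
    ∫ z, ∑ i ∈ s, k i * (ζ z * f i z) = ∑ i ∈ s, k i * ∫ z, ζ z * f i z := by
  rw [integral_finsetSum]
  · exact Finset.sum_congr rfl fun i _ => integral_const_mul _ _
  · intro i _
    exact (hζ.integrable_mul hV (hf i).continuousOn).const_mul _

lemma int_sum2 {ζ : ℂ → ℂ} (hV : IsOpen V) (hζ : Test V ζ) (s t : Finset ℕ) (k : ℕ → ℕ → ℂ)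
    (f : ℕ → ℕ → ℂ → ℂ) (hf : ∀ i j, Continuous (f i j)) :
    ∫ z, ∑ i ∈ s, ∑ j ∈ t, k i j * (ζ z * f i j z)
      = ∑ i ∈ s, ∑ j ∈ t, k i j * ∫ z, ζ z * f i j z := by
  have h1 := int_sum hV hζ (s ×ˢ t) (fun p => k p.1 p.2) (fun p => f p.1 p.2)
    (fun p => hf p.1 p.2)
  simp only [Finset.sum_product] at h1
  exact h1

lemma int_sum3 {ζ : ℂ → ℂ} (hV : IsOpen V) (hζ : Test V ζ) (s t u : Finset ℕ)
    (k : ℕ → ℕ → ℕ → ℂ) (f : ℕ → ℕ → ℕ → ℂ → ℂ) (hf : ∀ i j l, Continuous (f i j l)) :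
    ∫ z, ∑ i ∈ s, ∑ j ∈ t, ∑ l ∈ u, k i j l * (ζ z * f i j l z)
      = ∑ i ∈ s, ∑ j ∈ t, ∑ l ∈ u, k i j l * ∫ z, ζ z * f i j l z := by
  have h1 := int_sum hV hζ (s ×ˢ (t ×ˢ u)) (fun p => k p.1 p.2.1 p.2.2)
    (fun p => f p.1 p.2.1 p.2.2) (fun p => hf p.1 p.2.1 p.2.2)
  simp only [Finset.sum_product] at h1
  exact h1

lemma int_S (L : Loc V σ h φ) {ζ : ℂ → ℂ} (hζ : Test V ζ) {w : ℂ} (hw0 : w ≠ 0) (N n : ℕ) :
    ∫ z, ζ z * S σ h φ w N n z = ∑ b ∈ Finset.range N, ∑ c ∈ Finset.range N,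
      w ^ ((b : ℤ) - c) * E3 σ h φ ζ (-(b : ℤ) - c) b c n := by
  unfold E3
  rw [← int_sum2 L.op hζ (Finset.range N) (Finset.range N) (fun b c => w ^ ((b : ℤ) - c))
    (fun b c z => E σ h φ (-(b : ℤ) - c) n z * E σ h φ b n z * E σ h φ c n z)
    (fun b c => ((smE L _ n).continuous.mul (smE L _ n).continuous).mul (smE L _ n).continuous)]
  refine integral_congr_ae (Filter.Eventually.of_forall fun z => ?_)
  show ζ z * S σ h φ w N n z = _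
  unfold S X
  simp only [Finset.mul_sum]
  rw [Finset.sum_comm]
  refine Finset.sum_congr rfl fun b _ => Finset.sum_congr rfl fun c _ => ?_
  rw [sub_eq_add_neg (b : ℤ) (c : ℤ), zpow_add₀ hw0]
  ring

/-- the majorant -/
def R (σ : ℂ → ℝ) (h : ℕ → ℝ) (φ : ℕ → ℂ → ℂ) (ζ : ℂ → ℂ) (w : ℂ) (t : ℝ) (N n : ℕ) : ℂ :=
  (1 / 2) * ((t : ℂ) * (∑ c ∈ Finset.range N, (-1) ^ c
      * ∫ z, ζ z * (E σ h φ c n z * E σ h φ (-(c : ℤ)) n z))
    + (t : ℂ)⁻¹ * ∑ c ∈ Finset.range N, ∑ b ∈ Finset.range N, ∑ b' ∈ Finset.range N,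
      w ^ ((b : ℤ) - b') * (-1) ^ c
        * E4 σ h φ ζ (-(b : ℤ) - c) b ((b' : ℤ) + c) (-(b' : ℤ)) n)

lemma norm_w {w : ℂ} (hw : (starRingEnd ℂ) w = w⁻¹) (hw0 : w ≠ 0) : ‖w‖ = 1 := by
  have h1 := Complex.mul_conj' w
  rw [hw, mul_inv_cancel₀ hw0] at h1
  have h2 : (‖w‖ : ℝ) ^ 2 = 1 := by exact_mod_cast h1.symm
  have h3 := norm_nonneg w
  nlinarith

lemma two_mul_le {t a b : ℝ} (ht : 0 < t) : a * b ≤ (t * a ^ 2 + t⁻¹ * b ^ 2) / 2 := by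
  have h1 : t * (a - t⁻¹ * b) ^ 2 = t * a ^ 2 + t⁻¹ * b ^ 2 - 2 * (a * b) := by
    field_simp
    ring
  have h2 : 0 ≤ t * (a - t⁻¹ * b) ^ 2 := by positivity
  linarith

lemma main_ineq (L : Loc V σ h φ) {r : ℂ → ℝ} (hζ : Test V (fun z => (r z : ℂ)))
    (hr : ∀ z, 0 ≤ r z) {w : ℂ} (hw : (starRingEnd ℂ) w = w⁻¹) (hw0 : w ≠ 0) {t : ℝ}
    (ht : 0 < t) (N n : ℕ) :
    ‖∫ z, (r z : ℂ) * S σ h φ w N n z‖ ≤ ‖R σ h φ (fun z => (r z : ℂ)) w t N n‖ := by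
  have hrc : Continuous r := by
    have h1 := Complex.continuous_re.comp hζ.smooth.continuous
    exact h1
  have hrs : HasCompactSupport r := by
    have h1 := hζ.supp.comp_left (g := Complex.re) Complex.zero_re
    exact h1
  set f : ℂ → ℝ := fun z => r z * ((t * ∑ c ∈ Finset.range N, ‖E σ h φ c n z‖ ^ 2
    + t⁻¹ * ∑ c ∈ Finset.range N, ‖X σ h φ w N c n z‖ ^ 2) / 2) with hf
  have hfc : Continuous f := by
    refine hrc.mul (Continuous.div_const ((continuous_const.mul (continuous_finsetSum _ fun c _ =>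
      ((smE L _ n).continuous.norm.pow 2))).add (continuous_const.mul
        (continuous_finsetSum _ fun c _ => ((cont_X L w N c n).norm.pow 2)))) 2)
  have hfi : Integrable f := hfc.integrable_of_hasCompactSupport hrs.mul_right
  have hpt : ∀ z, ‖(r z : ℂ) * S σ h φ w N n z‖ ≤ f z := by
    intro z
    rw [norm_mul, Complex.norm_real, Real.norm_of_nonneg (hr z)]
    refine mul_le_mul_of_nonneg_left ?_ (hr z)
    rw [Finset.mul_sum, Finset.mul_sum, ← Finset.sum_add_distrib, Finset.sum_div]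
    unfold S
    refine (norm_sum_le _ _).trans (Finset.sum_le_sum fun c _ => ?_)
    rw [norm_mul, norm_zpow, norm_w hw hw0, one_zpow, one_mul, norm_mul]
    exact two_mul_le ht
  have hSi : Integrable (fun z => (r z : ℂ) * S σ h φ w N n z) :=
    hζ.integrable_mul L.op (cont_S L w N n).continuousOn
  have h1 : ‖∫ z, (r z : ℂ) * S σ h φ w N n z‖ ≤ ∫ z, f z :=
    (norm_integral_le_integral_norm _).trans (integral_mono hSi.norm hfi hpt)
  have h2 : ((∫ z, f z : ℝ) : ℂ) = R σ h φ (fun z => (r z : ℂ)) w t N n := by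
    rw [← integral_complex_ofReal]
    have e : ∀ z, ((f z : ℝ) : ℂ) = (1 / 2) * ((t : ℂ) * (∑ c ∈ Finset.range N, (-1) ^ c
        * ((r z : ℂ) * (E σ h φ c n z * E σ h φ (-(c : ℤ)) n z)))
      + (t : ℂ)⁻¹ * ∑ c ∈ Finset.range N, ∑ b ∈ Finset.range N, ∑ b' ∈ Finset.range N,
        w ^ ((b : ℤ) - b') * (-1) ^ c
          * ((r z : ℂ) * (E σ h φ (-(b : ℤ) - c) n z * E σ h φ b n z
        * E σ h φ ((b' : ℤ) + c) n z * E σ h φ (-(b' : ℤ)) n z))) := by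
      intro z
      have e1 : ((∑ c ∈ Finset.range N, ‖E σ h φ c n z‖ ^ 2 : ℝ) : ℂ)
          = ∑ c ∈ Finset.range N, (-1) ^ c * (E σ h φ c n z * E σ h φ (-(c : ℤ)) n z) := by
        rw [Complex.ofReal_sum]
        exact Finset.sum_congr rfl fun c _ => normsq_E L c n z
      have e2 : ((∑ c ∈ Finset.range N, ‖X σ h φ w N c n z‖ ^ 2 : ℝ) : ℂ)
          = ∑ c ∈ Finset.range N, ∑ b ∈ Finset.range N, ∑ b' ∈ Finset.range N,
            w ^ ((b : ℤ) - b') * (-1) ^ c * (E σ h φ (-(b : ℤ) - c) n z * E σ h φ b n z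
            * E σ h φ ((b' : ℤ) + c) n z * E σ h φ (-(b' : ℤ)) n z) := by
        rw [Complex.ofReal_sum]
        exact Finset.sum_congr rfl fun c _ => normsq_X L hw hw0 N c n z
      have e3 : ((f z : ℝ) : ℂ) = (r z : ℂ) * (((t : ℂ)
          * ((∑ c ∈ Finset.range N, ‖E σ h φ c n z‖ ^ 2 : ℝ) : ℂ)
          + (t : ℂ)⁻¹ * ((∑ c ∈ Finset.range N, ‖X σ h φ w N c n z‖ ^ 2 : ℝ) : ℂ)) / 2) := by
        rw [hf]
        simp only [Complex.ofReal_mul, Complex.ofReal_add, Complex.ofReal_div,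
          Complex.ofReal_inv, Complex.ofReal_ofNat]
      have e4 : (∑ c ∈ Finset.range N, (-1 : ℂ) ^ c
          * ((r z : ℂ) * (E σ h φ c n z * E σ h φ (-(c : ℤ)) n z)))
          = (r z : ℂ) * ∑ c ∈ Finset.range N, (-1) ^ c
            * (E σ h φ c n z * E σ h φ (-(c : ℤ)) n z) := by
        rw [Finset.mul_sum]
        exact Finset.sum_congr rfl fun c _ => by ring
      have e5 : (∑ c ∈ Finset.range N, ∑ b ∈ Finset.range N, ∑ b' ∈ Finset.range N,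
          w ^ ((b : ℤ) - b') * (-1) ^ c
          * ((r z : ℂ) * (E σ h φ (-(b : ℤ) - c) n z * E σ h φ b n z
          * E σ h φ ((b' : ℤ) + c) n z * E σ h φ (-(b' : ℤ)) n z)))
          = (r z : ℂ) * ∑ c ∈ Finset.range N, ∑ b ∈ Finset.range N, ∑ b' ∈ Finset.range N,
            w ^ ((b : ℤ) - b') * (-1) ^ c * (E σ h φ (-(b : ℤ) - c) n z * E σ h φ b n z
            * E σ h φ ((b' : ℤ) + c) n z * E σ h φ (-(b' : ℤ)) n z) := by
        rw [Finset.mul_sum]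
        refine Finset.sum_congr rfl fun c _ => ?_
        rw [Finset.mul_sum]
        refine Finset.sum_congr rfl fun b _ => ?_
        rw [Finset.mul_sum]
        exact Finset.sum_congr rfl fun b' _ => by ring
      rw [e3, e4, e5, e1, e2]
      ring
    simp only [e]
    have c1 : ∀ c : ℕ, Continuous (fun z => E σ h φ c n z * E σ h φ (-(c : ℤ)) n z) := fun c =>
      (smE L _ n).continuous.mul (smE L _ n).continuous
    have c2 : ∀ c b b' : ℕ, Continuous (fun z => E σ h φ (-(b : ℤ) - c) n z * E σ h φ b n z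
        * E σ h φ ((b' : ℤ) + c) n z * E σ h φ (-(b' : ℤ)) n z) := fun c b b' =>
      (((smE L _ n).continuous.mul (smE L _ n).continuous).mul (smE L _ n).continuous).mul
        (smE L _ n).continuous
    have i1 : Integrable (fun z => (t : ℂ) * (∑ c ∈ Finset.range N, (-1 : ℂ) ^ c
        * ((r z : ℂ) * (E σ h φ c n z * E σ h φ (-(c : ℤ)) n z)))) :=
      (integrable_finsetSum _ fun c _ =>
        (hζ.integrable_mul L.op (c1 c).continuousOn).const_mul _).const_mul _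
    have i2 : Integrable (fun z => (t : ℂ)⁻¹ * ∑ c ∈ Finset.range N, ∑ b ∈ Finset.range N,
        ∑ b' ∈ Finset.range N, w ^ ((b : ℤ) - b') * (-1) ^ c
          * ((r z : ℂ) * (E σ h φ (-(b : ℤ) - c) n z * E σ h φ b n z
        * E σ h φ ((b' : ℤ) + c) n z * E σ h φ (-(b' : ℤ)) n z))) :=
      (integrable_finsetSum _ fun c _ => integrable_finsetSum _ fun b _ =>
        integrable_finsetSum _ fun b' _ =>
        (hζ.integrable_mul L.op (c2 c b b').continuousOn).const_mul _).const_mul _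
    rw [integral_const_mul, integral_add i1 i2, integral_const_mul, integral_const_mul,
      int_sum L.op hζ _ _ _ c1, int_sum3 L.op hζ _ _ _ (fun c b b' => w ^ ((b : ℤ) - b') * (-1) ^ c)
        (fun c b b' z => E σ h φ (-(b : ℤ) - c) n z * E σ h φ b n z
        * E σ h φ ((b' : ℤ) + c) n z * E σ h φ (-(b' : ℤ)) n z) c2]
    rfl
  calc ‖∫ z, (r z : ℂ) * S σ h φ w N n z‖ ≤ ∫ z, f z := h1
    _ ≤ |∫ z, f z| := le_abs_self _
    _ = ‖R σ h φ (fun z => (r z : ℂ)) w t N n‖ := by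
      rw [← h2, Complex.norm_real, Real.norm_eq_abs]

lemma lim_one (hTwo : StmtTwo) (L : Loc V σ h φ) {ζ : ℂ → ℂ} (hζ : Test V ζ) (N : ℕ) :
    Tendsto (fun n => ∑ c ∈ Finset.range N, (-1 : ℂ) ^ c
      * ∫ z, ζ z * (E σ h φ c n z * E σ h φ (-(c : ℤ)) n z)) atTop (𝓝 (N * ∫ z, ζ z)) := by
  have h1 : Tendsto (fun n => ∑ c ∈ Finset.range N, (-1 : ℂ) ^ c
      * ∫ z, ζ z * (E σ h φ c n z * E σ h φ (-(c : ℤ)) n z)) atTop
      (𝓝 (∑ c ∈ Finset.range N, (-1 : ℂ) ^ c * (P c (-(c : ℤ)) * ∫ z, ζ z))) :=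
    tendsto_finsetSum _ fun c _ => (hTwo V σ h φ L c (-(c : ℤ)) ζ hζ).const_mul _
  have h2 : ∑ c ∈ Finset.range N, (-1 : ℂ) ^ c * (P c (-(c : ℤ)) * ∫ z, ζ z)
      = N * ∫ z, ζ z := by
    have h3 : ∀ c ∈ Finset.range N, (-1 : ℂ) ^ c * (P c (-(c : ℤ)) * ∫ z, ζ z) = ∫ z, ζ z := by
      intro c _
      unfold P
      rw [if_pos (by ring), zpow_natCast, ← mul_assoc, ← mul_pow]
      norm_num
    rw [Finset.sum_congr rfl h3, Finset.sum_const, Finset.card_range, nsmul_eq_mul]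
  rwa [h2] at h1

lemma lim_two (hFou : StmtFou) (L : Loc V σ h φ) {ζ : ℂ → ℂ} (hζ : Test V ζ) {w : ℂ} {N : ℕ}
    (s2 : ∑ c ∈ Finset.range N, ∑ b ∈ Finset.range N, ∑ b' ∈ Finset.range N,
      w ^ ((b : ℤ) - b') * (-1) ^ c * cl4 (-(b : ℤ) - c) b ((b' : ℤ) + c) (-(b' : ℤ)) = 0)
    (s3 : ∑ c ∈ Finset.range N, ∑ b ∈ Finset.range N, ∑ b' ∈ Finset.range N,
      w ^ ((b : ℤ) - b') * (-1) ^ c * wk (-(b : ℤ) - c) b ((b' : ℤ) + c) (-(b' : ℤ))
        = (N : ℂ) ^ 2 + 1) :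
    Tendsto (fun n => ∑ c ∈ Finset.range N, ∑ b ∈ Finset.range N, ∑ b' ∈ Finset.range N,
      w ^ ((b : ℤ) - b') * (-1) ^ c
        * E4 σ h φ ζ (-(b : ℤ) - c) b ((b' : ℤ) + c) (-(b' : ℤ)) n) atTop
      (𝓝 (((N : ℂ) ^ 2 + 1) * ∫ z, ζ z)) := by
  have h1 : Tendsto (fun n => ∑ c ∈ Finset.range N, ∑ b ∈ Finset.range N,
      ∑ b' ∈ Finset.range N, w ^ ((b : ℤ) - b') * (-1) ^ c
        * (E4 σ h φ ζ (-(b : ℤ) - c) b ((b' : ℤ) + c) (-(b' : ℤ)) n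
          - (wk (-(b : ℤ) - c) b ((b' : ℤ) + c) (-(b' : ℤ)) * (∫ z, ζ z)
        + cl4 (-(b : ℤ) - c) b ((b' : ℤ) + c) (-(b' : ℤ))
          * (E4 σ h φ ζ 0 0 0 0 n - 3 * ∫ z, ζ z)))) atTop
      (𝓝 (∑ c ∈ Finset.range N, ∑ b ∈ Finset.range N,
      ∑ b' ∈ Finset.range N, w ^ ((b : ℤ) - b') * (-1) ^ c * 0)) :=
    tendsto_finsetSum _ fun c _ => tendsto_finsetSum _ fun b _ => tendsto_finsetSum _ fun b' _ =>
      (hFou V σ h φ L ζ hζ _ _ _ _ (by ring)).const_mul _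
  simp only [mul_zero, Finset.sum_const_zero] at h1
  have h2 := h1.add_const (((N : ℂ) ^ 2 + 1) * ∫ z, ζ z)
  rw [zero_add] at h2
  refine h2.congr fun n => ?_
  simp only [mul_sub, mul_add, Finset.sum_sub_distrib, Finset.sum_add_distrib, ← mul_assoc,
    ← Finset.sum_mul]
  rw [s2, s3]
  ring

lemma lim_S (hIfo : StmtIfo) (hAlt : StmtAlt) (L : Loc V σ h φ) {ζ : ℂ → ℂ} (hζ : Test V ζ)
    {w : ℂ} (hw0 : w ≠ 0) {N : ℕ}
    (s1 : ∑ b ∈ Finset.range N, ∑ c ∈ Finset.range N,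
      w ^ ((b : ℤ) - c) * cl3 (b : ℤ) c = (N : ℂ) ^ 2 / 2) :
    Tendsto (fun n => (∫ z, ζ z * S σ h φ w N n z)
      - (N : ℂ) ^ 2 / 2 * E3 σ h φ ζ 0 0 0 n) atTop (𝓝 0) := by
  have h1 : Tendsto (fun n => ∑ b ∈ Finset.range N, ∑ c ∈ Finset.range N,
      w ^ ((b : ℤ) - c) * (E3 σ h φ ζ (-(b : ℤ) - c) b c n
        - cl3 (b : ℤ) c * E3 σ h φ ζ 0 0 0 n)) atTop
      (𝓝 (∑ b ∈ Finset.range N, ∑ c ∈ Finset.range N, w ^ ((b : ℤ) - c) * 0)) :=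
    tendsto_finsetSum _ fun b _ => tendsto_finsetSum _ fun c _ =>
      (class3 hIfo hAlt L hζ _ _ _ (by ring)).const_mul _
  simp only [mul_zero, Finset.sum_const_zero] at h1
  refine h1.congr fun n => ?_
  rw [int_S L hζ hw0]
  simp only [mul_sub, Finset.sum_sub_distrib, ← mul_assoc, ← Finset.sum_mul]
  rw [s1]

lemma nonneg_case (hTwo : StmtTwo) (hIfo : StmtIfo) (hAlt : StmtAlt) (hFou : StmtFou)
    (hSum : StmtSum) (L : Loc V σ h φ) {r : ℂ → ℝ} (hζ : Test V (fun z => (r z : ℂ)))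
    (hr : ∀ z, 0 ≤ r z) : Tendsto (E3 σ h φ (fun z => (r z : ℂ)) 0 0 0) atTop (𝓝 0) := by
  set w : ℂ := Complex.exp (2 * Real.pi * Complex.I / 3) with hwdef
  have hw0 : w ≠ 0 := Complex.exp_ne_zero _
  have hw : (starRingEnd ℂ) w = w⁻¹ := by
    rw [hwdef, ← Complex.exp_conj, ← Complex.exp_neg]
    congr 1
    simp only [map_div₀, map_mul, Complex.conj_ofReal, Complex.conj_I, map_ofNat]
    ring
  set I₀ : ℂ := ∫ z, (r z : ℂ) with hI
  rw [Metric.tendsto_atTop]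
  intro ε hε
  obtain ⟨m, hm⟩ := exists_nat_gt (‖I₀‖ / ε)
  have hm0 : (0 : ℝ) < m := lt_of_le_of_lt (by positivity) hm
  have hmI : ‖I₀‖ < m * ε := (div_lt_iff₀ hε).1 hm
  have hm1 : 0 < m := by exact_mod_cast hm0
  have hm1' : (1 : ℝ) ≤ m := by exact_mod_cast hm1
  set N : ℕ := 36 * m ^ 2 with hN
  have hN0 : 0 < N := by positivity
  have hN6 : 6 ∣ N := ⟨6 * m ^ 2, by rw [hN]; ring⟩
  obtain ⟨s1, s2, s3⟩ := hSum w N hwdef hN6 hN0
  set t : ℝ := 6 * m with ht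
  have ht0 : 0 < t := by positivity
  have l1 := lim_one hTwo L hζ N
  have l2 := lim_two hFou L hζ s2 s3
  have l3 := lim_S hIfo hAlt L hζ hw0 s1
  have lR : Tendsto (R σ h φ (fun z => (r z : ℂ)) w t N) atTop
      (𝓝 ((1 / 2) * ((t : ℂ) * (N * I₀) + (t : ℂ)⁻¹ * (((N : ℂ) ^ 2 + 1) * I₀)))) :=
    ((l1.const_mul _).add (l2.const_mul _)).const_mul _
  have l4 := lR.norm.add l3.norm
  rw [norm_zero, add_zero] at l4
  have hlim : ‖(1 / 2) * ((t : ℂ) * (N * I₀) + (t : ℂ)⁻¹ * (((N : ℂ) ^ 2 + 1) * I₀))‖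
      < 648 * m ^ 4 * ε := by
    have e1 : (1 / 2) * ((t : ℂ) * (N * I₀) + (t : ℂ)⁻¹ * (((N : ℂ) ^ 2 + 1) * I₀))
        = (((1 / 2) * (t * N + t⁻¹ * ((N : ℝ) ^ 2 + 1)) : ℝ) : ℂ) * I₀ := by
      push_cast; ring
    rw [e1, norm_mul, Complex.norm_real, Real.norm_of_nonneg (by positivity)]
    have e2 : (1 / 2) * (t * N + t⁻¹ * ((N : ℝ) ^ 2 + 1)) = 216 * (m : ℝ) ^ 3 + 1 / (12 * m) := by
      rw [ht, hN]
      push_cast
      field_simp
      ring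
    rw [e2]
    have e3 : 216 * (m : ℝ) ^ 3 + 1 / (12 * m) ≤ 648 * (m : ℝ) ^ 3 := by
      have h1 : 1 / (12 * (m : ℝ)) ≤ 1 := by
        rw [div_le_one (by positivity)]; linarith
      have h2 : (1 : ℝ) ≤ (m : ℝ) ^ 3 := one_le_pow₀ hm1'
      linarith
    calc (216 * (m : ℝ) ^ 3 + 1 / (12 * m)) * ‖I₀‖ ≤ (648 * (m : ℝ) ^ 3) * ‖I₀‖ :=
          mul_le_mul_of_nonneg_right e3 (norm_nonneg _)
      _ < (648 * (m : ℝ) ^ 3) * (m * ε) := mul_lt_mul_of_pos_left hmI (by positivity)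
      _ = 648 * m ^ 4 * ε := by ring
  have hev := l4.eventually (gt_mem_nhds hlim)
  obtain ⟨n₀, hn₀⟩ := Filter.eventually_atTop.1 hev
  refine ⟨n₀, fun n hn => ?_⟩
  rw [dist_zero_right]
  have h1 := hn₀ n hn
  have h2 := main_ineq L hζ hr hw hw0 ht0 N n
  set T := E3 σ h φ (fun z => (r z : ℂ)) 0 0 0 n with hT
  have h3 : ‖(N : ℂ) ^ 2 / 2 * T‖ ≤ ‖∫ z, (r z : ℂ) * S σ h φ w N n z‖
      + ‖(∫ z, (r z : ℂ) * S σ h φ w N n z) - (N : ℂ) ^ 2 / 2 * T‖ := by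
    have e1 : (N : ℂ) ^ 2 / 2 * T = (∫ z, (r z : ℂ) * S σ h φ w N n z)
        - ((∫ z, (r z : ℂ) * S σ h φ w N n z) - (N : ℂ) ^ 2 / 2 * T) := by ring
    calc ‖(N : ℂ) ^ 2 / 2 * T‖ = ‖(∫ z, (r z : ℂ) * S σ h φ w N n z)
        - ((∫ z, (r z : ℂ) * S σ h φ w N n z) - (N : ℂ) ^ 2 / 2 * T)‖ := by rw [← e1]
      _ ≤ _ := norm_sub_le _ _
  have h4 : ‖(N : ℂ) ^ 2 / 2 * T‖ = 648 * (m : ℝ) ^ 4 * ‖T‖ := by
    have e1 : (N : ℂ) ^ 2 / 2 * T = ((648 * (m : ℝ) ^ 4 : ℝ) : ℂ) * T := by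
      rw [hN]; push_cast; ring
    rw [e1, norm_mul, Complex.norm_real, Real.norm_of_nonneg (by positivity)]
  have h5 : 648 * (m : ℝ) ^ 4 * ‖T‖ < 648 * m ^ 4 * ε := by
    rw [← h4]
    linarith
  exact lt_of_mul_lt_mul_left h5 (by positivity)

end CUB

open CUB in
theorem stmtCub (hGro : StmtGro) (hTwo : StmtTwo) (hIfo : StmtIfo) (hAlt : StmtAlt)
    (hFou : StmtFou) (hSum : StmtSum) : StmtCub := by
  intro V σ h φ L ζ hζ a b c habc
  have _ := hGro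
  have h0 : Tendsto (fun n => E3 σ h φ ζ 0 0 0 n) atTop (𝓝 0) := by
    refine Test.induct_nonneg L.op (F := fun n ζ => E3 σ h φ ζ 0 0 0 n) ?_ ?_ ?_ hζ
    · intro n ξ ξ' h1 h2
      exact Test.int_add L.op (((smE L 0 n).mul (smE L 0 n)).mul (smE L 0 n)).contDiffOn h1 h2
    · intro n k ξ _
      exact Test.int_smul k ξ
    · intro r h1 h2
      exact nonneg_case hTwo hIfo hAlt hFou hSum L h1 h2
  have h1 := (class3 hIfo hAlt L hζ a b c habc).add (h0.const_mul (cl3 b c))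
  rw [mul_zero, add_zero] at h1
  refine h1.congr fun n => ?_
  ring

end

end QJ
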