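import Pool.Agent.QJ.Stmts

/-!
Growth of the jets of quantum ergodic sequences, from the Morawetz estimate and the pointwise bound.
-/

open Complex MeasureTheory Filter Topology Set Metric
open scoped ContDiff Manifold

namespace QJ

open QE

noncomputable section

namespace GRO

/-! ### The real equation -/

theorem fderiv_ofReal {u : ℂ → ℝ} {z : ℂ} (hu : DifferentiableAt ℝ u z) (v : ℂ) :
    fderiv ℝ (fun w => (u w : ℂ)) z v = ((fderiv ℝ u z v : ℝ) : ℂ) := by
  have h : HasFDerivAt (fun w => (u w : ℂ)) (ofRealCLM.comp (fderiv ℝ u z)) z :=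
    (ofRealCLM.hasFDerivAt (x := u z)).comp z hu.hasFDerivAt
  rw [h.fderiv]
  rfl

theorem contDiff_d1 {u : ℂ → ℝ} (hu : ContDiff ℝ ∞ u) : ContDiff ℝ ∞ (d1 u) := by
  have h : ContDiff ℝ ∞ (fderiv ℝ u) := hu.fderiv_right (by simp)
  exact h.clm_apply contDiff_const

theorem contDiff_d2 {u : ℂ → ℝ} (hu : ContDiff ℝ ∞ u) : ContDiff ℝ ∞ (d2 u) := by
  have h : ContDiff ℝ ∞ (fderiv ℝ u) := hu.fderiv_right (by simp)
  exact h.clm_apply contDiff_const

theorem lap_eq {u : ℂ → ℝ} (hu : ContDiff ℝ ∞ u) (z : ℂ) :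
    4 * (dz (dzb (fun w => (u w : ℂ))) z).re = lap u z := by
  have hud : Differentiable ℝ u := hu.differentiable (by simp)
  have h1 : Differentiable ℝ (d1 u) := (contDiff_d1 hu).differentiable (by simp)
  have h2 : Differentiable ℝ (d2 u) := (contDiff_d2 hu).differentiable (by simp)
  have hF : dzb (fun w => (u w : ℂ)) =
      fun w => (1 / 2 : ℂ) * (((d1 u w : ℝ) : ℂ) + I * ((d2 u w : ℝ) : ℂ)) := by
    funext w
    unfold dzb d1 d2
    rw [fderiv_ofReal (hud w), fderiv_ofReal (hud w)]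
  have hd : ∀ v, fderiv ℝ (fun w => (1 / 2 : ℂ) * (((d1 u w : ℝ) : ℂ) + I * ((d2 u w : ℝ) : ℂ))) z v
      = (1 / 2) * (((fderiv ℝ (d1 u) z v : ℝ) : ℂ) + I * ((fderiv ℝ (d2 u) z v : ℝ) : ℂ)) := by
    intro v
    have e1 : HasFDerivAt (fun w => ((d1 u w : ℝ) : ℂ)) (ofRealCLM.comp (fderiv ℝ (d1 u) z)) z :=
      (ofRealCLM.hasFDerivAt (x := d1 u z)).comp z (h1 z).hasFDerivAt
    have e2 : HasFDerivAt (fun w => ((d2 u w : ℝ) : ℂ)) (ofRealCLM.comp (fderiv ℝ (d2 u) z)) z :=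
      (ofRealCLM.hasFDerivAt (x := d2 u z)).comp z (h2 z).hasFDerivAt
    have e3 := (e1.add (e2.const_mul I)).const_mul (1 / 2 : ℂ)
    have e4 : fderiv ℝ (fun w => (1 / 2 : ℂ) * (((d1 u w : ℝ) : ℂ) + I * ((d2 u w : ℝ) : ℂ))) z =
        (1 / 2 : ℂ) • (ofRealCLM.comp (fderiv ℝ (d1 u) z) + I • ofRealCLM.comp (fderiv ℝ (d2 u) z)) :=
      e3.fderiv
    rw [e4]
    simp [smul_eq_mul]
    ring
  rw [hF]
  have hdz : dz (fun w => (1 / 2 : ℂ) * (((d1 u w : ℝ) : ℂ) + I * ((d2 u w : ℝ) : ℂ))) z =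
      (1 / 2) * ((1 / 2) * (((fderiv ℝ (d1 u) z 1 : ℝ) : ℂ) + I * ((fderiv ℝ (d2 u) z 1 : ℝ) : ℂ)) -
        I * ((1 / 2) * (((fderiv ℝ (d1 u) z I : ℝ) : ℂ) + I * ((fderiv ℝ (d2 u) z I : ℝ) : ℂ)))) := by
    rw [← hd, ← hd]
    rfl
  rw [hdz]
  have hlap : lap u z = fderiv ℝ (d1 u) z 1 + fderiv ℝ (d2 u) z I := rfl
  rw [hlap]
  have hI : (1 / 2 : ℂ) * ((1 / 2) * (((fderiv ℝ (d1 u) z 1 : ℝ) : ℂ) + I * ((fderiv ℝ (d2 u) z 1 : ℝ) : ℂ)) -
        I * ((1 / 2) * (((fderiv ℝ (d1 u) z I : ℝ) : ℂ) + I * ((fderiv ℝ (d2 u) z I : ℝ) : ℂ)))) =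
      (((1 / 4) * (fderiv ℝ (d1 u) z 1 + fderiv ℝ (d2 u) z I) : ℝ) : ℂ) +
        (((1 / 4) * (fderiv ℝ (d2 u) z 1 - fderiv ℝ (d1 u) z I) : ℝ) : ℂ) * I := by
    push_cast
    linear_combination (-(1 / 4 : ℂ)) * ((fderiv ℝ (d2 u) z I : ℝ) : ℂ) * Complex.I_mul_I
  rw [hI, Complex.add_re, Complex.ofReal_re, Complex.re_ofReal_mul, Complex.I_re]
  ring

/-- the real part of the eigenfunction -/
def ru (φ : ℕ → ℂ → ℂ) (n : ℕ) (z : ℂ) : ℝ := (φ n z).re

theorem ru_eq {V : Set ℂ} {σ : ℂ → ℝ} {h : ℕ → ℝ} {φ : ℕ → ℂ → ℂ} (hL : Loc V σ h φ) (n : ℕ) :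
    φ n = fun z => ((ru φ n z : ℝ) : ℂ) := by
  funext z
  exact (Complex.conj_eq_iff_re.mp (hL.real n z)).symm

theorem norm_sq_eq {V : Set ℂ} {σ : ℂ → ℝ} {h : ℕ → ℝ} {φ : ℕ → ℂ → ℂ} (hL : Loc V σ h φ) (n : ℕ)
    (z : ℂ) : ‖φ n z‖ ^ 2 = ru φ n z ^ 2 := by
  have h1 : φ n z = ((ru φ n z : ℝ) : ℂ) := congrFun (ru_eq hL n) z
  rw [h1, Complex.norm_real, Real.norm_eq_abs, sq_abs]

theorem contDiff_ru {V : Set ℂ} {σ : ℂ → ℝ} {h : ℕ → ℝ} {φ : ℕ → ℂ → ℂ} (hL : Loc V σ h φ) (n : ℕ) :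
    ContDiff ℝ ∞ (ru φ n) := reCLM.contDiff.comp (hL.smφ n)

theorem ru_eig {V : Set ℂ} {σ : ℂ → ℝ} {h : ℕ → ℝ} {φ : ℕ → ℂ → ℂ} (hL : Loc V σ h φ) (n : ℕ) {z : ℂ}
    (hz : z ∈ V) : h n ^ 2 * lap (ru φ n) z = - (Real.exp (2 * σ z) * ru φ n z) := by
  have h1 := hL.eig n z hz
  rw [← lap_eq (contDiff_ru hL n), ← ru_eq hL n]
  have h2 := congrArg Complex.re h1
  have h3 : (4 * (h n : ℂ) ^ 2 * dz (dzb (φ n)) z).re = 4 * h n ^ 2 * (dz (dzb (φ n)) z).re := by
    have : (4 * (h n : ℂ) ^ 2 : ℂ) = ((4 * h n ^ 2 : ℝ) : ℂ) := by push_cast; ring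
    rw [this, Complex.re_ofReal_mul]
  have h4 : (-ex σ 2 z * φ n z).re = - (Real.exp (2 * σ z) * ru φ n z) := by
    have : -ex σ 2 z = ((-Real.exp (2 * σ z) : ℝ) : ℂ) := by
      unfold ex
      push_cast
      rfl
    rw [this, Complex.re_ofReal_mul]
    unfold ru
    ring
  rw [h3] at h2
  rw [h4] at h2
  rw [← h2]
  ring

/-! ### Integrals over balls -/

theorem vol_closedBall (z : ℂ) {r : ℝ} (hr : 0 ≤ r) :
    (volume (closedBall z r)).toReal = Real.pi * r ^ 2 := by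
  rw [Complex.volume_closedBall, ENNReal.toReal_mul, ENNReal.toReal_pow, ENNReal.toReal_ofReal hr]
  simp
  ring

/-- integrals over balls as integrals over a fixed ball -/
theorem setIntegral_ball (f : ℂ → ℝ) (w : ℂ) (ρ : ℝ) :
    ∫ v in closedBall w ρ, f v = ∫ u in closedBall (0 : ℂ) ρ, f (w + u) := by
  have h := (measurePreserving_add_left (volume : Measure ℂ) w).setIntegral_preimage_emb
    (MeasurableEquiv.addLeft w).measurableEmbedding f (closedBall w ρ)
  have h2 : (fun x => w + x) ⁻¹' closedBall w ρ = closedBall (0 : ℂ) ρ := by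
    ext x
    simp [mem_closedBall, dist_eq_norm]
  rw [← h, h2]

theorem integrable_shift {f : ℂ → ℝ} (hf : Continuous f) {S : Set ℂ} (hS : IsCompact S) (ρ : ℝ) :
    Integrable (Function.uncurry fun (w u : ℂ) => f (w + u))
      ((volume.restrict S).prod (volume.restrict (closedBall (0 : ℂ) ρ))) := by
  rw [Measure.prod_restrict]
  have hc : ContinuousOn (Function.uncurry fun (w u : ℂ) => f (w + u))
      (S ×ˢ closedBall (0 : ℂ) ρ) := by
    apply Continuous.continuousOn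
    exact hf.comp (continuous_fst.add continuous_snd)
  exact hc.integrableOn_compact (hS.prod (isCompact_closedBall _ _))

theorem integrable_avg {f : ℂ → ℝ} (hf : Continuous f) {S : Set ℂ} (hS : IsCompact S) (ρ : ℝ) :
    IntegrableOn (fun w => ∫ v in closedBall w ρ, f v) S := by
  have h := (integrable_shift hf hS ρ).integral_prod_left
  have h2 : (fun w => ∫ v in closedBall w ρ, f v) = fun w => ∫ u in closedBall (0 : ℂ) ρ, f (w + u) := by
    funext w
    exact setIntegral_ball f w ρ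
  rw [h2]
  exact h

/-- the average over small balls -/
theorem avg_le {f : ℂ → ℝ} (hf : Continuous f) (h0 : ∀ z, 0 ≤ f z) {S T : Set ℂ}
    (hS : IsCompact S) (hT : IsCompact T) {ρ : ℝ} (hρ : 0 ≤ ρ)
    (hST : ∀ w ∈ S, closedBall w ρ ⊆ T) :
    ∫ w in S, ∫ v in closedBall w ρ, f v ≤ Real.pi * ρ ^ 2 * ∫ v in T, f v := by
  have h2 : (fun w => ∫ v in closedBall w ρ, f v) = fun w => ∫ u in closedBall (0 : ℂ) ρ, f (w + u) := by
    funext w
    exact setIntegral_ball f w ρ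
  rw [h2, integral_integral_swap (integrable_shift hf hS ρ)]
  have h3 : ∀ u ∈ closedBall (0 : ℂ) ρ, ∫ w in S, f (w + u) ≤ ∫ v in T, f v := by
    intro u hu
    have h := (measurePreserving_add_right (volume : Measure ℂ) u).setIntegral_preimage_emb
      (MeasurableEquiv.addRight u).measurableEmbedding f T
    rw [← h]
    apply setIntegral_mono_set
    · have hTp : IsCompact ((fun x => x + u) ⁻¹' T) :=
        (Homeomorph.addRight u).isCompact_preimage.mpr hT
      exact (hf.comp (continuous_id.add continuous_const)).continuousOn.integrableOn_compact hTp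
    · exact Filter.Eventually.of_forall fun w => h0 _
    · apply LE.le.eventuallyLE
      intro w hw
      apply hST w hw
      rw [mem_closedBall, dist_eq_norm] at hu ⊢
      simpa using hu
  calc ∫ u in closedBall (0 : ℂ) ρ, ∫ w in S, f (w + u)
      ≤ ∫ u in closedBall (0 : ℂ) ρ, ∫ v in T, f v := by
        apply integral_mono_of_nonneg
        · exact Filter.Eventually.of_forall fun u => integral_nonneg fun w => h0 _
        · exact integrableOn_const (by
            rw [Complex.volume_closedBall]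
            exact ENNReal.mul_ne_top (ENNReal.pow_ne_top ENNReal.ofReal_ne_top) ENNReal.coe_ne_top)
        · rw [EventuallyLE, ae_restrict_iff' measurableSet_closedBall]
          exact Filter.Eventually.of_forall h3
    _ = Real.pi * ρ ^ 2 * ∫ v in T, f v := by
        rw [setIntegral_const, smul_eq_mul]
        congr 1
        exact vol_closedBall 0 hρ

/-! ### The mass -/

theorem exists_cutoff_real {U K : Set ℂ} (hU : IsOpen U) (hK : IsCompact K) (hKU : K ⊆ U) :
    ∃ f : ℂ → ℝ, Test U (fun z => (f z : ℂ)) ∧ (∀ z ∈ K, f z = 1) ∧ (∀ z, 0 ≤ f z ∧ f z ≤ 1) ∧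
      Continuous f ∧ HasCompactSupport f ∧ ∀ z, z ∉ U → f z = 0 := by
  obtain ⟨K', hK', hKK', hK'U⟩ := exists_compact_between hK hU hKU
  obtain ⟨f, hf1, hf2, hf3⟩ := exists_contMDiffMap_one_nhds_of_subset_interior (n := (⊤ : ℕ∞)) 𝓘(ℝ, ℂ)
    hK.isClosed hKK'
  have hfs : ContDiff ℝ ∞ (f : ℂ → ℝ) := f.contMDiff.contDiff
  have hsupp : Function.support (fun z => (f z : ℂ)) ⊆ K' := by
    intro z hz
    by_contra h
    exact hz (by simp [hf2 z h])
  have hts : tsupport (fun z => (f z : ℂ)) ⊆ K' :=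
    closure_minimal hsupp hK'.isClosed
  refine ⟨fun z => f z, ⟨ofRealCLM.contDiff.comp hfs,
    hK'.of_isClosed_subset (isClosed_tsupport _) hts, hts.trans hK'U⟩, ?_, ?_, hfs.continuous, ?_, ?_⟩
  · intro z hz
    have := hf1.filter_mono (nhds_le_nhdsSet hz)
    exact this.self_of_nhds
  · exact fun z => hf3 z
  · exact HasCompactSupport.intro hK' fun z hz => hf2 z hz
  · intro z hz
    exact hf2 z fun h => hz (hK'U h)

theorem mass_core {V : Set ℂ} {σ : ℂ → ℝ} {h : ℕ → ℝ} {φ : ℕ → ℂ → ℂ} (hL : Loc V σ h φ)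
    {K U : Set ℂ} (hU : IsOpen U) (hK : IsCompact K) (hKU : K ⊆ U) (hUV : U ⊆ V) :
    ∃ f : ℂ → ℝ, (∀ z, 0 ≤ f z ∧ f z ≤ 1) ∧ Continuous f ∧ HasCompactSupport f ∧
      (∀ z, z ∉ U → f z = 0) ∧
      ∀ B : ℝ, ∫ z, f z < B → ∀ᶠ n in atTop, ∫ w in K, ‖φ n w‖ ^ 2 ≤ B := by
  obtain ⟨f, hf1, hf2, hf3, hf4, hf5, hf6⟩ := exists_cutoff_real hU hK hKU
  refine ⟨f, hf3, hf4, hf5, hf6, ?_⟩
  intro B hB
  have h1 := hL.mass _ (hf1.mono hUV)
  have h2 : ∀ n, ∫ z, (f z : ℂ) * (φ n z * φ n z) = ((∫ z, f z * ‖φ n z‖ ^ 2 : ℝ) : ℂ) := by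
    intro n
    refine Eq.trans ?_ integral_complex_ofReal
    apply integral_congr_ae
    apply Filter.Eventually.of_forall
    intro z
    have h3 : φ n z = ((ru φ n z : ℝ) : ℂ) := congrFun (ru_eq hL n) z
    simp only
    rw [norm_sq_eq hL, h3]
    push_cast
    ring
  have h3 : (∫ z, (f z : ℂ)) = ((∫ z, f z : ℝ) : ℂ) := integral_complex_ofReal
  rw [h3] at h1
  have h4 : Tendsto (fun n => ∫ z, f z * ‖φ n z‖ ^ 2) atTop (𝓝 (∫ z, f z)) := by
    have h5 := (Complex.continuous_re.tendsto _).comp h1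
    rw [Complex.ofReal_re] at h5
    apply h5.congr
    intro n
    simp only [Function.comp]
    rw [h2 n, Complex.ofReal_re]
  filter_upwards [h4.eventually (gt_mem_nhds hB)] with n hn
  have hcont : Continuous fun z => ‖φ n z‖ ^ 2 := ((hL.smφ n).continuous.norm).pow 2
  have hint : Integrable fun z => f z * ‖φ n z‖ ^ 2 :=
    (hf4.mul hcont).integrable_of_hasCompactSupport hf5.mul_right
  calc ∫ w in K, ‖φ n w‖ ^ 2 = ∫ w in K, f w * ‖φ n w‖ ^ 2 := by
        apply setIntegral_congr_fun hK.measurableSet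
        intro w hw
        simp only
        rw [hf2 w hw, one_mul]
    _ ≤ ∫ w, f w * ‖φ n w‖ ^ 2 :=
        setIntegral_le_integral hint (Filter.Eventually.of_forall fun z =>
          mul_nonneg (hf3 z).1 (by positivity))
    _ ≤ B := hn.le

/-- a bound of the mass on compact sets -/
theorem mass_bound {V : Set ℂ} {σ : ℂ → ℝ} {h : ℕ → ℝ} {φ : ℕ → ℂ → ℂ} (hL : Loc V σ h φ)
    {K : Set ℂ} (hK : IsCompact K) (hKV : K ⊆ V) :
    ∃ M : ℝ, 0 ≤ M ∧ ∀ᶠ n in atTop, ∫ w in K, ‖φ n w‖ ^ 2 ≤ M := by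
  obtain ⟨f, hf1, _, _, _, hf5⟩ := mass_core hL hL.op hK hKV subset_rfl
  refine ⟨(∫ z, f z) + 1, ?_, hf5 _ (by linarith)⟩
  have : 0 ≤ ∫ z, f z := integral_nonneg fun z => (hf1 z).1
  linarith

/-- the mass on balls -/
theorem mass_ball {V : Set ℂ} {σ : ℂ → ℝ} {h : ℕ → ℝ} {φ : ℕ → ℂ → ℂ} (hL : Loc V σ h φ)
    {z : ℂ} {r : ℝ} (hr : 0 < r) (hV : closedBall z (2 * r) ⊆ V) :
    ∀ᶠ n in atTop, ∫ w in closedBall z r, ‖φ n w‖ ^ 2 ≤ 13 * r ^ 2 := by
  obtain ⟨f, hf1, hf2, hf3, hf4, hf5⟩ := mass_core hL (K := closedBall z r) (U := ball z (2 * r))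
    isOpen_ball (isCompact_closedBall _ _) (closedBall_subset_ball (by linarith))
    (ball_subset_closedBall.trans hV)
  apply hf5
  have h1 : ∫ w, f w = ∫ w in closedBall z (2 * r), f w := by
    rw [setIntegral_eq_integral_of_forall_compl_eq_zero]
    intro w hw
    exact hf4 w fun h => hw (ball_subset_closedBall h)
  have hfin : volume (closedBall z (2 * r)) ≠ ⊤ := by
    rw [Complex.volume_closedBall]
    exact ENNReal.mul_ne_top (ENNReal.pow_ne_top ENNReal.ofReal_ne_top) ENNReal.coe_ne_top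
  have h2 : ∫ w in closedBall z (2 * r), f w ≤ ∫ w in closedBall z (2 * r), (1 : ℝ) := by
    apply setIntegral_mono_on
    · exact hf2.continuousOn.integrableOn_compact (isCompact_closedBall _ _)
    · exact integrableOn_const hfin
    · exact measurableSet_closedBall
    · exact fun w _ => (hf1 w).2
  have h3 : ∫ w in closedBall z (2 * r), (1 : ℝ) = Real.pi * (2 * r) ^ 2 := by
    rw [setIntegral_const, smul_eq_mul, mul_one]
    exact vol_closedBall z (by linarith)
  rw [h1]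
  have h4 : Real.pi * (2 * r) ^ 2 < 13 * r ^ 2 := by
    have hpi := Real.pi_lt_d2
    have hr2 : 0 < r ^ 2 := by positivity
    nlinarith
  linarith

/-! ### The growth -/

theorem mor_apply (hMor : StmtMor) {V : Set ℂ} {σ : ℂ → ℝ} {h : ℕ → ℝ} {φ : ℕ → ℂ → ℂ}
    (hL : Loc V σ h φ) {K1 : Set ℂ} (hK1 : IsCompact K1) (hK1V : K1 ⊆ V) :
    ∃ C : ℝ, 0 < C ∧ ∀ (n : ℕ) (z : ℂ) (r r0 : ℝ), h n ≤ r → r ≤ r0 → r0 ≤ 1 →
      closedBall z (3 * r0) ⊆ K1 →
      ∫ w in closedBall z r, ‖φ n w‖ ^ 2 ≤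
        C * (r / r0) * ∫ w in closedBall z (3 * r0), ‖φ n w‖ ^ 2 := by
  have hg : ContDiff ℝ ∞ (fun z => Real.exp (2 * σ z)) := (contDiff_const.mul hL.sm).exp
  obtain ⟨B0, hB0⟩ := hK1.exists_bound_of_continuousOn hL.sm.continuous.continuousOn
  obtain ⟨B1, hB1⟩ := hK1.exists_bound_of_continuousOn (contDiff_d1 hg).continuous.continuousOn
  obtain ⟨B2, hB2⟩ := hK1.exists_bound_of_continuousOn (contDiff_d2 hg).continuous.continuousOn
  obtain ⟨C, hC, h1⟩ := hMor (Real.exp (-(2 * B0))) (max (Real.exp (2 * B0)) (max B1 B2))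
    (Real.exp_pos _)
  refine ⟨C, hC, ?_⟩
  intro n z r r0 hr hr0 hr1 hsub
  have h2 := h1 (ru φ n) (fun z => Real.exp (2 * σ z)) z (h n) r r0 (contDiff_ru hL n) hg
    (hL.hpos n) hr hr0 hr1 ?_ ?_
  · simp only [norm_sq_eq hL]
    exact h2
  · intro w hw
    have hw1 := hsub hw
    have e0 := hB0 w hw1
    rw [Real.norm_eq_abs, abs_le] at e0
    have e1 := hB1 w hw1
    have e2 := hB2 w hw1
    refine ⟨?_, ?_, ?_, ?_⟩
    · exact Real.exp_le_exp.mpr (by linarith)
    · exact (Real.exp_le_exp.mpr (by linarith)).trans (le_max_left _ _)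
    · exact e1.trans ((le_max_left _ _).trans (le_max_right _ _))
    · exact e2.trans ((le_max_right _ _).trans (le_max_right _ _))
  · intro w hw
    exact ru_eig hL n (hK1V (hsub hw))

theorem RR_nonneg (h : ℕ → ℝ) (φ : ℕ → ℂ → ℂ) (N n : ℕ) (z : ℂ) : 0 ≤ RR h φ N n z := by
  unfold RR
  positivity

theorem cont_sq {V : Set ℂ} {σ : ℂ → ℝ} {h : ℕ → ℝ} {φ : ℕ → ℂ → ℂ} (hL : Loc V σ h φ) (n : ℕ) :
    Continuous fun z => ‖φ n z‖ ^ 2 := ((hL.smφ n).continuous.norm).pow 2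

theorem sq_mono {V : Set ℂ} {σ : ℂ → ℝ} {h : ℕ → ℝ} {φ : ℕ → ℂ → ℂ} (hL : Loc V σ h φ) (n : ℕ)
    {S T : Set ℂ} (hT : IsCompact T) (hST : S ⊆ T) :
    ∫ w in S, ‖φ n w‖ ^ 2 ≤ ∫ w in T, ‖φ n w‖ ^ 2 := by
  apply setIntegral_mono_set
  · exact (cont_sq hL n).continuousOn.integrableOn_compact hT
  · exact Filter.Eventually.of_forall fun z => by positivity
  · exact LE.le.eventuallyLE hST

/-- the constants for a compact set -/
theorem setup (hMor : StmtMor) (hPtw : StmtPtw) {V : Set ℂ} {σ : ℂ → ℝ} {h : ℕ → ℝ}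
    {φ : ℕ → ℂ → ℂ} (hL : Loc V σ h φ) {K : Set ℂ} (hK : IsCompact K) (hKV : K ⊆ V) (N : ℕ) :
    ∃ δ c C1 C2 : ℝ, 0 < δ ∧ δ ≤ 1 ∧ 1 ≤ c ∧ 0 ≤ C1 ∧ 0 < C2 ∧
      IsCompact (cthickening (3 * δ) K) ∧ cthickening (3 * δ) K ⊆ V ∧
      (∀ᶠ n in atTop, ∀ z ∈ K, RR h φ N n z ≤
        C1 * (1 + 1 / h n ^ 2 * ∫ w in closedBall z (c * h n), ‖φ n w‖ ^ 2)) ∧
      (∀ n, ∀ z ∈ K, ∀ r r0 : ℝ, h n ≤ r → r ≤ r0 → r0 ≤ δ →
        ∫ w in closedBall z r, ‖φ n w‖ ^ 2 ≤
          C2 * (r / r0) * ∫ w in closedBall z (3 * r0), ‖φ n w‖ ^ 2) := by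
  obtain ⟨δ0, hδ0, hδV⟩ := hK.exists_cthickening_subset_open hL.op hKV
  have hδ1 : 3 * min 1 (δ0 / 3) ≤ δ0 := by
    have := min_le_right 1 (δ0 / 3)
    linarith
  have hδ2 : cthickening (3 * min 1 (δ0 / 3)) K ⊆ V := (cthickening_mono hδ1 K).trans hδV
  obtain ⟨c, C, hc, hptw⟩ := hPtw V σ h φ hL K hK hKV N
  obtain ⟨C2, hC2, hmor⟩ := mor_apply hMor hL hK.cthickening hδ2
  refine ⟨min 1 (δ0 / 3), max c 1, max C 0, C2, lt_min one_pos (by linarith), min_le_left _ _,
    le_max_right _ _, le_max_right _ _, hC2, hK.cthickening, hδ2, ?_, ?_⟩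
  · filter_upwards [hptw] with n hn z hz
    have h1 := hn z hz
    have hpos := hL.hpos n
    have h2 : ∫ w in closedBall z (c * h n), ‖φ n w‖ ^ 2 ≤
        ∫ w in closedBall z (max c 1 * h n), ‖φ n w‖ ^ 2 := by
      apply sq_mono hL n (isCompact_closedBall _ _)
      apply closedBall_subset_closedBall
      exact mul_le_mul_of_nonneg_right (le_max_left _ _) hpos.le
    have h3 : 0 ≤ ∫ w in closedBall z (c * h n), ‖φ n w‖ ^ 2 :=
      integral_nonneg fun w => by positivity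
    have h4 : (0 : ℝ) ≤ 1 / h n ^ 2 := by positivity
    have h5 : 1 + 1 / h n ^ 2 * ∫ w in closedBall z (c * h n), ‖φ n w‖ ^ 2 ≤
        1 + 1 / h n ^ 2 * ∫ w in closedBall z (max c 1 * h n), ‖φ n w‖ ^ 2 := by
      have := mul_le_mul_of_nonneg_left h2 h4
      linarith
    have h6 : 0 ≤ 1 + 1 / h n ^ 2 * ∫ w in closedBall z (c * h n), ‖φ n w‖ ^ 2 := by positivity
    calc RR h φ N n z ≤ C * (1 + 1 / h n ^ 2 * ∫ w in closedBall z (c * h n), ‖φ n w‖ ^ 2) := h1
      _ ≤ max C 0 * (1 + 1 / h n ^ 2 * ∫ w in closedBall z (c * h n), ‖φ n w‖ ^ 2) :=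
          mul_le_mul_of_nonneg_right (le_max_left _ _) h6
      _ ≤ _ := mul_le_mul_of_nonneg_left h5 (le_max_right _ _)
  · intro n z hz r r0 hr hr0 hr1
    apply hmor n z r r0 hr hr0 (hr1.trans (min_le_left _ _))
    apply (closedBall_subset_cthickening hz (3 * r0)).trans
    apply cthickening_mono
    linarith

theorem small (hMor : StmtMor) (hPtw : StmtPtw) {V : Set ℂ} {σ : ℂ → ℝ} {h : ℕ → ℝ}
    {φ : ℕ → ℂ → ℂ} (hL : Loc V σ h φ) {K : Set ℂ} (hK : IsCompact K) (hKV : K ⊆ V) (N : ℕ)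
    {ε : ℝ} (hε : 0 < ε) : ∀ᶠ n in atTop, ∀ z ∈ K, h n * RR h φ N n z ≤ ε := by
  obtain ⟨δ, c, C1, C2, hδ, hδ1, hc, hC1, hC2, hKc, hKcV, hptw, hmor⟩ := setup hMor hPtw hL hK hKV N
  obtain ⟨A, hA⟩ : ∃ A : ℝ, A = 208 * C1 * C2 * c + 1 := ⟨_, rfl⟩
  have hA1 : 0 < A := by
    rw [hA]
    positivity
  obtain ⟨r0, hr0⟩ : ∃ r0 : ℝ, r0 = min (3 * δ / 8) (ε / (2 * A)) := ⟨_, rfl⟩
  have hr0pos : 0 < r0 := by
    rw [hr0]
    exact lt_min (by linarith) (by positivity)
  have hr0δ : r0 ≤ 3 * δ / 8 := by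
    rw [hr0]
    exact min_le_left _ _
  have hr0ε : A * r0 ≤ ε / 2 := by
    have h1 : r0 ≤ ε / (2 * A) := by
      rw [hr0]
      exact min_le_right _ _
    calc A * r0 ≤ A * (ε / (2 * A)) := mul_le_mul_of_nonneg_left h1 hA1.le
      _ = ε / 2 := by field_simp
  obtain ⟨t, htK, htf, htc⟩ := hK.finite_cover_balls hr0pos
  have hmass : ∀ᶠ n in atTop, ∀ i ∈ t, ∫ w in closedBall i (4 * r0), ‖φ n w‖ ^ 2 ≤
      13 * (4 * r0) ^ 2 := by
    rw [Filter.eventually_all_finite htf]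
    intro i hi
    apply mass_ball hL (by linarith)
    apply ((closedBall_subset_cthickening (htK hi) (2 * (4 * r0))).trans
      (cthickening_mono ?_ K)).trans hKcV
    linarith
  have hh1 : ∀ᶠ n in atTop, C1 * h n < ε / 2 := by
    have h1 := hL.hlim.const_mul C1
    rw [mul_zero] at h1
    exact h1.eventually (gt_mem_nhds (by linarith))
  have hh2 : ∀ᶠ n in atTop, c * h n < r0 := by
    have h1 := hL.hlim.const_mul c
    rw [mul_zero] at h1
    exact h1.eventually (gt_mem_nhds hr0pos)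
  filter_upwards [hptw, hmass, hh1, hh2] with n hn1 hn2 hn3 hn4 z hz
  have hpos := hL.hpos n
  have hcn : h n ≤ c * h n := by nlinarith
  have h1 := hmor n z hz (c * h n) r0 hcn hn4.le (by linarith)
  obtain ⟨i, hi, hzi⟩ : ∃ i ∈ t, z ∈ ball i r0 := by
    have := htc hz
    simpa using this
  have h2 : ∫ w in closedBall z (3 * r0), ‖φ n w‖ ^ 2 ≤ 13 * (4 * r0) ^ 2 := by
    apply le_trans _ (hn2 i hi)
    apply sq_mono hL n (isCompact_closedBall _ _)
    apply closedBall_subset_closedBall'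
    rw [mem_ball] at hzi
    linarith
  have h3 := hn1 z hz
  have h4 : ∫ w in closedBall z (c * h n), ‖φ n w‖ ^ 2 ≤ C2 * (c * h n / r0) * (13 * (4 * r0) ^ 2) :=
    h1.trans (mul_le_mul_of_nonneg_left h2 (by positivity))
  calc h n * RR h φ N n z
      ≤ h n * (C1 * (1 + 1 / h n ^ 2 * ∫ w in closedBall z (c * h n), ‖φ n w‖ ^ 2)) :=
        mul_le_mul_of_nonneg_left h3 hpos.le
    _ ≤ h n * (C1 * (1 + 1 / h n ^ 2 * (C2 * (c * h n / r0) * (13 * (4 * r0) ^ 2)))) := by
        apply mul_le_mul_of_nonneg_left _ hpos.le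
        apply mul_le_mul_of_nonneg_left _ hC1
        have := mul_le_mul_of_nonneg_left h4 (by positivity : (0 : ℝ) ≤ 1 / h n ^ 2)
        linarith
    _ = C1 * h n + (A - 1) * r0 := by
        rw [hA]
        have hne : h n ≠ 0 := hpos.ne'
        have hr0ne : r0 ≠ 0 := hr0pos.ne'
        field_simp
        ring
    _ ≤ ε := by
        have : (A - 1) * r0 = A * r0 - r0 := by ring
        linarith

theorem growth (hMor : StmtMor) (hPtw : StmtPtw) {V : Set ℂ} {σ : ℂ → ℝ} {h : ℕ → ℝ}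
    {φ : ℕ → ℂ → ℂ} (hL : Loc V σ h φ) {K : Set ℂ} (hK : IsCompact K) (hKV : K ⊆ V) (N : ℕ) :
    ∃ C : ℝ, ∀ᶠ n in atTop, ∀ z ∈ K, ∀ s > 0,
      ∫ w in K ∩ closedBall z s, RR h φ N n w ≤ C * s := by
  obtain ⟨δ, c, C1, C2, hδ, hδ1, hc, hC1, hC2, hKc, hKcV, hptw, hmor⟩ := setup hMor hPtw hL hK hKV N
  obtain ⟨M, hM, hmass⟩ := mass_bound hL hKc hKcV
  obtain ⟨vK, hvK⟩ : ∃ vK : ℝ, vK = (volume K).toReal := ⟨_, rfl⟩
  have hvK0 : 0 ≤ vK := by
    rw [hvK]
    exact ENNReal.toReal_nonneg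
  refine ⟨C1 * (2 / δ * (vK + Real.pi * c ^ 2 * M)) +
    C1 * (Real.pi + Real.pi * c ^ 2 * (C2 * ((1 + c) / δ) * M)) +
    C1 * (Real.pi + Real.pi * (C2 * (c / δ) * M)), ?_⟩
  have hpi := Real.pi_pos
  have hA1 : 0 ≤ C1 * (2 / δ * (vK + Real.pi * c ^ 2 * M)) := by positivity
  have hA2 : 0 ≤ C1 * (Real.pi + Real.pi * c ^ 2 * (C2 * ((1 + c) / δ) * M)) := by positivity
  have hA3 : 0 ≤ C1 * (Real.pi + Real.pi * (C2 * (c / δ) * M)) := by positivity
  have hh2 : ∀ᶠ n in atTop, c * h n < δ / 2 := by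
    have h1 := hL.hlim.const_mul c
    rw [mul_zero] at h1
    exact h1.eventually (gt_mem_nhds (by linarith))
  filter_upwards [hptw, hmass, hh2] with n hn1 hn2 hn3 z hz s hs
  have hpos := hL.hpos n
  have hcn : h n ≤ c * h n := by nlinarith
  have hcontS := cont_sq hL n
  have hS : IsCompact (K ∩ closedBall z s) := hK.inter_right isClosed_closedBall
  have hSfin : volume (K ∩ closedBall z s) ≠ ⊤ := hS.measure_lt_top.ne
  have hSK : (volume (K ∩ closedBall z s)).toReal ≤ vK := by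
    rw [hvK]
    exact ENNReal.toReal_mono hK.measure_lt_top.ne (measure_mono inter_subset_left)
  have hSs : (volume (K ∩ closedBall z s)).toReal ≤ Real.pi * s ^ 2 := by
    rw [← vol_closedBall z hs.le]
    exact ENNReal.toReal_mono (isCompact_closedBall z s).measure_lt_top.ne
      (measure_mono inter_subset_right)
  -- the basic inequality
  have key : ∀ T : Set ℂ, IsCompact T → (∀ w ∈ K ∩ closedBall z s, closedBall w (c * h n) ⊆ T) →
      ∫ w in K ∩ closedBall z s, RR h φ N n w ≤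
        C1 * ((volume (K ∩ closedBall z s)).toReal + Real.pi * c ^ 2 * ∫ w in T, ‖φ n w‖ ^ 2) := by
    intro T hT hST
    have hint := integrable_avg hcontS hS (c * h n)
    calc ∫ w in K ∩ closedBall z s, RR h φ N n w
        ≤ ∫ w in K ∩ closedBall z s,
            C1 * (1 + 1 / h n ^ 2 * ∫ v in closedBall w (c * h n), ‖φ n v‖ ^ 2) := by
          apply integral_mono_of_nonneg
          · exact Filter.Eventually.of_forall fun w => RR_nonneg h φ N n w
          · exact ((integrableOn_const hSfin).add (hint.const_mul _)).const_mul _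
          · rw [EventuallyLE, ae_restrict_iff' hS.measurableSet]
            exact Filter.Eventually.of_forall fun w hw => hn1 w hw.1
      _ = C1 * ((volume (K ∩ closedBall z s)).toReal + 1 / h n ^ 2 *
            ∫ w in K ∩ closedBall z s, ∫ v in closedBall w (c * h n), ‖φ n v‖ ^ 2) := by
          rw [integral_const_mul]
          congr 1
          have hi1 : Integrable (fun _ : ℂ => (1 : ℝ)) (volume.restrict (K ∩ closedBall z s)) :=
            integrableOn_const hSfin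
          have hi2 : Integrable (fun w => 1 / h n ^ 2 * ∫ v in closedBall w (c * h n), ‖φ n v‖ ^ 2)
            (volume.restrict (K ∩ closedBall z s)) := hint.const_mul _
          rw [integral_add hi1 hi2, integral_const_mul, setIntegral_const, smul_eq_mul, mul_one]
          rfl
      _ ≤ C1 * ((volume (K ∩ closedBall z s)).toReal + 1 / h n ^ 2 *
            (Real.pi * (c * h n) ^ 2 * ∫ w in T, ‖φ n w‖ ^ 2)) := by
          apply mul_le_mul_of_nonneg_left _ hC1
          have := mul_le_mul_of_nonneg_left (avg_le hcontS (fun v => by positivity) hS hT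
            (by positivity : 0 ≤ c * h n) hST) (by positivity : (0 : ℝ) ≤ 1 / h n ^ 2)
          linarith
      _ = _ := by
          have hne : h n ≠ 0 := hpos.ne'
          field_simp
  rcases le_or_gt (δ / 2) s with hs1 | hs1
  · -- large radius
    have h1 := key _ hKc (by
      intro w hw
      apply (closedBall_subset_cthickening hw.1 (c * h n)).trans
      apply cthickening_mono
      linarith)
    have h2 : C1 * ((volume (K ∩ closedBall z s)).toReal +
        Real.pi * c ^ 2 * ∫ w in cthickening (3 * δ) K, ‖φ n w‖ ^ 2) ≤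
        C1 * (vK + Real.pi * c ^ 2 * M) := by
      apply mul_le_mul_of_nonneg_left _ hC1
      have := mul_le_mul_of_nonneg_left hn2 (by positivity : 0 ≤ Real.pi * c ^ 2)
      linarith
    have h3 : C1 * (vK + Real.pi * c ^ 2 * M) ≤
        C1 * (2 / δ * (vK + Real.pi * c ^ 2 * M)) * s := by
      have h4 : 1 ≤ 2 / δ * s := by
        rw [div_mul_eq_mul_div, le_div_iff₀ hδ]
        linarith
      have h5 : 0 ≤ C1 * (vK + Real.pi * c ^ 2 * M) := by positivity
      calc C1 * (vK + Real.pi * c ^ 2 * M) = C1 * (vK + Real.pi * c ^ 2 * M) * 1 := by ring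
        _ ≤ C1 * (vK + Real.pi * c ^ 2 * M) * (2 / δ * s) := mul_le_mul_of_nonneg_left h4 h5
        _ = _ := by ring
    have h6 := mul_nonneg hA2 hs.le
    have h7 := mul_nonneg hA3 hs.le
    linarith
  · rcases le_or_gt (h n) s with hs2 | hs2
    · -- intermediate radius
      have h1 := key (closedBall z (s + c * h n)) (isCompact_closedBall _ _) (by
        intro w hw
        apply closedBall_subset_closedBall'
        have := mem_closedBall.mp hw.2
        linarith)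
      have h2 := hmor n z hz (s + c * h n) δ (by linarith) (by linarith) le_rfl
      have h3 : ∫ w in closedBall z (3 * δ), ‖φ n w‖ ^ 2 ≤ M :=
        (sq_mono hL n hKc (closedBall_subset_cthickening hz _)).trans hn2
      have h4 : ∫ w in closedBall z (s + c * h n), ‖φ n w‖ ^ 2 ≤ C2 * ((1 + c) / δ) * M * s := by
        calc _ ≤ C2 * ((s + c * h n) / δ) * ∫ w in closedBall z (3 * δ), ‖φ n w‖ ^ 2 := h2
          _ ≤ C2 * ((s + c * h n) / δ) * M := mul_le_mul_of_nonneg_left h3 (by positivity)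
          _ ≤ C2 * ((s + c * s) / δ) * M := by
              gcongr
          _ = _ := by ring
      have h5 : C1 * ((volume (K ∩ closedBall z s)).toReal +
          Real.pi * c ^ 2 * ∫ w in closedBall z (s + c * h n), ‖φ n w‖ ^ 2) ≤
          C1 * (Real.pi * s + Real.pi * c ^ 2 * (C2 * ((1 + c) / δ) * M * s)) := by
        apply mul_le_mul_of_nonneg_left _ hC1
        have h6 := mul_le_mul_of_nonneg_left h4 (by positivity : 0 ≤ Real.pi * c ^ 2)
        have h7 : Real.pi * s ^ 2 ≤ Real.pi * s := by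
          apply mul_le_mul_of_nonneg_left _ hpi.le
          nlinarith
        linarith
      have h8 := mul_nonneg hA1 hs.le
      have h9 := mul_nonneg hA3 hs.le
      have h10 : C1 * (Real.pi * s + Real.pi * c ^ 2 * (C2 * ((1 + c) / δ) * M * s)) =
          C1 * (Real.pi + Real.pi * c ^ 2 * (C2 * ((1 + c) / δ) * M)) * s := by ring
      linarith
    · -- small radius
      have h1 : ∀ w ∈ K ∩ closedBall z s, RR h φ N n w ≤ C1 * (1 + C2 * (c / δ) * M / h n) := by
        intro w hw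
        have h2 := hmor n w hw.1 (c * h n) δ hcn (by linarith) le_rfl
        have h3 : ∫ w in closedBall w (3 * δ), ‖φ n w‖ ^ 2 ≤ M :=
          (sq_mono hL n hKc (closedBall_subset_cthickening hw.1 _)).trans hn2
        have h4 : ∫ v in closedBall w (c * h n), ‖φ n v‖ ^ 2 ≤ C2 * (c * h n / δ) * M :=
          h2.trans (mul_le_mul_of_nonneg_left h3 (by positivity))
        calc RR h φ N n w
            ≤ C1 * (1 + 1 / h n ^ 2 * ∫ v in closedBall w (c * h n), ‖φ n v‖ ^ 2) := hn1 w hw.1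
          _ ≤ C1 * (1 + 1 / h n ^ 2 * (C2 * (c * h n / δ) * M)) := by
              apply mul_le_mul_of_nonneg_left _ hC1
              have := mul_le_mul_of_nonneg_left h4 (by positivity : (0 : ℝ) ≤ 1 / h n ^ 2)
              linarith
          _ = _ := by
              have hne : h n ≠ 0 := hpos.ne'
              field_simp
      have h2 : ∫ w in K ∩ closedBall z s, RR h φ N n w ≤
          C1 * (1 + C2 * (c / δ) * M / h n) * (Real.pi * s ^ 2) := by
        calc ∫ w in K ∩ closedBall z s, RR h φ N n w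
            ≤ ∫ w in K ∩ closedBall z s, C1 * (1 + C2 * (c / δ) * M / h n) := by
              apply integral_mono_of_nonneg
              · exact Filter.Eventually.of_forall fun w => RR_nonneg h φ N n w
              · exact integrableOn_const hSfin
              · rw [EventuallyLE, ae_restrict_iff' hS.measurableSet]
                exact Filter.Eventually.of_forall h1
          _ = (volume (K ∩ closedBall z s)).toReal * (C1 * (1 + C2 * (c / δ) * M / h n)) := by
              rw [setIntegral_const, smul_eq_mul]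
              rfl
          _ ≤ Real.pi * s ^ 2 * (C1 * (1 + C2 * (c / δ) * M / h n)) :=
              mul_le_mul_of_nonneg_right hSs (by positivity)
          _ = _ := by ring
      have h3 : C1 * (1 + C2 * (c / δ) * M / h n) * (Real.pi * s ^ 2) ≤
          C1 * (Real.pi + Real.pi * (C2 * (c / δ) * M)) * s := by
        have h4 : s ^ 2 ≤ s := by nlinarith
        have h5 : s ^ 2 / h n ≤ s := by
          rw [div_le_iff₀ hpos]
          nlinarith
        have h6 : C1 * (1 + C2 * (c / δ) * M / h n) * (Real.pi * s ^ 2) =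
            C1 * (Real.pi * s ^ 2 + Real.pi * (C2 * (c / δ) * M) * (s ^ 2 / h n)) := by
          field_simp
        have h7 : C1 * (Real.pi + Real.pi * (C2 * (c / δ) * M)) * s =
            C1 * (Real.pi * s + Real.pi * (C2 * (c / δ) * M) * s) := by ring
        rw [h6, h7]
        gcongr
      have h8 := mul_nonneg hA1 hs.le
      have h9 := mul_nonneg hA2 hs.le
      linarith

end GRO

/-- GRO: growth of the jets of quantum ergodic sequences -/
theorem stmtGro (hMor : StmtMor) (hPtw : StmtPtw) : StmtGro := by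
  intro V σ h φ hL
  exact ⟨fun K hK hKV N => GRO.growth hMor hPtw hL hK hKV N,
    fun K hK hKV N ε hε => GRO.small hMor hPtw hL hK hKV N hε⟩

end

end QJ
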