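import Pool.Agent.QJ.Stmts

/-!
Cubic and quartic statistics: `∂̄ α → 0` in `L²` and `α → 0` weakly imply `α → 0` in `L²`.
-/

open Complex MeasureTheory Filter Topology Set
open scoped ContDiff

namespace QJ

open QE

noncomputable section

namespace HOL

theorem hasFDerivAt_ck_sub {z w : ℂ} (h : w ≠ z) :
    HasDerivAt (fun w => ck (z - w)) (((Real.pi : ℂ) * (z - w) ^ 2)⁻¹) w := by
  have hne : z - w ≠ 0 := sub_ne_zero.mpr (Ne.symm h)
  have hp : (Real.pi : ℂ) ≠ 0 := by exact_mod_cast Real.pi_ne_zero
  have h1 : HasDerivAt (fun w : ℂ => (Real.pi : ℂ) * (z - w)) ((Real.pi : ℂ) * (-1)) w :=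
    ((hasDerivAt_id w).const_sub z).const_mul _
  have h2 := h1.inv (mul_ne_zero hp hne)
  refine (h2.congr_deriv ?_)
  field_simp

theorem contDiffOn_ck_sub (z : ℂ) : ContDiffOn ℝ ∞ (fun w => ck (z - w)) {z}ᶜ := by
  unfold ck
  refine ContDiffOn.inv (by fun_prop) ?_
  intro w hw
  have hne : z - w ≠ 0 := sub_ne_zero.mpr (fun h => hw (by rw [h]; rfl))
  exact mul_ne_zero (by exact_mod_cast Real.pi_ne_zero) hne

theorem dz_ck_sub {z w : ℂ} (h : w ≠ z) :
    dz (fun w => ck (z - w)) w = ((Real.pi : ℂ) * (z - w) ^ 2)⁻¹ := by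
  have h1 := (hasFDerivAt_ck_sub h).complexToReal_fderiv
  unfold dz
  rw [h1.fderiv]
  simp only [smul_apply, smul_eq_mul, one_apply_eq_self, mul_one]
  linear_combination (-(1 / 2) * ((Real.pi : ℂ) * (z - w) ^ 2)⁻¹) * I_mul_I

theorem norm_ck_sub_le {r : ℝ} (hr : 0 < r) {z w : ℂ} (h : r ≤ ‖z - w‖) :
    ‖ck (z - w)‖ ≤ r⁻¹ := by
  unfold ck
  rw [norm_inv, norm_mul, Complex.norm_real, Real.norm_of_nonneg Real.pi_pos.le]
  refine inv_anti₀ hr ?_
  have := Real.pi_gt_three
  nlinarith

theorem norm_dz_ck_sub_le {r : ℝ} (hr : 0 < r) {z w : ℂ} (h : r ≤ ‖z - w‖) :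
    ‖dz (fun w => ck (z - w)) w‖ ≤ (r ^ 2)⁻¹ := by
  have hne : w ≠ z := by
    rintro rfl
    rw [sub_self, norm_zero] at h
    linarith
  rw [dz_ck_sub hne, norm_inv, norm_mul, norm_pow, Complex.norm_real,
    Real.norm_of_nonneg Real.pi_pos.le]
  refine inv_anti₀ (by positivity) ?_
  have := Real.pi_gt_three
  have h2 : r ^ 2 ≤ ‖z - w‖ ^ 2 := by gcongr
  nlinarith

/-- the Cauchy transform of `η α`, for `z` off the support of `η`, is an integral against a test
function -/
theorem cauchy_eq (η f : ℂ → ℂ) (z : ℂ) :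
    cauchy (fun w => η w * f w) z = ∫ w, η w * ck (z - w) * f w := by
  unfold cauchy
  rw [← integral_sub_left_eq_self (fun w => η w * ck (z - w) * f w) volume z]
  refine integral_congr_ae (Filter.Eventually.of_forall fun w => ?_)
  simp only [sub_sub_cancel]
  ring

/-- the test function `ck (z - ·) η` -/
theorem test_ck {V : Set ℂ} (hV : IsOpen V) {η : ℂ → ℂ} (hη : Test V η) {z : ℂ}
    (hz : z ∉ tsupport η) : Test V (fun w => η w * ck (z - w)) := by
  have hU : IsOpen (V ∩ {z}ᶜ) := hV.inter isOpen_compl_singleton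
  have h1 : Test (V ∩ {z}ᶜ) η := ⟨hη.smooth, hη.supp, fun w hw => ⟨hη.sub hw, fun h => hz (by
    rw [← mem_singleton_iff.mp h]; exact hw)⟩⟩
  exact (h1.mul hU ((contDiffOn_ck_sub z).mono inter_subset_right)).mono inter_subset_left

theorem norm_integral_mul_le {L : Set ℂ} (hL : IsCompact L) {ψ a : ℂ → ℂ} {M : ℝ}
    (ha : Continuous a) (hs : ∀ w, w ∉ L → ψ w = 0) (hM : ∀ w ∈ L, ‖ψ w‖ ≤ M) :
    ‖∫ w, ψ w * a w‖ ≤ M * ∫ w in L, ‖a w‖ := by
  have e : ∫ w, ψ w * a w = ∫ w in L, ψ w * a w := by
    rw [setIntegral_eq_integral_of_forall_compl_eq_zero]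
    intro w hw
    rw [hs w hw, zero_mul]
  rw [e, ← integral_const_mul]
  refine norm_integral_le_of_norm_le ?_ ?_
  · exact ((continuous_const.mul ha.norm).continuousOn).integrableOn_compact hL
  · refine (ae_restrict_iff' hL.measurableSet).2 (Eventually.of_forall fun w hw => ?_)
    rw [norm_mul]
    gcongr
    exact hM w hw

end HOL

open HOL in
theorem stmtHol : StmtHol := by
  intro V α a b hV hα ha hb hab hbd hL2 hw K hK hKV
  obtain ⟨χ, hχ, hχ1, hχn⟩ := exists_cutoff hV hK hKV
  set L : Set ℂ := tsupport χ with hLdef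
  have hLc : IsCompact L := hχ.supp
  have hLV : L ⊆ V := hχ.sub
  set η : ℂ → ℂ := dzb χ with hη
  have hηT : Test V η := hχ.dzb
  have hηL : tsupport η ⊆ L := tsupport_dzb_subset χ
  -- the support of `η` is disjoint from `K`
  have hdisj : ∀ z ∈ K, z ∉ tsupport η := by
    intro z hz
    rw [notMem_tsupport_iff_eventuallyEq]
    have h1 : ∀ᶠ w in 𝓝 z, ∀ᶠ u in 𝓝 w, χ u = 1 := (hχ1 z hz).eventually_nhds
    filter_upwards [h1] with w hw1
    have h2 : χ =ᶠ[𝓝 w] fun _ => 1 := hw1
    rw [hη, dzb_congr h2, dzb_const]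
    rfl
  obtain ⟨r, hr, hrd⟩ : ∃ r > 0, ∀ z ∈ K, ∀ w ∈ tsupport η, r ≤ ‖z - w‖ := by
    have hd : Disjoint K (tsupport η) := Set.disjoint_left.2 hdisj
    obtain ⟨r, hr, h1⟩ := hd.exists_thickenings hK (isClosed_tsupport η)
    refine ⟨r, hr, fun z hz w hw1 => ?_⟩
    by_contra hlt
    push Not at hlt
    have h2 : w ∈ Metric.thickening r K := by
      rw [Metric.mem_thickening_iff]
      exact ⟨z, hz, by rw [dist_comm, dist_eq_norm]; exact hlt⟩
    exact Set.disjoint_left.1 h1 h2 (Metric.self_subset_thickening hr _ hw1)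
  -- the decomposition
  have hdec : ∀ n, ∀ z ∈ K, α n z =
      cauchy (fun w => χ w * dzb (α n) w) z + cauchy (fun w => η w * α n w) z := by
    intro n z hz
    have h1 : ContDiff ℝ ∞ (fun w => χ w * α n w) := hχ.smooth.mul (hα n)
    have h2 : HasCompactSupport (fun w => χ w * α n w) := hχ.supp.mul_right
    have h3 := cauchy_dzb h1 h2 z
    have h4 : dzb (fun w => χ w * α n w) = fun w => χ w * dzb (α n) w + η w * α n w := by
      funext w
      rw [dzb_mul (hχ.smooth.differentiable (by simp) w) ((hα n).differentiable (by simp) w)]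
      ring
    have h5 := cauchy_add (f := fun w => χ w * dzb (α n) w) (g := fun w => η w * α n w)
      (hχ.smooth.continuous.mul (contDiff_dzb (hα n)).continuous)
      hχ.supp.mul_right (hηT.smooth.continuous.mul (hα n).continuous) hηT.supp.mul_right z
    rw [h4] at h3
    rw [← h5, h3, (hχ1 z hz).self_of_nhds, one_mul]
  -- the first term
  have hfirst : Tendsto (fun n => ∫ z in K, ‖cauchy (fun w => χ w * dzb (α n) w) z‖ ^ 2) atTop
      (𝓝 0) := by
    refine cauchy_compact (L := L) (B := 1) hLc hK (fun n => hχ.smooth.mul (contDiff_dzb (hα n)))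
      (fun n => closure_mono ?_) ?_ ?_
    · intro w hw1
      rw [Function.mem_support] at hw1 ⊢
      intro h0
      exact hw1 (by rw [h0, zero_mul])
    · have h1 := (hL2 L hLc hLV).eventually_lt_const (u := 1) one_pos
      filter_upwards [h1] with n hn
      refine le_trans ?_ hn.le
      have e : ∫ z, ‖χ z * dzb (α n) z‖ ^ 2 = ∫ z in L, ‖χ z * dzb (α n) z‖ ^ 2 := by
        rw [setIntegral_eq_integral_of_forall_compl_eq_zero]
        intro w hw1
        rw [image_eq_zero_of_notMem_tsupport hw1, zero_mul, norm_zero]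
        simp
      rw [e]
      have hc1 : Continuous (fun z => ‖χ z * dzb (α n) z‖ ^ 2) :=
        ((hχ.smooth.continuous.mul (contDiff_dzb (hα n)).continuous).norm).pow 2
      have hc2 : Continuous (fun z => ‖dzb (α n) z‖ ^ 2) :=
        ((contDiff_dzb (hα n)).continuous.norm).pow 2
      refine integral_mono (hc1.continuousOn.integrableOn_compact hLc)
        (hc2.continuousOn.integrableOn_compact hLc) fun z => ?_
      simp only [norm_mul]
      have h2 : ‖χ z‖ * ‖dzb (α n) z‖ ≤ ‖dzb (α n) z‖ :=
        mul_le_of_le_one_left (norm_nonneg _) (hχn z)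
      gcongr
    · intro ξ hξ
      have hT : Test V (fun z => χ z * ξ z) := hχ.mul hV hξ.contDiffOn
      have h1 := hw _ hT.dzb
      have h2 : ∀ n, ∫ z, χ z * dzb (α n) z * ξ z = - ∫ z, dzb (fun z => χ z * ξ z) z * α n z := by
        intro n
        rw [← integral_mul_dzb hV hT (hα n).contDiffOn]
        refine integral_congr_ae (Filter.Eventually.of_forall fun w => ?_)
        simp only []
        ring
      simp only [h2]
      simpa using h1.neg
  -- the second term
  obtain ⟨C, hC⟩ := hbd L hLc hLV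
  obtain ⟨M1, hM1⟩ : ∃ M, ∀ w, ‖η w‖ ≤ M :=
    hηT.smooth.continuous.bounded_above_of_compact_support hηT.supp
  obtain ⟨M2, hM2⟩ : ∃ M, ∀ w, ‖dz η w‖ ≤ M :=
    hηT.dz.smooth.continuous.bounded_above_of_compact_support hηT.dz.supp
  have hM10 : 0 ≤ M1 := (norm_nonneg _).trans (hM1 0)
  have hM20 : 0 ≤ M2 := (norm_nonneg _).trans (hM2 0)
  set M : ℝ := M1 * r⁻¹ + (M2 * r⁻¹ + M1 * (r ^ 2)⁻¹) with hM
  have hsecond : Tendsto (fun n => ∫ z in K, ‖cauchy (fun w => η w * α n w) z‖ ^ 2) atTop
      (𝓝 0) := by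
    have hz : Tendsto (fun n => ∫ z in K, ‖cauchy (fun w => η w * α n w) z‖ ^ 2) atTop
        (𝓝 (∫ _ in K, (0 : ℝ))) := by
      refine tendsto_integral_filter_of_dominated_convergence
        (fun _ => (M1 * r⁻¹ * C + (M2 * r⁻¹ + M1 * (r ^ 2)⁻¹) * C) ^ 2) ?_ ?_ ?_ ?_
      · refine Filter.Eventually.of_forall fun n => ?_
        have h1 : Continuous (cauchy (fun w => η w * α n w)) :=
          (contDiff_cauchy (hηT.smooth.mul (hα n)) hηT.supp.mul_right).continuous
        exact ((h1.norm).pow 2).aestronglyMeasurable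
      · filter_upwards [hC] with n hn
        refine (ae_restrict_iff' hK.measurableSet).2 (Eventually.of_forall fun z hz => ?_)
        rw [Real.norm_of_nonneg (by positivity)]
        have hT := test_ck hV hηT (hdisj z hz)
        have hoff : ∀ w, w ∉ L → η w = 0 := fun w hw1 =>
          image_eq_zero_of_notMem_tsupport fun h => hw1 (hηL h)
        have hb1 : ∀ w, ‖η w * ck (z - w)‖ ≤ M1 * r⁻¹ := by
          intro w
          by_cases hw1 : w ∈ tsupport η
          · rw [norm_mul]
            gcongr
            · exact hM1 w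
            · exact norm_ck_sub_le hr (hrd z hz w hw1)
          · rw [image_eq_zero_of_notMem_tsupport hw1, zero_mul, norm_zero]
            positivity
        have hb2 : ∀ w, ‖dz (fun w => η w * ck (z - w)) w‖ ≤ M2 * r⁻¹ + M1 * (r ^ 2)⁻¹ := by
          intro w
          by_cases hw1 : w ∈ tsupport η
          · have hne : w ≠ z := fun h => hdisj z hz (h ▸ hw1)
            have hd : DifferentiableAt ℝ (fun w => ck (z - w)) w :=
              ((contDiffOn_ck_sub z).contDiffAt (isOpen_compl_singleton.mem_nhds hne)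
                ).differentiableAt (by simp)
            rw [dz_mul (hηT.smooth.differentiable (by simp) w) hd]
            refine (norm_add_le _ _).trans ?_
            rw [norm_mul, norm_mul]
            gcongr
            · exact hM2 w
            · exact norm_ck_sub_le hr (hrd z hz w hw1)
            · exact hM1 w
            · exact norm_dz_ck_sub_le hr (hrd z hz w hw1)
          · have h1 : (fun w => η w * ck (z - w)) =ᶠ[𝓝 w] fun _ => 0 := by
              filter_upwards [notMem_tsupport_iff_eventuallyEq.mp hw1] with u hu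
              rw [hu, Pi.zero_apply, zero_mul]
            rw [dz_congr h1, dz_const, norm_zero]
            positivity
        have hoff2 : ∀ w, w ∉ L → dz (fun w => η w * ck (z - w)) w = 0 := by
          intro w hw1
          have hw2 : w ∉ tsupport η := fun h => hw1 (hηL h)
          have h1 : (fun w => η w * ck (z - w)) =ᶠ[𝓝 w] fun _ => 0 := by
            filter_upwards [notMem_tsupport_iff_eventuallyEq.mp hw2] with u hu
            rw [hu, Pi.zero_apply, zero_mul]
          rw [dz_congr h1, dz_const]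
        have e1 : cauchy (fun w => η w * α n w) z = (∫ w, (η w * ck (z - w)) * a n w) -
            ∫ w, dz (fun w => η w * ck (z - w)) w * b n w := by
          rw [cauchy_eq, sub_eq_add_neg, ← integral_mul_dz hV hT (hb n).contDiffOn,
            ← integral_add (hT.integrable_mul hV (ha n).continuous.continuousOn)
              (hT.integrable_mul hV (contDiff_dz (hb n)).continuous.continuousOn)]
          refine integral_congr_ae (Filter.Eventually.of_forall fun w => ?_)
          by_cases hw1 : w ∈ V
          · simp only [hab n w hw1]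
            ring
          · have : η w = 0 := hoff w fun h => hw1 (hLV h)
            simp only [this, zero_mul, add_zero]
        rw [e1]
        have h3 := norm_integral_mul_le hLc (M := M1 * r⁻¹) (ha n).continuous
          (ψ := fun w => η w * ck (z - w)) (fun w hw1 => by rw [hoff w hw1, zero_mul])
          (fun w _ => hb1 w)
        have h4 := norm_integral_mul_le hLc (M := M2 * r⁻¹ + M1 * (r ^ 2)⁻¹) (hb n).continuous
          (ψ := dz (fun w => η w * ck (z - w))) hoff2 (fun w _ => hb2 w)
        have h5 : M1 * r⁻¹ * ∫ w in L, ‖a n w‖ ≤ M1 * r⁻¹ * C := by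
          gcongr
          exact hn.1
        have h6 : (M2 * r⁻¹ + M1 * (r ^ 2)⁻¹) * ∫ w in L, ‖b n w‖ ≤
            (M2 * r⁻¹ + M1 * (r ^ 2)⁻¹) * C := by
          gcongr
          exact hn.2
        gcongr
        exact (norm_sub_le _ _).trans (add_le_add (h3.trans h5) (h4.trans h6))
      · exact integrableOn_const hK.measure_lt_top.ne
      · refine (ae_restrict_iff' hK.measurableSet).2 (Eventually.of_forall fun z hz => ?_)
        have hT := test_ck hV hηT (hdisj z hz)
        have h1 := hw _ hT
        have h2 : Tendsto (fun n => cauchy (fun w => η w * α n w) z) atTop (𝓝 0) := by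
          simp only [cauchy_eq]
          exact h1
        simpa using (h2.norm).pow 2
    simpa using hz
  -- conclusion
  have hsum : Tendsto (fun n => 2 * (∫ z in K, ‖cauchy (fun w => χ w * dzb (α n) w) z‖ ^ 2) +
      2 * ∫ z in K, ‖cauchy (fun w => η w * α n w) z‖ ^ 2) atTop (𝓝 0) := by
    simpa using (hfirst.const_mul 2).add (hsecond.const_mul 2)
  refine squeeze_zero (fun n => integral_nonneg fun z => by positivity) (fun n => ?_) hsum
  have hc1 : Continuous (cauchy (fun w => χ w * dzb (α n) w)) :=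
    (contDiff_cauchy (hχ.smooth.mul (contDiff_dzb (hα n))) hχ.supp.mul_right).continuous
  have hc2 : Continuous (cauchy (fun w => η w * α n w)) :=
    (contDiff_cauchy (hηT.smooth.mul (hα n)) hηT.supp.mul_right).continuous
  have hi1 : IntegrableOn (fun z => ‖cauchy (fun w => χ w * dzb (α n) w) z‖ ^ 2) K :=
    ((hc1.norm).pow 2).continuousOn.integrableOn_compact hK
  have hi2 : IntegrableOn (fun z => ‖cauchy (fun w => η w * α n w) z‖ ^ 2) K :=
    ((hc2.norm).pow 2).continuousOn.integrableOn_compact hK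
  rw [← integral_const_mul, ← integral_const_mul, ← integral_add (hi1.const_mul 2)
    (hi2.const_mul 2)]
  refine setIntegral_mono_on ((((hα n).continuous.norm).pow 2).continuousOn.integrableOn_compact hK)
    ((hi1.const_mul 2).add (hi2.const_mul 2)) hK.measurableSet fun z hz => ?_
  rw [hdec n z hz]
  have h1 := norm_add_le (cauchy (fun w => χ w * dzb (α n) w) z) (cauchy (fun w => η w * α n w) z)
  nlinarith [norm_nonneg (cauchy (fun w => χ w * dzb (α n) w) z),
    norm_nonneg (cauchy (fun w => η w * α n w) z),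
    norm_nonneg (cauchy (fun w => χ w * dzb (α n) w) z + cauchy (fun w => η w * α n w) z),
    sq_nonneg (‖cauchy (fun w => χ w * dzb (α n) w) z‖ - ‖cauchy (fun w => η w * α n w) z‖)]

end

end QJ
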