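import Pool.Agent.QJ.Stmts

/-!
Cubic and quartic statistics of quantum ergodic eigenfunctions: INT, integrals of dominated
functions.
-/

open Complex MeasureTheory Filter Topology Set
open scoped ContDiff

namespace QJ

open QE

namespace INT

lemma smooth_dz (f : ℂ → ℂ) (hf : ContDiff ℝ ∞ f) : ∀ a : ℕ, ContDiff ℝ ∞ (dz^[a] f)
  | 0 => hf
  | a + 1 => by
      rw [Function.iterate_succ_apply']
      exact contDiff_dz (smooth_dz f hf a)

lemma smooth_dzb (f : ℂ → ℂ) (hf : ContDiff ℝ ∞ f) : ∀ a : ℕ, ContDiff ℝ ∞ (dzb^[a] f)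
  | 0 => hf
  | a + 1 => by
      rw [Function.iterate_succ_apply']
      exact contDiff_dzb (smooth_dzb f hf a)

lemma cont_W (h : ℕ → ℝ) (φ : ℕ → ℂ → ℂ) (hφ : ∀ n, ContDiff ℝ ∞ (φ n)) (a b n : ℕ) :
    Continuous (W h φ a b n) := by
  have h1 : Continuous (dz^[a] (dzb^[b] (φ n))) :=
    (smooth_dz _ (smooth_dzb _ (hφ n) b) a).continuous
  exact continuous_const.mul h1

lemma cont_RR (h : ℕ → ℝ) (φ : ℕ → ℂ → ℂ) (hφ : ∀ n, ContDiff ℝ ∞ (φ n)) (N n : ℕ) :
    Continuous (RR h φ N n) := by
  refine continuous_const.add (continuous_finset_sum _ fun a _ =>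
    continuous_finset_sum _ fun b _ => ?_)
  exact ((cont_W h φ hφ a b n).norm).pow 2

lemma one_le_RR (h : ℕ → ℝ) (φ : ℕ → ℂ → ℂ) (N n : ℕ) (z : ℂ) : 1 ≤ RR h φ N n z := by
  unfold RR
  have : 0 ≤ ∑ a ∈ Finset.range (N + 1), ∑ b ∈ Finset.range (N + 1), ‖W h φ a b n z‖ ^ 2 :=
    Finset.sum_nonneg fun a _ => Finset.sum_nonneg fun b _ => by positivity
  linarith

lemma intOn {f : ℂ → ℝ} (hf : Continuous f) {K : Set ℂ} (hK : IsCompact K) :
    IntegrableOn f K := hf.continuousOn.integrableOn_compact hK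

lemma int_RR {V : Set ℂ} {h : ℕ → ℝ} {φ : ℕ → ℂ → ℂ} (hG : Grow V h φ) {K : Set ℂ}
    (hK : IsCompact K) (hKV : K ⊆ V) (N : ℕ) :
    ∃ C : ℝ, 0 ≤ C ∧ ∀ᶠ n in atTop, ∫ z in K, RR h φ N n z ≤ C := by
  rcases K.eq_empty_or_nonempty with rfl | ⟨z0, hz0⟩
  · refine ⟨0, le_refl _, Filter.Eventually.of_forall fun n => ?_⟩
    simp
  · obtain ⟨C, hC⟩ := hG.grow K hK hKV N
    obtain ⟨s, hs⟩ := hK.isBounded.subset_closedBall z0
    have h1 : K ∩ Metric.closedBall z0 (max s 1) = K :=
      inter_eq_left.mpr (hs.trans (Metric.closedBall_subset_closedBall (le_max_left _ _)))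
    refine ⟨|C * max s 1|, abs_nonneg _, ?_⟩
    filter_upwards [hC] with n hn
    have h2 := hn z0 hz0 (max s 1) (lt_of_lt_of_le one_pos (le_max_right _ _))
    rw [h1] at h2
    exact h2.trans (le_abs_self _)

/-- from the square to the function -/
lemma le_of_sq {x C R : ℝ} (q : ℕ) (hx : 0 ≤ x) (hR : 0 ≤ R) (h : x ^ 2 ≤ C * R ^ (2 * q)) :
    x ≤ √|C| * R ^ q := by
  have h1 : 0 ≤ √|C| * R ^ q := by positivity
  rw [← sq_le_sq₀ hx h1, mul_pow, Real.sq_sqrt (abs_nonneg _), ← pow_mul, mul_comm q 2]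
  exact h.trans (mul_le_mul_of_nonneg_right (le_abs_self C) (by positivity))

end INT

open INT in
/-- INT: integrals of dominated functions -/
theorem stmtInt : StmtInt := by
  intro V h φ u hpos hlim hφ hG hu
  refine ⟨?_, ?_, ?_⟩
  · intro hB K hK hKV
    obtain ⟨N, C, hC⟩ := hB K hK hKV
    obtain ⟨C1, hC1, hI⟩ := int_RR hG hK hKV N
    refine ⟨√|C| * C1, ?_⟩
    filter_upwards [hC, hI] with n hn hn1
    have h1 : ∀ z ∈ K, ‖u n z‖ ≤ √|C| * RR h φ N n z := by
      intro z hz
      have h2 := le_of_sq (C := C) (R := RR h φ N n z) 1 (norm_nonneg (u n z))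
        (zero_le_one.trans (one_le_RR h φ N n z)) (hn z hz)
      rwa [pow_one] at h2
    calc ∫ z in K, ‖u n z‖ ≤ ∫ z in K, √|C| * RR h φ N n z :=
          setIntegral_mono_on (intOn (hu n).continuous.norm hK)
            (intOn (continuous_const.mul (cont_RR h φ hφ N n)) hK) hK.measurableSet h1
      _ = √|C| * ∫ z in K, RR h φ N n z := integral_const_mul _ _
      _ ≤ √|C| * C1 := mul_le_mul_of_nonneg_left hn1 (Real.sqrt_nonneg _)
  · intro hB K hK hKV
    obtain ⟨N, C, hC⟩ := hB K hK hKV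
    obtain ⟨C1, hC1, hI⟩ := int_RR hG hK hKV N
    have hS := hG.small K hK hKV N 1 one_pos
    have hz : Tendsto (fun n => |C| * (h n * C1)) atTop (𝓝 0) := by
      have := (hlim.mul_const C1).const_mul |C|
      simpa using this
    refine squeeze_zero' (Filter.Eventually.of_forall fun n => ?_) ?_ hz
    · exact integral_nonneg fun z => by positivity
    · filter_upwards [hC, hI, hS] with n hn hn1 hn2
      have hh := hpos n
      have h1 : ∀ z ∈ K, ‖(h n : ℂ) * u n z‖ ^ 2 ≤ |C| * h n * RR h φ N n z := by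
        intro z hz
        have hR := one_le_RR h φ N n z
        rw [norm_mul, mul_pow, Complex.norm_real, Real.norm_eq_abs, sq_abs]
        calc h n ^ 2 * ‖u n z‖ ^ 2 ≤ h n ^ 2 * (|C| * RR h φ N n z ^ 2) := by
              refine mul_le_mul_of_nonneg_left ((hn z hz).trans ?_) (by positivity)
              exact mul_le_mul_of_nonneg_right (le_abs_self C) (by positivity)
          _ = |C| * (h n * RR h φ N n z) * (h n * RR h φ N n z) := by ring
          _ ≤ |C| * (h n * RR h φ N n z) * 1 :=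
              mul_le_mul_of_nonneg_left (hn2 z hz) (by positivity)
          _ = |C| * h n * RR h φ N n z := by ring
      calc ∫ z in K, ‖(h n : ℂ) * u n z‖ ^ 2 ≤ ∫ z in K, |C| * h n * RR h φ N n z :=
            setIntegral_mono_on
              (intOn ((continuous_const.mul (hu n).continuous).norm.pow 2) hK)
              (intOn (continuous_const.mul (cont_RR h φ hφ N n)) hK) hK.measurableSet h1
        _ = |C| * h n * ∫ z in K, RR h φ N n z := integral_const_mul _ _
        _ ≤ |C| * h n * C1 := mul_le_mul_of_nonneg_left hn1 (by positivity)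
        _ = |C| * (h n * C1) := by ring
  · intro hB K hK hKV
    obtain ⟨N, C, hC⟩ := hB K hK hKV
    obtain ⟨C1, hC1, hI⟩ := int_RR hG hK hKV N
    rw [Metric.tendsto_atTop']
    intro δ hδ
    have hD : 0 < √|C| * C1 + 1 := by positivity
    have hS := hG.small K hK hKV N (δ / (√|C| * C1 + 1) / 2) (by positivity)
    have hev : ∀ᶠ n in atTop, dist (h n * ∫ z in K, ‖u n z‖) 0 < δ := by
      filter_upwards [hC, hI, hS] with n hn hn1 hn2
      have hh := hpos n
      have h1 : ∀ z ∈ K, ‖u n z‖ ≤ √|C| * RR h φ N n z ^ 2 := fun z hz =>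
        le_of_sq (C := C) (R := RR h φ N n z) 2 (norm_nonneg (u n z))
          (zero_le_one.trans (one_le_RR h φ N n z)) (hn z hz)
      have h2 : h n * ∫ z in K, ‖u n z‖ ≤ √|C| * (δ / (√|C| * C1 + 1) / 2) * C1 := by
        calc h n * ∫ z in K, ‖u n z‖ = ∫ z in K, h n * ‖u n z‖ := (integral_const_mul _ _).symm
          _ ≤ ∫ z in K, √|C| * (δ / (√|C| * C1 + 1) / 2) * RR h φ N n z := by
              refine setIntegral_mono_on
                (intOn (continuous_const.mul (hu n).continuous.norm) hK)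
                (intOn (continuous_const.mul (cont_RR h φ hφ N n)) hK) hK.measurableSet ?_
              intro z hz
              have hR := one_le_RR h φ N n z
              calc h n * ‖u n z‖ ≤ h n * (√|C| * RR h φ N n z ^ 2) :=
                    mul_le_mul_of_nonneg_left (h1 z hz) hh.le
                _ = √|C| * (h n * RR h φ N n z) * RR h φ N n z := by ring
                _ ≤ √|C| * (δ / (√|C| * C1 + 1) / 2) * RR h φ N n z := by
                    refine mul_le_mul_of_nonneg_right ?_ (by positivity)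
                    exact mul_le_mul_of_nonneg_left (hn2 z hz) (Real.sqrt_nonneg _)
          _ = √|C| * (δ / (√|C| * C1 + 1) / 2) * ∫ z in K, RR h φ N n z :=
              integral_const_mul _ _
          _ ≤ √|C| * (δ / (√|C| * C1 + 1) / 2) * C1 :=
              mul_le_mul_of_nonneg_left hn1 (by positivity)
      have h3 : 0 ≤ h n * ∫ z in K, ‖u n z‖ :=
        mul_nonneg hh.le (integral_nonneg fun z => norm_nonneg _)
      rw [Real.dist_eq, sub_zero, abs_of_nonneg h3]
      refine lt_of_le_of_lt h2 ?_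
      have h4 : √|C| * (δ / (√|C| * C1 + 1) / 2) * C1 =
          (√|C| * C1) / (√|C| * C1 + 1) * (δ / 2) := by ring
      rw [h4]
      have h5 : (√|C| * C1) / (√|C| * C1 + 1) ≤ 1 := by
        rw [div_le_one hD]
        linarith
      calc (√|C| * C1) / (√|C| * C1 + 1) * (δ / 2) ≤ 1 * (δ / 2) :=
            mul_le_mul_of_nonneg_right h5 (by positivity)
        _ < δ := by linarith
    obtain ⟨n0, hn0⟩ := Filter.eventually_atTop.mp hev
    exact ⟨n0, fun n hn => hn0 n hn.le⟩

end QJ
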