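import Pool.Agent.QJ.Stmts2

/-!
Iterated derivatives in terms of the Wirtinger derivatives.
-/

open MeasureTheory Filter Topology Set
open scoped ContDiff

namespace QJ

open QE

noncomputable section

namespace ITER

/-! ### The coefficients -/

open Polynomial in
/-- the generating polynomial of the coefficients -/
def gen {k : ℕ} (v : Fin k → ℂ) : Polynomial ℂ := ∏ i, (C (v i) * X + C ((starRingEnd ℂ) (v i)))

open Polynomial in
theorem gen_coeff {k : ℕ} (v : Fin k → ℂ) (a : ℕ) : (gen v).coeff a = sc v a := by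
  unfold gen sc
  rw [Finset.prod_add, finsetSum_coeff, Finset.powersetCard_eq_filter, Finset.sum_filter]
  apply Finset.sum_congr rfl
  intro t _
  have h1 : (∏ i ∈ t, C (v i) * X) * ∏ i ∈ Finset.univ \ t, C ((starRingEnd ℂ) (v i)) =
      C ((∏ i ∈ t, v i) * ∏ i ∈ tᶜ, (starRingEnd ℂ) (v i)) * X ^ t.card := by
    rw [Finset.prod_mul_distrib, Finset.prod_const, C_mul, map_prod, map_prod,
      Finset.compl_eq_univ_sdiff]
    ring
  rw [h1, coeff_C_mul, coeff_X_pow]
  by_cases h : t.card = a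
  · rw [if_pos h, if_pos h.symm, mul_one]
  · rw [if_neg h, if_neg (fun h' => h h'.symm), mul_zero]

open Polynomial in
theorem gen_succ {k : ℕ} (v : Fin (k + 1) → ℂ) :
    gen v = (C (v 0) * X + C ((starRingEnd ℂ) (v 0))) * gen (Fin.tail v) := by
  unfold gen
  rw [Fin.prod_univ_succ]
  rfl

open Polynomial in
theorem sc_zero {k : ℕ} (v : Fin (k + 1) → ℂ) :
    sc v 0 = (starRingEnd ℂ) (v 0) * sc (Fin.tail v) 0 := by
  rw [← gen_coeff, ← gen_coeff, gen_succ]
  simp [Polynomial.mul_coeff_zero]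

open Polynomial in
theorem sc_succ {k : ℕ} (v : Fin (k + 1) → ℂ) (a : ℕ) :
    sc v (a + 1) = v 0 * sc (Fin.tail v) a + (starRingEnd ℂ) (v 0) * sc (Fin.tail v) (a + 1) := by
  rw [← gen_coeff, ← gen_coeff, ← gen_coeff, gen_succ, add_mul, coeff_add, mul_assoc, coeff_C_mul,
    coeff_C_mul, coeff_X_mul]

theorem sc_top {k : ℕ} (v : Fin k → ℂ) {a : ℕ} (h : k < a) : sc v a = 0 := by
  unfold sc
  have : Finset.powersetCard a (Finset.univ : Finset (Fin k)) = ∅ := by
    rw [Finset.powersetCard_eq_empty]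
    simpa using h
  rw [this, Finset.sum_empty]

theorem sc_nil (v : Fin 0 → ℂ) : sc v 0 = 1 := by
  unfold sc
  simp

/-! ### The derivatives -/

theorem smooth_dz {U : Set ℂ} (hU : IsOpen U) {f : ℂ → ℂ} (hf : ContDiffOn ℝ ∞ f U) (a : ℕ) :
    ContDiffOn ℝ ∞ (dz^[a] f) U := by
  induction a with
  | zero => exact hf
  | succ a ih =>
    rw [Function.iterate_succ_apply']
    exact contDiffOn_dz hU ih

theorem smooth_dzb {U : Set ℂ} (hU : IsOpen U) {f : ℂ → ℂ} (hf : ContDiffOn ℝ ∞ f U) (a : ℕ) :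
    ContDiffOn ℝ ∞ (dzb^[a] f) U := by
  induction a with
  | zero => exact hf
  | succ a ih =>
    rw [Function.iterate_succ_apply']
    exact contDiffOn_dzb hU ih

theorem comm_iter {U : Set ℂ} (hU : IsOpen U) {f : ℂ → ℂ} (hf : ContDiffOn ℝ ∞ f U) (a : ℕ) :
    ∀ x ∈ U, dzb (dz^[a] f) x = dz^[a] (dzb f) x := by
  induction a with
  | zero =>
    intro x _
    rfl
  | succ a ih =>
    intro x hx
    rw [Function.iterate_succ_apply', Function.iterate_succ_apply']
    have h1 : ContDiffAt ℝ 2 (dz^[a] f) x :=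
      ((smooth_dz hU hf a).contDiffAt (hU.mem_nhds hx)).of_le
        (show ((2 : ℕ∞) : WithTop ℕ∞) ≤ ((⊤ : ℕ∞) : WithTop ℕ∞) from WithTop.coe_le_coe.2 le_top)
    rw [← dz_dzb_comm h1]
    exact dz_congr_on hU ih hx

theorem fderiv_eq {f : ℂ → ℂ} (z v : ℂ) :
    fderiv ℝ f z v = v * dz f z + (starRingEnd ℂ) v * dzb f z := by
  unfold dz dzb
  have h1 : v = (v.re : ℝ) • (1 : ℂ) + (v.im : ℝ) • Complex.I := by
    apply Complex.ext <;> simp
  have h2 : fderiv ℝ f z v = (v.re : ℂ) * fderiv ℝ f z 1 + (v.im : ℂ) * fderiv ℝ f z Complex.I := by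
    conv_lhs => rw [h1]
    rw [map_add, map_smul, map_smul]
    simp only [Complex.real_smul]
  have h3 : (starRingEnd ℂ) v = (v.re : ℂ) - v.im * Complex.I := by
    apply Complex.ext <;> simp
  have h4 : v = (v.re : ℂ) + v.im * Complex.I := (Complex.re_add_im v).symm
  rw [h2, h3]
  conv_rhs => rw [h4]
  have hI := Complex.I_mul_I
  simp only [Complex.add_re, Complex.ofReal_re, Complex.mul_re, Complex.I_re, mul_zero,
    Complex.ofReal_im, Complex.I_im, mul_one, sub_self, add_zero, Complex.add_im, Complex.mul_im,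
    zero_add]
  linear_combination ((v.im : ℂ) * fderiv ℝ f z Complex.I) * hI

/-- one term -/
def tm (F : ℂ → ℝ) (a b : ℕ) (x : ℂ) : ℂ := dz^[a] (dzb^[b] (fun w => (F w : ℂ))) x

theorem fderiv_tm {U : Set ℂ} (hU : IsOpen U) {F : ℂ → ℝ} (hF : ContDiffOn ℝ ∞ F U) {x : ℂ}
    (hx : x ∈ U) (a b : ℕ) (w : ℂ) :
    fderiv ℝ (tm F a b) x w = w * tm F (a + 1) b x + (starRingEnd ℂ) w * tm F a (b + 1) x := by
  have hFc : ContDiffOn ℝ ∞ (fun w => (F w : ℂ)) U := Complex.ofRealCLM.contDiff.comp_contDiffOn hF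
  rw [fderiv_eq]
  have h1 : dz (tm F a b) x = tm F (a + 1) b x := by
    unfold tm
    rw [Function.iterate_succ_apply']
  have h2 : dzb (tm F a b) x = tm F a (b + 1) x := by
    have h3 := comm_iter hU (smooth_dzb hU hFc b) a x hx
    unfold tm
    rw [Function.iterate_succ_apply' dzb]
    exact h3
  rw [h1, h2]

theorem smooth_tm {U : Set ℂ} (hU : IsOpen U) {F : ℂ → ℝ} (hF : ContDiffOn ℝ ∞ F U) (a b : ℕ) :
    ContDiffOn ℝ ∞ (tm F a b) U := by
  have hFc : ContDiffOn ℝ ∞ (fun w => (F w : ℂ)) U := Complex.ofRealCLM.contDiff.comp_contDiffOn hF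
  exact smooth_dz hU (smooth_dzb hU hFc b) a

theorem main {U : Set ℂ} (hU : IsOpen U) {F : ℂ → ℝ} (hF : ContDiffOn ℝ ∞ F U) (k : ℕ) :
    ∀ (v : Fin k → ℂ), ∀ x ∈ U, ((iteratedFDeriv ℝ k F x v : ℝ) : ℂ)
      = ∑ a ∈ Finset.range (k + 1), sc v a * tm F a (k - a) x := by
  induction k with
  | zero =>
    intro v x _
    simp only [zero_add, Finset.range_one, Finset.sum_singleton, sc_nil, one_mul]
    simp [tm]
  | succ k ih =>
    intro v x hx
    have hFx : ContDiffAt ℝ ∞ F x := hF.contDiffAt (hU.mem_nhds hx)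
    have hd : DifferentiableAt ℝ (iteratedFDeriv ℝ k F) x :=
      hFx.differentiableAt_iteratedFDeriv (by exact_mod_cast WithTop.coe_lt_top _)
    rw [iteratedFDeriv_succ_apply_left,
      ← fderiv_continuousMultilinear_apply_const_apply hd (Fin.tail v) (v 0)]
    have hdr : DifferentiableAt ℝ (fun y => iteratedFDeriv ℝ k F y (Fin.tail v)) x :=
      hd.continuousMultilinear_apply_const _
    have h1 : ((fderiv ℝ (fun y => iteratedFDeriv ℝ k F y (Fin.tail v)) x (v 0) : ℝ) : ℂ) =
        fderiv ℝ (fun y => ((iteratedFDeriv ℝ k F y (Fin.tail v) : ℝ) : ℂ)) x (v 0) := by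
      have h2 : HasFDerivAt (fun y => ((iteratedFDeriv ℝ k F y (Fin.tail v) : ℝ) : ℂ))
          (Complex.ofRealCLM.comp (fderiv ℝ (fun y => iteratedFDeriv ℝ k F y (Fin.tail v)) x)) x :=
        (Complex.ofRealCLM.hasFDerivAt).comp x hdr.hasFDerivAt
      rw [h2.fderiv]
      rfl
    rw [h1]
    have h3 : (fun y => ((iteratedFDeriv ℝ k F y (Fin.tail v) : ℝ) : ℂ)) =ᶠ[𝓝 x]
        fun y => ∑ a ∈ Finset.range (k + 1), sc (Fin.tail v) a * tm F a (k - a) y := by
      filter_upwards [hU.mem_nhds hx] with y hy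
      exact ih (Fin.tail v) y hy
    rw [h3.fderiv_eq]
    have hdt : ∀ a b, DifferentiableAt ℝ (tm F a b) x := fun a b =>
      ((smooth_tm hU hF a b).contDiffAt (hU.mem_nhds hx)).differentiableAt (by simp)
    have h4 : fderiv ℝ (fun y => ∑ a ∈ Finset.range (k + 1),
        sc (Fin.tail v) a * tm F a (k - a) y) x (v 0) =
        ∑ a ∈ Finset.range (k + 1), sc (Fin.tail v) a *
          (v 0 * tm F (a + 1) (k - a) x + (starRingEnd ℂ) (v 0) * tm F a (k - a + 1) x) := by
      rw [fderiv_fun_sum fun a _ => (hdt a (k - a)).const_mul _]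
      rw [_root_.sum_apply]
      apply Finset.sum_congr rfl
      intro a _
      rw [fderiv_const_mul (hdt a (k - a)), smul_apply, smul_eq_mul,
        fderiv_tm hU hF hx]
    rw [h4]
    -- the sums
    rw [Finset.sum_range_succ' _ (k + 1)]
    have h5 : ∑ a ∈ Finset.range (k + 1), sc v (a + 1) * tm F (a + 1) (k + 1 - (a + 1)) x =
        ∑ a ∈ Finset.range (k + 1), v 0 * sc (Fin.tail v) a * tm F (a + 1) (k - a) x
          + ∑ a ∈ Finset.range (k + 1), (starRingEnd ℂ) (v 0) * sc (Fin.tail v) (a + 1)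
            * tm F (a + 1) (k - a) x := by
      rw [← Finset.sum_add_distrib]
      apply Finset.sum_congr rfl
      intro a _
      rw [sc_succ, Nat.add_sub_add_right]
      ring
    rw [h5, Finset.sum_range_succ (fun a => (starRingEnd ℂ) (v 0) * sc (Fin.tail v) (a + 1)
      * tm F (a + 1) (k - a) x) k, sc_top (Fin.tail v) (Nat.lt_succ_self k)]
    have h6 : ∑ a ∈ Finset.range (k + 1), sc (Fin.tail v) a *
          (v 0 * tm F (a + 1) (k - a) x + (starRingEnd ℂ) (v 0) * tm F a (k - a + 1) x) =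
        ∑ a ∈ Finset.range (k + 1), v 0 * sc (Fin.tail v) a * tm F (a + 1) (k - a) x
          + ∑ a ∈ Finset.range (k + 1), (starRingEnd ℂ) (v 0) * sc (Fin.tail v) a
            * tm F a (k - a + 1) x := by
      rw [← Finset.sum_add_distrib]
      apply Finset.sum_congr rfl
      intro a _
      ring
    rw [h6, Finset.sum_range_succ' (fun a => (starRingEnd ℂ) (v 0) * sc (Fin.tail v) a
      * tm F a (k - a + 1) x) k, sc_zero v]
    have h7 : ∑ a ∈ Finset.range k, (starRingEnd ℂ) (v 0) * sc (Fin.tail v) (a + 1)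
          * tm F (a + 1) (k - (a + 1) + 1) x =
        ∑ a ∈ Finset.range k, (starRingEnd ℂ) (v 0) * sc (Fin.tail v) (a + 1)
          * tm F (a + 1) (k - a) x := by
      apply Finset.sum_congr rfl
      intro a ha
      rw [Finset.mem_range] at ha
      have : k - (a + 1) + 1 = k - a := by omega
      rw [this]
    rw [h7]
    simp only [Nat.sub_zero, mul_zero, zero_mul, add_zero]
    ring

end ITER

/-- ITER: iterated derivatives in terms of the Wirtinger derivatives -/
theorem stmtIter : StmtIter := by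
  intro U F hU h0 hF k v
  exact ITER.main hU hF k v 0 h0

end

end QJ
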