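import Pool.Agent.QJ.Stmts
import Pool.Agent.QJ.Dom

/-!
The rescaled mixed derivatives are covariant jets up to `O(h)`.
-/

open Complex MeasureTheory Filter Topology Set
open scoped ContDiff

namespace QJ

open QE

noncomputable section

namespace JETB

variable {V : Set ℂ} {σ : ℂ → ℝ} {h : ℕ → ℝ} {φ : ℕ → ℂ → ℂ}

/-- the conclusion for given `a`, `b` -/
def Cl (V : Set ℂ) (σ : ℂ → ℝ) (h : ℕ → ℝ) (φ : ℕ → ℂ → ℂ) (a b : ℕ) : Prop :=
  ∃ A, Dom V h φ 1 A ∧ ∀ n, ∀ z ∈ V,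
    ex σ (-(a + b)) z * W h φ a b n z
      = (2 : ℂ)⁻¹ ^ (a + b) * (-1) ^ b * E σ h φ ((a : ℤ) - b) n z + (h n : ℂ) * A n z

lemma cl_zero (L : Loc V σ h φ) : Cl V σ h φ 0 0 := by
  refine ⟨fun _ _ => 0, Dom.of_fn L.op L.hlim 1 contDiff_const, fun n z _ => ?_⟩
  have e0 : E σ h φ (((0 : ℕ) : ℤ) - ((0 : ℕ) : ℤ)) = φ := rfl
  have e1 : (-(((0 : ℕ) : ℤ) + ((0 : ℕ) : ℤ))) = 0 := by norm_num
  rw [e0, e1, W_zero, ex_zero]
  simp

lemma step_b (hJ : StmtJetA) (L : Loc V σ h φ) {a b : ℕ} (hc : Cl V σ h φ a b) :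
    Cl V σ h φ a (b + 1) := by
  obtain ⟨A, hA, hE⟩ := hc
  obtain ⟨dE, -, A1, hA1, hD⟩ := hJ V σ h φ L ((a : ℤ) - b)
  have hσ := L.sm
  have hs := contDiff_dzb (contDiff_sig hσ)
  set c : ℂ := (2 : ℂ)⁻¹ ^ (a + b) * (-1) ^ b with hcdef
  have t1 := (hA1.hmul L.op L.hlim).smul L.op (2⁻¹ * c)
  have t2 := dE.fn_mul L.op L.hlim (b := fun z => -(c * (((a : ℤ) - b : ℤ) : ℂ)
    * (ex σ (-1) z * dzb (fun w => (σ w : ℂ)) z)))
    (contDiff_const.mul ((contDiff_ex hσ (-1)).mul hs)).neg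
  have t3 := hA.hdzb.fn_mul L.op L.hlim (contDiff_ex hσ (-1))
  have t4 := (Dom.W (h := h) L.smφ L.op a b).fn_mul L.op L.hlim (b := fun z => ((a : ℂ) + b)
    * (ex σ (-1) z * dzb (fun w => (σ w : ℂ)) z * ex σ (-(a + b)) z))
    (contDiff_const.mul (((contDiff_ex hσ (-1)).mul hs).mul (contDiff_ex hσ _)))
  refine ⟨_, ((t1.add L.op t2).add L.op t3).add L.op t4, fun n z hz => ?_⟩
  have sE := dE.smooth n
  have sA := hA.smooth n
  have sW := contDiff_W (h := h) L.smφ a b n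
  have hEn := hE n
  have h1 := dzb_congr_on L.op hEn hz
  rw [dzb_mul (cd_at (contDiff_ex hσ _) z) (cd_at sW z), dzb_ex hσ,
    dzb_add ((cd_at sE z).const_mul _) ((cd_at sA z).const_mul _), dzb_const_mul _ (cd_at sE z),
    dzb_const_mul _ (cd_at sA z)] at h1
  have h2 := hD n z hz
  rw [Db_eq hσ _ (cd_at sE z)] at h2
  have e1 : ((a : ℤ) - ((b + 1 : ℕ) : ℤ)) = (a : ℤ) - b - 1 := by push_cast; ring
  have e2 : (-((a : ℤ) + ((b + 1 : ℕ) : ℤ))) = -1 + (-((a : ℤ) + b)) := by push_cast; ring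
  rw [e1, e2, ← ex_mul, ← hdzb_W L.smφ, ← add_assoc, pow_succ, pow_succ]
  have e3 : (2 : ℂ)⁻¹ ^ (a + b) * (2 : ℂ)⁻¹ * ((-1) ^ b * -1) = -(2⁻¹ * c) := by
    rw [hcdef]; ring
  rw [e3]
  push_cast at h1 h2 ⊢
  linear_combination (h n : ℂ) * ex σ (-1) z * h1 + (2⁻¹ * c) * h2

lemma step_a (hJ : StmtJetA) (L : Loc V σ h φ) {a b : ℕ} (hc : Cl V σ h φ a b) :
    Cl V σ h φ (a + 1) b := by
  obtain ⟨A, hA, hE⟩ := hc
  obtain ⟨dE, ⟨A1, hA1, hD⟩, -⟩ := hJ V σ h φ L ((a : ℤ) - b)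
  have hσ := L.sm
  have hs := contDiff_dz (contDiff_sig hσ)
  set c : ℂ := (2 : ℂ)⁻¹ ^ (a + b) * (-1) ^ b with hcdef
  have t1 := (hA1.hmul L.op L.hlim).smul L.op (2⁻¹ * c)
  have t2 := dE.fn_mul L.op L.hlim (b := fun z => (c * (((a : ℤ) - b : ℤ) : ℂ)
    * (ex σ (-1) z * dz (fun w => (σ w : ℂ)) z)))
    (contDiff_const.mul ((contDiff_ex hσ (-1)).mul hs))
  have t3 := hA.hdz.fn_mul L.op L.hlim (contDiff_ex hσ (-1))
  have t4 := (Dom.W (h := h) L.smφ L.op a b).fn_mul L.op L.hlim (b := fun z => ((a : ℂ) + b)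
    * (ex σ (-1) z * dz (fun w => (σ w : ℂ)) z * ex σ (-(a + b)) z))
    (contDiff_const.mul (((contDiff_ex hσ (-1)).mul hs).mul (contDiff_ex hσ _)))
  refine ⟨_, ((t1.add L.op t2).add L.op t3).add L.op t4, fun n z hz => ?_⟩
  have sE := dE.smooth n
  have sA := hA.smooth n
  have sW := contDiff_W (h := h) L.smφ a b n
  have hEn := hE n
  have h1 := dz_congr_on L.op hEn hz
  rw [dz_mul (cd_at (contDiff_ex hσ _) z) (cd_at sW z), dz_ex hσ,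
    dz_add ((cd_at sE z).const_mul _) ((cd_at sA z).const_mul _), dz_const_mul _ (cd_at sE z),
    dz_const_mul _ (cd_at sA z)] at h1
  have h2 := hD n z hz
  rw [D_eq hσ _ (cd_at sE z)] at h2
  have e1 : (((a + 1 : ℕ) : ℤ) - (b : ℤ)) = (a : ℤ) - b + 1 := by push_cast; ring
  have e2 : (-(((a + 1 : ℕ) : ℤ) + (b : ℤ))) = -1 + (-((a : ℤ) + b)) := by push_cast; ring
  have e4 : a + 1 + b = a + b + 1 := by ring
  rw [e1, e2, ← ex_mul, ← hdz_W L.smφ, e4, pow_succ]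
  have e3 : (2 : ℂ)⁻¹ ^ (a + b) * (2 : ℂ)⁻¹ * (-1) ^ b = 2⁻¹ * c := by
    rw [hcdef]; ring
  rw [e3]
  push_cast at h1 h2 ⊢
  linear_combination (h n : ℂ) * ex σ (-1) z * h1 + (2⁻¹ * c) * h2

end JETB

open JETB in
theorem stmtJetB (hJetA : StmtJetA) : StmtJetB := by
  intro V σ h φ L a b
  have h0 : ∀ b : ℕ, Cl V σ h φ 0 b := by
    intro b
    induction b with
    | zero => exact cl_zero L
    | succ b ih => exact step_b hJetA L ih
  have h1 : ∀ a : ℕ, Cl V σ h φ a b := by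
    intro a
    induction a with
    | zero => exact h0 b
    | succ a ih => exact step_a hJetA L ih
  exact h1 a

end

end QJ
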