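import Pool.Agent.QJ.Stmts
import Pool.Agent.QJ.Dom

/-!
Module LWE: the error terms of the local theorem, and the transfer from `LocalQE` to `Loc`.
-/

open Complex MeasureTheory Filter Topology Set
open scoped ContDiff

namespace QJ

open QE

noncomputable section

namespace LWE

lemma iter_dz_congr {V : Set ℂ} (hV : IsOpen V) {f g : ℂ → ℂ} (h : ∀ z ∈ V, f z = g z) (a : ℕ) :
    ∀ z ∈ V, dz^[a] f z = dz^[a] g z := by
  induction a with
  | zero => exact h
  | succ a ih =>
    intro z hz
    rw [Function.iterate_succ_apply', Function.iterate_succ_apply']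
    exact dz_congr_on hV ih hz

lemma iter_dzb_congr {V : Set ℂ} (hV : IsOpen V) {f g : ℂ → ℂ} (h : ∀ z ∈ V, f z = g z) (a : ℕ) :
    ∀ z ∈ V, dzb^[a] f z = dzb^[a] g z := by
  induction a with
  | zero => exact h
  | succ a ih =>
    intro z hz
    rw [Function.iterate_succ_apply', Function.iterate_succ_apply']
    exact dzb_congr_on hV ih hz

/-- the mixed derivatives depend on the functions near the point only -/
lemma W_congr {V : Set ℂ} (hV : IsOpen V) {h : ℕ → ℝ} {φ φ' : ℕ → ℂ → ℂ}
    (he : ∀ n, ∀ z ∈ V, φ' n z = φ n z) (a b n : ℕ) {z : ℂ} (hz : z ∈ V) :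
    W h φ' a b n z = W h φ a b n z := by
  unfold W
  rw [iter_dz_congr hV (iter_dzb_congr hV (he n) b) a z hz]

lemma test_re {U : Set ℂ} {χ : ℂ → ℂ} (hχ : Test U χ) : Test U (fun z => ((χ z).re : ℂ)) := by
  have hs : Function.support (fun z => ((χ z).re : ℂ)) ⊆ Function.support χ := by
    intro z hz h0
    apply hz
    show ((χ z).re : ℂ) = 0
    rw [h0]; simp
  exact ⟨Complex.ofRealCLM.contDiff.comp (Complex.reCLM.contDiff.comp hχ.smooth),
    hχ.supp.mono hs, (closure_mono hs).trans hχ.sub⟩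

/-- integrals against test functions depend on the values on the set only -/
lemma int_congr {V : Set ℂ} {ζ u v : ℂ → ℂ} (hζ : Test V ζ) (h : ∀ z ∈ V, u z = v z) :
    ∫ z, ζ z * u z = ∫ z, ζ z * v z := by
  congr 1
  funext z
  by_cases hz : z ∈ V
  · rw [h z hz]
  · rw [image_eq_zero_of_notMem_tsupport fun hh => hz (hζ.sub hh), zero_mul, zero_mul]

/-- transfer from `LocalQE` to `Loc` near a compact set -/
theorem transfer {U : Set ℂ} {g : ℂ → ℝ} {h : ℕ → ℝ} {φ : ℕ → ℂ → ℂ} (hU : IsOpen U)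
    (hg : ContDiffOn ℝ ∞ g U) (hpos : ∀ z ∈ U, 0 < g z) (H : LocalQE U g h φ) {K : Set ℂ}
    (hK : IsCompact K) (hKU : K ⊆ U) :
    ∃ (V : Set ℂ) (σ : ℂ → ℝ) (φ' : ℕ → ℂ → ℂ), IsOpen V ∧ K ⊆ V ∧ V ⊆ U ∧ Loc V σ h φ' ∧
      (∀ n, ∀ z ∈ V, φ' n z = φ n z) ∧ ∀ z ∈ V, Real.exp (2 * σ z) = g z := by
  obtain ⟨χ, hχ, hχ1, -⟩ := exists_cutoff hU hK hKU
  have hr := test_re hχ
  obtain ⟨V, hV⟩ : ∃ V : Set ℂ, V = interior {w | χ w = 1} := ⟨_, rfl⟩
  have hVo : IsOpen V := by rw [hV]; exact isOpen_interior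
  have hV1 : ∀ z ∈ V, χ z = 1 := fun z hz => by
    rw [hV] at hz
    have h1 : z ∈ {w | χ w = 1} := interior_subset hz
    exact h1
  have hKV : K ⊆ V := fun z hz => by
    rw [hV, mem_interior_iff_mem_nhds]
    exact hχ1 z hz
  have hVU : V ⊆ U := fun z hz => hχ.sub (subset_tsupport χ (by
    rw [Function.mem_support, hV1 z hz]
    exact one_ne_zero))
  have hlog : ContDiffOn ℝ ∞ (fun z => ((Real.log (g z) / 2 : ℝ) : ℂ)) U :=
    Complex.ofRealCLM.contDiff.comp_contDiffOn
      ((hg.log fun z hz => (hpos z hz).ne').div_const 2)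
  have hσ : ContDiff ℝ ∞ (fun z => (χ z).re * (Real.log (g z) / 2)) := by
    have h1 := Complex.reCLM.contDiff.comp (hr.mul hU hlog).smooth
    have h2 : (fun z => (χ z).re * (Real.log (g z) / 2)) =
        (Complex.reCLM ∘ fun z => ((χ z).re : ℂ) * ((Real.log (g z) / 2 : ℝ) : ℂ)) := by
      funext z
      show _ = (((χ z).re : ℂ) * ((Real.log (g z) / 2 : ℝ) : ℂ)).re
      rw [← Complex.ofReal_mul, Complex.ofReal_re]
    rw [h2]
    exact h1
  have hφV : ∀ n, ∀ z ∈ V, ((χ z).re : ℂ) * φ n z = φ n z := fun n z hz => by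
    rw [hV1 z hz]; simp
  have hσV : ∀ z ∈ V, Real.exp (2 * ((χ z).re * (Real.log (g z) / 2))) = g z := fun z hz => by
    rw [hV1 z hz, Complex.one_re, one_mul, mul_div_cancel₀ _ (two_ne_zero)]
    exact Real.exp_log (hpos z (hVU hz))
  refine ⟨V, fun z => (χ z).re * (Real.log (g z) / 2), fun n z => ((χ z).re : ℂ) * φ n z, hVo,
    hKV, hVU, ?_, hφV, hσV⟩
  exact
    { op := hVo
      hpos := H.hpos
      hlim := H.hlim
      sm := hσ
      smφ := fun n => (hr.mul hU (H.smooth n)).smooth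
      real := by
        intro n z
        by_cases hz : z ∈ U
        · rw [map_mul, Complex.conj_ofReal, H.real n z hz]
        · have h0 : χ z = 0 := image_eq_zero_of_notMem_tsupport fun hh => hz (hχ.sub hh)
          rw [h0]
          simp
      eig := by
        intro n z hz
        have h1 : dz (dzb (fun z => ((χ z).re : ℂ) * φ n z)) z = dz (dzb (φ n)) z :=
          dz_congr_on hVo (fun w hw => dzb_congr_on hVo (hφV n) hw) hz
        rw [h1, H.eig n z (hVU hz), hφV n z hz]
        unfold ex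
        have h2 : Real.exp (((2 : ℤ) : ℝ) * ((χ z).re * (Real.log (g z) / 2))) = g z := by
          have := hσV z hz
          push_cast
          exact this
        rw [h2]
      mass := by
        intro ζ hζ
        have h1 := H.mass ζ (hζ.mono hVU)
        refine h1.congr fun n => ?_
        exact (int_congr hζ fun z hz => by rw [hφV n z hz]).symm
      mom := by
        intro k hk ζ hζ
        have h1 := H.mom k hk ζ (hζ.mono hVU)
        refine h1.congr fun n => ?_
        exact (int_congr hζ fun z hz => by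
          rw [hφV n z hz, iter_dz_congr hVo (hφV n) k z hz]).symm }

/-- products of mixed derivatives are dominated -/
lemma bq_prod {V : Set ℂ} {h : ℕ → ℝ} {φ : ℕ → ℂ → ℂ} (r : ℕ) : ∀ (a b : Fin r → ℕ),
    Bq V h φ r (fun n z => ∏ i, W h φ (a i) (b i) n z) := by
  induction r with
  | zero =>
    intro a b
    have := Bq.of_fn (V := V) (h := h) (φ := φ) 0 (b := fun _ => (1 : ℂ)) continuousOn_const
    simpa using this
  | succ r ih =>
    intro a b
    have h0 : Bq V h φ 1 (W h φ (a 0) (b 0)) := fun K _ _ =>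
      ⟨max (a 0) (b 0), 1, Filter.Eventually.of_forall fun n z _ => by
        rw [one_mul, pow_one]; exact W_sq_le (le_max_left _ _) (le_max_right _ _) n z⟩
    have h1 := h0.mul (ih (fun i => a i.succ) (fun i => b i.succ))
    rw [add_comm] at h1
    refine h1.congr fun n z _ => ?_
    rw [Fin.prod_univ_succ]

end LWE

open LWE in
/-- LWE: the error terms -/
theorem stmtLWE (hGro : StmtGro) (hInt : StmtInt) : StmtLWE := by
  intro U g h φ hU hg hpos H K hK hKU r a b hr
  obtain ⟨V, σ, φ', hVo, hKV, hVU, hL, he, -⟩ := transfer hU hg hpos H hK hKU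
  have hG := hGro V σ h φ' hL
  have hsm : ∀ n, ContDiff ℝ ∞ (fun z => ∏ i, W h φ' (a i) (b i) n z) := fun n =>
    contDiff_prod fun i _ => contDiff_W hL.smφ (a i) (b i) n
  have h1 := (hInt V h φ' (fun n z => ∏ i, W h φ' (a i) (b i) n z) hL.hpos hL.hlim hL.smφ hG
    hsm).2.2 ((bq_prod r a b).mono hr) K hK hKV
  refine h1.congr fun n => ?_
  congr 1
  apply setIntegral_congr_fun hK.measurableSet
  intro z hz
  simp only
  congr 1
  exact Finset.prod_congr rfl fun i _ => W_congr hVo he (a i) (b i) n (hKV hz)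

end

end QJ
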