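import Pool.Agent.QJ.Stmts

/-!
MOR: linear growth of the mass of solutions of `h² Δ u = - g u`, by the Morawetz multiplier.
-/

open Complex MeasureTheory Filter Topology Set
open scoped ContDiff

namespace QJ

namespace MOR

noncomputable section

/-! ### Calculus of `d1`, `d2` -/

lemma cd_d1 {F : ℂ → ℝ} (hF : ContDiff ℝ ∞ F) : ContDiff ℝ ∞ (d1 F) := by
  unfold d1
  exact (hF.fderiv_right (m := ∞) (by simp)).clm_apply contDiff_const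

lemma cd_d2 {F : ℂ → ℝ} (hF : ContDiff ℝ ∞ F) : ContDiff ℝ ∞ (d2 F) := by
  unfold d2
  exact (hF.fderiv_right (m := ∞) (by simp)).clm_apply contDiff_const

lemma df {F : ℂ → ℝ} (hF : ContDiff ℝ ∞ F) (z : ℂ) : DifferentiableAt ℝ F z :=
  (hF.differentiable (by simp)) z

lemma d1_mul {F H : ℂ → ℝ} (hF : ContDiff ℝ ∞ F) (hH : ContDiff ℝ ∞ H) (z : ℂ) :
    d1 (fun w => F w * H w) z = d1 F z * H z + F z * d1 H z := by
  unfold d1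
  rw [fderiv_fun_mul (df hF z) (df hH z)]
  simp; ring

lemma d2_mul {F H : ℂ → ℝ} (hF : ContDiff ℝ ∞ F) (hH : ContDiff ℝ ∞ H) (z : ℂ) :
    d2 (fun w => F w * H w) z = d2 F z * H z + F z * d2 H z := by
  unfold d2
  rw [fderiv_fun_mul (df hF z) (df hH z)]
  simp; ring

lemma d1_add {F H : ℂ → ℝ} (hF : ContDiff ℝ ∞ F) (hH : ContDiff ℝ ∞ H) (z : ℂ) :
    d1 (fun w => F w + H w) z = d1 F z + d1 H z := by
  unfold d1
  rw [fderiv_fun_add (df hF z) (df hH z)]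
  simp

lemma d2_add {F H : ℂ → ℝ} (hF : ContDiff ℝ ∞ F) (hH : ContDiff ℝ ∞ H) (z : ℂ) :
    d2 (fun w => F w + H w) z = d2 F z + d2 H z := by
  unfold d2
  rw [fderiv_fun_add (df hF z) (df hH z)]
  simp

lemma d1_sub {F H : ℂ → ℝ} (hF : ContDiff ℝ ∞ F) (hH : ContDiff ℝ ∞ H) (z : ℂ) :
    d1 (fun w => F w - H w) z = d1 F z - d1 H z := by
  unfold d1
  rw [fderiv_fun_sub (df hF z) (df hH z)]
  simp

lemma d2_sub {F H : ℂ → ℝ} (hF : ContDiff ℝ ∞ F) (hH : ContDiff ℝ ∞ H) (z : ℂ) :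
    d2 (fun w => F w - H w) z = d2 F z - d2 H z := by
  unfold d2
  rw [fderiv_fun_sub (df hF z) (df hH z)]
  simp

lemma d1_cmul {F : ℂ → ℝ} (hF : ContDiff ℝ ∞ F) (c : ℝ) (z : ℂ) :
    d1 (fun w => c * F w) z = c * d1 F z := by
  unfold d1
  rw [fderiv_const_mul (df hF z)]
  simp

lemma d2_cmul {F : ℂ → ℝ} (hF : ContDiff ℝ ∞ F) (c : ℝ) (z : ℂ) :
    d2 (fun w => c * F w) z = c * d2 F z := by
  unfold d2
  rw [fderiv_const_mul (df hF z)]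
  simp

lemma d1_pow {F : ℂ → ℝ} (hF : ContDiff ℝ ∞ F) (n : ℕ) (z : ℂ) :
    d1 (fun w => F w ^ n) z = n * F z ^ (n - 1) * d1 F z := by
  unfold d1
  rw [fderiv_fun_pow n (df hF z)]
  simp [mul_assoc]

lemma d2_pow {F : ℂ → ℝ} (hF : ContDiff ℝ ∞ F) (n : ℕ) (z : ℂ) :
    d2 (fun w => F w ^ n) z = n * F z ^ (n - 1) * d2 F z := by
  unfold d2
  rw [fderiv_fun_pow n (df hF z)]
  simp [mul_assoc]

/-! ### The coordinates and the weight -/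

/-- the first coordinate -/
def X (z₀ : ℂ) (z : ℂ) : ℝ := (z - z₀).re

/-- the second coordinate -/
def Y (z₀ : ℂ) (z : ℂ) : ℝ := (z - z₀).im

/-- the weight `(s² + r²)^{-1/2}` -/
def p (z₀ : ℂ) (r : ℝ) (z : ℂ) : ℝ := (Real.sqrt (X z₀ z ^ 2 + Y z₀ z ^ 2 + r ^ 2))⁻¹

lemma cd_X (z₀ : ℂ) : ContDiff ℝ ∞ (X z₀) :=
  Complex.reCLM.contDiff.comp (contDiff_id.sub contDiff_const)

lemma cd_Y (z₀ : ℂ) : ContDiff ℝ ∞ (Y z₀) :=
  Complex.imCLM.contDiff.comp (contDiff_id.sub contDiff_const)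

lemma fd_X (z₀ z v : ℂ) : fderiv ℝ (X z₀) z v = v.re := by
  have : HasFDerivAt (X z₀) (Complex.reCLM : ℂ →L[ℝ] ℝ) z := by
    have h := (Complex.reCLM.hasFDerivAt (x := z - z₀)).comp z
      ((hasFDerivAt_id z).sub_const z₀)
    rw [ContinuousLinearMap.comp_id] at h
    exact h
  rw [this.fderiv]; rfl

lemma fd_Y (z₀ z v : ℂ) : fderiv ℝ (Y z₀) z v = v.im := by
  have : HasFDerivAt (Y z₀) (Complex.imCLM : ℂ →L[ℝ] ℝ) z := by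
    have h := (Complex.imCLM.hasFDerivAt (x := z - z₀)).comp z
      ((hasFDerivAt_id z).sub_const z₀)
    rw [ContinuousLinearMap.comp_id] at h
    exact h
  rw [this.fderiv]; rfl

lemma d1_X (z₀ z : ℂ) : d1 (X z₀) z = 1 := by unfold d1; rw [fd_X]; simp
lemma d2_X (z₀ z : ℂ) : d2 (X z₀) z = 0 := by unfold d2; rw [fd_X]; simp
lemma d1_Y (z₀ z : ℂ) : d1 (Y z₀) z = 0 := by unfold d1; rw [fd_Y]; simp
lemma d2_Y (z₀ z : ℂ) : d2 (Y z₀) z = 1 := by unfold d2; rw [fd_Y]; simp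

lemma rho_pos (z₀ : ℂ) {r : ℝ} (hr : 0 < r) (z : ℂ) : 0 < X z₀ z ^ 2 + Y z₀ z ^ 2 + r ^ 2 := by
  positivity

lemma cd_p (z₀ : ℂ) {r : ℝ} (hr : 0 < r) : ContDiff ℝ ∞ (p z₀ r) := by
  unfold p
  refine ContDiff.inv ?_ ?_
  · refine ContDiff.sqrt ?_ ?_
    · exact (((cd_X z₀).pow 2).add ((cd_Y z₀).pow 2)).add contDiff_const
    · intro z; exact (rho_pos z₀ hr z).ne'
  · intro z; exact (Real.sqrt_pos.2 (rho_pos z₀ hr z)).ne'

lemma p_pos (z₀ : ℂ) {r : ℝ} (hr : 0 < r) (z : ℂ) : 0 < p z₀ r z := by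
  unfold p; exact inv_pos.2 (Real.sqrt_pos.2 (rho_pos z₀ hr z))

lemma p_sq (z₀ : ℂ) {r : ℝ} (hr : 0 < r) (z : ℂ) :
    p z₀ r z ^ 2 * (X z₀ z ^ 2 + Y z₀ z ^ 2 + r ^ 2) = 1 := by
  unfold p
  rw [inv_pow, Real.sq_sqrt (rho_pos z₀ hr z).le]
  exact inv_mul_cancel₀ (rho_pos z₀ hr z).ne'

/-- the derivative of `p`, from the identity `p² ρ = 1` -/
lemma d1_p (z₀ : ℂ) {r : ℝ} (hr : 0 < r) (z : ℂ) :
    d1 (p z₀ r) z = - (X z₀ z * p z₀ r z ^ 3) := by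
  have hp := cd_p z₀ hr
  have hrho : ContDiff ℝ ∞ (fun w => X z₀ w ^ 2 + Y z₀ w ^ 2 + r ^ 2) :=
    (((cd_X z₀).pow 2).add ((cd_Y z₀).pow 2)).add contDiff_const
  have h1 : d1 (fun w => p z₀ r w ^ 2 * (X z₀ w ^ 2 + Y z₀ w ^ 2 + r ^ 2)) z = 0 := by
    have : (fun w => p z₀ r w ^ 2 * (X z₀ w ^ 2 + Y z₀ w ^ 2 + r ^ 2)) = fun _ => (1 : ℝ) := by
      funext w; exact p_sq z₀ hr w
    rw [this]; unfold d1; simp
  have h2 : d1 (fun w => X z₀ w ^ 2 + Y z₀ w ^ 2 + r ^ 2) z = 2 * X z₀ z := by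
    have e : d1 (fun w => X z₀ w ^ 2 + Y z₀ w ^ 2 + r ^ 2) z
        = d1 (fun w => X z₀ w ^ 2) z + d1 (fun w => Y z₀ w ^ 2) z := by
      unfold d1
      rw [fderiv_add_const, fderiv_fun_add (df ((cd_X z₀).pow 2) z) (df ((cd_Y z₀).pow 2) z)]
      simp
    rw [e, d1_pow (cd_X z₀), d1_pow (cd_Y z₀), d1_X, d1_Y]
    simp
  rw [d1_mul (hp.pow 2) hrho, d1_pow hp, h2] at h1
  have h3 := p_sq z₀ hr z
  have hpp := p_pos z₀ hr z
  have h4 : 2 * p z₀ r z * (d1 (p z₀ r) z * (X z₀ z ^ 2 + Y z₀ z ^ 2 + r ^ 2) + p z₀ r z * X z₀ z)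
      = 0 := by
    have : (2 : ℕ) - 1 = 1 := rfl
    rw [this] at h1
    push_cast at h1
    linear_combination h1
  have h5 : d1 (p z₀ r) z * (X z₀ z ^ 2 + Y z₀ z ^ 2 + r ^ 2) + p z₀ r z * X z₀ z = 0 := by
    rcases mul_eq_zero.1 h4 with h | h
    · exfalso; linarith
    · exact h
  linear_combination (p z₀ r z ^ 2) * h5 - (d1 (p z₀ r) z) * h3

lemma d2_p (z₀ : ℂ) {r : ℝ} (hr : 0 < r) (z : ℂ) :
    d2 (p z₀ r) z = - (Y z₀ z * p z₀ r z ^ 3) := by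
  have hp := cd_p z₀ hr
  have hrho : ContDiff ℝ ∞ (fun w => X z₀ w ^ 2 + Y z₀ w ^ 2 + r ^ 2) :=
    (((cd_X z₀).pow 2).add ((cd_Y z₀).pow 2)).add contDiff_const
  have h1 : d2 (fun w => p z₀ r w ^ 2 * (X z₀ w ^ 2 + Y z₀ w ^ 2 + r ^ 2)) z = 0 := by
    have : (fun w => p z₀ r w ^ 2 * (X z₀ w ^ 2 + Y z₀ w ^ 2 + r ^ 2)) = fun _ => (1 : ℝ) := by
      funext w; exact p_sq z₀ hr w
    rw [this]; unfold d2; simp
  have h2 : d2 (fun w => X z₀ w ^ 2 + Y z₀ w ^ 2 + r ^ 2) z = 2 * Y z₀ z := by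
    have e : d2 (fun w => X z₀ w ^ 2 + Y z₀ w ^ 2 + r ^ 2) z
        = d2 (fun w => X z₀ w ^ 2) z + d2 (fun w => Y z₀ w ^ 2) z := by
      unfold d2
      rw [fderiv_add_const, fderiv_fun_add (df ((cd_X z₀).pow 2) z) (df ((cd_Y z₀).pow 2) z)]
      simp
    rw [e, d2_pow (cd_X z₀), d2_pow (cd_Y z₀), d2_X, d2_Y]
    simp
  rw [d2_mul (hp.pow 2) hrho, d2_pow hp, h2] at h1
  have h3 := p_sq z₀ hr z
  have hpp := p_pos z₀ hr z
  have h4 : 2 * p z₀ r z * (d2 (p z₀ r) z * (X z₀ z ^ 2 + Y z₀ z ^ 2 + r ^ 2) + p z₀ r z * Y z₀ z)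
      = 0 := by
    have : (2 : ℕ) - 1 = 1 := rfl
    rw [this] at h1
    push_cast at h1
    linear_combination h1
  have h5 : d2 (p z₀ r) z * (X z₀ z ^ 2 + Y z₀ z ^ 2 + r ^ 2) + p z₀ r z * Y z₀ z = 0 := by
    rcases mul_eq_zero.1 h4 with h | h
    · exfalso; linarith
    · exact h
  linear_combination (p z₀ r z ^ 2) * h5 - (d2 (p z₀ r) z) * h3

/-! ### The weight of order zero -/

/-- the weight `(f - f_r) / 2` -/
def c0 (z₀ : ℂ) (r : ℝ) (z : ℂ) : ℝ := (1 / 2) * (p z₀ r z - r ^ 2 * p z₀ r z ^ 3)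

lemma cd_c0 (z₀ : ℂ) {r : ℝ} (hr : 0 < r) : ContDiff ℝ ∞ (c0 z₀ r) := by
  unfold c0
  exact contDiff_const.mul ((cd_p z₀ hr).sub (contDiff_const.mul ((cd_p z₀ hr).pow 3)))

lemma d1_c0 (z₀ : ℂ) {r : ℝ} (hr : 0 < r) (z : ℂ) :
    d1 (c0 z₀ r) z = X z₀ z * ((1 / 2) * (3 * r ^ 2 * p z₀ r z ^ 5 - p z₀ r z ^ 3)) := by
  have hp := cd_p z₀ hr
  have e : d1 (c0 z₀ r) z = (1 / 2) * (d1 (p z₀ r) z - r ^ 2 * d1 (fun w => p z₀ r w ^ 3) z) := by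
    unfold c0
    rw [d1_cmul (hp.sub (contDiff_const.mul (hp.pow 3))),
      d1_sub hp (contDiff_const.mul (hp.pow 3)), d1_cmul (hp.pow 3)]
  rw [e, d1_pow hp, d1_p z₀ hr]
  push_cast
  ring

lemma d2_c0 (z₀ : ℂ) {r : ℝ} (hr : 0 < r) (z : ℂ) :
    d2 (c0 z₀ r) z = Y z₀ z * ((1 / 2) * (3 * r ^ 2 * p z₀ r z ^ 5 - p z₀ r z ^ 3)) := by
  have hp := cd_p z₀ hr
  have e : d2 (c0 z₀ r) z = (1 / 2) * (d2 (p z₀ r) z - r ^ 2 * d2 (fun w => p z₀ r w ^ 3) z) := by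
    unfold c0
    rw [d2_cmul (hp.sub (contDiff_const.mul (hp.pow 3))),
      d2_sub hp (contDiff_const.mul (hp.pow 3)), d2_cmul (hp.pow 3)]
  rw [e, d2_pow hp, d2_p z₀ hr]
  push_cast
  ring

/-- the second factor of the gradient of `c0` -/
def w0 (z₀ : ℂ) (r : ℝ) (z : ℂ) : ℝ := (1 / 2) * (3 * r ^ 2 * p z₀ r z ^ 5 - p z₀ r z ^ 3)

lemma cd_w0 (z₀ : ℂ) {r : ℝ} (hr : 0 < r) : ContDiff ℝ ∞ (w0 z₀ r) := by
  unfold w0
  exact contDiff_const.mul ((contDiff_const.mul ((cd_p z₀ hr).pow 5)).sub ((cd_p z₀ hr).pow 3))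

lemma d1_w0 (z₀ : ℂ) {r : ℝ} (hr : 0 < r) (z : ℂ) :
    d1 (w0 z₀ r) z = X z₀ z * ((1 / 2) * (3 * p z₀ r z ^ 5 - 15 * r ^ 2 * p z₀ r z ^ 7)) := by
  have hp := cd_p z₀ hr
  have e : d1 (w0 z₀ r) z = (1 / 2) * (3 * r ^ 2 * d1 (fun w => p z₀ r w ^ 5) z
      - d1 (fun w => p z₀ r w ^ 3) z) := by
    unfold w0
    rw [d1_cmul ((contDiff_const.mul (hp.pow 5)).sub (hp.pow 3)),
      d1_sub (contDiff_const.mul (hp.pow 5)) (hp.pow 3), d1_cmul (hp.pow 5)]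
  rw [e, d1_pow hp, d1_pow hp, d1_p z₀ hr]
  push_cast
  ring

lemma d2_w0 (z₀ : ℂ) {r : ℝ} (hr : 0 < r) (z : ℂ) :
    d2 (w0 z₀ r) z = Y z₀ z * ((1 / 2) * (3 * p z₀ r z ^ 5 - 15 * r ^ 2 * p z₀ r z ^ 7)) := by
  have hp := cd_p z₀ hr
  have e : d2 (w0 z₀ r) z = (1 / 2) * (3 * r ^ 2 * d2 (fun w => p z₀ r w ^ 5) z
      - d2 (fun w => p z₀ r w ^ 3) z) := by
    unfold w0
    rw [d2_cmul ((contDiff_const.mul (hp.pow 5)).sub (hp.pow 3)),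
      d2_sub (contDiff_const.mul (hp.pow 5)) (hp.pow 3), d2_cmul (hp.pow 5)]
  rw [e, d2_pow hp, d2_pow hp, d2_p z₀ hr]
  push_cast
  ring

/-- the Laplacian of `c0` -/
def L0 (z₀ : ℂ) (r : ℝ) (z : ℂ) : ℝ := (3 * r ^ 2 * p z₀ r z ^ 5 - p z₀ r z ^ 3)
  + (X z₀ z ^ 2 + Y z₀ z ^ 2) * ((1 / 2) * (3 * p z₀ r z ^ 5 - 15 * r ^ 2 * p z₀ r z ^ 7))

lemma lap_c0 (z₀ : ℂ) {r : ℝ} (hr : 0 < r) (z : ℂ) : lap (c0 z₀ r) z = L0 z₀ r z := by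
  have e1 : d1 (c0 z₀ r) = fun w => X z₀ w * w0 z₀ r w := by
    funext w; exact d1_c0 z₀ hr w
  have e2 : d2 (c0 z₀ r) = fun w => Y z₀ w * w0 z₀ r w := by
    funext w; exact d2_c0 z₀ hr w
  unfold lap
  rw [e1, e2, d1_mul (cd_X z₀) (cd_w0 z₀ hr), d2_mul (cd_Y z₀) (cd_w0 z₀ hr), d1_X, d2_Y,
    d1_w0 z₀ hr, d2_w0 z₀ hr]
  unfold w0 L0
  ring

lemma lap_mul {F H : ℂ → ℝ} (hF : ContDiff ℝ ∞ F) (hH : ContDiff ℝ ∞ H) (z : ℂ) :
    lap (fun w => F w * H w) z = lap F z * H z + 2 * (d1 F z * d1 H z + d2 F z * d2 H z)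
      + F z * lap H z := by
  have e1 : d1 (fun w => F w * H w) = fun w => d1 F w * H w + F w * d1 H w := by
    funext w; exact d1_mul hF hH w
  have e2 : d2 (fun w => F w * H w) = fun w => d2 F w * H w + F w * d2 H w := by
    funext w; exact d2_mul hF hH w
  have a1 : d1 (fun w => d1 F w * H w + F w * d1 H w) z
      = d1 (fun w => d1 F w * H w) z + d1 (fun w => F w * d1 H w) z :=
    d1_add ((cd_d1 hF).mul hH) (hF.mul (cd_d1 hH)) z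
  have a2 : d2 (fun w => d2 F w * H w + F w * d2 H w) z
      = d2 (fun w => d2 F w * H w) z + d2 (fun w => F w * d2 H w) z :=
    d2_add ((cd_d2 hF).mul hH) (hF.mul (cd_d2 hH)) z
  unfold lap
  rw [e1, e2, a1, a2, d1_mul (cd_d1 hF) hH, d1_mul hF (cd_d1 hH), d2_mul (cd_d2 hF) hH,
    d2_mul hF (cd_d2 hH)]
  ring

/-! ### The cutoff -/

/-- the bump function of radii one and two -/
def bb : ContDiffBump (0 : ℂ) := ⟨1, 2, one_pos, one_lt_two⟩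

/-- the cutoff at scale `R` about `z₀` -/
def chi (z₀ : ℂ) (R : ℝ) (z : ℂ) : ℝ := bb (((R⁻¹ : ℝ) : ℂ) * (z - z₀))

lemma hd_scale (z₀ : ℂ) (a : ℝ) (z : ℂ) :
    HasFDerivAt (fun w : ℂ => ((a : ℝ) : ℂ) * (w - z₀)) (a • ContinuousLinearMap.id ℝ ℂ) z := by
  have h := ((hasFDerivAt_id (𝕜 := ℝ) z).sub_const z₀).const_smul a
  have e : (fun w : ℂ => ((a : ℝ) : ℂ) * (w - z₀)) = a • fun x : ℂ => x - z₀ := by
    funext w; simp [Complex.real_smul]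
  rw [e]
  exact h

lemma d1_scale {F : ℂ → ℝ} (hF : ContDiff ℝ ∞ F) (z₀ : ℂ) (a : ℝ) (z : ℂ) :
    d1 (fun w => F (((a : ℝ) : ℂ) * (w - z₀))) z = a * d1 F (((a : ℝ) : ℂ) * (z - z₀)) := by
  have h := ((df hF (((a : ℝ) : ℂ) * (z - z₀))).hasFDerivAt).comp z (hd_scale z₀ a z)
  unfold d1
  have e : (fun w => F (((a : ℝ) : ℂ) * (w - z₀))) = F ∘ fun w : ℂ => ((a : ℝ) : ℂ) * (w - z₀) := rfl
  rw [e, h.fderiv]
  simp

lemma d2_scale {F : ℂ → ℝ} (hF : ContDiff ℝ ∞ F) (z₀ : ℂ) (a : ℝ) (z : ℂ) :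
    d2 (fun w => F (((a : ℝ) : ℂ) * (w - z₀))) z = a * d2 F (((a : ℝ) : ℂ) * (z - z₀)) := by
  have h := ((df hF (((a : ℝ) : ℂ) * (z - z₀))).hasFDerivAt).comp z (hd_scale z₀ a z)
  unfold d2
  have e : (fun w => F (((a : ℝ) : ℂ) * (w - z₀))) = F ∘ fun w : ℂ => ((a : ℝ) : ℂ) * (w - z₀) := rfl
  rw [e, h.fderiv]
  simp

lemma cd_bb : ContDiff ℝ ∞ (bb : ℂ → ℝ) := bb.contDiff

lemma cd_lin (z₀ : ℂ) (a : ℝ) : ContDiff ℝ ∞ (fun w : ℂ => ((a : ℝ) : ℂ) * (w - z₀)) :=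
  contDiff_const.mul (contDiff_id.sub contDiff_const)

lemma cd_chi (z₀ : ℂ) (R : ℝ) : ContDiff ℝ ∞ (chi z₀ R) := cd_bb.comp (cd_lin z₀ R⁻¹)

lemma lap_chi (z₀ : ℂ) (R : ℝ) (z : ℂ) :
    lap (chi z₀ R) z = R⁻¹ ^ 2 * lap bb (((R⁻¹ : ℝ) : ℂ) * (z - z₀)) := by
  have e1 : d1 (chi z₀ R) = fun w => R⁻¹ * d1 bb (((R⁻¹ : ℝ) : ℂ) * (w - z₀)) := by
    funext w; exact d1_scale cd_bb z₀ R⁻¹ w
  have e2 : d2 (chi z₀ R) = fun w => R⁻¹ * d2 bb (((R⁻¹ : ℝ) : ℂ) * (w - z₀)) := by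
    funext w; exact d2_scale cd_bb z₀ R⁻¹ w
  unfold lap
  rw [e1, e2, d1_cmul (F := fun w => d1 bb (((R⁻¹ : ℝ) : ℂ) * (w - z₀)))
    ((cd_d1 cd_bb).comp (cd_lin z₀ R⁻¹)), d2_cmul (F := fun w => d2 bb (((R⁻¹ : ℝ) : ℂ) * (w - z₀)))
    ((cd_d2 cd_bb).comp (cd_lin z₀ R⁻¹)), d1_scale (cd_d1 cd_bb), d2_scale (cd_d2 cd_bb)]
  ring

lemma exists_bound {F : ℂ → ℝ} (hF : Continuous F) (hs : HasCompactSupport F) :
    ∃ A : ℝ, ∀ z, |F z| ≤ A := by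
  obtain ⟨A, hA⟩ := hs.exists_bound_of_continuous hF
  exact ⟨A, fun z => hA z⟩

lemma hcs_d1 {F : ℂ → ℝ} (hs : HasCompactSupport F) : HasCompactSupport (d1 F) := by
  unfold d1
  exact (hs.fderiv (𝕜 := ℝ)).comp_left (g := fun L : ℂ →L[ℝ] ℝ => L 1) (by simp)

lemma hcs_d2 {F : ℂ → ℝ} (hs : HasCompactSupport F) : HasCompactSupport (d2 F) := by
  unfold d2
  exact (hs.fderiv (𝕜 := ℝ)).comp_left (g := fun L : ℂ →L[ℝ] ℝ => L Complex.I) (by simp)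

/-- the bounds of the derivatives of the bump function -/
lemma exists_A : ∃ A : ℝ, 0 ≤ A ∧ ∀ z, |d1 bb z| ≤ A ∧ |d2 bb z| ≤ A ∧ |lap bb z| ≤ A := by
  have hs : HasCompactSupport (bb : ℂ → ℝ) := bb.hasCompactSupport
  obtain ⟨A1, h1⟩ := exists_bound (cd_d1 cd_bb).continuous (hcs_d1 hs)
  obtain ⟨A2, h2⟩ := exists_bound (cd_d2 cd_bb).continuous (hcs_d2 hs)
  obtain ⟨A3, h3⟩ := exists_bound (F := lap bb)
    (((cd_d1 (cd_d1 cd_bb)).add (cd_d2 (cd_d2 cd_bb))).continuous)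
    ((hcs_d1 (hcs_d1 hs)).add (hcs_d2 (hcs_d2 hs)))
  refine ⟨|A1| + |A2| + |A3|, by positivity, fun z => ⟨?_, ?_, ?_⟩⟩
  · linarith [h1 z, le_abs_self A1, abs_nonneg A2, abs_nonneg A3]
  · linarith [h2 z, le_abs_self A2, abs_nonneg A1, abs_nonneg A3]
  · linarith [h3 z, le_abs_self A3, abs_nonneg A1, abs_nonneg A2]

lemma norm_lin (z₀ : ℂ) {R : ℝ} (hR : 0 < R) (z : ℂ) :
    ‖((R⁻¹ : ℝ) : ℂ) * (z - z₀)‖ = dist z z₀ / R := by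
  rw [norm_mul, Complex.norm_real, Real.norm_of_nonneg (inv_pos.2 hR).le, dist_eq_norm]
  field_simp

lemma chi_one (z₀ : ℂ) {R : ℝ} (hR : 0 < R) {z : ℂ} (hz : dist z z₀ ≤ R) : chi z₀ R z = 1 := by
  unfold chi
  apply bb.one_of_mem_closedBall
  rw [Metric.mem_closedBall, dist_zero_right, norm_lin z₀ hR]
  exact (div_le_one hR).2 hz

lemma chi_zero (z₀ : ℂ) {R : ℝ} (hR : 0 < R) {z : ℂ} (hz : 2 * R ≤ dist z z₀) :
    chi z₀ R z = 0 := by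
  unfold chi
  apply bb.zero_of_le_dist
  rw [dist_zero_right, norm_lin z₀ hR]
  exact (le_div_iff₀ hR).2 hz

lemma chi_nonneg (z₀ : ℂ) (R : ℝ) (z : ℂ) : 0 ≤ chi z₀ R z := bb.nonneg

lemma chi_le_one (z₀ : ℂ) (R : ℝ) (z : ℂ) : chi z₀ R z ≤ 1 := bb.le_one

lemma hcs_chi (z₀ : ℂ) {R : ℝ} (hR : 0 < R) : HasCompactSupport (chi z₀ R) := by
  apply HasCompactSupport.intro (isCompact_closedBall z₀ (2 * R))
  intro z hz
  rw [Metric.mem_closedBall, not_le] at hz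
  exact chi_zero z₀ hR hz.le

/-- a function which is constant near a point has vanishing derivatives there -/
lemma der_zero {F : ℂ → ℝ} {c : ℝ} {s : Set ℂ} (hs : IsOpen s) (h : ∀ w ∈ s, F w = c) {z : ℂ}
    (hz : z ∈ s) : d1 F z = 0 ∧ d2 F z = 0 ∧ lap F z = 0 := by
  have h1 : ∀ w ∈ s, fderiv ℝ F w = 0 := by
    intro w hw
    have : F =ᶠ[𝓝 w] fun _ => c := by
      filter_upwards [hs.mem_nhds hw] with v hv using h v hv
    rw [this.fderiv_eq]; simp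
  have h2 : ∀ w ∈ s, d1 F w = 0 := by intro w hw; unfold d1; rw [h1 w hw]; simp
  have h3 : ∀ w ∈ s, d2 F w = 0 := by intro w hw; unfold d2; rw [h1 w hw]; simp
  have h4 : d1 (d1 F) z = 0 := by
    have : d1 F =ᶠ[𝓝 z] fun _ => (0 : ℝ) := by
      filter_upwards [hs.mem_nhds hz] with v hv using h2 v hv
    conv_lhs => rw [d1]
    rw [this.fderiv_eq]; simp
  have h5 : d2 (d2 F) z = 0 := by
    have : d2 F =ᶠ[𝓝 z] fun _ => (0 : ℝ) := by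
      filter_upwards [hs.mem_nhds hz] with v hv using h3 v hv
    conv_lhs => rw [d2]
    rw [this.fderiv_eq]; simp
  refine ⟨h2 z hz, h3 z hz, ?_⟩
  unfold lap; rw [h4, h5]; ring

lemma chi_der_in (z₀ : ℂ) {R : ℝ} (hR : 0 < R) {z : ℂ} (hz : dist z z₀ < R) :
    d1 (chi z₀ R) z = 0 ∧ d2 (chi z₀ R) z = 0 ∧ lap (chi z₀ R) z = 0 :=
  der_zero (s := Metric.ball z₀ R) Metric.isOpen_ball
    (fun _ hw => chi_one z₀ hR (Metric.mem_ball.1 hw).le) (Metric.mem_ball.2 hz)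

lemma chi_der_out (z₀ : ℂ) {R : ℝ} (hR : 0 < R) {z : ℂ} (hz : 2 * R < dist z z₀) :
    d1 (chi z₀ R) z = 0 ∧ d2 (chi z₀ R) z = 0 ∧ lap (chi z₀ R) z = 0 := by
  refine der_zero (s := (Metric.closedBall z₀ (2 * R))ᶜ) Metric.isClosed_closedBall.isOpen_compl
    (c := 0) (fun w hw => ?_) ?_
  · rw [mem_compl_iff, Metric.mem_closedBall, not_le] at hw
    exact chi_zero z₀ hR hw.le
  · rw [mem_compl_iff, Metric.mem_closedBall, not_le]; exact hz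

lemma chi_bounds (z₀ : ℂ) {R A : ℝ} (hR : 0 < R)
    (hA : ∀ z, |d1 bb z| ≤ A ∧ |d2 bb z| ≤ A ∧ |lap bb z| ≤ A) (z : ℂ) :
    |d1 (chi z₀ R) z| ≤ A / R ∧ |d2 (chi z₀ R) z| ≤ A / R ∧ |lap (chi z₀ R) z| ≤ A / R ^ 2 := by
  obtain ⟨h1, h2, h3⟩ := hA (((R⁻¹ : ℝ) : ℂ) * (z - z₀))
  have hi : 0 < R⁻¹ := inv_pos.2 hR
  refine ⟨?_, ?_, ?_⟩
  · have e : d1 (chi z₀ R) z = R⁻¹ * d1 bb (((R⁻¹ : ℝ) : ℂ) * (z - z₀)) :=
      d1_scale cd_bb z₀ R⁻¹ z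
    rw [e, abs_mul, abs_of_pos hi, div_eq_inv_mul]
    exact mul_le_mul_of_nonneg_left h1 hi.le
  · have e : d2 (chi z₀ R) z = R⁻¹ * d2 bb (((R⁻¹ : ℝ) : ℂ) * (z - z₀)) :=
      d2_scale cd_bb z₀ R⁻¹ z
    rw [e, abs_mul, abs_of_pos hi, div_eq_inv_mul]
    exact mul_le_mul_of_nonneg_left h2 hi.le
  · rw [lap_chi, abs_mul, abs_of_pos (pow_pos hi 2), div_eq_inv_mul, ← inv_pow]
    exact mul_le_mul_of_nonneg_left h3 (pow_pos hi 2).le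

/-! ### The pointwise inequality -/

/-- the integrand of the virial identity in terms of the values of the functions at a point -/
lemma key_identity {k k1 k2 kk x y p r h u a b g g1 g2 : ℝ} (hp : p ^ 2 * (x ^ 2 + y ^ 2 + r ^ 2) = 1) :
    h ^ 2 * ((k1 * (p * x) + k * (p - x ^ 2 * p ^ 3)) * a ^ 2
        + ((k1 * (p * y) + k * (- (x * y * p ^ 3))) + (k2 * (p * x) + k * (- (x * y * p ^ 3)))) * (a * b)
        + (k2 * (p * y) + k * (p - y ^ 2 * p ^ 3)) * b ^ 2)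
      + (k * ((1 / 2) * (p - r ^ 2 * p ^ 3)) - ((k1 * (p * x) + k * (p - x ^ 2 * p ^ 3))
        + (k2 * (p * y) + k * (p - y ^ 2 * p ^ 3))) / 2) * (h ^ 2 * (a ^ 2 + b ^ 2))
      + (((k1 * (p * x) + k * (p - x ^ 2 * p ^ 3)) + (k2 * (p * y) + k * (p - y ^ 2 * p ^ 3))) / 2
        - k * ((1 / 2) * (p - r ^ 2 * p ^ 3))) * (g * u ^ 2)
      + (k * (p * x) * g1 + k * (p * y) * g2) / 2 * u ^ 2
      - h ^ 2 / 2 * (kk * ((1 / 2) * (p - r ^ 2 * p ^ 3))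
        + 2 * (k1 * (x * ((1 / 2) * (3 * r ^ 2 * p ^ 5 - p ^ 3)))
          + k2 * (y * ((1 / 2) * (3 * r ^ 2 * p ^ 5 - p ^ 3))))
        + k * ((3 * r ^ 2 * p ^ 5 - p ^ 3)
          + (x ^ 2 + y ^ 2) * ((1 / 2) * (3 * p ^ 5 - 15 * r ^ 2 * p ^ 7)))) * u ^ 2
    = k * (h ^ 2 * p ^ 3 * (x * b - y * a) ^ 2 + r ^ 2 * p ^ 3 * g * u ^ 2
        + (p * x * g1 + p * y * g2) / 2 * u ^ 2
        - h ^ 2 / 2 * ((3 * r ^ 2 * p ^ 5 - p ^ 3)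
          + (x ^ 2 + y ^ 2) * ((1 / 2) * (3 * p ^ 5 - 15 * r ^ 2 * p ^ 7))) * u ^ 2)
      + h ^ 2 * (k1 * a + k2 * b) * (p * x * a + p * y * b)
      - (k1 * (p * x) + k2 * (p * y)) / 2 * (h ^ 2 * (a ^ 2 + b ^ 2) - g * u ^ 2)
      - h ^ 2 / 2 * (kk * ((1 / 2) * (p - r ^ 2 * p ^ 3))
        + (k1 * (p * x) + k2 * (p * y)) * (3 * r ^ 2 * p ^ 4 - p ^ 2)) * u ^ 2 := by
  linear_combination (-(k * p * (g * u ^ 2)) / 2 + (k * p * (h ^ 2 * (a ^ 2 + b ^ 2))) / 2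
    - k * p * (h ^ 2 * (a ^ 2 + b ^ 2))) * hp

lemma abs_px {x y p r : ℝ} (hp : p ^ 2 * (x ^ 2 + y ^ 2 + r ^ 2) = 1) : |p * x| ≤ 1 ∧ |p * y| ≤ 1
    ∧ p ^ 2 * r ^ 2 ≤ 1 ∧ p ^ 2 * (x ^ 2 + y ^ 2) ≤ 1 := by
  have a1 : 0 ≤ (p * x) ^ 2 := sq_nonneg _
  have a2 : 0 ≤ (p * y) ^ 2 := sq_nonneg _
  have a3 : 0 ≤ (p * r) ^ 2 := sq_nonneg _
  refine ⟨?_, ?_, ?_, ?_⟩
  · rw [← sq_le_one_iff_abs_le_one]; nlinarith
  · rw [← sq_le_one_iff_abs_le_one]; nlinarith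
  · nlinarith
  · nlinarith

/-- the pointwise lower bound of the integrand -/
lemma key_bound {k k1 k2 kk x y p r h u a b g g1 g2 m G A R : ℝ} (hp0 : 0 < p)
    (hp : p ^ 2 * (x ^ 2 + y ^ 2 + r ^ 2) = 1) (hk0 : 0 ≤ k) (hk1 : k ≤ 1) (hA : 0 ≤ A) (hR : 0 < R)
    (hR1 : R ≤ 1) (h1 : |k1| ≤ A / R) (h2 : |k2| ≤ A / R) (h3 : |kk| ≤ A / R ^ 2)
    (hh : 0 < h) (hhR : h ≤ R) (h5 : 5 * h ^ 2 ≤ m * r ^ 2) (hm : 0 < m) (hg : m ≤ g) (hgG : g ≤ G)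
    (hg1 : |g1| ≤ G) (hg2 : |g2| ≤ G) (hin : x ^ 2 + y ^ 2 < R ^ 2 → k1 = 0 ∧ k2 = 0 ∧ kk = 0) :
    k * (m / 2 * r ^ 2 * p ^ 3 * u ^ 2) - (3 * A + A * G + G) / R * (h ^ 2 * (a ^ 2 + b ^ 2) + u ^ 2)
    ≤ k * (h ^ 2 * p ^ 3 * (x * b - y * a) ^ 2 + r ^ 2 * p ^ 3 * g * u ^ 2
        + (p * x * g1 + p * y * g2) / 2 * u ^ 2
        - h ^ 2 / 2 * ((3 * r ^ 2 * p ^ 5 - p ^ 3)
          + (x ^ 2 + y ^ 2) * ((1 / 2) * (3 * p ^ 5 - 15 * r ^ 2 * p ^ 7))) * u ^ 2)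
      + h ^ 2 * (k1 * a + k2 * b) * (p * x * a + p * y * b)
      - (k1 * (p * x) + k2 * (p * y)) / 2 * (h ^ 2 * (a ^ 2 + b ^ 2) - g * u ^ 2)
      - h ^ 2 / 2 * (kk * ((1 / 2) * (p - r ^ 2 * p ^ 3))
        + (k1 * (p * x) + k2 * (p * y)) * (3 * r ^ 2 * p ^ 4 - p ^ 2)) * u ^ 2 := by
  obtain ⟨hx, hy, hrr, hss⟩ := abs_px hp
  have hU : 0 ≤ u ^ 2 := sq_nonneg u
  have hG : 0 ≤ G := by linarith
  have hW : 0 ≤ h ^ 2 * (a ^ 2 + b ^ 2) := by positivity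
  have hp3 : 0 < p ^ 3 := by positivity
  set X1 := p * x with hX1
  set Y1 := p * y with hY1
  set B := A / R with hB
  have hB0 : 0 ≤ B := by positivity
  clear_value X1 Y1 B
  -- the bulk
  have hL : (3 * r ^ 2 * p ^ 5 - p ^ 3)
      + (x ^ 2 + y ^ 2) * ((1 / 2) * (3 * p ^ 5 - 15 * r ^ 2 * p ^ 7)) ≤ 5 * p ^ 3 := by
    have e : (3 * r ^ 2 * p ^ 5 - p ^ 3)
        + (x ^ 2 + y ^ 2) * ((1 / 2) * (3 * p ^ 5 - 15 * r ^ 2 * p ^ 7))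
        = p ^ 3 * (3 * (p ^ 2 * r ^ 2) - 1 + 3 / 2 * (p ^ 2 * (x ^ 2 + y ^ 2)))
          - 15 / 2 * (x ^ 2 + y ^ 2) * r ^ 2 * p ^ 7 := by ring
    have e2 : 0 ≤ 15 / 2 * (x ^ 2 + y ^ 2) * r ^ 2 * p ^ 7 := by positivity
    have e3 : p ^ 3 * (3 * (p ^ 2 * r ^ 2) - 1 + 3 / 2 * (p ^ 2 * (x ^ 2 + y ^ 2))) ≤ p ^ 3 * 5 :=
      mul_le_mul_of_nonneg_left (by linarith) hp3.le
    linarith
  have hT6 : m / 2 * r ^ 2 * p ^ 3 * u ^ 2 ≤ r ^ 2 * p ^ 3 * g * u ^ 2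
      - h ^ 2 / 2 * ((3 * r ^ 2 * p ^ 5 - p ^ 3)
          + (x ^ 2 + y ^ 2) * ((1 / 2) * (3 * p ^ 5 - 15 * r ^ 2 * p ^ 7))) * u ^ 2 := by
    have e1 : h ^ 2 / 2 * ((3 * r ^ 2 * p ^ 5 - p ^ 3)
          + (x ^ 2 + y ^ 2) * ((1 / 2) * (3 * p ^ 5 - 15 * r ^ 2 * p ^ 7))) ≤ h ^ 2 / 2 * (5 * p ^ 3) :=
      mul_le_mul_of_nonneg_left hL (by positivity)
    have e2 : h ^ 2 / 2 * (5 * p ^ 3) ≤ m / 2 * r ^ 2 * p ^ 3 := by
      have := mul_le_mul_of_nonneg_right h5 (show 0 ≤ p ^ 3 / 2 by positivity)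
      linarith
    have e3 : m * (r ^ 2 * p ^ 3) ≤ g * (r ^ 2 * p ^ 3) :=
      mul_le_mul_of_nonneg_right hg (by positivity)
    have e4 : m / 2 * r ^ 2 * p ^ 3 ≤ r ^ 2 * p ^ 3 * g - h ^ 2 / 2 * ((3 * r ^ 2 * p ^ 5 - p ^ 3)
          + (x ^ 2 + y ^ 2) * ((1 / 2) * (3 * p ^ 5 - 15 * r ^ 2 * p ^ 7))) := by linarith
    have e5 := mul_le_mul_of_nonneg_right e4 hU
    linarith
  have hT5 : -(G * u ^ 2) ≤ (X1 * g1 + Y1 * g2) / 2 * u ^ 2 := by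
    have f1 : |X1 * g1| ≤ G := by
      rw [abs_mul]
      calc |X1| * |g1| ≤ 1 * G := mul_le_mul hx hg1 (abs_nonneg _) zero_le_one
        _ = G := one_mul _
    have f2 : |Y1 * g2| ≤ G := by
      rw [abs_mul]
      calc |Y1| * |g2| ≤ 1 * G := mul_le_mul hy hg2 (abs_nonneg _) zero_le_one
        _ = G := one_mul _
    have f3 : -G ≤ (X1 * g1 + Y1 * g2) / 2 := by
      have := (abs_le.1 f1).1; have := (abs_le.1 f2).1; linarith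
    have := mul_le_mul_of_nonneg_right f3 hU
    linarith
  have hbulk : k * (m / 2 * r ^ 2 * p ^ 3 * u ^ 2) - G * u ^ 2
      ≤ k * (h ^ 2 * p ^ 3 * (x * b - y * a) ^ 2 + r ^ 2 * p ^ 3 * g * u ^ 2
        + (X1 * g1 + Y1 * g2) / 2 * u ^ 2
        - h ^ 2 / 2 * ((3 * r ^ 2 * p ^ 5 - p ^ 3)
          + (x ^ 2 + y ^ 2) * ((1 / 2) * (3 * p ^ 5 - 15 * r ^ 2 * p ^ 7))) * u ^ 2) := by
    have f0 : 0 ≤ h ^ 2 * p ^ 3 * (x * b - y * a) ^ 2 := by positivity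
    have f1 : m / 2 * r ^ 2 * p ^ 3 * u ^ 2 - G * u ^ 2
      ≤ h ^ 2 * p ^ 3 * (x * b - y * a) ^ 2 + r ^ 2 * p ^ 3 * g * u ^ 2
        + (X1 * g1 + Y1 * g2) / 2 * u ^ 2
        - h ^ 2 / 2 * ((3 * r ^ 2 * p ^ 5 - p ^ 3)
          + (x ^ 2 + y ^ 2) * ((1 / 2) * (3 * p ^ 5 - 15 * r ^ 2 * p ^ 7))) * u ^ 2 := by linarith
    have f2 := mul_le_mul_of_nonneg_left f1 hk0
    have f3 : k * (G * u ^ 2) ≤ 1 * (G * u ^ 2) := mul_le_mul_of_nonneg_right hk1 (by positivity)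
    linarith
  -- the cutoff terms
  have hT1 : -(2 * B * (h ^ 2 * (a ^ 2 + b ^ 2))) ≤ h ^ 2 * (k1 * a + k2 * b) * (X1 * a + Y1 * b) := by
    have f1 : |k1 * a + k2 * b| ≤ B * (|a| + |b|) := by
      calc |k1 * a + k2 * b| ≤ |k1 * a| + |k2 * b| := abs_add_le _ _
        _ = |k1| * |a| + |k2| * |b| := by rw [abs_mul, abs_mul]
        _ ≤ B * |a| + B * |b| := add_le_add (mul_le_mul_of_nonneg_right h1 (abs_nonneg _))
            (mul_le_mul_of_nonneg_right h2 (abs_nonneg _))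
        _ = _ := by ring
    have f2 : |X1 * a + Y1 * b| ≤ |a| + |b| := by
      calc |X1 * a + Y1 * b| ≤ |X1 * a| + |Y1 * b| := abs_add_le _ _
        _ = |X1| * |a| + |Y1| * |b| := by rw [abs_mul, abs_mul]
        _ ≤ 1 * |a| + 1 * |b| := add_le_add (mul_le_mul_of_nonneg_right hx (abs_nonneg _))
            (mul_le_mul_of_nonneg_right hy (abs_nonneg _))
        _ = _ := by ring
    have f3 : |(k1 * a + k2 * b) * (X1 * a + Y1 * b)| ≤ 2 * B * (a ^ 2 + b ^ 2) := by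
      rw [abs_mul]
      calc |k1 * a + k2 * b| * |X1 * a + Y1 * b| ≤ (B * (|a| + |b|)) * (|a| + |b|) :=
            mul_le_mul f1 f2 (abs_nonneg _) (by positivity)
        _ = B * (|a| + |b|) ^ 2 := by ring
        _ ≤ B * (2 * (a ^ 2 + b ^ 2)) := by
            apply mul_le_mul_of_nonneg_left _ hB0
            nlinarith [sq_nonneg (|a| - |b|), sq_abs a, sq_abs b]
        _ = _ := by ring
    have f4 := mul_le_mul_of_nonneg_left (abs_le.1 f3).1 (sq_nonneg h)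
    linarith
  have hq : |k1 * X1 + k2 * Y1| ≤ 2 * B := by
    calc |k1 * X1 + k2 * Y1| ≤ |k1 * X1| + |k2 * Y1| := abs_add_le _ _
      _ = |k1| * |X1| + |k2| * |Y1| := by rw [abs_mul, abs_mul]
      _ ≤ B * 1 + B * 1 := add_le_add (mul_le_mul h1 hx (abs_nonneg _) hB0)
            (mul_le_mul h2 hy (abs_nonneg _) hB0)
      _ = _ := by ring
  have hT2 : (k1 * X1 + k2 * Y1) / 2 * (h ^ 2 * (a ^ 2 + b ^ 2) - g * u ^ 2)
      ≤ B * (h ^ 2 * (a ^ 2 + b ^ 2) + G * u ^ 2) := by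
    have f1 : |h ^ 2 * (a ^ 2 + b ^ 2) - g * u ^ 2| ≤ h ^ 2 * (a ^ 2 + b ^ 2) + G * u ^ 2 := by
      have g0 : 0 ≤ g * u ^ 2 := mul_nonneg (by linarith) hU
      have g3 : g * u ^ 2 ≤ G * u ^ 2 := mul_le_mul_of_nonneg_right hgG hU
      rw [abs_le]; constructor <;> linarith
    have f2 : |(k1 * X1 + k2 * Y1) / 2| ≤ B := by
      rw [abs_div, abs_of_pos (show (0 : ℝ) < 2 by norm_num)]; linarith
    calc (k1 * X1 + k2 * Y1) / 2 * (h ^ 2 * (a ^ 2 + b ^ 2) - g * u ^ 2)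
        ≤ |(k1 * X1 + k2 * Y1) / 2 * (h ^ 2 * (a ^ 2 + b ^ 2) - g * u ^ 2)| := le_abs_self _
      _ = |(k1 * X1 + k2 * Y1) / 2| * |h ^ 2 * (a ^ 2 + b ^ 2) - g * u ^ 2| := abs_mul _ _
      _ ≤ B * (h ^ 2 * (a ^ 2 + b ^ 2) + G * u ^ 2) := mul_le_mul f2 f1 (abs_nonneg _) hB0
  have hT34 : h ^ 2 / 2 * (kk * ((1 / 2) * (p - r ^ 2 * p ^ 3))
        + (k1 * X1 + k2 * Y1) * (3 * r ^ 2 * p ^ 4 - p ^ 2)) * u ^ 2 ≤ 3 * B * u ^ 2 := by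
    by_cases hs : x ^ 2 + y ^ 2 < R ^ 2
    · obtain ⟨z1, z2, z3⟩ := hin hs
      rw [z1, z2, z3]
      have : 0 ≤ 3 * B * u ^ 2 := by positivity
      simpa using this
    · push Not at hs
      have hpR : p ^ 2 * R ^ 2 ≤ 1 := by
        have := mul_le_mul_of_nonneg_left hs (sq_nonneg p)
        linarith
      have hpR1 : p * R ≤ 1 := by
        have : (p * R) ^ 2 ≤ 1 := by rw [mul_pow]; exact hpR
        exact (abs_le.1 ((sq_le_one_iff_abs_le_one _).1 this)).2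
      have hpi : p ≤ 1 / R := by rw [le_div_iff₀ hR]; exact hpR1
      have hh2 : h ^ 2 ≤ R ^ 2 := by
        apply pow_le_pow_left₀ hh.le hhR
      have hph : p ^ 2 * h ^ 2 ≤ 1 := by
        have := mul_le_mul_of_nonneg_left hh2 (sq_nonneg p)
        linarith
      have f1 : h ^ 2 * |kk| ≤ A := by
        calc h ^ 2 * |kk| ≤ R ^ 2 * (A / R ^ 2) := mul_le_mul hh2 h3 (abs_nonneg _) (by positivity)
          _ = A := by field_simp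
      have f2 : |(1 / 2) * (p - r ^ 2 * p ^ 3)| ≤ (1 / 2) * p := by
        have e : p - r ^ 2 * p ^ 3 = p * (1 - p ^ 2 * r ^ 2) := by ring
        have e1 : 0 ≤ p * (1 - p ^ 2 * r ^ 2) := mul_nonneg hp0.le (by linarith)
        have e2 : 0 ≤ p * (p ^ 2 * r ^ 2) := by positivity
        rw [e, abs_of_nonneg (by linarith)]
        linarith
      have f3 : |h ^ 2 / 2 * (kk * ((1 / 2) * (p - r ^ 2 * p ^ 3)))| ≤ B := by
        have e : h ^ 2 / 2 * (kk * ((1 / 2) * (p - r ^ 2 * p ^ 3)))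
            = (h ^ 2 * kk) * ((1 / 2) * (p - r ^ 2 * p ^ 3)) / 2 := by ring
        rw [e, abs_div, abs_mul, abs_mul, abs_of_nonneg (sq_nonneg h),
          abs_of_pos (show (0 : ℝ) < 2 by norm_num)]
        have e2 : h ^ 2 * |kk| * |(1 / 2) * (p - r ^ 2 * p ^ 3)| ≤ A * ((1 / 2) * (1 / R)) := by
          apply mul_le_mul f1 _ (abs_nonneg _) hA
          linarith
        have e3 : A * ((1 / 2) * (1 / R)) = B / 2 := by rw [hB]; ring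
        linarith
      have f4 : |3 * r ^ 2 * p ^ 4 - p ^ 2| ≤ 2 * p ^ 2 := by
        have e : 3 * r ^ 2 * p ^ 4 - p ^ 2 = p ^ 2 * (3 * (p ^ 2 * r ^ 2) - 1) := by ring
        rw [e, abs_mul, abs_of_nonneg (sq_nonneg p), mul_comm]
        apply mul_le_mul_of_nonneg_right _ (sq_nonneg p)
        have : 0 ≤ p ^ 2 * r ^ 2 := by positivity
        rw [abs_le]; constructor <;> linarith
      have f5 : |h ^ 2 / 2 * ((k1 * X1 + k2 * Y1) * (3 * r ^ 2 * p ^ 4 - p ^ 2))| ≤ 2 * B := by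
        rw [abs_mul, abs_mul, abs_of_nonneg (show 0 ≤ h ^ 2 / 2 by positivity)]
        calc h ^ 2 / 2 * (|k1 * X1 + k2 * Y1| * |3 * r ^ 2 * p ^ 4 - p ^ 2|)
            ≤ h ^ 2 / 2 * ((2 * B) * (2 * p ^ 2)) := by
              apply mul_le_mul_of_nonneg_left _ (by positivity)
              exact mul_le_mul hq f4 (abs_nonneg _) (by positivity)
          _ = 2 * B * (p ^ 2 * h ^ 2) := by ring
          _ ≤ 2 * B * 1 := mul_le_mul_of_nonneg_left hph (by positivity)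
          _ = 2 * B := by ring
      have f6 : h ^ 2 / 2 * (kk * ((1 / 2) * (p - r ^ 2 * p ^ 3))
        + (k1 * X1 + k2 * Y1) * (3 * r ^ 2 * p ^ 4 - p ^ 2)) ≤ 3 * B := by
        have := (abs_le.1 f3).2
        have := (abs_le.1 f5).2
        linarith
      exact mul_le_mul_of_nonneg_right f6 hU
  -- the sum
  have hfin : G * u ^ 2 + 2 * B * (h ^ 2 * (a ^ 2 + b ^ 2)) + B * (h ^ 2 * (a ^ 2 + b ^ 2) + G * u ^ 2)
      + 3 * B * u ^ 2 ≤ (3 * A + A * G + G) / R * (h ^ 2 * (a ^ 2 + b ^ 2) + u ^ 2) := by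
    have e : (3 * A + A * G + G) / R = 3 * B + B * G + G / R := by rw [hB]; field_simp
    have hGR : G ≤ G / R := by
      rw [le_div_iff₀ hR]
      calc G * R ≤ G * 1 := mul_le_mul_of_nonneg_left hR1 hG
        _ = G := mul_one _
    rw [e]
    have q1 : 0 ≤ B * G * (h ^ 2 * (a ^ 2 + b ^ 2)) := by positivity
    have q2 : 0 ≤ G / R * (h ^ 2 * (a ^ 2 + b ^ 2)) := by positivity
    have q3 : G * u ^ 2 ≤ G / R * u ^ 2 := mul_le_mul_of_nonneg_right hGR hU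
    linarith
  linarith

/-! ### The main estimate -/

section main

variable (z₀ : ℂ) (r r₀ : ℝ)

/-- the vector field -/
def Z1 (z : ℂ) : ℝ := chi z₀ r₀ z * (p z₀ r z * X z₀ z)

/-- the vector field -/
def Z2 (z : ℂ) : ℝ := chi z₀ r₀ z * (p z₀ r z * Y z₀ z)

/-- the weight -/
def cc (z : ℂ) : ℝ := chi z₀ r₀ z * c0 z₀ r z

variable {z₀ r r₀}

lemma cd_Z1 (hr : 0 < r) : ContDiff ℝ ∞ (Z1 z₀ r r₀) :=
  (cd_chi z₀ r₀).mul ((cd_p z₀ hr).mul (cd_X z₀))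

lemma cd_Z2 (hr : 0 < r) : ContDiff ℝ ∞ (Z2 z₀ r r₀) :=
  (cd_chi z₀ r₀).mul ((cd_p z₀ hr).mul (cd_Y z₀))

lemma cd_cc (hr : 0 < r) : ContDiff ℝ ∞ (cc z₀ r r₀) :=
  (cd_chi z₀ r₀).mul (cd_c0 z₀ hr)

lemma d1_Z1 (hr : 0 < r) (z : ℂ) : d1 (Z1 z₀ r r₀) z = d1 (chi z₀ r₀) z * (p z₀ r z * X z₀ z)
    + chi z₀ r₀ z * (p z₀ r z - X z₀ z ^ 2 * p z₀ r z ^ 3) := by
  have hp := cd_p z₀ hr
  have e : d1 (Z1 z₀ r r₀) z = _ := d1_mul (cd_chi z₀ r₀) (hp.mul (cd_X z₀)) z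
  rw [e, d1_mul hp (cd_X z₀), d1_p z₀ hr, d1_X]; ring

lemma d2_Z1 (hr : 0 < r) (z : ℂ) : d2 (Z1 z₀ r r₀) z = d2 (chi z₀ r₀) z * (p z₀ r z * X z₀ z)
    + chi z₀ r₀ z * (- (X z₀ z * Y z₀ z * p z₀ r z ^ 3)) := by
  have hp := cd_p z₀ hr
  have e : d2 (Z1 z₀ r r₀) z = _ := d2_mul (cd_chi z₀ r₀) (hp.mul (cd_X z₀)) z
  rw [e, d2_mul hp (cd_X z₀), d2_p z₀ hr, d2_X]; ring

lemma d1_Z2 (hr : 0 < r) (z : ℂ) : d1 (Z2 z₀ r r₀) z = d1 (chi z₀ r₀) z * (p z₀ r z * Y z₀ z)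
    + chi z₀ r₀ z * (- (X z₀ z * Y z₀ z * p z₀ r z ^ 3)) := by
  have hp := cd_p z₀ hr
  have e : d1 (Z2 z₀ r r₀) z = _ := d1_mul (cd_chi z₀ r₀) (hp.mul (cd_Y z₀)) z
  rw [e, d1_mul hp (cd_Y z₀), d1_p z₀ hr, d1_Y]; ring

lemma d2_Z2 (hr : 0 < r) (z : ℂ) : d2 (Z2 z₀ r r₀) z = d2 (chi z₀ r₀) z * (p z₀ r z * Y z₀ z)
    + chi z₀ r₀ z * (p z₀ r z - Y z₀ z ^ 2 * p z₀ r z ^ 3) := by
  have hp := cd_p z₀ hr
  have e : d2 (Z2 z₀ r r₀) z = _ := d2_mul (cd_chi z₀ r₀) (hp.mul (cd_Y z₀)) z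
  rw [e, d2_mul hp (cd_Y z₀), d2_p z₀ hr, d2_Y]; ring

lemma lap_cc (hr : 0 < r) (z : ℂ) : lap (cc z₀ r r₀) z
    = lap (chi z₀ r₀) z * c0 z₀ r z + 2 * (d1 (chi z₀ r₀) z * d1 (c0 z₀ r) z
      + d2 (chi z₀ r₀) z * d2 (c0 z₀ r) z) + chi z₀ r₀ z * L0 z₀ r z := by
  have e : lap (cc z₀ r r₀) z = _ := lap_mul (cd_chi z₀ r₀) (cd_c0 z₀ hr) z
  rw [e, lap_c0 z₀ hr]

/-- the integrand of the virial identity -/
def Igd (h : ℝ) (u g : ℂ → ℝ) (Z₁ Z₂ c : ℂ → ℝ) (z : ℂ) : ℝ :=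
  (h ^ 2 * (d1 Z₁ z * d1 u z ^ 2 + (d1 Z₂ z + d2 Z₁ z) * (d1 u z * d2 u z)
        + d2 Z₂ z * d2 u z ^ 2)
      + (c z - (d1 Z₁ z + d2 Z₂ z) / 2) * (h ^ 2 * (d1 u z ^ 2 + d2 u z ^ 2))
      + ((d1 Z₁ z + d2 Z₂ z) / 2 - c z) * (g z * u z ^ 2)
      + (Z₁ z * d1 g z + Z₂ z * d2 g z) / 2 * u z ^ 2
      - h ^ 2 / 2 * lap c z * u z ^ 2)

lemma cont_Igd (h : ℝ) {u g Z₁ Z₂ c : ℂ → ℝ} (hu : ContDiff ℝ ∞ u) (hg : ContDiff ℝ ∞ g)
    (h1 : ContDiff ℝ ∞ Z₁) (h2 : ContDiff ℝ ∞ Z₂) (hc : ContDiff ℝ ∞ c) :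
    Continuous (Igd h u g Z₁ Z₂ c) := by
  have a1 := (cd_d1 hu).continuous
  have a2 := (cd_d2 hu).continuous
  have a3 := (cd_d1 hg).continuous
  have a4 := (cd_d2 hg).continuous
  have a5 := (cd_d1 h1).continuous
  have a6 := (cd_d2 h1).continuous
  have a7 := (cd_d1 h2).continuous
  have a8 := (cd_d2 h2).continuous
  have a9 : Continuous (lap c) := ((cd_d1 (cd_d1 hc)).add (cd_d2 (cd_d2 hc))).continuous
  have b1 := hu.continuous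
  have b2 := hg.continuous
  have b3 := h1.continuous
  have b4 := h2.continuous
  have b5 := hc.continuous
  unfold Igd
  fun_prop

end main

section main2

variable {z₀ : ℂ} {r r₀ : ℝ}

lemma sq_add_eq (z₀ z : ℂ) : X z₀ z ^ 2 + Y z₀ z ^ 2 = dist z z₀ ^ 2 := by
  unfold X Y
  rw [dist_eq_norm, ← Complex.normSq_eq_norm_sq, Complex.normSq_apply]
  ring

lemma Igd_bound {m G A h : ℝ} {u g : ℂ → ℝ} (hA0 : 0 ≤ A)
    (hA : ∀ z, |d1 bb z| ≤ A ∧ |d2 bb z| ≤ A ∧ |lap bb z| ≤ A) (hr : 0 < r) (hr0 : 0 < r₀)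
    (hr1 : r₀ ≤ 1) (hh : 0 < h) (hhR : h ≤ r₀) (h5 : 5 * h ^ 2 ≤ m * r ^ 2) (hm : 0 < m) (z : ℂ)
    (hg : m ≤ g z ∧ g z ≤ G ∧ |d1 g z| ≤ G ∧ |d2 g z| ≤ G) :
    chi z₀ r₀ z * (m / 2 * r ^ 2 * p z₀ r z ^ 3 * u z ^ 2)
      - (3 * A + A * G + G) / r₀ * (h ^ 2 * (d1 u z ^ 2 + d2 u z ^ 2) + u z ^ 2)
      ≤ Igd h u g (Z1 z₀ r r₀) (Z2 z₀ r r₀) (cc z₀ r r₀) z := by
  obtain ⟨hg0, hg1, hg2, hg3⟩ := hg
  obtain ⟨b1, b2, b3⟩ := chi_bounds z₀ hr0 hA z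
  have hin : X z₀ z ^ 2 + Y z₀ z ^ 2 < r₀ ^ 2 →
      d1 (chi z₀ r₀) z = 0 ∧ d2 (chi z₀ r₀) z = 0 ∧ lap (chi z₀ r₀) z = 0 := by
    intro hz
    rw [sq_add_eq] at hz
    exact chi_der_in z₀ hr0 (lt_of_pow_lt_pow_left₀ 2 hr0.le hz)
  have key := key_bound (k := chi z₀ r₀ z) (k1 := d1 (chi z₀ r₀) z) (k2 := d2 (chi z₀ r₀) z)
    (kk := lap (chi z₀ r₀) z) (x := X z₀ z) (y := Y z₀ z) (u := u z) (a := d1 u z) (b := d2 u z)
    (p_pos z₀ hr z) (p_sq z₀ hr z) (chi_nonneg z₀ r₀ z) (chi_le_one z₀ r₀ z) hA0 hr0 hr1 b1 b2 b3 hh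
    hhR h5 hm hg0 hg1 hg2 hg3 hin
  rw [← key_identity (p_sq z₀ hr z)] at key
  refine key.trans (le_of_eq ?_)
  unfold Igd
  rw [d1_Z1 hr, d2_Z1 hr, d1_Z2 hr, d2_Z2 hr, lap_cc hr, d1_c0 z₀ hr, d2_c0 z₀ hr]
  unfold Z1 Z2 cc c0 L0
  rfl

lemma Igd_zero {h : ℝ} {u g : ℂ → ℝ} (hr : 0 < r) (hr0 : 0 < r₀) (z : ℂ)
    (hz : z ∉ Metric.closedBall z₀ (2 * r₀)) :
    Igd h u g (Z1 z₀ r r₀) (Z2 z₀ r r₀) (cc z₀ r r₀) z = 0 := by
  rw [Metric.mem_closedBall, not_le] at hz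
  obtain ⟨e1, e2, e3⟩ := chi_der_out z₀ hr0 hz
  have e0 := chi_zero z₀ hr0 hz.le
  unfold Igd
  rw [d1_Z1 hr, d2_Z1 hr, d1_Z2 hr, d2_Z2 hr, lap_cc hr]
  unfold Z1 Z2 cc
  rw [e0, e1, e2, e3]
  ring

lemma p_lower (hr : 0 < r) {z : ℂ} (hz : z ∈ Metric.closedBall z₀ r) :
    1 / (4 * r) ≤ r ^ 2 * p z₀ r z ^ 3 := by
  have h1 := p_sq z₀ hr z
  have hp := p_pos z₀ hr z
  rw [sq_add_eq] at h1
  have hd : dist z z₀ ≤ r := Metric.mem_closedBall.1 hz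
  have hd2 : dist z z₀ ^ 2 ≤ r ^ 2 := pow_le_pow_left₀ dist_nonneg hd 2
  set q := p z₀ r z
  -- q² ≥ 1 / (2 r²)
  have h2 : 1 ≤ q ^ 2 * (2 * r ^ 2) := by
    have := mul_le_mul_of_nonneg_left hd2 (sq_nonneg q)
    linarith
  have h3 : 1 ≤ q * (2 * r) := by
    by_contra hc
    push Not at hc
    have hc2 : (q * (2 * r)) ^ 2 < 1 := by
      have h0 : 0 ≤ q * (2 * r) := by positivity
      calc (q * (2 * r)) ^ 2 < 1 ^ 2 := pow_lt_pow_left₀ hc h0 two_ne_zero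
        _ = 1 := one_pow 2
    nlinarith
  rw [div_le_iff₀ (by positivity)]
  have h4 : 1 * 1 ≤ (q ^ 2 * (2 * r ^ 2)) * (q * (2 * r)) :=
    mul_le_mul h2 h3 zero_le_one (by positivity)
  linarith [h4, show r ^ 2 * q ^ 3 * (4 * r) = (q ^ 2 * (2 * r ^ 2)) * (q * (2 * r)) by ring]

lemma main_ineq (hVir : StmtVir) {m G A h : ℝ} {u g : ℂ → ℝ} (hA0 : 0 ≤ A)
    (hA : ∀ z, |d1 bb z| ≤ A ∧ |d2 bb z| ≤ A ∧ |lap bb z| ≤ A) (hu : ContDiff ℝ ∞ u)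
    (hgs : ContDiff ℝ ∞ g) (hr : 0 < r) (hrr : r ≤ r₀)
    (hr1 : r₀ ≤ 1) (hh : 0 < h) (hhR : h ≤ r₀) (h5 : 5 * h ^ 2 ≤ m * r ^ 2) (hm : 0 < m)
    (hg : ∀ z ∈ Metric.closedBall z₀ (3 * r₀), m ≤ g z ∧ g z ≤ G ∧ |d1 g z| ≤ G ∧ |d2 g z| ≤ G)
    (heq : ∀ z ∈ Metric.closedBall z₀ (3 * r₀), h ^ 2 * lap u z = - (g z * u z)) :
    m / (8 * r) * ∫ z in Metric.closedBall z₀ r, u z ^ 2
      ≤ (3 * A + A * G + G) / r₀ * ∫ z in Metric.closedBall z₀ (2 * r₀),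
        (h ^ 2 * (d1 u z ^ 2 + d2 u z ^ 2) + u z ^ 2) := by
  have hr0 : 0 < r₀ := hr.trans_le hrr
  have hsub : Metric.closedBall z₀ (2 * r₀) ⊆ Metric.closedBall z₀ (3 * r₀) :=
    Metric.closedBall_subset_closedBall (by linarith)
  have hsub2 : Metric.closedBall z₀ r ⊆ Metric.closedBall z₀ (2 * r₀) :=
    Metric.closedBall_subset_closedBall (by linarith)
  have hcs := hcs_chi z₀ hr0
  have h0 : ∫ z, Igd h u g (Z1 z₀ r r₀) (Z2 z₀ r r₀) (cc z₀ r r₀) z = 0 := by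
    refine hVir u g (Z1 z₀ r r₀) (Z2 z₀ r r₀) (cc z₀ r r₀) h hu hgs (cd_Z1 hr) (cd_Z2 hr) (cd_cc hr)
      hcs.mul_right hcs.mul_right hcs.mul_right ?_
    intro z hz
    apply heq z
    apply hsub
    by_contra hc
    rw [Metric.mem_closedBall, not_le] at hc
    have e0 := chi_zero z₀ hr0 hc.le
    unfold Z1 Z2 cc at hz
    rw [e0] at hz
    simp at hz
  have h1 : ∫ z in Metric.closedBall z₀ (2 * r₀),
      Igd h u g (Z1 z₀ r r₀) (Z2 z₀ r r₀) (cc z₀ r r₀) z = 0 := by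
    rw [setIntegral_eq_integral_of_forall_compl_eq_zero (fun z hz => Igd_zero hr hr0 z hz)]
    exact h0
  have cI : Continuous (Igd h u g (Z1 z₀ r r₀) (Z2 z₀ r r₀) (cc z₀ r r₀)) :=
    cont_Igd h hu hgs (cd_Z1 hr) (cd_Z2 hr) (cd_cc hr)
  have c1 := hu.continuous
  have c2 := (cd_d1 hu).continuous
  have c3 := (cd_d2 hu).continuous
  have c4 := (cd_p z₀ hr).continuous
  have c5 := (cd_chi z₀ r₀).continuous
  have cF : Continuous (fun z => chi z₀ r₀ z * (m / 2 * r ^ 2 * p z₀ r z ^ 3 * u z ^ 2)) := by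
    fun_prop
  have cE : Continuous (fun z => h ^ 2 * (d1 u z ^ 2 + d2 u z ^ 2) + u z ^ 2) := by fun_prop
  have hK := isCompact_closedBall z₀ (2 * r₀)
  have iF := (cF.continuousOn (s := Metric.closedBall z₀ (2 * r₀))).integrableOn_compact hK
    (μ := volume)
  have iE := ((cE.continuousOn (s := Metric.closedBall z₀ (2 * r₀))).integrableOn_compact hK
    (μ := volume))
  have iI := (cI.continuousOn (s := Metric.closedBall z₀ (2 * r₀))).integrableOn_compact hK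
    (μ := volume)
  have h2 : (∫ z in Metric.closedBall z₀ (2 * r₀),
        chi z₀ r₀ z * (m / 2 * r ^ 2 * p z₀ r z ^ 3 * u z ^ 2))
      - (3 * A + A * G + G) / r₀ * ∫ z in Metric.closedBall z₀ (2 * r₀),
        (h ^ 2 * (d1 u z ^ 2 + d2 u z ^ 2) + u z ^ 2) ≤ 0 := by
    rw [← integral_const_mul, ← integral_sub iF (iE.const_mul _), ← h1]
    refine setIntegral_mono_on (iF.sub (iE.const_mul _)) iI measurableSet_closedBall ?_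
    intro z hz
    exact Igd_bound hA0 hA hr hr0 hr1 hh hhR h5 hm z (hg z (hsub hz))
  have h3 : m / (8 * r) * ∫ z in Metric.closedBall z₀ r, u z ^ 2
      ≤ ∫ z in Metric.closedBall z₀ (2 * r₀),
        chi z₀ r₀ z * (m / 2 * r ^ 2 * p z₀ r z ^ 3 * u z ^ 2) := by
    have a1 : m / (8 * r) * ∫ z in Metric.closedBall z₀ r, u z ^ 2
        ≤ ∫ z in Metric.closedBall z₀ r,
          chi z₀ r₀ z * (m / 2 * r ^ 2 * p z₀ r z ^ 3 * u z ^ 2) := by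
      rw [← integral_const_mul]
      refine setIntegral_mono_on ?_ (iF.mono_set hsub2) measurableSet_closedBall ?_
      · have c6 : Continuous fun z => m / (8 * r) * u z ^ 2 := by fun_prop
        exact c6.continuousOn.integrableOn_compact (isCompact_closedBall z₀ r)
      · intro z hz
        rw [chi_one z₀ hr0 ((Metric.mem_closedBall.1 hz).trans hrr), one_mul]
        have b1 := p_lower hr hz
        have b2 : m / (8 * r) ≤ m / 2 * r ^ 2 * p z₀ r z ^ 3 := by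
          have := mul_le_mul_of_nonneg_left b1 (show 0 ≤ m / 2 by positivity)
          calc m / (8 * r) = m / 2 * (1 / (4 * r)) := by field_simp; norm_num
            _ ≤ m / 2 * (r ^ 2 * p z₀ r z ^ 3) := this
            _ = _ := by ring
        exact mul_le_mul_of_nonneg_right b2 (sq_nonneg _)
    refine a1.trans ?_
    refine setIntegral_mono_set iF ?_ hsub2.eventuallyLE
    refine Filter.Eventually.of_forall fun z => ?_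
    have := chi_nonneg z₀ r₀ z
    have hp := p_pos z₀ hr z
    show 0 ≤ chi z₀ r₀ z * (m / 2 * r ^ 2 * p z₀ r z ^ 3 * u z ^ 2)
    positivity
  linarith

end main2

end

end MOR

/-- MOR: linear growth of the mass -/
theorem stmtMor (hVir : StmtVir) (hCac : StmtCac) : StmtMor := by
  intro m G hm
  obtain ⟨A, hA0, hA⟩ := MOR.exists_A
  obtain ⟨D, hD, hCac⟩ := hCac G
  -- the constant for `5 h² ≤ m r²`
  set K : ℝ := 3 * A + A * |G| + |G| with hK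
  set C₁ : ℝ := 8 * K * (D + 1) / m + 1 with hC1
  set κ : ℝ := 1 + 5 / m with hκ
  have hK0 : 0 ≤ K := by positivity
  have hC1p : 1 ≤ C₁ := by
    have : 0 ≤ 8 * K * (D + 1) / m := by positivity
    linarith
  have hκ1 : 1 ≤ κ := by
    have : 0 ≤ 5 / m := by positivity
    linarith
  have hκm : 5 ≤ m * κ ^ 2 := by
    have e : m * κ ^ 2 = m + 10 + 25 / m := by rw [hκ]; field_simp; ring
    have : 0 ≤ 25 / m := by positivity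
    linarith
  refine ⟨κ * C₁, by positivity, ?_⟩
  intro u g z₀ h r r₀ hu hg hh hhr hrr hr1 hgb heq
  have hr : 0 < r := hh.trans_le hhr
  have hr0 : 0 < r₀ := hr.trans_le hrr
  have hGG : 0 ≤ G := by
    obtain ⟨a1, a2, -, -⟩ := hgb z₀ (Metric.mem_closedBall_self (by positivity))
    linarith
  have habs : |G| = G := abs_of_nonneg hGG
  have cu : Continuous fun z => u z ^ 2 := hu.continuous.pow 2
  have iu : ∀ R : ℝ, IntegrableOn (fun z => u z ^ 2) (Metric.closedBall z₀ R) volume := fun R =>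
    cu.continuousOn.integrableOn_compact (isCompact_closedBall z₀ R)
  have mono : ∀ R R' : ℝ, R ≤ R' → ∫ z in Metric.closedBall z₀ R, u z ^ 2
      ≤ ∫ z in Metric.closedBall z₀ R', u z ^ 2 := by
    intro R R' hRR
    refine setIntegral_mono_set (iu R') (Filter.Eventually.of_forall fun z => sq_nonneg _)
      (Metric.closedBall_subset_closedBall hRR).eventuallyLE
  have hM0 : 0 ≤ ∫ z in Metric.closedBall z₀ (3 * r₀), u z ^ 2 :=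
    integral_nonneg fun z => sq_nonneg _
  -- the estimate for large radii
  have big : ∀ ρ : ℝ, κ * h ≤ ρ → ρ ≤ r₀ → ∫ z in Metric.closedBall z₀ ρ, u z ^ 2
      ≤ C₁ * (ρ / r₀) * ∫ z in Metric.closedBall z₀ (3 * r₀), u z ^ 2 := by
    intro ρ h1 h2
    have hρ : 0 < ρ := by
      have : 0 < κ * h := by positivity
      linarith
    have h5 : 5 * h ^ 2 ≤ m * ρ ^ 2 := by
      calc 5 * h ^ 2 ≤ (m * κ ^ 2) * h ^ 2 := mul_le_mul_of_nonneg_right hκm (sq_nonneg h)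
        _ = m * (κ * h) ^ 2 := by ring
        _ ≤ m * ρ ^ 2 := mul_le_mul_of_nonneg_left (pow_le_pow_left₀ (by positivity) h1 2) hm.le
    have key := MOR.main_ineq hVir (z₀ := z₀) (r := ρ) (r₀ := r₀) hA0 hA hu hg hρ h2 hr1 hh
      (hhr.trans hrr) h5 hm hgb heq
    have hcac := hCac u g z₀ h r₀ hu hh (hhr.trans hrr)
      (fun z hz => by
        obtain ⟨a1, a2, -, -⟩ := hgb z hz
        rw [abs_of_nonneg (by linarith)]; exact a2) heq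
    have c2 := (MOR.cd_d1 hu).continuous
    have c3 := (MOR.cd_d2 hu).continuous
    have cE : Continuous (fun z => h ^ 2 * (d1 u z ^ 2 + d2 u z ^ 2)) := by fun_prop
    have iE := ((cE.continuousOn (s := Metric.closedBall z₀ (2 * r₀))).integrableOn_compact
      (isCompact_closedBall z₀ (2 * r₀)) (μ := volume))
    rw [integral_add iE (iu (2 * r₀))] at key
    have hmon := mono (2 * r₀) (3 * r₀) (by linarith)
    set M := ∫ z in Metric.closedBall z₀ (3 * r₀), u z ^ 2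
    set S := ∫ z in Metric.closedBall z₀ ρ, u z ^ 2
    have hKG : 3 * A + A * G + G = K := by rw [hK, habs]
    rw [hKG] at key
    have k1 : m / (8 * ρ) * S ≤ K / r₀ * ((D + 1) * M) := by
      refine key.trans (mul_le_mul_of_nonneg_left ?_ (by positivity))
      linarith
    have k2 : S ≤ (8 * K * (D + 1) / m) * (ρ / r₀) * M := by
      have := mul_le_mul_of_nonneg_left k1 (show 0 ≤ 8 * ρ / m by positivity)
      calc S = 8 * ρ / m * (m / (8 * ρ) * S) := by field_simp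
        _ ≤ 8 * ρ / m * (K / r₀ * ((D + 1) * M)) := this
        _ = _ := by ring
    have k3 : 0 ≤ (ρ / r₀) * M := by positivity
    calc S ≤ (8 * K * (D + 1) / m) * (ρ / r₀) * M := k2
      _ ≤ C₁ * (ρ / r₀) * M := by rw [hC1]; linarith
  have hq : 0 ≤ r / r₀ := by positivity
  by_cases c1 : κ * h ≤ r
  · refine (big r c1 hrr).trans ?_
    apply mul_le_mul_of_nonneg_right _ hM0
    apply mul_le_mul_of_nonneg_right _ hq
    nlinarith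
  · push Not at c1
    by_cases c2 : κ * h ≤ r₀
    · refine (mono r (κ * h) c1.le).trans ((big (κ * h) le_rfl c2).trans ?_)
      apply mul_le_mul_of_nonneg_right _ hM0
      have : κ * h / r₀ ≤ κ * (r / r₀) := by
        rw [mul_div_assoc]
        apply mul_le_mul_of_nonneg_left _ (by positivity)
        exact div_le_div_of_nonneg_right hhr hr0.le
      calc C₁ * (κ * h / r₀) ≤ C₁ * (κ * (r / r₀)) := mul_le_mul_of_nonneg_left this (by positivity)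
        _ = κ * C₁ * (r / r₀) := by ring
    · push Not at c2
      refine (mono r (3 * r₀) (by linarith)).trans ?_
      have h1 : 1 ≤ κ * (r / r₀) := by
        rw [mul_div_assoc', le_div_iff₀ hr0, one_mul]
        have := mul_le_mul_of_nonneg_left hhr (show 0 ≤ κ by positivity)
        linarith
      have h2 : 1 ≤ κ * C₁ * (r / r₀) := by
        calc (1 : ℝ) = 1 * 1 := by ring
          _ ≤ (κ * (r / r₀)) * C₁ := mul_le_mul h1 hC1p zero_le_one (by positivity)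
          _ = _ := by ring
      calc ∫ z in Metric.closedBall z₀ (3 * r₀), u z ^ 2
          = 1 * ∫ z in Metric.closedBall z₀ (3 * r₀), u z ^ 2 := (one_mul _).symm
        _ ≤ _ := mul_le_mul_of_nonneg_right h2 hM0

end QJ
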