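import Pool.Agent.QJ.Stmts
import Pool.Agent.QJ.Dom

/-!
NID: the null form identity
-/

open Complex MeasureTheory Filter Topology Set
open scoped ContDiff

namespace QJ

open QE

noncomputable section

namespace NID

variable {σ : ℂ → ℝ}

lemma Dm (hσ : ContDiff ℝ ∞ σ) {k l m : ℤ} (h : k + l = m) {f g : ℂ → ℂ} (hf : ContDiff ℝ ∞ f)
    (hg : ContDiff ℝ ∞ g) (z : ℂ) :
    D σ m (fun w => f w * g w) z = D σ k f z * g z + f z * D σ l g z := by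
  subst h
  exact D_mul hσ k l (cd_at hf z) (cd_at hg z)

lemma Dbm (hσ : ContDiff ℝ ∞ σ) {k l m : ℤ} (h : k + l = m) {f g : ℂ → ℂ} (hf : ContDiff ℝ ∞ f)
    (hg : ContDiff ℝ ∞ g) (z : ℂ) :
    Db σ m (fun w => f w * g w) z = Db σ k f z * g z + f z * Db σ l g z := by
  subst h
  exact Db_mul hσ k l (cd_at hf z) (cd_at hg z)

lemma Da (hσ : ContDiff ℝ ∞ σ) (k : ℤ) {f g : ℂ → ℂ} (hf : ContDiff ℝ ∞ f)
    (hg : ContDiff ℝ ∞ g) (z : ℂ) :
    D σ k (fun w => f w + g w) z = D σ k f z + D σ k g z := D_add hσ k (cd_at hf z) (cd_at hg z)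

lemma Dba (hσ : ContDiff ℝ ∞ σ) (k : ℤ) {f g : ℂ → ℂ} (hf : ContDiff ℝ ∞ f)
    (hg : ContDiff ℝ ∞ g) (z : ℂ) :
    Db σ k (fun w => f w + g w) z = Db σ k f z + Db σ k g z :=
  Db_add hσ k (cd_at hf z) (cd_at hg z)

lemma Ds (hσ : ContDiff ℝ ∞ σ) (k : ℤ) {f g : ℂ → ℂ} (hf : ContDiff ℝ ∞ f)
    (hg : ContDiff ℝ ∞ g) (z : ℂ) :
    D σ k (fun w => f w - g w) z = D σ k f z - D σ k g z := D_sub hσ k (cd_at hf z) (cd_at hg z)

lemma Dbs (hσ : ContDiff ℝ ∞ σ) (k : ℤ) {f g : ℂ → ℂ} (hf : ContDiff ℝ ∞ f)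
    (hg : ContDiff ℝ ∞ g) (z : ℂ) :
    Db σ k (fun w => f w - g w) z = Db σ k f z - Db σ k g z :=
  Db_sub hσ k (cd_at hf z) (cd_at hg z)

/-- the potential of spin `-1` -/
def FD (σ : ℂ → ℝ) (N : ℤ) (x y x' y' ζ : ℂ → ℂ) (z : ℂ) : ℂ :=
  ζ z * (x z * Db σ (-N - 1) y' z - y z * Db σ (-N + 1) x' z
      + (x' z * Db σ (N - 1) y z - y' z * Db σ (N + 1) x z))
    - Db σ 0 ζ z * (y z * x' z + y' z * x z) + D σ 0 ζ z * (2 * (y z * y' z))

/-- the potential of spin `1` -/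
def FB (σ : ℂ → ℝ) (N : ℤ) (x y x' y' ζ : ℂ → ℂ) (z : ℂ) : ℂ :=
  ζ z * (y z * D σ (-N + 1) x' z - x z * D σ (-N - 1) y' z
      + (y' z * D σ (N + 1) x z - x' z * D σ (N - 1) y z))
    - D σ 0 ζ z * (y z * x' z + y' z * x z) + Db σ 0 ζ z * (2 * (x z * x' z))

variable {N : ℤ} {x y x' y' ζ : ℂ → ℂ}

lemma D_FD (hσ : ContDiff ℝ ∞ σ) (hx : ContDiff ℝ ∞ x) (hy : ContDiff ℝ ∞ y)
    (hx' : ContDiff ℝ ∞ x') (hy' : ContDiff ℝ ∞ y') (hζ : ContDiff ℝ ∞ ζ) (z : ℂ) :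
    D σ (-1) (FD σ N x y x' y' ζ) z =
      D σ 0 ζ z * (x z * Db σ (-N - 1) y' z - y z * Db σ (-N + 1) x' z
        + (x' z * Db σ (N - 1) y z - y' z * Db σ (N + 1) x z))
      + ζ z * (D σ (N + 1) x z * Db σ (-N - 1) y' z + x z * D σ (-N - 1 - 1) (Db σ (-N - 1) y') z
        - (D σ (N - 1) y z * Db σ (-N + 1) x' z + y z * D σ (-N + 1 - 1) (Db σ (-N + 1) x') z)
        + (D σ (-N + 1) x' z * Db σ (N - 1) y z + x' z * D σ (N - 1 - 1) (Db σ (N - 1) y) z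
        - (D σ (-N - 1) y' z * Db σ (N + 1) x z + y' z * D σ (N + 1 - 1) (Db σ (N + 1) x) z)))
      - (D σ (0 - 1) (Db σ 0 ζ) z * (y z * x' z + y' z * x z) + Db σ 0 ζ z *
        (D σ (N - 1) y z * x' z + y z * D σ (-N + 1) x' z
          + (D σ (-N - 1) y' z * x z + y' z * D σ (N + 1) x z)))
      + (D σ 1 (D σ 0 ζ) z * (2 * (y z * y' z)) + D σ 0 ζ z *
        (2 * (D σ (N - 1) y z * y' z + y z * D σ (-N - 1) y' z))) := by
  have c1 := contDiff_Db hσ (-N - 1) hy'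
  have c2 := contDiff_Db hσ (-N + 1) hx'
  have c3 := contDiff_Db hσ (N - 1) hy
  have c4 := contDiff_Db hσ (N + 1) hx
  have c5 := contDiff_Db hσ 0 hζ
  have c6 := contDiff_D hσ 0 hζ
  have d1 := hx.mul c1
  have d2 := hy.mul c2
  have d3 := hx'.mul c3
  have d4 := hy'.mul c4
  have d5 := (d1.sub d2).add (d3.sub d4)
  have d6 := (hy.mul hx').add (hy'.mul hx)
  have d7 := hy.mul hy'
  have d8 : ContDiff ℝ ∞ fun z => 2 * (y z * y' z) := contDiff_const.mul d7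
  unfold FD
  rw [Da hσ (-1) ((hζ.mul d5).sub (c5.mul d6)) (c6.mul d8),
    Ds hσ (-1) (hζ.mul d5) (c5.mul d6),
    Dm hσ (show (0 : ℤ) + -1 = -1 by ring) hζ d5,
    Dm hσ (show (0 - 1 : ℤ) + 0 = -1 by ring) c5 d6,
    Dm hσ (show (1 : ℤ) + -2 = -1 by ring) c6 d8,
    Da hσ (-1) (d1.sub d2) (d3.sub d4), Ds hσ (-1) d1 d2, Ds hσ (-1) d3 d4,
    Dm hσ (show (N + 1) + (-N - 1 - 1) = -1 by ring) hx c1,
    Dm hσ (show (N - 1) + (-N + 1 - 1) = -1 by ring) hy c2,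
    Dm hσ (show (-N + 1) + (N - 1 - 1) = -1 by ring) hx' c3,
    Dm hσ (show (-N - 1) + (N + 1 - 1) = -1 by ring) hy' c4,
    Da hσ 0 (hy.mul hx') (hy'.mul hx),
    Dm hσ (show (N - 1) + (-N + 1) = 0 by ring) hy hx',
    Dm hσ (show (-N - 1) + (N + 1) = 0 by ring) hy' hx,
    D_const_mul hσ (-2) 2 (cd_at d7 z),
    Dm hσ (show (N - 1) + (-N - 1) = -2 by ring) hy hy']

lemma Db_FB (hσ : ContDiff ℝ ∞ σ) (hx : ContDiff ℝ ∞ x) (hy : ContDiff ℝ ∞ y)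
    (hx' : ContDiff ℝ ∞ x') (hy' : ContDiff ℝ ∞ y') (hζ : ContDiff ℝ ∞ ζ) (z : ℂ) :
    Db σ 1 (FB σ N x y x' y' ζ) z =
      Db σ 0 ζ z * (y z * D σ (-N + 1) x' z - x z * D σ (-N - 1) y' z
        + (y' z * D σ (N + 1) x z - x' z * D σ (N - 1) y z))
      + ζ z * (Db σ (N - 1) y z * D σ (-N + 1) x' z + y z * Db σ (-N + 1 + 1) (D σ (-N + 1) x') z
        - (Db σ (N + 1) x z * D σ (-N - 1) y' z + x z * Db σ (-N - 1 + 1) (D σ (-N - 1) y') z)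
        + (Db σ (-N - 1) y' z * D σ (N + 1) x z + y' z * Db σ (N + 1 + 1) (D σ (N + 1) x) z
        - (Db σ (-N + 1) x' z * D σ (N - 1) y z + x' z * Db σ (N - 1 + 1) (D σ (N - 1) y) z)))
      - (Db σ 1 (D σ 0 ζ) z * (y z * x' z + y' z * x z) + D σ 0 ζ z *
        (Db σ (N - 1) y z * x' z + y z * Db σ (-N + 1) x' z
          + (Db σ (-N - 1) y' z * x z + y' z * Db σ (N + 1) x z)))
      + (Db σ (-1) (Db σ 0 ζ) z * (2 * (x z * x' z)) + Db σ 0 ζ z *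
        (2 * (Db σ (N + 1) x z * x' z + x z * Db σ (-N + 1) x' z))) := by
  have c1 := contDiff_D hσ (-N - 1) hy'
  have c2 := contDiff_D hσ (-N + 1) hx'
  have c3 := contDiff_D hσ (N - 1) hy
  have c4 := contDiff_D hσ (N + 1) hx
  have c5 := contDiff_Db hσ 0 hζ
  have c6 := contDiff_D hσ 0 hζ
  have d1 := hx.mul c1
  have d2 := hy.mul c2
  have d3 := hx'.mul c3
  have d4 := hy'.mul c4
  have d5 := (d2.sub d1).add (d4.sub d3)
  have d6 := (hy.mul hx').add (hy'.mul hx)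
  have d7 := hx.mul hx'
  have d8 : ContDiff ℝ ∞ fun z => 2 * (x z * x' z) := contDiff_const.mul d7
  unfold FB
  rw [Dba hσ 1 ((hζ.mul d5).sub (c6.mul d6)) (c5.mul d8),
    Dbs hσ 1 (hζ.mul d5) (c6.mul d6),
    Dbm hσ (show (0 : ℤ) + 1 = 1 by ring) hζ d5,
    Dbm hσ (show (1 : ℤ) + 0 = 1 by ring) c6 d6,
    Dbm hσ (show (-1 : ℤ) + 2 = 1 by ring) c5 d8,
    Dba hσ 1 (d2.sub d1) (d4.sub d3), Dbs hσ 1 d2 d1, Dbs hσ 1 d4 d3,
    Dbm hσ (show (N + 1) + (-N - 1 + 1) = 1 by ring) hx c1,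
    Dbm hσ (show (N - 1) + (-N + 1 + 1) = 1 by ring) hy c2,
    Dbm hσ (show (-N + 1) + (N - 1 + 1) = 1 by ring) hx' c3,
    Dbm hσ (show (-N - 1) + (N + 1 + 1) = 1 by ring) hy' c4,
    Dba hσ 0 (hy.mul hx') (hy'.mul hx),
    Dbm hσ (show (N - 1) + (-N + 1) = 0 by ring) hy hx',
    Dbm hσ (show (-N - 1) + (N + 1) = 0 by ring) hy' hx,
    Db_const_mul hσ 2 2 (cd_at d7 z),
    Dbm hσ (show (N + 1) + (-N + 1) = 2 by ring) hx hx']

lemma test_zero {V : Set ℂ} {ζ : ℂ → ℂ} (hζ : Test V ζ) {z : ℂ} (hz : z ∉ V) : ζ z = 0 := by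
  by_contra h
  exact hz (hζ.sub (subset_tsupport ζ h))

/-- the pointwise identity -/
lemma point {V : Set ℂ} (hσ : ContDiff ℝ ∞ σ) (hx : ContDiff ℝ ∞ x) (hy : ContDiff ℝ ∞ y)
    (hx' : ContDiff ℝ ∞ x') (hy' : ContDiff ℝ ∞ y') (hζ : Test V ζ)
    (h1 : ∀ z ∈ V, Db σ (N + 1) x z = D σ (N - 1) y z)
    (h2 : ∀ z ∈ V, Db σ (-N + 1) x' z = D σ (-N - 1) y' z) (z : ℂ) :
    ζ z * (D σ (N + 1) x z * Db σ (-N - 1) y' z
        + Db σ (N - 1) y z * D σ (-N + 1) x' z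
        - Db σ (N + 1) x z * D σ (-N - 1) y' z - D σ (N - 1) y z * Db σ (-N + 1) x' z) =
      (Db σ 1 (D σ 0 ζ) z * (x z * y' z + x' z * y z)
          - D σ 1 (D σ 0 ζ) z * (y z * y' z) - Db σ (-1) (Db σ 0 ζ) z * (x z * x' z)
          + 2 * ζ z * curv σ z * ((N - 1) * (x' z * y z) - (N + 1) * (x z * y' z))) +
      (1 / 2) * (D σ (-1) (FD σ N x y x' y' ζ) z + Db σ 1 (FB σ N x y x' y' ζ) z) := by
  rw [D_FD hσ hx hy hx' hy' hζ.smooth z, Db_FB hσ hx hy hx' hy' hζ.smooth z,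
    comm hσ (-N + 1) hx' z, comm hσ (-N - 1) hy' z, comm hσ (N + 1) hx z, comm hσ (N - 1) hy z]
  have k0 := comm hσ 0 hζ.smooth z
  rw [zero_add] at k0
  by_cases hz : z ∈ V
  · rw [h1 z hz, h2 z hz, k0]
    push_cast
    ring
  · have a1 := test_zero hζ hz
    have a2 := test_zero (test_D hσ 0 hζ) hz
    have a3 := test_zero (test_Db hσ 0 hζ) hz
    have a4 := test_zero (test_D hσ 1 (test_D hσ 0 hζ)) hz
    have a5 := test_zero (test_Db hσ 1 (test_D hσ 0 hζ)) hz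
    have a6 := test_zero (test_Db hσ (-1) (test_Db hσ 0 hζ)) hz
    have a7 := test_zero (test_D hσ (0 - 1) (test_Db hσ 0 hζ)) hz
    rw [a1, a2, a3, a4, a5, a6, a7]
    ring

end NID

theorem stmtNid : StmtNid := by
  intro V σ N x y x' y' ζ _ hσ hx hy hx' hy' hζ h1 h2
  have hp := NID.point hσ hx hy hx' hy' hζ h1 h2
  have c1 := contDiff_D hσ (-N - 1) hy'
  have c2 := contDiff_D hσ (-N + 1) hx'
  have c3 := contDiff_D hσ (N - 1) hy
  have c4 := contDiff_D hσ (N + 1) hx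
  have b1 := contDiff_Db hσ (-N - 1) hy'
  have b2 := contDiff_Db hσ (-N + 1) hx'
  have b3 := contDiff_Db hσ (N - 1) hy
  have b4 := contDiff_Db hσ (N + 1) hx
  have tD := test_D hσ 0 hζ
  have tB := test_Db hσ 0 hζ
  have sFD : ContDiff ℝ ∞ (NID.FD σ N x y x' y' ζ) :=
    ((hζ.smooth.mul (((hx.mul b1).sub (hy.mul b2)).add ((hx'.mul b3).sub (hy'.mul b4)))).sub
      (tB.smooth.mul ((hy.mul hx').add (hy'.mul hx)))).add
      (tD.smooth.mul (contDiff_const.mul (hy.mul hy')))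
  have sFB : ContDiff ℝ ∞ (NID.FB σ N x y x' y' ζ) :=
    ((hζ.smooth.mul (((hy.mul c2).sub (hx.mul c1)).add ((hy'.mul c4).sub (hx'.mul c3)))).sub
      (tD.smooth.mul ((hy.mul hx').add (hy'.mul hx)))).add
      (tB.smooth.mul (contDiff_const.mul (hx.mul hx')))
  have kFD : HasCompactSupport (NID.FD σ N x y x' y' ζ) :=
    (hζ.supp.mul_right.sub tB.supp.mul_right).add tD.supp.mul_right
  have kFB : HasCompactSupport (NID.FB σ N x y x' y' ζ) :=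
    (hζ.supp.mul_right.sub tD.supp.mul_right).add tB.supp.mul_right
  have z1 := int_D hσ sFD kFD
  have z2 := int_Db hσ sFB kFB
  have tFD : Test Set.univ (NID.FD σ N x y x' y' ζ) := ⟨sFD, kFD, Set.subset_univ _⟩
  have tFB : Test Set.univ (NID.FB σ N x y x' y' ζ) := ⟨sFB, kFB, Set.subset_univ _⟩
  have sG := (((c4.mul b1).add (b3.mul c2)).sub (b4.mul c1)).sub (c3.mul b2)
  have i1 := test_int hζ ((contDiff_ex hσ 2).mul sG).continuous
  have i2 := test_int (test_D hσ (-1) tFD) (contDiff_ex hσ 2).continuous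
  have i3 := test_int (test_Db hσ 1 tFB) (contDiff_ex hσ 2).continuous
  have z1' : ∫ z, D σ (-1) (NID.FD σ N x y x' y' ζ) z * ex σ 2 z = 0 := by
    rw [← z1]
    exact integral_congr_ae (Filter.Eventually.of_forall fun z => mul_comm _ _)
  have z2' : ∫ z, Db σ 1 (NID.FB σ N x y x' y' ζ) z * ex σ 2 z = 0 := by
    rw [← z2]
    exact integral_congr_ae (Filter.Eventually.of_forall fun z => mul_comm _ _)
  have e1 : ∀ z, ex σ 2 z * (Db σ 1 (D σ 0 ζ) z * (x z * y' z + x' z * y z)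
          - D σ 1 (D σ 0 ζ) z * (y z * y' z) - Db σ (-1) (Db σ 0 ζ) z * (x z * x' z)
          + 2 * ζ z * curv σ z * ((N - 1) * (x' z * y z) - (N + 1) * (x z * y' z))) =
      ex σ 2 z * (ζ z * (D σ (N + 1) x z * Db σ (-N - 1) y' z
        + Db σ (N - 1) y z * D σ (-N + 1) x' z
        - Db σ (N + 1) x z * D σ (-N - 1) y' z - D σ (N - 1) y z * Db σ (-N + 1) x' z)) -
      (1 / 2) * (D σ (-1) (NID.FD σ N x y x' y' ζ) z * ex σ 2 z +
        Db σ 1 (NID.FB σ N x y x' y' ζ) z * ex σ 2 z) := by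
    intro z
    rw [hp z]
    ring
  have i1' : Integrable fun z => ex σ 2 z * (ζ z * (D σ (N + 1) x z * Db σ (-N - 1) y' z
        + Db σ (N - 1) y z * D σ (-N + 1) x' z
        - Db σ (N + 1) x z * D σ (-N - 1) y' z - D σ (N - 1) y z * Db σ (-N + 1) x' z)) := by
    refine i1.congr (Filter.Eventually.of_forall fun z => ?_)
    simp only []
    ring
  have i4 : Integrable fun z => (1 / 2 : ℂ) * (D σ (-1) (NID.FD σ N x y x' y' ζ) z * ex σ 2 z +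
        Db σ 1 (NID.FB σ N x y x' y' ζ) z * ex σ 2 z) := (i2.add i3).const_mul _
  simp only [e1]
  rw [integral_sub i1' i4, integral_const_mul, integral_add i2 i3, z1', z2', add_zero, mul_zero,
    sub_zero]

end

end QJ
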