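import Pool.Agent.QJ.Stmts
import Pool.Agent.QJ.Dom
import Pool.Agent.QJ.TWO

/-!
The one-jet limits.
-/

open Complex MeasureTheory Filter Topology Set
open scoped ContDiff

namespace QJ

open QE

noncomputable section

namespace ONE

variable {V : Set ℂ} {σ : ℂ → ℝ} {h : ℕ → ℝ} {φ : ℕ → ℂ → ℂ}

lemma step (hInt : StmtInt) (hIbp : StmtIbp) (hJ : StmtJetA) (L : Loc V σ h φ)
    (hG : Grow V h φ) {ζ : ℂ → ℂ} (hζ : Test V ζ) (j : ℤ) :
    Tendsto (fun n => ∫ z, ζ z * E σ h φ (j + 1) n z) atTop (𝓝 0) := by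
  obtain ⟨dj, ⟨A1, hA1, h1⟩, -⟩ := hJ V σ h φ L j
  obtain ⟨dj1, -, -⟩ := hJ V σ h φ L (j + 1)
  have i1 := (hIbp V σ h φ _ j L.op L.sm L.hpos L.hlim L.smφ hG dj.smooth
    (dj.mono (by norm_num : 1 ≤ 4)).bq ζ hζ).1
  have i2 := (TWO.hlimC L).mul
    (TWO.hlim4 hInt L hG hA1.smooth (hA1.mono (by norm_num : 1 ≤ 4)).bq hζ)
  have i3 := i1.sub i2
  rw [mul_zero, sub_zero] at i3
  refine i3.congr fun n => ?_
  have e : ∀ z, ζ z * ((h n : ℂ) * D σ j (E σ h φ j n) z)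
      = ζ z * E σ h φ (j + 1) n z + (h n : ℂ) ^ 2 * (ζ z * A1 n z) := by
    intro z
    by_cases hz : z ∈ V
    · rw [h1 n z hz]; ring
    · rw [TWO.zero_off hζ hz]; ring
  have k1 : Integrable (fun z => ζ z * E σ h φ (j + 1) n z) :=
    hζ.integrable_mul L.op (dj1.smooth n).continuous.continuousOn
  have k2 : Integrable (fun z => ζ z * A1 n z) :=
    hζ.integrable_mul L.op (hA1.smooth n).continuous.continuousOn
  simp only [e]
  rw [integral_add k1 (k2.const_mul _), integral_const_mul]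
  ring

end ONE

open ONE in
theorem stmtOne (hGro : StmtGro) (hInt : StmtInt) (hIbp : StmtIbp) (hJetA : StmtJetA) :
    StmtOne := by
  intro V σ h φ L j ζ hζ
  have := step hInt hIbp hJetA L (hGro V σ h φ L) hζ (j - 1)
  rwa [sub_add_cancel] at this

end

end QJ
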