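import Pool.Agent.QJ.Stmts
import Pool.Agent.QJ.Dom

/-!
POT: potentials of a triple.
-/

open Complex MeasureTheory Filter Topology Set
open scoped ContDiff

namespace QJ

open QE

noncomputable section

namespace POT

variable {V : Set ℂ} {σ : ℂ → ℝ} {h : ℕ → ℝ} {φ : ℕ → ℂ → ℂ}

/-! ### `L2z` -/

lemma l2z_mono {V V' : Set ℂ} (hVV : V' ⊆ V) {u : ℕ → ℂ → ℂ} (hu : L2z V u) : L2z V' u :=
  fun K hK hKV => hu K hK (hKV.trans hVV)

lemma intOn {u : ℂ → ℂ} (cu : Continuous u) {K : Set ℂ} (hK : IsCompact K) (p : ℕ) :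
    IntegrableOn (fun z => ‖u z‖ ^ p) K :=
  (cu.norm.pow p).continuousOn.integrableOn_compact hK

lemma l2z_congr {u v : ℕ → ℂ → ℂ} (hu : L2z V u) (he : ∀ n, ∀ z ∈ V, u n z = v n z) :
    L2z V v := by
  intro K hK hKV
  refine (hu K hK hKV).congr fun n => ?_
  refine setIntegral_congr_fun hK.measurableSet fun z hz => ?_
  rw [he n z (hKV hz)]

lemma l2z_fn_mul {u : ℕ → ℂ → ℂ} (hu : L2z V u) (cu : ∀ n, Continuous (u n)) {b : ℂ → ℂ}
    (hb : Continuous b) : L2z V (fun n z => b z * u n z) := by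
  intro K hK hKV
  obtain ⟨M, hM⟩ := hK.exists_bound_of_continuousOn hb.continuousOn
  have h1 := (hu K hK hKV).const_mul (M ^ 2)
  rw [mul_zero] at h1
  refine squeeze_zero (fun n => integral_nonneg fun z => by positivity) (fun n => ?_) h1
  rw [← integral_const_mul]
  refine setIntegral_mono_on (intOn (hb.mul (cu n)) hK 2) ((intOn (cu n) hK 2).const_mul _)
    hK.measurableSet fun z hz => ?_
  rw [norm_mul, mul_pow]
  have := hM z hz
  gcongr

lemma l2z_add {u v : ℕ → ℂ → ℂ} (hu : L2z V u) (cu : ∀ n, Continuous (u n)) (hv : L2z V v)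
    (cv : ∀ n, Continuous (v n)) : L2z V (fun n z => u n z + v n z) := by
  intro K hK hKV
  have h1 := ((hu K hK hKV).const_mul 2).add ((hv K hK hKV).const_mul 2)
  rw [mul_zero, add_zero] at h1
  refine squeeze_zero (fun n => integral_nonneg fun z => by positivity) (fun n => ?_) h1
  rw [← integral_const_mul, ← integral_const_mul, ← integral_add
    ((intOn (cu n) hK 2).const_mul _) ((intOn (cv n) hK 2).const_mul _)]
  refine setIntegral_mono_on (intOn ((cu n).add (cv n)) hK 2)
    (((intOn (cu n) hK 2).const_mul _).add ((intOn (cv n) hK 2).const_mul _))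
    hK.measurableSet fun z _ => ?_
  have a3 : ‖u n z + v n z‖ ^ 2 ≤ (‖u n z‖ + ‖v n z‖) ^ 2 := by gcongr; exact norm_add_le _ _
  change ‖u n z + v n z‖ ^ 2 ≤ 2 * ‖u n z‖ ^ 2 + 2 * ‖v n z‖ ^ 2
  nlinarith [sq_nonneg (‖u n z‖ - ‖v n z‖)]

lemma l2z_conj {u : ℕ → ℂ → ℂ} (hu : L2z V u) :
    L2z V (fun n z => (starRingEnd ℂ) (u n z)) := by
  intro K hK hKV
  refine (hu K hK hKV).congr fun n => ?_
  simp only [RCLike.norm_conj]

lemma l2z_int {u : ℕ → ℂ → ℂ} (hu : L2z V u) (cu : ∀ n, Continuous (u n)) {K : Set ℂ}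
    (hK : IsCompact K) (hKV : K ⊆ V) : Tendsto (fun n => ∫ z in K, ‖u n z‖) atTop (𝓝 0) := by
  have hvol : 0 ≤ (volume : Measure ℂ).real K := measureReal_nonneg
  have key : ∀ n, ∀ δ : ℝ, 0 < δ → ∫ z in K, ‖u n z‖ ≤
      δ * (volume : Measure ℂ).real K + (1 / (4 * δ)) * ∫ z in K, ‖u n z‖ ^ 2 := by
    intro n δ hδ
    have h1 : ∫ z in K, (δ + (1 / (4 * δ)) * ‖u n z‖ ^ 2) =
        δ * (volume : Measure ℂ).real K + (1 / (4 * δ)) * ∫ z in K, ‖u n z‖ ^ 2 := by
      rw [integral_add (continuous_const.continuousOn.integrableOn_compact hK)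
        ((intOn (cu n) hK 2).const_mul _), integral_const_mul, setIntegral_const, smul_eq_mul,
        mul_comm δ]
    rw [← h1]
    have h2 := intOn (cu n) hK 1
    simp only [pow_one] at h2
    refine setIntegral_mono_on h2 ((continuous_const.continuousOn.integrableOn_compact hK).add
      ((intOn (cu n) hK 2).const_mul _)) hK.measurableSet fun z _ => ?_
    have h3 : 0 ≤ (2 * δ - ‖u n z‖) ^ 2 := sq_nonneg _
    have h4 : δ + (1 / (4 * δ)) * ‖u n z‖ ^ 2 - ‖u n z‖ = (1 / (4 * δ)) * (2 * δ - ‖u n z‖) ^ 2 := by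
      field_simp
      ring
    have h5 : 0 ≤ (1 / (4 * δ)) * (2 * δ - ‖u n z‖) ^ 2 := by positivity
    linarith
  rw [Metric.tendsto_nhds]
  intro ε hε
  set δ : ℝ := ε / (2 * ((volume : Measure ℂ).real K + 1)) with hδ
  have hδ0 : 0 < δ := by positivity
  have hev := (Metric.tendsto_nhds.mp (hu K hK hKV)) (δ * ε) (by positivity)
  filter_upwards [hev] with n hn
  rw [Real.dist_eq, sub_zero] at hn ⊢
  have h1 : 0 ≤ ∫ z in K, ‖u n z‖ := integral_nonneg fun z => norm_nonneg _
  rw [abs_of_nonneg h1]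
  have h2 : ∫ z in K, ‖u n z‖ ^ 2 < δ * ε := (le_abs_self _).trans_lt hn
  have h3 := key n δ hδ0
  have h4 : (1 / (4 * δ)) * ∫ z in K, ‖u n z‖ ^ 2 ≤ (1 / (4 * δ)) * (δ * ε) := by gcongr
  have h5 : (1 / (4 * δ)) * (δ * ε) = ε / 4 := by
    field_simp
  have h6 : δ * (volume : Measure ℂ).real K ≤ ε / 2 := by
    rw [hδ, div_mul_eq_mul_div, div_le_div_iff₀ (by positivity) (by positivity)]
    nlinarith
  linarith

lemma l2z_test {u : ℕ → ℂ → ℂ} (hu : L2z V u) (cu : ∀ n, Continuous (u n)) {η : ℂ → ℂ}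
    (hη : Test V η) : Tendsto (fun n => ∫ z, η z * u n z) atTop (𝓝 0) := by
  have hKc : IsCompact (tsupport η) := hη.supp
  obtain ⟨M, hM⟩ := hη.smooth.continuous.bounded_above_of_compact_support hη.supp
  have h1 := (l2z_int hu cu hKc hη.sub).const_mul M
  rw [mul_zero] at h1
  refine squeeze_zero_norm (fun n => ?_) h1
  have h2 : ∫ z, η z * u n z = ∫ z in tsupport η, η z * u n z := by
    symm
    refine setIntegral_eq_integral_of_forall_compl_eq_zero fun z hz => ?_
    rw [image_eq_zero_of_notMem_tsupport hz, zero_mul]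
  rw [h2, ← integral_const_mul]
  have h3 := intOn (cu n) hKc 1
  simp only [pow_one] at h3
  refine (norm_integral_le_integral_norm _).trans (setIntegral_mono_on ?_ (h3.const_mul M)
    hKc.measurableSet fun z _ => ?_)
  · exact ((hη.smooth.continuous.mul (cu n)).norm).continuousOn.integrableOn_compact hKc
  · rw [norm_mul]
    have := hM z
    gcongr

/-! ### Weak limits -/

lemma nul_conj {B : ℕ → ℂ → ℂ} (hB : Nul V h φ B) :
    Nul V h φ (fun n z => (starRingEnd ℂ) (B n z)) where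
  smooth := fun n => conjCLE.contDiff.comp (hB.smooth n)
  bd := hB.bd.conj
  weak := by
    intro ζ hζ
    have h1 := hB.weak _ hζ.conj
    have h2 := (Complex.continuous_conj.tendsto 0).comp h1
    rw [map_zero] at h2
    refine h2.congr fun n => ?_
    change (starRingEnd ℂ) (∫ z, (starRingEnd ℂ) (ζ z) * B n z) = _
    rw [← integral_conj]
    refine integral_congr_ae (Filter.Eventually.of_forall fun z => ?_)
    simp

/-- the Cauchy transform of a localized sequence -/
lemma cauchy_small (hCau : StmtCau) (hφ : ∀ n, ContDiff ℝ ∞ (φ n)) (hG : Grow V h φ)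
    {χ β : ℂ → ℂ} (hχ : Test V χ) (hβ : ContDiff ℝ ∞ β) {B : ℕ → ℂ → ℂ} (hB : Nul V h φ B) :
    L2z V (fun n => cauchy (fun w => χ w * β w * B n w)) := by
  intro K1 hK1 hK1V
  have hL : IsCompact (tsupport χ) := hχ.supp
  have hcs : HasCompactSupport (fun z => χ z * β z) := hχ.supp.mul_right
  obtain ⟨M, hM⟩ := (hχ.smooth.mul hβ).continuous.bounded_above_of_compact_support hcs
  have hM0 : 0 ≤ M := (norm_nonneg _).trans (hM 0)
  obtain ⟨N', C', hC'0, hC'⟩ := hB.bd.pos hL hχ.sub
  obtain ⟨G, hG'⟩ := hG.grow (tsupport χ ∪ K1) (hL.union hK1) (union_subset hχ.sub hK1V) N'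
  have hc0 : 0 ≤ M * Real.sqrt C' := by positivity
  refine hCau (tsupport χ) K1 (fun n z => M * Real.sqrt C' * RR h φ N' n z)
    (fun n w => χ w * β w * B n w) (M * Real.sqrt C' * G) hL hK1
    (fun n z => mul_nonneg hc0 (RR_pos h φ N' n z).le)
    (fun n => continuous_const.mul (continuous_RR hφ N' n)) ?_
    (fun n => (hχ.smooth.mul hβ).mul (hB.smooth n)) (fun n => ?_) ?_ (fun ψ hψ => ?_)
  · filter_upwards [hG'] with n hn z hz s hs
    rw [integral_const_mul, mul_assoc _ G s]
    refine mul_le_mul_of_nonneg_left (le_trans ?_ (hn z (Or.inr hz) s hs)) hc0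
    refine setIntegral_mono_set ?_ ?_ ?_
    · exact (continuous_RR hφ N' n).continuousOn.integrableOn_compact
        ((hL.union hK1).inter_right Metric.isClosed_closedBall)
    · exact Filter.Eventually.of_forall fun w => (RR_pos h φ N' n w).le
    · exact (inter_subset_inter_left _ subset_union_left).eventuallyLE
  · exact closure_mono fun z hz => left_ne_zero_of_mul (left_ne_zero_of_mul hz)
  · filter_upwards [hC' N' le_rfl] with n hn z hz
    have h1 := hn z hz
    have h2 : ‖B n z‖ ≤ Real.sqrt C' * RR h φ N' n z := by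
      have h3 := Real.sqrt_le_sqrt h1
      rwa [Real.sqrt_sq (norm_nonneg _), Real.sqrt_mul hC'0.le,
        Real.sqrt_sq (RR_pos h φ N' n z).le] at h3
    rw [norm_mul, mul_assoc]
    exact mul_le_mul (hM z) h2 (norm_nonneg _) hM0
  · have h1 : Test V (fun z => χ z * (β z * ψ z)) := test_mul hχ (hβ.mul hψ)
    refine (hB.weak _ h1).congr fun n => ?_
    refine integral_congr_ae (Filter.Eventually.of_forall fun z => ?_)
    change χ z * (β z * ψ z) * B n z = ψ z * (χ z * β z * B n z)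
    ring

/-! ### One half of the potentials -/

lemma half (hCau : StmtCau) (hHol : StmtHol) (hInt : StmtInt) (N : ℤ) (A B : ℕ → ℂ → ℂ)
    (hσ : ContDiff ℝ ∞ σ) (hpos : ∀ n, 0 < h n)
    (hlim : Tendsto h atTop (𝓝 0)) (hφ : ∀ n, ContDiff ℝ ∞ (φ n)) (hG : Grow V h φ)
    (nA : Nul V h φ A) (nB : Nul V h φ B)
    (eA : L2z V (fun n z => Db σ (N + 2) (A n) z + D σ N (B n) z)) {χ : ℂ → ℂ} (hχ : Test V χ)
    {V' : Set ℂ} (hV' : IsOpen V') (hVV : V' ⊆ V) (h1 : ∀ z ∈ V', χ z = 1) :
    ∃ x : ℕ → ℂ → ℂ, (∀ n, ContDiff ℝ ∞ (x n)) ∧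
      (∀ n, ∀ z ∈ V', Db σ (N + 1) (x n) z = - B n z) ∧ L2z V' x ∧
      L2z V' (fun n z => A n z - D σ (N + 1) (x n) z) ∧
      L2z V' (fun n z => Db σ (N + 2) (fun w => A n w - D σ (N + 1) (x n) w) z) := by
  set β : ℂ → ℂ := fun z => -(1 / 2) * ex σ (N + 2) z with hβdef
  have hβ : ContDiff ℝ ∞ β := contDiff_const.mul (contDiff_ex hσ _)
  set f : ℕ → ℂ → ℂ := fun n w => χ w * β w * B n w with hf
  have sf : ∀ n, ContDiff ℝ ∞ (f n) := fun n => (hχ.smooth.mul hβ).mul (nB.smooth n)
  have cf : ∀ n, HasCompactSupport (f n) := fun n => (hχ.supp.mul_right).mul_right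
  have sxh : ∀ n, ContDiff ℝ ∞ (cauchy (f n)) := fun n => contDiff_cauchy (sf n) (cf n)
  have lxh : L2z V (fun n => cauchy (f n)) := cauchy_small hCau hφ hG hχ hβ nB
  set x : ℕ → ℂ → ℂ := fun n z => ex σ (-(N + 1)) z * cauchy (f n) z with hx
  have sx : ∀ n, ContDiff ℝ ∞ (x n) := fun n => (contDiff_ex hσ _).mul (sxh n)
  have hDb : ∀ n z, Db σ (N + 1) (x n) z = - (χ z * B n z) := by
    intro n z
    have e1 : (fun w => ex σ (N + 1) w * x n w) = cauchy (f n) := by
      funext w
      change ex σ (N + 1) w * (ex σ (-(N + 1)) w * cauchy (f n) w) = _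
      rw [← mul_assoc, ex_mul, show N + 1 + -(N + 1) = 0 by ring, ex_zero, one_mul]
    unfold Db
    rw [e1, dzb_cauchy (sf n) (cf n)]
    have e2 : ex σ (-(N + 1) - 1) z * ex σ (N + 2) z = 1 := by
      rw [ex_mul, show -(N + 1) - 1 + (N + 2) = 0 by ring, ex_zero]
    change 2 * ex σ (-(N + 1) - 1) z * (χ z * (-(1 / 2) * ex σ (N + 2) z) * B n z) = _
    linear_combination (-(χ z * B n z)) * e2
  have hxV : ∀ n, ∀ z ∈ V', Db σ (N + 1) (x n) z = - B n z := by
    intro n z hz
    rw [hDb, h1 z hz, one_mul]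
  have lx : L2z V' x :=
    l2z_mono hVV (l2z_fn_mul lxh (fun n => (sxh n).continuous) (contDiff_ex hσ _).continuous)
  have cx : ∀ n, Continuous (x n) := fun n => (sx n).continuous
  -- the derivative of `α`
  have hcurv : Continuous (curv σ) := by
    unfold curv
    exact ((continuous_const.mul (contDiff_ex hσ _).continuous).mul
      (contDiff_dz (contDiff_dzb (contDiff_sig hσ))).continuous).neg
  have sα : ∀ n, ContDiff ℝ ∞ (fun w => A n w - D σ (N + 1) (x n) w) := fun n =>
    (nA.smooth n).sub (contDiff_D hσ _ (sx n))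
  have hlda : ∀ n, ∀ z ∈ V', (Db σ (N + 2) (A n) z + D σ N (B n) z)
      + (-(2 * (N + 1 : ℤ)) * curv σ z) * x n z =
      Db σ (N + 2) (fun w => A n w - D σ (N + 1) (x n) w) z := by
    intro n z hz
    rw [Db_sub hσ _ (cd_at (nA.smooth n) z) (cd_at (contDiff_D hσ _ (sx n)) z)]
    have e1 := comm hσ (N + 1) (sx n) z
    rw [show N + 1 + 1 = N + 2 by ring, show N + 1 - 1 = N by ring] at e1
    have e2 : D σ N (Db σ (N + 1) (x n)) z = - D σ N (B n) z := by
      rw [D_congr_on hV' N (g := fun w => (-1) * B n w) (fun w hw => by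
        rw [hxV n w hw, neg_one_mul]) hz, D_const_mul hσ N (-1) (cd_at (nB.smooth n) z),
        neg_one_mul]
    rw [e1, e2]
    ring
  have hlda' : L2z V' (fun n z => Db σ (N + 2) (fun w => A n w - D σ (N + 1) (x n) w) z) := by
    refine l2z_congr (l2z_add (l2z_mono hVV eA) (fun n =>
      ((contDiff_Db hσ _ (nA.smooth n)).add (contDiff_D hσ _ (nB.smooth n))).continuous)
      (l2z_fn_mul lx cx (b := fun z => -(2 * (N + 1 : ℤ)) * curv σ z)
        (continuous_const.mul hcurv)) (fun n => (continuous_const.mul hcurv).mul (cx n))) hlda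
  -- `α` itself
  set g : ℕ → ℂ → ℂ := fun n z => ex σ (-(N + 1)) z * x n z with hg
  have sg : ∀ n, ContDiff ℝ ∞ (g n) := fun n => (contDiff_ex hσ _).mul (sx n)
  have cg : ∀ n, Continuous (g n) := fun n => (sg n).continuous
  have lg : L2z V' g := l2z_fn_mul lx cx (contDiff_ex hσ _).continuous
  have hDx : ∀ n z, ex σ (N + 2) z * D σ (N + 1) (x n) z =
      2 * ex σ (2 * N + 2) z * dz (g n) z := by
    intro n z
    have e2 : ex σ (N + 2) z * ex σ (N + 1 - 1) z = ex σ (2 * N + 2) z := by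
      rw [ex_mul]
      congr 1
      ring
    unfold D
    change ex σ (N + 2) z * (2 * ex σ (N + 1 - 1) z * dz (g n) z) = _
    rw [← e2]
    ring
  set E2 : ℂ → ℂ := ex σ (2 * N + 2) with hE2
  have sE2 : ContDiff ℝ ∞ E2 := contDiff_ex hσ _
  set a : ℕ → ℂ → ℂ := fun n z => ex σ (N + 2) z * A n z + 2 * dz E2 z * g n z with ha
  set b : ℕ → ℂ → ℂ := fun n z => (-2) * (E2 z * g n z) with hb
  have sb' : ∀ n, ContDiff ℝ ∞ (fun z => E2 z * g n z) := fun n => sE2.mul (sg n)
  have sb : ∀ n, ContDiff ℝ ∞ (b n) := fun n => contDiff_const.mul (sb' n)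
  have sa1 : ∀ n, ContDiff ℝ ∞ (fun z => ex σ (N + 2) z * A n z) := fun n =>
    (contDiff_ex hσ _).mul (nA.smooth n)
  have hc2 : ContDiff ℝ ∞ (fun z => 2 * dz E2 z) := contDiff_const.mul (contDiff_dz sE2)
  have sa2 : ∀ n, ContDiff ℝ ∞ (fun z => 2 * dz E2 z * g n z) := fun n => hc2.mul (sg n)
  have sa : ∀ n, ContDiff ℝ ∞ (a n) := fun n => (sa1 n).add (sa2 n)
  set αh : ℕ → ℂ → ℂ := fun n z => ex σ (N + 2) z * (A n z - D σ (N + 1) (x n) z) with hαh
  have sαh : ∀ n, ContDiff ℝ ∞ (αh n) := fun n => (contDiff_ex hσ _).mul (sα n)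
  have hαh' : L2z V' αh := by
    refine hHol V' αh a b hV' sαh sa sb (fun n z _ => ?_) (fun K hK hKV => ?_) ?_ (fun ζ hζ => ?_)
    · have e1 : dz (b n) z = (-2) * (dz E2 z * g n z + E2 z * dz (g n) z) := by
        change dz (fun z => (-2) * (E2 z * g n z)) z = _
        rw [dz_const_mul _ (cd_at (sb' n) z), dz_mul (cd_at sE2 z) (cd_at (sg n) z)]
      change ex σ (N + 2) z * (A n z - D σ (N + 1) (x n) z) =
        ex σ (N + 2) z * A n z + 2 * dz E2 z * g n z + dz (b n) z
      rw [e1]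
      linear_combination -hDx n z
    · obtain ⟨C1, hC1⟩ := (hInt V h φ (fun n z => ex σ (N + 2) z * A n z) hpos hlim hφ hG sa1).1
        (nA.bd.fn_mul (contDiff_ex hσ _).continuous.continuousOn) K hK (hKV.trans hVV)
      have t1 := l2z_int (l2z_fn_mul lg cg hc2.continuous) (fun n => (sa2 n).continuous) hK hKV
      have t2 := l2z_int (l2z_fn_mul lg cg (b := fun z => (-2) * E2 z)
        (continuous_const.mul sE2.continuous))
        (fun n => (continuous_const.mul sE2.continuous).mul (cg n)) hK hKV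
      refine ⟨C1 + 1 + 1, ?_⟩
      have u1 := (tendsto_order.1 t1).2 1 one_pos
      have u2 := (tendsto_order.1 t2).2 1 one_pos
      filter_upwards [hC1, u1, u2] with n k1 k2 k3
      have i1 : IntegrableOn (fun z => ‖ex σ (N + 2) z * A n z‖) K :=
        ((sa1 n).continuous.norm).continuousOn.integrableOn_compact hK
      have i2 : IntegrableOn (fun z => ‖2 * dz E2 z * g n z‖) K :=
        ((sa2 n).continuous.norm).continuousOn.integrableOn_compact hK
      have k0 : 0 ≤ ∫ z in K, ‖ex σ (N + 2) z * A n z‖ := integral_nonneg fun z => norm_nonneg _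
      constructor
      · have j1 : ∫ z in K, ‖a n z‖ ≤ ∫ z in K, (‖ex σ (N + 2) z * A n z‖
            + ‖2 * dz E2 z * g n z‖) :=
          setIntegral_mono_on (((sa n).continuous.norm).continuousOn.integrableOn_compact hK)
            (i1.add i2) hK.measurableSet fun z _ => norm_add_le _ _
        rw [integral_add i1 i2] at j1
        linarith
      · have j2 : ∫ z in K, ‖b n z‖ = ∫ z in K, ‖(-2) * E2 z * g n z‖ := by
          refine setIntegral_congr_fun hK.measurableSet fun z _ => ?_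
          change ‖(-2) * (E2 z * g n z)‖ = ‖(-2) * E2 z * g n z‖
          rw [mul_assoc]
        rw [j2]
        linarith
    · refine l2z_congr (l2z_fn_mul hlda' (fun n => (contDiff_Db hσ _ (sα n)).continuous)
        (b := fun z => (1 / 2) * ex σ (N + 3) z)
        (continuous_const.mul (contDiff_ex hσ _).continuous)) fun n z _ => ?_
      have e2 : ex σ (N + 3) z * ex σ (-(N + 2) - 1) z = 1 := by
        rw [ex_mul, show N + 3 + (-(N + 2) - 1) = 0 by ring, ex_zero]
      change (1 / 2) * ex σ (N + 3) z * (2 * ex σ (-(N + 2) - 1) z * dzb (αh n) z) = dzb (αh n) z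
      linear_combination (dzb (αh n) z) * e2
    · have w1 := nA.weak _ (test_mul (hζ.mono hVV) (contDiff_ex hσ (N + 2)))
      have tζ : Test V' (fun z => ζ z * (2 * E2 z)) := test_mul hζ (contDiff_const.mul sE2)
      have w2 := l2z_test lg cg tζ.dz
      have w3 := w1.add w2
      rw [add_zero] at w3
      refine w3.congr fun n => ?_
      have p1 := integral_mul_dz hV' tζ (sg n).contDiffOn
      have i1 : Integrable (fun z => ζ z * ex σ (N + 2) z * A n z) :=
        test_int (test_mul (hζ.mono hVV) (contDiff_ex hσ (N + 2))) (nA.smooth n).continuous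
      have i2 : Integrable (fun z => ζ z * (2 * E2 z) * dz (g n) z) :=
        test_int tζ (contDiff_dz (sg n)).continuous
      have e3 : ∫ z, ζ z * αh n z = (∫ z, ζ z * ex σ (N + 2) z * A n z)
          - ∫ z, ζ z * (2 * E2 z) * dz (g n) z := by
        rw [← integral_sub i1 i2]
        refine integral_congr_ae (Filter.Eventually.of_forall fun z => ?_)
        change ζ z * (ex σ (N + 2) z * (A n z - D σ (N + 1) (x n) z)) =
          ζ z * ex σ (N + 2) z * A n z - ζ z * (2 * E2 z) * dz (g n) z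
        linear_combination (-ζ z) * hDx n z
      rw [e3, p1]
      ring
  refine ⟨x, sx, hxV, lx, ?_, hlda'⟩
  refine l2z_congr (l2z_fn_mul hαh' (fun n => (sαh n).continuous)
    (contDiff_ex hσ (-(N + 2))).continuous) fun n z _ => ?_
  change ex σ (-(N + 2)) z * (ex σ (N + 2) z * (A n z - D σ (N + 1) (x n) z)) = _
  rw [← mul_assoc, ex_mul, show -(N + 2) + (N + 2) = 0 by ring, ex_zero, one_mul]

end POT

open POT in
theorem stmtPot (hCau : StmtCau) (hHol : StmtHol) (hInt : StmtInt) : StmtPot := by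
  intro V σ h φ N A B C hV hσ hpos hlim hφ hG hT K hK hKV
  obtain ⟨χ, hχ, hχ1, -⟩ := exists_cutoff hV hK hKV
  set V' : Set ℂ := interior {z | χ z = 1} with hV'
  have oV' : IsOpen V' := isOpen_interior
  have hKV' : K ⊆ V' := fun z hz => mem_interior_iff_mem_nhds.mpr (hχ1 z hz)
  have h1 : ∀ z ∈ V', χ z = 1 := by
    intro z hz
    have : z ∈ {z | χ z = 1} := interior_subset hz
    exact this
  have hVV : V' ⊆ V := by
    intro z hz
    apply hχ.sub
    apply subset_tsupport
    rw [Function.mem_support, h1 z hz]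
    exact one_ne_zero
  obtain ⟨x, sx, hx, lx, la, lda⟩ := half hCau hHol hInt N A B hσ hpos hlim hφ hG hT.nA hT.nB
    hT.eA hχ oV' hVV h1
  have eC' : L2z V (fun n z => Db σ (-N + 2) (fun w => (starRingEnd ℂ) (C n w)) z
      + D σ (-N) (fun w => (starRingEnd ℂ) (B n w)) z) := by
    refine l2z_congr (l2z_conj hT.eC) fun n z _ => ?_
    rw [Db_conj _ hσ (cd_at (hT.nC.smooth n) z), D_conj _ hσ (cd_at (hT.nB.smooth n) z),
      show -(-N + 2) = N - 2 by ring, neg_neg, map_add]
  obtain ⟨y, sy, hy, ly, lc, ldc⟩ := half hCau hHol hInt (-N) _ _ hσ hpos hlim hφ hG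
    (nul_conj hT.nC) (nul_conj hT.nB) eC' hχ oV' hVV h1
  refine ⟨V', x, fun n z => (starRingEnd ℂ) (y n z), oV', hKV', hVV, ?_⟩
  have hDby : ∀ n z, Db σ (N - 1) (fun w => (starRingEnd ℂ) (y n w)) z =
      (starRingEnd ℂ) (D σ (-N + 1) (y n) z) := by
    intro n z
    rw [Db_conj _ hσ (cd_at (sy n) z), show -(N - 1) = -N + 1 by ring]
  have hγ : ∀ n z, (starRingEnd ℂ) ((starRingEnd ℂ) (C n z) - D σ (-N + 1) (y n) z) =
      C n z - Db σ (N - 1) (fun w => (starRingEnd ℂ) (y n w)) z := by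
    intro n z
    rw [hDby, map_sub, starRingEnd_self_apply]
  exact
    { sx := sx
      sy := fun n => conjCLE.contDiff.comp (sy n)
      hx := hx
      hy := fun n z hz => by
        rw [D_conj _ hσ (cd_at (sy n) z), show -(N - 1) = -N + 1 by ring, hy n z hz, map_neg,
          starRingEnd_self_apply]
      lx := lx
      ly := l2z_conj ly
      la := la
      lc := l2z_congr (l2z_conj lc) fun n z _ => hγ n z
      lda := lda
      ldc := by
        refine l2z_congr (l2z_conj ldc) fun n z _ => ?_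
        have e1 : (fun w => C n w - Db σ (N - 1) (fun w => (starRingEnd ℂ) (y n w)) w) =
            fun w => (starRingEnd ℂ) ((starRingEnd ℂ) (C n w) - D σ (-N + 1) (y n) w) := by
          funext w
          exact (hγ n w).symm
        have sy' : ContDiff ℝ ∞ (fun w => (starRingEnd ℂ) (C n w) - D σ (-N + 1) (y n) w) :=
          (conjCLE.contDiff.comp (hT.nC.smooth n)).sub (contDiff_D hσ _ (sy n))
        rw [e1, D_conj (N - 2) hσ (cd_at sy' z), show -(N - 2) = -N + 2 by ring] }

end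

end QJ
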