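import Pool.Agent.QJ.Stmts2

/-!
PWF: fourth moments of the random plane wave.
-/

open MeasureTheory Filter Topology Set
open scoped ContDiff

namespace QJ

open QE

noncomputable section

namespace PWF

/-- the wave `√2 cos (Re (x u) + s + m π/2)` -/
def gc (u : ℂ) (s : ℝ) (m : ℕ) (x : ℂ) : ℂ :=
  ((Real.sqrt 2 * Real.cos ((x * u).re + s + m * (Real.pi / 2)) : ℝ) : ℂ)

theorem gc_hasFDerivAt (u : ℂ) (s : ℝ) (m : ℕ) (x : ℂ) :
    ∃ L : ℂ →L[ℝ] ℂ, HasFDerivAt (gc u s m) L x ∧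
      ∀ v, L v = gc u s (m + 1) x * (((v * u).re : ℝ) : ℂ) := by
  set A : ℂ →L[ℝ] ℝ := Complex.reCLM.comp ((ContinuousLinearMap.mul ℝ ℂ).flip u) with hA
  have hAv : ∀ v, A v = (v * u).re := fun v => rfl
  have h1 : HasFDerivAt (fun x : ℂ => A x + s + m * (Real.pi / 2)) A x :=
    (A.hasFDerivAt.add_const s).add_const _
  have h2 : HasFDerivAt (fun x : ℂ => Real.sqrt 2 * Real.cos (A x + s + m * (Real.pi / 2)))
      (Real.sqrt 2 • (-Real.sin (A x + s + m * (Real.pi / 2)) • A)) x :=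
    h1.cos.const_mul (Real.sqrt 2)
  have h3 := (Complex.ofRealCLM.hasFDerivAt
    (x := Real.sqrt 2 * Real.cos (A x + s + m * (Real.pi / 2)))).comp x h2
  refine ⟨_, h3, fun v => ?_⟩
  have e1 : Real.cos (A x + s + (m + 1 : ℕ) * (Real.pi / 2))
      = -Real.sin (A x + s + m * (Real.pi / 2)) := by
    have : A x + s + (m + 1 : ℕ) * (Real.pi / 2) = (A x + s + m * (Real.pi / 2)) + Real.pi / 2 := by
      push_cast
      ring
    rw [this, Real.cos_add_pi_div_two]
  unfold gc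
  rw [← hAv, ← hAv, e1]
  show ((Real.sqrt 2 * (-Real.sin (A x + s + m * (Real.pi / 2)) * A v) : ℝ) : ℂ) = _
  push_cast
  ring

theorem gc_diff (u : ℂ) (s : ℝ) (m : ℕ) (x : ℂ) : DifferentiableAt ℝ (gc u s m) x := by
  obtain ⟨L, hL, -⟩ := gc_hasFDerivAt u s m x
  exact hL.differentiableAt

theorem gc_fderiv (u : ℂ) (s : ℝ) (m : ℕ) (x v : ℂ) :
    fderiv ℝ (gc u s m) x v = gc u s (m + 1) x * (((v * u).re : ℝ) : ℂ) := by
  obtain ⟨L, hL, h⟩ := gc_hasFDerivAt u s m x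
  rw [hL.fderiv, h]

theorem gc_dz (u : ℂ) (s : ℝ) (m : ℕ) (x : ℂ) :
    dz (gc u s m) x = u / 2 * gc u s (m + 1) x := by
  unfold dz
  rw [gc_fderiv, gc_fderiv]
  have e1 : (((1 * u).re : ℝ) : ℂ) - Complex.I * ((((Complex.I * u).re : ℝ)) : ℂ) = u := by
    apply Complex.ext <;> simp
  linear_combination (1 / 2) * gc u s (m + 1) x * e1

theorem gc_dzb (u : ℂ) (s : ℝ) (m : ℕ) (x : ℂ) :
    dzb (gc u s m) x = (starRingEnd ℂ) u / 2 * gc u s (m + 1) x := by
  unfold dzb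
  rw [gc_fderiv, gc_fderiv]
  have e1 : (((1 * u).re : ℝ) : ℂ) + Complex.I * ((((Complex.I * u).re : ℝ)) : ℂ)
      = (starRingEnd ℂ) u := by
    apply Complex.ext <;> simp
  linear_combination (1 / 2) * gc u s (m + 1) x * e1

theorem gc_dz_iter (u : ℂ) (s : ℝ) (c : ℂ) (m a : ℕ) :
    dz^[a] (fun x => c * gc u s m x) = fun x => c * (u / 2) ^ a * gc u s (m + a) x := by
  induction a with
  | zero => simp
  | succ a ih =>
    rw [Function.iterate_succ_apply', ih]
    funext x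
    rw [dz_const_mul _ (gc_diff u s (m + a) x), gc_dz]
    rw [show m + (a + 1) = m + a + 1 by ring]
    ring

theorem gc_dzb_iter (u : ℂ) (s : ℝ) (m b : ℕ) :
    dzb^[b] (gc u s m) = fun x => ((starRingEnd ℂ) u / 2) ^ b * gc u s (m + b) x := by
  induction b with
  | zero => simp
  | succ b ih =>
    rw [Function.iterate_succ_apply', ih]
    funext x
    rw [dzb_const_mul _ (gc_diff u s (m + b) x), gc_dzb]
    rw [show m + (b + 1) = m + b + 1 by ring]
    ring

theorem gc_zero (θ s : ℝ) (x : ℂ) : ((planeWave θ s x : ℝ) : ℂ) = gc (uu θ) s 0 x := by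
  unfold planeWave gc uu
  simp [neg_mul]

theorem planeWave_smooth (θ s : ℝ) : ContDiff ℝ ∞ (planeWave θ s) := by
  unfold planeWave
  have h1 : ContDiff ℝ ∞ (fun x : ℂ => (x * Complex.exp (-(θ * Complex.I))).re) :=
    Complex.reCLM.contDiff.comp (contDiff_id.mul contDiff_const)
  exact contDiff_const.mul ((h1.add contDiff_const).cos)

/-- the phase factor at the origin -/
def Cs (s : ℝ) (m : ℕ) : ℝ := Real.sqrt 2 * Real.cos (s + m * (Real.pi / 2))

/-- one iterated derivative of the plane wave -/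
theorem one_jet (hIter : StmtIter) (θ s : ℝ) (k : ℕ) (v : Fin k → ℂ) :
    ((iteratedFDeriv ℝ k (planeWave θ s) 0 v : ℝ) : ℂ)
      = ∑ a ∈ Finset.range (k + 1), sc v a * (2 : ℂ)⁻¹ ^ k * uu θ ^ ((a : ℤ) - (k - a : ℕ))
        * (Cs s k : ℂ) := by
  rw [hIter Set.univ (planeWave θ s) isOpen_univ (mem_univ _)
    (planeWave_smooth θ s).contDiffOn k v]
  refine Finset.sum_congr rfl fun a ha => ?_
  have hak : a ≤ k := Nat.lt_succ_iff.mp (Finset.mem_range.mp ha)
  have e0 : (fun w => ((planeWave θ s w : ℝ) : ℂ)) = gc (uu θ) s 0 := by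
    funext x
    exact gc_zero θ s x
  rw [e0, gc_dzb_iter, gc_dz_iter]
  have hu : uu θ ≠ 0 := uu_ne θ
  have hc : (starRingEnd ℂ) (uu θ) = (uu θ)⁻¹ := by
    rw [Complex.inv_def, Complex.normSq_eq_norm_sq, norm_uu]
    simp
  have e1 : 0 + (k - a) + a = k := by omega
  have e2 : gc (uu θ) s (0 + (k - a) + a) 0 = (Cs s k : ℂ) := by
    rw [e1]
    unfold gc Cs
    simp
  have e3 : (2 : ℂ)⁻¹ ^ k = (2 : ℂ)⁻¹ ^ (k - a) * (2 : ℂ)⁻¹ ^ a := by
    rw [← pow_add]
    congr 1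
    omega
  have e4 : uu θ ^ ((a : ℤ) - (k - a : ℕ)) = uu θ ^ a * ((uu θ)⁻¹) ^ (k - a) := by
    rw [zpow_sub₀ hu, zpow_natCast, zpow_natCast, inv_pow, div_eq_mul_inv]
  simp only []
  rw [e2, hc, e3, e4, div_eq_mul_inv, div_eq_mul_inv, mul_pow, mul_pow]
  ring

/-- the mean of a shifted cosine of positive frequency is zero -/
theorem mean_cos (n : ℕ) (hn : n ≠ 0) (c : ℝ) :
    ∫ s in (0 : ℝ)..(2 * Real.pi), Real.cos ((n : ℝ) * s + c) = 0 := by
  have h0 : (n : ℝ) ≠ 0 := by exact_mod_cast hn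
  rw [intervalIntegral.integral_comp_mul_add (fun x => Real.cos x) h0 c, integral_cos]
  have e1 : (n : ℝ) * (2 * Real.pi) + c = c + (n : ℝ) * (2 * Real.pi) := by ring
  rw [e1, Real.sin_add_nat_mul_two_pi]
  simp

/-- the product formula -/
theorem prod_formula (s α β γ δ : ℝ) :
    Real.cos (s + α) * Real.cos (s + β) * Real.cos (s + γ) * Real.cos (s + δ)
      = (Real.cos (α + β - γ - δ) + Real.cos (α - β + γ - δ) + Real.cos (α - β - γ + δ)) / 8
        + (1 / 8) * Real.cos (((4 : ℕ) : ℝ) * s + (α + β + γ + δ))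
        + (1 / 8) * Real.cos (((2 : ℕ) : ℝ) * s + (α + β + γ - δ))
        + (1 / 8) * Real.cos (((2 : ℕ) : ℝ) * s + (α + β - γ + δ))
        + (1 / 8) * Real.cos (((2 : ℕ) : ℝ) * s + (α - β + γ + δ))
        + (1 / 8) * Real.cos (((2 : ℕ) : ℝ) * s + (-α + β + γ + δ)) := by
  set A := s + α with hA
  set B := s + β with hB
  set C := s + γ with hC
  set E' := s + δ with hE
  have e1 : α + β - γ - δ = A + B - C - E' := by rw [hA, hB, hC, hE]; ring
  have e2 : α - β + γ - δ = A - B + C - E' := by rw [hA, hB, hC, hE]; ring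
  have e3 : α - β - γ + δ = A - B - C + E' := by rw [hA, hB, hC, hE]; ring
  have e4 : ((4 : ℕ) : ℝ) * s + (α + β + γ + δ) = A + B + C + E' := by
    rw [hA, hB, hC, hE]; push_cast; ring
  have e5 : ((2 : ℕ) : ℝ) * s + (α + β + γ - δ) = A + B + C - E' := by
    rw [hA, hB, hC, hE]; push_cast; ring
  have e6 : ((2 : ℕ) : ℝ) * s + (α + β - γ + δ) = A + B - C + E' := by
    rw [hA, hB, hC, hE]; push_cast; ring
  have e7 : ((2 : ℕ) : ℝ) * s + (α - β + γ + δ) = A - B + C + E' := by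
    rw [hA, hB, hC, hE]; push_cast; ring
  have e8 : ((2 : ℕ) : ℝ) * s + (-α + β + γ + δ) = -(A - B - C - E') := by
    rw [hA, hB, hC, hE]; push_cast; ring
  rw [e1, e2, e3, e4, e5, e6, e7, e8, Real.cos_neg]
  clear_value A B C E'
  simp only [Real.cos_add, Real.cos_sub, Real.sin_add, Real.sin_sub]
  ring

/-- the mean of a product of four shifted cosines -/
theorem mean_four (α β γ δ : ℝ) :
    ∫ s, Real.cos (s + α) * Real.cos (s + β) * Real.cos (s + γ) * Real.cos (s + δ) ∂angle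
      = (Real.cos (α + β - γ - δ) + Real.cos (α - β + γ - δ) + Real.cos (α - β - γ + δ)) / 8 := by
  have h := ang_int (fun s => Real.cos (s + α) * Real.cos (s + β) * Real.cos (s + γ)
    * Real.cos (s + δ))
  rw [show (∫ s, Real.cos (s + α) * Real.cos (s + β) * Real.cos (s + γ) * Real.cos (s + δ) ∂angle)
    = ∫ s, Real.cos (s + α) * Real.cos (s + β) * Real.cos (s + γ) * Real.cos (s + δ) ∂ang from rfl,
    h]
  simp only [prod_formula _ α β γ δ]
  have hi : ∀ (n : ℕ) (c : ℝ), IntervalIntegrable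
      (fun s : ℝ => (1 / 8) * Real.cos ((n : ℝ) * s + c)) volume 0 (2 * Real.pi) := by
    intro n c
    refine Continuous.intervalIntegrable ?_ _ _
    fun_prop
  have hz : ∀ (n : ℕ) (c : ℝ), n ≠ 0 →
      ∫ s in (0 : ℝ)..(2 * Real.pi), (1 / 8) * Real.cos ((n : ℝ) * s + c) = 0 := by
    intro n c hn
    rw [intervalIntegral.integral_const_mul, mean_cos n hn c, mul_zero]
  set T := (Real.cos (α + β - γ - δ) + Real.cos (α - β + γ - δ) + Real.cos (α - β - γ + δ)) / 8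
    with hT
  have i0 : IntervalIntegrable (fun _ : ℝ => T) volume 0 (2 * Real.pi) :=
    intervalIntegrable_const
  have i1 := i0.add (hi 4 (α + β + γ + δ))
  have i2 := i1.add (hi 2 (α + β + γ - δ))
  have i3 := i2.add (hi 2 (α + β - γ + δ))
  have i4 := i3.add (hi 2 (α - β + γ + δ))
  rw [intervalIntegral.integral_add i4 (hi 2 _), intervalIntegral.integral_add i3 (hi 2 _),
    intervalIntegral.integral_add i2 (hi 2 _), intervalIntegral.integral_add i1 (hi 2 _),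
    intervalIntegral.integral_add i0 (hi 4 _), hz 4 _ (by norm_num), hz 2 _ (by norm_num),
    hz 2 _ (by norm_num), hz 2 _ (by norm_num), hz 2 _ (by norm_num),
    intervalIntegral.integral_const]
  have hp : Real.pi ≠ 0 := Real.pi_ne_zero
  simp only [smul_eq_mul]
  field_simp
  ring

/-- the cosine at half-integer multiples with even numerator -/
theorem cos_even (x : ℝ) (t : ℤ) (h : x = (t : ℝ) * Real.pi) : Real.cos x = (-1) ^ t := by
  rw [h, Real.cos_int_mul_pi]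

/-- the mean over the phase -/
theorem mean_phase (k b : Fin 4 → ℕ) (h : ∑ i, ((k i : ℤ) - 2 * b i) = 0) :
    ∫ s, ∏ i, Cs s (k i) ∂angle
      = (-1 : ℝ) ^ (∑ i, b i) * ((1 / 2) * ((-1) ^ (k 2 + k 3) + (-1) ^ (k 1 + k 3)
        + (-1) ^ (k 1 + k 2))) := by
  have e1 : ∀ s, ∏ i, Cs s (k i) = 4 * (Real.cos (s + k 0 * (Real.pi / 2))
      * Real.cos (s + k 1 * (Real.pi / 2)) * Real.cos (s + k 2 * (Real.pi / 2))
      * Real.cos (s + k 3 * (Real.pi / 2))) := by
    intro s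
    rw [Fin.prod_univ_four]
    unfold Cs
    have h2 : Real.sqrt 2 ^ 2 = 2 := Real.sq_sqrt (by norm_num)
    have h4 : Real.sqrt 2 ^ 4 = 4 := by
      rw [show (4 : ℕ) = 2 * 2 by norm_num, pow_mul, h2]
      norm_num
    linear_combination (Real.cos (s + k 0 * (Real.pi / 2))
      * Real.cos (s + k 1 * (Real.pi / 2)) * Real.cos (s + k 2 * (Real.pi / 2))
      * Real.cos (s + k 3 * (Real.pi / 2))) * h4
  simp only [e1]
  rw [integral_const_mul, mean_four]
  rw [Fin.sum_univ_four] at h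
  set B : ℤ := ((b 0 + b 1 + b 2 + b 3 : ℕ) : ℤ) with hB
  have hk : (k 0 : ℤ) = 2 * B - k 1 - k 2 - k 3 := by
    rw [hB]
    push_cast
    linarith
  have hkR : (k 0 : ℝ) = 2 * (B : ℝ) - k 1 - k 2 - k 3 := by
    exact_mod_cast hk
  have hm : (-1 : ℝ) ≠ 0 := by norm_num
  have key : ∀ p q : ℕ, (-1 : ℝ) ^ (B - p - q) = (-1) ^ (∑ i, b i) * (-1) ^ (p + q) := by
    intro p q
    rw [Fin.sum_univ_four, zpow_sub₀ hm, zpow_sub₀ hm, hB, zpow_natCast, zpow_natCast,
      zpow_natCast, pow_add (-1 : ℝ) p q]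
    rcases neg_one_pow_eq_or ℝ p with hp | hp <;> rcases neg_one_pow_eq_or ℝ q with hq | hq <;>
      rw [hp, hq] <;> ring
  rw [cos_even _ (B - k 2 - k 3) (by rw [hkR]; push_cast; ring),
    cos_even _ (B - k 1 - k 3) (by rw [hkR]; push_cast; ring),
    cos_even _ (B - k 1 - k 2) (by rw [hkR]; push_cast; ring), key, key, key]
  ring

/-- the class function -/
theorem cl4_eq (k a b : Fin 4 → ℕ) (hk : ∀ i, k i = a i + b i)
    (h : ∑ i, ((a i : ℤ) - b i) = 0) :
    (((1 / 2) * ((-1) ^ (k 2 + k 3) + (-1) ^ (k 1 + k 3) + (-1) ^ (k 1 + k 2)) : ℝ) : ℂ)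
      = 3 / 2 * cl4 ((a 0 : ℤ) - b 0) ((a 1 : ℤ) - b 1) ((a 2 : ℤ) - b 2) ((a 3 : ℤ) - b 3) := by
  rw [Fin.sum_univ_four] at h
  have k1 := hk 1
  have k2 := hk 2
  have k3 := hk 3
  unfold cl4
  rw [pow_add, pow_add, pow_add]
  rcases Nat.even_or_odd (k 1) with h1 | h1 <;> rcases Nat.even_or_odd (k 2) with h2 | h2 <;>
    rcases Nat.even_or_odd (k 3) with h3 | h3
  · rw [h1.neg_one_pow, h2.neg_one_pow, h3.neg_one_pow, if_pos (by
      obtain ⟨u1, hu1⟩ := h1; obtain ⟨u2, hu2⟩ := h2; obtain ⟨u3, hu3⟩ := h3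
      omega)]
    push_cast; norm_num
  · rw [h1.neg_one_pow, h2.neg_one_pow, h3.neg_one_pow, if_neg (by
      obtain ⟨u1, hu1⟩ := h1; obtain ⟨u2, hu2⟩ := h2; obtain ⟨u3, hu3⟩ := h3
      omega)]
    push_cast; norm_num
  · rw [h1.neg_one_pow, h2.neg_one_pow, h3.neg_one_pow, if_neg (by
      obtain ⟨u1, hu1⟩ := h1; obtain ⟨u2, hu2⟩ := h2; obtain ⟨u3, hu3⟩ := h3
      omega)]
    push_cast; norm_num
  · rw [h1.neg_one_pow, h2.neg_one_pow, h3.neg_one_pow, if_neg (by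
      obtain ⟨u1, hu1⟩ := h1; obtain ⟨u2, hu2⟩ := h2; obtain ⟨u3, hu3⟩ := h3
      omega)]
    push_cast; norm_num
  · rw [h1.neg_one_pow, h2.neg_one_pow, h3.neg_one_pow, if_neg (by
      obtain ⟨u1, hu1⟩ := h1; obtain ⟨u2, hu2⟩ := h2; obtain ⟨u3, hu3⟩ := h3
      omega)]
    push_cast; norm_num
  · rw [h1.neg_one_pow, h2.neg_one_pow, h3.neg_one_pow, if_neg (by
      obtain ⟨u1, hu1⟩ := h1; obtain ⟨u2, hu2⟩ := h2; obtain ⟨u3, hu3⟩ := h3
      omega)]
    push_cast; norm_num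
  · rw [h1.neg_one_pow, h2.neg_one_pow, h3.neg_one_pow, if_neg (by
      obtain ⟨u1, hu1⟩ := h1; obtain ⟨u2, hu2⟩ := h2; obtain ⟨u3, hu3⟩ := h3
      omega)]
    push_cast; norm_num
  · rw [h1.neg_one_pow, h2.neg_one_pow, h3.neg_one_pow, if_pos (by
      obtain ⟨u1, hu1⟩ := h1; obtain ⟨u2, hu2⟩ := h2; obtain ⟨u3, hu3⟩ := h3
      omega)]
    push_cast; norm_num

/-- the product of the derivatives -/
theorem jetProd_eq (hIter : StmtIter) (θ s : ℝ) (k : Fin 4 → ℕ) (v : ∀ i, Fin (k i) → ℂ) :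
    ((jetProd k v (planeWave θ s) : ℝ) : ℂ)
      = (∑ a ∈ Fintype.piFinset fun i => Finset.range (k i + 1),
        (∏ i, sc (v i) (a i) * (2 : ℂ)⁻¹ ^ (k i)) * uu θ ^ (∑ i, ((a i : ℤ) - (k i - a i : ℕ))))
        * ((∏ i, Cs s (k i) : ℝ) : ℂ) := by
  unfold jetProd
  rw [Complex.ofReal_prod]
  have e1 : ∀ i, ((iteratedFDeriv ℝ (k i) (planeWave θ s) 0 (v i) : ℝ) : ℂ)
      = ∑ a ∈ Finset.range (k i + 1), sc (v i) a * (2 : ℂ)⁻¹ ^ (k i)
        * uu θ ^ ((a : ℤ) - (k i - a : ℕ)) * (Cs s (k i) : ℂ) := fun i => one_jet hIter θ s _ _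
  simp only [e1]
  rw [Finset.prod_univ_sum, Finset.sum_mul]
  refine Finset.sum_congr rfl fun a _ => ?_
  rw [Finset.prod_mul_distrib, Finset.prod_mul_distrib, Complex.ofReal_prod]
  congr 1
  congr 1
  have : ∀ s : Finset (Fin 4), ∏ i ∈ s, uu θ ^ ((a i : ℤ) - (k i - a i : ℕ))
      = uu θ ^ (∑ i ∈ s, ((a i : ℤ) - (k i - a i : ℕ))) := by
    intro s
    induction s using Finset.induction_on with
    | empty => simp
    | insert i s hi ih =>
      rw [Finset.prod_insert hi, Finset.sum_insert hi, ih, zpow_add₀ (uu_ne θ)]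
  exact this Finset.univ

end PWF

open PWF in
theorem stmtPwf (hIter : StmtIter) : StmtPwf := by
  intro k v
  have e1 : ((planeMean k v : ℝ) : ℂ)
      = ∫ θ, (∫ s, ((jetProd k v (planeWave θ s) : ℝ) : ℂ) ∂angle) ∂angle := by
    unfold planeMean
    rw [← integral_complex_ofReal]
    refine integral_congr_ae (ae_of_all _ fun θ => ?_)
    show ((∫ s, jetProd k v (planeWave θ s) ∂angle : ℝ) : ℂ) = _
    rw [← integral_complex_ofReal]
  rw [e1]
  simp only [jetProd_eq hIter]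
  simp only [integral_const_mul]
  rw [integral_mul_const]
  have e2 : ∫ θ, (∑ a ∈ Fintype.piFinset fun i => Finset.range (k i + 1),
      (∏ i, sc (v i) (a i) * (2 : ℂ)⁻¹ ^ (k i)) * uu θ ^ (∑ i, ((a i : ℤ) - (k i - a i : ℕ))))
        ∂angle = ∑ a ∈ Fintype.piFinset fun i => Finset.range (k i + 1),
      (∏ i, sc (v i) (a i) * (2 : ℂ)⁻¹ ^ (k i)) *
        (if ∑ i, ((a i : ℤ) - (k i - a i : ℕ)) = 0 then 1 else 0) := by
    rw [integral_finsetSum]
    · refine Finset.sum_congr rfl fun a _ => ?_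
      rw [integral_const_mul]
      congr 1
      exact ang_zpow _
    · intro a _
      refine Integrable.const_mul ?_ _
      refine Integrable.of_bound (continuous_uu_zpow _).aestronglyMeasurable 1
        (Eventually.of_forall fun θ => ?_)
      rw [norm_zpow, norm_uu, one_zpow]
  rw [e2, Finset.sum_mul]
  refine Finset.sum_congr rfl fun a ha => ?_
  have hak : ∀ i, a i ≤ k i := fun i => by
    have := Fintype.mem_piFinset.mp ha i
    exact Nat.lt_succ_iff.mp (Finset.mem_range.mp this)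
  by_cases h : ∑ i, ((a i : ℤ) - (k i - a i : ℕ)) = 0
  · rw [if_pos h, if_pos h, mul_one]
    set b : Fin 4 → ℕ := fun i => k i - a i with hb
    have hkab : ∀ i, k i = a i + b i := fun i => by
      have := hak i
      simp only [hb]
      omega
    have h2 : ∑ i, ((k i : ℤ) - 2 * b i) = 0 := by
      rw [← h]
      refine Finset.sum_congr rfl fun i _ => ?_
      have h3 := hkab i
      show ((k i : ℤ)) - 2 * (b i : ℤ) = (a i : ℤ) - (b i : ℤ)
      omega
    rw [integral_complex_ofReal, mean_phase k b h2, Complex.ofReal_mul, cl4_eq k a b hkab h]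
    have e3 : ∀ i, cW (a i) (k i - a i) = (2 : ℂ)⁻¹ ^ (k i) * (-1) ^ (b i) := by
      intro i
      unfold cW
      rw [show a i + (k i - a i) = k i from by have := hak i; omega]
    simp only [e3]
    rw [← mul_assoc]
    congr 1
    simp only [← mul_assoc]
    rw [Finset.prod_mul_distrib (g := fun i => (-1 : ℂ) ^ (b i)), Finset.prod_pow_eq_pow_sum]
    push_cast
    ring
  · rw [if_neg h, if_neg h, mul_zero, zero_mul]

end

end QJ
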