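import Pool.Agent.QJ.PWL

/-!
Covariances of the random plane wave.
-/

open Complex MeasureTheory Filter Topology Set
open scoped ContDiff

namespace QJ

open QE

noncomputable section

namespace PWT

open PWL

lemma P_eq (n m : ℤ) : (if n + m = 0 then
    ((Real.cos (((n : ℝ) - m) * (Real.pi / 2)) : ℝ) : ℂ) else 0) = P n m := by
  unfold P
  by_cases h : n + m = 0
  · rw [if_pos h, if_pos h]
    have h1 : (m : ℝ) = -n := by
      have h2 : m = -n := by omega
      rw [h2]
      push_cast
      ring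
    have h2 : ((n : ℝ) - m) * (Real.pi / 2) = n * Real.pi := by
      rw [h1]
      ring
    rw [h2, Real.cos_int_mul_pi]
    push_cast
    rfl
  · rw [if_neg h, if_neg h]

end PWT

open PWL PWT in
theorem stmtPwt (hIter : StmtIter) : StmtPwt := by
  intro k l v w
  unfold covar
  rw [← integral_complex_ofReal]
  have h1 : ∀ θ : ℝ, ((∫ s, iteratedFDeriv ℝ k (planeWave θ s) 0 v
      * iteratedFDeriv ℝ l (planeWave θ s) 0 w ∂angle : ℝ) : ℂ) =
      ∑ a ∈ Finset.range (k + 1), ∑ b ∈ Finset.range (l + 1),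
        ((sc v a * cW a (k - a)) * (sc w b * cW b (l - b)) *
          ((Real.cos (((((a : ℤ) - (k - a : ℕ) : ℤ) : ℝ) - ((b : ℤ) - (l - b : ℕ) : ℤ))
            * (Real.pi / 2)) : ℝ) : ℂ)) *
          uu θ ^ (((a : ℤ) - (k - a : ℕ)) + ((b : ℤ) - (l - b : ℕ))) := by
    intro θ
    rw [← integral_complex_ofReal]
    have h2 : ∀ s : ℝ, ((iteratedFDeriv ℝ k (planeWave θ s) 0 v
        * iteratedFDeriv ℝ l (planeWave θ s) 0 w : ℝ) : ℂ) =
        ∑ a ∈ Finset.range (k + 1), ∑ b ∈ Finset.range (l + 1),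
          ((sc v a * cW a (k - a)) * (sc w b * cW b (l - b)) *
            uu θ ^ (((a : ℤ) - (k - a : ℕ)) + ((b : ℤ) - (l - b : ℕ)))) *
            ((cs ((a : ℤ) - (k - a : ℕ)) s * cs ((b : ℤ) - (l - b : ℕ)) s : ℝ) : ℂ) := by
      intro s
      rw [Complex.ofReal_mul, jet_wave hIter, jet_wave hIter, Finset.sum_mul_sum]
      refine Finset.sum_congr rfl fun a _ => Finset.sum_congr rfl fun b _ => ?_
      rw [zpow_add₀ (uu_ne θ)]
      push_cast
      ring
    simp only [h2]
    have hi : ∀ (C : ℂ) (n m : ℤ), Integrable (fun s => C * ((cs n s * cs m s : ℝ) : ℂ)) angle :=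
      fun C n m => integrable_angle (continuous_const.mul
        (Complex.continuous_ofReal.comp ((continuous_cs n).mul (continuous_cs m))))
    rw [integral_finsetSum _ fun a _ => integrable_finsetSum _ fun b _ => hi _ _ _]
    refine Finset.sum_congr rfl fun a _ => ?_
    rw [integral_finsetSum _ fun b _ => hi _ _ _]
    refine Finset.sum_congr rfl fun b _ => ?_
    rw [integral_const_mul, integral_complex_ofReal, mean_two]
    ring
  simp only [h1]
  have hi : ∀ (C : ℂ) (n : ℤ), Integrable (fun θ => C * uu θ ^ n) angle := fun C n =>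
    integrable_angle (continuous_const.mul (continuous_uu_zpow n))
  rw [integral_finsetSum _ fun a _ => integrable_finsetSum _ fun b _ => hi _ _]
  refine Finset.sum_congr rfl fun a _ => ?_
  rw [integral_finsetSum _ fun b _ => hi _ _]
  refine Finset.sum_congr rfl fun b _ => ?_
  rw [integral_const_mul, angle_zpow, ← P_eq]
  by_cases h : ((a : ℤ) - (k - a : ℕ)) + ((b : ℤ) - (l - b : ℕ)) = 0
  · rw [if_pos h, if_pos h, mul_one]
  · rw [if_neg h, if_neg h, mul_zero, mul_zero]

end

end QJ
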