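import Pool.Agent.QJ.Stmts
import Pool.Agent.QJ.Dom

/-!
SEC: the second differences of the four-jet integrals.
-/

open Complex MeasureTheory Filter Topology Set
open scoped ContDiff

namespace QJ

open QE

namespace SEC

theorem l2z_mono {V V' : Set ℂ} (hV : V' ⊆ V) {u : ℕ → ℂ → ℂ} (hu : L2z V u) : L2z V' u :=
  fun K hK hKV => hu K hK (hKV.trans hV)

theorem pot_mono {V V' : Set ℂ} (hV : V' ⊆ V) {σ : ℂ → ℝ} {N : ℤ} {A B C x y : ℕ → ℂ → ℂ}
    (hP : Pot V σ N A B C x y) : Pot V' σ N A B C x y where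
  sx := hP.sx
  sy := hP.sy
  hx := fun n z hz => hP.hx n z (hV hz)
  hy := fun n z hz => hP.hy n z (hV hz)
  lx := l2z_mono hV hP.lx
  ly := l2z_mono hV hP.ly
  la := l2z_mono hV hP.la
  lc := l2z_mono hV hP.lc
  lda := l2z_mono hV hP.lda
  ldc := l2z_mono hV hP.ldc

theorem expand {V : Set ℂ} {ζ : ℂ → ℂ} (hζ : Test V ζ) (Q Q' : ℂ → ℂ) (hQ : Continuous Q)
    (hQ' : Continuous Q') (p p' : ℂ) :
    ∫ z, ζ z * ((Q z - p) * (Q' z - p')) = (∫ z, ζ z * (Q z * Q' z)) - p * (∫ z, ζ z * Q' z)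
      - p' * (∫ z, ζ z * Q z) + p * p' * ∫ z, ζ z := by
  have i1 : Integrable fun z => ζ z * (Q z * Q' z) := test_int hζ (hQ.mul hQ')
  have i2 : Integrable fun z => p * (ζ z * Q' z) := (test_int hζ hQ').const_mul p
  have i3 : Integrable fun z => p' * (ζ z * Q z) := (test_int hζ hQ).const_mul p'
  have i4 : Integrable fun z => p * p' * ζ z := by
    have := (test_int hζ (continuous_const (y := (1 : ℂ)))).const_mul (p * p')
    simpa using this
  have e : (fun z => ζ z * ((Q z - p) * (Q' z - p')))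
      = fun z => (ζ z * (Q z * Q' z) - p * (ζ z * Q' z) - p' * (ζ z * Q z)) + p * p' * ζ z := by
    funext z
    ring
  have e1 : ∫ z, ((ζ z * (Q z * Q' z) - p * (ζ z * Q' z) - p' * (ζ z * Q z)) + p * p' * ζ z)
      = ((∫ z, ζ z * (Q z * Q' z)) - (∫ z, p * (ζ z * Q' z)) - ∫ z, p' * (ζ z * Q z))
        + ∫ z, p * p' * ζ z := by
    have k1 := integral_sub i1 i2
    have k2 := integral_sub (i1.sub i2) i3
    have k3 := integral_add ((i1.sub i2).sub i3) i4
    simp only [Pi.sub_apply] at k1 k2 k3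
    rw [k3, k2, k1]
  rw [e, e1, integral_const_mul, integral_const_mul, integral_const_mul]

theorem cont_of_sub {u : ℂ → ℂ} {p : ℂ} (hu : ContDiff ℝ ∞ fun z => u z - p) : Continuous u := by
  have h := hu.continuous.add (continuous_const (y := p))
  have e : ((fun z => u z - p) + fun _ => p) = u := by
    funext z
    simp
  rwa [e] at h

theorem int3 (f g k : ℂ → ℂ) (hf : Integrable f) (hg : Integrable g) (hk : Integrable k) :
    ∫ z, (f z + g z - k z) = (∫ z, f z) + (∫ z, g z) - ∫ z, k z := by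
  rw [← integral_add hf hg]
  exact integral_sub (hf.add hg) hk

end SEC

open SEC in
theorem stmtSec (hGro : StmtGro) (hTri : StmtTri) (hPot : StmtPot) (hNul : StmtNul)
    (hTwo : StmtTwo) : StmtSec := by
  intro V σ h φ hL ζ hζ a b c d habcd
  have hG := hGro V σ h φ hL
  have T1 := hTri V σ h φ hL a b
  have T2 := hTri V σ h φ hL c d
  have hcd : c + d = -(a + b) := by omega
  obtain ⟨V1, x, y, hV1o, hK1, hV1, P1⟩ := hPot V σ h φ (a + b) _ _ _ hL.op hL.sm hL.hpos hL.hlim
    hL.smφ hG T1 (tsupport ζ) hζ.supp hζ.sub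
  obtain ⟨V2, x', y', hV2o, hK2, hV2, P2⟩ := hPot V σ h φ (c + d) _ _ _ hL.op hL.sm hL.hpos hL.hlim
    hL.smφ hG T2 (tsupport ζ) hζ.supp hζ.sub
  rw [hcd] at P2
  have hT : Test (V1 ∩ V2) ζ := ⟨hζ.smooth, hζ.supp, subset_inter hK1 hK2⟩
  have key := hNul (V1 ∩ V2) σ (a + b) _ _ _ x y _ _ _ x' y' (hV1o.inter hV2o) hL.sm
    T1.nA.smooth T1.nB.smooth T1.nC.smooth T2.nA.smooth T2.nB.smooth T2.nC.smooth
    (pot_mono inter_subset_left P1) (pot_mono inter_subset_right P2) ζ hT
  -- continuity of the products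
  have cA : ∀ n, Continuous fun z => E σ h φ (a + 1) n z * E σ h φ (b + 1) n z :=
    fun n => cont_of_sub (T1.nA.smooth n)
  have cB : ∀ n, Continuous fun z => E σ h φ a n z * E σ h φ b n z :=
    fun n => cont_of_sub (T1.nB.smooth n)
  have cC : ∀ n, Continuous fun z => E σ h φ (a - 1) n z * E σ h φ (b - 1) n z :=
    fun n => cont_of_sub (T1.nC.smooth n)
  have cA' : ∀ n, Continuous fun z => E σ h φ (c + 1) n z * E σ h φ (d + 1) n z :=
    fun n => cont_of_sub (T2.nA.smooth n)
  have cB' : ∀ n, Continuous fun z => E σ h φ c n z * E σ h φ d n z :=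
    fun n => cont_of_sub (T2.nB.smooth n)
  have cC' : ∀ n, Continuous fun z => E σ h φ (c - 1) n z * E σ h φ (d - 1) n z :=
    fun n => cont_of_sub (T2.nC.smooth n)
  -- the linear terms
  have lA := hTwo V σ h φ hL (a + 1) (b + 1) ζ hζ
  have lB := hTwo V σ h φ hL a b ζ hζ
  have lC := hTwo V σ h φ hL (a - 1) (b - 1) ζ hζ
  have lA' := hTwo V σ h φ hL (c + 1) (d + 1) ζ hζ
  have lB' := hTwo V σ h φ hL c d ζ hζ
  have lC' := hTwo V σ h φ hL (c - 1) (d - 1) ζ hζ
  set pA := P (a + 1) (b + 1)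
  set pB := P a b
  set pC := P (a - 1) (b - 1)
  set pA' := P (c + 1) (d + 1)
  set pB' := P c d
  set pC' := P (c - 1) (d - 1)
  set I := ∫ z, ζ z
  have main : ∀ n, E4 σ h φ ζ (a + 1) (b + 1) (c - 1) (d - 1) n
      + E4 σ h φ ζ (a - 1) (b - 1) (c + 1) (d + 1) n - 2 * E4 σ h φ ζ a b c d n
      = (∫ z, ζ z *
        ((E σ h φ (a + 1) n z * E σ h φ (b + 1) n z - pA)
            * (E σ h φ (c - 1) n z * E σ h φ (d - 1) n z - pC')
          + (E σ h φ (a - 1) n z * E σ h φ (b - 1) n z - pC)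
            * (E σ h φ (c + 1) n z * E σ h φ (d + 1) n z - pA')
          - 2 * ((E σ h φ a n z * E σ h φ b n z - pB) * (E σ h φ c n z * E σ h φ d n z - pB'))))
        + (pA * (∫ z, ζ z * (E σ h φ (c - 1) n z * E σ h φ (d - 1) n z))
          + pC' * (∫ z, ζ z * (E σ h φ (a + 1) n z * E σ h φ (b + 1) n z)) - pA * pC' * I)
        + (pC * (∫ z, ζ z * (E σ h φ (c + 1) n z * E σ h φ (d + 1) n z))
          + pA' * (∫ z, ζ z * (E σ h φ (a - 1) n z * E σ h φ (b - 1) n z)) - pC * pA' * I)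
        - 2 * (pB * (∫ z, ζ z * (E σ h φ c n z * E σ h φ d n z))
          + pB' * (∫ z, ζ z * (E σ h φ a n z * E σ h φ b n z)) - pB * pB' * I) := by
    intro n
    have e1 := expand hζ _ _ (cA n) (cC' n) pA pC'
    have e2 := expand hζ _ _ (cC n) (cA' n) pC pA'
    have e3 := expand hζ _ _ (cB n) (cB' n) pB pB'
    have j1 : Integrable fun z => ζ z * ((E σ h φ (a + 1) n z * E σ h φ (b + 1) n z - pA)
            * (E σ h φ (c - 1) n z * E σ h φ (d - 1) n z - pC')) :=
      test_int hζ (((cA n).sub continuous_const).mul ((cC' n).sub continuous_const))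
    have j2 : Integrable fun z => ζ z * ((E σ h φ (a - 1) n z * E σ h φ (b - 1) n z - pC)
            * (E σ h φ (c + 1) n z * E σ h φ (d + 1) n z - pA')) :=
      test_int hζ (((cC n).sub continuous_const).mul ((cA' n).sub continuous_const))
    have j3 : Integrable fun z => 2 * (ζ z * ((E σ h φ a n z * E σ h φ b n z - pB)
            * (E σ h φ c n z * E σ h φ d n z - pB'))) :=
      (test_int hζ (((cB n).sub continuous_const).mul ((cB' n).sub continuous_const))).const_mul 2
    have e0 : (∫ z, ζ z *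
        ((E σ h φ (a + 1) n z * E σ h φ (b + 1) n z - pA)
            * (E σ h φ (c - 1) n z * E σ h φ (d - 1) n z - pC')
          + (E σ h φ (a - 1) n z * E σ h φ (b - 1) n z - pC)
            * (E σ h φ (c + 1) n z * E σ h φ (d + 1) n z - pA')
          - 2 * ((E σ h φ a n z * E σ h φ b n z - pB) * (E σ h φ c n z * E σ h φ d n z - pB'))))
        = (∫ z, ζ z * ((E σ h φ (a + 1) n z * E σ h φ (b + 1) n z - pA)
            * (E σ h φ (c - 1) n z * E σ h φ (d - 1) n z - pC')))
          + (∫ z, ζ z * ((E σ h φ (a - 1) n z * E σ h φ (b - 1) n z - pC)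
            * (E σ h φ (c + 1) n z * E σ h φ (d + 1) n z - pA')))
          - 2 * ∫ z, ζ z * ((E σ h φ a n z * E σ h φ b n z - pB)
            * (E σ h φ c n z * E σ h φ d n z - pB')) := by
      rw [← integral_const_mul, ← int3 _ _ _ j1 j2 j3]
      refine integral_congr_ae (Eventually.of_forall fun z => ?_)
      ring
    rw [e0, e1, e2, e3]
    have f1 : E4 σ h φ ζ (a + 1) (b + 1) (c - 1) (d - 1) n
        = ∫ z, ζ z * (E σ h φ (a + 1) n z * E σ h φ (b + 1) n z
          * (E σ h φ (c - 1) n z * E σ h φ (d - 1) n z)) :=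
      integral_congr_ae (Eventually.of_forall fun z => by ring)
    have f2 : E4 σ h φ ζ (a - 1) (b - 1) (c + 1) (d + 1) n
        = ∫ z, ζ z * (E σ h φ (a - 1) n z * E σ h φ (b - 1) n z
          * (E σ h φ (c + 1) n z * E σ h φ (d + 1) n z)) :=
      integral_congr_ae (Eventually.of_forall fun z => by ring)
    have f3 : E4 σ h φ ζ a b c d n
        = ∫ z, ζ z * (E σ h φ a n z * E σ h φ b n z
          * (E σ h φ c n z * E σ h φ d n z)) :=
      integral_congr_ae (Eventually.of_forall fun z => by ring)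
    rw [f1, f2, f3]
    ring
  have lim := ((key.add (((lC'.const_mul pA).add (lA.const_mul pC')).sub
    (tendsto_const_nhds (x := pA * pC' * I)))).add (((lA'.const_mul pC).add (lC.const_mul pA')).sub
    (tendsto_const_nhds (x := pC * pA' * I)))).sub ((((lB'.const_mul pB).add
      (lB.const_mul pB')).sub (tendsto_const_nhds (x := pB * pB' * I))).const_mul 2)
  have hval : 0 + (pA * (pC' * I) + pC' * (pA * I) - pA * pC' * I)
      + (pC * (pA' * I) + pA' * (pC * I) - pC * pA' * I)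
      - 2 * (pB * (pB' * I) + pB' * (pB * I) - pB * pB' * I)
      = (pA * pC' + pC * pA' - 2 * (pB * pB')) * I := by ring
  rw [hval] at lim
  refine lim.congr fun n => ?_
  rw [main n]

end QJ
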