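import Pool.Agent.QJ.Stmts

/-!
SUM: the finite sums of the cubic argument.
-/

open Complex MeasureTheory Filter Topology Set

namespace QJ

namespace SUM

theorem root_facts {w : ℂ} (hw : w = Complex.exp (2 * Real.pi * Complex.I / 3)) :
    w ^ 3 = 1 ∧ w ≠ 1 ∧ w ≠ 0 ∧ 1 + w + w ^ 2 = 0 := by
  have hp : IsPrimitiveRoot w 3 := by
    rw [hw]
    exact_mod_cast Complex.isPrimitiveRoot_exp 3 (by norm_num)
  have h3 : w ^ 3 = 1 := hp.pow_eq_one
  have h1 : w ≠ 1 := hp.ne_one (by norm_num)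
  have h0 : w ≠ 0 := by
    rintro rfl
    norm_num at h3
  refine ⟨h3, h1, h0, ?_⟩
  have h : (w - 1) * (1 + w + w ^ 2) = 0 := by
    have : (w - 1) * (1 + w + w ^ 2) = w ^ 3 - 1 := by ring
    rw [this, h3, sub_self]
  rcases mul_eq_zero.1 h with h | h
  · exact absurd (sub_eq_zero.1 h) h1
  · exact h

theorem geom_zero {z : ℂ} {N : ℕ} (h6 : z ^ 6 = 1) (h1 : z ≠ 1) (hN : 6 ∣ N) :
    ∑ b ∈ Finset.range N, z ^ b = 0 := by
  obtain ⟨k, rfl⟩ := hN
  rw [geom_sum_eq h1, pow_mul, h6, one_pow, sub_self, zero_div]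

theorem double_zero {z y : ℂ} {N : ℕ} (h6 : z ^ 6 = 1) (h1 : z ≠ 1) (hN : 6 ∣ N) :
    ∑ b ∈ Finset.range N, ∑ c ∈ Finset.range N, z ^ b * y ^ c = 0 := by
  rw [← Finset.sum_mul_sum, geom_zero h6 h1 hN, zero_mul]

theorem zsub {w : ℂ} (h0 : w ≠ 0) (b c : ℕ) : w ^ ((b : ℤ) - c) = w ^ b * w⁻¹ ^ c := by
  rw [zpow_sub₀ h0, zpow_natCast, zpow_natCast, div_eq_mul_inv, inv_pow]

theorem cl3_term {w : ℂ} (h3 : w ^ 3 = 1) (h0 : w ≠ 0) (hs : 1 + w + w ^ 2 = 0) (b c : ℕ) :
    w ^ ((b : ℤ) - c) * cl3 (b : ℤ) c = (1 / 2) * ((w ^ 2) ^ b * ((w ^ 2)⁻¹) ^ c) + 1 / 2 := by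
  have h2 : (w ^ 2) ^ b * ((w ^ 2)⁻¹) ^ c = w ^ (2 * ((b : ℤ) - c)) := by
    rw [← zsub (pow_ne_zero 2 h0), ← zpow_natCast w 2, ← zpow_mul]
    norm_num
  rw [h2]
  set k : ℤ := (b : ℤ) - c with hk
  have hz3 : w ^ (3 : ℤ) = 1 := by exact_mod_cast h3
  have hcl : cl3 (b : ℤ) c = if k % 3 = 0 then 1 else -1 / 2 := rfl
  rw [hcl]
  have hw2 : w ^ 2 = -w - 1 := by linear_combination hs
  obtain ⟨m, hm⟩ : ∃ m : ℤ, k = 3 * m ∨ k = 3 * m + 1 ∨ k = 3 * m + 2 := ⟨k / 3, by omega⟩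
  rcases hm with hm | hm | hm
  · have e1 : w ^ k = 1 := by rw [hm, zpow_mul, hz3, one_zpow]
    have e2 : w ^ (2 * k) = 1 := by rw [mul_comm, zpow_mul, e1, one_zpow]
    rw [if_pos (by omega), e1, e2]; norm_num
  · have e1 : w ^ k = w := by rw [hm, zpow_add₀ h0, zpow_mul, hz3, one_zpow, zpow_one, one_mul]
    have e2 : w ^ (2 * k) = w ^ 2 := by
      rw [mul_comm, zpow_mul, e1]; norm_cast
    rw [if_neg (by omega), e1, e2, hw2]; ring
  · have e1 : w ^ k = w ^ 2 := by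
      rw [hm, zpow_add₀ h0, zpow_mul, hz3, one_zpow, one_mul]; norm_cast
    have e2 : w ^ (2 * k) = w := by
      rw [mul_comm, zpow_mul, e1]
      have : ((w ^ 2) ^ (2 : ℤ) : ℂ) = w ^ 3 * w := by
        norm_cast
        ring
      rw [this, h3, one_mul]
    rw [if_neg (by omega), e1, e2, hw2]; ring

theorem neg_pow_zsub (b c : ℕ) : ((-1 : ℂ)) ^ ((b : ℤ) - c) = (-1) ^ b * (-1) ^ c := by
  rw [zsub (by norm_num), show ((-1 : ℂ)⁻¹) = -1 by norm_num]

theorem neg_one_even {k : ℤ} (h : k % 2 = 0) : ((-1 : ℂ)) ^ k = 1 :=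
  (Int.even_iff.2 h).neg_one_zpow

theorem neg_one_odd {k : ℤ} (h : k % 2 = 1) : ((-1 : ℂ)) ^ k = -1 :=
  (Int.odd_iff.2 h).neg_one_zpow

theorem cl4_even (b b' c : ℕ) (hc : c % 2 = 0) :
    cl4 (-(b : ℤ) - c) b ((b' : ℤ) + c) (-(b' : ℤ)) = 1 / 3 + (2 / 3) * ((-1) ^ b * (-1) ^ b') := by
  rw [← neg_pow_zsub, cl4]
  by_cases h : ((b : ℤ) - b') % 2 = 0
  · rw [neg_one_even h, if_pos (by refine ⟨?_, ?_, ?_⟩ <;> omega)]
    norm_num
  · rw [neg_one_odd (by omega), if_neg (by omega)]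
    norm_num

theorem cl4_odd (b b' c : ℕ) (hc : c % 2 = 1) :
    cl4 (-(b : ℤ) - c) b ((b' : ℤ) + c) (-(b' : ℤ)) = -1 / 3 := by
  rw [cl4, if_neg (by omega)]

/-- the three pairings -/
theorem wk_term (b b' c : ℕ) :
    wk (-(b : ℤ) - c) b ((b' : ℤ) + c) (-(b' : ℤ)) =
      (if c = 0 then (-1) ^ b * (-1) ^ b' else 0) + (if b' = b then (-1) ^ c else 0) +
      (if c = 0 then (if b = 0 then (if b' = 0 then 1 else 0) else 0) else 0) := by
  rw [wk]
  congr 1
  · congr 1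
    · by_cases hc : c = 0
      · subst hc
        rw [if_pos rfl, P, P, if_pos (by push_cast; ring), if_pos (by push_cast; ring),
          ← neg_pow_zsub, ← zpow_add₀ (by norm_num)]
        have h : (-(b : ℤ) - ((0 : ℕ) : ℤ) + ((b' : ℤ) + ((0 : ℕ) : ℤ))) = -((b : ℤ) - b') := by
          push_cast; ring
        rw [h, zpow_neg, ← inv_zpow, show ((-1 : ℂ)⁻¹) = -1 by norm_num]
      · rw [if_neg hc, P, if_neg (by omega), zero_mul]
    · by_cases h : b' = b
      · subst h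
        rw [if_pos rfl, P, P, if_pos (by ring), if_pos (by ring), ← zpow_add₀ (by norm_num)]
        have h : (-(b' : ℤ) - c + b') = -(c : ℤ) := by ring
        rw [h, zpow_neg, ← inv_zpow, show ((-1 : ℂ)⁻¹) = -1 by norm_num, zpow_natCast]
      · rw [if_neg h, P, if_neg (by omega), zero_mul]
  · by_cases hc : c = 0
    · by_cases hb : b = 0
      · by_cases hb' : b' = 0
        · subst hc hb hb'
          simp [P]
        · rw [if_pos hc, if_pos hb, if_neg hb', P, if_neg (by omega), zero_mul]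
      · rw [if_pos hc, if_neg hb, P, if_neg (by omega), zero_mul]
    · rw [if_neg hc, P, if_neg (by omega), zero_mul]

end SUM

open SUM in
theorem stmtSum : StmtSum := by
  intro w N hw hN hN0
  obtain ⟨h3, h1, h0, hs⟩ := root_facts hw
  have h6 : w ^ 6 = 1 := by
    have : w ^ 6 = (w ^ 3) ^ 2 := by ring
    rw [this, h3, one_pow]
  have hm6 : (-w) ^ 6 = 1 := by
    have : (-w) ^ 6 = w ^ 6 := by ring
    rw [this, h6]
  have hm1 : -w ≠ 1 := by
    intro h
    have h4 : (-w) ^ 3 = 1 := by rw [h, one_pow]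
    have h5 : (-w) ^ 3 = -1 := by
      have : (-w) ^ 3 = -(w ^ 3) := by ring
      rw [this, h3]
    rw [h4] at h5
    norm_num at h5
  have hq6 : (w ^ 2) ^ 6 = 1 := by
    have : (w ^ 2) ^ 6 = (w ^ 6) ^ 2 := by ring
    rw [this, h6, one_pow]
  have hq1 : w ^ 2 ≠ 1 := by
    intro h
    have : w = w ^ 3 := by
      calc w = w ^ 2 * w := by rw [h, one_mul]
        _ = w ^ 3 := by ring
    exact h1 (this.trans h3)
  have hsq : ∀ k : ℕ, ((-1 : ℂ)) ^ k * (-1) ^ k = 1 := by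
    intro k
    rw [← mul_pow]; norm_num
  refine ⟨?_, ?_, ?_⟩
  · have e1 : ∀ b ∈ Finset.range N, ∑ c ∈ Finset.range N, w ^ ((b : ℤ) - c) * cl3 (b : ℤ) c =
        ∑ c ∈ Finset.range N, ((1 / 2) * ((w ^ 2) ^ b * ((w ^ 2)⁻¹) ^ c) + 1 / 2) := fun b _ =>
      Finset.sum_congr rfl fun c _ => cl3_term h3 h0 hs b c
    rw [Finset.sum_congr rfl e1]
    simp only [Finset.sum_add_distrib, ← Finset.mul_sum, Finset.sum_const, Finset.card_range,
      nsmul_eq_mul]
    rw [← Finset.sum_mul, geom_zero hq6 hq1 hN]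
    ring
  · refine Finset.sum_eq_zero fun c _ => ?_
    have hA : ∑ b ∈ Finset.range N, ∑ b' ∈ Finset.range N, w ^ b * w⁻¹ ^ b' = 0 :=
      double_zero h6 h1 hN
    have hB : ∑ b ∈ Finset.range N, ∑ b' ∈ Finset.range N, (-w) ^ b * (-w⁻¹) ^ b' = 0 :=
      double_zero hm6 hm1 hN
    rcases Nat.mod_two_eq_zero_or_one c with hc | hc
    · have e1 : ∀ b b' : ℕ, w ^ ((b : ℤ) - b') * (-1) ^ c *
          cl4 (-(b : ℤ) - c) b ((b' : ℤ) + c) (-(b' : ℤ)) =
          ((-1) ^ c / 3) * (w ^ b * w⁻¹ ^ b') + (2 * (-1) ^ c / 3) * ((-w) ^ b * (-w⁻¹) ^ b') := by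
        intro b b'
        rw [cl4_even b b' c hc, zsub h0, neg_pow w, neg_pow w⁻¹]
        ring
      simp only [e1, Finset.sum_add_distrib, ← Finset.mul_sum]
      simp only [← Finset.mul_sum] at hA hB
      rw [hA, hB]
      ring
    · have e1 : ∀ b b' : ℕ, w ^ ((b : ℤ) - b') * (-1) ^ c *
          cl4 (-(b : ℤ) - c) b ((b' : ℤ) + c) (-(b' : ℤ)) =
          (-(-1) ^ c / 3) * (w ^ b * w⁻¹ ^ b') := by
        intro b b'
        rw [cl4_odd b b' c hc, zsub h0]
        ring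
      simp only [e1, ← Finset.mul_sum]
      simp only [← Finset.mul_sum] at hA
      rw [hA]
      ring
  · have e1 : ∀ c b b' : ℕ, w ^ ((b : ℤ) - b') * (-1) ^ c *
        wk (-(b : ℤ) - c) b ((b' : ℤ) + c) (-(b' : ℤ)) =
        (if c = 0 then (-w) ^ b * (-w⁻¹) ^ b' else 0) + (if b' = b then 1 else 0) +
        (if c = 0 then (if b = 0 then (if b' = 0 then 1 else 0) else 0) else 0) := by
      intro c b b'
      rw [wk_term, mul_add, mul_add]
      congr 1
      · congr 1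
        · by_cases hc : c = 0
          · subst hc
            rw [if_pos rfl, if_pos rfl, zsub h0, neg_pow w, neg_pow w⁻¹, pow_zero]
            ring
          · rw [if_neg hc, if_neg hc, mul_zero]
        · by_cases h : b' = b
          · subst h
            rw [if_pos rfl, if_pos rfl, sub_self, zpow_zero, one_mul, hsq]
          · rw [if_neg h, if_neg h, mul_zero]
      · by_cases hc : c = 0
        · by_cases hb : b = 0
          · by_cases hb' : b' = 0
            · subst hc hb hb'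
              simp
            · rw [if_pos hc, if_pos hb, if_neg hb', mul_zero]
          · rw [if_pos hc, if_neg hb, mul_zero]
        · rw [if_neg hc, mul_zero]
    simp only [e1, Finset.sum_add_distrib]
    have s1 : ∑ c ∈ Finset.range N, ∑ b ∈ Finset.range N, ∑ b' ∈ Finset.range N,
        (if c = 0 then (-w) ^ b * (-w⁻¹) ^ b' else 0) = 0 := by
      refine Finset.sum_eq_zero fun c _ => ?_
      by_cases hc : c = 0
      · simp only [if_pos hc]
        exact double_zero hm6 hm1 hN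
      · simp only [if_neg hc, Finset.sum_const_zero]
    have s2 : ∑ c ∈ Finset.range N, ∑ b ∈ Finset.range N, ∑ b' ∈ Finset.range N,
        (if b' = b then (1 : ℂ) else 0) = (N : ℂ) ^ 2 := by
      have : ∀ b ∈ Finset.range N, ∑ b' ∈ Finset.range N, (if b' = b then (1 : ℂ) else 0) = 1 := by
        intro b hb
        rw [Finset.sum_ite_eq' (Finset.range N) b, if_pos hb]
      rw [Finset.sum_congr rfl fun c _ => Finset.sum_congr rfl this]
      simp only [Finset.sum_const, Finset.card_range, nsmul_eq_mul, mul_one]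
      ring
    have s3 : ∑ c ∈ Finset.range N, ∑ b ∈ Finset.range N, ∑ b' ∈ Finset.range N,
        (if c = 0 then (if b = 0 then (if b' = 0 then (1 : ℂ) else 0) else 0) else 0) = 1 := by
      have h0m : 0 ∈ Finset.range N := Finset.mem_range.2 hN0
      rw [Finset.sum_eq_single_of_mem 0 h0m, Finset.sum_eq_single_of_mem 0 h0m,
        Finset.sum_eq_single_of_mem 0 h0m]
      · simp
      · intro b _ hb
        simp [hb]
      · intro b _ hb
        simp [hb]
      · intro c _ hc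
        simp [hc]
    rw [s1, s2, s3]
    ring

end QJ
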