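import Pool.Agent.QJ.Stmts

/-!
SUP: a pointwise bound at scale `h`, by the regularized fundamental solution of the Laplacian.
-/

open Complex MeasureTheory Filter Topology Set
open scoped ContDiff

namespace QJ

open QE

noncomputable section

namespace SUP

open EllAux

/-- the regularized fundamental solution -/
def Lg (δ : ℝ) (w : ℂ) : ℂ := ((Real.pi⁻¹ * Real.log (‖w‖ ^ 2 + δ ^ 2) : ℝ) : ℂ)

lemma den_pos {δ : ℝ} (hδ : 0 < δ) (w : ℂ) : 0 < ‖w‖ ^ 2 + δ ^ 2 := by positivity

lemma contDiff_Lg {δ : ℝ} (hδ : 0 < δ) : ContDiff ℝ ∞ (Lg δ) := by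
  have h1 : ContDiff ℝ ∞ (fun w : ℂ => ‖w‖ ^ 2 + δ ^ 2) := (contDiff_norm_sq ℝ).add contDiff_const
  have h2 : ContDiff ℝ ∞ (fun w : ℂ => Real.log (‖w‖ ^ 2 + δ ^ 2)) :=
    h1.log fun w => (den_pos hδ w).ne'
  have h3 : ContDiff ℝ ∞ (fun w : ℂ => Real.pi⁻¹ * Real.log (‖w‖ ^ 2 + δ ^ 2)) :=
    contDiff_const.mul h2
  exact Complex.ofRealCLM.contDiff.comp h3

lemma fderiv_Lg {δ : ℝ} (hδ : 0 < δ) (w v : ℂ) :
    fderiv ℝ (Lg δ) w v =
      ((Real.pi⁻¹ * ((‖w‖ ^ 2 + δ ^ 2)⁻¹ * (2 * ((starRingEnd ℂ) w * v).re)) : ℝ) : ℂ) := by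
  have h1 : HasFDerivAt (fun w : ℂ => ‖w‖ ^ 2 + δ ^ 2) (2 • innerSL ℝ w) w :=
    (hasStrictFDerivAt_norm_sq w).hasFDerivAt.add_const _
  have h2 := h1.log (den_pos hδ w).ne'
  have h3 := h2.const_mul Real.pi⁻¹
  have h4 : HasFDerivAt (Lg δ) _ w := (Complex.ofRealCLM.hasFDerivAt).comp w h3
  rw [h4.fderiv]
  simp only [ContinuousLinearMap.comp_apply, smul_apply, innerSL_apply_apply, Complex.inner,
    Complex.ofRealCLM_apply, smul_eq_mul, nsmul_eq_mul]
  push_cast
  ring_nf

lemma dz_Lg {δ : ℝ} (hδ : 0 < δ) (w : ℂ) : dz (Lg δ) w = kd δ w := by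
  unfold dz kd
  rw [fderiv_Lg hδ, fderiv_Lg hδ, kd_den_eq]
  have hp : (Real.pi : ℂ) ≠ 0 := by exact_mod_cast Real.pi_ne_zero
  have hd : ((‖w‖ ^ 2 + δ ^ 2 : ℝ) : ℂ) ≠ 0 := by exact_mod_cast (den_pos hδ w).ne'
  have h1 : ((starRingEnd ℂ) w * 1).re = w.re := by simp
  have h2 : ((starRingEnd ℂ) w * I).re = w.im := by simp
  have h3 : (starRingEnd ℂ) w = (w.re : ℂ) - I * w.im := by
    apply Complex.ext <;> simp
  rw [h1, h2, h3]
  push_cast at hd ⊢
  field_simp

lemma dzb_Lg {δ : ℝ} (hδ : 0 < δ) (w : ℂ) : dzb (Lg δ) w = (starRingEnd ℂ) (kd δ w) := by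
  have h : (fun w => (starRingEnd ℂ) (Lg δ w)) = Lg δ := by
    funext w
    unfold Lg
    rw [Complex.conj_ofReal]
  have h1 := dzb_conj ((contDiff_Lg hδ).differentiable (by simp) w)
  rw [h, dz_Lg hδ] at h1
  exact h1

lemma norm_ck (w : ℂ) : ‖ck w‖ = (Real.pi * ‖w‖)⁻¹ := by
  unfold ck
  rw [norm_inv, norm_mul, Complex.norm_real, Real.norm_of_nonneg Real.pi_pos.le]

lemma Lg_sq_le {δ : ℝ} (hδ : 0 < δ) (hδ1 : δ ≤ 1) {w : ℂ} (hw0 : w ≠ 0) (hw : ‖w‖ ≤ 1) :
    ‖Lg δ w‖ ^ 2 ≤ 1 + 16 * (Real.pi * ‖ck w‖) := by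
  have hr : 0 < ‖w‖ := norm_pos_iff.mpr hw0
  have hpi : 0 < Real.pi := Real.pi_pos
  have e1 : Real.pi * ‖ck w‖ = ‖w‖⁻¹ := by
    rw [norm_ck, mul_inv]
    field_simp
  rw [e1]
  have hpos : 0 < ‖w‖⁻¹ := inv_pos.mpr hr
  have hp1 : Real.pi⁻¹ ≤ 1 := inv_le_one_of_one_le₀ (by linarith [Real.pi_gt_three])
  have hp0 : 0 < Real.pi⁻¹ := inv_pos.mpr hpi
  have e2 : ‖Lg δ w‖ = Real.pi⁻¹ * |Real.log (‖w‖ ^ 2 + δ ^ 2)| := by
    unfold Lg
    rw [Complex.norm_real, norm_mul, Real.norm_of_nonneg hp0.le, Real.norm_eq_abs]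
  have hle : ‖Lg δ w‖ ≤ |Real.log (‖w‖ ^ 2 + δ ^ 2)| := by
    rw [e2]
    have := abs_nonneg (Real.log (‖w‖ ^ 2 + δ ^ 2))
    nlinarith
  have hd := den_pos hδ w
  by_cases h1 : 1 ≤ ‖w‖ ^ 2 + δ ^ 2
  · have h2 : |Real.log (‖w‖ ^ 2 + δ ^ 2)| ≤ 1 := by
      rw [abs_of_nonneg (Real.log_nonneg h1)]
      have h3 := Real.log_le_sub_one_of_pos hd
      nlinarith
    have h3 : ‖Lg δ w‖ ^ 2 ≤ 1 := by
      have := norm_nonneg (Lg δ w)
      nlinarith
    linarith
  · push Not at h1
    set s := Real.sqrt ‖w‖ with hs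
    have hs0 : 0 < s := Real.sqrt_pos.mpr hr
    have hss : s * s = ‖w‖ := Real.mul_self_sqrt hr.le
    have h2 : |Real.log (‖w‖ ^ 2 + δ ^ 2)| ≤ 4 * s⁻¹ := by
      rw [abs_of_nonpos (Real.log_nonpos hd.le h1.le)]
      have h3 : Real.log (‖w‖ ^ 2) ≤ Real.log (‖w‖ ^ 2 + δ ^ 2) :=
        Real.log_le_log (by positivity) (by nlinarith)
      have h4 : Real.log (‖w‖ ^ 2) = 4 * Real.log s := by
        rw [← hss]
        have : (s * s) ^ 2 = s ^ 4 := by ring
        rw [this, Real.log_pow]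
        norm_num
      have h5 := Real.log_le_sub_one_of_pos (inv_pos.mpr hs0)
      rw [Real.log_inv] at h5
      linarith
    have h6 : ‖Lg δ w‖ ≤ 4 * s⁻¹ := hle.trans h2
    have h7 : ‖Lg δ w‖ ^ 2 ≤ (4 * s⁻¹) ^ 2 := pow_le_pow_left₀ (norm_nonneg _) h6 2
    have h8 : (4 * s⁻¹) ^ 2 = 16 * ‖w‖⁻¹ := by
      rw [← hss]
      field_simp
      norm_num
    linarith

/-- the kernel coming from the cut-off -/
def Kn (δ : ℝ) (u : ℂ) : ℂ := dzb (fun w => dz ze w * Lg δ w) u

lemma Kn_eq {δ : ℝ} (hδ : 0 < δ) (u : ℂ) :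
    Kn δ u = dzb (dz ze) u * Lg δ u + dz ze u * dzb (Lg δ) u :=
  dzb_mul ((contDiff_dz ze_smooth).differentiable (by simp) u)
    ((contDiff_Lg hδ).differentiable (by simp) u)

lemma ze_test' : Test Set.univ ze := ze_test (Set.subset_univ _)

lemma dz_ze_near {u : ℂ} (hu : ‖u‖ < 1 / 2) : dz ze =ᶠ[𝓝 u] fun _ => 0 := by
  have h1 : ∀ w ∈ Metric.ball (0 : ℂ) (1 / 2), ze w = (fun _ => (1 : ℂ)) w := by
    intro w hw
    unfold ze
    rw [bump.one_of_mem_closedBall (Metric.ball_subset_closedBall hw)]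
    simp
  have h2 : u ∈ Metric.ball (0 : ℂ) (1 / 2) := by rwa [mem_ball_zero_iff]
  filter_upwards [Metric.isOpen_ball.mem_nhds h2] with w hw
  rw [dz_congr_on Metric.isOpen_ball h1 hw, dz_const]

lemma norm_ze_le (u : ℂ) : ‖ze u‖ ≤ 1 := by
  unfold ze
  rw [Complex.norm_real, Real.norm_of_nonneg bump.nonneg]
  exact bump.le_one

lemma ze_out {u : ℂ} (hu : 1 < ‖u‖) : u ∉ tsupport ze := by
  intro h
  have := ze_tsupport h
  rw [mem_closedBall_zero_iff] at this
  linarith

lemma Kn_out {δ : ℝ} (hδ : 0 < δ) {u : ℂ} (hu : 1 < ‖u‖) : Kn δ u = 0 := by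
  rw [Kn_eq hδ]
  have h1 : dz ze u = 0 :=
    image_eq_zero_of_notMem_tsupport fun h => ze_out hu (tsupport_dz_subset _ h)
  have h2 : dzb (dz ze) u = 0 :=
    image_eq_zero_of_notMem_tsupport fun h =>
      ze_out hu (tsupport_dz_subset _ (tsupport_dzb_subset _ h))
  rw [h1, h2]
  simp

lemma Kn_bound : ∃ A : ℝ, 0 ≤ A ∧ ∀ δ : ℝ, 0 < δ → δ ≤ 1 → ∀ u, ‖Kn δ u‖ ≤ A := by
  obtain ⟨C1, hC1⟩ := (contDiff_dz ze_smooth).continuous.bounded_above_of_compact_support
    ze_compact.dz
  obtain ⟨C2, hC2⟩ := (contDiff_dzb (contDiff_dz ze_smooth)).continuous.bounded_above_of_compact_support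
    ze_compact.dz.dzb
  have hC1' : 0 ≤ C1 := (norm_nonneg _).trans (hC1 0)
  have hC2' : 0 ≤ C2 := (norm_nonneg _).trans (hC2 0)
  refine ⟨C2 * 6 + C1 * 1, by positivity, ?_⟩
  intro δ hδ hδ1 u
  rcases lt_or_ge ‖u‖ (1 / 2) with h | h
  · have h1 := dz_ze_near h
    have h2 : dz ze u = 0 := h1.self_of_nhds
    have h3 : dzb (dz ze) u = 0 := by
      rw [dzb_congr h1, dzb_const]
    rw [Kn_eq hδ, h2, h3]
    simp only [zero_mul, add_zero, norm_zero]
    positivity
  rcases lt_or_ge 1 ‖u‖ with h' | h'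
  · rw [Kn_out hδ h', norm_zero]
    positivity
  have hu0 : u ≠ 0 := by
    intro h0
    rw [h0, norm_zero] at h
    linarith
  have hr : 0 < ‖u‖ := norm_pos_iff.mpr hu0
  have hinv : ‖u‖⁻¹ ≤ 2 := by
    have := inv_anti₀ (by norm_num : (0 : ℝ) < 1 / 2) h
    norm_num at this ⊢
    exact this
  have h4 : ‖Lg δ u‖ ≤ 6 := by
    have h5 := Lg_sq_le hδ hδ1 hu0 h'
    have e1 : Real.pi * ‖ck u‖ = ‖u‖⁻¹ := by
      rw [norm_ck, mul_inv]
      have := Real.pi_pos
      field_simp
    rw [e1] at h5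
    nlinarith [norm_nonneg (Lg δ u)]
  have h6 : ‖dzb (Lg δ) u‖ ≤ 1 := by
    rw [dzb_Lg hδ, RCLike.norm_conj, norm_kd, div_le_one (by positivity)]
    nlinarith [Real.pi_gt_three, sq_nonneg δ, mul_nonneg (sq_nonneg δ) Real.pi_pos.le,
      mul_pos hr hr]
  rw [Kn_eq hδ]
  refine (norm_add_le _ _).trans ?_
  rw [norm_mul, norm_mul]
  have := hC1 u
  have := hC2 u
  gcongr

lemma dz_supp_test {V : ℂ → ℂ} (hV : ContDiff ℝ ∞ V) : Test Set.univ (fun u => ze u * dzb V u) :=
  ze_test'.mul isOpen_univ (contDiff_dzb hV).contDiffOn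

lemma ident {V : ℂ → ℂ} (hV : ContDiff ℝ ∞ V) {δ : ℝ} (hδ : 0 < δ) :
    V 0 = ((∫ u, ka u * V u) - (∫ u, Kn δ u * V u)
      + ∫ u, (ze u * Lg δ u) * dz (dzb V) u) - ∫ u, (ck u - kd δ u) * (ze u * dzb V u) := by
  have hdV := contDiff_dzb hV
  have hf : Test Set.univ (fun w => ze w * V w) := ze_test'.mul isOpen_univ hV.contDiffOn
  have h0 := cauchy_dzb hf.smooth hf.supp 0
  rw [ze_zero, one_mul] at h0
  have hφ := dz_supp_test hV
  have hprod : ∀ u, dzb (fun w => ze w * V w) u = dzb ze u * V u + ze u * dzb V u := fun u =>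
    dzb_mul (ze_smooth.differentiable (by simp) u) (hV.differentiable (by simp) u)
  have hI1 : Integrable (fun u => ka u * V u) :=
    (ka_test (Set.subset_univ _)).integrable_mul isOpen_univ hV.continuous.continuousOn
  have hI2 : Integrable (fun u => ck (-u) * (ze u * dzb V u)) := by
    have h1 := convExists hφ.smooth.continuous hφ.supp 0
    have h2 := h1.comp_neg
    refine h2.congr (Filter.Eventually.of_forall fun u => ?_)
    simp only [sub_neg_eq_add, zero_add]
  have h1 : V 0 = (∫ u, ka u * V u) + ∫ u, ck (-u) * (ze u * dzb V u) := by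
    rw [← h0, ← integral_add hI1 hI2]
    unfold cauchy
    rw [← integral_neg_eq_self]
    refine integral_congr_ae (Filter.Eventually.of_forall fun u => ?_)
    simp only [zero_sub, neg_neg]
    rw [hprod]
    unfold ka
    ring
  have hck : ∀ u, ck (-u) = - ck u := by
    intro u
    unfold ck
    rw [mul_neg, inv_neg]
  have hI3 : Integrable (fun u => ck u * (ze u * dzb V u)) := by
    refine hI2.neg.congr (Filter.Eventually.of_forall fun u => ?_)
    simp only [Pi.neg_apply]
    rw [hck]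
    ring
  have hI4 : Integrable (fun u => kd δ u * (ze u * dzb V u)) := by
    have h : Integrable (fun u => ze u * dzb V u) :=
      hφ.smooth.continuous.integrable_of_hasCompactSupport hφ.supp
    exact h.bdd_mul (continuous_kd hδ).aestronglyMeasurable
      (Filter.Eventually.of_forall fun w => norm_kd_le hδ w)
  have h2 : ∫ u, ck (-u) * (ze u * dzb V u) = - (∫ u, kd δ u * (ze u * dzb V u))
      - ∫ u, (ck u - kd δ u) * (ze u * dzb V u) := by
    have e1 : ∫ u, (ck u - kd δ u) * (ze u * dzb V u)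
        = (∫ u, ck u * (ze u * dzb V u)) - ∫ u, kd δ u * (ze u * dzb V u) := by
      rw [← integral_sub hI3 hI4]
      refine integral_congr_ae (Filter.Eventually.of_forall fun u => ?_)
      simp only []
      ring
    have e2 : ∫ u, ck (-u) * (ze u * dzb V u) = - ∫ u, ck u * (ze u * dzb V u) := by
      rw [← integral_neg]
      refine integral_congr_ae (Filter.Eventually.of_forall fun u => ?_)
      simp only []
      rw [hck]
      ring
    rw [e1, e2]
    ring
  -- integration by parts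
  have h3 : ∫ u, (ze u * dzb V u) * dz (Lg δ) u = - ∫ u, dz (fun u => ze u * dzb V u) u * Lg δ u :=
    integral_mul_dz isOpen_univ hφ (contDiff_Lg hδ).contDiffOn
  have h4 : ∫ u, kd δ u * (ze u * dzb V u) = ∫ u, (ze u * dzb V u) * dz (Lg δ) u := by
    refine integral_congr_ae (Filter.Eventually.of_forall fun u => ?_)
    simp only []
    rw [dz_Lg hδ]
    ring
  have hLt : Test Set.univ (fun w => dz ze w * Lg δ w) :=
    ze_test'.dz.mul isOpen_univ (contDiff_Lg hδ).contDiffOn
  have hLt2 : Test Set.univ (fun w => ze w * Lg δ w) :=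
    ze_test'.mul isOpen_univ (contDiff_Lg hδ).contDiffOn
  have h5 : ∫ u, (dz ze u * Lg δ u) * dzb V u = - ∫ u, Kn δ u * V u :=
    integral_mul_dzb isOpen_univ hLt hV.contDiffOn
  have hI5 : Integrable (fun u => (dz ze u * Lg δ u) * dzb V u) :=
    hLt.integrable_mul isOpen_univ hdV.continuous.continuousOn
  have hI6 : Integrable (fun u => (ze u * Lg δ u) * dz (dzb V) u) :=
    hLt2.integrable_mul isOpen_univ (contDiff_dz hdV).continuous.continuousOn
  have h6 : ∫ u, dz (fun u => ze u * dzb V u) u * Lg δ u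
      = (∫ u, (dz ze u * Lg δ u) * dzb V u) + ∫ u, (ze u * Lg δ u) * dz (dzb V) u := by
    rw [← integral_add hI5 hI6]
    refine integral_congr_ae (Filter.Eventually.of_forall fun u => ?_)
    simp only []
    rw [dz_mul (ze_smooth.differentiable (by simp) u) (hdV.differentiable (by simp) u)]
    ring
  rw [h1, h2, h4, h3, h6, h5]
  ring

/-- the weight -/
def Mw (A : ℝ) (u : ℂ) : ℝ := A ^ 2 + (1 + 16 * (Real.pi * ‖ck u‖))

lemma Mw_nonneg (A : ℝ) (u : ℂ) : 0 ≤ Mw A u := by
  unfold Mw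
  have := Real.pi_pos
  positivity

lemma Mw_int (A : ℝ) : IntegrableOn (Mw A) (Metric.closedBall 0 1) := by
  have h1 : IntegrableOn (fun u => ‖ck u‖) (Metric.closedBall (0 : ℂ) 1) :=
    (locInt_ck.integrableOn_isCompact (isCompact_closedBall 0 1)).norm
  have h2 : IntegrableOn (fun _ : ℂ => (1 : ℝ)) (Metric.closedBall (0 : ℂ) 1) volume :=
    continuousOn_const.integrableOn_compact (isCompact_closedBall 0 1)
  have h3 : IntegrableOn (fun _ : ℂ => A ^ 2) (Metric.closedBall (0 : ℂ) 1) volume :=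
    continuousOn_const.integrableOn_compact (isCompact_closedBall 0 1)
  exact h3.add (h2.add ((h1.const_mul Real.pi).const_mul 16))

lemma quad {a c S : ℝ} (ha : 0 ≤ a) (hc : 0 ≤ c) (hS : 0 ≤ S)
    (h : ∀ t : ℝ, 0 < t → a ≤ t / 2 * c + 1 / (2 * t) * S) : a ^ 2 ≤ c * S := by
  rcases hS.eq_or_lt with h0 | hS'
  · have h1 : a ≤ 0 := by
      by_contra hne
      push Not at hne
      have h2 := h (a / (c + 1)) (by positivity)
      rw [← h0, mul_zero, add_zero] at h2
      have h3 : a / (c + 1) / 2 * c = a * (c / (c + 1)) / 2 := by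
        field_simp
      rw [h3] at h2
      have h4 : c / (c + 1) ≤ 1 := by
        rw [div_le_one (by positivity)]
        linarith
      nlinarith
    have h2 : a = 0 := le_antisymm h1 ha
    rw [h2, ← h0]
    simp
  · rcases hc.eq_or_lt with h0 | hc'
    · have h1 : a ≤ 0 := by
        by_contra hne
        push Not at hne
        have h2 := h (S / a) (by positivity)
        rw [← h0, mul_zero, zero_add] at h2
        have h3 : 1 / (2 * (S / a)) * S = a / 2 := by
          field_simp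
        rw [h3] at h2
        linarith
      have h2 : a = 0 := le_antisymm h1 ha
      rw [h2, ← h0]
      simp
    · have h1 := h (Real.sqrt (S / c)) (Real.sqrt_pos.mpr (by positivity))
      set t := Real.sqrt (S / c) with ht
      have ht0 : 0 < t := Real.sqrt_pos.mpr (by positivity)
      have htt : t * t = S / c := Real.mul_self_sqrt (by positivity)
      have hS2 : S = t * t * c := by
        rw [htt]
        field_simp
      have h2 : 1 / (2 * t) * S = t * c / 2 := by
        rw [hS2]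
        field_simp
      rw [h2] at h1
      have h3 : a ≤ t * c := by linarith
      calc a ^ 2 ≤ (t * c) ^ 2 := pow_le_pow_left₀ ha h3 2
        _ = c * (t * t * c) := by ring
        _ = c * S := by rw [← hS2]

lemma unit_sup : ∃ C : ℝ, 0 < C ∧ ∀ V : ℂ → ℂ, ContDiff ℝ ∞ V →
    ‖V 0‖ ^ 2 ≤ C * ∫ u in Metric.closedBall (0 : ℂ) 1, (‖V u‖ ^ 2 + ‖dz (dzb V) u‖ ^ 2) := by
  obtain ⟨A1, hA1, hK⟩ := Kn_bound
  obtain ⟨A2, hA2⟩ := ka_smooth.continuous.bounded_above_of_compact_support
    (ka_test (Set.subset_univ _)).supp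
  have hA2' : 0 ≤ A2 := (norm_nonneg _).trans (hA2 0)
  set A := A1 + A2 with hA
  have hA0 : 0 ≤ A := by positivity
  set c := ∫ u in Metric.closedBall (0 : ℂ) 1, Mw A u with hc
  have hc0 : 0 ≤ c := integral_nonneg fun u => Mw_nonneg A u
  refine ⟨c + 1, by positivity, ?_⟩
  intro V hV
  have hddV : Continuous (dz (dzb V)) := (contDiff_dz (contDiff_dzb hV)).continuous
  have hVc := hV.continuous
  set S := ∫ u in Metric.closedBall (0 : ℂ) 1, (‖V u‖ ^ 2 + ‖dz (dzb V) u‖ ^ 2) with hS
  have hSi : IntegrableOn (fun u => ‖V u‖ ^ 2 + ‖dz (dzb V) u‖ ^ 2)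
      (Metric.closedBall (0 : ℂ) 1) :=
    (by fun_prop : Continuous fun u => ‖V u‖ ^ 2 + ‖dz (dzb V) u‖ ^ 2).continuousOn.integrableOn_compact
      (isCompact_closedBall 0 1)
  have hS0 : 0 ≤ S := integral_nonneg fun u => by positivity
  have hφ := dz_supp_test hV
  obtain ⟨B, hB⟩ := hφ.smooth.continuous.bounded_above_of_compact_support hφ.supp
  have hB0 : 0 ≤ B := (norm_nonneg _).trans (hB 0)
  have key : ∀ t : ℝ, 0 < t → ‖V 0‖ ≤ t / 2 * c + 1 / (2 * t) * S := by
    intro t ht
    have main : ∀ δ : ℝ, 0 < δ → δ ≤ 1 →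
        ‖V 0‖ ≤ t / 2 * c + 1 / (2 * t) * S + (Real.pi * B) * δ := by
      intro δ hδ hδ1
      have hI1 : Integrable (fun u => ka u * V u) :=
        (ka_test (Set.subset_univ _)).integrable_mul isOpen_univ hV.continuous.continuousOn
      have hLt : Test Set.univ (fun w => dz ze w * Lg δ w) :=
        ze_test'.dz.mul isOpen_univ (contDiff_Lg hδ).contDiffOn
      have hLt2 : Test Set.univ (fun w => ze w * Lg δ w) :=
        ze_test'.mul isOpen_univ (contDiff_Lg hδ).contDiffOn
      have hI2 : Integrable (fun u => Kn δ u * V u) :=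
        hLt.dzb.integrable_mul isOpen_univ hV.continuous.continuousOn
      have hI3 : Integrable (fun u => (ze u * Lg δ u) * dz (dzb V) u) :=
        hLt2.integrable_mul isOpen_univ hddV.continuousOn
      have hid := ident hV hδ
      have e1 : (∫ u, ka u * V u) - (∫ u, Kn δ u * V u) + ∫ u, (ze u * Lg δ u) * dz (dzb V) u
          = ∫ u, (ka u * V u - Kn δ u * V u + (ze u * Lg δ u) * dz (dzb V) u) := by
        rw [integral_add (f := fun u => ka u * V u - Kn δ u * V u) (hI1.sub hI2) hI3,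
          integral_sub hI1 hI2]
      rw [e1] at hid
      have herr : ‖∫ u, (ck u - kd δ u) * (ze u * dzb V u)‖ ≤ (Real.pi * B) * δ := by
        calc ‖∫ u, (ck u - kd δ u) * (ze u * dzb V u)‖
            ≤ ∫ u, ‖(ck u - kd δ u) * (ze u * dzb V u)‖ := norm_integral_le_integral_norm _
          _ ≤ ∫ u, ‖ck u - kd δ u‖ * B := by
              refine integral_mono_of_nonneg (Filter.Eventually.of_forall fun u => norm_nonneg _)
                ((integrable_ck_sub_kd hδ).mul_const B) (Filter.Eventually.of_forall fun u => ?_)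
              simp only []
              rw [norm_mul]
              exact mul_le_mul_of_nonneg_left (hB u) (norm_nonneg _)
          _ = (∫ u, ‖ck u - kd δ u‖) * B := integral_mul_const _ _
          _ ≤ (Real.pi * δ) * B := mul_le_mul_of_nonneg_right (integral_ck_sub_kd hδ) hB0
          _ = (Real.pi * B) * δ := by ring
      have hmain : ‖∫ u, (ka u * V u - Kn δ u * V u + (ze u * Lg δ u) * dz (dzb V) u)‖
          ≤ t / 2 * c + 1 / (2 * t) * S := by
        have hG : IntegrableOn (fun u => t / 2 * Mw A u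
            + 1 / (2 * t) * (‖V u‖ ^ 2 + ‖dz (dzb V) u‖ ^ 2)) (Metric.closedBall (0 : ℂ) 1) :=
          ((Mw_int A).const_mul _).add (hSi.const_mul _)
        have hGe : ∫ u in Metric.closedBall (0 : ℂ) 1, (t / 2 * Mw A u
            + 1 / (2 * t) * (‖V u‖ ^ 2 + ‖dz (dzb V) u‖ ^ 2)) = t / 2 * c + 1 / (2 * t) * S := by
          rw [integral_add ((Mw_int A).const_mul _) (hSi.const_mul _), integral_const_mul,
            integral_const_mul]
        rw [← hGe, ← integral_indicator measurableSet_closedBall]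
        refine (norm_integral_le_integral_norm _).trans ?_
        refine integral_mono_of_nonneg (Filter.Eventually.of_forall fun u => norm_nonneg _)
          ((integrable_indicator_iff measurableSet_closedBall).mpr hG) ?_
        have hne : ∀ᵐ u : ℂ, u ≠ 0 := by
          rw [ae_iff]
          simp
        filter_upwards [hne] with u hu0
        by_cases hu : u ∈ Metric.closedBall (0 : ℂ) 1
        · rw [Set.indicator_of_mem hu]
          rw [mem_closedBall_zero_iff] at hu
          have k1 := hA2 u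
          have k2 := hK δ hδ hδ1 u
          have k3 := Lg_sq_le hδ hδ1 hu0 hu
          have k4 := norm_ze_le u
          have n1 := norm_nonneg (V u)
          have n2 := norm_nonneg (dz (dzb V) u)
          have n3 := norm_nonneg (Lg δ u)
          have n4 := norm_nonneg (ze u)
          have step : ‖ka u * V u - Kn δ u * V u + (ze u * Lg δ u) * dz (dzb V) u‖
              ≤ A * ‖V u‖ + ‖Lg δ u‖ * ‖dz (dzb V) u‖ := by
            calc ‖ka u * V u - Kn δ u * V u + (ze u * Lg δ u) * dz (dzb V) u‖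
                ≤ ‖ka u * V u - Kn δ u * V u‖ + ‖(ze u * Lg δ u) * dz (dzb V) u‖ := norm_add_le _ _
              _ ≤ (‖ka u * V u‖ + ‖Kn δ u * V u‖) + ‖(ze u * Lg δ u) * dz (dzb V) u‖ := by
                  gcongr
                  exact norm_sub_le _ _
              _ = (‖ka u‖ * ‖V u‖ + ‖Kn δ u‖ * ‖V u‖)
                  + ‖ze u‖ * ‖Lg δ u‖ * ‖dz (dzb V) u‖ := by
                  rw [norm_mul, norm_mul, norm_mul, norm_mul]
              _ ≤ (A2 * ‖V u‖ + A1 * ‖V u‖) + 1 * ‖Lg δ u‖ * ‖dz (dzb V) u‖ := by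
                  gcongr
              _ = A * ‖V u‖ + ‖Lg δ u‖ * ‖dz (dzb V) u‖ := by
                  rw [hA]
                  ring
          refine step.trans ?_
          have am : ∀ x y : ℝ, x * y ≤ t / 2 * x ^ 2 + 1 / (2 * t) * y ^ 2 := by
            intro x y
            have : t / 2 * x ^ 2 + 1 / (2 * t) * y ^ 2 - x * y = 1 / (2 * t) * (t * x - y) ^ 2 := by
              field_simp
              ring
            have h2 : 0 ≤ 1 / (2 * t) * (t * x - y) ^ 2 := by positivity
            linarith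
          have a1 := am A ‖V u‖
          have a2 := am ‖Lg δ u‖ ‖dz (dzb V) u‖
          have a3 : t / 2 * ‖Lg δ u‖ ^ 2 ≤ t / 2 * (1 + 16 * (Real.pi * ‖ck u‖)) :=
            mul_le_mul_of_nonneg_left k3 (by positivity)
          unfold Mw
          linarith
        · rw [Set.indicator_of_notMem hu]
          rw [mem_closedBall_zero_iff, not_le] at hu
          have z1 : ze u = 0 := image_eq_zero_of_notMem_tsupport (ze_out hu)
          have z2 : dzb ze u = 0 := image_eq_zero_of_notMem_tsupport fun h =>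
            ze_out hu (tsupport_dzb_subset _ h)
          rw [Kn_out hδ hu, z1]
          unfold ka
          rw [z2]
          simp
      calc ‖V 0‖ ≤ ‖∫ u, (ka u * V u - Kn δ u * V u + (ze u * Lg δ u) * dz (dzb V) u)‖
            + ‖∫ u, (ck u - kd δ u) * (ze u * dzb V u)‖ := by
            conv_lhs => rw [hid]
            exact norm_sub_le _ _
        _ ≤ _ := add_le_add hmain herr
    refine le_of_forall_pos_le_add fun ε hε => ?_
    have hδ : 0 < min 1 (ε / (Real.pi * B + 1)) := by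
      have := Real.pi_pos
      positivity
    refine (main _ hδ (min_le_left _ _)).trans ?_
    have h1 : min 1 (ε / (Real.pi * B + 1)) ≤ ε / (Real.pi * B + 1) := min_le_right _ _
    have hpb : 0 ≤ Real.pi * B := mul_nonneg Real.pi_pos.le hB0
    have h2 : (Real.pi * B) * min 1 (ε / (Real.pi * B + 1)) ≤ ε := by
      calc (Real.pi * B) * min 1 (ε / (Real.pi * B + 1))
          ≤ (Real.pi * B + 1) * (ε / (Real.pi * B + 1)) := by
            apply mul_le_mul (by linarith) h1 hδ.le (by linarith)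
        _ = ε := by
            field_simp
    linarith
  have h1 := quad (norm_nonneg (V 0)) hc0 hS0 key
  nlinarith

end SUP

open SUP EllAux in
/-- SUP: a pointwise bound at scale `h` -/
theorem stmtSup : StmtSup := by
  obtain ⟨C, hC, hb⟩ := unit_sup
  refine ⟨C, hC, ?_⟩
  intro v z h hv hh
  have hV : ContDiff ℝ ∞ (fun w => v (z + (h : ℂ) * w)) :=
    hv.comp (contDiff_const.add (contDiff_const.mul contDiff_id))
  have h1 := hb _ hV
  simp only [mul_zero, add_zero] at h1
  have hdd : ∀ u, dz (dzb fun w => v (z + (h : ℂ) * w)) u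
      = (h : ℂ) ^ 2 * dz (dzb v) (z + (h : ℂ) * u) := by
    intro u
    have e1 : (dzb fun w => v (z + (h : ℂ) * w)) = fun w => (h : ℂ) * dzb v (z + (h : ℂ) * w) := by
      funext w
      exact (dz_scale isOpen_univ hv.contDiffOn z h (Set.mem_univ _)).2
    have hdv := contDiff_dzb hv
    have e2 : DifferentiableAt ℝ (fun w => dzb v (z + (h : ℂ) * w)) u := by
      have : ContDiff ℝ ∞ (fun w => dzb v (z + (h : ℂ) * w)) :=
        hdv.comp (contDiff_const.add (contDiff_const.mul contDiff_id))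
      exact this.differentiable (by simp) u
    rw [e1, dz_const_mul _ e2, (dz_scale isOpen_univ hdv.contDiffOn z h (Set.mem_univ _)).1]
    ring
  set G : ℂ → ℝ := fun w => ‖v w‖ ^ 2 + ‖(h : ℂ) ^ 2 * dz (dzb v) w‖ ^ 2 with hG
  have hGc : Continuous G := by
    have h1 : Continuous v := hv.continuous
    have h2 : Continuous (dz (dzb v)) := (contDiff_dz (contDiff_dzb hv)).continuous
    fun_prop
  have hG0 : ∀ w, 0 ≤ G w := fun w => by positivity
  have h2 : ∫ u in Metric.closedBall (0 : ℂ) 1, (‖v (z + (h : ℂ) * u)‖ ^ 2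
      + ‖dz (dzb fun w => v (z + (h : ℂ) * w)) u‖ ^ 2)
      = 1 / h ^ 2 * ∫ w in Metric.closedBall z h, G w := by
    rw [← integral_indicator measurableSet_closedBall, ← integral_indicator measurableSet_closedBall]
    have e3 : ∀ u : ℂ, (Metric.closedBall (0 : ℂ) 1).indicator (fun u => ‖v (z + (h : ℂ) * u)‖ ^ 2
        + ‖dz (dzb fun w => v (z + (h : ℂ) * w)) u‖ ^ 2) u
        = (fun w => (Metric.closedBall z h).indicator G (z + w)) (h • u) := by
      intro u
      simp only [Complex.real_smul]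
      by_cases hu : u ∈ Metric.closedBall (0 : ℂ) 1
      · rw [Set.indicator_of_mem hu]
        have hm : z + (h : ℂ) * u ∈ Metric.closedBall z h := by
          rw [Metric.mem_closedBall, dist_eq_norm, add_sub_cancel_left, norm_mul,
            Complex.norm_real, Real.norm_of_nonneg hh.le]
          rw [mem_closedBall_zero_iff] at hu
          nlinarith
        rw [Set.indicator_of_mem hm, hdd]
      · rw [Set.indicator_of_notMem hu]
        have hm : z + (h : ℂ) * u ∉ Metric.closedBall z h := by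
          rw [Metric.mem_closedBall, dist_eq_norm, add_sub_cancel_left, norm_mul,
            Complex.norm_real, Real.norm_of_nonneg hh.le]
          rw [mem_closedBall_zero_iff] at hu
          push Not at hu ⊢
          nlinarith
        rw [Set.indicator_of_notMem hm]
    simp only [e3]
    rw [Measure.integral_comp_smul (volume : Measure ℂ)
      (fun w => (Metric.closedBall z h).indicator G (z + w)) h]
    rw [integral_add_left_eq_self (μ := (volume : Measure ℂ)) (Metric.closedBall z h |>.indicator G) z]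
    rw [Complex.finrank_real_complex, abs_of_nonneg (by positivity), smul_eq_mul, one_div]
  rw [h2] at h1
  refine h1.trans ?_
  have h3 : ∫ w in Metric.closedBall z h, G w ≤ ∫ w in Metric.closedBall z (3 * h), G w := by
    refine setIntegral_mono_set ?_ (Filter.Eventually.of_forall fun w => hG0 w) ?_
    · exact hGc.continuousOn.integrableOn_compact (isCompact_closedBall _ _)
    · exact (Metric.closedBall_subset_closedBall (by linarith)).eventuallyLE
  have h4 : C * (1 / h ^ 2 * ∫ w in Metric.closedBall z h, G w)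
      = C / h ^ 2 * ∫ w in Metric.closedBall z h, G w := by ring
  rw [h4]
  exact mul_le_mul_of_nonneg_left h3 (by positivity)

end

end QJ
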