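import Pool.Agent.QJ.Stmts
import Pool.Agent.QJ.Dom

/-!
TRI: products of jets form triples.
-/

open Complex MeasureTheory Filter Topology Set
open scoped ContDiff

namespace QJ

open QE

noncomputable section

namespace TRI

variable {V : Set ℂ} {σ : ℂ → ℝ} {h : ℕ → ℝ} {φ : ℕ → ℂ → ℂ}

lemma l2z_congr {u v : ℕ → ℂ → ℂ} (hu : L2z V u) (he : ∀ n, ∀ z ∈ V, v n z = u n z) :
    L2z V v := by
  intro K hK hKV
  refine (hu K hK hKV).congr fun n => ?_
  refine setIntegral_congr_fun hK.measurableSet fun z hz => ?_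
  rw [he n z (hKV hz)]

/-- the raising operator kills the constants which occur -/
lemma D_P (hσ : ContDiff ℝ ∞ σ) (a b : ℤ) (z : ℂ) : D σ (a + b) (fun _ => P a b) z = 0 := by
  by_cases hab : a + b = 0
  · rw [hab]
    exact D_zero_const hσ _ z
  · have h1 : P a b = 0 := if_neg hab
    rw [h1, D_eq hσ _ (differentiableAt_const (0 : ℂ)), dz_const]
    simp

lemma Db_P (hσ : ContDiff ℝ ∞ σ) (a b : ℤ) (z : ℂ) : Db σ (a + b) (fun _ => P a b) z = 0 := by
  by_cases hab : a + b = 0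
  · rw [hab]
    exact Db_zero_const hσ _ z
  · have h1 : P a b = 0 := if_neg hab
    rw [h1, Db_eq hσ _ (differentiableAt_const (0 : ℂ)), dzb_const]
    simp

lemma D_prod (hσ : ContDiff ℝ ∞ σ) (a b : ℤ) {f g : ℂ → ℂ} (hf : ContDiff ℝ ∞ f)
    (hg : ContDiff ℝ ∞ g) (z : ℂ) :
    D σ (a + b) (fun w => f w * g w - P a b) z = D σ a f z * g z + f z * D σ b g z := by
  rw [D_sub hσ _ ((cd_at hf z).fun_mul (cd_at hg z)) (differentiableAt_const _), D_P hσ, sub_zero,
    D_mul hσ a b (cd_at hf z) (cd_at hg z)]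

lemma Db_prod (hσ : ContDiff ℝ ∞ σ) (a b : ℤ) {f g : ℂ → ℂ} (hf : ContDiff ℝ ∞ f)
    (hg : ContDiff ℝ ∞ g) (z : ℂ) :
    Db σ (a + b) (fun w => f w * g w - P a b) z = Db σ a f z * g z + f z * Db σ b g z := by
  rw [Db_sub hσ _ ((cd_at hf z).fun_mul (cd_at hg z)) (differentiableAt_const _), Db_P hσ,
    sub_zero, Db_mul hσ a b (cd_at hf z) (cd_at hg z)]

lemma nul (hL : Loc V σ h φ) (hE : ∀ j, Dom V h φ 1 (E σ h φ j)) (hTwo : StmtTwo) (j m : ℤ) :
    Nul V h φ (fun n z => E σ h φ j n z * E σ h φ m n z - P j m) where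
  smooth n := (((hE j).smooth n).mul ((hE m).smooth n)).sub contDiff_const
  bd := by
    have h1 := (hE j).bq.mul (hE m).bq
    have h2 : Bq V h φ 2 (fun _ _ => -P j m) :=
      Bq.of_fn 2 (b := fun _ => -P j m) continuousOn_const
    have h3 := Bq.add (q := 2) h1 h2
    exact h3
  weak ζ hζ := by
    have h1 := hTwo V σ h φ hL j m ζ hζ
    have h2 : ∀ n, ∫ z, ζ z * (E σ h φ j n z * E σ h φ m n z - P j m) =
        (∫ z, ζ z * (E σ h φ j n z * E σ h φ m n z)) - P j m * ∫ z, ζ z := by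
      intro n
      have i1 : Integrable (fun z => ζ z * (E σ h φ j n z * E σ h φ m n z)) :=
        test_int hζ (((hE j).smooth n).continuous.mul ((hE m).smooth n).continuous)
      have i2 : Integrable (fun z => ζ z * P j m) := test_int hζ continuous_const
      have e1 : (fun z => ζ z * (E σ h φ j n z * E σ h φ m n z - P j m)) =
          fun z => ζ z * (E σ h φ j n z * E σ h φ m n z) - ζ z * P j m := by
        funext z
        ring
      rw [e1, integral_sub i1 i2, integral_mul_const]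
      ring
    simp only [h2]
    have h3 := h1.sub_const (P j m * ∫ z, ζ z)
    rwa [sub_self] at h3

/-- the error of a Leibniz rule -/
lemma err (hInt : StmtInt) (hL : Loc V σ h φ) (hG : Grow V h φ)
    {A1 A2 A3 A4 B1 B2 B3 B4 u : ℕ → ℂ → ℂ} (a1 : Dom V h φ 1 A1) (a2 : Dom V h φ 1 A2)
    (a3 : Dom V h φ 1 A3) (a4 : Dom V h φ 1 A4) (b1 : Dom V h φ 1 B1) (b2 : Dom V h φ 1 B2)
    (b3 : Dom V h φ 1 B3) (b4 : Dom V h φ 1 B4)
    (hu : ∀ n, ∀ z ∈ V, (h n : ℂ) * u n z = (h n : ℂ) ^ 2 *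
      (A1 n z * B1 n z + A2 n z * B2 n z + (A3 n z * B3 n z + A4 n z * B4 n z))) :
    L2z V u := by
  have hR : Dom V h φ 2 (fun n z =>
      A1 n z * B1 n z + A2 n z * B2 n z + (A3 n z * B3 n z + A4 n z * B4 n z)) :=
    Dom.add hL.op (Dom.add hL.op (Dom.mul hL.op a1 b1) (Dom.mul hL.op a2 b2))
      (Dom.add hL.op (Dom.mul hL.op a3 b3) (Dom.mul hL.op a4 b4))
  have h1 := (hInt V h φ _ hL.hpos hL.hlim hL.smφ hG hR.smooth).2.1 hR.bq
  refine l2z_congr h1 fun n z hz => ?_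
  have h2 := hu n z hz
  have h3 : (h n : ℂ) ≠ 0 := by exact_mod_cast (hL.hpos n).ne'
  have h4 : (h n : ℂ) * u n z = (h n : ℂ) * ((h n : ℂ) *
      (A1 n z * B1 n z + A2 n z * B2 n z + (A3 n z * B3 n z + A4 n z * B4 n z))) := by
    rw [h2]
    ring
  exact mul_left_cancel₀ h3 h4

end TRI

open TRI in
theorem stmtTri (hGro : StmtGro) (hInt : StmtInt) (hJetA : StmtJetA) (hTwo : StmtTwo) :
    StmtTri := by
  intro V σ h φ hL j m
  have hG := hGro V σ h φ hL
  have hJ := hJetA V σ h φ hL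
  have hE : ∀ j, Dom V h φ 1 (E σ h φ j) := fun j => (hJ j).1
  refine ⟨nul hL hE hTwo _ _, nul hL hE hTwo _ _, nul hL hE hTwo _ _, ?_, ?_⟩
  · -- the raised pair
    obtain ⟨A1, hA1, e1⟩ := (hJ (j + 1)).2.2
    obtain ⟨A2, hA2, e2⟩ := (hJ (m + 1)).2.2
    obtain ⟨A3, hA3, e3⟩ := (hJ j).2.1
    obtain ⟨A4, hA4, e4⟩ := (hJ m).2.1
    refine err hInt hL hG hA1 (hE (j + 1)) hA3 (hE j) (hE (m + 1)) hA2 (hE m) hA4 ?_
    intro n z hz
    have f1 := e1 n z hz
    have f2 := e2 n z hz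
    have f3 := e3 n z hz
    have f4 := e4 n z hz
    rw [add_sub_cancel_right] at f1 f2
    have k : j + m + 2 = (j + 1) + (m + 1) := by ring
    rw [k, Db_prod hL.sm (j + 1) (m + 1) ((hE (j + 1)).smooth n) ((hE (m + 1)).smooth n),
      D_prod hL.sm j m ((hE j).smooth n) ((hE m).smooth n)]
    linear_combination E σ h φ (m + 1) n z * f1 + E σ h φ (j + 1) n z * f2
      + E σ h φ m n z * f3 + E σ h φ j n z * f4
  · -- the lowered pair
    obtain ⟨A1, hA1, e1⟩ := (hJ (j - 1)).2.1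
    obtain ⟨A2, hA2, e2⟩ := (hJ (m - 1)).2.1
    obtain ⟨A3, hA3, e3⟩ := (hJ j).2.2
    obtain ⟨A4, hA4, e4⟩ := (hJ m).2.2
    refine err hInt hL hG hA1 (hE (j - 1)) hA3 (hE j) (hE (m - 1)) hA2 (hE m) hA4 ?_
    intro n z hz
    have f1 := e1 n z hz
    have f2 := e2 n z hz
    have f3 := e3 n z hz
    have f4 := e4 n z hz
    rw [sub_add_cancel] at f1 f2
    have k : j + m - 2 = (j - 1) + (m - 1) := by ring
    rw [k, D_prod hL.sm (j - 1) (m - 1) ((hE (j - 1)).smooth n) ((hE (m - 1)).smooth n),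
      Db_prod hL.sm j m ((hE j).smooth n) ((hE m).smooth n)]
    linear_combination E σ h φ (m - 1) n z * f1 + E σ h φ (j - 1) n z * f2
      + E σ h φ m n z * f3 + E σ h φ j n z * f4

end

end QJ
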