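import Pool.Agent.QJ.Stmts2

/-!
Cubic and quartic statistics of quantum ergodic eigenfunctions: the derivatives of the local wave at
the origin.
-/

open MeasureTheory Filter Topology Set UpperHalfPlane MatrixGroups
open scoped ContDiff

namespace QJ

open QE

noncomputable section

namespace WEXP

/-- iterated Wirtinger derivatives of functions which agree on an open set -/
theorem iter_congr_on {f g : ℂ → ℂ} {U : Set ℂ} (hU : IsOpen U) (h : ∀ z ∈ U, f z = g z) (a b : ℕ) :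
    ∀ z ∈ U, dz^[a] (dzb^[b] f) z = dz^[a] (dzb^[b] g) z := by
  have hb : ∀ b : ℕ, ∀ z ∈ U, dzb^[b] f z = dzb^[b] g z := by
    intro b
    induction b with
    | zero => exact h
    | succ b ih =>
      intro z hz
      rw [Function.iterate_succ_apply', Function.iterate_succ_apply']
      exact dzb_congr_on hU ih hz
  induction a with
  | zero => exact hb b
  | succ a ih =>
    intro z hz
    rw [Function.iterate_succ_apply', Function.iterate_succ_apply']
    exact dz_congr_on hU ih hz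

theorem wave_eq {ρ φ : ℍ → ℝ} {m : ℝ} (hm : 0 < m) (x : ℂ) (θ : ℝ) {z : ℂ} (hz : 0 < z.im)
    (hx : ‖x / ((m * Real.exp (ρ (ofComplex z)) : ℝ) : ℂ)‖ < 1) {c d : ℂ}
    (hc : c = z.im * ((1 / m : ℝ) * (Real.exp (-ρ (ofComplex z)) : ℝ)) * uu θ ^ 2)
    (hd : d = ((1 / m : ℝ) * (Real.exp (-ρ (ofComplex z)) : ℝ)) * uu θ * Real.sin θ) :
    Berry.rWave ρ φ m x (ofComplex z, θ) = φ (ofComplex (z + c * x / (1 + d * x))) ∧
      0 < (z + c * x / (1 + d * x)).im := by
  unfold Berry.rWave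
  simp only
  set t : ℂ := x / ((m * Real.exp (ρ (ofComplex z)) : ℝ) : ℂ) with ht
  have e1 := frame_coe (ofComplex z) θ hx
  have e2 : ((ofComplex z : ℍ) : ℂ) = z := by rw [ofComplex_apply_of_im_pos hz]
  have e3 : (ofComplex z : ℍ).im = z.im := by rw [ofComplex_apply_of_im_pos hz]; rfl
  have e4 : ((Berry.frame (ofComplex z, θ) • (ofComplex (Complex.I + t) : ℍ) : ℍ) : ℂ)
      = z + c * x / (1 + d * x) := by
    rw [e1, e2, e3, hc, hd, ht]
    set E : ℂ := ((Real.exp (ρ (ofComplex z)) : ℝ) : ℂ) with hE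
    have hE0 : E ≠ 0 := by rw [hE]; exact_mod_cast Real.exp_ne_zero _
    have hEi : ((Real.exp (-ρ (ofComplex z)) : ℝ) : ℂ) = E⁻¹ := by
      rw [Real.exp_neg, Complex.ofReal_inv]
    have hm0 : (m : ℂ) ≠ 0 := by exact_mod_cast hm.ne'
    have e5 : ((m * Real.exp (ρ (ofComplex z)) : ℝ) : ℂ) = (m : ℂ) * E := by
      rw [Complex.ofReal_mul]
    have e6 : ((1 / m : ℝ) : ℂ) = (m : ℂ)⁻¹ := by
      rw [one_div, Complex.ofReal_inv]
    rw [e5, e6, hEi]
    have e7 : x / ((m : ℂ) * E) = (m : ℂ)⁻¹ * E⁻¹ * x := by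
      rw [div_eq_mul_inv, mul_inv]; ring
    rw [e7]
    have e8 : (m : ℂ)⁻¹ * E⁻¹ * x * uu θ * (Real.sin θ : ℂ)
        = (m : ℂ)⁻¹ * E⁻¹ * uu θ * (Real.sin θ : ℂ) * x := by ring
    rw [e8]
    ring
  constructor
  · rw [← e4, ofComplex_apply]
  · rw [← e4]
    exact (Berry.frame (ofComplex z, θ) • (ofComplex (Complex.I + t) : ℍ)).im_pos

end WEXP

open WEXP in
theorem stmtWexp (hComp : StmtComp) (hIter : StmtIter) : StmtWexp := by
  intro ρ φ m hm hφ z hz θ k v c d hc hd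
  set R : ℝ := m * Real.exp (ρ (ofComplex z)) with hR
  have hR0 : 0 < R := by positivity
  set f : ℂ → ℝ := fun w => φ (ofComplex w) with hf
  set H : Set ℂ := {w : ℂ | 0 < w.im} with hH
  have hHo : IsOpen H := isOpen_lt continuous_const Complex.continuous_im
  set F : ℂ → ℝ := fun x => Berry.rWave ρ φ m x (ofComplex z, θ) with hF
  set B : Set ℂ := Metric.ball 0 R with hB
  have hBo : IsOpen B := Metric.isOpen_ball
  have h0B : (0 : ℂ) ∈ B := Metric.mem_ball_self hR0
  have hnorm : ∀ x ∈ B, ‖x / ((R : ℝ) : ℂ)‖ < 1 := by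
    intro x hx
    rw [norm_div, Complex.norm_real, Real.norm_eq_abs, abs_of_pos hR0, div_lt_one hR0]
    exact mem_ball_zero_iff.mp hx
  have heq : ∀ x ∈ B, F x = f (z + c * x / (1 + d * x)) := fun x hx =>
    (wave_eq hm x θ hz (hnorm x hx) hc hd).1
  have hmaps : ∀ x ∈ B, z + c * x / (1 + d * x) ∈ H := fun x hx =>
    (wave_eq (φ := φ) hm x θ hz (hnorm x hx) hc hd).2
  have hden : ∀ x ∈ B, 1 + d * x ≠ 0 := by
    intro x hx h0
    have h1 : ‖d * x‖ < 1 := by
      have h2 : d * x = x / ((R : ℝ) : ℂ) * uu θ * Real.sin θ := by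
        rw [hd, hR, Real.exp_neg]
        push_cast
        have : (m : ℂ) ≠ 0 := by exact_mod_cast hm.ne'
        have := Complex.exp_ne_zero (ρ (ofComplex z) : ℂ)
        field_simp
      rw [h2, norm_mul, norm_mul, norm_uu, mul_one]
      have h3 := hnorm x hx
      have h4 : ‖((Real.sin θ : ℝ) : ℂ)‖ ≤ 1 := by
        rw [Complex.norm_real, Real.norm_eq_abs]
        exact Real.abs_sin_le_one θ
      calc ‖x / ((R : ℝ) : ℂ)‖ * ‖((Real.sin θ : ℝ) : ℂ)‖ ≤ ‖x / ((R : ℝ) : ℂ)‖ * 1 :=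
            mul_le_mul_of_nonneg_left h4 (norm_nonneg _)
        _ < 1 := by rw [mul_one]; exact h3
    have h5 : d * x = -1 := by linear_combination h0
    rw [h5] at h1
    simp at h1
  have hp : ContDiffOn ℝ ∞ (fun x : ℂ => z + c * x / (1 + d * x)) B := by
    have h1 : ContDiffOn ℝ ∞ (fun x : ℂ => c * x) B := contDiffOn_const.mul contDiffOn_id
    have h2 : ContDiffOn ℝ ∞ (fun x : ℂ => (1 + d * x)⁻¹) B :=
      (contDiffOn_const.add (contDiffOn_const.mul contDiffOn_id)).inv hden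
    have h3 := (contDiffOn_const (c := z)).add (h1.mul h2)
    refine h3.congr fun x _ => ?_
    rw [div_eq_mul_inv]
  have hFs : ContDiffOn ℝ ∞ F B := (hφ.comp hp hmaps).congr heq
  have h1 := hIter B F hBo h0B hFs k v
  rw [h1]
  refine Finset.sum_congr rfl fun a _ => ?_
  congr 1
  have h2 := iter_congr_on hBo (f := fun w => (F w : ℂ))
    (g := fun x => (fun w : ℂ => ((f w : ℝ) : ℂ)) (z + c * x / (1 + d * x)))
    (fun x hx => by
      change ((F x : ℝ) : ℂ) = _
      rw [heq x hx]) a (k - a) 0 h0B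
  rw [h2]
  have hfC : ContDiffOn ℝ ∞ (fun w : ℂ => ((f w : ℝ) : ℂ)) H :=
    Complex.ofRealCLM.contDiff.comp_contDiffOn hφ
  exact hComp H (fun w : ℂ => ((f w : ℝ) : ℂ)) z c d hHo hz hfC a (k - a)

end

end QJ
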