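import Pool.Agent.QJ.VIR
import Pool.Agent.QJ.CAC
import Pool.Agent.QJ.MOR
import Pool.Agent.QJ.SUP
import Pool.Agent.QJ.PTW
import Pool.Agent.QJ.GRO
import Pool.Agent.QJ.CAU
import Pool.Agent.QJ.HOL
import Pool.Agent.QJ.INT
import Pool.Agent.QJ.IBP
import Pool.Agent.QJ.JETA
import Pool.Agent.QJ.JETB
import Pool.Agent.QJ.TWO
import Pool.Agent.QJ.ONE
import Pool.Agent.QJ.POT
import Pool.Agent.QJ.NID
import Pool.Agent.QJ.NULF
import Pool.Agent.QJ.TRI
import Pool.Agent.QJ.SEC
import Pool.Agent.QJ.IFO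
import Pool.Agent.QJ.ALF
import Pool.Agent.QJ.ALT
import Pool.Agent.QJ.SUM
import Pool.Agent.QJ.FOU
import Pool.Agent.QJ.CUB
import Pool.Agent.QJ.LW
import Pool.Agent.QJ.LWE
import Pool.Agent.QJ.COMP
import Pool.Agent.QJ.ITER
import Pool.Agent.QJ.PWT
import Pool.Agent.QJ.PWF
import Pool.Agent.QJ.WEXP

/-!
The local theorems, assembled.
-/

namespace QJ

theorem ptw : StmtPtw := stmtPtw stmtSup
theorem mor : StmtMor := stmtMor stmtVir stmtCac
theorem gro : StmtGro := stmtGro mor ptw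
theorem ibp : StmtIbp := stmtIbp stmtInt
theorem jetB : StmtJetB := stmtJetB stmtJetA
theorem two : StmtTwo := stmtTwo gro stmtInt ibp stmtJetA jetB
theorem one : StmtOne := stmtOne gro stmtInt ibp stmtJetA
theorem pot : StmtPot := stmtPot stmtCau stmtHol stmtInt
theorem nul : StmtNul := stmtNul stmtNid
theorem tri : StmtTri := stmtTri gro stmtInt stmtJetA two
theorem sec : StmtSec := stmtSec gro tri pot nul two
theorem ifo : StmtIfo := stmtIfo gro stmtInt ibp stmtJetA
theorem fou : StmtFou := stmtFou sec ifo stmtAlf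
theorem cub : StmtCub := stmtCub gro two ifo stmtAlt fou stmtSum
theorem lw : StmtLW := stmtLW gro stmtInt stmtJetA jetB two one cub fou
theorem lwe : StmtLWE := stmtLWE gro stmtInt
theorem wexp : StmtWexp := stmtWexp stmtComp stmtIter
theorem pwt : StmtPwt := stmtPwt stmtIter
theorem pwf : StmtPwf := stmtPwf stmtIter

end QJ

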