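import Pool.Agent.QJ.Stmts2

/-!
Cubic and quartic statistics of quantum ergodic eigenfunctions: the final theorem.
-/

open MeasureTheory Filter Topology Set UpperHalfPlane MatrixGroups
open scoped ContDiff

namespace QJ

open QE

noncomputable section

/-- the final theorem -/
theorem stmtFin (hTest : StmtTest) (hLocG : StmtLocG) (hInvg : StmtInvg) (hFub : StmtFub) :
    StmtFin := by
  intro Γ _ D hDm hD hK ρ hρ hρΓ φ m hφ hs hq
  have hρc : Continuous ρ := QE.continuous_of_smooth hρ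
  have geo : Berry.Geo Γ ρ D := (Berry.surf_of_cocompact hD hDm hK hρc hρΓ hφ).geo
  obtain ⟨ζ, hζ1, hζ2, hζ3, _, hζ5⟩ := hTest Γ ρ D geo hρ hK
  have h1 : ∫ w, ζ w = 1 := by
    have h2 := hζ5 (fun _ => 1) continuous_const (fun _ _ _ => rfl)
    have : IsProbabilityMeasure (ProbabilityTheory.cond (Berry.area ρ) D) :=
      ProbabilityTheory.cond_isProbabilityMeasure_of_finite (Berry.area_ne_zero geo) (Berry.area_ne_top geo)
    simp only [mul_one] at h2
    rw [← h2]
    simp [Berry.rAvg]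
  obtain ⟨A1, A2, A3, A4⟩ := hLocG Γ ρ φ m hρ hφ hs hq ζ hζ1 hζ2 hζ3
  have hpos : ∀ᶠ n in atTop, 0 < m n := hφ.tendsto.eventually_gt_atTop 0
  have key : ∀ (r : ℕ) (k : Fin r → ℕ) (v : ∀ i, Fin (k i) → ℂ), ∀ᶠ n in atTop,
      ∫ z, ζ z * angJet ρ (φ n) (m n) k v (ofComplex z) =
        ∫ p, jetProd k v (fun x => Berry.rWave ρ (φ n) (m n) x p) ∂(Berry.rFrameProb ρ D) := by
    intro r k v
    filter_upwards [hpos] with n hn
    obtain ⟨_, hc, hi⟩ := hInvg Γ ρ (φ n) (m n) hn hρc hρΓ (hφ.invariant n) (hs n) r k v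
    rw [hFub Γ ρ (φ n) D (m n) hn hρc geo hK (hφ.invariant n) (hs n) r k v, hζ5 _ hc hi]
  refine ⟨fun k v => (A1 k v).congr' (key 1 k v), fun k v => ?_,
    fun k v => (A3 k v).congr' (key 3 k v), fun k v => ?_⟩
  · have h3 := (A2 k v).congr' (key 2 k v)
    rwa [h1, mul_one] at h3
  · refine (A4 k v).congr' ?_
    filter_upwards [key 4 k v] with n hn
    have h4 : Berry.rAvg ρ D (fun z => φ n z ^ 4) = ∫ z, ζ z * φ n (ofComplex z) ^ 4 :=
      hζ5 (fun z => φ n z ^ 4) ((QE.continuous_of_smooth (hs n)).pow 4)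
        (fun γ hγ z => by
          show φ n (γ • z) ^ 4 = φ n z ^ 4
          rw [hφ.invariant n γ hγ z])
    rw [hn, h4, h1]
    ring

end

end QJ
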