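import Pool.Agent.QJ.Stmts2

/-!
QJ, step FUB: the mean over points and frames is the mean over the points of the angular mean.
-/

open MeasureTheory Filter Topology Set UpperHalfPlane MatrixGroups
open scoped ContDiff

namespace QJ

open QE

noncomputable section

namespace FUB

variable {Γ : Subgroup SL(2, ℝ)} {ρ φ : ℍ → ℝ}

/-- the local wave at `γ z` -/
theorem wave_shift (hφ : ∀ γ ∈ Γ, ∀ z, φ (γ • z) = φ z) (hρ : ∀ γ ∈ Γ, ∀ z, ρ (γ • z) = ρ z)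
    (m : ℝ) {γ : SL(2, ℝ)} (hγ : γ ∈ Γ) (z : ℍ) : ∃ α : ℝ, ∀ θ : ℝ,
    (fun x => Berry.rWave ρ φ m x (γ • z, α + θ)) = fun x => Berry.rWave ρ φ m x (z, θ) := by
  obtain ⟨α, hα⟩ := Berry.mul_frame γ z
  refine ⟨α, fun θ => ?_⟩
  funext x
  unfold Berry.rWave
  simp only
  rw [← hα θ, mul_smul, hφ γ hγ, hρ γ hγ]

theorem wave_periodic (m : ℝ) (z : ℍ) (θ : ℝ) :
    (fun x => Berry.rWave ρ φ m x (z, θ + 2 * Real.pi)) =
      fun x => Berry.rWave ρ φ m x (z, θ) := by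
  funext x
  unfold Berry.rWave
  simp only [Berry.frame_periodic]

/-- boundedness -/
theorem bounded (hφ : ∀ γ ∈ Γ, ∀ z, φ (γ • z) = φ z) (hρ : ∀ γ ∈ Γ, ∀ z, ρ (γ • z) = ρ z)
    (hK : ∃ K : Set ℍ, IsCompact K ∧ ∀ z, ∃ γ ∈ Γ, γ • z ∈ K) (m : ℝ) {r : ℕ} (k : Fin r → ℕ)
    (v : ∀ i, Fin (k i) → ℂ)
    (hc : Continuous (fun p : ℍ × ℝ => jetProd k v (fun x => Berry.rWave ρ φ m x p))) :
    ∃ C : ℝ, ∀ p : ℍ × ℝ, ‖jetProd k v (fun x => Berry.rWave ρ φ m x p)‖ ≤ C := by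
  obtain ⟨K, hK, hcov⟩ := hK
  obtain ⟨C, hC⟩ := (hK.prod (isCompact_Icc (a := (0 : ℝ)) (b := 2 * Real.pi))).exists_bound_of_continuousOn
    hc.continuousOn
  refine ⟨C, fun ⟨z, θ⟩ => ?_⟩
  obtain ⟨γ, hγ, hz⟩ := hcov z
  obtain ⟨α, hα⟩ := wave_shift hφ hρ m hγ z
  have hper : Function.Periodic
      (fun t : ℝ => jetProd k v (fun x => Berry.rWave ρ φ m x (γ • z, t))) (2 * Real.pi) := by
    intro t
    simp only [wave_periodic]
  obtain ⟨t, ht, he⟩ := hper.exists_mem_Ico₀ Real.two_pi_pos (α + θ)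
  rw [← hα θ, he]
  exact hC (γ • z, t) ⟨hz, ht.1, ht.2.le⟩

end FUB

open FUB in
/-- FUB -/
theorem stmtFub (hInvg : StmtInvg) : StmtFub := by
  intro Γ _ ρ φ D m hm hρc hg hK hφ hφs r k v
  obtain ⟨hc, _, _⟩ := hInvg Γ ρ φ m hm hρc hg.inv hφ hφs r k v
  obtain ⟨C, hC⟩ := bounded hφ hg.inv hK m k v hc
  have hprob : IsProbabilityMeasure (Berry.rFrameProb ρ D) := Berry.rFrameProb_isProb hg
  have hint : Integrable (fun p : ℍ × ℝ => jetProd k v (fun x => Berry.rWave ρ φ m x p))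
      (Berry.rFrameProb ρ D) :=
    Integrable.of_bound hc.aestronglyMeasurable C (Eventually.of_forall hC)
  have h1 : IsProbabilityMeasure (ProbabilityTheory.cond (Berry.area ρ) D) :=
    ProbabilityTheory.cond_isProbabilityMeasure_of_finite (Berry.area_ne_zero hg)
      (Berry.area_ne_top hg)
  have h2 := Berry.angle_prob
  unfold Berry.rFrameProb at hint ⊢
  rw [integral_prod _ hint]
  rfl

end

end QJ
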