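import Pool.Agent.QJ.Stmts2

/-!
INVG: the angular means of products of derivatives of the local waves are continuous and invariant.
-/

open MeasureTheory Filter Topology Set UpperHalfPlane MatrixGroups
open scoped ContDiff

namespace QJ

open QE

namespace INVG

lemma smooth_iter (a b : ℕ) {U : Set ℂ} (hU : IsOpen U) {f : ℂ → ℂ} (hf : ContDiffOn ℝ ∞ f U) :
    ContDiffOn ℝ ∞ (dz^[a] (dzb^[b] f)) U := by
  have h1 : ContDiffOn ℝ ∞ (dzb^[b] f) U := by
    induction b with
    | zero => simpa using hf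
    | succ b ih => rw [Function.iterate_succ_apply']; exact contDiffOn_dzb hU ih
  induction a with
  | zero => simpa using h1
  | succ a ih => rw [Function.iterate_succ_apply']; exact contDiffOn_dz hU ih

lemma isOpen_half : IsOpen {w : ℂ | 0 < w.im} :=
  isOpen_lt continuous_const Complex.continuous_im

lemma comp_coe_continuous {F : ℂ → ℂ} (hF : ContinuousOn F {w | 0 < w.im}) :
    Continuous (fun p : ℍ × ℝ => F (p.1 : ℂ)) :=
  hF.comp_continuous (UpperHalfPlane.continuous_coe.comp continuous_fst) (fun p => p.1.im_pos)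

/-- the local wave at the translated point -/
lemma rWave_smul {Γ : Subgroup SL(2, ℝ)} {ρ φ : ℍ → ℝ} {m : ℝ}
    (hρ : ∀ γ ∈ Γ, ∀ z, ρ (γ • z) = ρ z) (hφ : ∀ γ ∈ Γ, ∀ z, φ (γ • z) = φ z) {γ : SL(2, ℝ)}
    (hγ : γ ∈ Γ) {z : ℍ} {α : ℝ} (hα : ∀ θ, γ * Berry.frame (z, θ) = Berry.frame (γ • z, α + θ))
    (x : ℂ) (θ : ℝ) :
    Berry.rWave ρ φ m x (γ • z, α + θ) = Berry.rWave ρ φ m x (z, θ) := by
  unfold Berry.rWave
  simp only
  rw [← hα θ, mul_smul, hφ γ hγ, hρ γ hγ]

lemma rWave_periodic {ρ φ : ℍ → ℝ} {m : ℝ} (z : ℍ) (x : ℂ) (θ : ℝ) :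
    Berry.rWave ρ φ m x (z, θ + 2 * Real.pi) = Berry.rWave ρ φ m x (z, θ) := by
  unfold Berry.rWave
  simp only [Berry.frame_periodic]

end INVG

open INVG

theorem stmtInvg (hWexp : StmtWexp) : StmtInvg := by
  intro Γ ρ φ m hm hρ hρi hφi hφ r k v
  have hφc : ContDiffOn ℝ ∞ (fun w : ℂ => (φ (ofComplex w) : ℂ)) {w | 0 < w.im} :=
    Complex.ofRealCLM.contDiff.comp_contDiffOn hφ
  have hc : Continuous (fun p : ℍ × ℝ => jetProd k v (fun x => Berry.rWave ρ φ m x p)) := by
    unfold jetProd
    refine continuous_finsetProd _ fun i _ => ?_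
    set c : ℍ × ℝ → ℂ := fun p => ((p.1 : ℂ).im : ℂ) * (((1 / m : ℝ) : ℂ)
      * ((Real.exp (-ρ p.1) : ℝ) : ℂ)) * uu p.2 ^ 2 with hcdef
    set d : ℍ × ℝ → ℂ := fun p => (((1 / m : ℝ) : ℂ) * ((Real.exp (-ρ p.1) : ℝ) : ℂ)) * uu p.2
      * (Real.sin p.2 : ℂ) with hddef
    have hec : Continuous fun p : ℍ × ℝ => ((Real.exp (-ρ p.1) : ℝ) : ℂ) :=
      Complex.continuous_ofReal.comp (Real.continuous_exp.comp (hρ.comp continuous_fst).neg)
    have huc : Continuous fun p : ℍ × ℝ => uu p.2 := QE.continuous_uu.comp continuous_snd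
    have hcc : Continuous c := by
      refine ((Complex.continuous_ofReal.comp (Complex.continuous_im.comp
        (UpperHalfPlane.continuous_coe.comp continuous_fst))).mul
          (continuous_const.mul hec)).mul (huc.pow 2)
    have hdc : Continuous d := by
      refine ((continuous_const.mul hec).mul huc).mul ?_
      exact Complex.continuous_ofReal.comp (Real.continuous_sin.comp continuous_snd)
    have e : (fun p : ℍ × ℝ =>
        ((iteratedFDeriv ℝ (k i) (fun x => Berry.rWave ρ φ m x p) 0 (v i) : ℝ) : ℂ))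
        = fun p => ∑ a ∈ Finset.range (k i + 1), sc (v i) a *
          ∑ i' ∈ Finset.range (a + 1), ∑ j ∈ Finset.range (k i - a + 1),
            ((lah a i' * lah (k i - a) j : ℝ) : ℂ) * (c p ^ i' * d p ^ (a - i'))
              * ((starRingEnd ℂ) (c p) ^ j * (starRingEnd ℂ) (d p) ^ (k i - a - j))
              * dz^[i'] (dzb^[j] (fun w : ℂ => (φ (ofComplex w) : ℂ))) (p.1 : ℂ) := by
      funext p
      have h := hWexp ρ φ m hm hφ (p.1 : ℂ) p.1.im_pos p.2 (k i) (v i) (c p) (d p)
        (by simp only [hcdef, ofComplex_apply]) (by simp only [hddef, ofComplex_apply])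
      rw [ofComplex_apply] at h
      exact h
    have h1 : Continuous (fun p : ℍ × ℝ =>
        ((iteratedFDeriv ℝ (k i) (fun x => Berry.rWave ρ φ m x p) 0 (v i) : ℝ) : ℂ)) := by
      rw [e]
      refine continuous_finsetSum _ fun a _ => continuous_const.mul ?_
      refine continuous_finsetSum _ fun i' _ => continuous_finsetSum _ fun j _ => ?_
      refine ((continuous_const.mul ((hcc.pow _).mul (hdc.pow _))).mul ?_).mul ?_
      · exact ((Complex.continuous_conj.comp hcc).pow _).mul
          ((Complex.continuous_conj.comp hdc).pow _)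
      · exact comp_coe_continuous (smooth_iter i' j isOpen_half hφc).continuousOn
    have h2 := Complex.continuous_re.comp h1
    simpa [Function.comp_def] using h2
  refine ⟨hc, ?_, ?_⟩
  · unfold angJet
    change Continuous fun z => ∫ θ, jetProd k v (fun x => Berry.rWave ρ φ m x (z, θ)) ∂ang
    simp only [ang_int, smul_eq_mul]
    refine continuous_const.mul ?_
    exact intervalIntegral.continuous_parametric_intervalIntegral_of_continuous' hc _ _
  · intro γ hγ z
    change ∫ θ, jetProd k v (fun x => Berry.rWave ρ φ m x (γ • z, θ)) ∂ang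
      = ∫ θ, jetProd k v (fun x => Berry.rWave ρ φ m x (z, θ)) ∂ang
    obtain ⟨α, hα⟩ := Berry.mul_frame γ z
    have hper : Function.Periodic (fun θ => jetProd k v
        (fun x => Berry.rWave ρ φ m x (γ • z, θ))) (2 * Real.pi) := by
      intro θ
      simp only [rWave_periodic]
    rw [← ang_shift hper α]
    simp only [rWave_smul hρi hφi hγ hα]

end QJ
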