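import Pool.Agent.QJ.Stmts2

/-!
The local theorem for the local waves.
-/

open MeasureTheory Filter Topology Set UpperHalfPlane MatrixGroups
open scoped ContDiff

namespace QJ

open QE

noncomputable section

namespace LOCG

/-- the sum over a product of `n + 1` sets -/
theorem sum_cons {n : ℕ} (s : Fin (n + 1) → Finset ℕ) (F : (Fin (n + 1) → ℕ) → ℂ) :
    ∑ a ∈ Fintype.piFinset s, F a
      = ∑ x ∈ s 0, ∑ b ∈ Fintype.piFinset (fun i : Fin n => s i.succ), F (Fin.cons x b) := by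
  rw [← Finset.sum_product']
  refine Finset.sum_nbij' (fun a => (a 0, fun i => a i.succ)) (fun p => Fin.cons p.1 p.2) ?_ ?_ ?_ ?_ ?_
  · intro a ha
    rw [Fintype.mem_piFinset] at ha
    rw [Finset.mem_product, Fintype.mem_piFinset]
    exact ⟨ha 0, fun i => ha i.succ⟩
  · rintro ⟨x, b⟩ hp
    rw [Finset.mem_product, Fintype.mem_piFinset] at hp
    rw [Fintype.mem_piFinset]
    intro i
    refine Fin.cases ?_ (fun j => ?_) i
    · simpa using hp.1
    · simpa using hp.2 j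
  · intro a _
    exact Fin.cons_self_tail a
  · rintro ⟨x, b⟩ _
    simp
  · intro a _
    rw [show (Fin.cons (a 0) fun i => a i.succ : Fin (n + 1) → ℕ) = a from Fin.cons_self_tail a]

theorem sum_nil (s : Fin 0 → Finset ℕ) (F : (Fin 0 → ℕ) → ℂ) :
    ∑ a ∈ Fintype.piFinset s, F a = F ![] := by
  have h1 : Fintype.piFinset s = {![]} := by
    ext a
    simp only [Fintype.mem_piFinset, Finset.mem_singleton]
    exact ⟨fun _ => Subsingleton.elim _ _, fun _ i => i.elim0⟩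
  rw [h1, Finset.sum_singleton]

theorem sum_two (s : Fin 2 → Finset ℕ) (F : (Fin 2 → ℕ) → ℂ) :
    ∑ a ∈ Fintype.piFinset s, F a = ∑ x ∈ s 0, ∑ y ∈ s 1, F ![x, y] := by
  rw [sum_cons]
  refine Finset.sum_congr rfl fun x _ => ?_
  rw [sum_cons]
  refine Finset.sum_congr rfl fun y _ => ?_
  rw [sum_nil]
  rfl

theorem sum_four (s : Fin 4 → Finset ℕ) (F : (Fin 4 → ℕ) → ℂ) :
    ∑ a ∈ Fintype.piFinset s, F a
      = ∑ x ∈ s 0, ∑ y ∈ s 1, ∑ z ∈ s 2, ∑ w ∈ s 3, F ![x, y, z, w] := by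
  rw [sum_cons]
  refine Finset.sum_congr rfl fun x _ => ?_
  rw [sum_cons]
  refine Finset.sum_congr rfl fun y _ => ?_
  rw [sum_cons]
  refine Finset.sum_congr rfl fun z _ => ?_
  rw [sum_cons]
  refine Finset.sum_congr rfl fun w _ => ?_
  rw [sum_nil]
  rfl

theorem wk_zero {a b c d : ℤ} (h : a + b + c + d ≠ 0) : wk a b c d = 0 := by
  have key : ∀ x y z w : ℤ, x + y + z + w ≠ 0 → P x y * P z w = 0 := by
    intro x y z w h
    unfold P
    split_ifs with h1 h2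
    · exact absurd (by linarith) h
    · exact mul_zero _
    · exact zero_mul _
    · exact zero_mul _
  unfold wk
  rw [key a b c d h, key a c b d (by intro h1; exact h (by linarith)),
    key a d b c (by intro h1; exact h (by linarith))]
  ring

theorem P_zero {a b : ℤ} (h : a + b ≠ 0) : P a b = 0 := by
  unfold P
  rw [if_neg h]

/-- the factorisation of the Wick sum -/
theorem fac (s : Fin 4 → Finset ℕ) (f : Fin 4 → ℕ → ℂ) (n : Fin 4 → ℕ → ℤ) :
    ∑ x ∈ s 0, ∑ y ∈ s 1, ∑ z ∈ s 2, ∑ w ∈ s 3,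
        (f 0 x * f 1 y * f 2 z * f 3 w) * wk (n 0 x) (n 1 y) (n 2 z) (n 3 w)
      = (∑ x ∈ s 0, ∑ y ∈ s 1, f 0 x * f 1 y * P (n 0 x) (n 1 y))
          * (∑ z ∈ s 2, ∑ w ∈ s 3, f 2 z * f 3 w * P (n 2 z) (n 3 w))
        + (∑ x ∈ s 0, ∑ z ∈ s 2, f 0 x * f 2 z * P (n 0 x) (n 2 z))
          * (∑ y ∈ s 1, ∑ w ∈ s 3, f 1 y * f 3 w * P (n 1 y) (n 3 w))
        + (∑ x ∈ s 0, ∑ w ∈ s 3, f 0 x * f 3 w * P (n 0 x) (n 3 w))
          * (∑ y ∈ s 1, ∑ z ∈ s 2, f 1 y * f 2 z * P (n 1 y) (n 2 z)) := by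
  have e1 : (∑ x ∈ s 0, ∑ y ∈ s 1, f 0 x * f 1 y * P (n 0 x) (n 1 y))
          * (∑ z ∈ s 2, ∑ w ∈ s 3, f 2 z * f 3 w * P (n 2 z) (n 3 w))
      = ∑ x ∈ s 0, ∑ y ∈ s 1, ∑ z ∈ s 2, ∑ w ∈ s 3, (f 0 x * f 1 y * P (n 0 x) (n 1 y))
          * (f 2 z * f 3 w * P (n 2 z) (n 3 w)) := by
    rw [Finset.sum_mul]
    refine Finset.sum_congr rfl fun x _ => ?_
    rw [Finset.sum_mul]
    refine Finset.sum_congr rfl fun y _ => ?_
    rw [Finset.mul_sum]
    refine Finset.sum_congr rfl fun z _ => ?_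
    rw [Finset.mul_sum]
  have e2 : (∑ x ∈ s 0, ∑ z ∈ s 2, f 0 x * f 2 z * P (n 0 x) (n 2 z))
          * (∑ y ∈ s 1, ∑ w ∈ s 3, f 1 y * f 3 w * P (n 1 y) (n 3 w))
      = ∑ x ∈ s 0, ∑ y ∈ s 1, ∑ z ∈ s 2, ∑ w ∈ s 3, (f 0 x * f 2 z * P (n 0 x) (n 2 z))
          * (f 1 y * f 3 w * P (n 1 y) (n 3 w)) := by
    rw [Finset.sum_mul]
    refine Finset.sum_congr rfl fun x _ => ?_
    rw [Finset.mul_sum]
    refine Finset.sum_congr rfl fun y _ => ?_
    rw [Finset.sum_mul]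
    refine Finset.sum_congr rfl fun z _ => ?_
    rw [Finset.mul_sum]
  have e3 : (∑ x ∈ s 0, ∑ w ∈ s 3, f 0 x * f 3 w * P (n 0 x) (n 3 w))
          * (∑ y ∈ s 1, ∑ z ∈ s 2, f 1 y * f 2 z * P (n 1 y) (n 2 z))
      = ∑ x ∈ s 0, ∑ y ∈ s 1, ∑ z ∈ s 2, ∑ w ∈ s 3, (f 0 x * f 3 w * P (n 0 x) (n 3 w))
          * (f 1 y * f 2 z * P (n 1 y) (n 2 z)) := by
    rw [Finset.sum_mul]
    refine Finset.sum_congr rfl fun x _ => ?_
    rw [Finset.mul_sum]
    refine Finset.sum_congr rfl fun y _ => ?_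
    rw [Finset.mul_sum]
    refine Finset.sum_congr rfl fun z _ => ?_
    rw [Finset.sum_mul]
  rw [e1, e2, e3]
  simp only [← Finset.sum_add_distrib]
  refine Finset.sum_congr rfl fun x _ => Finset.sum_congr rfl fun y _ =>
    Finset.sum_congr rfl fun z _ => Finset.sum_congr rfl fun w _ => ?_
  unfold wk
  ring

theorem test_ofReal {ψ : ℂ → ℝ} (hψ : ContDiff ℝ ∞ ψ) (hc : HasCompactSupport ψ) {U : Set ℂ}
    (hs : tsupport ψ ⊆ U) : Test U (fun z => (ψ z : ℂ)) := by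
  have h1 : Function.support (fun z => (ψ z : ℂ)) = Function.support ψ := by
    ext z
    simp [Function.mem_support]
  have h2 : tsupport (fun z => (ψ z : ℂ)) = tsupport ψ := by
    unfold tsupport
    rw [h1]
  refine ⟨Complex.ofRealCLM.contDiff.comp hψ, ?_, ?_⟩
  · rw [HasCompactSupport, h2]
    exact hc
  · rw [h2]
    exact hs

theorem tendsto_real {f : ℕ → ℝ} {c : ℝ} (h : Tendsto (fun n => ((f n : ℝ) : ℂ)) atTop
    (𝓝 ((c : ℝ) : ℂ))) : Tendsto f atTop (𝓝 c) := by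
  have h1 := (Complex.continuous_re.tendsto _).comp h
  simpa [Function.comp_def] using h1

end LOCG

open LOCG in
theorem stmtLocG (hMain : StmtMain) (hLW : StmtLW) (hPwt : StmtPwt) (hPwf : StmtPwf) :
    StmtLocG := by
  classical
  intro Γ ρ φ m hρ hE hs hq ψ hψ hψc hψs
  obtain ⟨N, H⟩ := localQE_of_surface hρ hE hs hq
  have hU : IsOpen {z : ℂ | 0 < z.im} := isOpen_lt continuous_const Complex.continuous_im
  have hm : ∀ n, 0 < m (n + N) := fun n => one_div_pos.mp (H.hpos n)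
  have hg1 : ContDiffOn ℝ ∞ (fun z : ℂ => Real.exp (2 * ρ (ofComplex z)) / z.im ^ 2)
      {z | 0 < z.im} := by
    apply ContDiffOn.div
    · exact Real.contDiff_exp.comp_contDiffOn (contDiffOn_const.mul hρ)
    · exact (Complex.imCLM.contDiff.pow 2).contDiffOn
    · intro z hz
      have hz' : 0 < z.im := hz
      positivity
  have hg2 : ∀ z ∈ {z : ℂ | 0 < z.im}, 0 < Real.exp (2 * ρ (ofComplex z)) / z.im ^ 2 := by
    intro z hz
    have hz' : 0 < z.im := hz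
    positivity
  have hT := test_ofReal hψ hψc hψs
  obtain ⟨L1, L2, L3, L4⟩ := hLW _ _ _ _ hU hg1 hg2 H _ hT
  -- the general principle
  have gen : ∀ (r : ℕ) (k : Fin r → ℕ) (v : ∀ i, Fin (k i) → ℂ) (L : (Fin r → ℕ) → ℕ → ℂ),
      r ≤ 4 → (∀ a : Fin r → ℕ, ∑ i, ((a i : ℤ) - (k i - a i : ℕ)) = 0 →
        Tendsto (fun n => (∫ z, (ψ z : ℂ) * ∏ i,
          Wg (fun z => Real.exp (2 * ρ (ofComplex z)) / z.im ^ 2) (fun n => 1 / m (n + N))
            (fun n z => (φ (n + N) (ofComplex z) : ℂ)) (a i) (k i - a i) n z) - L a n)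
          atTop (𝓝 0)) →
      Tendsto (fun n => ((∫ z, ψ z * angJet ρ (φ (n + N)) (m (n + N)) k v (ofComplex z) : ℝ) : ℂ)
        - ∑ a ∈ Fintype.piFinset fun i => Finset.range (k i + 1),
          if ∑ i, ((a i : ℤ) - (k i - a i : ℕ)) = 0 then (∏ i, sc (v i) (a i)) * L a n else 0)
        atTop (𝓝 0) := by
    intro r k v L hr hL
    have h1 := hMain ρ (fun n => φ (n + N)) (fun n => m (n + N)) hρ hm (fun n => hs _) H r k v hr ψ
      hψ hψc hψs
    have h2 : Tendsto (fun n => ∑ a ∈ Fintype.piFinset fun i => Finset.range (k i + 1),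
        if ∑ i, ((a i : ℤ) - (k i - a i : ℕ)) = 0 then (∏ i, sc (v i) (a i)) *
          ((∫ z, (ψ z : ℂ) * ∏ i,
          Wg (fun z => Real.exp (2 * ρ (ofComplex z)) / z.im ^ 2) (fun n => 1 / m (n + N))
            (fun n z => (φ (n + N) (ofComplex z) : ℂ)) (a i) (k i - a i) n z) - L a n) else 0)
        atTop (𝓝 0) := by
      have h3 := tendsto_finsetSum (Fintype.piFinset fun i => Finset.range (k i + 1))
        (f := fun a n => if ∑ i, ((a i : ℤ) - (k i - a i : ℕ)) = 0 then (∏ i, sc (v i) (a i)) *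
          ((∫ z, (ψ z : ℂ) * ∏ i,
          Wg (fun z => Real.exp (2 * ρ (ofComplex z)) / z.im ^ 2) (fun n => 1 / m (n + N))
            (fun n z => (φ (n + N) (ofComplex z) : ℂ)) (a i) (k i - a i) n z) - L a n) else 0)
        (a := fun _ => 0) (x := atTop) (fun a _ => by
          by_cases ha : ∑ i, ((a i : ℤ) - (k i - a i : ℕ)) = 0
          · simp only [ha, if_true]
            simpa using (hL a ha).const_mul (∏ i, sc (v i) (a i))
          · simp only [ha, if_false]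
            exact tendsto_const_nhds)
      simpa using h3
    have h3 := h1.add h2
    rw [add_zero] at h3
    refine h3.congr fun n => ?_
    rw [sub_add_eq_add_sub, sub_eq_sub_iff_add_eq_add, add_assoc]
    congr 1
    rw [← Finset.sum_add_distrib]
    refine Finset.sum_congr rfl fun a _ => ?_
    split_ifs
    · ring
    · ring
  have hint : ∫ z, (ψ z : ℂ) = ((∫ z, ψ z : ℝ) : ℂ) := integral_ofReal
  refine ⟨fun k v => ?_, fun k v => ?_, fun k v => ?_, fun k v => ?_⟩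
  · -- order one
    rw [← tendsto_add_atTop_iff_nat N]
    apply tendsto_real
    have h1 := gen 1 k v (fun _ _ => 0) (by norm_num) (fun a ha => by
      rw [Fin.sum_univ_one] at ha
      have h2 : a 0 = k 0 - a 0 := by omega
      have h3 := L1 (a 0) (k 0 - a 0) h2
      simp only [Fin.prod_univ_one, sub_zero]
      exact h3)
    simpa using h1
  · -- order two
    rw [← tendsto_add_atTop_iff_nat N]
    apply tendsto_real
    have h1 := gen 2 k v (fun a _ => (∏ i, cW (a i) (k i - a i))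
        * P ((a 0 : ℤ) - (k 0 - a 0 : ℕ)) ((a 1 : ℤ) - (k 1 - a 1 : ℕ)) * ∫ z, (ψ z : ℂ))
      (by norm_num) (fun a ha => by
        have h3 := L2 a (fun i => k i - a i) ha
        have h4 := h3.sub_const ((∏ i, cW (a i) (k i - a i))
          * P ((a 0 : ℤ) - (k 0 - a 0 : ℕ)) ((a 1 : ℤ) - (k 1 - a 1 : ℕ)) * ∫ z, (ψ z : ℂ))
        rwa [sub_self] at h4)
    have h2 : ∑ a ∈ Fintype.piFinset fun i => Finset.range (k i + 1),
          (if ∑ i, ((a i : ℤ) - (k i - a i : ℕ)) = 0 then (∏ i, sc (v i) (a i)) *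
            ((∏ i, cW (a i) (k i - a i))
        * P ((a 0 : ℤ) - (k 0 - a 0 : ℕ)) ((a 1 : ℤ) - (k 1 - a 1 : ℕ)) * ∫ z, (ψ z : ℂ)) else 0)
        = ((covar (v 0) (v 1) * ∫ z, ψ z : ℝ) : ℂ) := by
      rw [Complex.ofReal_mul, hPwt, sum_two, Finset.sum_mul]
      refine Finset.sum_congr rfl fun x _ => ?_
      rw [Finset.sum_mul]
      refine Finset.sum_congr rfl fun y _ => ?_
      simp only [Fin.sum_univ_two, Fin.prod_univ_two, Matrix.cons_val_zero, Matrix.cons_val_one]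
      split_ifs with h3
      · rw [hint]
        ring
      · rw [P_zero h3]
        ring
    have h3 := h1.add_const (((covar (v 0) (v 1) * ∫ z, ψ z : ℝ) : ℂ))
    rw [zero_add] at h3
    refine h3.congr fun n => ?_
    rw [h2, sub_add_cancel]
  · -- order three
    rw [← tendsto_add_atTop_iff_nat N]
    apply tendsto_real
    have h1 := gen 3 k v (fun _ _ => 0) (by norm_num) (fun a ha => by
      have h3 := L3 a (fun i => k i - a i) ha
      simpa using h3)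
    simpa using h1
  · -- order four
    rw [← tendsto_add_atTop_iff_nat N]
    apply tendsto_real
    have h1 := gen 4 k v (fun a n => (∏ i, cW (a i) (k i - a i)) *
        (wk ((a 0 : ℤ) - (k 0 - a 0 : ℕ)) ((a 1 : ℤ) - (k 1 - a 1 : ℕ))
            ((a 2 : ℤ) - (k 2 - a 2 : ℕ)) ((a 3 : ℤ) - (k 3 - a 3 : ℕ)) * (∫ z, (ψ z : ℂ))
          + cl4 ((a 0 : ℤ) - (k 0 - a 0 : ℕ)) ((a 1 : ℤ) - (k 1 - a 1 : ℕ))
            ((a 2 : ℤ) - (k 2 - a 2 : ℕ)) ((a 3 : ℤ) - (k 3 - a 3 : ℕ))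
            * ((∫ z, (ψ z : ℂ) * (φ (n + N) (ofComplex z) : ℂ) ^ 4) - 3 * ∫ z, (ψ z : ℂ))))
      (by norm_num) (fun a ha => L4 a (fun i => k i - a i) ha)
    have hw : ∑ a ∈ Fintype.piFinset fun i => Finset.range (k i + 1),
          (if ∑ i, ((a i : ℤ) - (k i - a i : ℕ)) = 0 then
            (∏ i, sc (v i) (a i) * cW (a i) (k i - a i)) *
            wk ((a 0 : ℤ) - (k 0 - a 0 : ℕ)) ((a 1 : ℤ) - (k 1 - a 1 : ℕ))
            ((a 2 : ℤ) - (k 2 - a 2 : ℕ)) ((a 3 : ℤ) - (k 3 - a 3 : ℕ)) else 0)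
        = ((covar (v 0) (v 1) * covar (v 2) (v 3) + covar (v 0) (v 2) * covar (v 1) (v 3)
            + covar (v 0) (v 3) * covar (v 1) (v 2) : ℝ) : ℂ) := by
      push_cast
      rw [hPwt, hPwt, hPwt, hPwt, hPwt, hPwt, sum_four]
      have h3 := fac (fun i => Finset.range (k i + 1)) (fun i x => sc (v i) x * cW x (k i - x))
        (fun i x => (x : ℤ) - (k i - x : ℕ))
      rw [← h3]
      refine Finset.sum_congr rfl fun x _ => Finset.sum_congr rfl fun y _ =>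
        Finset.sum_congr rfl fun z _ => Finset.sum_congr rfl fun w _ => ?_
      simp only [Fin.sum_univ_four, Fin.prod_univ_four, Matrix.cons_val_zero, Matrix.cons_val_one,
        Matrix.cons_val]
      split_ifs with h4
      · ring
      · rw [wk_zero h4]
        ring
    have hc : ∑ a ∈ Fintype.piFinset fun i => Finset.range (k i + 1),
          (if ∑ i, ((a i : ℤ) - (k i - a i : ℕ)) = 0 then
            (∏ i, sc (v i) (a i) * cW (a i) (k i - a i)) *
            cl4 ((a 0 : ℤ) - (k 0 - a 0 : ℕ)) ((a 1 : ℤ) - (k 1 - a 1 : ℕ))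
            ((a 2 : ℤ) - (k 2 - a 2 : ℕ)) ((a 3 : ℤ) - (k 3 - a 3 : ℕ)) else 0)
        = 2 / 3 * ((planeMean k v : ℝ) : ℂ) := by
      rw [hPwf, Finset.mul_sum]
      refine Finset.sum_congr rfl fun a _ => ?_
      split_ifs
      · ring
      · ring
    refine h1.congr fun n => ?_
    have h4 : ∫ z, (ψ z : ℂ) * (φ (n + N) (ofComplex z) : ℂ) ^ 4
        = ((∫ z, ψ z * φ (n + N) (ofComplex z) ^ 4 : ℝ) : ℂ) := by
      refine (integral_congr_ae (Eventually.of_forall fun z => ?_)).trans integral_ofReal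
      simp
    have h5 : ∑ a ∈ Fintype.piFinset fun i => Finset.range (k i + 1),
          (if ∑ i, ((a i : ℤ) - (k i - a i : ℕ)) = 0 then (∏ i, sc (v i) (a i)) *
          ((∏ i, cW (a i) (k i - a i)) *
        (wk ((a 0 : ℤ) - (k 0 - a 0 : ℕ)) ((a 1 : ℤ) - (k 1 - a 1 : ℕ))
            ((a 2 : ℤ) - (k 2 - a 2 : ℕ)) ((a 3 : ℤ) - (k 3 - a 3 : ℕ)) * (∫ z, (ψ z : ℂ))
          + cl4 ((a 0 : ℤ) - (k 0 - a 0 : ℕ)) ((a 1 : ℤ) - (k 1 - a 1 : ℕ))
            ((a 2 : ℤ) - (k 2 - a 2 : ℕ)) ((a 3 : ℤ) - (k 3 - a 3 : ℕ))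
            * ((∫ z, (ψ z : ℂ) * (φ (n + N) (ofComplex z) : ℂ) ^ 4) - 3 * ∫ z, (ψ z : ℂ))))
          else 0)
        = ((covar (v 0) (v 1) * covar (v 2) (v 3) + covar (v 0) (v 2) * covar (v 1) (v 3)
            + covar (v 0) (v 3) * covar (v 1) (v 2) : ℝ) : ℂ) * (∫ z, (ψ z : ℂ))
          + 2 / 3 * ((planeMean k v : ℝ) : ℂ) *
            ((∫ z, (ψ z : ℂ) * (φ (n + N) (ofComplex z) : ℂ) ^ 4) - 3 * ∫ z, (ψ z : ℂ)) := by
      rw [← hw, ← hc, Finset.sum_mul, Finset.sum_mul, ← Finset.sum_add_distrib]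
      refine Finset.sum_congr rfl fun a _ => ?_
      rw [Finset.prod_mul_distrib]
      split_ifs
      · ring
      · ring
    rw [h5, h4, hint]
    push_cast
    ring

end

end QJ
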