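import Pool.Agent.QJ.AllA
import Pool.Agent.QJ.TEST
import Pool.Agent.QJ.MAIN
import Pool.Agent.QJ.LOCG
import Pool.Agent.QJ.INVG
import Pool.Agent.QJ.FUB
import Pool.Agent.QJ.FIN

/-!
The theorem on the jets of the local waves, assembled.
-/

namespace QJ

theorem main : StmtMain := stmtMain wexp lwe
theorem locG : StmtLocG := stmtLocG main lw pwt pwf
theorem invg : StmtInvg := stmtInvg wexp
theorem fub : StmtFub := stmtFub invg
theorem fin : StmtFin := stmtFin stmtTest locG invg fub

end QJ

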