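import Pool.Agent.Lib_helper67.QE.Symbols
import Pool.Agent.Lib_helper67.QE.Cutoff
import Pool.Agent.Lib_helper67.QE.Compact
import Pool.Agent.Lib_helper67.QE.Elliptic

/-!
Cubic and quartic statistics of quantum ergodic eigenfunctions: definitions.
-/

open Complex MeasureTheory Filter Topology Set
open scoped ContDiff

namespace QJ

open QE

noncomputable section

/-- the function `e^{k σ}` -/
def ex (σ : ℂ → ℝ) (k : ℤ) (z : ℂ) : ℂ := ((Real.exp (k * σ z) : ℝ) : ℂ)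

/-- the operator which raises the spin `k` to `k + 1` for the metric `e^{2σ} |dz|²` -/
def D (σ : ℂ → ℝ) (k : ℤ) (f : ℂ → ℂ) (z : ℂ) : ℂ :=
  2 * ex σ (k - 1) z * dz (fun w => ex σ (-k) w * f w) z

/-- the operator which lowers the spin `k` to `k - 1` for the metric `e^{2σ} |dz|²` -/
def Db (σ : ℂ → ℝ) (k : ℤ) (f : ℂ → ℂ) (z : ℂ) : ℂ :=
  2 * ex σ (-k - 1) z * dzb (fun w => ex σ k w * f w) z

/-- the Gauss curvature -/
def curv (σ : ℂ → ℝ) (z : ℂ) : ℂ := -(4 * ex σ (-2) z * dz (dzb (fun w => (σ w : ℂ))) z)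

/-- the standing hypotheses: `φₙ` are real functions, smooth on the plane, which solve
`h² Δ φ = - e^{2σ} φ` on the open set `V`, with `φₙ² → 1` and `φₙ hᵏ ∂ᵏ φₙ → 0` weakly on `V` -/
structure Loc (V : Set ℂ) (σ : ℂ → ℝ) (h : ℕ → ℝ) (φ : ℕ → ℂ → ℂ) : Prop where
  op : IsOpen V
  hpos : ∀ n, 0 < h n
  hlim : Tendsto h atTop (𝓝 0)
  sm : ContDiff ℝ ∞ σ
  smφ : ∀ n, ContDiff ℝ ∞ (φ n)
  real : ∀ n z, (starRingEnd ℂ) (φ n z) = φ n z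
  eig : ∀ n, ∀ z ∈ V, 4 * (h n : ℂ) ^ 2 * dz (dzb (φ n)) z = - ex σ 2 z * φ n z
  mass : ∀ ζ : ℂ → ℂ, Test V ζ →
    Tendsto (fun n => ∫ z, ζ z * (φ n z * φ n z)) atTop (𝓝 (∫ z, ζ z))
  mom : ∀ k : ℕ, 1 ≤ k → ∀ ζ : ℂ → ℂ, Test V ζ →
    Tendsto (fun n => ∫ z, ζ z * (φ n z * ((h n : ℂ) ^ k * dz^[k] (φ n) z))) atTop (𝓝 0)

/-- the rescaled mixed Wirtinger derivatives -/
def W (h : ℕ → ℝ) (φ : ℕ → ℂ → ℂ) (a b n : ℕ) (z : ℂ) : ℂ :=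
  (h n : ℂ) ^ (a + b) * dz^[a] (dzb^[b] (φ n)) z

/-- one plus the sum of the squares of the rescaled derivatives with `a, b ≤ N` -/
def RR (h : ℕ → ℝ) (φ : ℕ → ℂ → ℂ) (N n : ℕ) (z : ℂ) : ℝ :=
  1 + ∑ a ∈ Finset.range (N + 1), ∑ b ∈ Finset.range (N + 1), ‖W h φ a b n z‖ ^ 2

/-- `‖uₙ‖² ≤ C · RR^q` on the compact subsets of `V`, for large `n` -/
def Bq (V : Set ℂ) (h : ℕ → ℝ) (φ : ℕ → ℂ → ℂ) (q : ℕ) (u : ℕ → ℂ → ℂ) : Prop :=
  ∀ K, IsCompact K → K ⊆ V → ∃ (N : ℕ) (C : ℝ), ∀ᶠ n in atTop, ∀ z ∈ K,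
    ‖u n z‖ ^ 2 ≤ C * RR h φ N n z ^ q

/-- all the rescaled derivatives of order at most `k` satisfy `Bq` -/
def BqK (V : Set ℂ) (h : ℕ → ℝ) (φ : ℕ → ℂ → ℂ) (q : ℕ) : ℕ → (ℕ → ℂ → ℂ) → Prop
  | 0, u => Bq V h φ q u
  | k + 1, u => Bq V h φ q u ∧ BqK V h φ q k (fun n z => (h n : ℂ) * dz (u n) z)
      ∧ BqK V h φ q k (fun n z => (h n : ℂ) * dzb (u n) z)

/-- dominated sequences: smooth on the plane, and all the rescaled derivatives are bounded by the jets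
of `φₙ` (`q = 1`), or by products of `q` jets -/
structure Dom (V : Set ℂ) (h : ℕ → ℝ) (φ : ℕ → ℂ → ℂ) (q : ℕ) (u : ℕ → ℂ → ℂ) : Prop where
  smooth : ∀ n, ContDiff ℝ ∞ (u n)
  bd : ∀ k, BqK V h φ q k u

/-- the growth of the jets: linear growth of the mass, and `h · RR → 0` locally uniformly -/
structure Grow (V : Set ℂ) (h : ℕ → ℝ) (φ : ℕ → ℂ → ℂ) : Prop where
  grow : ∀ K, IsCompact K → K ⊆ V → ∀ N : ℕ, ∃ C : ℝ, ∀ᶠ n in atTop, ∀ z ∈ K, ∀ s > 0,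
    ∫ w in K ∩ Metric.closedBall z s, RR h φ N n w ≤ C * s
  small : ∀ K, IsCompact K → K ⊆ V → ∀ N : ℕ, ∀ ε > 0, ∀ᶠ n in atTop, ∀ z ∈ K,
    h n * RR h φ N n z ≤ ε

/-- the covariant jets `E_0 = φ`, `E_{j+1} = h D E_j` -/
def jet (σ : ℂ → ℝ) (h : ℕ → ℝ) (φ : ℕ → ℂ → ℂ) : ℕ → ℕ → ℂ → ℂ
  | 0 => φ
  | m + 1 => fun n z => (h n : ℂ) * D σ m (jet σ h φ m n) z

/-- the covariant jets for all integers, `E_{-m} = (-1)^m conj E_m` -/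
def E (σ : ℂ → ℝ) (h : ℕ → ℝ) (φ : ℕ → ℂ → ℂ) : ℤ → ℕ → ℂ → ℂ
  | Int.ofNat m => jet σ h φ m
  | Int.negSucc m => fun n z => (-1) ^ (m + 1) * (starRingEnd ℂ) (jet σ h φ (m + 1) n z)

/-- the weak limit of `E_j E_m` -/
def P (j m : ℤ) : ℂ := if j + m = 0 then (-1) ^ j else 0

/-- a sequence dominated by products of two jets which tends weakly to zero -/
structure Nul (V : Set ℂ) (h : ℕ → ℝ) (φ : ℕ → ℂ → ℂ) (B : ℕ → ℂ → ℂ) : Prop where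
  smooth : ∀ n, ContDiff ℝ ∞ (B n)
  bd : Bq V h φ 2 B
  weak : ∀ ζ : ℂ → ℂ, Test V ζ → Tendsto (fun n => ∫ z, ζ z * B n z) atTop (𝓝 0)

/-- the square of the `L²` norm tends to zero on compact subsets of `V` -/
def L2z (V : Set ℂ) (u : ℕ → ℂ → ℂ) : Prop :=
  ∀ K, IsCompact K → K ⊆ V → Tendsto (fun n => ∫ z in K, ‖u n z‖ ^ 2) atTop (𝓝 0)

/-- a triple `(A, B, C)` of spins `N + 2`, `N`, `N - 2` with `Db A = - D B` and `D C = - Db B` up to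
errors which tend to zero in `L²` -/
structure Trip (V : Set ℂ) (σ : ℂ → ℝ) (h : ℕ → ℝ) (φ : ℕ → ℂ → ℂ) (N : ℤ)
    (A B C : ℕ → ℂ → ℂ) : Prop where
  nA : Nul V h φ A
  nB : Nul V h φ B
  nC : Nul V h φ C
  eA : L2z V (fun n z => Db σ (N + 2) (A n) z + D σ N (B n) z)
  eC : L2z V (fun n z => D σ (N - 2) (C n) z + Db σ N (B n) z)

/-- potentials of a triple on `V`: `Db x = - B = D y`, with `x`, `y`, `α = A - D x`, `γ = C - Db y`,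
`Db α` and `D γ` tending to zero in `L²` -/
structure Pot (V : Set ℂ) (σ : ℂ → ℝ) (N : ℤ) (A B C x y : ℕ → ℂ → ℂ) : Prop where
  sx : ∀ n, ContDiff ℝ ∞ (x n)
  sy : ∀ n, ContDiff ℝ ∞ (y n)
  hx : ∀ n, ∀ z ∈ V, Db σ (N + 1) (x n) z = - B n z
  hy : ∀ n, ∀ z ∈ V, D σ (N - 1) (y n) z = - B n z
  lx : L2z V x
  ly : L2z V y
  la : L2z V (fun n z => A n z - D σ (N + 1) (x n) z)
  lc : L2z V (fun n z => C n z - Db σ (N - 1) (y n) z)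
  lda : L2z V (fun n z => Db σ (N + 2) (fun w => A n w - D σ (N + 1) (x n) w) z)
  ldc : L2z V (fun n z => D σ (N - 2) (fun w => C n w - Db σ (N - 1) (y n) w) z)

/-- the four-jet integrals -/
def E4 (σ : ℂ → ℝ) (h : ℕ → ℝ) (φ : ℕ → ℂ → ℂ) (ζ : ℂ → ℂ) (a b c d : ℤ) (n : ℕ) : ℂ :=
  ∫ z, ζ z * (E σ h φ a n z * E σ h φ b n z * E σ h φ c n z * E σ h φ d n z)

/-- the three-jet integrals -/
def E3 (σ : ℂ → ℝ) (h : ℕ → ℝ) (φ : ℕ → ℂ → ℂ) (ζ : ℂ → ℂ) (a b c : ℤ) (n : ℕ) : ℂ :=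
  ∫ z, ζ z * (E σ h φ a n z * E σ h φ b n z * E σ h φ c n z)

/-- the Wick sum -/
def wk (a b c d : ℤ) : ℂ := P a b * P c d + P a c * P b d + P a d * P b c

/-- the class function of order four: `1` if all the indices have the same parity, otherwise
`-1/3` (for indices with sum zero) -/
def cl4 (a b c d : ℤ) : ℂ := if (a - b) % 2 = 0 ∧ (a - c) % 2 = 0 ∧ (a - d) % 2 = 0 then 1 else -1 / 3

/-- the class function of order three -/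
def cl3 (b c : ℤ) : ℂ := if (b - c) % 3 = 0 then 1 else -1 / 2

/-- first derivatives of a real function -/
def d1 (u : ℂ → ℝ) (z : ℂ) : ℝ := fderiv ℝ u z 1

/-- first derivatives of a real function -/
def d2 (u : ℂ → ℝ) (z : ℂ) : ℝ := fderiv ℝ u z Complex.I

/-- the Laplacian of a real function -/
def lap (u : ℂ → ℝ) (z : ℂ) : ℝ := d1 (d1 u) z + d2 (d2 u) z

end

end QJ
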