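import Pool.Agent.LibH11.QEV.Global2

/-!
Cubic and quartic statistics of quantum ergodic eigenfunctions: the objects of the final theorem.
-/

open MeasureTheory Filter Topology Set UpperHalfPlane MatrixGroups
open scoped ContDiff

namespace QJ

noncomputable section

/-- the uniform probability measure on the angles `(0, 2π]` -/
abbrev angle : Measure ℝ :=
  ProbabilityTheory.cond (volume : Measure ℝ) (Set.Ioc 0 (2 * Real.pi))

/-- the plane wave `√2 cos (⟨x, e^{iθ}⟩ + s)` -/
def planeWave (θ s : ℝ) (x : ℂ) : ℝ :=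
  Real.sqrt 2 * Real.cos ((x * Complex.exp (-(θ * Complex.I))).re + s)

/-- the product of the iterated derivatives, of orders `k i` and in the directions `v i`, of the
function `F` at the origin -/
def jetProd {r : ℕ} (k : Fin r → ℕ) (v : ∀ i, Fin (k i) → ℂ) (F : ℂ → ℝ) : ℝ :=
  ∏ i, iteratedFDeriv ℝ (k i) F 0 (v i)

/-- the mean of a product of derivatives at the origin for the random plane wave: uniform direction
`θ` and uniform phase `s` in `(0, 2π]` -/
def planeMean {r : ℕ} (k : Fin r → ℕ) (v : ∀ i, Fin (k i) → ℂ) : ℝ :=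
  ∫ θ, ∫ s, jetProd k v (planeWave θ s) ∂angle ∂angle

/-- the covariance of two derivatives at the origin, for the random plane wave (equivalently, for the
isotropic Gaussian wave, which has the same covariance function) -/
def covar {k l : ℕ} (v : Fin k → ℂ) (w : Fin l → ℂ) : ℝ :=
  ∫ θ, ∫ s, iteratedFDeriv ℝ k (planeWave θ s) 0 v * iteratedFDeriv ℝ l (planeWave θ s) 0 w
    ∂angle ∂angle

/-- the mean over the angle of the product of the derivatives of the local wave at the point `z` -/
def angJet (ρ : ℍ → ℝ) (φ : ℍ → ℝ) (m : ℝ) {r : ℕ} (k : Fin r → ℕ) (v : ∀ i, Fin (k i) → ℂ)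
    (z : ℍ) : ℝ :=
  ∫ θ, jetProd k v (fun x => Berry.rWave ρ φ m x (z, θ)) ∂angle

/-- the coefficients of the iterated derivative in terms of the Wirtinger derivatives -/
def sc {k : ℕ} (v : Fin k → ℂ) (a : ℕ) : ℂ :=
  ∑ S ∈ Finset.powersetCard a Finset.univ, (∏ i ∈ S, v i) * ∏ i ∈ Sᶜ, (starRingEnd ℂ) (v i)

/-- signed Lah numbers -/
def lah : ℕ → ℕ → ℝ
  | 0, 0 => 1
  | 0, _ + 1 => 0
  | a + 1, 0 => -(a : ℝ) * lah a 0
  | a + 1, i + 1 => -((a : ℝ) + (i + 1)) * lah a (i + 1) + lah a i

end

end QJ
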