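import Pool.Agent.QJ.Stmts2

/-!
Cubic statistics at distinct points: definitions.
-/

open MeasureTheory Filter Topology Set
open scoped ContDiff

namespace QJ

open QE

noncomputable section

/-- the integrals of products of covariant jets at the displaced points `z + h e^{-σ(z)} l xᵢ` -/
def Aj (σ : ℂ → ℝ) (h : ℕ → ℝ) (φ : ℕ → ℂ → ℂ) (ζ : ℂ → ℂ) {r : ℕ} (x : Fin r → ℂ) (j : Fin r → ℤ)
    (n : ℕ) (l : ℂ) : ℂ :=
  ∫ z, ζ z * ∏ i, E σ h φ (j i) n (z + ((h n * Real.exp (-σ z) : ℝ) : ℂ) * (l * x i))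

/-- the product of the values at the displaced points `z + h g^{-1/2} e^{-2iθ} xᵢ` -/
def PD (g : ℂ → ℝ) (h : ℕ → ℝ) (φ : ℕ → ℂ → ℂ) {r : ℕ} (x : Fin r → ℂ) (n : ℕ) (θ : ℝ) (z : ℂ) : ℂ :=
  ∏ i, φ n (z + ((h n * (Real.sqrt (g z))⁻¹ : ℝ) : ℂ) * (uu θ ^ 2 * x i))

end

end QJ
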