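import Pool.Agent.QJ.Stmts
import Pool.Agent.QJ.Dom
import Pool.Agent.QJ.TWO

/-!
Integration by parts for products of four and of three jets.
-/

open Complex MeasureTheory Filter Topology Set
open scoped ContDiff

namespace QJ

open QE

noncomputable section

namespace IFO

variable {V : Set ℂ} {σ : ℂ → ℝ} {h : ℕ → ℝ} {φ : ℕ → ℂ → ℂ}

/-- the raising step: a sequence `S` with `h D u = S + h² B` tends weakly to zero -/
lemma up_of (hInt : StmtInt) (hIbp : StmtIbp) (L : Loc V σ h φ) (hG : Grow V h φ) {ζ : ℂ → ℂ}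
    (hζ : Test V ζ) (k : ℤ) {u B S : ℕ → ℂ → ℂ} (hu : Dom V h φ 4 u) (hB : Dom V h φ 4 B)
    (hS : ∀ n, ContDiff ℝ ∞ (S n))
    (he : ∀ n, ∀ z ∈ V, (h n : ℂ) * D σ k (u n) z = S n z + (h n : ℂ) ^ 2 * B n z) :
    Tendsto (fun n => ∫ z, ζ z * S n z) atTop (𝓝 0) := by
  have i1 := (hIbp V σ h φ u k L.op L.sm L.hpos L.hlim L.smφ hG hu.smooth hu.bq ζ hζ).1
  have i2 := (TWO.hlimC L).mul (TWO.hlim4 hInt L hG hB.smooth hB.bq hζ)
  have i3 := i1.sub i2
  rw [mul_zero, sub_zero] at i3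
  refine i3.congr fun n => ?_
  have e : ∀ z, ζ z * ((h n : ℂ) * D σ k (u n) z)
      = ζ z * S n z + (h n : ℂ) ^ 2 * (ζ z * B n z) := by
    intro z
    by_cases hz : z ∈ V
    · rw [he n z hz]; ring
    · rw [TWO.zero_off hζ hz]; ring
  have k1 : Integrable (fun z => ζ z * S n z) :=
    hζ.integrable_mul L.op (hS n).continuous.continuousOn
  have k2 : Integrable (fun z => ζ z * B n z) :=
    hζ.integrable_mul L.op (hB.smooth n).continuous.continuousOn
  simp only [e]
  rw [integral_add k1 (k2.const_mul _), integral_const_mul]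
  ring

/-- the lowering step -/
lemma down_of (hInt : StmtInt) (hIbp : StmtIbp) (L : Loc V σ h φ) (hG : Grow V h φ) {ζ : ℂ → ℂ}
    (hζ : Test V ζ) (k : ℤ) {u B S : ℕ → ℂ → ℂ} (hu : Dom V h φ 4 u) (hB : Dom V h φ 4 B)
    (hS : ∀ n, ContDiff ℝ ∞ (S n))
    (he : ∀ n, ∀ z ∈ V, (h n : ℂ) * Db σ k (u n) z = - S n z + (h n : ℂ) ^ 2 * B n z) :
    Tendsto (fun n => ∫ z, ζ z * S n z) atTop (𝓝 0) := by
  have i1 := (hIbp V σ h φ u k L.op L.sm L.hpos L.hlim L.smφ hG hu.smooth hu.bq ζ hζ).2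
  have i2 := (TWO.hlimC L).mul (TWO.hlim4 hInt L hG hB.smooth hB.bq hζ)
  have i3 := i2.sub i1
  rw [mul_zero, sub_zero] at i3
  refine i3.congr fun n => ?_
  have e : ∀ z, ζ z * ((h n : ℂ) * Db σ k (u n) z)
      = (h n : ℂ) ^ 2 * (ζ z * B n z) - ζ z * S n z := by
    intro z
    by_cases hz : z ∈ V
    · rw [he n z hz]; ring
    · rw [TWO.zero_off hζ hz]; ring
  have k1 : Integrable (fun z => ζ z * S n z) :=
    hζ.integrable_mul L.op (hS n).continuous.continuousOn
  have k2 : Integrable (fun z => ζ z * B n z) :=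
    hζ.integrable_mul L.op (hB.smooth n).continuous.continuousOn
  simp only [e]
  rw [integral_sub (k2.const_mul _) k1, integral_const_mul]
  ring

lemma add_three {S f g k : ℂ → ℂ} (hf : Integrable f) (hg : Integrable g) (hk : Integrable k)
    (he : ∀ z, S z = f z + g z + k z) :
    ∫ z, S z = (∫ z, f z) + (∫ z, g z) + ∫ z, k z := by
  have h1 : Integrable (fun z => f z + g z) := hf.add hg
  simp only [he]
  rw [integral_add h1 hk, integral_add hf hg]

lemma add_four {S f g k l : ℂ → ℂ} (hf : Integrable f) (hg : Integrable g) (hk : Integrable k)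
    (hl : Integrable l) (he : ∀ z, S z = f z + g z + k z + l z) :
    ∫ z, S z = (∫ z, f z) + (∫ z, g z) + (∫ z, k z) + ∫ z, l z := by
  have h1 : Integrable (fun z => f z + g z) := hf.add hg
  have h2 : Integrable (fun z => f z + g z + k z) := h1.add hk
  simp only [he]
  rw [integral_add h2 hl, integral_add h1 hk, integral_add hf hg]

lemma four (hInt : StmtInt) (hIbp : StmtIbp) (hJ : StmtJetA) (L : Loc V σ h φ)
    (hG : Grow V h φ) {ζ : ℂ → ℂ} (hζ : Test V ζ) (a b c d : ℤ) :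
    Tendsto (fun n => E4 σ h φ ζ (a + 1) b c d n + E4 σ h φ ζ a (b + 1) c d n
      + E4 σ h φ ζ a b (c + 1) d n + E4 σ h φ ζ a b c (d + 1) n) atTop (𝓝 0) := by
  have hσ := L.sm
  obtain ⟨da, ⟨A1, hA1, h1⟩, -⟩ := hJ V σ h φ L a
  obtain ⟨db, ⟨A2, hA2, h2⟩, -⟩ := hJ V σ h φ L b
  obtain ⟨dc, ⟨A3, hA3, h3⟩, -⟩ := hJ V σ h φ L c
  obtain ⟨dd, ⟨A4, hA4, h4⟩, -⟩ := hJ V σ h φ L d
  have da1 := (hJ V σ h φ L (a + 1)).1
  have db1 := (hJ V σ h φ L (b + 1)).1
  have dc1 := (hJ V σ h φ L (c + 1)).1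
  have dd1 := (hJ V σ h φ L (d + 1)).1
  have hV := L.op
  have pr : ∀ {u v w x : ℕ → ℂ → ℂ}, Dom V h φ 1 u → Dom V h φ 1 v → Dom V h φ 1 w →
      Dom V h φ 1 x → Dom V h φ 4 (fun n z => u n z * v n z * w n z * x n z) := by
    intro u v w x hu hv hw hx
    exact ((hu.mul hV hv).mul hV hw).mul hV hx
  have du := pr da db dc dd
  have q1 := pr da1 db dc dd
  have q2 := pr da db1 dc dd
  have q3 := pr da db dc1 dd
  have q4 := pr da db dc dd1
  have hB := (((pr hA1 db dc dd).add hV (pr da hA2 dc dd)).add hV (pr da db hA3 dd)).add hV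
    (pr da db dc hA4)
  have hS := ((q1.add hV q2).add hV q3).add hV q4
  have key := up_of hInt hIbp L hG hζ (a + b + c + d) du hB hS.smooth ?_
  · refine key.congr fun n => ?_
    have k1 := hζ.integrable_mul hV (q1.smooth n).continuous.continuousOn
    have k2 := hζ.integrable_mul hV (q2.smooth n).continuous.continuousOn
    have k3 := hζ.integrable_mul hV (q3.smooth n).continuous.continuousOn
    have k4 := hζ.integrable_mul hV (q4.smooth n).continuous.continuousOn
    unfold E4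
    exact add_four k1 k2 k3 k4 fun z => by ring
  · intro n z hz
    have sa := cd_at (da.smooth n) z
    have sb := cd_at (db.smooth n) z
    have sc := cd_at (dc.smooth n) z
    have sd := cd_at (dd.smooth n) z
    have m1 := D_mul hσ a b sa sb
    have m2 := D_mul hσ (a + b) c (sa.fun_mul sb) sc
    have m3 := D_mul hσ (a + b + c) d ((sa.fun_mul sb).fun_mul sc) sd
    rw [m3, m2, m1]
    linear_combination (E σ h φ b n z * E σ h φ c n z * E σ h φ d n z) * h1 n z hz
      + (E σ h φ a n z * E σ h φ c n z * E σ h φ d n z) * h2 n z hz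
      + (E σ h φ a n z * E σ h φ b n z * E σ h φ d n z) * h3 n z hz
      + (E σ h φ a n z * E σ h φ b n z * E σ h φ c n z) * h4 n z hz

lemma three_up (hInt : StmtInt) (hIbp : StmtIbp) (hJ : StmtJetA) (L : Loc V σ h φ)
    (hG : Grow V h φ) {ζ : ℂ → ℂ} (hζ : Test V ζ) (a b c : ℤ) :
    Tendsto (fun n => E3 σ h φ ζ (a + 1) b c n + E3 σ h φ ζ a (b + 1) c n
      + E3 σ h φ ζ a b (c + 1) n) atTop (𝓝 0) := by
  have hσ := L.sm
  obtain ⟨da, ⟨A1, hA1, h1⟩, -⟩ := hJ V σ h φ L a
  obtain ⟨db, ⟨A2, hA2, h2⟩, -⟩ := hJ V σ h φ L b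
  obtain ⟨dc, ⟨A3, hA3, h3⟩, -⟩ := hJ V σ h φ L c
  have da1 := (hJ V σ h φ L (a + 1)).1
  have db1 := (hJ V σ h φ L (b + 1)).1
  have dc1 := (hJ V σ h φ L (c + 1)).1
  have hV := L.op
  have pr : ∀ {u v w : ℕ → ℂ → ℂ}, Dom V h φ 1 u → Dom V h φ 1 v → Dom V h φ 1 w →
      Dom V h φ 4 (fun n z => u n z * v n z * w n z) := by
    intro u v w hu hv hw
    exact ((hu.mul hV hv).mul hV hw).mono (by norm_num)
  have du := pr da db dc
  have q1 := pr da1 db dc
  have q2 := pr da db1 dc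
  have q3 := pr da db dc1
  have hB := ((pr hA1 db dc).add hV (pr da hA2 dc)).add hV (pr da db hA3)
  have hS := (q1.add hV q2).add hV q3
  have key := up_of hInt hIbp L hG hζ (a + b + c) du hB hS.smooth ?_
  · refine key.congr fun n => ?_
    have k1 := hζ.integrable_mul hV (q1.smooth n).continuous.continuousOn
    have k2 := hζ.integrable_mul hV (q2.smooth n).continuous.continuousOn
    have k3 := hζ.integrable_mul hV (q3.smooth n).continuous.continuousOn
    unfold E3
    exact add_three k1 k2 k3 fun z => by ring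
  · intro n z hz
    have sa := cd_at (da.smooth n) z
    have sb := cd_at (db.smooth n) z
    have sc := cd_at (dc.smooth n) z
    have m1 := D_mul hσ a b sa sb
    have m2 := D_mul hσ (a + b) c (sa.fun_mul sb) sc
    rw [m2, m1]
    linear_combination (E σ h φ b n z * E σ h φ c n z) * h1 n z hz
      + (E σ h φ a n z * E σ h φ c n z) * h2 n z hz
      + (E σ h φ a n z * E σ h φ b n z) * h3 n z hz

lemma three_down (hInt : StmtInt) (hIbp : StmtIbp) (hJ : StmtJetA) (L : Loc V σ h φ)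
    (hG : Grow V h φ) {ζ : ℂ → ℂ} (hζ : Test V ζ) (a b c : ℤ) :
    Tendsto (fun n => E3 σ h φ ζ (a - 1) b c n + E3 σ h φ ζ a (b - 1) c n
      + E3 σ h φ ζ a b (c - 1) n) atTop (𝓝 0) := by
  have hσ := L.sm
  obtain ⟨da, -, ⟨A1, hA1, h1⟩⟩ := hJ V σ h φ L a
  obtain ⟨db, -, ⟨A2, hA2, h2⟩⟩ := hJ V σ h φ L b
  obtain ⟨dc, -, ⟨A3, hA3, h3⟩⟩ := hJ V σ h φ L c
  have da1 := (hJ V σ h φ L (a - 1)).1
  have db1 := (hJ V σ h φ L (b - 1)).1
  have dc1 := (hJ V σ h φ L (c - 1)).1
  have hV := L.op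
  have pr : ∀ {u v w : ℕ → ℂ → ℂ}, Dom V h φ 1 u → Dom V h φ 1 v → Dom V h φ 1 w →
      Dom V h φ 4 (fun n z => u n z * v n z * w n z) := by
    intro u v w hu hv hw
    exact ((hu.mul hV hv).mul hV hw).mono (by norm_num)
  have du := pr da db dc
  have q1 := pr da1 db dc
  have q2 := pr da db1 dc
  have q3 := pr da db dc1
  have hB := ((pr hA1 db dc).add hV (pr da hA2 dc)).add hV (pr da db hA3)
  have hS := (q1.add hV q2).add hV q3
  have key := down_of hInt hIbp L hG hζ (a + b + c) du hB hS.smooth ?_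
  · refine key.congr fun n => ?_
    have k1 := hζ.integrable_mul hV (q1.smooth n).continuous.continuousOn
    have k2 := hζ.integrable_mul hV (q2.smooth n).continuous.continuousOn
    have k3 := hζ.integrable_mul hV (q3.smooth n).continuous.continuousOn
    unfold E3
    exact add_three k1 k2 k3 fun z => by ring
  · intro n z hz
    have sa := cd_at (da.smooth n) z
    have sb := cd_at (db.smooth n) z
    have sc := cd_at (dc.smooth n) z
    have m1 := Db_mul hσ a b sa sb
    have m2 := Db_mul hσ (a + b) c (sa.fun_mul sb) sc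
    rw [m2, m1]
    linear_combination (E σ h φ b n z * E σ h φ c n z) * h1 n z hz
      + (E σ h φ a n z * E σ h φ c n z) * h2 n z hz
      + (E σ h φ a n z * E σ h φ b n z) * h3 n z hz

end IFO

open IFO in
theorem stmtIfo (hGro : StmtGro) (hInt : StmtInt) (hIbp : StmtIbp) (hJetA : StmtJetA) :
    StmtIfo := by
  intro V σ h φ L ζ hζ
  have hG := hGro V σ h φ L
  exact ⟨four hInt hIbp hJetA L hG hζ, three_up hInt hIbp hJetA L hG hζ,
    three_down hInt hIbp hJetA L hG hζ⟩

end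

end QJ
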