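import Pool.Agent.QJ.Stmts2

/-!
Derivatives of the plane waves (lemmas for PWT and PWF).
-/

open Complex MeasureTheory Filter Topology Set
open scoped ContDiff

namespace QJ

open QE

noncomputable section

namespace PWL

/-- the wave with complex values -/
def wv (u : ℂ) (c : ℝ) (x : ℂ) : ℂ := ((Real.sqrt 2 * Real.cos ((x * u).re + c) : ℝ) : ℂ)

/-- the wave at the origin, shifted by `n` quarters of a period -/
def cs (n : ℤ) (s : ℝ) : ℝ := Real.sqrt 2 * Real.cos (s + n * (Real.pi / 2))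

/-- the linear map `v ↦ Re (v u)` -/
def rl (u : ℂ) : ℂ →L[ℝ] ℝ := Complex.reCLM.comp ((ContinuousLinearMap.mul ℝ ℂ).flip u)

lemma rl_apply (u v : ℂ) : rl u v = (v * u).re := rfl

lemma hasFDerivAt_wv (u : ℂ) (c : ℝ) (x : ℂ) :
    HasFDerivAt (wv u c) (Complex.ofRealCLM.comp
      (Real.sqrt 2 • (-Real.sin ((x * u).re + c)) • rl u)) x := by
  have h1 : HasFDerivAt (fun y : ℂ => (y * u).re + c) (rl u) x :=
    (rl u).hasFDerivAt.add_const c
  have h2 := (Real.hasDerivAt_cos ((x * u).re + c)).comp_hasFDerivAt x h1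
  have h3 := h2.const_smul (Real.sqrt 2)
  exact Complex.ofRealCLM.hasFDerivAt.comp x h3

lemma fderiv_wv (u : ℂ) (c : ℝ) (x v : ℂ) :
    fderiv ℝ (wv u c) x v =
      ((Real.sqrt 2 * (-Real.sin ((x * u).re + c) * (v * u).re) : ℝ) : ℂ) := by
  rw [(hasFDerivAt_wv u c x).fderiv]
  rfl

lemma diff_wv (u : ℂ) (c : ℝ) (x : ℂ) : DifferentiableAt ℝ (wv u c) x :=
  (hasFDerivAt_wv u c x).differentiableAt

lemma cos_shift (y c : ℝ) : Real.cos (y + (c + Real.pi / 2)) = -Real.sin (y + c) := by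
  rw [← add_assoc, Real.cos_add_pi_div_two]

lemma dz_wv (u : ℂ) (c : ℝ) : dz (wv u c) = fun x => u / 2 * wv u (c + Real.pi / 2) x := by
  funext x
  unfold dz
  rw [fderiv_wv, fderiv_wv]
  unfold wv
  rw [cos_shift, one_mul]
  have h1 : (I * u).re = -u.im := by simp
  rw [h1]
  apply Complex.ext <;> simp <;> ring

lemma dzb_wv (u : ℂ) (c : ℝ) :
    dzb (wv u c) = fun x => (starRingEnd ℂ) u / 2 * wv u (c + Real.pi / 2) x := by
  funext x
  unfold dzb
  rw [fderiv_wv, fderiv_wv]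
  unfold wv
  rw [cos_shift, one_mul]
  have h1 : (I * u).re = -u.im := by simp
  rw [h1]
  apply Complex.ext <;> simp <;> ring

lemma dzb_iter (u : ℂ) (c : ℝ) (b : ℕ) : dzb^[b] (wv u c) =
    fun x => ((starRingEnd ℂ) u / 2) ^ b * wv u (c + b * (Real.pi / 2)) x := by
  induction b with
  | zero =>
    funext x
    simp
  | succ b ih =>
    rw [Function.iterate_succ_apply', ih]
    funext x
    rw [dzb_const_mul _ (diff_wv _ _ _), dzb_wv]
    have h1 : c + ((b + 1 : ℕ) : ℝ) * (Real.pi / 2) = c + b * (Real.pi / 2) + Real.pi / 2 := by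
      push_cast
      ring
    rw [h1, pow_succ]
    ring

lemma dz_iter (u C : ℂ) (c : ℝ) (a : ℕ) : dz^[a] (fun x => C * wv u c x) =
    fun x => C * (u / 2) ^ a * wv u (c + a * (Real.pi / 2)) x := by
  induction a with
  | zero =>
    funext x
    simp
  | succ a ih =>
    rw [Function.iterate_succ_apply', ih]
    funext x
    rw [dz_const_mul _ (diff_wv _ _ _), dz_wv]
    have h1 : c + ((a + 1 : ℕ) : ℝ) * (Real.pi / 2) = c + a * (Real.pi / 2) + Real.pi / 2 := by
      push_cast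
      ring
    rw [h1, pow_succ]
    ring

lemma conj_uu (θ : ℝ) : (starRingEnd ℂ) (uu θ) = (uu θ)⁻¹ := conj_of_norm_one (norm_uu θ)

lemma mixed (θ s : ℝ) (a b : ℕ) : dz^[a] (dzb^[b] (wv (uu θ) s)) 0 =
    cW a b * uu θ ^ ((a : ℤ) - b) * ((cs ((a : ℤ) - b) s : ℝ) : ℂ) := by
  rw [dzb_iter, dz_iter]
  change ((starRingEnd ℂ) (uu θ) / 2) ^ b * (uu θ / 2) ^ a *
    wv (uu θ) (s + b * (Real.pi / 2) + a * (Real.pi / 2)) 0 = _
  have h1 : wv (uu θ) (s + b * (Real.pi / 2) + a * (Real.pi / 2)) 0 =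
      (-1) ^ b * ((cs ((a : ℤ) - b) s : ℝ) : ℂ) := by
    unfold wv cs
    have h2 : ((0 : ℂ) * uu θ).re + (s + b * (Real.pi / 2) + a * (Real.pi / 2)) =
        s + (((a : ℤ) - b : ℤ) : ℝ) * (Real.pi / 2) + b * Real.pi := by
      push_cast
      simp
      ring
    rw [h2, Real.cos_add_nat_mul_pi]
    push_cast
    ring
  rw [h1, conj_uu, zpow_sub₀ (uu_ne θ), zpow_natCast, zpow_natCast]
  unfold cW
  rw [div_pow, div_pow, inv_pow, inv_pow, pow_add]
  ring

lemma planeWave_eq (θ s : ℝ) : (fun x => ((planeWave θ s x : ℝ) : ℂ)) = wv (uu θ) s := by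
  funext x
  unfold planeWave wv uu
  rw [neg_mul]

lemma smooth_planeWave (θ s : ℝ) : ContDiff ℝ ∞ (planeWave θ s) := by
  unfold planeWave
  have h1 : ContDiff ℝ ∞ (fun x : ℂ => (x * Complex.exp (-(θ * Complex.I))).re) :=
    (rl (Complex.exp (-(θ * Complex.I)))).contDiff
  exact contDiff_const.mul (Real.contDiff_cos.comp (h1.add contDiff_const))

/-- the derivatives of the plane wave at the origin -/
theorem jet_wave (hIter : StmtIter) (θ s : ℝ) (k : ℕ) (v : Fin k → ℂ) :
    ((iteratedFDeriv ℝ k (planeWave θ s) 0 v : ℝ) : ℂ) =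
      ∑ a ∈ Finset.range (k + 1), (sc v a * cW a (k - a)) *
        uu θ ^ ((a : ℤ) - (k - a : ℕ)) * ((cs ((a : ℤ) - (k - a : ℕ)) s : ℝ) : ℂ) := by
  rw [hIter Set.univ (planeWave θ s) isOpen_univ (Set.mem_univ _)
    (smooth_planeWave θ s).contDiffOn k v]
  refine Finset.sum_congr rfl fun a _ => ?_
  rw [planeWave_eq, mixed]
  ring

lemma continuous_cs (n : ℤ) : Continuous (cs n) := by
  unfold cs
  fun_prop

/-- continuous functions are integrable over the angles -/
theorem integrable_angle {F : Type*} [NormedAddCommGroup F] {f : ℝ → F} (hf : Continuous f) :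
    Integrable f angle := by
  have h1 : IntegrableOn f (Set.Ioc 0 (2 * Real.pi)) := hf.integrableOn_Ioc
  refine Integrable.smul_measure h1 ?_
  rw [Real.volume_Ioc, sub_zero]
  exact ENNReal.inv_ne_top.mpr (ENNReal.ofReal_pos.mpr (by positivity)).ne'

lemma angle_int {F : Type*} [NormedAddCommGroup F] [NormedSpace ℝ F] (f : ℝ → F) :
    ∫ t, f t ∂angle = (2 * Real.pi)⁻¹ • ∫ t in (0 : ℝ)..(2 * Real.pi), f t := ang_int f

lemma angle_zpow (k : ℤ) : ∫ t, uu t ^ k ∂angle = if k = 0 then 1 else 0 := ang_zpow k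

/-- the mean of a trigonometric function of nonzero frequency vanishes -/
lemma int_cos (k : ℕ) (hk : k ≠ 0) (c : ℝ) :
    ∫ s in (0 : ℝ)..(2 * Real.pi), Real.cos (k * s + c) = 0 := by
  have hk' : (k : ℝ) ≠ 0 := Nat.cast_ne_zero.mpr hk
  rw [intervalIntegral.integral_comp_mul_add (fun x => Real.cos x) hk', integral_cos]
  have h1 : (k : ℝ) * (2 * Real.pi) + c = c + k * (2 * Real.pi) := by ring
  rw [h1, Real.sin_add_nat_mul_two_pi, mul_zero, zero_add, sub_self, smul_zero]

/-- the mean of a product of two waves at the origin -/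
theorem mean_two (n m : ℤ) :
    ∫ s, cs n s * cs m s ∂angle = Real.cos (((n : ℝ) - m) * (Real.pi / 2)) := by
  have h1 : ∀ s, cs n s * cs m s = Real.cos (((2 : ℕ) : ℝ) * s + ((n : ℝ) + m) * (Real.pi / 2))
      + Real.cos (((n : ℝ) - m) * (Real.pi / 2)) := by
    intro s
    unfold cs
    have h2 : Real.sqrt 2 * Real.sqrt 2 = 2 := Real.mul_self_sqrt (by norm_num)
    have h3 : ((2 : ℕ) : ℝ) * s + ((n : ℝ) + m) * (Real.pi / 2) =
        (s + n * (Real.pi / 2)) + (s + m * (Real.pi / 2)) := by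
      push_cast
      ring
    have h4 : ((n : ℝ) - m) * (Real.pi / 2) =
        (s + n * (Real.pi / 2)) - (s + m * (Real.pi / 2)) := by ring
    rw [h3, h4, Real.cos_add (s + n * (Real.pi / 2)) (s + m * (Real.pi / 2)),
      Real.cos_sub (s + n * (Real.pi / 2)) (s + m * (Real.pi / 2))]
    linear_combination (Real.cos (s + n * (Real.pi / 2)) * Real.cos (s + m * (Real.pi / 2))) * h2
  simp only [h1]
  rw [angle_int, intervalIntegral.integral_add, int_cos 2 (by norm_num),
    intervalIntegral.integral_const, zero_add, sub_zero, smul_eq_mul, smul_eq_mul, ← mul_assoc,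
    inv_mul_cancel₀ (by positivity), one_mul]
  · exact (by fun_prop : Continuous fun s : ℝ => Real.cos (((2 : ℕ) : ℝ) * s +
      ((n : ℝ) + m) * (Real.pi / 2))).intervalIntegrable _ _
  · exact continuous_const.intervalIntegrable _ _

end PWL

end

end QJ
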