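import Pool.Agent.QJ.Defs

/-!
Cubic and quartic statistics of quantum ergodic eigenfunctions: statements of the steps (local part).
Each step is a `Prop`; a module proves one of them, possibly from others taken as hypotheses.
-/

open Complex MeasureTheory Filter Topology Set
open scoped ContDiff

namespace QJ

open QE

noncomputable section

/-! ### Real analysis: growth of solutions of `h² Δ u = - g u` -/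

/-- VIR: the virial identity for a compactly supported vector field `(Z₁, Z₂)` and weight `c` -/
def StmtVir : Prop :=
  ∀ (u g Z₁ Z₂ c : ℂ → ℝ) (h : ℝ), ContDiff ℝ ∞ u → ContDiff ℝ ∞ g → ContDiff ℝ ∞ Z₁ →
    ContDiff ℝ ∞ Z₂ → ContDiff ℝ ∞ c → HasCompactSupport Z₁ → HasCompactSupport Z₂ →
    HasCompactSupport c →
    (∀ z, (Z₁ z ≠ 0 ∨ Z₂ z ≠ 0 ∨ c z ≠ 0) → h ^ 2 * lap u z = - (g z * u z)) →
    ∫ z, (h ^ 2 * (d1 Z₁ z * d1 u z ^ 2 + (d1 Z₂ z + d2 Z₁ z) * (d1 u z * d2 u z)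
        + d2 Z₂ z * d2 u z ^ 2)
      + (c z - (d1 Z₁ z + d2 Z₂ z) / 2) * (h ^ 2 * (d1 u z ^ 2 + d2 u z ^ 2))
      + ((d1 Z₁ z + d2 Z₂ z) / 2 - c z) * (g z * u z ^ 2)
      + (Z₁ z * d1 g z + Z₂ z * d2 g z) / 2 * u z ^ 2
      - h ^ 2 / 2 * lap c z * u z ^ 2) = 0

/-- CAC: Caccioppoli inequality on balls of radius at least `h` -/
def StmtCac : Prop :=
  ∀ G : ℝ, ∃ C : ℝ, 0 < C ∧ ∀ (u g : ℂ → ℝ) (z₀ : ℂ) (h r : ℝ), ContDiff ℝ ∞ u → 0 < h → h ≤ r →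
    (∀ z ∈ Metric.closedBall z₀ (3 * r), |g z| ≤ G) →
    (∀ z ∈ Metric.closedBall z₀ (3 * r), h ^ 2 * lap u z = - (g z * u z)) →
    ∫ z in Metric.closedBall z₀ (2 * r), h ^ 2 * (d1 u z ^ 2 + d2 u z ^ 2)
      ≤ C * ∫ z in Metric.closedBall z₀ (3 * r), u z ^ 2

/-- MOR: linear growth of the mass (Morawetz) -/
def StmtMor : Prop :=
  ∀ m G : ℝ, 0 < m → ∃ C : ℝ, 0 < C ∧ ∀ (u g : ℂ → ℝ) (z₀ : ℂ) (h r r₀ : ℝ), ContDiff ℝ ∞ u →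
    ContDiff ℝ ∞ g → 0 < h → h ≤ r → r ≤ r₀ → r₀ ≤ 1 →
    (∀ z ∈ Metric.closedBall z₀ (3 * r₀), m ≤ g z ∧ g z ≤ G ∧ |d1 g z| ≤ G ∧ |d2 g z| ≤ G) →
    (∀ z ∈ Metric.closedBall z₀ (3 * r₀), h ^ 2 * lap u z = - (g z * u z)) →
    ∫ z in Metric.closedBall z₀ r, u z ^ 2
      ≤ C * (r / r₀) * ∫ z in Metric.closedBall z₀ (3 * r₀), u z ^ 2

/-- SUP: a pointwise bound at scale `h` -/
def StmtSup : Prop :=
  ∃ C : ℝ, 0 < C ∧ ∀ (v : ℂ → ℂ) (z : ℂ) (h : ℝ), ContDiff ℝ ∞ v → 0 < h →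
    ‖v z‖ ^ 2 ≤ C / h ^ 2 * ∫ w in Metric.closedBall z (3 * h),
      (‖v w‖ ^ 2 + ‖(h : ℂ) ^ 2 * dz (dzb v) w‖ ^ 2)

/-- PTW: the jets are bounded by the local `L²` norm of `φ` at scale `h` -/
def StmtPtw : Prop :=
  ∀ (V : Set ℂ) (σ : ℂ → ℝ) (h : ℕ → ℝ) (φ : ℕ → ℂ → ℂ), Loc V σ h φ →
    ∀ K, IsCompact K → K ⊆ V → ∀ N : ℕ, ∃ c C : ℝ, 0 < c ∧ ∀ᶠ n in atTop, ∀ z ∈ K,
      RR h φ N n z ≤ C * (1 + 1 / h n ^ 2 * ∫ w in Metric.closedBall z (c * h n), ‖φ n w‖ ^ 2)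

/-- GRO: growth of the jets of quantum ergodic sequences -/
def StmtGro : Prop :=
  ∀ (V : Set ℂ) (σ : ℂ → ℝ) (h : ℕ → ℝ) (φ : ℕ → ℂ → ℂ), Loc V σ h φ → Grow V h φ

/-! ### Cauchy transforms -/

/-- CAU: Cauchy transforms of sequences which tend weakly to zero and are dominated by densities with
linear growth tend to zero in `L²_loc` -/
def StmtCau : Prop :=
  ∀ (K K' : Set ℂ) (R : ℕ → ℂ → ℝ) (f : ℕ → ℂ → ℂ) (C : ℝ), IsCompact K → IsCompact K' →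
    (∀ n z, 0 ≤ R n z) → (∀ n, Continuous (R n)) →
    (∀ᶠ n in atTop, ∀ z ∈ K', ∀ s > 0, ∫ w in K ∩ Metric.closedBall z s, R n w ≤ C * s) →
    (∀ n, ContDiff ℝ ∞ (f n)) → (∀ n, tsupport (f n) ⊆ K) →
    (∀ᶠ n in atTop, ∀ z ∈ K, ‖f n z‖ ≤ R n z) →
    (∀ ψ : ℂ → ℂ, ContDiff ℝ ∞ ψ → Tendsto (fun n => ∫ z, ψ z * f n z) atTop (𝓝 0)) →
    Tendsto (fun n => ∫ z in K', ‖cauchy (f n) z‖ ^ 2) atTop (𝓝 0)

/-- HOL: `∂̄ α → 0` in `L²` and `α → 0` weakly imply `α → 0` in `L²` -/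
def StmtHol : Prop :=
  ∀ (V : Set ℂ) (α a b : ℕ → ℂ → ℂ), IsOpen V → (∀ n, ContDiff ℝ ∞ (α n)) →
    (∀ n, ContDiff ℝ ∞ (a n)) → (∀ n, ContDiff ℝ ∞ (b n)) →
    (∀ n, ∀ z ∈ V, α n z = a n z + dz (b n) z) →
    (∀ K, IsCompact K → K ⊆ V → ∃ C : ℝ, ∀ᶠ n in atTop,
      (∫ z in K, ‖a n z‖) ≤ C ∧ (∫ z in K, ‖b n z‖) ≤ C) →
    L2z V (fun n z => dzb (α n) z) →
    (∀ ζ : ℂ → ℂ, Test V ζ → Tendsto (fun n => ∫ z, ζ z * α n z) atTop (𝓝 0)) →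
    L2z V α

/-! ### Consequences of the growth -/

/-- INT: integrals of dominated functions -/
def StmtInt : Prop :=
  ∀ (V : Set ℂ) (h : ℕ → ℝ) (φ u : ℕ → ℂ → ℂ), (∀ n, 0 < h n) → Tendsto h atTop (𝓝 0) →
    (∀ n, ContDiff ℝ ∞ (φ n)) → Grow V h φ → (∀ n, ContDiff ℝ ∞ (u n)) →
    (Bq V h φ 2 u → ∀ K, IsCompact K → K ⊆ V → ∃ C : ℝ, ∀ᶠ n in atTop, (∫ z in K, ‖u n z‖) ≤ C) ∧
    (Bq V h φ 2 u → L2z V (fun n z => (h n : ℂ) * u n z)) ∧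
    (Bq V h φ 4 u → ∀ K, IsCompact K → K ⊆ V →
      Tendsto (fun n => h n * ∫ z in K, ‖u n z‖) atTop (𝓝 0))

/-- IBP: derivatives of dominated functions tend to zero weakly after multiplication by `h` -/
def StmtIbp : Prop :=
  ∀ (V : Set ℂ) (σ : ℂ → ℝ) (h : ℕ → ℝ) (φ u : ℕ → ℂ → ℂ) (k : ℤ), IsOpen V → ContDiff ℝ ∞ σ →
    (∀ n, 0 < h n) → Tendsto h atTop (𝓝 0) → (∀ n, ContDiff ℝ ∞ (φ n)) → Grow V h φ →
    (∀ n, ContDiff ℝ ∞ (u n)) → Bq V h φ 4 u → ∀ ζ : ℂ → ℂ, Test V ζ →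
      Tendsto (fun n => ∫ z, ζ z * ((h n : ℂ) * D σ k (u n) z)) atTop (𝓝 0) ∧
      Tendsto (fun n => ∫ z, ζ z * ((h n : ℂ) * Db σ k (u n) z)) atTop (𝓝 0)

/-! ### The jets -/

/-- JETA: the covariant jets and their derivatives -/
def StmtJetA : Prop :=
  ∀ (V : Set ℂ) (σ : ℂ → ℝ) (h : ℕ → ℝ) (φ : ℕ → ℂ → ℂ), Loc V σ h φ → ∀ j : ℤ,
    Dom V h φ 1 (E σ h φ j) ∧
    (∃ A, Dom V h φ 1 A ∧ ∀ n, ∀ z ∈ V,
      (h n : ℂ) * D σ j (E σ h φ j n) z = E σ h φ (j + 1) n z + (h n : ℂ) ^ 2 * A n z) ∧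
    (∃ A, Dom V h φ 1 A ∧ ∀ n, ∀ z ∈ V,
      (h n : ℂ) * Db σ j (E σ h φ j n) z = - E σ h φ (j - 1) n z + (h n : ℂ) ^ 2 * A n z)

/-- JETB: the rescaled mixed derivatives are covariant jets up to `O(h)` -/
def StmtJetB : Prop :=
  ∀ (V : Set ℂ) (σ : ℂ → ℝ) (h : ℕ → ℝ) (φ : ℕ → ℂ → ℂ), Loc V σ h φ → ∀ a b : ℕ,
    ∃ A, Dom V h φ 1 A ∧ ∀ n, ∀ z ∈ V,
      ex σ (-(a + b)) z * W h φ a b n z
        = (2 : ℂ)⁻¹ ^ (a + b) * (-1) ^ b * E σ h φ ((a : ℤ) - b) n z + (h n : ℂ) * A n z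

/-- TWO: the two-jet limits -/
def StmtTwo : Prop :=
  ∀ (V : Set ℂ) (σ : ℂ → ℝ) (h : ℕ → ℝ) (φ : ℕ → ℂ → ℂ), Loc V σ h φ → ∀ (j m : ℤ) (ζ : ℂ → ℂ),
    Test V ζ → Tendsto (fun n => ∫ z, ζ z * (E σ h φ j n z * E σ h φ m n z)) atTop
      (𝓝 (P j m * ∫ z, ζ z))

/-- ONE: the one-jet limits -/
def StmtOne : Prop :=
  ∀ (V : Set ℂ) (σ : ℂ → ℝ) (h : ℕ → ℝ) (φ : ℕ → ℂ → ℂ), Loc V σ h φ → ∀ (j : ℤ) (ζ : ℂ → ℂ),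
    Test V ζ → Tendsto (fun n => ∫ z, ζ z * E σ h φ j n z) atTop (𝓝 0)

/-! ### Compensated compactness without `L²` bounds -/

/-- POT: potentials of a triple -/
def StmtPot : Prop :=
  ∀ (V : Set ℂ) (σ : ℂ → ℝ) (h : ℕ → ℝ) (φ : ℕ → ℂ → ℂ) (N : ℤ) (A B C : ℕ → ℂ → ℂ), IsOpen V →
    ContDiff ℝ ∞ σ → (∀ n, 0 < h n) → Tendsto h atTop (𝓝 0) → (∀ n, ContDiff ℝ ∞ (φ n)) →
    Grow V h φ → Trip V σ h φ N A B C → ∀ K, IsCompact K → K ⊆ V →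
      ∃ (V' : Set ℂ) (x y : ℕ → ℂ → ℂ), IsOpen V' ∧ K ⊆ V' ∧ V' ⊆ V ∧ Pot V' σ N A B C x y

/-- NID: the null form identity (exact) -/
def StmtNid : Prop :=
  ∀ (V : Set ℂ) (σ : ℂ → ℝ) (N : ℤ) (x y x' y' ζ : ℂ → ℂ), IsOpen V → ContDiff ℝ ∞ σ →
    ContDiff ℝ ∞ x → ContDiff ℝ ∞ y → ContDiff ℝ ∞ x' → ContDiff ℝ ∞ y' → Test V ζ →
    (∀ z ∈ V, Db σ (N + 1) x z = D σ (N - 1) y z) →
    (∀ z ∈ V, Db σ (-N + 1) x' z = D σ (-N - 1) y' z) →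
    ∫ z, ex σ 2 z * (ζ z * (D σ (N + 1) x z * Db σ (-N - 1) y' z
        + Db σ (N - 1) y z * D σ (-N + 1) x' z
        - Db σ (N + 1) x z * D σ (-N - 1) y' z - D σ (N - 1) y z * Db σ (-N + 1) x' z))
      = ∫ z, ex σ 2 z * (Db σ 1 (D σ 0 ζ) z * (x z * y' z + x' z * y z)
          - D σ 1 (D σ 0 ζ) z * (y z * y' z) - Db σ (-1) (Db σ 0 ζ) z * (x z * x' z)
          + 2 * ζ z * curv σ z * ((N - 1) * (x' z * y z) - (N + 1) * (x z * y' z)))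

/-- NUL: the quadratic form `A C' + C A' - 2 B B'` of two triples tends weakly to zero -/
def StmtNul : Prop :=
  ∀ (V : Set ℂ) (σ : ℂ → ℝ) (N : ℤ) (A B C x y A' B' C' x' y' : ℕ → ℂ → ℂ), IsOpen V →
    ContDiff ℝ ∞ σ → (∀ n, ContDiff ℝ ∞ (A n)) → (∀ n, ContDiff ℝ ∞ (B n)) →
    (∀ n, ContDiff ℝ ∞ (C n)) → (∀ n, ContDiff ℝ ∞ (A' n)) → (∀ n, ContDiff ℝ ∞ (B' n)) →
    (∀ n, ContDiff ℝ ∞ (C' n)) → Pot V σ N A B C x y → Pot V σ (-N) A' B' C' x' y' →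
    ∀ ζ : ℂ → ℂ, Test V ζ → Tendsto (fun n => ∫ z, ζ z *
      (A n z * C' n z + C n z * A' n z - 2 * (B n z * B' n z))) atTop (𝓝 0)

/-- TRI: products of jets form triples -/
def StmtTri : Prop :=
  ∀ (V : Set ℂ) (σ : ℂ → ℝ) (h : ℕ → ℝ) (φ : ℕ → ℂ → ℂ), Loc V σ h φ → ∀ j m : ℤ,
    Trip V σ h φ (j + m)
      (fun n z => E σ h φ (j + 1) n z * E σ h φ (m + 1) n z - P (j + 1) (m + 1))
      (fun n z => E σ h φ j n z * E σ h φ m n z - P j m)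
      (fun n z => E σ h φ (j - 1) n z * E σ h φ (m - 1) n z - P (j - 1) (m - 1))

/-- SEC: the second differences of the four-jet integrals -/
def StmtSec : Prop :=
  ∀ (V : Set ℂ) (σ : ℂ → ℝ) (h : ℕ → ℝ) (φ : ℕ → ℂ → ℂ), Loc V σ h φ → ∀ (ζ : ℂ → ℂ), Test V ζ →
    ∀ a b c d : ℤ, a + b + c + d = 0 → Tendsto (fun n =>
      E4 σ h φ ζ (a + 1) (b + 1) (c - 1) (d - 1) n + E4 σ h φ ζ (a - 1) (b - 1) (c + 1) (d + 1) n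
        - 2 * E4 σ h φ ζ a b c d n) atTop
      (𝓝 ((P (a + 1) (b + 1) * P (c - 1) (d - 1) + P (a - 1) (b - 1) * P (c + 1) (d + 1)
        - 2 * (P a b * P c d)) * ∫ z, ζ z))

/-- IFO: integration by parts for four and three jets -/
def StmtIfo : Prop :=
  ∀ (V : Set ℂ) (σ : ℂ → ℝ) (h : ℕ → ℝ) (φ : ℕ → ℂ → ℂ), Loc V σ h φ → ∀ (ζ : ℂ → ℂ), Test V ζ →
    (∀ a b c d : ℤ, Tendsto (fun n =>
      E4 σ h φ ζ (a + 1) b c d n + E4 σ h φ ζ a (b + 1) c d n + E4 σ h φ ζ a b (c + 1) d n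
        + E4 σ h φ ζ a b c (d + 1) n) atTop (𝓝 0)) ∧
    (∀ a b c : ℤ, Tendsto (fun n => E3 σ h φ ζ (a + 1) b c n + E3 σ h φ ζ a (b + 1) c n
        + E3 σ h φ ζ a b (c + 1) n) atTop (𝓝 0)) ∧
    (∀ a b c : ℤ, Tendsto (fun n => E3 σ h φ ζ (a - 1) b c n + E3 σ h φ ζ a (b - 1) c n
        + E3 σ h φ ζ a b (c - 1) n) atTop (𝓝 0))

/-! ### Algebra -/

/-- ALF: symmetric functions on `{a + b + c + d = 0}` with the two recursions -/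
def StmtAlf : Prop :=
  ∀ (X : Type) [AddCommGroup X] [Module ℂ X] (e : ℤ → ℤ → ℤ → ℤ → X),
    (∀ a b c d, e b a c d = e a b c d) → (∀ a b c d, e a c b d = e a b c d) →
    (∀ a b c d, e a b d c = e a b c d) →
    (∀ a b c d, a + b + c + d = 0 → e (a + 1) (b + 1) (c - 1) (d - 1)
      + e (a - 1) (b - 1) (c + 1) (d + 1) = (2 : ℂ) • e a b c d) →
    (∀ a b c d, a + b + c + d = -1 →
      e (a + 1) b c d + e a (b + 1) c d + e a b (c + 1) d + e a b c (d + 1) = 0) →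
    ∀ a b c d, a + b + c + d = 0 → e a b c d = cl4 a b c d • e 0 0 0 0

/-- ALT: symmetric functions on `{a + b + c = 0}` with the two recursions -/
def StmtAlt : Prop :=
  ∀ (X : Type) [AddCommGroup X] [Module ℂ X] (e : ℤ → ℤ → ℤ → X),
    (∀ a b c, e b a c = e a b c) → (∀ a b c, e a c b = e a b c) →
    (∀ a b c, a + b + c = -1 → e (a + 1) b c + e a (b + 1) c + e a b (c + 1) = 0) →
    (∀ a b c, a + b + c = 1 → e (a - 1) b c + e a (b - 1) c + e a b (c - 1) = 0) →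
    ∀ a b c, a + b + c = 0 → e a b c = cl3 b c • e 0 0 0

/-! ### The local theorems for the covariant jets -/

/-- FOU: the four-jet integrals -/
def StmtFou : Prop :=
  ∀ (V : Set ℂ) (σ : ℂ → ℝ) (h : ℕ → ℝ) (φ : ℕ → ℂ → ℂ), Loc V σ h φ → ∀ (ζ : ℂ → ℂ), Test V ζ →
    ∀ a b c d : ℤ, a + b + c + d = 0 → Tendsto (fun n => E4 σ h φ ζ a b c d n
      - (wk a b c d * (∫ z, ζ z)
        + cl4 a b c d * (E4 σ h φ ζ 0 0 0 0 n - 3 * ∫ z, ζ z))) atTop (𝓝 0)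

/-- SUM: the finite sums of the cubic argument: `6 ∣ N`, `w = exp (2 π i / 3)` -/
def StmtSum : Prop :=
  ∀ (w : ℂ) (N : ℕ), w = Complex.exp (2 * Real.pi * Complex.I / 3) → 6 ∣ N → 0 < N →
    (∑ b ∈ Finset.range N, ∑ c ∈ Finset.range N,
      w ^ ((b : ℤ) - c) * cl3 (b : ℤ) c = (N : ℂ) ^ 2 / 2) ∧
    (∑ c ∈ Finset.range N, ∑ b ∈ Finset.range N, ∑ b' ∈ Finset.range N,
      w ^ ((b : ℤ) - b') * (-1) ^ c * cl4 (-(b : ℤ) - c) b ((b' : ℤ) + c) (-(b' : ℤ)) = 0) ∧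
    (∑ c ∈ Finset.range N, ∑ b ∈ Finset.range N, ∑ b' ∈ Finset.range N,
      w ^ ((b : ℤ) - b') * (-1) ^ c * wk (-(b : ℤ) - c) b ((b' : ℤ) + c) (-(b' : ℤ))
        = (N : ℂ) ^ 2 + 1)

/-- CUB: the three-jet integrals tend to zero -/
def StmtCub : Prop :=
  ∀ (V : Set ℂ) (σ : ℂ → ℝ) (h : ℕ → ℝ) (φ : ℕ → ℂ → ℂ), Loc V σ h φ → ∀ (ζ : ℂ → ℂ), Test V ζ →
    ∀ a b c : ℤ, a + b + c = 0 → Tendsto (E3 σ h φ ζ a b c) atTop (𝓝 0)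

/-! ### The local theorems for the mixed derivatives -/

/-- the constant relating the mixed derivatives and the jets -/
def cW (a b : ℕ) : ℂ := (2 : ℂ)⁻¹ ^ (a + b) * (-1) ^ b

/-- the mixed derivatives in isothermal coordinates, `g = e^{2σ}` -/
def Wg (g : ℂ → ℝ) (h : ℕ → ℝ) (φ : ℕ → ℂ → ℂ) (a b n : ℕ) (z : ℂ) : ℂ :=
  (((Real.sqrt (g z))⁻¹ ^ (a + b) : ℝ) : ℂ) * W h φ a b n z

/-- LW: the local theorem for mixed derivatives on an open set, orders one to four, and the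
vanishing of the error terms -/
def StmtLW : Prop :=
  ∀ (U : Set ℂ) (g : ℂ → ℝ) (h : ℕ → ℝ) (φ : ℕ → ℂ → ℂ), IsOpen U → ContDiffOn ℝ ∞ g U →
    (∀ z ∈ U, 0 < g z) → LocalQE U g h φ → ∀ (ζ : ℂ → ℂ), Test U ζ →
    (∀ a b : ℕ, a = b → Tendsto (fun n => ∫ z, ζ z * Wg g h φ a b n z) atTop (𝓝 0)) ∧
    (∀ a b : Fin 2 → ℕ, ∑ i, ((a i : ℤ) - b i) = 0 → Tendsto (fun n => ∫ z, ζ z *
      ∏ i, Wg g h φ (a i) (b i) n z) atTop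
      (𝓝 ((∏ i, cW (a i) (b i)) * P ((a 0 : ℤ) - b 0) ((a 1 : ℤ) - b 1) * ∫ z, ζ z))) ∧
    (∀ a b : Fin 3 → ℕ, ∑ i, ((a i : ℤ) - b i) = 0 → Tendsto (fun n => ∫ z, ζ z *
      ∏ i, Wg g h φ (a i) (b i) n z) atTop (𝓝 0)) ∧
    (∀ a b : Fin 4 → ℕ, ∑ i, ((a i : ℤ) - b i) = 0 → Tendsto (fun n => (∫ z, ζ z *
      ∏ i, Wg g h φ (a i) (b i) n z) - (∏ i, cW (a i) (b i)) *
        (wk ((a 0 : ℤ) - b 0) ((a 1 : ℤ) - b 1) ((a 2 : ℤ) - b 2) ((a 3 : ℤ) - b 3) * (∫ z, ζ z)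
          + cl4 ((a 0 : ℤ) - b 0) ((a 1 : ℤ) - b 1) ((a 2 : ℤ) - b 2) ((a 3 : ℤ) - b 3)
            * ((∫ z, ζ z * φ n z ^ 4) - 3 * ∫ z, ζ z))) atTop (𝓝 0))

/-- LWE: error terms: products of at most four mixed derivatives, multiplied by `h`, are small in
`L¹_loc` -/
def StmtLWE : Prop :=
  ∀ (U : Set ℂ) (g : ℂ → ℝ) (h : ℕ → ℝ) (φ : ℕ → ℂ → ℂ), IsOpen U → ContDiffOn ℝ ∞ g U →
    (∀ z ∈ U, 0 < g z) → LocalQE U g h φ → ∀ K, IsCompact K → K ⊆ U →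
    ∀ (r : ℕ) (a b : Fin r → ℕ), r ≤ 4 →
      Tendsto (fun n => h n * ∫ z in K, ‖∏ i, W h φ (a i) (b i) n z‖) atTop (𝓝 0)

end

end QJ
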