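import Pool.Agent.QJ.Stmts
import Pool.Agent.QJ.Defs2

/-!
Cubic and quartic statistics of quantum ergodic eigenfunctions: statements of the steps (global part).
-/

open MeasureTheory Filter Topology Set UpperHalfPlane MatrixGroups
open scoped ContDiff

namespace QJ

open QE

noncomputable section

/-- TEST: a smooth test function computes the averages of the invariant functions -/
def StmtTest : Prop :=
  ∀ (Γ : Subgroup SL(2, ℝ)) [Countable Γ] (ρ : ℍ → ℝ) (D : Set ℍ), Berry.Geo Γ ρ D →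
    ContDiffOn ℝ ∞ (fun w : ℂ => ρ (ofComplex w)) {w | 0 < w.im} →
    (∃ K : Set ℍ, IsCompact K ∧ ∀ z, ∃ γ ∈ Γ, γ • z ∈ K) →
    ∃ ζ : ℂ → ℝ, ContDiff ℝ ∞ ζ ∧ HasCompactSupport ζ ∧ tsupport ζ ⊆ {w | 0 < w.im} ∧
      (∀ w, 0 ≤ ζ w) ∧ ∀ f : ℍ → ℝ, Continuous f → (∀ γ ∈ Γ, ∀ z, f (γ • z) = f z) →
        Berry.rAvg ρ D f = ∫ w, ζ w * f (ofComplex w)

/-- COMP: mixed derivatives of the composition with a Moebius map -/
def StmtComp : Prop :=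
  ∀ (U : Set ℂ) (f : ℂ → ℂ) (z c d : ℂ), IsOpen U → z ∈ U → ContDiffOn ℝ ∞ f U → ∀ a b : ℕ,
    dz^[a] (dzb^[b] (fun x => f (z + c * x / (1 + d * x)))) 0
      = ∑ i ∈ Finset.range (a + 1), ∑ j ∈ Finset.range (b + 1),
        ((lah a i * lah b j : ℝ) : ℂ) * (c ^ i * d ^ (a - i))
          * ((starRingEnd ℂ) c ^ j * (starRingEnd ℂ) d ^ (b - j)) * dz^[i] (dzb^[j] f) z

/-- ITER: iterated derivatives in terms of the Wirtinger derivatives -/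
def StmtIter : Prop :=
  ∀ (U : Set ℂ) (F : ℂ → ℝ), IsOpen U → (0 : ℂ) ∈ U → ContDiffOn ℝ ∞ F U → ∀ (k : ℕ)
    (v : Fin k → ℂ), ((iteratedFDeriv ℝ k F 0 v : ℝ) : ℂ)
      = ∑ a ∈ Finset.range (k + 1), sc v a * dz^[a] (dzb^[k - a] (fun w => (F w : ℂ))) 0

/-- PWT: covariances of the random plane wave -/
def StmtPwt : Prop :=
  ∀ (k l : ℕ) (v : Fin k → ℂ) (w : Fin l → ℂ), ((covar v w : ℝ) : ℂ)
    = ∑ a ∈ Finset.range (k + 1), ∑ b ∈ Finset.range (l + 1),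
      (sc v a * cW a (k - a)) * (sc w b * cW b (l - b))
        * P ((a : ℤ) - (k - a : ℕ)) ((b : ℤ) - (l - b : ℕ))

/-- PWF: fourth moments of the random plane wave -/
def StmtPwf : Prop :=
  ∀ (k : Fin 4 → ℕ) (v : ∀ i, Fin (k i) → ℂ), ((planeMean k v : ℝ) : ℂ)
    = ∑ a ∈ Fintype.piFinset fun i => Finset.range (k i + 1),
      if ∑ i, ((a i : ℤ) - (k i - a i : ℕ)) = 0 then
        (∏ i, sc (v i) (a i) * cW (a i) (k i - a i)) * (3 / 2 * cl4 ((a 0 : ℤ) - (k 0 - a 0 : ℕ))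
          ((a 1 : ℤ) - (k 1 - a 1 : ℕ)) ((a 2 : ℤ) - (k 2 - a 2 : ℕ))
          ((a 3 : ℤ) - (k 3 - a 3 : ℕ)))
      else 0

/-- WEXP: the derivatives of the local wave at the origin -/
def StmtWexp : Prop :=
  ∀ (ρ φ : ℍ → ℝ) (m : ℝ), 0 < m →
    ContDiffOn ℝ ∞ (fun w : ℂ => φ (ofComplex w)) {w | 0 < w.im} →
    ∀ (z : ℂ), 0 < z.im → ∀ (θ : ℝ) (k : ℕ) (v : Fin k → ℂ) (c d : ℂ),
      c = z.im * ((1 / m : ℝ) * (Real.exp (-ρ (ofComplex z)) : ℝ)) * uu θ ^ 2 →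
      d = ((1 / m : ℝ) * (Real.exp (-ρ (ofComplex z)) : ℝ)) * uu θ * Real.sin θ →
      ((iteratedFDeriv ℝ k (fun x => Berry.rWave ρ φ m x (ofComplex z, θ)) 0 v : ℝ) : ℂ)
        = ∑ a ∈ Finset.range (k + 1), sc v a *
          ∑ i ∈ Finset.range (a + 1), ∑ j ∈ Finset.range (k - a + 1),
            ((lah a i * lah (k - a) j : ℝ) : ℂ) * (c ^ i * d ^ (a - i))
              * ((starRingEnd ℂ) c ^ j * (starRingEnd ℂ) d ^ (k - a - j))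
              * dz^[i] (dzb^[j] (fun w : ℂ => (φ (ofComplex w) : ℂ))) z

/-- MAIN: the mean over the angle of a product of at most four derivatives of the local wave is its
leading part up to an error which is small in `L¹_loc` -/
def StmtMain : Prop :=
  ∀ (ρ : ℍ → ℝ) (φ : ℕ → ℍ → ℝ) (m : ℕ → ℝ),
    ContDiffOn ℝ ∞ (fun w : ℂ => ρ (ofComplex w)) {w | 0 < w.im} → (∀ n, 0 < m n) →
    (∀ n, ContDiffOn ℝ ∞ (fun w : ℂ => φ n (ofComplex w)) {w | 0 < w.im}) →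
    LocalQE {z | 0 < z.im} (fun z => Real.exp (2 * ρ (ofComplex z)) / z.im ^ 2)
      (fun n => 1 / m n) (fun n z => (φ n (ofComplex z) : ℂ)) →
    ∀ (r : ℕ) (k : Fin r → ℕ) (v : ∀ i, Fin (k i) → ℂ), r ≤ 4 →
      ∀ ψ : ℂ → ℝ, ContDiff ℝ ∞ ψ → HasCompactSupport ψ → tsupport ψ ⊆ {w | 0 < w.im} →
      Tendsto (fun n => ((∫ z, ψ z * angJet ρ (φ n) (m n) k v (ofComplex z) : ℝ) : ℂ)
        - ∑ a ∈ Fintype.piFinset fun i => Finset.range (k i + 1),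
          if ∑ i, ((a i : ℤ) - (k i - a i : ℕ)) = 0 then
            (∏ i, sc (v i) (a i)) * ∫ z, (ψ z : ℂ) * ∏ i,
              Wg (fun z => Real.exp (2 * ρ (ofComplex z)) / z.im ^ 2) (fun n => 1 / m n)
                (fun n z => (φ n (ofComplex z) : ℂ)) (a i) (k i - a i) n z
          else 0) atTop (𝓝 0)

/-- LOCG: the local theorem for the local waves -/
def StmtLocG : Prop :=
  ∀ (Γ : Subgroup SL(2, ℝ)) (ρ : ℍ → ℝ) (φ : ℕ → ℍ → ℝ) (m : ℕ → ℝ),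
    ContDiffOn ℝ ∞ (fun w : ℂ => ρ (ofComplex w)) {w | 0 < w.im} → Berry.REigenSeq Γ ρ φ m →
    (∀ n, ContDiffOn ℝ ∞ (fun w : ℂ => φ n (ofComplex w)) {w | 0 < w.im}) →
    QuantumErgodic ρ φ m →
    ∀ ψ : ℂ → ℝ, ContDiff ℝ ∞ ψ → HasCompactSupport ψ → tsupport ψ ⊆ {w | 0 < w.im} →
    (∀ (k : Fin 1 → ℕ) (v : ∀ i, Fin (k i) → ℂ),
      Tendsto (fun n => ∫ z, ψ z * angJet ρ (φ n) (m n) k v (ofComplex z)) atTop (𝓝 0)) ∧
    (∀ (k : Fin 2 → ℕ) (v : ∀ i, Fin (k i) → ℂ),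
      Tendsto (fun n => ∫ z, ψ z * angJet ρ (φ n) (m n) k v (ofComplex z)) atTop
        (𝓝 (covar (v 0) (v 1) * ∫ z, ψ z))) ∧
    (∀ (k : Fin 3 → ℕ) (v : ∀ i, Fin (k i) → ℂ),
      Tendsto (fun n => ∫ z, ψ z * angJet ρ (φ n) (m n) k v (ofComplex z)) atTop (𝓝 0)) ∧
    (∀ (k : Fin 4 → ℕ) (v : ∀ i, Fin (k i) → ℂ),
      Tendsto (fun n => (∫ z, ψ z * angJet ρ (φ n) (m n) k v (ofComplex z))
        - ((covar (v 0) (v 1) * covar (v 2) (v 3) + covar (v 0) (v 2) * covar (v 1) (v 3)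
            + covar (v 0) (v 3) * covar (v 1) (v 2)) * (∫ z, ψ z)
          + 2 / 3 * planeMean k v * ((∫ z, ψ z * φ n (ofComplex z) ^ 4) - 3 * ∫ z, ψ z)))
        atTop (𝓝 0))

/-- INVG: the angular means are continuous and invariant -/
def StmtInvg : Prop :=
  ∀ (Γ : Subgroup SL(2, ℝ)) (ρ φ : ℍ → ℝ) (m : ℝ), 0 < m → Continuous ρ →
    (∀ γ ∈ Γ, ∀ z, ρ (γ • z) = ρ z) → (∀ γ ∈ Γ, ∀ z, φ (γ • z) = φ z) →
    ContDiffOn ℝ ∞ (fun w : ℂ => φ (ofComplex w)) {w | 0 < w.im} →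
    ∀ (r : ℕ) (k : Fin r → ℕ) (v : ∀ i, Fin (k i) → ℂ),
      Continuous (fun p : ℍ × ℝ => jetProd k v (fun x => Berry.rWave ρ φ m x p)) ∧
      Continuous (angJet ρ φ m k v) ∧
      ∀ γ ∈ Γ, ∀ z, angJet ρ φ m k v (γ • z) = angJet ρ φ m k v z

/-- FUB: the mean over points and frames is the mean over the points of the angular mean -/
def StmtFub : Prop :=
  ∀ (Γ : Subgroup SL(2, ℝ)) [Countable Γ] (ρ φ : ℍ → ℝ) (D : Set ℍ) (m : ℝ), 0 < m →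
    Continuous ρ → Berry.Geo Γ ρ D → (∃ K : Set ℍ, IsCompact K ∧ ∀ z, ∃ γ ∈ Γ, γ • z ∈ K) →
    (∀ γ ∈ Γ, ∀ z, φ (γ • z) = φ z) →
    ContDiffOn ℝ ∞ (fun w : ℂ => φ (ofComplex w)) {w | 0 < w.im} →
    ∀ (r : ℕ) (k : Fin r → ℕ) (v : ∀ i, Fin (k i) → ℂ),
      ∫ p, jetProd k v (fun x => Berry.rWave ρ φ m x p) ∂(Berry.rFrameProb ρ D)
        = Berry.rAvg ρ D (angJet ρ φ m k v)

/-- FIN: the final theorem -/
def StmtFin : Prop :=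
  ∀ (Γ : Subgroup SL(2, ℝ)) [Countable Γ] (D : Set ℍ), MeasurableSet D →
    IsFundamentalDomain Γ D (volume : Measure ℍ) →
    (∃ K : Set ℍ, IsCompact K ∧ ∀ z, ∃ γ ∈ Γ, γ • z ∈ K) →
    ∀ ρ : ℍ → ℝ, ContDiffOn ℝ ∞ (fun w : ℂ => ρ (ofComplex w)) {w | 0 < w.im} →
    (∀ γ ∈ Γ, ∀ z, ρ (γ • z) = ρ z) → ∀ (φ : ℕ → ℍ → ℝ) (m : ℕ → ℝ),
    Berry.REigenSeq Γ ρ φ m →
    (∀ n, ContDiffOn ℝ ∞ (fun w : ℂ => φ n (ofComplex w)) {w | 0 < w.im}) →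
    QuantumErgodic ρ φ m →
    (∀ (k : Fin 1 → ℕ) (v : ∀ i, Fin (k i) → ℂ), Tendsto (fun n =>
      ∫ p, jetProd k v (fun x => Berry.rWave ρ (φ n) (m n) x p) ∂(Berry.rFrameProb ρ D))
        atTop (𝓝 0)) ∧
    (∀ (k : Fin 2 → ℕ) (v : ∀ i, Fin (k i) → ℂ), Tendsto (fun n =>
      ∫ p, jetProd k v (fun x => Berry.rWave ρ (φ n) (m n) x p) ∂(Berry.rFrameProb ρ D))
        atTop (𝓝 (covar (v 0) (v 1)))) ∧
    (∀ (k : Fin 3 → ℕ) (v : ∀ i, Fin (k i) → ℂ), Tendsto (fun n =>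
      ∫ p, jetProd k v (fun x => Berry.rWave ρ (φ n) (m n) x p) ∂(Berry.rFrameProb ρ D))
        atTop (𝓝 0)) ∧
    (∀ (k : Fin 4 → ℕ) (v : ∀ i, Fin (k i) → ℂ), Tendsto (fun n =>
      (∫ p, jetProd k v (fun x => Berry.rWave ρ (φ n) (m n) x p) ∂(Berry.rFrameProb ρ D))
        - (covar (v 0) (v 1) * covar (v 2) (v 3) + covar (v 0) (v 2) * covar (v 1) (v 3)
            + covar (v 0) (v 3) * covar (v 1) (v 2)
          + 2 / 3 * (Berry.rAvg ρ D (fun z => φ n z ^ 4) - 3) * planeMean k v))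
        atTop (𝓝 0))

end

end QJ
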