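import Pool.Agent.QJ.Defs3

/-!
Cubic statistics at distinct points: statements of the steps.
-/

open MeasureTheory Filter Topology Set UpperHalfPlane MatrixGroups
open scoped ContDiff

namespace QJ

open QE

noncomputable section

/-- DSP: the jets at displaced points are dominated -/
def StmtDsp : Prop :=
  ∀ (V : Set ℂ) (σ : ℂ → ℝ) (h : ℕ → ℝ) (φ : ℕ → ℂ → ℂ), Loc V σ h φ → ∀ K, IsCompact K → K ⊆ V →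
    ∀ (N : ℕ) (R : ℝ), ∃ S : ℕ → ℂ → ℝ, (∀ n z, 1 ≤ S n z) ∧ (∀ n, Continuous (S n)) ∧
      (∀ᶠ n in atTop, ∀ z ∈ K, ∀ y : ℂ, ‖y‖ ≤ R → z + h n * y ∈ V ∧ RR h φ N n (z + h n * y) ≤ S n z) ∧
      Tendsto (fun n => h n * ∫ z in K, S n z ^ 2) atTop (𝓝 0)

/-- DER: the derivatives of the displaced integrals with respect to the displacement -/
def StmtDer : Prop :=
  ∀ (V : Set ℂ) (σ : ℂ → ℝ) (h : ℕ → ℝ) (φ : ℕ → ℂ → ℂ), Loc V σ h φ → ∀ (ζ : ℂ → ℂ), Test V ζ →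
    ∀ (r : ℕ) (x : Fin r → ℂ) (j : Fin r → ℤ), r ≤ 4 →
      (∀ n, ContDiff ℝ 1 (Aj σ h φ ζ x j n)) ∧
      ∀ ε > 0, ∀ᶠ n in atTop, ∀ l : ℂ, ‖l‖ ≤ 1 →
        ‖2 * dz (Aj σ h φ ζ x j n) l - ∑ i, x i * Aj σ h φ ζ x (j + Pi.single i 1) n l‖ ≤ ε ∧
        ‖2 * dzb (Aj σ h φ ζ x j n) l
          + ∑ i, (starRingEnd ℂ) (x i) * Aj σ h φ ζ x (j - Pi.single i 1) n l‖ ≤ ε

/-- REL: the translation relations at displaced points -/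
def StmtRel : Prop :=
  ∀ (V : Set ℂ) (σ : ℂ → ℝ) (h : ℕ → ℝ) (φ : ℕ → ℂ → ℂ), Loc V σ h φ → ∀ (ζ : ℂ → ℂ), Test V ζ →
    ∀ (r : ℕ) (x : Fin r → ℂ) (j : Fin r → ℤ), r ≤ 4 → ∀ ε > 0, ∀ᶠ n in atTop, ∀ l : ℂ, ‖l‖ ≤ 1 →
      ‖∑ i, Aj σ h φ ζ x (j + Pi.single i 1) n l‖ ≤ ε ∧
      ‖∑ i, Aj σ h φ ζ x (j - Pi.single i 1) n l‖ ≤ ε

/-- RAD: rotation averages of approximate solutions of the Helmholtz equation -/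
def StmtRad : Prop :=
  ∀ (q₀ q₁ : ℂ → ℂ) (X : ℂ) (ε : ℝ), ContDiff ℝ 1 q₀ → ContDiff ℝ 1 q₁ → 0 ≤ ε →
    (∀ l : ℂ, ‖l‖ ≤ 1 → ‖2 * dz q₀ l - X * q₁ l‖ ≤ ε ∧
      ‖2 * dzb q₁ l + (starRingEnd ℂ) X * q₀ l‖ ≤ ε) →
    ‖∫ θ, q₀ (uu θ ^ 2) ∂angle‖ ≤ ‖q₀ 0‖ + 2 * ε

/-- TPA: one and two points -/
def StmtTpa : Prop :=
  ∀ (V : Set ℂ) (σ : ℂ → ℝ) (h : ℕ → ℝ) (φ : ℕ → ℂ → ℂ), Loc V σ h φ → ∀ (ζ : ℂ → ℂ), Test V ζ →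
    (∀ x : Fin 1 → ℂ, Tendsto (fun n => ∫ θ, Aj σ h φ ζ x 0 n (uu θ ^ 2) ∂angle) atTop (𝓝 0)) ∧
    (∀ x : Fin 2 → ℂ, Tendsto (fun n => ∫ θ, Aj σ h φ ζ x 0 n (uu θ ^ 2) ∂angle) atTop
      (𝓝 ((Berry.waveK (x 0 - x 1) : ℂ) * ∫ z, ζ z)))

/-- TPB: three points -/
def StmtTpb : Prop :=
  ∀ (V : Set ℂ) (σ : ℂ → ℝ) (h : ℕ → ℝ) (φ : ℕ → ℂ → ℂ), Loc V σ h φ → ∀ (ζ : ℂ → ℂ), Test V ζ →
    ∀ x : Fin 3 → ℂ, Tendsto (fun n => ∫ θ, Aj σ h φ ζ x 0 n (uu θ ^ 2) ∂angle) atTop (𝓝 0)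

/-- TL: the local theorem at distinct points, for the hypotheses `QE.LocalQE` -/
def StmtTL : Prop :=
  ∀ (U : Set ℂ) (g : ℂ → ℝ) (h : ℕ → ℝ) (φ : ℕ → ℂ → ℂ), IsOpen U → ContDiffOn ℝ ∞ g U →
    (∀ z ∈ U, 0 < g z) → LocalQE U g h φ → ∀ (ζ : ℂ → ℂ), Test U ζ →
    (∀ x : Fin 1 → ℂ, Tendsto (fun n => ∫ θ, (∫ z, ζ z * PD g h φ x n θ z) ∂angle) atTop (𝓝 0)) ∧
    (∀ x : Fin 2 → ℂ, Tendsto (fun n => ∫ θ, (∫ z, ζ z * PD g h φ x n θ z) ∂angle) atTop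
      (𝓝 ((Berry.waveK (x 0 - x 1) : ℂ) * ∫ z, ζ z))) ∧
    (∀ x : Fin 3 → ℂ, Tendsto (fun n => ∫ θ, (∫ z, ζ z * PD g h φ x n θ z) ∂angle) atTop (𝓝 0))

/-- DSU: the functions and their first derivatives at displaced points are dominated, for the
hypotheses `QE.LocalQE` -/
def StmtDsu : Prop :=
  ∀ (U : Set ℂ) (g : ℂ → ℝ) (h : ℕ → ℝ) (φ : ℕ → ℂ → ℂ), IsOpen U → ContDiffOn ℝ ∞ g U →
    (∀ z ∈ U, 0 < g z) → LocalQE U g h φ → ∀ K, IsCompact K → K ⊆ U → ∀ R : ℝ,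
    ∃ S : ℕ → ℂ → ℝ, (∀ n z, 1 ≤ S n z) ∧ (∀ n, Continuous (S n)) ∧
      (∀ᶠ n in atTop, ∀ z ∈ K, ∀ y : ℂ, ‖y‖ ≤ R → z + h n * y ∈ U ∧
        ‖φ n (z + h n * y)‖ ^ 2 ≤ S n z ∧ ‖(h n : ℂ) * dz (φ n) (z + h n * y)‖ ^ 2 ≤ S n z ∧
        ‖(h n : ℂ) * dzb (φ n) (z + h n * y)‖ ^ 2 ≤ S n z) ∧
      Tendsto (fun n => h n * ∫ z in K, S n z ^ 2) atTop (𝓝 0)

/-- PTS: the local theorem for the local waves at distinct points -/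
def StmtPts : Prop :=
  ∀ (Γ : Subgroup SL(2, ℝ)) (ρ : ℍ → ℝ) (φ : ℕ → ℍ → ℝ) (m : ℕ → ℝ),
    ContDiffOn ℝ ∞ (fun w : ℂ => ρ (ofComplex w)) {w | 0 < w.im} → Berry.REigenSeq Γ ρ φ m →
    (∀ n, ContDiffOn ℝ ∞ (fun w : ℂ => φ n (ofComplex w)) {w | 0 < w.im}) →
    QuantumErgodic ρ φ m →
    ∀ ψ : ℂ → ℝ, ContDiff ℝ ∞ ψ → HasCompactSupport ψ → tsupport ψ ⊆ {w | 0 < w.im} →
    (∀ x : Fin 1 → ℂ,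
      Tendsto (fun n => ∫ z, ψ z * angProd ρ (φ n) (m n) x (ofComplex z)) atTop (𝓝 0)) ∧
    (∀ x : Fin 2 → ℂ,
      Tendsto (fun n => ∫ z, ψ z * angProd ρ (φ n) (m n) x (ofComplex z)) atTop
        (𝓝 (Berry.waveK (x 0 - x 1) * ∫ z, ψ z))) ∧
    (∀ x : Fin 3 → ℂ,
      Tendsto (fun n => ∫ z, ψ z * angProd ρ (φ n) (m n) x (ofComplex z)) atTop (𝓝 0))

/-- FINP: all the moments of order at most three -/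
def StmtFinP : Prop :=
  ∀ (Γ : Subgroup SL(2, ℝ)) [Countable Γ] (D : Set ℍ), MeasurableSet D →
    IsFundamentalDomain Γ D (volume : Measure ℍ) →
    (∃ K : Set ℍ, IsCompact K ∧ ∀ z, ∃ γ ∈ Γ, γ • z ∈ K) →
    ∀ ρ : ℍ → ℝ, ContDiffOn ℝ ∞ (fun w : ℂ => ρ (ofComplex w)) {w | 0 < w.im} →
    (∀ γ ∈ Γ, ∀ z, ρ (γ • z) = ρ z) → ∀ (φ : ℕ → ℍ → ℝ) (m : ℕ → ℝ),
    Berry.REigenSeq Γ ρ φ m →
    (∀ n, ContDiffOn ℝ ∞ (fun w : ℂ => φ n (ofComplex w)) {w | 0 < w.im}) →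
    QuantumErgodic ρ φ m →
    (∀ x : ℂ, Tendsto (fun n => ∫ p, Berry.rWave ρ (φ n) (m n) x p ∂(Berry.rFrameProb ρ D))
      atTop (𝓝 0)) ∧
    (∀ x y : ℂ, Tendsto (fun n => ∫ p, Berry.rWave ρ (φ n) (m n) x p
        * Berry.rWave ρ (φ n) (m n) y p ∂(Berry.rFrameProb ρ D)) atTop
      (𝓝 (Berry.waveK (x - y)))) ∧
    (∀ x y z : ℂ, Tendsto (fun n => ∫ p, Berry.rWave ρ (φ n) (m n) x p
        * Berry.rWave ρ (φ n) (m n) y p * Berry.rWave ρ (φ n) (m n) z p ∂(Berry.rFrameProb ρ D))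
      atTop (𝓝 0))

end

end QJ
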