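import Pool.Agent.QJ.Stmts

/-!
VIR: the virial identity.
-/

open Complex MeasureTheory Filter Topology Set
open scoped ContDiff

namespace QJ

open QE

noncomputable section

namespace VIR

/-- directional derivative -/
def dv (v : ℂ) (u : ℂ → ℝ) (z : ℂ) : ℝ := fderiv ℝ u z v

lemma d1_eq (u : ℂ → ℝ) : d1 u = dv 1 u := rfl

lemma d2_eq (u : ℂ → ℝ) : d2 u = dv Complex.I u := rfl

lemma contDiff_dv {u : ℂ → ℝ} (hu : ContDiff ℝ ∞ u) (v : ℂ) : ContDiff ℝ ∞ (dv v u) :=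
  (hu.fderiv_right (m := ∞) (by simp)).clm_apply contDiff_const

lemma dat {u : ℂ → ℝ} (hu : ContDiff ℝ ∞ u) (z : ℂ) : DifferentiableAt ℝ u z :=
  (hu.differentiable (by simp)) z

lemma dv_mul {f g : ℂ → ℝ} (hf : ContDiff ℝ ∞ f) (hg : ContDiff ℝ ∞ g) (v z : ℂ) :
    dv v (fun w => f w * g w) z = dv v f z * g z + f z * dv v g z := by
  unfold dv
  rw [fderiv_fun_mul (dat hf z) (dat hg z)]
  simp only [add_apply, smul_apply, smul_eq_mul]
  ring

lemma dv_add {f g : ℂ → ℝ} (hf : ContDiff ℝ ∞ f) (hg : ContDiff ℝ ∞ g) (v z : ℂ) :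
    dv v (fun w => f w + g w) z = dv v f z + dv v g z := by
  unfold dv
  rw [fderiv_fun_add (dat hf z) (dat hg z)]
  rfl

lemma dv_sub {f g : ℂ → ℝ} (hf : ContDiff ℝ ∞ f) (hg : ContDiff ℝ ∞ g) (v z : ℂ) :
    dv v (fun w => f w - g w) z = dv v f z - dv v g z := by
  unfold dv
  rw [fderiv_fun_sub (dat hf z) (dat hg z)]
  rfl

lemma dv_const_mul {f : ℂ → ℝ} (c : ℝ) (hf : ContDiff ℝ ∞ f) (v z : ℂ) :
    dv v (fun w => c * f w) z = c * dv v f z := by
  unfold dv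
  rw [fderiv_const_mul (dat hf z)]
  rfl

lemma dv_comm {u : ℂ → ℝ} (hu : ContDiff ℝ ∞ u) (v w z : ℂ) :
    dv v (dv w u) z = dv w (dv v u) z := by
  have hu2 : ContDiffAt ℝ 2 u z := hu.contDiffAt.of_le (WithTop.coe_le_coe.2 le_top)
  have hd : ContDiffAt ℝ 1 (fderiv ℝ u) z := hu2.fderiv_right (m := 1) (by norm_num)
  have hd' : DifferentiableAt ℝ (fderiv ℝ u) z := hd.differentiableAt (by norm_num)
  have hsym : ∀ v w : ℂ, fderiv ℝ (fderiv ℝ u) z v w = fderiv ℝ (fderiv ℝ u) z w v :=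
    fun v w => (hu2.isSymmSndFDerivAt (by simp)).eq v w
  have key : ∀ v w : ℂ, fderiv ℝ (fun x => fderiv ℝ u x v) z w = fderiv ℝ (fderiv ℝ u) z w v := by
    intro v w
    rw [fderiv_clm_apply hd' (differentiableAt_const v)]
    simp
  have e1 : dv v (dv w u) z = fderiv ℝ (fderiv ℝ u) z v w := key w v
  have e2 : dv w (dv v u) z = fderiv ℝ (fderiv ℝ u) z w v := key v w
  rw [e1, e2, hsym]

lemma int_dv {f : ℂ → ℝ} (hf : ContDiff ℝ ∞ f) (hc : HasCompactSupport f) (v : ℂ) :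
    Integrable (fun z => dv v f z) ∧ ∫ z, dv v f z = 0 := by
  have h := integral_mul_fderiv_eq_neg_fderiv_mul_of_integrable (𝕜 := ℝ) (μ := (volume : Measure ℂ))
    (f := fun _ : ℂ => (1 : ℝ)) (g := f) (v := v)
  have hfi : Integrable (fun z => fderiv ℝ f z v) := by
    have hcont : Continuous (fun z => fderiv ℝ f z v) :=
      (hf.continuous_fderiv (by simp)).clm_apply continuous_const
    exact hcont.integrable_of_hasCompactSupport (hc.fderiv_apply (𝕜 := ℝ) v)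
  have hfi2 : Integrable f := hf.continuous.integrable_of_hasCompactSupport hc
  have h2 := h (by simp) (by simpa using hfi) (by simpa using hfi2) (fun x _ => by fun_prop)
    (fun x _ => hf.differentiable (by simp) x)
  refine ⟨hfi, ?_⟩
  have h3 : ∫ z, fderiv ℝ f z v = 0 := by simpa using h2
  exact h3

/-- the components of the vector field -/
def VV (v : ℂ) (u g Z c X q : ℂ → ℝ) (h : ℝ) (z : ℂ) : ℝ :=
  h ^ 2 * (X z * dv v u z) - h ^ 2 / 2 * (Z z * q z) + 1 / 2 * (Z z * (g z * (u z * u z)))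
    + h ^ 2 * (c z * (u z * dv v u z)) - h ^ 2 / 2 * ((u z * u z) * dv v c z)

lemma dv_VV {u g Z c X q : ℂ → ℝ} (hu : ContDiff ℝ ∞ u) (hg : ContDiff ℝ ∞ g)
    (hZ : ContDiff ℝ ∞ Z) (hc : ContDiff ℝ ∞ c) (hX : ContDiff ℝ ∞ X) (hq : ContDiff ℝ ∞ q)
    (h : ℝ) (v z : ℂ) :
    ContDiff ℝ ∞ (VV v u g Z c X q h) ∧ dv v (VV v u g Z c X q h) z =
      h ^ 2 * (dv v X z * dv v u z + X z * dv v (dv v u) z)
      - h ^ 2 / 2 * (dv v Z z * q z + Z z * dv v q z)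
      + 1 / 2 * (dv v Z z * (g z * (u z * u z)) + Z z * (dv v g z * (u z * u z)
        + g z * (dv v u z * u z + u z * dv v u z)))
      + h ^ 2 * (dv v c z * (u z * dv v u z) + c z * (dv v u z * dv v u z
        + u z * dv v (dv v u) z))
      - h ^ 2 / 2 * ((dv v u z * u z + u z * dv v u z) * dv v c z
        + (u z * u z) * dv v (dv v c) z) := by
  have hu' := contDiff_dv hu v
  have hc' := contDiff_dv hc v
  have i1 : ContDiff ℝ ∞ (fun z => X z * dv v u z) := hX.mul hu'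
  have i2 : ContDiff ℝ ∞ (fun z => Z z * q z) := hZ.mul hq
  have i3 : ContDiff ℝ ∞ (fun z => u z * u z) := hu.mul hu
  have i4 : ContDiff ℝ ∞ (fun z => g z * (u z * u z)) := hg.mul i3
  have i5 : ContDiff ℝ ∞ (fun z => Z z * (g z * (u z * u z))) := hZ.mul i4
  have i6 : ContDiff ℝ ∞ (fun z => u z * dv v u z) := hu.mul hu'
  have i7 : ContDiff ℝ ∞ (fun z => c z * (u z * dv v u z)) := hc.mul i6
  have i8 : ContDiff ℝ ∞ (fun z => (u z * u z) * dv v c z) := i3.mul hc'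
  have j1 : ContDiff ℝ ∞ (fun z => h ^ 2 * (X z * dv v u z)) := contDiff_const.mul i1
  have j2 : ContDiff ℝ ∞ (fun z => h ^ 2 / 2 * (Z z * q z)) := contDiff_const.mul i2
  have j3 : ContDiff ℝ ∞ (fun z => 1 / 2 * (Z z * (g z * (u z * u z)))) := contDiff_const.mul i5
  have j4 : ContDiff ℝ ∞ (fun z => h ^ 2 * (c z * (u z * dv v u z))) := contDiff_const.mul i7
  have j5 : ContDiff ℝ ∞ (fun z => h ^ 2 / 2 * ((u z * u z) * dv v c z)) := contDiff_const.mul i8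
  have k1 : ContDiff ℝ ∞ (fun z => h ^ 2 * (X z * dv v u z) - h ^ 2 / 2 * (Z z * q z)) :=
    j1.sub j2
  have k2 : ContDiff ℝ ∞ (fun z => h ^ 2 * (X z * dv v u z) - h ^ 2 / 2 * (Z z * q z)
    + 1 / 2 * (Z z * (g z * (u z * u z)))) := k1.add j3
  have k3 : ContDiff ℝ ∞ (fun z => h ^ 2 * (X z * dv v u z) - h ^ 2 / 2 * (Z z * q z)
    + 1 / 2 * (Z z * (g z * (u z * u z))) + h ^ 2 * (c z * (u z * dv v u z))) := k2.add j4
  have k4 : ContDiff ℝ ∞ (VV v u g Z c X q h) := k3.sub j5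
  refine ⟨k4, ?_⟩
  unfold VV
  rw [dv_sub k3 j5, dv_add k2 j4, dv_add k1 j3, dv_sub j1 j2, dv_const_mul _ i1,
    dv_const_mul _ i2, dv_const_mul _ i5, dv_const_mul _ i7, dv_const_mul _ i8,
    dv_mul hX hu', dv_mul hZ hq, dv_mul hZ i4, dv_mul hg i3, dv_mul hu hu, dv_mul hc i6,
    dv_mul hu hu', dv_mul i3 hc', dv_mul hu hu]

lemma supp_VV {u g Z c X q : ℂ → ℝ} {K : Set ℂ} (hK : IsCompact K)
    (hX : ∀ z, z ∉ K → X z = 0) (hZ : ∀ z, z ∉ K → Z z = 0) (hc : ∀ z, z ∉ K → c z = 0)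
    {v : ℂ} (hc' : ∀ z, z ∉ K → dv v c z = 0) (h : ℝ) :
    HasCompactSupport (VV v u g Z c X q h) := by
  refine HasCompactSupport.intro hK fun z hz => ?_
  unfold VV
  rw [hX z hz, hZ z hz, hc z hz, hc' z hz]
  ring

end VIR

open VIR in
theorem stmtVir : StmtVir := by
  intro u g Z₁ Z₂ c h hu hg hZ₁ hZ₂ hc sZ₁ sZ₂ sc heq
  simp only [lap, d1_eq, d2_eq] at heq ⊢
  have hu1 := contDiff_dv hu 1
  have hu2 := contDiff_dv hu Complex.I
  set X : ℂ → ℝ := fun z => Z₁ z * dv 1 u z + Z₂ z * dv Complex.I u z with hXd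
  set q : ℂ → ℝ := fun z => dv 1 u z * dv 1 u z + dv Complex.I u z * dv Complex.I u z with hqd
  have hX : ContDiff ℝ ∞ X := (hZ₁.mul hu1).add (hZ₂.mul hu2)
  have hq : ContDiff ℝ ∞ q := (hu1.mul hu1).add (hu2.mul hu2)
  set K : Set ℂ := tsupport Z₁ ∪ tsupport Z₂ ∪ tsupport c with hKd
  have hK : IsCompact K := (sZ₁.isCompact.union sZ₂.isCompact).union sc.isCompact
  have k1 : ∀ z, z ∉ K → Z₁ z = 0 := fun z hz =>
    image_eq_zero_of_notMem_tsupport fun h1 => hz (Or.inl (Or.inl h1))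
  have k2 : ∀ z, z ∉ K → Z₂ z = 0 := fun z hz =>
    image_eq_zero_of_notMem_tsupport fun h1 => hz (Or.inl (Or.inr h1))
  have k3 : ∀ z, z ∉ K → c z = 0 := fun z hz =>
    image_eq_zero_of_notMem_tsupport fun h1 => hz (Or.inr h1)
  have k4 : ∀ z, z ∉ K → X z = 0 := fun z hz => by
    rw [hXd]
    simp only
    rw [k1 z hz, k2 z hz]
    ring
  have k5 : ∀ v z, z ∉ K → dv v c z = 0 := fun v z hz => by
    have h1 : fderiv ℝ c z = 0 := by
      by_contra h2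
      exact hz (Or.inr (tsupport_fderiv_subset ℝ (subset_closure h2)))
    unfold dv
    rw [h1]
    rfl
  have s1 : HasCompactSupport (VV 1 u g Z₁ c X q h) := supp_VV hK k4 k1 k3 (k5 1) h
  have s2 : HasCompactSupport (VV Complex.I u g Z₂ c X q h) :=
    supp_VV hK k4 k2 k3 (k5 Complex.I) h
  have c1 := (dv_VV hu hg hZ₁ hc hX hq h 1 0).1
  have c2 := (dv_VV hu hg hZ₂ hc hX hq h Complex.I 0).1
  obtain ⟨i1, j1⟩ := int_dv c1 s1 1
  obtain ⟨i2, j2⟩ := int_dv c2 s2 Complex.I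
  have key : ∀ z, h ^ 2 * (dv 1 Z₁ z * dv 1 u z ^ 2 + (dv 1 Z₂ z + dv Complex.I Z₁ z) *
        (dv 1 u z * dv Complex.I u z) + dv Complex.I Z₂ z * dv Complex.I u z ^ 2)
      + (c z - (dv 1 Z₁ z + dv Complex.I Z₂ z) / 2) *
        (h ^ 2 * (dv 1 u z ^ 2 + dv Complex.I u z ^ 2))
      + ((dv 1 Z₁ z + dv Complex.I Z₂ z) / 2 - c z) * (g z * u z ^ 2)
      + (Z₁ z * dv 1 g z + Z₂ z * dv Complex.I g z) / 2 * u z ^ 2
      - h ^ 2 / 2 * (dv 1 (dv 1 c) z + dv Complex.I (dv Complex.I c) z) * u z ^ 2 =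
      dv 1 (VV 1 u g Z₁ c X q h) z + dv Complex.I (VV Complex.I u g Z₂ c X q h) z := by
    intro z
    have e0 : (X z + c z * u z) * (h ^ 2 * (dv 1 (dv 1 u) z +
        dv Complex.I (dv Complex.I u) z) + g z * u z) = 0 := by
      by_cases hz : Z₁ z ≠ 0 ∨ Z₂ z ≠ 0 ∨ c z ≠ 0
      · rw [heq z hz]
        ring
      · push Not at hz
        rw [hXd]
        simp only
        rw [hz.1, hz.2.1, hz.2.2]
        ring
    have e1 := dv_comm hu 1 Complex.I z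
    have x1 : ∀ v, dv v X z = dv v Z₁ z * dv 1 u z + Z₁ z * dv v (dv 1 u) z +
        (dv v Z₂ z * dv Complex.I u z + Z₂ z * dv v (dv Complex.I u) z) := by
      intro v
      rw [hXd, dv_add (hZ₁.mul hu1) (hZ₂.mul hu2), dv_mul hZ₁ hu1, dv_mul hZ₂ hu2]
    have x2 : ∀ v, dv v q z = dv v (dv 1 u) z * dv 1 u z + dv 1 u z * dv v (dv 1 u) z +
        (dv v (dv Complex.I u) z * dv Complex.I u z +
          dv Complex.I u z * dv v (dv Complex.I u) z) := by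
      intro v
      rw [hqd, dv_add (hu1.mul hu1) (hu2.mul hu2), dv_mul hu1 hu1, dv_mul hu2 hu2]
    rw [(dv_VV hu hg hZ₁ hc hX hq h 1 z).2, (dv_VV hu hg hZ₂ hc hX hq h Complex.I z).2,
      x1, x1, x2, x2, e1]
    have e2 : X z = Z₁ z * dv 1 u z + Z₂ z * dv Complex.I u z := rfl
    have e3 : q z = dv 1 u z * dv 1 u z + dv Complex.I u z * dv Complex.I u z := rfl
    rw [e2] at e0
    rw [e2, e3]
    linear_combination (-1 : ℝ) * e0
  simp only [key]
  rw [integral_add i1 i2, j1, j2, add_zero]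

end

end QJ
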